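import Pool.Agent.Lib.MP_9c5086_lc.BTree

/-!
Spiders: a path with legs ending in negative ports.
-/

namespace Pool.Agent.Lib.MP_9c5086_lc

namespace Graph

variable {V E I : Type} {H : Graph V E} {t : V → I}

/-- A path with the vertices `0, …, n`, the states `K`, the vertices `σ r k` and the darts `ν r k`
from `σ r k` to `σ (r + 1) k`. -/
structure Body (H : Graph V E) (t : V → I) (K : Type) where
  n : ℕ
  σ : ℕ → K → V
  ν : ℕ → K → H.Dart
  src_ν : ∀ r, r < n → ∀ k, (ν r k).src = σ r k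
  tgt_ν : ∀ r, r < n → ∀ k, (ν r k).tgt = σ (r + 1) k
  ty : ∀ r, r ≤ n → ∀ k k', t (σ r k) = t (σ r k')
  nb : ∀ r, r + 1 < n → ∀ k, ν (r + 1) k ≠ (ν r k).inv
  sound : ∀ (fv : ℕ → V) (fe : ℕ → E), (∀ r, r ≤ n → ∃ k, fv r = σ r k) →
    (∀ r, r < n → H.Joins (fe r) (fv r) (fv (r + 1)) ∧ ∃ k, fe r = (ν r k).edge) →
    (∀ r, r + 1 < n → fe r = fe (r + 1) → 2 ≤ H.inc (fe r) (fv (r + 1))) →
    ∃ k, ∀ r, r ≤ n → fv r = σ r k

/-- A leg: a path with the vertices `0, …, len` and two states, the darts `β s b` from the vertex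
`s` to the vertex `s + 1` for `s < len`, and a negative port `β len b` at its end. -/
structure Leg (S : Setup H t Bool) where
  len : ℕ
  len_pos : 0 < len
  β : ℕ → Bool → H.Dart
  src_β : ∀ s, s < len → ∀ b, (β (s + 1) b).src = (β s b).tgt
  ty_β : ∀ s, s ≤ len → ∀ b b', t (β s b).src = t (β s b').src
  nb_β : ∀ s, s < len → ∀ b, β (s + 1) b ≠ (β s b).inv
  last_β : ∀ b, β len b = (S.dc b).inv
  sound_β : ∀ (fv : ℕ → V) (fe : ℕ → E), (∀ s, s ≤ len → ∃ b, fv s = (β s b).src) →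
    (∀ s, s < len → H.Joins (fe s) (fv s) (fv (s + 1)) ∧ ∃ b, fe s = (β s b).edge) →
    (∀ s, s + 1 < len → fe s = fe (s + 1) → 2 ≤ H.inc (fe s) (fv (s + 1))) →
    ∃ b, ∀ s, s ≤ len → fv s = (β s b).src

/-- A spider: the leg `p` starts at the body vertex `pos p`, and its state is `val p k` if the body
is in the state `k`. -/
structure Spider (S : Setup H t Bool) (K P : Type) where
  k₀ : K
  body : Body H t K
  pos : P → ℕ
  pos_le : ∀ p, pos p ≤ body.n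
  val : P → K → Bool
  leg : P → Leg S
  start : ∀ p k, ((leg p).β 0 (val p k)).src = body.σ (pos p) k
  start_ne : ∀ p, ((leg p).β 0 false).src ≠ ((leg p).β 0 true).src
  dis_leg : ∀ p p' k, p ≠ p' → pos p = pos p' →
    (leg p).β 0 (val p k) ≠ (leg p').β 0 (val p' k)
  dis_out : ∀ p k, pos p < body.n → (leg p).β 0 (val p k) ≠ body.ν (pos p) k
  dis_in : ∀ p k r, pos p = r + 1 → r < body.n → (leg p).β 0 (val p k) ≠ (body.ν r k).inv
  tgt_ne : (S.dc false).tgt ≠ (S.dc true).tgt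

namespace Spider

variable {S : Setup H t Bool} {K P : Type} (A : Spider S K P)

/-- The vertices: `inl r` for `r ≤ n` is the body vertex `r`, `inr ⟨p, i⟩` is the vertex `i + 1` of
the leg `p`. -/
abbrev Vtx : Type := Fin (A.body.n + 1) ⊕ Σ p, Fin (A.leg p).len

/-- The parent of a vertex. -/
def par : A.Vtx → A.Vtx
  | Sum.inl r => Sum.inl ⟨r.1 - 1, by omega⟩
  | Sum.inr ⟨p, i⟩ => if i.1 = 0 then Sum.inl ⟨A.pos p, Nat.lt_succ_of_le (A.pos_le p)⟩ else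
      Sum.inr ⟨p, ⟨i.1 - 1, by omega⟩⟩

/-- The depth of a vertex. -/
def dep : A.Vtx → ℕ
  | Sum.inl r => r.1
  | Sum.inr ⟨p, i⟩ => A.pos p + i.1 + 1

/-- The vertex of a vertex in the state `k`. -/
def vt : A.Vtx → K → V
  | Sum.inl r => A.body.σ r.1
  | Sum.inr ⟨p, i⟩ => fun k => ((A.leg p).β (i.1 + 1) (A.val p k)).src

/-- The dart from the parent in the state `k`. -/
def dt : A.Vtx → K → H.Dart
  | Sum.inl r => A.body.ν (r.1 - 1)
  | Sum.inr ⟨p, i⟩ => fun k => (A.leg p).β i.1 (A.val p k)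

/-- The vertex of a port. -/
def pv (p : P) : A.Vtx :=
  Sum.inr ⟨p, ⟨(A.leg p).len - 1, by have := (A.leg p).len_pos; omega⟩⟩

/-- The root. -/
def rt : A.Vtx := Sum.inl ⟨0, Nat.succ_pos _⟩

theorem dep_par (u : A.Vtx) (hu : u ≠ A.rt) : A.dep (A.par u) < A.dep u := by
  rcases u with ⟨r, hr⟩ | ⟨p, ⟨i, hi⟩⟩
  · have h0 : r ≠ 0 := fun h => hu (by subst h; rfl)
    show r - 1 < r
    omega
  · by_cases h0 : i = 0
    · subst h0
      show A.pos p < A.pos p + 0 + 1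
      omega
    · have h1 : A.par (Sum.inr ⟨p, ⟨i, hi⟩⟩) = Sum.inr ⟨p, ⟨i - 1, by omega⟩⟩ := if_neg h0
      rw [h1]
      show A.pos p + (i - 1) + 1 < A.pos p + i + 1
      omega

theorem src_dt (u : A.Vtx) (hu : u ≠ A.rt) (k : K) : (A.dt u k).src = A.vt (A.par u) k := by
  rcases u with ⟨r, hr⟩ | ⟨p, ⟨i, hi⟩⟩
  · have h0 : r ≠ 0 := fun h => hu (by subst h; rfl)
    exact A.body.src_ν (r - 1) (by omega) k
  · by_cases h0 : i = 0
    · subst h0
      exact A.start p k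
    · have h1 : A.par (Sum.inr ⟨p, ⟨i, hi⟩⟩) = Sum.inr ⟨p, ⟨i - 1, by omega⟩⟩ := if_neg h0
      rw [h1]
      show ((A.leg p).β i (A.val p k)).src = ((A.leg p).β (i - 1 + 1) (A.val p k)).src
      rw [Nat.sub_add_cancel (by omega)]

theorem tgt_dt (u : A.Vtx) (hu : u ≠ A.rt) (k : K) : (A.dt u k).tgt = A.vt u k := by
  rcases u with ⟨r, hr⟩ | ⟨p, ⟨i, hi⟩⟩
  · have h0 : r ≠ 0 := fun h => hu (by subst h; rfl)
    have h1 := A.body.tgt_ν (r - 1) (by omega) k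
    rw [Nat.sub_add_cancel (by omega)] at h1
    exact h1
  · exact ((A.leg p).src_β i hi (A.val p k)).symm

theorem ty_vt (u : A.Vtx) (k k' : K) : t (A.vt u k) = t (A.vt u k') := by
  rcases u with ⟨r, hr⟩ | ⟨p, ⟨i, hi⟩⟩
  · exact A.body.ty r (by omega) k k'
  · exact (A.leg p).ty_β (i + 1) (by omega) _ _

theorem dis_up (u u' : A.Vtx) (hu : u ≠ A.rt) (hu' : u' ≠ A.rt) (h : A.par u' = u) (k : K) :
    A.dt u' k ≠ (A.dt u k).inv := by
  rcases u' with ⟨r', hr'⟩ | ⟨p', ⟨i', hi'⟩⟩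
  · have h0' : r' ≠ 0 := fun h => hu' (by subst h; rfl)
    have h1 : A.par (Sum.inl ⟨r', hr'⟩) = Sum.inl ⟨r' - 1, by omega⟩ := rfl
    rw [h1] at h
    subst h
    have h0 : r' - 1 ≠ 0 := fun h => hu (by
      show (Sum.inl ⟨r' - 1, _⟩ : A.Vtx) = Sum.inl ⟨0, _⟩
      congr)
    have h2 := A.body.nb (r' - 1 - 1) (by omega) k
    rw [Nat.sub_add_cancel (by omega)] at h2
    exact h2
  · by_cases h0' : i' = 0
    · subst h0'
      have h1 : A.par (Sum.inr ⟨p', ⟨0, hi'⟩⟩) =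
        Sum.inl ⟨A.pos p', Nat.lt_succ_of_le (A.pos_le p')⟩ := rfl
      rw [h1] at h
      subst h
      have h0 : A.pos p' ≠ 0 := fun h => hu (by
        show (Sum.inl ⟨A.pos p', _⟩ : A.Vtx) = Sum.inl ⟨0, _⟩
        congr)
      have h3 := A.pos_le p'
      exact A.dis_in p' k (A.pos p' - 1) (by omega) (by omega)
    · have h1 : A.par (Sum.inr ⟨p', ⟨i', hi'⟩⟩) = Sum.inr ⟨p', ⟨i' - 1, by omega⟩⟩ := if_neg h0'
      rw [h1] at h
      subst h
      have h2 := (A.leg p').nb_β (i' - 1) (by omega) (A.val p' k)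
      rw [Nat.sub_add_cancel (by omega)] at h2
      exact h2

private theorem dis_sib_aux (r : ℕ) (hr : r < A.body.n + 1) (hr0 : r ≠ 0) (p : P) (i : ℕ)
    (hi : i < (A.leg p).len)
    (h : A.par (Sum.inl ⟨r, hr⟩) = A.par (Sum.inr ⟨p, ⟨i, hi⟩⟩)) (k : K) :
    A.dt (Sum.inr ⟨p, ⟨i, hi⟩⟩) k ≠ A.dt (Sum.inl ⟨r, hr⟩) k := by
  by_cases h0 : i = 0
  · subst h0
    have h1 : A.par (Sum.inr ⟨p, ⟨0, hi⟩⟩) =
      Sum.inl ⟨A.pos p, Nat.lt_succ_of_le (A.pos_le p)⟩ := rfl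
    have h2 : A.par (Sum.inl ⟨r, hr⟩) = Sum.inl ⟨r - 1, by omega⟩ := rfl
    rw [h1, h2] at h
    have h3 : r - 1 = A.pos p := congrArg Fin.val (Sum.inl_injective h)
    have h4 := A.dis_out p k (by omega)
    rw [← h3] at h4
    exact h4
  · have h1 : A.par (Sum.inr ⟨p, ⟨i, hi⟩⟩) = Sum.inr ⟨p, ⟨i - 1, by omega⟩⟩ := if_neg h0
    have h2 : A.par (Sum.inl ⟨r, hr⟩) = Sum.inl ⟨r - 1, by omega⟩ := rfl
    rw [h1, h2] at h
    exact absurd h Sum.inl_ne_inr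

theorem dis_sib (u u' : A.Vtx) (hu : u ≠ A.rt) (hu' : u' ≠ A.rt) (h : A.par u = A.par u')
    (hne : u ≠ u') (k : K) : A.dt u k ≠ A.dt u' k := by
  rcases u with ⟨r, hr⟩ | ⟨p, ⟨i, hi⟩⟩ <;> rcases u' with ⟨r', hr'⟩ | ⟨p', ⟨i', hi'⟩⟩
  · have h0 : r ≠ 0 := fun h => hu (by subst h; rfl)
    have h0' : r' ≠ 0 := fun h => hu' (by subst h; rfl)
    have h1 : r - 1 = r' - 1 := congrArg Fin.val (Sum.inl_injective h)
    have h2 : r = r' := by omega
    subst h2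
    exact absurd rfl hne
  · have h0 : r ≠ 0 := fun h => hu (by subst h; rfl)
    exact (A.dis_sib_aux r hr h0 p' i' hi' h k).symm
  · have h0' : r' ≠ 0 := fun h => hu' (by subst h; rfl)
    exact A.dis_sib_aux r' hr' h0' p i hi h.symm k
  · by_cases h0 : i = 0 <;> by_cases h0' : i' = 0
    · subst h0
      subst h0'
      have h1 : A.par (Sum.inr ⟨p, ⟨0, hi⟩⟩) =
        Sum.inl ⟨A.pos p, Nat.lt_succ_of_le (A.pos_le p)⟩ := rfl
      have h1' : A.par (Sum.inr ⟨p', ⟨0, hi'⟩⟩) =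
        Sum.inl ⟨A.pos p', Nat.lt_succ_of_le (A.pos_le p')⟩ := rfl
      rw [h1, h1'] at h
      have h2 : A.pos p = A.pos p' := congrArg Fin.val (Sum.inl_injective h)
      have h3 : p ≠ p' := fun h => by
        subst h
        exact hne rfl
      exact A.dis_leg p p' k h3 h2
    · subst h0
      have h1 : A.par (Sum.inr ⟨p, ⟨0, hi⟩⟩) =
        Sum.inl ⟨A.pos p, Nat.lt_succ_of_le (A.pos_le p)⟩ := rfl
      have h1' : A.par (Sum.inr ⟨p', ⟨i', hi'⟩⟩) = Sum.inr ⟨p', ⟨i' - 1, by omega⟩⟩ :=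
        if_neg h0'
      rw [h1, h1'] at h
      exact absurd h Sum.inl_ne_inr
    · subst h0'
      have h1 : A.par (Sum.inr ⟨p, ⟨i, hi⟩⟩) = Sum.inr ⟨p, ⟨i - 1, by omega⟩⟩ := if_neg h0
      have h1' : A.par (Sum.inr ⟨p', ⟨0, hi'⟩⟩) =
        Sum.inl ⟨A.pos p', Nat.lt_succ_of_le (A.pos_le p')⟩ := rfl
      rw [h1, h1'] at h
      exact absurd h.symm Sum.inl_ne_inr
    · have h1 : A.par (Sum.inr ⟨p, ⟨i, hi⟩⟩) = Sum.inr ⟨p, ⟨i - 1, by omega⟩⟩ := if_neg h0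
      have h1' : A.par (Sum.inr ⟨p', ⟨i', hi'⟩⟩) = Sum.inr ⟨p', ⟨i' - 1, by omega⟩⟩ :=
        if_neg h0'
      rw [h1, h1'] at h
      have h2 := Sum.inr_injective h
      have h3 : p = p' := congrArg Sigma.fst h2
      subst h3
      have h4 : (⟨i - 1, by omega⟩ : Fin (A.leg p).len) = ⟨i' - 1, by omega⟩ :=
        eq_of_heq (Sigma.mk.inj h2).2
      have h5 : i - 1 = i' - 1 := congrArg Fin.val h4
      have h6 : i = i' := by omega
      subst h6
      exact absurd rfl hne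

theorem pv_ne (p : P) : A.pv p ≠ A.rt := fun h => by simp [pv, rt] at h

theorem pv_inj : Function.Injective A.pv := by
  intro p p' h
  exact congrArg Sigma.fst (Sum.inr_injective h)

theorem vt_pv (p : P) (k : K) : A.vt (A.pv p) k = (S.dc (A.val p k)).tgt := by
  show ((A.leg p).β ((A.leg p).len - 1 + 1) (A.val p k)).src = _
  rw [Nat.sub_add_cancel (A.leg p).len_pos, (A.leg p).last_β, Dart.src_inv]

theorem dis_pv (p : P) (k : K) : (S.dc (A.val p k)).inv ≠ (A.dt (A.pv p) k).inv := by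
  have hlen := (A.leg p).len_pos
  have h2 := (A.leg p).nb_β ((A.leg p).len - 1) (by omega) (A.val p k)
  rw [Nat.sub_add_cancel hlen, (A.leg p).last_β] at h2
  exact h2

theorem par_ne_pv (p : P) (u : A.Vtx) (hu : u ≠ A.rt) : A.par u ≠ A.pv p := by
  intro h
  rcases u with ⟨r, hr⟩ | ⟨p', ⟨i, hi⟩⟩
  · exact absurd h Sum.inl_ne_inr
  · by_cases h0 : i = 0
    · subst h0
      have h1 : A.par (Sum.inr ⟨p', ⟨0, hi⟩⟩) =
        Sum.inl ⟨A.pos p', Nat.lt_succ_of_le (A.pos_le p')⟩ := rfl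
      rw [h1] at h
      exact absurd h Sum.inl_ne_inr
    · have h1 : A.par (Sum.inr ⟨p', ⟨i, hi⟩⟩) = Sum.inr ⟨p', ⟨i - 1, by omega⟩⟩ := if_neg h0
      rw [h1] at h
      have h2 := Sum.inr_injective h
      have h3 : p' = p := congrArg Sigma.fst h2
      subst h3
      have h4 : (⟨i - 1, by omega⟩ : Fin (A.leg p').len) =
          ⟨(A.leg p').len - 1, by omega⟩ := eq_of_heq (Sigma.mk.inj h2).2
      have h5 : i - 1 = (A.leg p').len - 1 := congrArg Fin.val h4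
      omega

/-- The tree of a spider. -/
def tree [Finite P] : TreeData S K P where
  U := A.Vtx
  finU := inferInstance
  root := A.rt
  par := A.par
  dep := A.dep
  dep_par := A.dep_par
  k₀ := A.k₀
  σ := A.vt
  D := A.dt
  pu := A.pv
  π p k := (S.dc (A.val p k)).inv
  src_D := A.src_dt
  tgt_D := A.tgt_dt
  src_π p k := by rw [Dart.src_inv, A.vt_pv]
  ty := A.ty_vt
  dis_up := A.dis_up
  dis_sib := A.dis_sib
  dis_pu p _ := A.dis_pv p
  dis_ps p u hu h := absurd h (A.par_ne_pv p u hu)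
  pu_inj := A.pv_inj
  ty_pu p k := by rw [A.vt_pv, S.ty_dc]
  ty_π p k := by rw [Dart.tgt_inv, S.src_dc]

end Spider

end Graph

end Pool.Agent.Lib.MP_9c5086_lc
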