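import Pool.Agent.Lib.MP_9c5086_lc.Basic

/-!
Ranks of darts: the lengths of walks without backtracking.
-/

namespace Pool.Agent.Lib.MP_9c5086_lc

namespace Graph

variable {V E : Type}

/-- Some walk without backtracking consists of `d` and `n` further darts. -/
def Walk (H : Graph V E) : ℕ → H.Dart → Prop
  | 0, _ => True
  | n + 1, d => ∃ e : H.Dart, e.src = d.tgt ∧ e ≠ d.inv ∧ Walk H n e

variable {H : Graph V E} {I : Type} {t : V → I}

/-- The rank of a dart. -/
noncomputable def Dart.rk (d : H.Dart) : ℕ∞ := ⨆ (n : ℕ) (_ : H.Walk n d), (n : ℕ∞)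

private theorem Walk.pred {n : ℕ} : ∀ {d : H.Dart}, H.Walk (n + 1) d → H.Walk n d := by
  induction n with
  | zero => exact fun _ => trivial
  | succ n ih =>
    rintro d ⟨e, h1, h2, h3⟩
    exact ⟨e, h1, h2, ih h3⟩

theorem Walk.anti {m n : ℕ} (h : m ≤ n) {d : H.Dart} (hd : H.Walk n d) : H.Walk m d := by
  induction n, h using Nat.le_induction with
  | base => exact hd
  | succ n _ ih => exact ih hd.pred

theorem Dart.le_rk_iff {d : H.Dart} {n : ℕ} : (n : ℕ∞) ≤ d.rk ↔ H.Walk n d := by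
  constructor
  · intro h
    by_contra hn
    have hn0 : n ≠ 0 := by
      rintro rfl
      exact hn trivial
    have h1 : d.rk ≤ ((n - 1 : ℕ) : ℕ∞) := by
      refine iSup₂_le fun m hm => ?_
      have h2 : m < n := by
        by_contra h3
        exact hn (Walk.anti (not_lt.1 h3) hm)
      exact Nat.cast_le.2 (by omega)
    have h3 : (n : ℕ∞) ≤ ((n - 1 : ℕ) : ℕ∞) := h.trans h1
    have h4 : n ≤ n - 1 := by exact_mod_cast h3
    omega
  · intro h
    exact le_iSup₂ (f := fun (n : ℕ) (_ : H.Walk n d) => (n : ℕ∞)) n h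

theorem Dart.rk_succ_le {d e : H.Dart} (h : e.src = d.tgt) (h' : e ≠ d.inv) :
    e.rk + 1 ≤ d.rk := by
  rw [← ENat.forall_natCast_le_iff_le]
  intro n hn
  cases n with
  | zero => simp
  | succ k =>
    have h1 : (k : ℕ∞) ≤ e.rk := by
      rw [Nat.cast_add, Nat.cast_one] at hn
      exact (ENat.add_le_add_iff_right ENat.one_ne_top).1 hn
    exact Dart.le_rk_iff.2 ⟨e, h, h', Dart.le_rk_iff.1 h1⟩

theorem Dart.exists_of_rk_top [Finite E] {d : H.Dart} (h : d.rk = ⊤) :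
    ∃ e : H.Dart, e.src = d.tgt ∧ e ≠ d.inv ∧ e.rk = ⊤ := by
  by_contra hc
  push Not at hc
  have h1 : ∀ e : H.Dart, ∃ n : ℕ, e.src = d.tgt → e ≠ d.inv → ¬ H.Walk n e := by
    intro e
    by_cases he : e.src = d.tgt ∧ e ≠ d.inv
    · have h2 := hc e he.1 he.2
      obtain ⟨k, hk⟩ := ENat.ne_top_iff_exists.1 h2
      refine ⟨k + 1, fun _ _ h3 => ?_⟩
      have h4 : ((k + 1 : ℕ) : ℕ∞) ≤ e.rk := Dart.le_rk_iff.2 h3
      rw [← hk] at h4
      have h5 : k + 1 ≤ k := by exact_mod_cast h4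
      omega
    · exact ⟨0, fun h2 h3 => absurd ⟨h2, h3⟩ he⟩
  choose f hf using h1
  obtain ⟨N, hN⟩ := Finite.exists_le f
  have h2 : H.Walk (N + 1) d := by
    rw [← Dart.le_rk_iff, h]
    exact le_top
  obtain ⟨e, h3, h4, h5⟩ := h2
  exact hf e h3 h4 (Walk.anti (hN e) h5)

/-- Darts of infinite rank start infinite walks. -/
theorem Dart.infiniteClass_of_rk_top [Finite E] (t : V → I) {d : H.Dart} (h : d.rk = ⊤) :
    H.InfiniteClass t d.src (t d.tgt) := by
  have key : ∀ e : {e : H.Dart // e.rk = ⊤}, ∃ e' : {e : H.Dart // e.rk = ⊤},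
      e'.1.src = e.1.tgt ∧ e'.1 ≠ e.1.inv := by
    rintro ⟨e, he⟩
    obtain ⟨e', h1, h2, h3⟩ := Dart.exists_of_rk_top he
    exact ⟨⟨e', h3⟩, h1, h2⟩
  choose g hg using key
  let s : ℕ → {e : H.Dart // e.rk = ⊤} := fun n => Nat.rec ⟨d, h⟩ (fun _ e => g e) n
  exact ⟨fun n => (s n).1, rfl, rfl, fun r => hg (s r)⟩

private theorem walk_class [Finite E] (ht : H.Equitable t) {n : ℕ} :
    ∀ {d d' : H.Dart}, t d.src = t d'.src → t d.tgt = t d'.tgt → H.Walk n d → H.Walk n d' := by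
  induction n with
  | zero => exact fun _ _ _ => trivial
  | succ n ih =>
    rintro d d' hs hg ⟨e, h1, h2, h3⟩
    have hcl := ht d.tgt d'.tgt hg (t e.tgt)
    unfold classSize at hcl
    have he : e ∈ {c : H.Dart | c.src = d.tgt ∧ t c.tgt = t e.tgt} := ⟨h1, rfl⟩
    obtain ⟨e', he', hne⟩ : ∃ e' ∈ {c : H.Dart | c.src = d'.tgt ∧ t c.tgt = t e.tgt},
        e' ≠ d'.inv := by
      by_cases hc : t e.tgt = t d.src
      · have hi : d.inv ∈ {c : H.Dart | c.src = d.tgt ∧ t c.tgt = t e.tgt} :=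
          ⟨Dart.src_inv d, by rw [Dart.tgt_inv, hc]⟩
        have h4 : 1 < {c : H.Dart | c.src = d.tgt ∧ t c.tgt = t e.tgt}.ncard :=
          (Set.one_lt_ncard (Set.toFinite _)).2 ⟨e, he, d.inv, hi, h2⟩
        rw [hcl] at h4
        exact Set.exists_ne_of_one_lt_ncard h4 _
      · have h4 : 0 < {c : H.Dart | c.src = d.tgt ∧ t c.tgt = t e.tgt}.ncard :=
          (Set.ncard_pos (Set.toFinite _)).2 ⟨e, he⟩
        rw [hcl, Set.ncard_pos (Set.toFinite _)] at h4
        obtain ⟨e', he'⟩ := h4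
        refine ⟨e', he', ?_⟩
        rintro rfl
        apply hc
        rw [← he'.2, Dart.tgt_inv, hs]
    refine ⟨e', he'.1, hne, ih ?_ he'.2.symm h3⟩
    rw [h1, he'.1, hg]

/-- The rank depends only on the class. -/
theorem Dart.rk_class [Finite E] (ht : H.Equitable t) {d d' : H.Dart} (hs : t d.src = t d'.src)
    (hg : t d.tgt = t d'.tgt) : d.rk = d'.rk := by
  apply le_antisymm
  · rw [← ENat.forall_natCast_le_iff_le]
    exact fun n hn => Dart.le_rk_iff.2 (walk_class ht hs hg (Dart.le_rk_iff.1 hn))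
  · rw [← ENat.forall_natCast_le_iff_le]
    exact fun n hn => Dart.le_rk_iff.2 (walk_class ht hs.symm hg.symm (Dart.le_rk_iff.1 hn))

end Graph

end Pool.Agent.Lib.MP_9c5086_lc
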