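import Pool.Agent.Lib.MP_9c5086_lc.Basic

/-!
Colour refinement: the coarsest equitable partition.
-/

namespace Pool.Agent.Lib.MP_9c5086_lc

namespace Graph

variable {V E : Type} (H : Graph V E)

/-- The steps of colour refinement. -/
def ref : ℕ → V → V → Prop
  | 0, _, _ => True
  | k + 1, x, y => ref k x y ∧ ∀ z, {d : H.Dart | d.src = x ∧ ref k d.tgt z}.ncard =
      {d : H.Dart | d.src = y ∧ ref k d.tgt z}.ncard

/-- The type of a vertex: its block in the coarsest equitable partition. -/
def ty (x : V) : Set V := {y | ∀ k, H.ref k x y}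

variable {H}

theorem ref_equivalence (k : ℕ) : Equivalence (H.ref k) := by
  induction k with
  | zero => exact ⟨fun _ => trivial, fun _ => trivial, fun _ _ => trivial⟩
  | succ k ih =>
    refine ⟨fun x => ⟨ih.refl x, fun z => rfl⟩, ?_, ?_⟩
    · rintro x y ⟨h1, h2⟩
      exact ⟨ih.symm h1, fun z => (h2 z).symm⟩
    · rintro x y z ⟨h1, h2⟩ ⟨h3, h4⟩
      exact ⟨ih.trans h1 h3, fun w => (h2 w).trans (h4 w)⟩

theorem ty_eq_iff {x y : V} : H.ty x = H.ty y ↔ ∀ k, H.ref k x y := by
  constructor
  · intro h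
    have h1 : y ∈ H.ty y := fun k => (ref_equivalence k).refl y
    rw [← h] at h1
    exact h1
  · intro h
    apply Set.ext
    intro z
    constructor
    · intro hz k
      exact (ref_equivalence k).trans ((ref_equivalence k).symm (h k)) (hz k)
    · intro hz k
      exact (ref_equivalence k).trans (h k) (hz k)

private theorem ref_anti {k l : ℕ} (hkl : k ≤ l) {x y : V} (h : H.ref l x y) : H.ref k x y := by
  induction l, hkl using Nat.le_induction with
  | base => exact h
  | succ l _ ih => exact ih h.1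

private theorem exists_ref_stable [Finite V] : ∃ K, ∀ x y, H.ref K x y → ∀ k, H.ref k x y := by
  classical
  have hex : ∀ p : V × V, ∃ n, (¬ ∀ k, H.ref k p.1 p.2) → ¬ H.ref n p.1 p.2 := by
    intro p
    by_cases h : ∀ k, H.ref k p.1 p.2
    · exact ⟨0, fun h' => absurd h h'⟩
    · have h' := h
      push Not at h'
      obtain ⟨n, hn⟩ := h'
      exact ⟨n, fun _ => hn⟩
  choose N hN using hex
  obtain ⟨K, hK⟩ := (Set.finite_range N).bddAbove
  refine ⟨K, fun x y h => ?_⟩
  by_contra hcon
  exact hN (x, y) hcon (ref_anti (hK ⟨(x, y), rfl⟩) h)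

/-- The partition into types is equitable. -/
theorem equitable_ty [Finite V] [Finite E] : H.Equitable H.ty := by
  obtain ⟨K, hK⟩ := exists_ref_stable (H := H)
  have hty : ∀ x y, H.ty x = H.ty y ↔ H.ref K x y := fun x y =>
    ⟨fun h => ty_eq_iff.1 h K, fun h => ty_eq_iff.2 (hK x y h)⟩
  intro v w hvw j
  unfold classSize
  by_cases hj : ∃ z, H.ty z = j
  · obtain ⟨z, rfl⟩ := hj
    have h1 := (ty_eq_iff.1 hvw (K + 1)).2 z
    simp only [hty]
    exact h1
  · have h1 : ∀ u : V, {d : H.Dart | d.src = u ∧ H.ty d.tgt = j} = ∅ := by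
      intro u
      apply Set.eq_empty_iff_forall_notMem.2
      rintro d ⟨_, hd⟩
      exact hj ⟨_, hd⟩
    rw [h1, h1]

/-- Vertices related by a bisimulation have the same type. -/
theorem ty_eq_of_bisim [Finite E] (S : V → V → Prop)
    (hS : ∀ x y, S x y → ∃ β : H.Dart → H.Dart, Set.BijOn β {d | d.src = x} {d | d.src = y} ∧
      ∀ d, d.src = x → S d.tgt (β d).tgt) {x y : V} (h : S x y) : H.ty x = H.ty y := by
  apply ty_eq_iff.2
  intro k
  induction k generalizing x y with
  | zero => trivial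
  | succ k ih =>
    refine ⟨ih h, fun z => ?_⟩
    obtain ⟨β, hβ, hβ'⟩ := hS x y h
    have h1 : {d : H.Dart | d.src = y ∧ H.ref k d.tgt z} =
        β '' {d : H.Dart | d.src = x ∧ H.ref k d.tgt z} := by
      apply Set.ext
      intro d
      constructor
      · rintro ⟨hd, hr⟩
        obtain ⟨d', hd', rfl⟩ := hβ.surjOn hd
        exact ⟨d', ⟨hd', (ref_equivalence k).trans (ih (hβ' d' hd')) hr⟩, rfl⟩
      · rintro ⟨d', ⟨hd', hr⟩, rfl⟩
        exact ⟨hβ.mapsTo hd', (ref_equivalence k).trans
          ((ref_equivalence k).symm (ih (hβ' d' hd'))) hr⟩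
    rw [h1]
    refine (Set.ncard_image_of_injOn (hβ.injOn.mono ?_)).symm
    rintro d ⟨hd, _⟩
    exact hd

end Graph

end Pool.Agent.Lib.MP_9c5086_lc
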