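import Pool.Agent.Lib.MP_9c5086_lc.Defs

/-!
List covering for general input graphs: definitions.
-/

namespace Pool.Agent.Lib.MP_9c5086_lc

open N68a2faeb

namespace Graph

variable {V E W F : Type}

/-- A covering projection from the graph `G` to the graph `H`, both of which may have multiple
edges, loops and semi-edges, given by its maps `fv` on vertices and `fe` on edges.  It preserves
incidences and maps semi-edges to semi-edges.  The preimage of an ordinary edge `xy` is a perfect
matching between the preimages of `x` and `y`, the preimage of a loop at `x` is a disjoint union of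
cycles (loops and 2-cycles included) spanning the preimage of `x`, and the preimage of a semi-edge
at `x` consists of semi-edges and ordinary edges covering each vertex of the preimage of `x` exactly
once. -/
structure IsCoverG (H : Graph V E) (G : Graph W F) (fv : W → V) (fe : F → E) : Prop where
  joins : ∀ f, H.Joins (fe f) (fv (G.a f)) (fv ((G.b f).getD (G.a f)))
  semiEdge : ∀ f, G.b f = none → H.b (fe f) = none
  ordinary : ∀ e x y, H.a e = x → H.b e = some y → x ≠ y → ∀ u, fv u = x ∨ fv u = y →
    {d : G.Dart | d.src = u ∧ fe d.edge = e}.ncard = 1
  loop : ∀ e x, H.a e = x → H.b e = some x → ∀ u, fv u = x →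
    {d : G.Dart | d.src = u ∧ fe d.edge = e}.ncard = 2
  semi : ∀ e x, H.a e = x → H.b e = none → ∀ u, fv u = x →
    {d : G.Dart | d.src = u ∧ fe d.edge = e}.ncard = 1

/-- The graph is simple: it has no loops, no semi-edges and no multiple edges. -/
def Simple (G : Graph W F) : Prop :=
  (∀ f, ∃ w, G.b f = some w ∧ w ≠ G.a f) ∧
    ∀ f f' v w, G.Joins f v w → G.Joins f' v w → f = f'

end Graph

/-- An instance of the list covering problem for graphs with vertex set `Fin p` and edge set
`Fin q`: a graph with vertex set `Fin n` and edge set `Fin m` and a list for each vertex and each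
edge. -/
structure GInst (p q : ℕ) where
  /-- the number of vertices -/
  n : ℕ
  /-- the number of edges -/
  m : ℕ
  /-- the graph -/
  G : Graph (Fin n) (Fin m)
  /-- the lists of the vertices -/
  Lv : Fin n → Finset (Fin p)
  /-- the lists of the edges -/
  Le : Fin m → Finset (Fin q)

/-- The instance has a covering projection to `H` which respects the lists. -/
def Graph.HasListCoverG {p q : ℕ} (H : Graph (Fin p) (Fin q)) (I : GInst p q) : Prop :=
  ∃ (fv : Fin I.n → Fin p) (fe : Fin I.m → Fin q), H.IsCoverG I.G fv fe ∧
    (∀ u, fv u ∈ I.Lv u) ∧ ∀ f, fe f ∈ I.Le f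

/-- The data of an instance: first the characteristic vectors of the lists of the vertices, then,
for each edge, the characteristic vectors of its list, of its first end and of the set of its second
ends, which is empty for semi-edges. -/
def GInst.data {p q : ℕ} (I : GInst p q) : List (List (List Bool)) :=
  (List.ofFn fun u => bitsOf (I.Lv u)) ::
    List.ofFn fun f => [bitsOf (I.Le f), bitsOf {I.G.a f}, bitsOf (I.G.b f).toFinset]

/-- The word encoding an instance. -/
def encodeG {p q : ℕ} (I : GInst p q) : List Bool := N487b59b3.bitEncode I.data

/-- The decision problem LIST-`H`-COVER for arbitrary input graphs. -/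
noncomputable def LISTCOVERG {p q : ℕ} (H : Graph (Fin p) (Fin q)) : DecisionProblem := fun s =>
  open scoped Classical in
  decide (∃ I : GInst p q, s = encodeG I ∧ H.HasListCoverG I)

/-- The decision problem LIST-`H`-COVER, restricted to simple input graphs. -/
noncomputable def LISTCOVERS {p q : ℕ} (H : Graph (Fin p) (Fin q)) : DecisionProblem := fun s =>
  open scoped Classical in
  decide (∃ I : GInst p q, s = encodeG I ∧ I.G.Simple ∧ H.HasListCoverG I)

end Pool.Agent.Lib.MP_9c5086_lc
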