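import Pool.Agent.Lib.MP_9c5086_lc.CGadDefs

/-!
The invariants of the forest of alternating paths.
-/

namespace Pool.Agent.Lib.MP_9c5086_lc.PM

variable {α : Type} [DecidableEq α] {V : List α} {E M : List (α × α)}

/-- Alternating paths, listed from the last vertex to the first vertex, which is exposed. -/
inductive Alt (V : List α) (E M : List (α × α)) : List α → Prop
  | root {r : α} : r ∈ V → r ∉ ends M → Alt V E M [r]
  | step {z y h : α} {t : List α} : Alt V E M (h :: t) → Adj E h y → y ∈ V →
      ((z, y) ∈ M ∨ (y, z) ∈ M) → y ∉ h :: t → z ∉ h :: t → Alt V E M (z :: y :: h :: t)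

/-- The invariants of the forest. -/
structure Inv (V : List α) (E M : List (α × α)) (F : List (List α)) : Prop where
  alt : ∀ p ∈ F, Alt V E M p
  pre : ∀ z y t, z :: y :: t ∈ F → t ∈ F
  root : ∀ v ∈ V, v ∉ ends M → [v] ∈ F
  suff : ∀ p₁ x p₂ q₁ q₂, p₁ ++ x :: p₂ ∈ F → q₁ ++ x :: q₂ ∈ F → p₂ = q₂
  nodup : F.Nodup
  card : F.flatten.toFinset.card + (V.filter fun v => decide (v ∉ ends M)).length = 2 * F.length

private theorem mem_ends_iff {M : List (α × α)} {x : α} :
    x ∈ ends M ↔ ∃ y, (x, y) ∈ M ∨ (y, x) ∈ M := by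
  unfold ends
  rw [List.mem_flatMap]
  constructor
  · rintro ⟨⟨a, b⟩, he, hx⟩
    rw [List.mem_cons, List.mem_singleton] at hx
    rcases hx with hx | hx
    · exact ⟨b, Or.inl (by rw [hx]; exact he)⟩
    · exact ⟨a, Or.inr (by rw [hx]; exact he)⟩
  · rintro ⟨y, h | h⟩
    · exact ⟨_, h, by simp⟩
    · exact ⟨_, h, by simp⟩

private theorem ends_disj {M : List (α × α)} (hM : (ends M).Nodup) {e e' : α × α} (he : e ∈ M)
    (he' : e' ∈ M) (hne : e ≠ e') : List.Disjoint [e.1, e.2] [e'.1, e'.2] := by
  unfold ends at hM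
  rw [List.nodup_flatMap] at hM
  haveI : Std.Symm (Function.onFun List.Disjoint fun e : α × α => [e.1, e.2]) :=
    ⟨fun a b hab => List.Disjoint.symm hab⟩
  exact hM.2.forall he he' hne

private theorem partner_unique {M : List (α × α)} (hM : (ends M).Nodup)
    (hne : ∀ e ∈ M, e.1 ≠ e.2) {x y z : α}
    (hy : (x, y) ∈ M ∨ (y, x) ∈ M) (hz : (x, z) ∈ M ∨ (z, x) ∈ M) : y = z := by
  rcases hy with hy | hy <;> rcases hz with hz | hz
  · by_cases h : (x, y) = (x, z)
    · exact (Prod.ext_iff.1 h).2
    · exact absurd (ends_disj hM hy hz h) (by simp [List.Disjoint])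
  · by_cases h : (x, y) = (z, x)
    · have := hne _ hy
      rw [Prod.ext_iff] at h
      exact absurd h.2.symm this
    · exact absurd (ends_disj hM hy hz h) (by simp [List.Disjoint])
  · by_cases h : (y, x) = (x, z)
    · have := hne _ hy
      rw [Prod.ext_iff] at h
      exact absurd h.1 this
    · exact absurd (ends_disj hM hy hz h) (by simp [List.Disjoint])
  · by_cases h : (y, x) = (z, x)
    · exact (Prod.ext_iff.1 h).1
    · exact absurd (ends_disj hM hy hz h) (by simp [List.Disjoint])

private theorem mem_mate {M : List (α × α)} {y z : α} (h : z ∈ mate M y) :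
    (y, z) ∈ M ∨ (z, y) ∈ M := by
  unfold mate at h
  rw [List.mem_flatMap] at h
  obtain ⟨⟨a, b⟩, he, hz⟩ := h
  dsimp only at hz
  by_cases h1 : a = y
  · rw [if_pos h1, List.mem_singleton] at hz
    rw [← h1, hz]
    exact Or.inl he
  · rw [if_neg h1] at hz
    by_cases h2 : b = y
    · rw [if_pos h2, List.mem_singleton] at hz
      rw [← h2, hz]
      exact Or.inr he
    · rw [if_neg h2] at hz
      simp at hz

theorem Alt.odd {p : List α} (h : Alt V E M p) : Odd p.length := by
  induction h with
  | root _ _ => exact odd_one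
  | step _ _ _ _ _ _ ih =>
    rw [List.length_cons, List.length_cons, add_assoc]
    exact ih.add_even (by decide)

theorem Alt.sub {p : List α} (hM : IsM V E M) (h : Alt V E M p) : ∀ x ∈ p, x ∈ V := by
  induction h with
  | root hr _ =>
    intro x hx
    rw [List.mem_singleton] at hx
    rw [hx]
    exact hr
  | @step z y h t _ _ hy hzy _ _ ih =>
    intro x hx
    rw [List.mem_cons, List.mem_cons] at hx
    rcases hx with hx | hx | hx
    · rw [hx]
      exact hM.sub z (mem_ends_iff.2 ⟨y, hzy⟩)
    · rw [hx]
      exact hy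
    · exact ih x hx

theorem Alt.nodup {p : List α} (hM : IsM V E M) (h : Alt V E M p) : p.Nodup := by
  induction h with
  | root _ _ => exact List.nodup_singleton _
  | @step z y h t _ _ hy hzy hy' hz' ih =>
    have hne : z ≠ y := by
      rcases hzy with h1 | h1
      · exact (hM.adj _ h1).1
      · exact (hM.adj _ h1).1.symm
    rw [List.nodup_cons, List.nodup_cons]
    refine ⟨?_, hy', ih⟩
    rw [List.mem_cons]
    rintro (h1 | h1)
    · exact hne h1
    · exact hz' h1

private theorem Alt.partner_mem {p : List α} (hM : IsM V E M) (h : Alt V E M p) {x w : α}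
    (hx : x ∈ p) (hw : (x, w) ∈ M ∨ (w, x) ∈ M) : w ∈ p := by
  have hne : ∀ e ∈ M, e.1 ≠ e.2 := fun e he => (hM.adj e he).1
  induction h with
  | root _ hr =>
    rw [List.mem_singleton] at hx
    rw [← hx] at hr
    exact absurd (mem_ends_iff.2 ⟨w, hw⟩) hr
  | @step z y h t _ _ hy hzy hy' hz' ih =>
    rw [List.mem_cons, List.mem_cons] at hx
    rcases hx with hx | hx | hx
    · rw [hx] at hw
      rw [partner_unique hM.nodup hne hw hzy]
      simp
    · rw [hx] at hw
      rw [partner_unique hM.nodup hne hw hzy.symm]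
      simp
    · rw [List.mem_cons, List.mem_cons]
      exact Or.inr (Or.inr (ih hx))

private theorem nodup_split {x : α} : ∀ {p₁ p₂ q₁ q₂ : List α}, (p₁ ++ x :: p₂).Nodup →
    p₁ ++ x :: p₂ = q₁ ++ x :: q₂ → p₂ = q₂ := by
  intro p₁
  induction p₁ with
  | nil =>
    intro p₂ q₁ q₂ hn he
    cases q₁ with
    | nil =>
      rw [List.nil_append, List.nil_append, List.cons.injEq] at he
      exact he.2
    | cons b q₁ =>
      rw [List.nil_append, List.cons_append, List.cons.injEq] at he
      rw [List.nil_append, List.nodup_cons] at hn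
      exfalso
      apply hn.1
      rw [he.2]
      simp
  | cons a p₁ ih =>
    intro p₂ q₁ q₂ hn he
    cases q₁ with
    | nil =>
      rw [List.nil_append, List.cons_append, List.cons.injEq] at he
      rw [List.cons_append, List.nodup_cons] at hn
      exfalso
      apply hn.1
      rw [he.1]
      simp
    | cons b q₁ =>
      rw [List.cons_append, List.cons_append, List.cons.injEq] at he
      rw [List.cons_append, List.nodup_cons] at hn
      exact ih hn.2 he.2

theorem inv_roots (hV : V.Nodup) (hM : IsM V E M) : Inv V E M (roots V M) := by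
  have hmem : ∀ p, p ∈ roots V M → ∃ v, v ∈ V ∧ v ∉ ends M ∧ [v] = p := by
    intro p hp
    unfold roots at hp
    rw [List.mem_map] at hp
    obtain ⟨v, hv, hp⟩ := hp
    rw [List.mem_filter, decide_eq_true_iff] at hv
    exact ⟨v, hv.1, hv.2, hp⟩
  have hnil : ∀ p₁ x p₂, p₁ ++ x :: p₂ ∈ roots V M → p₂ = [] := by
    intro p₁ x p₂ hp
    obtain ⟨v, _, _, hv⟩ := hmem _ hp
    have := congrArg List.length hv
    simp only [List.length_append, List.length_cons, List.length_nil] at this
    apply List.eq_nil_of_length_eq_zero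
    omega
  have hflat : (roots V M).flatten = V.filter fun v => decide (v ∉ ends M) := by
    unfold roots
    induction (V.filter fun v => decide (v ∉ ends M)) with
    | nil => rfl
    | cons a l ih =>
      rw [List.map_cons, List.flatten_cons, ih]
      rfl
  refine ⟨?_, ?_, ?_, ?_, ?_, ?_⟩
  · intro p hp
    obtain ⟨v, hv, hv', hp⟩ := hmem p hp
    rw [← hp]
    exact Alt.root hv hv'
  · intro z y t hp
    have := hnil [] z (y :: t) hp
    simp at this
  · intro v hv hv'
    unfold roots
    rw [List.mem_map]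
    refine ⟨v, ?_, rfl⟩
    rw [List.mem_filter, decide_eq_true_iff]
    exact ⟨hv, hv'⟩
  · intro p₁ x p₂ q₁ q₂ h1 h2
    rw [hnil _ _ _ h1, hnil _ _ _ h2]
  · unfold roots
    apply List.Nodup.map
    · intro a b hab
      simpa using hab
    · exact hV.filter _
  · rw [hflat, List.toFinset_card_of_nodup (hV.filter _)]
    unfold roots
    rw [List.length_map]
    ring

private theorem inv_cons (hM : IsM V E M) {F : List (List α)} (hF : Inv V E M F)
    {z y h : α} {t : List α} (hp : h :: t ∈ F) (hy : y ∈ V) (hadj : Adj E h y)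
    (hyF : y ∉ F.flatten) (hzy : (z, y) ∈ M ∨ (y, z) ∈ M) :
    Inv V E M ((z :: y :: h :: t) :: F) := by
  have hzF : z ∉ F.flatten := by
    intro hz
    rw [List.mem_flatten] at hz
    obtain ⟨p, hpF, hz⟩ := hz
    apply hyF
    rw [List.mem_flatten]
    exact ⟨p, hpF, (hF.alt p hpF).partner_mem hM hz hzy⟩
  have hsub : ∀ x ∈ h :: t, x ∈ F.flatten := by
    intro x hx
    rw [List.mem_flatten]
    exact ⟨_, hp, hx⟩
  have hne : z ≠ y := by
    rcases hzy with h1 | h1
    · exact (hM.adj _ h1).1
    · exact (hM.adj _ h1).1.symm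
  have hN : Alt V E M (z :: y :: h :: t) :=
    Alt.step (hF.alt _ hp) hadj hy hzy (fun h1 => hyF (hsub _ h1)) (fun h1 => hzF (hsub _ h1))
  have hmix : ∀ p₁ x p₂ q₁ q₂, p₁ ++ x :: p₂ = z :: y :: h :: t → q₁ ++ x :: q₂ ∈ F →
      p₂ = q₂ := by
    intro p₁ x p₂ q₁ q₂ h1 h2
    have hxF : x ∈ F.flatten := by
      rw [List.mem_flatten]
      exact ⟨_, h2, by simp⟩
    cases p₁ with
    | nil =>
      rw [List.nil_append, List.cons.injEq] at h1
      rw [h1.1] at hxF
      exact absurd hxF hzF
    | cons a p₁ =>
      rw [List.cons_append, List.cons.injEq] at h1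
      obtain ⟨_, h1⟩ := h1
      cases p₁ with
      | nil =>
        rw [List.nil_append, List.cons.injEq] at h1
        rw [h1.1] at hxF
        exact absurd hxF hyF
      | cons b p₁ =>
        rw [List.cons_append, List.cons.injEq] at h1
        obtain ⟨_, h1⟩ := h1
        rw [← h1] at hp
        exact hF.suff _ _ _ _ _ hp h2
  refine ⟨?_, ?_, ?_, ?_, ?_, ?_⟩
  · intro p hp'
    rw [List.mem_cons] at hp'
    rcases hp' with hp' | hp'
    · rw [hp']
      exact hN
    · exact hF.alt p hp'
  · intro z' y' t' hp'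
    rw [List.mem_cons] at hp'
    rcases hp' with hp' | hp'
    · rw [List.cons.injEq, List.cons.injEq] at hp'
      rw [hp'.2.2]
      exact List.mem_cons_of_mem _ hp
    · exact List.mem_cons_of_mem _ (hF.pre _ _ _ hp')
  · intro v hv hv'
    exact List.mem_cons_of_mem _ (hF.root v hv hv')
  · intro p₁ x p₂ q₁ q₂ h1 h2
    rw [List.mem_cons] at h1 h2
    rcases h1 with h1 | h1 <;> rcases h2 with h2 | h2
    · have hn := hN.nodup hM
      rw [← h1] at hn
      exact nodup_split hn (h1.trans h2.symm)
    · exact hmix _ _ _ _ _ h1 h2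
    · exact (hmix _ _ _ _ _ h2 h1).symm
    · exact hF.suff _ _ _ _ _ h1 h2
  · rw [List.nodup_cons]
    refine ⟨?_, hF.nodup⟩
    intro h1
    apply hyF
    rw [List.mem_flatten]
    exact ⟨_, h1, by simp⟩
  · have hset : ((z :: y :: h :: t) :: F).flatten.toFinset
        = insert z (insert y F.flatten.toFinset) := by
      ext x
      simp only [List.mem_toFinset, Finset.mem_insert]
      rw [List.flatten_cons, List.mem_append, List.mem_cons, List.mem_cons]
      constructor
      · rintro ((h1 | h1 | h1) | h1)
        · exact Or.inl h1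
        · exact Or.inr (Or.inl h1)
        · exact Or.inr (Or.inr (hsub _ h1))
        · exact Or.inr (Or.inr h1)
      · rintro (h1 | h1 | h1)
        · exact Or.inl (Or.inl h1)
        · exact Or.inl (Or.inr (Or.inl h1))
        · exact Or.inr h1
    rw [hset, Finset.card_insert_of_notMem, Finset.card_insert_of_notMem, List.length_cons]
    · have := hF.card
      omega
    · rw [List.mem_toFinset]
      exact hyF
    · rw [Finset.mem_insert, List.mem_toFinset]
      rintro (h1 | h1)
      · exact hne h1
      · exact hzF h1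

theorem inv_addStep (hV : V.Nodup) (hM : IsM V E M) {F : List (List α)} (hF : Inv V E M F) :
    Inv V E M (addStep V E M F) := by
  unfold addStep
  split
  · exact hF
  · rename_i p l heq
    have hp : p ∈ F.flatMap (ext V E M F) := by
      rw [heq]
      exact List.mem_cons_self
    rw [List.mem_flatMap] at hp
    obtain ⟨q, hq, hp⟩ := hp
    cases q with
    | nil =>
      unfold ext at hp
      simp at hp
    | cons h t =>
      unfold ext at hp
      dsimp only at hp
      rw [List.mem_flatMap] at hp
      obtain ⟨y, hy, hp⟩ := hp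
      by_cases hc : Adj E h y ∧ y ∉ F.flatten
      · rw [if_pos hc, List.mem_map] at hp
        obtain ⟨z, hz, hp⟩ := hp
        rw [← hp]
        exact inv_cons hM hF hq hy hc.1 hc.2 (mem_mate hz).symm
      · rw [if_neg hc] at hp
        simp at hp

theorem inv_forest (hV : V.Nodup) (hM : IsM V E M) : Inv V E M (forest V E M) := by
  unfold forest
  generalize V.length = n
  induction n with
  | zero => exact inv_roots hV hM
  | succ n ih =>
    rw [Function.iterate_succ_apply']
    exact inv_addStep hV hM ih

end Pool.Agent.Lib.MP_9c5086_lc.PM
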