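import Pool.Agent.Lib.MP_9c5086_lc.Basic

/-!
Covers on the level of darts, modes, universal graphs and dart graphs: definitions.
-/

namespace Pool.Agent.Lib.MP_9c5086_lc

namespace Graph

variable {V E I : Type}

/-- A cover of `H` by a simple graph on the level of darts: `fd n n'` is the image of the dart
from `n` to `n'` (used for adjacent vertices only). -/
structure DCover {X : Type} (G : SimpleGraph X) (H : Graph V E) where
  fv : X → V
  fd : X → X → H.Dart
  src_fd : ∀ {n n'}, G.Adj n n' → (fd n n').src = fv n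
  inv_fd : ∀ {n n'}, G.Adj n n' → fd n' n = (fd n n').inv
  inj_fd : ∀ {n n' n''}, G.Adj n n' → G.Adj n n'' → fd n n' = fd n n'' → n' = n''
  surj_fd : ∀ n (d : H.Dart), d.src = fv n → ∃ n', G.Adj n n' ∧ fd n n' = d

theorem DCover.tgt_fd {X : Type} {G : SimpleGraph X} {H : Graph V E} (f : DCover G H) {n n' : X}
    (h : G.Adj n n') : (f.fd n n').tgt = f.fv n' := by
  rw [← Dart.src_inv, ← f.inv_fd h, f.src_fd h.symm]

/-- A type preserving bijection from the darts at `m` to the darts at `y`. -/
structure Mode (H : Graph V E) (t : V → I) (m y : V) where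
  block : t y = t m
  π : {s : H.Dart // s.src = m} ≃ {s : H.Dart // s.src = y}
  typed : ∀ s, t (π s).1.tgt = t s.1.tgt

/-- The identity mode. -/
def Mode.refl (H : Graph V E) (t : V → I) (m : V) : Mode H t m m :=
  ⟨rfl, Equiv.refl _, fun _ => rfl⟩

/-- A universal graph for `H` and `t`. -/
structure Univ (H : Graph V E) (t : V → I) where
  X : Type
  fin : Finite X
  G : SimpleGraph X
  τ : X → I
  /-- the roots -/
  r : V → X
  /-- the neighbours of the roots, indexed by the darts of `H` -/
  nb : H.Dart → X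
  τ_r : ∀ m, τ (r m) = t m
  adj_nb : ∀ s : H.Dart, G.Adj (r s.src) (nb s)
  nb_inj : ∀ s s' : H.Dart, s.src = s'.src → nb s = nb s' → s = s'
  nb_surj : ∀ m n, G.Adj (r m) n → ∃ s : H.Dart, s.src = m ∧ nb s = n
  mode : ∀ (m y : V) (μ : Mode H t m y), ∃ f : DCover G H,
    (∀ n, t (f.fv n) = τ n) ∧ f.fv (r m) = y ∧
      ∀ s : {s : H.Dart // s.src = m}, f.fd (r m) (nb s.1) = (μ.π s).1

/-- A graph given by its darts. -/
structure DartGraph (X S : Type) where
  src : S → X
  inv : S → S
  inv_inv : ∀ s, inv (inv s) = s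

/-- A cover of `H` by a dart graph. -/
structure DartGraph.Cov {X S : Type} (W : DartGraph X S) (H : Graph V E) where
  fv : X → V
  fd : S → H.Dart
  src_fd : ∀ s, (fd s).src = fv (W.src s)
  inv_fd : ∀ s, fd (W.inv s) = (fd s).inv
  inj_fd : ∀ s s', W.src s = W.src s' → fd s = fd s' → s = s'
  surj_fd : ∀ x (d : H.Dart), d.src = fv x → ∃ s, W.src s = x ∧ fd s = d

end Graph

end Pool.Agent.Lib.MP_9c5086_lc
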