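import Pool.Agent.Lib.MP_9c5086_lc.BThin
import Pool.Agent.Lib.MP_9c5086_lc.UnivDefs
import Pool.Agent.Lib.MP_9c5086_lc.PMForest

section

/-!
Instances given by lists of vertices and darts; flags; consistent relations.
-/

namespace Pool.Agent.Lib.MP_9c5086_lc

/-- An instance: a graph given by its vertices and darts, with lists. -/
structure LG (W D V E : Type) where
  /-- the vertices -/
  Vs : List W
  /-- the darts -/
  Ds : List D
  /-- the source of a dart -/
  src : D → W
  /-- the inverse of a dart; semi-edges are the darts with `inv d = d` -/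
  inv : D → D
  /-- the lists of the vertices -/
  Lv : W → V → Bool
  /-- the lists of the edges -/
  Le : D → E → Bool

/-- The conditions on instances. -/
structure LG.Ok {W D V E : Type} (G : LG W D V E) : Prop where
  src_mem : ∀ d ∈ G.Ds, G.src d ∈ G.Vs
  inv_mem : ∀ d ∈ G.Ds, G.inv d ∈ G.Ds
  inv_inv : ∀ d ∈ G.Ds, G.inv (G.inv d) = d
  le_inv : ∀ d ∈ G.Ds, G.Le (G.inv d) = G.Le d

/-- The darts with source `u`. -/
def LG.star {W D V E : Type} (G : LG W D V E) (u : W) : Set D := {d | d ∈ G.Ds ∧ G.src d = u}

namespace Graph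

variable {W D V E : Type} (H : Graph V E)

/-- The other end of the edge of a flag. -/
def other [DecidableEq V] (φ : E × V) : V :=
  if H.a φ.1 = φ.2 then (H.b φ.1).getD (H.a φ.1) else H.a φ.1

/-- The opposite flag: the same edge with its other end. -/
def opp [DecidableEq V] (φ : E × V) : E × V := (φ.1, H.other φ)

/-- The number of darts with a given flag. -/
noncomputable def mult (φ : E × V) : ℕ := {d : H.Dart | d.fl = φ}.ncard

/-- A covering projection which respects the lists. -/
structure IsCov (G : LG W D V E) (fv : W → V) (fe : D → E) : Prop where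
  lv : ∀ u ∈ G.Vs, G.Lv u (fv u) = true
  le : ∀ d ∈ G.Ds, G.Le d (fe d) = true
  inv : ∀ d ∈ G.Ds, fe (G.inv d) = fe d
  joins : ∀ d ∈ G.Ds, H.Joins (fe d) (fv (G.src d)) (fv (G.src (G.inv d)))
  semi : ∀ d ∈ G.Ds, G.inv d = d → H.b (fe d) = none
  count : ∀ u ∈ G.Vs, ∀ e, {d | d ∈ G.star u ∧ fe d = e}.ncard = H.inc e (fv u)

/-- The map `ψ` maps the darts at `u` to flags at `x` as a covering projection does, within the
relation `R`. -/
structure StarOk (G : LG W D V E) (R : D → E × V → Prop) (u : W) (x : V) (ψ : D → E × V) :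
    Prop where
  rel : ∀ d ∈ G.star u, R d (ψ d)
  src : ∀ d ∈ G.star u, (ψ d).2 = x
  count : ∀ φ : E × V, φ.2 = x → {d | d ∈ G.star u ∧ ψ d = φ}.ncard = H.mult φ

/-- A consistent relation between the darts of an instance and the flags. -/
def Cons [DecidableEq V] (G : LG W D V E) (R : D → E × V → Prop) : Prop :=
  ∀ d φ, R d φ → d ∈ G.Ds ∧ G.Le d φ.1 = true ∧ G.Lv (G.src d) φ.2 = true ∧
    (G.inv d = d → H.b φ.1 = none) ∧ R (G.inv d) (H.opp φ) ∧
    ∃ ψ, H.StarOk G R (G.src d) φ.2 ψ ∧ ψ d = φ

/-- The greatest consistent relation. -/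
def Rm [DecidableEq V] (G : LG W D V E) (d : D) (φ : E × V) : Prop := ∃ R, H.Cons G R ∧ R d φ

/-- The vertex `u` can locally be mapped to `x`. -/
def Sm [DecidableEq V] (G : LG W D V E) (u : W) (x : V) : Prop :=
  u ∈ G.Vs ∧ G.Lv u x = true ∧ ∃ ψ, H.StarOk G (H.Rm G) u x ψ

end Graph

end Pool.Agent.Lib.MP_9c5086_lc
end

section

/-!
Modes.
-/

namespace Pool.Agent.Lib.MP_9c5086_lc

namespace Graph

variable {V E I : Type}

/-- There are finitely many modes. -/
theorem mode_finite [Finite E] (H : Graph V E) (t : V → I) (m y : V) :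
    Finite (Mode H t m y) := by
  apply Finite.of_injective (fun μ : Mode H t m y => μ.π)
  rintro ⟨b, π, h⟩ ⟨b', π', h'⟩ he
  have he' : π = π' := he
  subst he'
  rfl

/-- A type preserving injection from a set of darts at `m` to the darts at `y` extends to a
mode. -/
theorem exists_mode_of_injOn [Finite E] (H : Graph V E) (t : V → I) (ht : H.Equitable t)
    (m y : V) (hmy : t y = t m) (A : Set H.Dart) (hA : ∀ s ∈ A, s.src = m) (φ : H.Dart → H.Dart)
    (hφ : ∀ s ∈ A, (φ s).src = y ∧ t (φ s).tgt = t s.tgt) (hinj : Set.InjOn φ A) :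
    ∃ μ : Mode H t m y, ∀ s (hs : s ∈ A), (μ.π ⟨s, hA s hs⟩).1 = φ s := by
  classical
  have := Fintype.ofFinite H.Dart
  have key : ∀ j : I, ∃ g : {s : H.Dart // s.src = m ∧ t s.tgt = j} ≃
      (Finset.univ.filter fun d : H.Dart => d.src = y ∧ t d.tgt = j),
      ∀ i : {s : H.Dart // s.src = m ∧ t s.tgt = j}, i.1 ∈ A → (g i : H.Dart) = φ i.1 := by
    intro j
    have hc : Fintype.card {s : H.Dart // s.src = m ∧ t s.tgt = j} =
        (Finset.univ.filter fun d : H.Dart => d.src = y ∧ t d.tgt = j).card := by
      have h1 := ht m y hmy.symm j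
      unfold classSize at h1
      rw [Fintype.card_subtype]
      rw [Set.ncard_eq_toFinset_card', Set.ncard_eq_toFinset_card'] at h1
      convert h1 using 2
      · ext d; simp
      · ext d; simp
    obtain ⟨g, hg⟩ := Set.MapsTo.exists_equiv_extend_of_card_eq (f := fun i => φ i.1)
      (s := {i : {s : H.Dart // s.src = m ∧ t s.tgt = j} | i.1 ∈ A}) hc (by
        intro i hi
        have hi' : i.1 ∈ A := hi
        obtain ⟨h1, h2⟩ := hφ i.1 hi'
        simp only [Finset.coe_filter, Finset.mem_univ, true_and, Set.mem_ofPred_eq]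
        exact ⟨h1, h2.trans i.2.2⟩) (by
        intro i hi i' hi' h
        exact Subtype.ext (hinj hi hi' h))
    exact ⟨g, fun i hi => hg i hi⟩
  choose g hg using key
  let F : {s : H.Dart // s.src = m} → H.Dart := fun s => (g (t s.1.tgt) ⟨s.1, s.2, rfl⟩).1
  have hF : ∀ j (x : {s : H.Dart // s.src = m ∧ t s.tgt = j}), F ⟨x.1, x.2.1⟩ = (g j x).1 := by
    rintro j ⟨s, h1, h2⟩
    subst h2
    rfl
  have hF1 : ∀ s, (F s).src = y ∧ t (F s).tgt = t s.1.tgt := by
    intro s
    exact (Finset.mem_filter.1 (g (t s.1.tgt) ⟨s.1, s.2, rfl⟩).2).2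
  let F' : {s : H.Dart // s.src = m} → {s : H.Dart // s.src = y} := fun s => ⟨F s, (hF1 s).1⟩
  have hbij : Function.Bijective F' := by
    constructor
    · intro s s' h
      have h1 : F s = F s' := congrArg Subtype.val h
      have h2 : t s.1.tgt = t s'.1.tgt := by
        rw [← (hF1 s).2, h1, (hF1 s').2]
      have h3 := hF (t s'.1.tgt) ⟨s.1, s.2, h2⟩
      have h4 := hF (t s'.1.tgt) ⟨s'.1, s'.2, rfl⟩
      have h5 : (g (t s'.1.tgt) ⟨s.1, s.2, h2⟩).1 = (g (t s'.1.tgt) ⟨s'.1, s'.2, rfl⟩).1 := by
        rw [← h3, ← h4]; exact h1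
      have h6 := (g (t s'.1.tgt)).injective (Subtype.ext h5)
      have h7 : s.1 = s'.1 := congrArg (fun x => x.1) h6
      exact Subtype.ext h7
    · rintro ⟨d, hd⟩
      have hmem : d ∈ Finset.univ.filter fun d' : H.Dart => d'.src = y ∧ t d'.tgt = t d.tgt := by
        simp [hd]
      let x := (g (t d.tgt)).symm ⟨d, hmem⟩
      refine ⟨⟨x.1, x.2.1⟩, Subtype.ext ?_⟩
      have h3 := hF (t d.tgt) x
      change F ⟨x.1, x.2.1⟩ = d
      rw [h3]
      have : g (t d.tgt) x = ⟨d, hmem⟩ := (g (t d.tgt)).apply_symm_apply _
      rw [this]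
  refine ⟨⟨hmy, Equiv.ofBijective F' hbij, fun s => (hF1 s).2⟩, ?_⟩
  intro s hs
  change F ⟨s, hA s hs⟩ = φ s
  have h3 := hF (t s.tgt) ⟨s, hA s hs, rfl⟩
  rw [h3]
  exact hg (t s.tgt) ⟨s, hA s hs, rfl⟩ hs

/-- A mode with given value at one dart. -/
theorem exists_mode [Finite E] (H : Graph V E) (t : V → I) (ht : H.Equitable t) (s d : H.Dart)
    (h1 : t d.src = t s.src) (h2 : t d.tgt = t s.tgt) :
    ∃ μ : Mode H t s.src d.src, (μ.π ⟨s, rfl⟩).1 = d := by
  obtain ⟨μ, hμ⟩ := exists_mode_of_injOn H t ht s.src d.src h1 {s} (fun s' hs' => by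
    obtain rfl : s' = s := hs'
    rfl) (fun _ => d) (fun s' hs' => by
    obtain rfl : s' = s := hs'
    exact ⟨rfl, h2⟩) (Set.injOn_singleton _ _)
  exact ⟨μ, hμ s rfl⟩

end Graph

end Pool.Agent.Lib.MP_9c5086_lc
end

section

section

/-!
Exchanging the pairs along alternating paths.
-/

set_option linter.unusedSectionVars false

namespace Pool.Agent.Lib.MP_9c5086_lc.PM

variable {α : Type} [DecidableEq α] {V : List α} {E M : List (α × α)}

private theorem ends_cons' (e : α × α) (L : List (α × α)) :
    ends (e :: L) = e.1 :: e.2 :: ends L := by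
  simp [ends]

private theorem ends_append' (A B : List (α × α)) : ends (A ++ B) = ends A ++ ends B := by
  simp [ends]

private theorem mem_ends' {x : α} {L : List (α × α)} :
    x ∈ ends L ↔ ∃ e ∈ L, x = e.1 ∨ x = e.2 := by
  simp only [ends, List.mem_flatMap, List.mem_cons, List.not_mem_nil, or_false]

private theorem mem_untouched' {e : α × α} {L : List (α × α)} {c : List α} :
    e ∈ untouched L c ↔ e ∈ L ∧ e.1 ∉ c ∧ e.2 ∉ c := by
  simp only [untouched, List.mem_filter, Bool.and_eq_true, decide_eq_true_eq]

private theorem ends_sublist' {A B : List (α × α)} (h : A.Sublist B) : (ends A).Sublist (ends B) := by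
  induction h with
  | slnil => exact List.Sublist.refl _
  | cons a _ ih =>
    rw [ends_cons']
    exact (ih.cons _).cons _
  | cons_cons a _ ih =>
    rw [ends_cons', ends_cons']
    exact (ih.cons_cons _).cons_cons _

private theorem untouched_sublist' (L : List (α × α)) (c : List α) : (untouched L c).Sublist L :=
  List.filter_sublist

private theorem uniq' {L : List (α × α)} (hn : (ends L).Nodup) {e f : α × α} (he : e ∈ L) (hf : f ∈ L)
    {x : α} (hx : x = e.1 ∨ x = e.2) (hx' : x = f.1 ∨ x = f.2) : e = f := by
  induction L with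
  | nil => exact absurd he List.not_mem_nil
  | cons a L ih =>
    rw [ends_cons', List.nodup_cons, List.nodup_cons] at hn
    obtain ⟨h1, h2, h3⟩ := hn
    rw [List.mem_cons, not_or] at h1
    rcases List.mem_cons.1 he with rfl | he'
    · rcases List.mem_cons.1 hf with rfl | hf'
      · rfl
      · exfalso
        have hm : x ∈ ends L := mem_ends'.2 ⟨f, hf', hx'⟩
        rcases hx with rfl | rfl
        · exact h1.2 hm
        · exact h2 hm
    · rcases List.mem_cons.1 hf with rfl | hf'
      · exfalso
        have hm : x ∈ ends L := mem_ends'.2 ⟨e, he', hx⟩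
        rcases hx' with rfl | rfl
        · exact h1.2 hm
        · exact h2 hm
      · exact ih h3 he' hf'

private theorem untouched_one' {L : List (α × α)} (hn : (ends L).Nodup) {e : α × α} (he : e ∈ L)
    {c : List α} (hc : ∀ x ∈ c, x = e.1 ∨ x = e.2) (h1 : e.1 ∈ c) :
    (untouched L c).length + 1 = L.length := by
  obtain ⟨A, B, rfl⟩ := List.append_of_mem he
  have hn' := hn
  rw [ends_append', ends_cons'] at hn'
  have key : ∀ f : α × α, f ∈ A ++ B → (f.1 ∉ c ∧ f.2 ∉ c) := by
    have hne : ∀ f ∈ A ++ B, f ≠ e := by
      rintro f hf rfl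
      rw [List.nodup_append] at hn'
      obtain ⟨-, n2, n3⟩ := hn'
      rcases List.mem_append.1 hf with h | h
      · exact n3 f.1 (mem_ends'.2 ⟨f, h, Or.inl rfl⟩) f.1 (List.mem_cons_self) rfl
      · rw [List.nodup_cons, List.mem_cons, not_or] at n2
        exact n2.1.2 (mem_ends'.2 ⟨f, h, Or.inl rfl⟩)
    intro f hf
    have hf' : f ∈ A ++ e :: B := by
      rcases List.mem_append.1 hf with h | h
      · exact List.mem_append.2 (Or.inl h)
      · exact List.mem_append.2 (Or.inr (List.mem_cons_of_mem _ h))
    constructor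
    · intro hfc
      exact hne f hf (uniq' hn hf' he (Or.inl rfl) (hc _ hfc))
    · intro hfc
      exact hne f hf (uniq' hn hf' he (Or.inr rfl) (hc _ hfc))
  have e1 : untouched (A ++ e :: B) c = A ++ B := by
    unfold untouched
    rw [List.filter_append, List.filter_cons_of_neg (by simp [h1])]
    rw [← List.filter_append, List.filter_eq_self]
    intro f hf
    simp [(key f hf).1, (key f hf).2]
  rw [e1, List.length_append, List.length_append, List.length_cons]
  omega

private theorem untouched_append' (L : List (α × α)) (c d : List α) :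
    untouched L (c ++ d) = untouched (untouched L d) c := by
  unfold untouched
  rw [List.filter_filter]
  refine List.filter_congr fun e _ => ?_
  by_cases h1 : e.1 ∈ c <;> by_cases h2 : e.2 ∈ c <;> by_cases h3 : e.1 ∈ d <;>
    by_cases h4 : e.2 ∈ d <;> simp [h1, h2, h3, h4]

/-- The ends of the consecutive pairs of a list of even length. -/
theorem ends_pairs {l : List α} (h : Even l.length) : ends (pairs l) = l := by
  match l with
  | [] => rfl
  | [a] => exact absurd h (by simp)
  | a :: b :: l =>
    have h' : Even l.length := by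
      rw [List.length_cons, List.length_cons] at h
      rw [add_assoc, Nat.even_add] at h
      exact h.2 (by decide)
    show ends ((a, b) :: pairs l) = a :: b :: l
    rw [ends_cons', ends_pairs h']

/-- Consecutive pairs of the rest of an alternating path are adjacent. -/
theorem Alt.pairs_adj {h : α} {t : List α} (hp : Alt V E M (h :: t)) :
    ∀ e ∈ pairs t, Adj E e.1 e.2 := by
  have key : ∀ p : List α, Alt V E M p → ∀ e ∈ pairs p.tail, Adj E e.1 e.2 := by
    intro p hp
    induction hp with
    | root _ _ =>
      intro e he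
      exact absurd he (by simp [pairs])
    | step _ hadj _ _ _ _ ih =>
      intro e he
      rw [List.tail_cons] at he
      change e ∈ (_, _) :: pairs _ at he
      rcases List.mem_cons.1 he with rfl | he
      · exact ⟨hadj.1.symm, hadj.2.symm⟩
      · exact ih e he
  exact key (h :: t) hp

/-- The number of pairs touched by an alternating path. -/
theorem Alt.touch {p : List α} (hM : IsM V E M) (hp : Alt V E M p) :
    2 * (untouched M p).length + p.length = 2 * M.length + 1 := by
  induction hp with
  | @root r _ hr =>
    have e1 : untouched M [r] = M := by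
      unfold untouched
      rw [List.filter_eq_self]
      intro f hf
      have h1 : f.1 ≠ r := fun h => hr (mem_ends'.2 ⟨f, hf, Or.inl h.symm⟩)
      have h2 : f.2 ≠ r := fun h => hr (mem_ends'.2 ⟨f, hf, Or.inr h.symm⟩)
      simp [h1, h2]
    rw [e1]; simp
  | @step z y h t _ hadj hy hm hy' hz' ih =>
    have hu : (ends (untouched M (h :: t))).Nodup :=
      hM.nodup.sublist (ends_sublist' (untouched_sublist' _ _))
    have e1 : untouched M (z :: y :: h :: t) = untouched (untouched M (h :: t)) [z, y] :=
      untouched_append' M [z, y] (h :: t)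
    have e2 : (untouched (untouched M (h :: t)) [z, y]).length + 1 = (untouched M (h :: t)).length := by
      rcases hm with hm | hm
      · exact untouched_one' hu (mem_untouched'.2 ⟨hm, hz', hy'⟩) (by simp) (by simp)
      · exact untouched_one' hu (mem_untouched'.2 ⟨hm, hy', hz'⟩) (by simp) (by simp)
    rw [e1]
    simp only [List.length_cons] at ih ⊢
    omega

/-- Pairs touched by an alternating path have both ends on the path. -/
theorem Alt.both {p : List α} (hM : IsM V E M) (hp : Alt V E M p) {e : α × α} (he : e ∈ M) :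
    e.1 ∈ p ↔ e.2 ∈ p := by
  induction hp with
  | @root r _ hr =>
    have h1 : e.1 ≠ r := fun h => hr (mem_ends'.2 ⟨e, he, Or.inl h.symm⟩)
    have h2 : e.2 ≠ r := fun h => hr (mem_ends'.2 ⟨e, he, Or.inr h.symm⟩)
    simp [h1, h2]
  | @step z y h t _ hadj hy hm hy' hz' ih =>
    have key : (e.1 = z ∨ e.1 = y) ↔ (e.2 = z ∨ e.2 = y) := by
      rcases hm with hm | hm
      · constructor
        · intro hh
          have : e = (z, y) := uniq' hM.nodup he hm (Or.inl rfl) hh
          rw [this]; exact Or.inr rfl
        · intro hh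
          have : e = (z, y) := uniq' hM.nodup he hm (Or.inr rfl) hh
          rw [this]; exact Or.inl rfl
      · constructor
        · intro hh
          have : e = (y, z) := uniq' hM.nodup he hm (Or.inl rfl) hh.symm
          rw [this]; exact Or.inl rfl
        · intro hh
          have : e = (y, z) := uniq' hM.nodup he hm (Or.inr rfl) hh.symm
          rw [this]; exact Or.inr rfl
    rw [List.mem_cons, List.mem_cons, List.mem_cons (a := e.2), List.mem_cons (a := e.2),
      ← or_assoc, ← or_assoc, key, ih]

/-- Exchanging the pairs along an alternating path. -/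
theorem flip_spec {b : α} {t : List α} (hM : IsM V E M) (hp : Alt V E M (b :: t)) :
    IsM V E (flip M (b :: t)) ∧ (flip M (b :: t)).length = M.length ∧
      b ∉ ends (flip M (b :: t)) := by
  have hodd := hp.odd
  have hev : Even t.length := by
    rw [List.length_cons, Nat.odd_add_one, Nat.not_odd_iff_even] at hodd
    exact hodd
  have hnd := hp.nodup hM
  rw [List.nodup_cons] at hnd
  have hsub := hp.sub hM
  have hends : ends (flip M (b :: t)) = t ++ ends (untouched M (b :: t)) := by
    unfold flip
    rw [List.tail_cons, ends_append', ends_pairs hev]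
  have hun : ∀ x ∈ ends (untouched M (b :: t)), x ∈ ends M ∧ x ∉ b :: t := by
    intro x hx
    obtain ⟨e, he, hx⟩ := mem_ends'.1 hx
    rw [mem_untouched'] at he
    refine ⟨mem_ends'.2 ⟨e, he.1, hx⟩, ?_⟩
    rcases hx with rfl | rfl
    · exact he.2.1
    · exact he.2.2
  refine ⟨⟨?_, ?_, ?_⟩, ?_, ?_⟩
  · intro e he
    unfold flip at he
    rcases List.mem_append.1 he with h | h
    · exact hp.pairs_adj e h
    · exact hM.adj e (mem_untouched'.1 h).1
  · rw [hends, List.nodup_append]
    refine ⟨hnd.2, hM.nodup.sublist (ends_sublist' (untouched_sublist' _ _)), ?_⟩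
    rintro x hx y hy rfl
    exact (hun x hy).2 (List.mem_cons_of_mem _ hx)
  · intro x hx
    rw [hends] at hx
    rcases List.mem_append.1 hx with h | h
    · exact hsub x (List.mem_cons_of_mem _ h)
    · exact hM.sub x (hun x h).1
  · have h1 := hp.touch hM
    have h2 := length_ends (pairs t)
    rw [ends_pairs hev] at h2
    have h3 : (flip M (b :: t)).length = (pairs t).length + (untouched M (b :: t)).length := by
      unfold flip
      rw [List.tail_cons, List.length_append]
    rw [List.length_cons] at h1
    omega
  · rw [hends]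
    intro hb
    rcases List.mem_append.1 hb with h | h
    · exact hnd.1 h
    · exact (hun b h).2 List.mem_cons_self

end Pool.Agent.Lib.MP_9c5086_lc.PM
end

section

/-!
Two paths of the forest with a common vertex.
-/

namespace Pool.Agent.Lib.MP_9c5086_lc.PM

variable {α : Type} [DecidableEq α] {V : List α} {E M : List (α × α)}

/-- The vertex before a vertex at an odd position is its mate. -/
private lemma alt_mate {p : List α} (hp : Alt V E M p) :
    ∀ (l : List α) (z y : α) (t : List α), p = l ++ z :: y :: t → Even l.length →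
      (z, y) ∈ M ∨ (y, z) ∈ M := by
  induction hp with
  | root _ _ =>
    intro l z y t h _
    have := congrArg List.length h
    simp only [List.length_append, List.length_cons, List.length_nil] at this
    omega
  | step _ _ _ hzy _ _ ih =>
    intro l z y t h hl
    match l, hl with
    | [], _ =>
      simp only [List.nil_append, List.cons.injEq] at h
      obtain ⟨rfl, rfl, -⟩ := h
      exact hzy
    | [x], hl => simp at hl
    | x1 :: x2 :: l', hl =>
      simp only [List.cons_append, List.cons.injEq] at h
      obtain ⟨-, -, h⟩ := h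
      refine ih l' z y t h ?_
      simp only [List.length_cons] at hl
      have : l'.length + 1 + 1 = l'.length + 2 := rfl
      rw [this, Nat.even_add] at hl
      exact hl.2 (by decide)

private lemma mem_ends {M : List (α × α)} {e : α × α} (he : e ∈ M) :
    e.1 ∈ ends M ∧ e.2 ∈ ends M :=
  ⟨List.mem_flatMap.2 ⟨e, he, by simp⟩, List.mem_flatMap.2 ⟨e, he, by simp⟩⟩

/-- Mates are unique. -/
private lemma pair_unique {M : List (α × α)} (h : (ends M).Nodup) {e e' : α × α} {y : α}
    (he : e ∈ M) (he' : e' ∈ M) (hy : y = e.1 ∨ y = e.2) (hy' : y = e'.1 ∨ y = e'.2) : e = e' := by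
  induction M with
  | nil => simp at he
  | cons f M ih =>
    have h1 : ([f.1, f.2] ++ ends M).Nodup := h
    rw [List.nodup_append] at h1
    obtain ⟨-, h2, h3⟩ := h1
    have key : ∀ e : α × α, e ∈ M → (y = e.1 ∨ y = e.2) → (y = f.1 ∨ y = f.2) → False := by
      intro e he hy hf
      have h4 : y ∈ ends M := by
        rcases hy with rfl | rfl
        · exact (mem_ends he).1
        · exact (mem_ends he).2
      exact h3 y (by rcases hf with rfl | rfl <;> simp) y h4 rfl
    rcases List.mem_cons.1 he with rfl | he1 <;> rcases List.mem_cons.1 he' with rfl | he1'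
    · rfl
    · exact (key _ he1' hy' hy).elim
    · exact (key _ he1 hy hy').elim
    · exact ih h2 he1 he1'

private lemma drop_even {F : List (List α)} (hpre : ∀ z y t, z :: y :: t ∈ F → t ∈ F) :
    ∀ (l m : List α), Even l.length → l ++ m ∈ F → m ∈ F
  | [], m, _, h => h
  | [x], m, hl, _ => by simp at hl
  | x1 :: x2 :: l, m, hl, h => by
    refine drop_even hpre l m ?_ (hpre x1 x2 (l ++ m) h)
    simp only [List.length_cons] at hl
    have : l.length + 1 + 1 = l.length + 2 := rfl
    rw [this, Nat.even_add] at hl
    exact hl.2 (by decide)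

/-- The common vertices of two paths of the forest form a common suffix, which is a path of the
forest. -/
theorem split_paths (hM : IsM V E M) {F : List (List α)} (hF : Inv V E M F) {p q : List α}
    (hp : p ∈ F) (hq : q ∈ F) {b : α} {s : List α}
    (hs : (p.filter fun x => decide (x ∈ q)) = b :: s) :
    b :: s ∈ F ∧ p = (p.filter fun x => decide (x ∉ q)) ++ b :: s ∧
      q = (q.filter fun x => decide (x ∉ p)) ++ b :: s ∧
      Even (p.filter fun x => decide (x ∉ q)).length ∧
      Even (q.filter fun x => decide (x ∉ p)).length := by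
  obtain ⟨p1, p2, hp1, hp2, hp3, hp4⟩ := List.filter_eq_cons_iff.1 hs
  simp only [decide_eq_true_eq] at hp2 hp3
  obtain ⟨q1, q2, hq1⟩ := List.append_of_mem hp3
  have hpq : p2 = q2 := hF.suff p1 b p2 q1 q2 (hp1 ▸ hp) (hq1 ▸ hq)
  subst hpq
  have hap := hF.alt p hp
  have haq := hF.alt q hq
  have hnq : q.Nodup := haq.nodup hM
  have h2q : ∀ x ∈ p2, x ∈ q := fun x hx => by
    rw [hq1]
    exact List.mem_append_right _ (List.mem_cons_of_mem _ hx)
  have h2p : ∀ x ∈ p2, x ∈ p := fun x hx => by
    rw [hp1]
    exact List.mem_append_right _ (List.mem_cons_of_mem _ hx)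
  have hbp : b ∈ p := by
    rw [hp1]
    exact List.mem_append_right _ List.mem_cons_self
  have hsp : s = p2 := by
    rw [← hp4, List.filter_eq_self]
    intro x hx
    simpa using h2q x hx
  subst hsp
  have hq1p : ∀ x ∈ q1, x ∉ p := by
    intro x hx hxp
    have hxq : x ∈ q := by
      rw [hq1]
      exact List.mem_append_left _ hx
    rw [hp1, List.mem_append] at hxp
    rcases hxp with h | h
    · exact hp2 x h hxq
    · rw [hq1, List.nodup_append] at hnq
      exact hnq.2.2 x hx x h rfl
  have hfp : (p.filter fun x => decide (x ∉ q)) = p1 := by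
    conv_lhs => rw [hp1]
    rw [List.filter_append]
    have h1 : (p1.filter fun x => decide (x ∉ q)) = p1 := by
      rw [List.filter_eq_self]
      intro x hx
      simpa using hp2 x hx
    have h2 : ((b :: s).filter fun x => decide (x ∉ q)) = [] := by
      rw [List.filter_eq_nil_iff]
      intro x hx
      rcases List.mem_cons.1 hx with rfl | hx
      · simpa using hp3
      · simpa using h2q x hx
    rw [h1, h2, List.append_nil]
  have hfq : (q.filter fun x => decide (x ∉ p)) = q1 := by
    conv_lhs => rw [hq1]
    rw [List.filter_append]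
    have h1 : (q1.filter fun x => decide (x ∉ p)) = q1 := by
      rw [List.filter_eq_self]
      intro x hx
      simpa using hq1p x hx
    have h2 : ((b :: s).filter fun x => decide (x ∉ p)) = [] := by
      rw [List.filter_eq_nil_iff]
      intro x hx
      rcases List.mem_cons.1 hx with rfl | hx
      · simpa using hbp
      · simpa using h2p x hx
    rw [h1, h2, List.append_nil]
  have op := hap.odd
  have oq := haq.odd
  rw [hp1, List.length_append, List.length_cons] at op
  rw [hq1, List.length_append, List.length_cons] at oq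
  have hpar : Even p1.length ↔ Even q1.length := by
    rw [Nat.odd_iff] at op oq
    rw [Nat.even_iff, Nat.even_iff]
    omega
  have hev : Even p1.length := by
    by_contra hno
    have hno' : ¬ Even q1.length := fun h => hno (hpar.2 h)
    have hne : p1 ≠ [] := by
      rintro rfl
      exact hno (by simp)
    have hne' : q1 ≠ [] := by
      rintro rfl
      exact hno' (by simp)
    have d1 := List.dropLast_append_getLast hne
    have d2 := List.dropLast_append_getLast hne'
    have e1 : Even p1.dropLast.length := by
      rw [List.length_dropLast]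
      rw [Nat.not_even_iff] at hno
      rw [Nat.even_iff]
      omega
    have e2 : Even q1.dropLast.length := by
      rw [List.length_dropLast]
      rw [Nat.not_even_iff] at hno'
      rw [Nat.even_iff]
      omega
    have m1 := alt_mate hap p1.dropLast (p1.getLast hne) b s (by
      conv_lhs => rw [hp1, ← d1]
      simp) e1
    have m2 := alt_mate haq q1.dropLast (q1.getLast hne') b s (by
      conv_lhs => rw [hq1, ← d2]
      simp) e2
    have hac : p1.getLast hne = q1.getLast hne' := by
      rcases m1 with m1 | m1 <;> rcases m2 with m2 | m2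
      · have := pair_unique hM.nodup (y := b) m1 m2 (Or.inr rfl) (Or.inr rfl)
        simpa using congrArg Prod.fst this
      · have := pair_unique hM.nodup (y := b) m1 m2 (Or.inr rfl) (Or.inl rfl)
        have h1 := congrArg Prod.fst this
        have h2 := congrArg Prod.snd this
        simp only at h1 h2
        rw [h1, h2]
      · have := pair_unique hM.nodup (y := b) m1 m2 (Or.inl rfl) (Or.inr rfl)
        have h1 := congrArg Prod.fst this
        have h2 := congrArg Prod.snd this
        simp only at h1 h2
        rw [← h1, h2]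
      · have := pair_unique hM.nodup (y := b) m1 m2 (Or.inl rfl) (Or.inl rfl)
        simpa using congrArg Prod.snd this
    refine hp2 _ (List.getLast_mem hne) ?_
    rw [hac, hq1]
    exact List.mem_append_left _ (List.getLast_mem hne')
  have hF' : b :: s ∈ F := drop_even hF.pre p1 (b :: s) hev (hp1 ▸ hp)
  rw [hfp, hfq]
  exact ⟨hF', hp1, hq1, hev, hpar.1 hev⟩

end Pool.Agent.Lib.MP_9c5086_lc.PM
end
end
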