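import Pool.Agent.Lib.MP_9c5086_lc.Gadget
import Pool.Agent.Lib.MP_9c5086_lc.GDefs
import Pool.Agent.Lib.MP_9c5086_lc.PMSplit

section

/-!
Bad darts and the outcome of the case distinction: definitions.
-/

namespace Pool.Agent.Lib.MP_9c5086_lc

namespace Graph

variable {V E I : Type} {H : Graph V E} {t : V → I}

/-- The dart `d` at `x` is the only one leading to its component of `A - x`, and this component
meets `T`. -/
def Bad (H : Graph V E) (A T : Set V) (x : V) (d : H.Dart) : Prop :=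
  d.src = x ∧ d.tgt ∈ A ∧ d.tgt ≠ x ∧
    (∀ d' : H.Dart, d'.src = x → d'.tgt ∈ A → d'.tgt ≠ x → H.RConn (A \ {x}) d.tgt d'.tgt →
      d' = d) ∧ ∃ s ∈ T, H.RConn (A \ {x}) d.tgt s

/-- The outcome of the case distinction. -/
def Outcome (H : Graph V E) (t : V → I) : Prop :=
  (∃ S : Setup H t (Fin 3), ∃ R, Real S (Fin 3) (fun _ => false) R ∧
    (∀ c, Function.Injective c → R c) ∧
      ∃ a, ∀ c, R c → Function.Injective c ∨ ∀ p, c p = a) ∨
  ∃ S : Setup H t Bool,
    Real S (Fin 3) (fun _ => true) (fun c => (Finset.univ.filter fun i => c i = true).card = 1) ∧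
    Real S (Fin 3) (fun _ => false) (fun c => c 0 = c 1 ∧ c 2 = !c 0)

end Graph

end Pool.Agent.Lib.MP_9c5086_lc
end

section

/-!
Gadgets given by simple graphs.
-/

namespace Pool.Agent.Lib.MP_9c5086_lc

namespace Graph

variable {V E I : Type} {H : Graph V E} {t : V → I} {Col : Type}

/-- A gadget given by a simple graph `T` on its vertices; `slot u u'` is the slot of the dart from
`u` to `u'` (used for adjacent vertices only). -/
structure Proto (S : Setup H t Col) (P : Type) (sg : P → Bool) where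
  U : Type
  finU : Finite U
  T : SimpleGraph U
  mv : U → V
  slot : U → U → H.Dart
  pu : P → U
  ps : P → H.Dart
  Lv : U → Set V
  Le : U → U → Set E
  LP : P → Set Col
  src_slot : ∀ u u', T.Adj u u' → (slot u u').src = mv u
  src_ps : ∀ p, (ps p).src = mv (pu p)
  inj_slot : ∀ u u' u'', T.Adj u u' → T.Adj u u'' → slot u u' = slot u u'' → u' = u''
  inj_ps : ∀ p p', pu p = pu p' → ps p = ps p' → p = p'
  disj : ∀ p u, T.Adj (pu p) u → slot (pu p) u ≠ ps p
  ty_slot : ∀ u u', T.Adj u u' → t (slot u u').tgt = t (mv u')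
  Le_comm : ∀ u u', T.Adj u u' → Le u u' = Le u' u
  ty_pos : ∀ p, sg p = true → t (mv (pu p)) = t S.x ∧ t (ps p).tgt = S.j ∧ Lv (pu p) ⊆ {S.x}
  ty_neg : ∀ p, sg p = false → t (mv (pu p)) = S.j ∧ t (ps p).tgt = t S.x
  neg_inj : ∀ p p', sg p = false → sg p' = false → pu p = pu p' → p = p'
  neg_pos : ∀ p p', sg p = false → sg p' = true → pu p ≠ pu p'
  neg_adj : ∀ p p', sg p = false → sg p' = true → ¬ T.Adj (pu p) (pu p')

namespace Proto

variable {S : Setup H t Col} {P : Type} {sg : P → Bool} (A : Proto S P sg)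

/-- The gadget. -/
def gadget : Gadget S P sg where
  U := A.U
  D := {p : A.U × A.U // A.T.Adj p.1 p.2}
  finU := A.finU
  finD := by
    have := A.finU
    infer_instance
  mv := A.mv
  rev p := ⟨(p.1.2, p.1.1), p.2.symm⟩
  pos p := p.1.1
  slot p := A.slot p.1.1 p.1.2
  pu := A.pu
  ps := A.ps
  Lv := A.Lv
  Le p := A.Le p.1.1 p.1.2
  LP := A.LP
  rev_rev _ := rfl
  src_slot p := A.src_slot _ _ p.2
  src_ps := A.src_ps
  inj_slot := by
    rintro ⟨⟨a, b⟩, hp⟩ ⟨⟨a', b'⟩, hp'⟩ h1 h2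
    obtain rfl : a = a' := h1
    obtain rfl : b = b' := A.inj_slot _ _ _ hp hp' h2
    rfl
  inj_ps := A.inj_ps
  disj := by
    rintro ⟨⟨a, b⟩, hp⟩ p h1
    obtain rfl : a = A.pu p := h1
    exact A.disj p b hp
  ty_slot p := A.ty_slot _ _ p.2
  ne_pos p h := A.T.irrefl (h ▸ p.2 : A.T.Adj p.1.1 p.1.1)
  simple := by
    rintro ⟨⟨a, b⟩, hp⟩ ⟨⟨a', b'⟩, hp'⟩ h1 h2
    obtain rfl : a = a' := h1
    obtain rfl : b = b' := h2
    rfl
  Le_rev p := (A.Le_comm _ _ p.2).symm
  ty_pos := A.ty_pos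
  ty_neg := A.ty_neg
  neg_inj := A.neg_inj
  neg_pos := A.neg_pos
  neg_adj := by
    rintro ⟨⟨a, b⟩, hp⟩ p p' h1 h2 h3 h4
    obtain rfl : a = A.pu p := h3
    obtain rfl : b = A.pu p' := h4
    exact A.neg_adj p p' h1 h2 hp

/-- `fv`, `fe` is a solution with port values `c`. -/
structure Sol (c : P → Col) (fv : A.U → V) (fe : A.U → A.U → E) : Prop where
  comm : ∀ u u', A.T.Adj u u' → fe u u' = fe u' u
  ty : ∀ u, t (fv u) = t (A.mv u)
  joins : ∀ u u', A.T.Adj u u' → H.Joins (fe u u') (fv u) (fv u')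
  neg : ∀ p, sg p = false → H.Joins (S.ec (c p)) (fv (A.pu p)) S.x
  lv : ∀ u, fv u ∈ A.Lv u
  le : ∀ u u', A.T.Adj u u' → fe u u' ∈ A.Le u u'
  lp : ∀ p, c p ∈ A.LP p
  count : ∀ u e, {u' | A.T.Adj u u' ∧ fe u u' = e}.ncard +
    {p | A.pu p = u ∧ S.ec (c p) = e}.ncard ≤ H.inc e (fv u)

theorem sat_iff [Nonempty E] (c : P → Col) : A.gadget.Sat c ↔ ∃ fv fe, A.Sol c fv fe := by
  classical
  constructor
  · rintro ⟨fv, fe, h⟩
    refine ⟨fv, fun u u' => if hu : A.T.Adj u u' then fe ⟨(u, u'), hu⟩ else Classical.arbitrary E,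
      ?_, h.ty, ?_, h.neg, h.lv, ?_, h.lp, ?_⟩
    · intro u u' hu
      rw [dif_pos hu, dif_pos hu.symm]
      exact (h.rev ⟨(u, u'), hu⟩).symm
    · intro u u' hu
      rw [dif_pos hu]
      exact h.joins ⟨(u, u'), hu⟩
    · intro u u' hu
      rw [dif_pos hu]
      exact h.le ⟨(u, u'), hu⟩
    · intro u e
      refine le_trans (Nat.add_le_add_right (le_of_eq ?_) _) (h.count u e)
      symm
      refine Set.ncard_congr (fun p _ => p.1.2) ?_ ?_ ?_
      · rintro ⟨⟨a, b⟩, hp⟩ ⟨h1, h2⟩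
        obtain rfl : a = u := h1
        refine ⟨hp, ?_⟩
        rw [dif_pos hp]
        exact h2
      · rintro ⟨⟨a, b⟩, hp⟩ ⟨⟨a', b'⟩, hp'⟩ ⟨h1, h2⟩ ⟨h1', h2'⟩ h
        obtain rfl : a = u := h1
        obtain rfl : a' = a := h1'
        obtain rfl : b = b' := h
        rfl
      · rintro b ⟨h1, h2⟩
        rw [dif_pos h1] at h2
        exact ⟨⟨(u, b), h1⟩, ⟨rfl, h2⟩, rfl⟩
  · rintro ⟨fv, fe, h⟩
    refine ⟨fv, fun p => fe p.1.1 p.1.2, ?_, h.ty, ?_, h.neg, h.lv, ?_, h.lp, ?_⟩
    · rintro ⟨⟨a, b⟩, hp⟩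
      exact (h.comm a b hp).symm
    · rintro ⟨⟨a, b⟩, hp⟩
      exact h.joins a b hp
    · rintro ⟨⟨a, b⟩, hp⟩
      exact h.le a b hp
    · intro u e
      refine le_trans (Nat.add_le_add_right (le_of_eq ?_) _) (h.count u e)
      refine Set.ncard_congr (fun p _ => p.1.2) ?_ ?_ ?_
      · rintro ⟨⟨a, b⟩, hp⟩ ⟨h1, h2⟩
        obtain rfl : a = u := h1
        exact ⟨hp, h2⟩
      · rintro ⟨⟨a, b⟩, hp⟩ ⟨⟨a', b'⟩, hp'⟩ ⟨h1, h2⟩ ⟨h1', h2'⟩ h
        obtain rfl : a = u := h1
        obtain rfl : a' = a := h1'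
        obtain rfl : b = b' := h
        rfl
      · rintro b ⟨h1, h2⟩
        exact ⟨⟨(u, b), h1⟩, ⟨rfl, h2⟩, rfl⟩

/-- A solution given on the level of darts: `δ u u'` is the image of the dart from `u` to `u'`,
and `ε p` is the image of the port `p`. -/
theorem Sol.of_darts [Finite E] (c : P → Col) (fv : A.U → V) (δ : A.U → A.U → H.Dart)
    (ε : P → H.Dart)
    (hsrc : ∀ u u', A.T.Adj u u' → (δ u u').src = fv u)
    (hinv : ∀ u u', A.T.Adj u u' → δ u' u = (δ u u').inv)
    (hinj : ∀ u u' u'', A.T.Adj u u' → A.T.Adj u u'' → δ u u' = δ u u'' → u' = u'')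
    (hps : ∀ p, (ε p).src = fv (A.pu p)) (hpe : ∀ p, (ε p).edge = S.ec (c p))
    (hpinj : ∀ p p', A.pu p = A.pu p' → ε p = ε p' → p = p')
    (hdisj : ∀ p u, A.T.Adj (A.pu p) u → δ (A.pu p) u ≠ ε p)
    (hty : ∀ u, t (fv u) = t (A.mv u))
    (hneg : ∀ p, sg p = false → (ε p).tgt = S.x)
    (hlv : ∀ u, fv u ∈ A.Lv u) (hle : ∀ u u', A.T.Adj u u' → (δ u u').edge ∈ A.Le u u')
    (hlp : ∀ p, c p ∈ A.LP p) : A.Sol c fv (fun u u' => (δ u u').edge) where
  comm u u' h := by rw [hinv u u' h, Dart.edge_inv]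
  ty := hty
  joins u u' h := by
    have h1 := (δ u u').joins
    have h2 : (δ u u').tgt = fv u' := by
      rw [← Dart.src_inv, ← hinv u u' h, hsrc u' u h.symm]
    rwa [hsrc u u' h, h2] at h1
  neg p h := by
    have h1 := (ε p).joins
    rwa [hpe, hps, hneg p h] at h1
  lv := hlv
  le := hle
  lp := hlp
  count u e := by
    have := A.finU
    have e1 : {u' | A.T.Adj u u' ∧ (δ u u').edge = e}.ncard =
        ((fun u' => δ u u') '' {u' | A.T.Adj u u' ∧ (δ u u').edge = e}).ncard := by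
      rw [Set.InjOn.ncard_image]
      rintro u' ⟨h1, -⟩ u'' ⟨h2, -⟩ h3
      exact hinj u u' u'' h1 h2 h3
    have e2 : {p | A.pu p = u ∧ S.ec (c p) = e}.ncard =
        (ε '' {p | A.pu p = u ∧ S.ec (c p) = e}).ncard := by
      rw [Set.InjOn.ncard_image]
      rintro p ⟨h1, -⟩ p' ⟨h2, -⟩ h3
      exact hpinj p p' (h1.trans h2.symm) h3
    rw [e1, e2, ← Set.ncard_union_eq ?_ (Set.toFinite _) (Set.toFinite _)]
    · refine Set.ncard_le_ncard ?_ (Set.toFinite _)
      rintro d (⟨u', ⟨h1, h2⟩, rfl⟩ | ⟨p, ⟨h1, h2⟩, rfl⟩)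
      · exact ⟨h2, hsrc u u' h1⟩
      · exact ⟨(hpe p).trans h2, (hps p).trans (congrArg fv h1)⟩
    · rw [Set.disjoint_left]
      rintro d ⟨u', ⟨h1, h2⟩, rfl⟩ ⟨p, ⟨h3, h4⟩, h5⟩
      subst h3
      exact hdisj p u' h1 h5.symm

end Proto

/-- The second end of the edge of a colour at `v`, if the first one is `x`. -/
theorem Setup.eq_tgt (S : Setup H t Col) {c : Col} {v : V} (h : H.Joins (S.ec c) v S.x) :
    v = (S.dc c).tgt := by
  have h1 := (S.dc c).joins
  rw [S.src_dc] at h1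
  exact h.symm.unique h1

end Graph

end Pool.Agent.Lib.MP_9c5086_lc
end

section

/-!
Reading instances from their data.
-/

namespace Pool.Agent.Lib.MP_9c5086_lc

/-- The data of an instance. -/
abbrev RData : Type := List (List (List Bool))

/-- The row of an edge. -/
def rowE (D : RData) (f : ℕ) : List (List Bool) := D.tail.getD f []

/-- The first end of an edge. -/
def aI (D : RData) (f : ℕ) : ℕ := ((rowE D f).getD 1 []).idxOf true

/-- The second end of an edge. -/
def bI (D : RData) (f : ℕ) : ℕ := ((rowE D f).getD 2 []).idxOf true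

/-- Is the edge a semi-edge? -/
def sI (D : RData) (f : ℕ) : Bool := !decide (true ∈ (rowE D f).getD 2 [])

/-- The graph described by the data, as a list of vertices and darts. -/
def rawLG (p q : ℕ) (D : RData) : LG ℕ (ℕ × Bool) (Fin p) (Fin q) where
  Vs := List.range (D.headD []).length
  Ds := (List.range D.tail.length).flatMap fun f =>
    if sI D f = true then [(f, false)] else [(f, false), (f, true)]
  src d := if d.2 = true then bI D d.1 else aI D d.1
  inv d := if sI D d.1 = true then d else (d.1, !d.2)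
  Lv u x := ((D.headD []).getD u []).getD x.val false
  Le d e := ((rowE D d.1).getD 0 []).getD e.val false

/-- Are the data those of an instance? -/
def wfG (p q : ℕ) (D : RData) : Bool :=
  !decide (D = []) && ((D.headD []).all fun r => decide (r.length = p)) &&
    D.tail.all fun r => decide (r.length = 3) && decide ((r.getD 0 []).length = q) &&
      decide ((r.getD 1 []).length = (D.headD []).length) &&
      decide ((r.getD 2 []).length = (D.headD []).length) &&
      decide ((r.getD 1 []).count true = 1) && decide ((r.getD 2 []).count true ≤ 1)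

end Pool.Agent.Lib.MP_9c5086_lc
end

section

/-!
The gadget obtained by gluing.
-/

namespace Pool.Agent.Lib.MP_9c5086_lc

namespace Graph

variable {V E I : Type} {H : Graph V E} {t : V → I} {Col : Type} {S : Setup H t Col}

/-- The vertex of a port of a node. -/
private def gvU {N : Type} {Q : N → Type} {sn : ∀ n, Q n → Bool}
    (g : ∀ n, Gadget S (Q n) (sn n)) (s : Σ n, Q n) : Σ n, (g n).U := ⟨s.1, (g s.1).pu s.2⟩

/-- The slot of a port of a node. -/
private def gvS {N : Type} {Q : N → Type} {sn : ∀ n, Q n → Bool}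
    (g : ∀ n, Gadget S (Q n) (sn n)) (s : Σ n, Q n) : H.Dart := (g s.1).ps s.2

/-- The vertex of an internal dart of a node. -/
private def gpD {N : Type} {Q : N → Type} {sn : ∀ n, Q n → Bool}
    (g : ∀ n, Gadget S (Q n) (sn n)) (d : Σ n, (g n).D) : Σ n, (g n).U := ⟨d.1, (g d.1).pos d.2⟩

private theorem gvU_inj {N : Type} {Q : N → Type} {sn : ∀ n, Q n → Bool}
    (g : ∀ n, Gadget S (Q n) (sn n)) {s s' : Σ n, Q n} (h : gvU g s = gvU g s')
    (h' : gvS g s = gvS g s') : s = s' := by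
  obtain ⟨n, q⟩ := s
  obtain ⟨n', q'⟩ := s'
  obtain ⟨h1, h2⟩ := Sigma.mk.inj_iff.1 h
  change n = n' at h1
  subst h1
  have h3 := eq_of_heq h2
  have := (g n).inj_ps q q' h3 h'
  rw [this]

private theorem gpD_inj {N : Type} {Q : N → Type} {sn : ∀ n, Q n → Bool}
    (g : ∀ n, Gadget S (Q n) (sn n)) {d d' : Σ n, (g n).D} (h : gpD g d = gpD g d')
    (h' : (g d.1).slot d.2 = (g d'.1).slot d'.2) : d = d' := by
  obtain ⟨n, q⟩ := d
  obtain ⟨n', q'⟩ := d'
  obtain ⟨h1, h2⟩ := Sigma.mk.inj_iff.1 h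
  change n = n' at h1
  subst h1
  have h3 := eq_of_heq h2
  have := (g n).inj_slot q q' h3 h'
  rw [this]

private theorem gdisj {N : Type} {Q : N → Type} {sn : ∀ n, Q n → Bool}
    (g : ∀ n, Gadget S (Q n) (sn n)) {d : Σ n, (g n).D} {s : Σ n, Q n} (h : gpD g d = gvU g s) :
    (g d.1).slot d.2 ≠ gvS g s := by
  obtain ⟨n, q⟩ := d
  obtain ⟨n', q'⟩ := s
  obtain ⟨h1, h2⟩ := Sigma.mk.inj_iff.1 h
  change n = n' at h1
  subst h1
  exact (g n).disj q q' (eq_of_heq h2)

private theorem gsimple {N : Type} {Q : N → Type} {sn : ∀ n, Q n → Bool}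
    (g : ∀ n, Gadget S (Q n) (sn n)) {d d' : Σ n, (g n).D} (h : gpD g d = gpD g d')
    (h' : gpD g ⟨d.1, (g d.1).rev d.2⟩ = gpD g ⟨d'.1, (g d'.1).rev d'.2⟩) : d = d' := by
  obtain ⟨n, q⟩ := d
  obtain ⟨n', q'⟩ := d'
  obtain ⟨h1, h2⟩ := Sigma.mk.inj_iff.1 h
  change n = n' at h1
  subst h1
  obtain ⟨-, h4⟩ := Sigma.mk.inj_iff.1 h'
  have := (g n).simple q q' (eq_of_heq h2) (eq_of_heq h4)
  rw [this]

private theorem gneg_inj {N : Type} {Q : N → Type} {sn : ∀ n, Q n → Bool}
    (g : ∀ n, Gadget S (Q n) (sn n)) {s s' : Σ n, Q n} (hs : sn s.1 s.2 = false)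
    (hs' : sn s'.1 s'.2 = false) (h : gvU g s = gvU g s') : s = s' := by
  obtain ⟨n, q⟩ := s
  obtain ⟨n', q'⟩ := s'
  obtain ⟨h1, h2⟩ := Sigma.mk.inj_iff.1 h
  change n = n' at h1
  subst h1
  have := (g n).neg_inj q q' hs hs' (eq_of_heq h2)
  rw [this]

private theorem gneg_pos {N : Type} {Q : N → Type} {sn : ∀ n, Q n → Bool}
    (g : ∀ n, Gadget S (Q n) (sn n)) {s s' : Σ n, Q n} (hs : sn s.1 s.2 = false)
    (hs' : sn s'.1 s'.2 = true) : gvU g s ≠ gvU g s' := by
  intro h
  obtain ⟨n, q⟩ := s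
  obtain ⟨n', q'⟩ := s'
  obtain ⟨h1, h2⟩ := Sigma.mk.inj_iff.1 h
  change n = n' at h1
  subst h1
  exact (g n).neg_pos q q' hs hs' (eq_of_heq h2)

private theorem gneg_adj {N : Type} {Q : N → Type} {sn : ∀ n, Q n → Bool}
    (g : ∀ n, Gadget S (Q n) (sn n)) {d : Σ n, (g n).D} {s s' : Σ n, Q n}
    (hs : sn s.1 s.2 = false) (hs' : sn s'.1 s'.2 = true) (h : gpD g d = gvU g s) :
    gpD g ⟨d.1, (g d.1).rev d.2⟩ ≠ gvU g s' := by
  intro h'
  obtain ⟨n, e⟩ := d
  obtain ⟨n', q'⟩ := s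
  obtain ⟨n2, q2⟩ := s'
  obtain ⟨h1, h2⟩ := Sigma.mk.inj_iff.1 h
  change n = n' at h1
  subst h1
  obtain ⟨h3, h4⟩ := Sigma.mk.inj_iff.1 h'
  change n = n2 at h3
  subst h3
  exact (g n).neg_adj e q' q2 hs hs' (eq_of_heq h2) (eq_of_heq h4)

/-- The port of a wire dart. -/
private def gport {N : Type} {Q : N → Type} {sn : ∀ n, Q n → Bool} {W P : Type} {sg : P → Bool}
    (G : GlueData sn W P sg) (x : W × Bool) : Σ n, Q n := if x.2 then G.wp x.1 else G.wn x.1

private theorem gport_sign {N : Type} {Q : N → Type} {sn : ∀ n, Q n → Bool} {W P : Type}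
    {sg : P → Bool} (G : GlueData sn W P sg) (x : W × Bool) :
    sn (gport G x).1 (gport G x).2 = x.2 := by
  obtain ⟨w, b⟩ := x
  cases b
  · exact G.swn w
  · exact G.swp w

private theorem gport_inj {N : Type} {Q : N → Type} {sn : ∀ n, Q n → Bool} {W P : Type}
    {sg : P → Bool} (G : GlueData sn W P sg) {x x' : W × Bool} (h : gport G x = gport G x') :
    x = x' := by
  have hb : x.2 = x'.2 := by rw [← gport_sign G x, ← gport_sign G x', h]
  obtain ⟨w, b⟩ := x
  obtain ⟨w', b'⟩ := x'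
  change b = b' at hb
  subst hb
  cases b
  · have h' : G.wn w = G.wn w' := h
    have := G.inj (a₁ := Sum.inr (Sum.inl w)) (a₂ := Sum.inr (Sum.inl w')) h'
    have := Sum.inl_injective (Sum.inr_injective this)
    rw [this]
  · have h' : G.wp w = G.wp w' := h
    have := G.inj (a₁ := Sum.inl w) (a₂ := Sum.inl w') h'
    have := Sum.inl_injective this
    rw [this]

private theorem gport_ne {N : Type} {Q : N → Type} {sn : ∀ n, Q n → Bool} {W P : Type}
    {sg : P → Bool} (G : GlueData sn W P sg) (x : W × Bool) (p : P) : gport G x ≠ G.ext p := by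
  intro h
  obtain ⟨w, b⟩ := x
  cases b
  · have h' : G.wn w = G.ext p := h
    have := G.inj (a₁ := Sum.inr (Sum.inl w)) (a₂ := Sum.inr (Sum.inr p)) h'
    have := Sum.inr_injective this
    exact absurd this (by simp)
  · have h' : G.wp w = G.ext p := h
    have := G.inj (a₁ := Sum.inl w) (a₂ := Sum.inr (Sum.inr p)) h'
    exact absurd this (by simp)

private theorem gext_inj {N : Type} {Q : N → Type} {sn : ∀ n, Q n → Bool} {W P : Type}
    {sg : P → Bool} (G : GlueData sn W P sg) {p p' : P} (h : G.ext p = G.ext p') : p = p' := by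
  have := G.inj (a₁ := Sum.inr (Sum.inr p)) (a₂ := Sum.inr (Sum.inr p')) h
  exact Sum.inr_injective (Sum.inr_injective this)

/-- The gadget obtained by gluing. -/
def Gadget.glue {N : Type} [Finite N] {Q : N → Type} {sn : ∀ n, Q n → Bool} {W P : Type} [Finite W]
    {sg : P → Bool} (g : ∀ n, Gadget S (Q n) (sn n)) (G : GlueData sn W P sg) :
    Gadget S P sg where
  U := Σ n, (g n).U
  D := (Σ n, (g n).D) ⊕ (W × Bool)
  finU := by
    have := fun n => (g n).finU
    infer_instance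
  finD := by
    have := fun n => (g n).finD
    infer_instance
  mv u := (g u.1).mv u.2
  rev := Sum.map (fun d => ⟨d.1, (g d.1).rev d.2⟩) (fun w => (w.1, !w.2))
  pos := Sum.elim (fun d => ⟨d.1, (g d.1).pos d.2⟩) (fun w =>
    if w.2 then ⟨(G.wp w.1).1, (g _).pu (G.wp w.1).2⟩ else ⟨(G.wn w.1).1, (g _).pu (G.wn w.1).2⟩)
  slot := Sum.elim (fun d => (g d.1).slot d.2) (fun w =>
    if w.2 then (g _).ps (G.wp w.1).2 else (g _).ps (G.wn w.1).2)
  pu p := ⟨(G.ext p).1, (g _).pu (G.ext p).2⟩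
  ps p := (g _).ps (G.ext p).2
  Lv u := (g u.1).Lv u.2
  Le := Sum.elim (fun d => (g d.1).Le d.2) (fun w =>
    {e | ∃ c ∈ (g _).LP (G.wp w.1).2, c ∈ (g _).LP (G.wn w.1).2 ∧ S.ec c = e})
  LP p := (g _).LP (G.ext p).2
  rev_rev := by
    rintro (d | w)
    · simp [(g _).rev_rev]
    · simp
  src_slot := by
    rintro (d | ⟨w, b⟩)
    · exact (g _).src_slot _
    · cases b
      · exact (g _).src_ps _
      · exact (g _).src_ps _
  src_ps := fun p => (g _).src_ps _
  inj_slot := by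
    rintro (d | ⟨w, b⟩) (d' | ⟨w', b'⟩) h h'
    · exact congrArg _ (gpD_inj g h h')
    · exfalso
      cases b'
      · exact gdisj g (s := G.wn w') h h'
      · exact gdisj g (s := G.wp w') h h'
    · exfalso
      cases b
      · exact gdisj g (s := G.wn w) h.symm h'.symm
      · exact gdisj g (s := G.wp w) h.symm h'.symm
    · refine congrArg _ (gport_inj G (gvU_inj g ?_ ?_))
      · cases b <;> cases b' <;> exact h
      · cases b <;> cases b' <;> exact h'
  inj_ps := fun p p' h h' => gext_inj G (gvU_inj g h h')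
  disj := by
    rintro (d | ⟨w, b⟩) p h h'
    · exact gdisj g h h'
    · refine gport_ne G (w, b) p (gvU_inj g ?_ ?_)
      · cases b <;> exact h
      · cases b <;> exact h'
  ty_slot := by
    rintro (d | ⟨w, b⟩)
    · exact (g _).ty_slot _
    · cases b
      · have h1 := (g _).ty_neg (G.wn w).2 (G.swn w)
        have h2 := (g _).ty_pos (G.wp w).2 (G.swp w)
        exact h1.2.trans h2.1.symm
      · have h1 := (g _).ty_neg (G.wn w).2 (G.swn w)
        have h2 := (g _).ty_pos (G.wp w).2 (G.swp w)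
        exact h2.2.1.trans h1.1.symm
  ne_pos := by
    rintro (d | ⟨w, b⟩) h
    · obtain ⟨-, h2⟩ := Sigma.mk.inj_iff.1 h
      exact (g _).ne_pos _ (eq_of_heq h2)
    · cases b
      · exact gneg_pos g (G.swn w) (G.swp w) h.symm
      · exact gneg_pos g (G.swn w) (G.swp w) h
  simple := by
    have key : ∀ (d : Σ n, (g n).D) (x : W × Bool), gpD g d = gvU g (gport G x) →
        gpD g ⟨d.1, (g d.1).rev d.2⟩ = gvU g (gport G (x.1, !x.2)) → False := by
      rintro d ⟨w, b⟩ h h'
      cases b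
      · exact gneg_adj g (s := G.wn w) (s' := G.wp w) (G.swn w) (G.swp w) h h'
      · refine gneg_adj g (s := G.wn w) (s' := G.wp w) (G.swn w) (G.swp w) h' ?_
        rw [(g _).rev_rev]
        exact h
    rintro (d | ⟨w, b⟩) (d' | ⟨w', b'⟩) h h'
    · exact congrArg _ (gsimple g h h')
    · exfalso
      cases b'
      · exact key d (w', false) h h'
      · exact key d (w', true) h h'
    · exfalso
      cases b
      · exact key d' (w, false) h.symm h'.symm
      · exact key d' (w, true) h.symm h'.symm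
    · cases b <;> cases b'
      · have := gneg_inj g (G.swn w) (G.swn w') h
        exact congrArg _ (gport_inj G (x := (w, false)) (x' := (w', false)) this)
      · exact absurd h (gneg_pos g (G.swn w) (G.swp w'))
      · exact absurd h.symm (gneg_pos g (G.swn w') (G.swp w))
      · have := gneg_inj g (G.swn w) (G.swn w') h'
        have := gport_inj G (x := (w, false)) (x' := (w', false)) this
        rw [(Prod.mk.inj this).1]
  Le_rev := by
    rintro (d | ⟨w, b⟩)
    · exact (g _).Le_rev _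
    · rfl
  ty_pos := by
    intro p hp
    exact (g _).ty_pos _ ((G.sext p).trans hp)
  ty_neg := by
    intro p hp
    exact (g _).ty_neg _ ((G.sext p).trans hp)
  neg_inj := by
    intro p p' hp hp' h
    exact gext_inj G (gneg_inj g ((G.sext p).trans hp) ((G.sext p').trans hp') h)
  neg_pos := by
    intro p p' hp hp'
    exact gneg_pos g ((G.sext p).trans hp) ((G.sext p').trans hp')
  neg_adj := by
    rintro (d | ⟨w, b⟩) p p' hp hp' h
    · exact gneg_adj g ((G.sext p).trans hp) ((G.sext p').trans hp') h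
    · exfalso
      cases b
      · have := gneg_inj g (G.swn w) ((G.sext p).trans hp) h
        exact gport_ne G (w, false) p this
      · exact gneg_pos g ((G.sext p).trans hp) (G.swp w) h.symm

end Graph

end Pool.Agent.Lib.MP_9c5086_lc
end
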