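import Mathlib

/-!
Matchings in graphs given by lists: definitions for Edmonds' algorithm.
-/

namespace Pool.Agent.Lib.MP_9c5086_lc.PM

variable {α : Type} [DecidableEq α]

/-- Adjacency in the simple graph given by the list `E` of pairs. -/
def Adj (E : List (α × α)) (a b : α) : Prop := a ≠ b ∧ ((a, b) ∈ E ∨ (b, a) ∈ E)

instance (E : List (α × α)) (a b : α) : Decidable (Adj E a b) :=
  inferInstanceAs (Decidable (a ≠ b ∧ ((a, b) ∈ E ∨ (b, a) ∈ E)))

/-- The ends of the pairs of a list. -/
def ends (M : List (α × α)) : List α := M.flatMap fun e => [e.1, e.2]

/-- The pairs of `M` without ends in `c`. -/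
def untouched (M : List (α × α)) (c : List α) : List (α × α) :=
  M.filter fun e => decide (e.1 ∉ c) && decide (e.2 ∉ c)

/-- The list `M` is a matching of the graph with vertex list `V` and edge list `E`. -/
structure IsM (V : List α) (E M : List (α × α)) : Prop where
  adj : ∀ e ∈ M, Adj E e.1 e.2
  nodup : (ends M).Nodup
  sub : ∀ x ∈ ends M, x ∈ V

/-- There is a matching with more pairs than `M`. -/
def Better (V : List α) (E M : List (α × α)) : Prop := ∃ M', IsM V E M' ∧ M.length < M'.length

/-- A certificate that no matching has more pairs than `M`: a set `U` of vertices and a family `D`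
of disjoint odd sets of other vertices such that each edge leaving a member of `D` ends in `U`,
and `|D| + 2|M| = |U| + |V|`. -/
structure IsCert (V : List α) (E M : List (α × α)) (U : Finset α) (D : Finset (Finset α)) :
    Prop where
  subU : ∀ x ∈ U, x ∈ V
  subD : ∀ A ∈ D, ∀ x ∈ A, x ∈ V ∧ x ∉ U
  odd : ∀ A ∈ D, Odd A.card
  disj : ∀ A ∈ D, ∀ B ∈ D, A ≠ B → Disjoint A B
  closed : ∀ A ∈ D, ∀ x ∈ A, ∀ y ∈ V, Adj E x y → y ∈ U ∨ y ∈ A
  card : D.card + 2 * M.length = U.card + V.length

/-- The consecutive pairs of a list. -/
def pairs : List α → List (α × α)
  | a :: b :: l => (a, b) :: pairs l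
  | _ => []

/-- The vertices matched to `x` (at most one). -/
def mate (M : List (α × α)) (x : α) : List α :=
  M.flatMap fun e => if e.1 = x then [e.2] else if e.2 = x then [e.1] else []

/-- The forest consisting of the exposed vertices. -/
def roots (V : List α) (M : List (α × α)) : List (List α) :=
  (V.filter fun v => decide (v ∉ ends M)).map fun v => [v]

/-- The extensions of the path `p` of the forest `F` by an edge and a matching edge. -/
def ext (V : List α) (E M : List (α × α)) (F : List (List α)) (p : List α) : List (List α) :=
  match p with
  | [] => []
  | h :: t => V.flatMap fun y =>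
      if Adj E h y ∧ y ∉ F.flatten then (mate M y).map fun z => z :: y :: h :: t else []

/-- Add one path to the forest, if possible. -/
def addStep (V : List α) (E M : List (α × α)) (F : List (List α)) : List (List α) :=
  match F.flatMap (ext V E M F) with
  | [] => F
  | p :: _ => p :: F

/-- The maximal forest, a list of alternating paths; each path is listed from its last vertex to
its first vertex, which is exposed. -/
def forest (V : List α) (E M : List (α × α)) : List (List α) :=
  (addStep V E M)^[V.length] (roots V M)

/-- The pairs of paths of the forest with adjacent last vertices. -/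
def found (E : List (α × α)) (F : List (List α)) : List (List α × List α) :=
  F.flatMap fun p => F.flatMap fun q =>
    match p, q with
    | h :: _, g :: _ => if Adj E h g then [(p, q)] else []
    | _, _ => []

/-- Exchange the pairs along a path. -/
def flip (M : List (α × α)) (s : List α) : List (α × α) := pairs s.tail ++ untouched M s

/-- Rename all vertices in `c` to `b`. -/
def rn (b : α) (c : List α) (x : α) : α := if x ∈ c then b else x

/-- States of the algorithm: vertices, edges, matching, and the result if it is known. -/
abbrev State (α : Type) : Type := List α × List (α × α) × List (α × α) × List Bool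

/-- Contract the vertices in `c` to the vertex `b`. -/
def contract (V : List α) (E M : List (α × α)) (b : α) (c : List α) : State α :=
  (V.filter fun v => decide (v ∉ c), E.map fun e => (rn b c e.1, rn b c e.2), untouched M c, [])

/-- One step of the algorithm. -/
def augStep (s : State α) : State α :=
  match s with
  | (V, E, M, r) =>
    match r with
    | _ :: _ => s
    | [] =>
      match found E (forest V E M) with
      | [] => (V, E, M, [false])
      | (p, q) :: _ =>
        match p.filter fun x => decide (x ∈ q) with
        | [] => (V, E, M, [true])
        | b :: t => contract V E (flip M (b :: t)) b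
            ((p.filter fun x => decide (x ∉ q)).reverse ++ q.filter fun x => decide (x ∉ p))

/-- Is there a matching with more pairs than `M`? -/
def aug (V : List α) (E M : List (α × α)) : Bool :=
  (augStep^[V.length + 1] (V, E, M, [])).2.2.2.headD false

/-- One step of the search for a small set of additional edges. -/
def pruneStep (V : List α) (M : List (α × α)) (s : List (α × α) × List (α × α)) :
    List (α × α) × List (α × α) :=
  match s with
  | (K, R) =>
    match R with
    | [] => (K, [])
    | e :: R' => if aug V (M ++ (K ++ R')) M then (K, R') else (e :: K, R')

/-- A minimal set of edges whose addition to `M` allows a larger matching. -/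
def prune (V : List α) (E M : List (α × α)) : List (α × α) :=
  ((pruneStep V M)^[E.length] ([], E)).1

/-- A larger matching, if there is one. -/
def improve (V : List α) (E M : List (α × α)) : List (α × α) :=
  if aug V E M then prune V E M ++ untouched M (ends (prune V E M)) else M

/-- A maximum matching. -/
def maxMatching (V : List α) (E : List (α × α)) : List (α × α) := (improve V E)^[V.length] []

/-- Is there a perfect matching? -/
def pmDec (V : List α) (E : List (α × α)) : Bool :=
  V.all fun v => decide (v ∈ ends (maxMatching V E))

end Pool.Agent.Lib.MP_9c5086_lc.PM
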