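import Pool.Agent.Lib.MP_9c5086_lc.ClosedWalk
import Pool.Agent.Lib.MP_9c5086_lc.PMDefs

section

section

/-!
Products, joins and projections.
-/

namespace Pool.Agent.Lib.MP_9c5086_lc

namespace Clone

variable {Col : Type} (C : Clone Col)

/-- Renaming ports, with control over the signs and the relation. -/
theorem of_equiv {P Q : Type} {sg : P → Bool} {sg' : Q → Bool} {R : (P → Col) → Prop}
    {R' : (Q → Col) → Prop} (e : Q ≃ P) (h : C.mem P sg R) (hs : ∀ q, sg' q = sg (e q))
    (hR : ∀ c : Q → Col, R (c ∘ e.symm) ↔ R' c) : C.mem Q sg' R' := by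
  have h1 := C.congr (C.reindex e h) hR
  have h2 : sg' = sg ∘ e := funext hs
  rw [h2]
  exact h1

/-- The product of a finite family. -/
theorem pi {N : Type} [Finite N] {Q : N → Type} {sg : ∀ n, Q n → Bool}
    {R : ∀ n, (Q n → Col) → Prop} (h : ∀ n, C.mem (Q n) (sg n) (R n)) :
    C.mem (Σ n, Q n) (fun p => sg p.1 p.2) (fun c => ∀ n, R n (fun q => c ⟨n, q⟩)) := by
  revert Q
  refine Finite.induction_empty_option (P := fun N => ∀ {Q : N → Type} {sg : ∀ n, Q n → Bool}
    {R : ∀ n, (Q n → Col) → Prop}, (∀ n, C.mem (Q n) (sg n) (R n)) →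
    C.mem (Σ n, Q n) (fun p => sg p.1 p.2) (fun c => ∀ n, R n (fun q => c ⟨n, q⟩)))
    ?_ ?_ ?_ N
  · intro N N' e ih Q sg R h
    have h1 := ih (Q := fun n => Q (e n)) (sg := fun n => sg (e n)) (R := fun n => R (e n))
      (fun n => h (e n))
    refine C.of_equiv (Equiv.sigmaCongrLeft e).symm h1 ?_ ?_
    · intro q
      obtain ⟨q, rfl⟩ := (Equiv.sigmaCongrLeft e).surjective q
      rw [Equiv.symm_apply_apply]
      rfl
    · intro c
      constructor
      · intro h2 n
        obtain ⟨n, rfl⟩ := e.surjective n
        exact h2 n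
      · intro h2 n
        exact h2 (e n)
  · intro Q sg R _
    refine C.of_equiv (Equiv.equivOfIsEmpty _ _) (C.empty fun _ => true) ?_ ?_
    · rintro ⟨q, -⟩
      exact q.elim
    · intro c
      constructor
      · intro _ n
        exact n.elim
      · exact fun _ => trivial
  · intro N _ ih Q sg R h
    have h1 := C.prod (h none) (ih (Q := fun n => Q (some n)) (fun n => h (some n)))
    let e : (Σ n, Q n) ≃ Q none ⊕ (Σ n : N, Q (some n)) :=
      { toFun := fun p => match p with
          | ⟨none, q⟩ => Sum.inl q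
          | ⟨some n, q⟩ => Sum.inr ⟨n, q⟩
        invFun := Sum.elim (fun q => ⟨none, q⟩) (fun p => ⟨some p.1, p.2⟩)
        left_inv := by rintro ⟨_ | n, q⟩ <;> rfl
        right_inv := by rintro (q | ⟨n, q⟩) <;> rfl }
    refine C.of_equiv e h1 ?_ ?_
    · rintro ⟨_ | n, q⟩ <;> rfl
    · intro c
      constructor
      · rintro ⟨h2, h3⟩ (_ | n)
        · exact h2
        · exact h3 n
      · intro h2
        exact ⟨h2 none, fun n => h2 (some n)⟩

/-- Joining several pairs of ports. -/
theorem joins {P W : Type} {sg : P → Bool} (sw : W → Bool) {R : (P ⊕ (W ⊕ W) → Col) → Prop}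
    (h : C.mem (P ⊕ (W ⊕ W)) (Sum.elim sg (Sum.elim sw fun w => !sw w)) R) :
    C.mem P sg (fun c => ∃ z : W → Col, R (Sum.elim c (Sum.elim z z))) := by
  have hf := C.finite h
  have hW : Finite W := Finite.of_injective (fun w => (Sum.inr (Sum.inl w) : P ⊕ (W ⊕ W)))
    fun a b h => by simpa using h
  revert sw P
  refine Finite.induction_empty_option (P := fun W => ∀ {P : Type} {sg : P → Bool}
    (sw : W → Bool) {R : (P ⊕ (W ⊕ W) → Col) → Prop},
    C.mem (P ⊕ (W ⊕ W)) (Sum.elim sg (Sum.elim sw fun w => !sw w)) R →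
    Finite (P ⊕ (W ⊕ W)) →
    C.mem P sg (fun c => ∃ z : W → Col, R (Sum.elim c (Sum.elim z z)))) ?_ ?_ ?_ W
  · intro W W' e ih P sg sw R h _
    have h1 := ih (P := P) (sg := sg) (sw ∘ e)
      (C.of_equiv (sg' := Sum.elim sg (Sum.elim (sw ∘ e) fun w => !(sw ∘ e) w))
        (R' := fun c => R (c ∘ ((Equiv.refl P).sumCongr (e.sumCongr e)).symm))
        ((Equiv.refl P).sumCongr (e.sumCongr e)) h (by rintro (p | w | w) <;> rfl)
        (fun c => Iff.rfl)) (by
          have := C.finite h
          exact Finite.of_equiv _ ((Equiv.refl P).sumCongr (e.sumCongr e)).symm)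
    refine C.congr h1 fun c => ?_
    constructor
    · rintro ⟨z, hz⟩
      refine ⟨z ∘ e.symm, ?_⟩
      convert hz using 1
      funext p
      rcases p with p | w | w <;> rfl
    · rintro ⟨z, hz⟩
      refine ⟨z ∘ e, ?_⟩
      convert hz using 1
      funext p
      rcases p with p | w | w
      · rfl
      · exact congrArg z (e.apply_symm_apply w)
      · exact congrArg z (e.apply_symm_apply w)
  · intro P sg sw R h _
    refine C.of_equiv (Q := P) (P := P ⊕ (PEmpty ⊕ PEmpty)) (sg' := sg)
      ((Equiv.sumEmpty P (PEmpty ⊕ PEmpty)).symm) h (fun q => rfl) fun c => ?_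
    have : ∀ z : PEmpty → Col, (Sum.elim c (Sum.elim z z) : P ⊕ (PEmpty ⊕ PEmpty) → Col) =
        c ∘ ((Equiv.sumEmpty P (PEmpty ⊕ PEmpty)).symm).symm := by
      intro z
      funext p
      rcases p with p | w | w
      · rfl
      · exact w.elim
      · exact w.elim
    constructor
    · intro h
      exact ⟨fun w => w.elim, by rw [this]; exact h⟩
    · rintro ⟨z, hz⟩
      rw [this] at hz
      exact hz
  · intro W _ ih P sg sw R h _
    -- regroup
    let e : (P ⊕ (W ⊕ W)) ⊕ Bool ≃ P ⊕ (Option W ⊕ Option W) :=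
      { toFun := Sum.elim (Sum.elim Sum.inl (fun w => Sum.inr (Sum.map some some w)))
          (fun b => if b = sw none then Sum.inr (Sum.inl none) else Sum.inr (Sum.inr none))
        invFun := fun p => match p with
          | Sum.inl p => Sum.inl (Sum.inl p)
          | Sum.inr (Sum.inl (some w)) => Sum.inl (Sum.inr (Sum.inl w))
          | Sum.inr (Sum.inr (some w)) => Sum.inl (Sum.inr (Sum.inr w))
          | Sum.inr (Sum.inl none) => Sum.inr (sw none)
          | Sum.inr (Sum.inr none) => Sum.inr (!sw none)
        left_inv := by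
          rintro ((p | w | w) | b)
          · rfl
          · rfl
          · rfl
          · by_cases hb : b = sw none
            · simp [hb]
            · have : b = !sw none := by
                cases b <;> cases h : sw none <;> simp_all
              simp [this]
        right_inv := by
          rintro (p | (_ | w) | (_ | w)) <;> simp }
    have h1 : C.mem ((P ⊕ (W ⊕ W)) ⊕ Bool)
        (Sum.elim (Sum.elim sg (Sum.elim (fun w => sw (some w)) fun w => !sw (some w))) id)
        (fun c => R (c ∘ e.symm)) := by
      refine C.of_equiv e h ?_ (fun c => Iff.rfl)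
      rintro ((p | w | w) | b)
      · rfl
      · rfl
      · rfl
      · simp only [Sum.elim_inr, id, e, Equiv.coe_fn_mk]
        by_cases hb : b = sw none
        · rw [if_pos hb]
          simp [hb]
        · rw [if_neg hb]
          simp only [Sum.elim_inr]
          cases b <;> cases h : sw none <;> simp_all
    have h2 := C.join h1
    have h3 := ih (P := P) (sg := sg) (fun w => sw (some w)) h2 (C.finite h2)
    refine C.congr h3 fun c => ?_
    have key : ∀ (z : W → Col) (z0 : Col),
        (Sum.elim (Sum.elim c (Sum.elim z z)) (fun _ => z0)) ∘ e.symm =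
          (Sum.elim c (Sum.elim (fun w => w.elim z0 z) (fun w => w.elim z0 z)) :
            P ⊕ (Option W ⊕ Option W) → Col) := by
      intro z z0
      funext p
      rcases p with p | (_ | w) | (_ | w) <;> rfl
    constructor
    · rintro ⟨z, z0, hz⟩
      refine ⟨fun w => w.elim z0 z, ?_⟩
      rw [← key]
      exact hz
    · rintro ⟨z, hz⟩
      refine ⟨fun w => z (some w), z none, ?_⟩
      rw [key]
      convert hz using 2
      · congr 1
        · funext w; cases w <;> rfl
        · funext w; cases w <;> rfl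

/-- Projection. -/
theorem proj {P Q : Type} {sg : P → Bool} {sg' : Q → Bool} {R : (P ⊕ Q → Col) → Prop}
    (h : C.mem (P ⊕ Q) (Sum.elim sg sg') R) :
    C.mem P sg (fun c => ∃ z : Q → Col, R (Sum.elim c z)) := by
  have hf := C.finite h
  have hQ : Finite Q := Finite.of_injective (fun w => (Sum.inr w : P ⊕ Q))
    fun a b h => by simpa using h
  have h1 := C.pi (N := Q) (Q := fun _ => Unit) (sg := fun q _ => !sg' q)
    (R := fun _ _ => True) (fun q => C.unit (!sg' q))
  have h2 := C.prod h h1
  have h3 : C.mem (P ⊕ (Q ⊕ Q)) (Sum.elim sg (Sum.elim sg' fun w => !sg' w))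
      (fun c => R (Sum.elim (c ∘ Sum.inl) (c ∘ Sum.inr ∘ Sum.inl))) := by
    refine C.of_equiv (Q := P ⊕ (Q ⊕ Q)) (P := (P ⊕ Q) ⊕ (Σ _ : Q, Unit))
      ((Equiv.sumAssoc P Q Q).symm.trans ((Equiv.refl (P ⊕ Q)).sumCongr
        (Equiv.sigmaUnique Q (fun _ => Unit)).symm)) h2 ?_ ?_
    · rintro (p | q | q) <;> rfl
    · intro c
      constructor
      · rintro ⟨h4, -⟩
        convert h4 using 1
        funext p
        rcases p with p | q <;> rfl
      · intro h4
        refine ⟨?_, fun _ => trivial⟩
        convert h4 using 1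
        funext p
        rcases p with p | q <;> rfl
  refine C.congr (C.joins sg' h3) fun c => ?_
  constructor
  · rintro ⟨z, hz⟩
    exact ⟨z, hz⟩
  · rintro ⟨z, hz⟩
    exact ⟨z, hz⟩

end Clone

end Pool.Agent.Lib.MP_9c5086_lc
end

section

/-!
Composition of relations.
-/

namespace Pool.Agent.Lib.MP_9c5086_lc

namespace Clone

variable {Col : Type} (C : Clone Col)

/-- Composition of two relations along one wire. -/
theorem comp {P Q : Type} {sg : P → Bool} {sg' : Q → Bool} {b : Bool}
    {R : (P ⊕ Unit → Col) → Prop} {R' : (Q ⊕ Unit → Col) → Prop}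
    (h : C.mem (P ⊕ Unit) (Sum.elim sg fun _ => b) R)
    (h' : C.mem (Q ⊕ Unit) (Sum.elim sg' fun _ => !b) R') :
    C.mem (P ⊕ Q) (Sum.elim sg sg') (fun c => ∃ z, R (Sum.elim (c ∘ Sum.inl) fun _ => z) ∧
      R' (Sum.elim (c ∘ Sum.inr) fun _ => z)) := by
  have h1 := C.prod h h'
  let e : (P ⊕ Q) ⊕ (Unit ⊕ Unit) ≃ (P ⊕ Unit) ⊕ (Q ⊕ Unit) :=
    { toFun := Sum.elim (Sum.map Sum.inl Sum.inl) (Sum.map Sum.inr Sum.inr)
      invFun := Sum.elim (Sum.elim (fun p => Sum.inl (Sum.inl p)) (fun u => Sum.inr (Sum.inl u)))
        (Sum.elim (fun q => Sum.inl (Sum.inr q)) (fun u => Sum.inr (Sum.inr u)))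
      left_inv := by rintro ((p | q) | (u | u)) <;> rfl
      right_inv := by rintro ((p | u) | (q | u)) <;> rfl }
  have h2 : C.mem ((P ⊕ Q) ⊕ (Unit ⊕ Unit))
      (Sum.elim (Sum.elim sg sg') (Sum.elim (fun _ => b) fun _ => !b))
      (fun c => R ((c ∘ e.symm) ∘ Sum.inl) ∧ R' ((c ∘ e.symm) ∘ Sum.inr)) :=
    C.of_equiv e h1 (by rintro ((p | q) | (u | u)) <;> rfl) (fun c => Iff.rfl)
  refine C.congr (C.joins (fun _ => b) h2) fun c => ?_
  have key : ∀ z : Unit → Col,
      ((Sum.elim c (Sum.elim z z)) ∘ e.symm) ∘ Sum.inl =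
        (Sum.elim (c ∘ Sum.inl) fun _ => z () : P ⊕ Unit → Col) ∧
      ((Sum.elim c (Sum.elim z z)) ∘ e.symm) ∘ Sum.inr =
        (Sum.elim (c ∘ Sum.inr) fun _ => z () : Q ⊕ Unit → Col) := by
    intro z
    constructor
    · funext p
      rcases p with p | u <;> rfl
    · funext p
      rcases p with p | u <;> rfl
  constructor
  · rintro ⟨z, hz1, hz2⟩
    rw [(key z).1] at hz1
    rw [(key z).2] at hz2
    exact ⟨z (), hz1, hz2⟩
  · rintro ⟨z, hz1, hz2⟩
    refine ⟨fun _ => z, ?_, ?_⟩
    · rw [(key _).1]
      exact hz1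
    · rw [(key _).2]
      exact hz2

/-- Replacing each port by one with another sign, using wires. -/
theorem wires {P : Type} {sg sg' : P → Bool} {R : (P → Col) → Prop} {K : P → Col → Col → Prop}
    (h : C.mem P sg R)
    (hK : ∀ p, C.mem Bool (fun i => if i then sg' p else !sg p) fun c => K p (c true) (c false)) :
    C.mem P sg' (fun c => ∃ z : P → Col, R z ∧ ∀ p, K p (c p) (z p)) := by
  have hP := C.finite h
  have h1 := C.prod h (C.pi hK)
  let e : P ⊕ (P ⊕ P) ≃ P ⊕ (Σ _ : P, Bool) :=
    { toFun := Sum.elim (fun p => Sum.inr ⟨p, true⟩) (Sum.elim Sum.inl fun p => Sum.inr ⟨p, false⟩)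
      invFun := Sum.elim (fun p => Sum.inr (Sum.inl p))
        (fun q => if q.2 then Sum.inl q.1 else Sum.inr (Sum.inr q.1))
      left_inv := by rintro (p | p | p) <;> rfl
      right_inv := by rintro (p | ⟨p, _ | _⟩) <;> rfl }
  have h2 : C.mem (P ⊕ (P ⊕ P)) (Sum.elim sg' (Sum.elim sg fun p => !sg p))
      (fun c => R (fun p => c (Sum.inr (Sum.inl p))) ∧
        ∀ p, K p (c (Sum.inl p)) (c (Sum.inr (Sum.inr p)))) :=
    C.of_equiv e h1 (by rintro (p | p | p) <;> rfl) (fun c => Iff.rfl)
  exact C.joins sg h2

/-- Equality wires with negative ports turn positive ports into negative ports. -/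
theorem flip {P : Type} {R : (P → Col) → Prop}
    (heq : C.mem Bool (fun _ => false) (fun c => c true = c false))
    (h : C.mem P (fun _ => true) R) : C.mem P (fun _ => false) R := by
  refine C.congr (C.wires (sg' := fun _ => false) (K := fun _ a b => a = b) h fun _ => ?_)
    fun c => ?_
  · refine C.congr ?_ fun c => Iff.rfl
    convert heq using 2 with i
    cases i <;> rfl
  · constructor
    · rintro ⟨z, h1, h2⟩
      rwa [show c = z from funext h2]
    · exact fun h => ⟨c, h, fun _ => rfl⟩

end Clone

end Pool.Agent.Lib.MP_9c5086_lc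
end
end

section

/-!
Certificates for maximum matchings.
-/

namespace Pool.Agent.Lib.MP_9c5086_lc.PM

variable {α : Type} [DecidableEq α] {V : List α} {E M : List (α × α)}

/-- The list of ends is twice as long. -/
theorem length_ends (M : List (α × α)) : (ends M).length = 2 * M.length := by
  induction M with
  | nil => rfl
  | cons e M ih =>
    have h : ends (e :: M) = e.1 :: e.2 :: ends M := rfl
    rw [h, List.length_cons, List.length_cons, ih, List.length_cons]
    ring

/-- The number of exposed vertices. -/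
theorem exposed_count (hV : V.Nodup) (hM : IsM V E M) :
    (V.filter fun v => decide (v ∉ ends M)).length + 2 * M.length = V.length := by
  have h1 : (V.filter fun v => decide (v ∈ ends M)).length = 2 * M.length := by
    rw [← length_ends M]
    apply List.Perm.length_eq
    rw [List.perm_ext_iff_of_nodup (hV.filter _) hM.nodup]
    intro a
    rw [List.mem_filter, decide_eq_true_iff]
    exact ⟨fun h => h.2, fun h => ⟨hM.sub a h, h⟩⟩
  have h2 := List.length_eq_length_filter_add (l := V) (fun v => decide (v ∈ ends M))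
  have h3 : (V.filter fun v => !decide (v ∈ ends M)) = V.filter fun v => decide (v ∉ ends M) := by
    apply List.filter_congr
    intro x _
    simp
  rw [h3] at h2
  omega

private theorem mem_ends_iff {M : List (α × α)} {x : α} :
    x ∈ ends M ↔ ∃ y, (x, y) ∈ M ∨ (y, x) ∈ M := by
  unfold ends
  rw [List.mem_flatMap]
  constructor
  · rintro ⟨⟨a, b⟩, he, hx⟩
    rw [List.mem_cons, List.mem_singleton] at hx
    rcases hx with hx | hx
    · exact ⟨b, Or.inl (by rw [hx]; exact he)⟩
    · exact ⟨a, Or.inr (by rw [hx]; exact he)⟩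
  · rintro ⟨y, h | h⟩
    · exact ⟨_, h, by simp⟩
    · exact ⟨_, h, by simp⟩

private theorem ends_disj {M : List (α × α)} (hM : (ends M).Nodup) {e e' : α × α} (he : e ∈ M)
    (he' : e' ∈ M) (hne : e ≠ e') : List.Disjoint [e.1, e.2] [e'.1, e'.2] := by
  unfold ends at hM
  rw [List.nodup_flatMap] at hM
  haveI : Std.Symm (Function.onFun List.Disjoint fun e : α × α => [e.1, e.2]) :=
    ⟨fun a b hab => List.Disjoint.symm hab⟩
  exact hM.2.forall he he' hne

private theorem partner_unique {M : List (α × α)} (hM : (ends M).Nodup)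
    (hne : ∀ e ∈ M, e.1 ≠ e.2) {x y z : α}
    (hy : (x, y) ∈ M ∨ (y, x) ∈ M) (hz : (x, z) ∈ M ∨ (z, x) ∈ M) : y = z := by
  rcases hy with hy | hy <;> rcases hz with hz | hz
  · by_cases h : (x, y) = (x, z)
    · exact (Prod.ext_iff.1 h).2
    · exact absurd (ends_disj hM hy hz h) (by simp [List.Disjoint])
  · by_cases h : (x, y) = (z, x)
    · have := hne _ hy
      rw [Prod.ext_iff] at h
      exact absurd h.2.symm this
    · exact absurd (ends_disj hM hy hz h) (by simp [List.Disjoint])
  · by_cases h : (y, x) = (x, z)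
    · have := hne _ hy
      rw [Prod.ext_iff] at h
      exact absurd h.1 this
    · exact absurd (ends_disj hM hy hz h) (by simp [List.Disjoint])
  · by_cases h : (y, x) = (z, x)
    · exact (Prod.ext_iff.1 h).1
    · exact absurd (ends_disj hM hy hz h) (by simp [List.Disjoint])

private theorem card_key {U : Finset α} {D : Finset (Finset α)} {M' : List (α × α)}
    (h : IsCert V E M U D) (hM' : IsM V E M') :
    D.card ≤ (((V.filter fun v => decide (v ∉ ends M')).toFinset).filter
      fun v => ∃ A ∈ D, v ∈ A).card + U.card := by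
  classical
  set X' := ((V.filter fun v => decide (v ∉ ends M')).toFinset).filter
      fun v => ∃ A ∈ D, v ∈ A with hX'
  rw [← Finset.card_disjSum]
  have hne' : ∀ e ∈ M', e.1 ≠ e.2 := fun e he => (hM'.adj e he).1
  let r : Finset α → α ⊕ α → Prop := fun A s =>
    Sum.elim (fun x => x ∈ A) (fun u => ∃ x ∈ A, (x, u) ∈ M' ∨ (u, x) ∈ M') s
  refine Finset.card_le_card_of_forall_subsingleton r ?_ ?_
  · intro A hA
    by_contra hcon
    have h1 : ∀ x ∈ A, x ∈ ends M' := by
      intro x hx
      by_contra hx'
      apply hcon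
      refine ⟨Sum.inl x, ?_, hx⟩
      rw [Finset.inl_mem_disjSum, hX', Finset.mem_filter, List.mem_toFinset, List.mem_filter]
      exact ⟨⟨(h.subD A hA x hx).1, by simpa using hx'⟩, A, hA, hx⟩
    have h2 : ∀ x ∈ A, ∃ y ∈ A, (x, y) ∈ M' ∨ (y, x) ∈ M' := by
      intro x hx
      obtain ⟨y, hy⟩ := mem_ends_iff.1 (h1 x hx)
      refine ⟨y, ?_, hy⟩
      have hyV : y ∈ V := hM'.sub y (mem_ends_iff.2 ⟨x, hy.symm⟩)
      have hadj : Adj E x y := by
        rcases hy with hy | hy
        · exact hM'.adj _ hy
        · have := hM'.adj _ hy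
          exact ⟨this.1.symm, this.2.symm⟩
      rcases h.closed A hA x hx y hyV hadj with hu | hu
      · exfalso
        apply hcon
        refine ⟨Sum.inr y, ?_, x, hx, hy⟩
        rw [Finset.inr_mem_disjSum]
        exact hu
      · exact hu
    choose g hg hg' using h2
    have hsum : ∑ x ∈ A, (1 : ZMod 2) = 0 := by
      refine Finset.sum_involution g ?_ ?_ hg ?_
      · intro a ha
        decide
      · intro a ha _ hga
        have := hg' a ha
        rw [hga] at this
        rcases this with this | this
        · exact hne' _ this rfl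
        · exact hne' _ this rfl
      · intro a ha
        exact partner_unique hM'.nodup hne' (hg' (g a ha) (hg a ha)) (hg' a ha).symm
    rw [Finset.sum_const, nsmul_eq_mul, mul_one, ZMod.natCast_eq_zero_iff] at hsum
    have := h.odd A hA
    rw [← Nat.not_even_iff_odd] at this
    exact this (even_iff_two_dvd.2 hsum)
  · rintro (x | u) hs
    · rintro A ⟨hA, hxA⟩ B ⟨hB, hxB⟩
      by_contra hAB
      have := h.disj A hA B hB hAB
      rw [Finset.disjoint_left] at this
      exact this hxA hxB
    · rintro A ⟨hA, x, hxA, hx⟩ B ⟨hB, y, hyB, hy⟩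
      have hxy : x = y := partner_unique hM'.nodup hne' hx.symm hy.symm
      by_contra hAB
      have := h.disj A hA B hB hAB
      rw [Finset.disjoint_left] at this
      rw [hxy] at hxA
      exact this hxA hyB

private theorem card_exposed (hV : V.Nodup) {M' : List (α × α)} (hM' : IsM V E M') :
    ((V.filter fun v => decide (v ∉ ends M')).toFinset).card + 2 * M'.length = V.length := by
  rw [List.toFinset_card_of_nodup (hV.filter _)]
  exact exposed_count hV hM'

/-- A certificate excludes larger matchings. -/
theorem not_better {U : Finset α} {D : Finset (Finset α)} (hV : V.Nodup)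
    (h : IsCert V E M U D) : ¬ Better V E M := by
  classical
  rintro ⟨M', hM', hlt⟩
  have h1 := card_key h hM'
  have h2 := card_exposed hV hM'
  have h3 := h.card
  have h4 := Finset.card_filter_le ((V.filter fun v => decide (v ∉ ends M')).toFinset)
    (fun v => ∃ A ∈ D, v ∈ A)
  omega

/-- If there is a certificate, then each exposed vertex is in a member of the family. -/
theorem exposed_mem {U : Finset α} {D : Finset (Finset α)} (hV : V.Nodup)
    (h : IsCert V E M U D) (hM : IsM V E M) {v : α} (hv : v ∈ V) (h' : v ∉ ends M) :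
    ∃ A ∈ D, v ∈ A := by
  classical
  have h1 := card_key h hM
  have h2 := card_exposed hV hM
  have h3 := h.card
  have h4 : ((V.filter fun v => decide (v ∉ ends M)).toFinset).filter
      (fun v => ∃ A ∈ D, v ∈ A) = (V.filter fun v => decide (v ∉ ends M)).toFinset := by
    apply Finset.eq_of_subset_of_card_le (Finset.filter_subset _ _)
    omega
  have h5 : v ∈ (V.filter fun v => decide (v ∉ ends M)).toFinset := by
    rw [List.mem_toFinset, List.mem_filter]
    exact ⟨hv, by simpa using h'⟩
  rw [← h4, Finset.mem_filter] at h5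
  exact h5.2

end Pool.Agent.Lib.MP_9c5086_lc.PM
end

section

/-!
Factors and perfect matchings: definitions.
-/

namespace Pool.Agent.Lib.MP_9c5086_lc

open PM

variable {W D : Type} [DecidableEq W] [DecidableEq D]

/-- The vertices of the matching problem: two copies of the darts and of two fillers for each
vertex. -/
def facV (C : List W) (L : List D) : List ((D ⊕ (W × Bool)) × Bool) :=
  (L.flatMap fun d => [(.inl d, false), (.inl d, true)]) ++
    C.flatMap fun v => [(.inr (v, false), false), (.inr (v, true), false),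
      (.inr (v, false), true), (.inr (v, true), true)]

/-- The edges of the matching problem. -/
def facE (src : D → W) (inv : D → D) (ra rb : D → Bool) (L : List D) :
    List (((D ⊕ (W × Bool)) × Bool) × ((D ⊕ (W × Bool)) × Bool)) :=
  (L.flatMap fun d => if rb d = true then
      (if inv d = d then [((.inl d, false), (.inl d, true))]
      else [((.inl d, false), (.inl (inv d), false)), ((.inl d, true), (.inl (inv d), true))])
    else []) ++
  L.flatMap fun d => if ra d = true then
      [((.inl d, false), (.inr (src d, false), false)), ((.inl d, false), (.inr (src d, true), false)),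
        ((.inl d, true), (.inr (src d, false), true)), ((.inl d, true), (.inr (src d, true), true))]
    else []

end Pool.Agent.Lib.MP_9c5086_lc
end
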