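import Pool.Agent.Lib.MP_9c5086_lc.CGadDefs

section

/-!
From factors to perfect matchings.
-/

namespace Pool.Agent.Lib.MP_9c5086_lc

open PM

variable {W D : Type} [DecidableEq W] [DecidableEq D]

private theorem ends_cons' {β : Type} [DecidableEq β] (e : β × β) (N : List (β × β)) :
    ends (e :: N) = e.1 :: e.2 :: ends N := by
  simp [ends]

private theorem inv_matching {β : Type} [DecidableEq β] (E : List (β × β)) (f : β → β) :
    ∀ (n : ℕ) (V : List β), V.length = n → V.Nodup → (∀ v ∈ V, f v ∈ V) →
      (∀ v ∈ V, f (f v) = v) → (∀ v ∈ V, Adj E v (f v)) →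
      ∃ M : List (β × β), (∀ e ∈ M, Adj E e.1 e.2) ∧ (ends M).Nodup ∧
        ∀ x, x ∈ ends M ↔ x ∈ V := by
  intro n
  induction n using Nat.strong_induction_on with
  | _ n ih =>
    intro V hn hV h1 h2 h3
    cases V with
    | nil => exact ⟨[], by simp, by simp [ends], by simp [ends]⟩
    | cons v V =>
      have hvV : v ∉ V := (List.nodup_cons.mp hV).1
      have hVn : V.Nodup := (List.nodup_cons.mp hV).2
      have hne : v ≠ f v := (h3 v List.mem_cons_self).1
      have hfv : f v ∈ V := by
        rcases List.mem_cons.mp (h1 v List.mem_cons_self) with h | h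
        · exact absurd h.symm hne
        · exact h
      have hmem : ∀ x, x ∈ V.erase (f v) ↔ x ≠ f v ∧ x ∈ V := fun x => hVn.mem_erase_iff
      have hlen : (V.erase (f v)).length < n := by
        rw [List.length_erase_of_mem hfv, ← hn, List.length_cons]
        omega
      obtain ⟨M, hM1, hM2, hM3⟩ := ih _ hlen (V.erase (f v)) rfl (hVn.erase _)
        (fun x hx => by
          obtain ⟨hx1, hx2⟩ := (hmem x).mp hx
          rw [hmem]
          refine ⟨fun h => ?_, ?_⟩
          · have h4 := h2 x (List.mem_cons_of_mem _ hx2)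
            rw [h, h2 v List.mem_cons_self] at h4
            exact hvV (h4 ▸ hx2)
          · rcases List.mem_cons.mp (h1 x (List.mem_cons_of_mem _ hx2)) with h | h
            · have h4 := h2 x (List.mem_cons_of_mem _ hx2)
              rw [h] at h4
              exact absurd h4.symm hx1
            · exact h)
        (fun x hx => h2 x (List.mem_cons_of_mem _ ((hmem x).mp hx).2))
        (fun x hx => h3 x (List.mem_cons_of_mem _ ((hmem x).mp hx).2))
      refine ⟨(v, f v) :: M, ?_, ?_, ?_⟩
      · intro e he
        rcases List.mem_cons.mp he with rfl | he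
        · exact h3 v List.mem_cons_self
        · exact hM1 e he
      · rw [ends_cons']
        refine List.nodup_cons.mpr ⟨?_, List.nodup_cons.mpr ⟨?_, hM2⟩⟩
        · intro h
          rcases List.mem_cons.mp h with h | h
          · exact hne h
          · exact hvV ((hmem v).mp ((hM3 v).mp h)).2
        · intro h
          exact ((hmem _).mp ((hM3 _).mp h)).1 rfl
      · intro x
        rw [ends_cons', List.mem_cons, List.mem_cons, hM3, hmem, List.mem_cons]
        constructor
        · rintro (h | h | h)
          · exact Or.inl h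
          · exact Or.inr (h ▸ hfv)
          · exact Or.inr h.2
        · rintro (h | h)
          · exact Or.inl h
          · by_cases hx : x = f v
            · exact Or.inr (Or.inl hx)
            · exact Or.inr (Or.inr ⟨hx, h⟩)

private theorem mem_facV {C : List W} {L : List D} {x : (D ⊕ (W × Bool)) × Bool} :
    x ∈ facV C L ↔ (∃ d ∈ L, ∃ c, x = (Sum.inl d, c)) ∨
      (∃ v ∈ C, ∃ k c, x = (Sum.inr (v, k), c)) := by
  simp only [facV, List.mem_append, List.mem_flatMap, List.mem_cons, List.not_mem_nil, or_false]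
  constructor
  · rintro (⟨d, hd, h | h⟩ | ⟨v, hv, h | h | h | h⟩)
    · exact Or.inl ⟨d, hd, _, h⟩
    · exact Or.inl ⟨d, hd, _, h⟩
    all_goals exact Or.inr ⟨v, hv, _, _, h⟩
  · rintro (⟨d, hd, c, h⟩ | ⟨v, hv, k, c, h⟩)
    · left
      refine ⟨d, hd, ?_⟩
      cases c
      · exact Or.inl h
      · exact Or.inr h
    · right
      refine ⟨v, hv, ?_⟩
      cases k <;> cases c
      · exact Or.inl h
      · exact Or.inr (Or.inr (Or.inl h))
      · exact Or.inr (Or.inl h)
      · exact Or.inr (Or.inr (Or.inr h))

private theorem facE_fix {src : D → W} {inv : D → D} {ra rb : D → Bool} {L : List D} {d : D}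
    (hd : d ∈ L) (hr : rb d = true) (hi : inv d = d) :
    ((Sum.inl d, false), (Sum.inl d, true)) ∈ facE src inv ra rb L := by
  simp only [facE, List.mem_append, List.mem_flatMap]
  left
  refine ⟨d, hd, ?_⟩
  simp [hr, hi]

private theorem facE_inv {src : D → W} {inv : D → D} {ra rb : D → Bool} {L : List D} {d : D}
    (hd : d ∈ L) (hr : rb d = true) (hi : inv d ≠ d) (c : Bool) :
    ((Sum.inl d, c), (Sum.inl (inv d), c)) ∈ facE src inv ra rb L := by
  simp only [facE, List.mem_append, List.mem_flatMap]
  left
  refine ⟨d, hd, ?_⟩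
  cases c <;> simp [hr, hi]

private theorem facE_src {src : D → W} {inv : D → D} {ra rb : D → Bool} {L : List D} {d : D}
    (hd : d ∈ L) (hr : ra d = true) (k c : Bool) :
    ((Sum.inl d, c), (Sum.inr (src d, k), c)) ∈ facE src inv ra rb L := by
  simp only [facE, List.mem_append, List.mem_flatMap]
  right
  refine ⟨d, hd, ?_⟩
  cases c <;> cases k <;> simp [hr]

/-- A factor gives a perfect matching. -/
theorem pm_of_factor {src : D → W} {inv : D → D} {ra rb : D → Bool} {C : List W} {L : List D}
    (hC : C.Nodup) (hL : L.Nodup) (hs : ∀ d ∈ L, src d ∈ C) (hi : ∀ d ∈ L, inv d ∈ L)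
    (hii : ∀ d ∈ L, inv (inv d) = d) (hra : ∀ d ∈ L, ra (inv d) = ra d)
    (hrb : ∀ d ∈ L, rb (inv d) = rb d) (nb : ℕ)
    (hdeg : ∀ v ∈ C, {d | d ∈ L ∧ src d = v}.ncard = 2 + nb)
    (h : ∃ B : Set D, (∀ d ∈ L, inv d ∈ B ↔ d ∈ B) ∧ (∀ d ∈ L, d ∈ B → rb d = true) ∧
      (∀ d ∈ L, d ∉ B → ra d = true) ∧ ∀ v ∈ C, {d | (d ∈ L ∧ src d = v) ∧ d ∈ B}.ncard = nb) :
    ∃ M, IsM (facV C L) (facE src inv ra rb L) M ∧ ∀ v ∈ facV C L, v ∈ ends M := by
  classical
  obtain ⟨B, hB1, hB2, hB3, hB4⟩ := h
  by_cases hD : Nonempty D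
  swap
  · have hL0 : L = [] := by
      cases L with
      | nil => rfl
      | cons d L => exact absurd ⟨d⟩ hD
    have hC0 : C = [] := by
      cases C with
      | nil => rfl
      | cons v C =>
        exfalso
        have h1 := hdeg v List.mem_cons_self
        have h2 : {d | d ∈ L ∧ src d = v} = (∅ : Set D) := by
          ext d; exact absurd ⟨d⟩ hD
        rw [h2, Set.ncard_empty] at h1
        omega
    subst hL0 hC0
    exact ⟨[], ⟨by simp, by simp [ends], by simp [ends]⟩, by simp [facV]⟩
  have hfin : ∀ v, {d | d ∈ L ∧ src d = v}.Finite := fun v =>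
    (List.finite_toSet L).subset fun d hd => hd.1
  have hg : ∀ v : W, ∃ g : Bool → D, v ∈ C → g false ≠ g true ∧
      ∀ d, ((d ∈ L ∧ src d = v) ∧ d ∉ B) ↔ (d = g false ∨ d = g true) := by
    intro v
    by_cases hv : v ∈ C
    · have h1 := Set.ncard_inter_add_ncard_sdiff_eq_ncard {d | d ∈ L ∧ src d = v} B (hfin v)
      have h2 : ({d | d ∈ L ∧ src d = v} ∩ B).ncard = nb := hB4 v hv
      have h3 : ({d | d ∈ L ∧ src d = v} \ B).ncard = 2 := by
        have := hdeg v hv
        omega
      obtain ⟨x, y, hxy, hS⟩ := Set.ncard_eq_two.mp h3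
      refine ⟨fun b => if b = true then y else x, fun _ => ⟨by simpa using hxy, fun d => ?_⟩⟩
      have : d ∈ ({d | d ∈ L ∧ src d = v} \ B) ↔ d ∈ ({x, y} : Set D) := by rw [hS]
      simpa using this
    · exact ⟨fun _ => hD.some, fun h => absurd h hv⟩
  choose g hg using hg
  have hgm : ∀ v ∈ C, ∀ k, (g v k ∈ L ∧ src (g v k) = v) ∧ g v k ∉ B := by
    intro v hv k
    rw [(hg v hv).2]
    cases k
    · exact Or.inl rfl
    · exact Or.inr rfl
  let f : (D ⊕ (W × Bool)) × Bool → (D ⊕ (W × Bool)) × Bool := fun x =>
    match x with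
    | (Sum.inl d, c) => if d ∈ B then (if inv d = d then (Sum.inl d, !c) else (Sum.inl (inv d), c))
        else (Sum.inr (src d, decide (d ≠ g (src d) false)), c)
    | (Sum.inr (v, k), c) => (Sum.inl (g v k), c)
  have f1 : ∀ d c, d ∈ B → inv d = d → f (Sum.inl d, c) = (Sum.inl d, !c) := by
    intro d c h1 h2
    simp only [f, if_pos h1, if_pos h2]
  have f2 : ∀ d c, d ∈ B → inv d ≠ d → f (Sum.inl d, c) = (Sum.inl (inv d), c) := by
    intro d c h1 h2
    simp only [f, if_pos h1, if_neg h2]
  have f3 : ∀ d c, d ∉ B → f (Sum.inl d, c) =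
      (Sum.inr (src d, decide (d ≠ g (src d) false)), c) := by
    intro d c h1
    simp only [f, if_neg h1]
  have f4 : ∀ v k c, f (Sum.inr (v, k), c) = (Sum.inl (g v k), c) := fun v k c => rfl
  have hgd : ∀ d ∈ L, d ∉ B → g (src d) (decide (d ≠ g (src d) false)) = d := by
    intro d hd hdB
    have h1 := ((hg (src d) (hs d hd)).2 d).mp ⟨⟨hd, rfl⟩, hdB⟩
    by_cases h2 : d = g (src d) false
    · have : decide (d ≠ g (src d) false) = false := by simpa using h2
      rw [this]; exact h2.symm
    · have : decide (d ≠ g (src d) false) = true := by simpa using h2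
      rw [this]
      exact (h1.resolve_left h2).symm
  have hgk : ∀ v ∈ C, ∀ k, decide (g v k ≠ g v false) = k := by
    intro v hv k
    cases k
    · simp
    · simpa using (hg v hv).1.symm
  have hV : (facV C L).Nodup := by
    rw [facV, List.nodup_append]
    refine ⟨?_, ?_, ?_⟩
    · rw [List.nodup_flatMap]
      refine ⟨fun d _ => by simp, hL.imp fun {a b} hab => ?_⟩
      intro x hx hy
      simp only [List.mem_cons, List.not_mem_nil, or_false] at hx hy
      apply hab
      rcases hx with rfl | rfl <;> rcases hy with hy | hy <;> simp_all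
    · rw [List.nodup_flatMap]
      refine ⟨fun d _ => by simp, hC.imp fun {a b} hab => ?_⟩
      intro x hx hy
      simp only [List.mem_cons, List.not_mem_nil, or_false] at hx hy
      apply hab
      rcases hx with rfl | rfl | rfl | rfl <;> rcases hy with hy | hy | hy | hy <;> simp_all
    · intro a ha b hb hab
      simp only [List.mem_flatMap, List.mem_cons, List.not_mem_nil, or_false] at ha hb
      obtain ⟨d, -, hd⟩ := ha
      obtain ⟨v, -, hv⟩ := hb
      rcases hd with rfl | rfl <;> rcases hv with hv | hv | hv | hv <;> simp_all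
  obtain ⟨M, hM1, hM2, hM3⟩ := inv_matching (facE src inv ra rb L) f _ (facV C L) rfl hV
    (fun x hx => by
      rcases mem_facV.mp hx with ⟨d, hd, c, rfl⟩ | ⟨v, hv, k, c, rfl⟩
      · by_cases hdB : d ∈ B
        · by_cases hid : inv d = d
          · rw [f1 d c hdB hid]
            exact mem_facV.mpr (Or.inl ⟨d, hd, _, rfl⟩)
          · rw [f2 d c hdB hid]
            exact mem_facV.mpr (Or.inl ⟨inv d, hi d hd, _, rfl⟩)
        · rw [f3 d c hdB]
          exact mem_facV.mpr (Or.inr ⟨src d, hs d hd, _, _, rfl⟩)
      · rw [f4]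
        exact mem_facV.mpr (Or.inl ⟨g v k, (hgm v hv k).1.1, _, rfl⟩))
    (fun x hx => by
      rcases mem_facV.mp hx with ⟨d, hd, c, rfl⟩ | ⟨v, hv, k, c, rfl⟩
      · by_cases hdB : d ∈ B
        · by_cases hid : inv d = d
          · rw [f1 d c hdB hid, f1 d _ hdB hid, Bool.not_not]
          · have hid' : inv (inv d) ≠ inv d := by
              rw [hii d hd]; exact Ne.symm hid
            rw [f2 d c hdB hid, f2 (inv d) c ((hB1 d hd).mpr hdB) hid', hii d hd]
        · rw [f3 d c hdB, f4, hgd d hd hdB]
      · rw [f4, f3 _ _ (hgm v hv k).2, (hgm v hv k).1.2, hgk v hv k])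
    (fun x hx => by
      rcases mem_facV.mp hx with ⟨d, hd, c, rfl⟩ | ⟨v, hv, k, c, rfl⟩
      · by_cases hdB : d ∈ B
        · have hr := hB2 d hd hdB
          by_cases hid : inv d = d
          · rw [f1 d c hdB hid]
            cases c
            · exact ⟨by simp, Or.inl (facE_fix hd hr hid)⟩
            · exact ⟨by simp, Or.inr (facE_fix hd hr hid)⟩
          · rw [f2 d c hdB hid]
            refine ⟨?_, Or.inl (facE_inv hd hr hid c)⟩
            intro h
            simp only [Prod.mk.injEq, Sum.inl.injEq, and_true] at h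
            exact hid h.symm
        · rw [f3 d c hdB]
          exact ⟨by simp, Or.inl (facE_src hd (hB3 d hd hdB) _ c)⟩
      · rw [f4]
        refine ⟨by simp, Or.inr ?_⟩
        have h1 := hgm v hv k
        have h2 := facE_src (src := src) (inv := inv) (ra := ra) (rb := rb) h1.1.1 (hB3 _ h1.1.1 h1.2) k c
        rw [h1.1.2] at h2
        exact h2)
  exact ⟨M, ⟨hM1, hM2, fun x hx => (hM3 x).mp hx⟩, fun v hv => (hM3 v).mpr hv⟩

end Pool.Agent.Lib.MP_9c5086_lc
end

section

section

/-!
Signs of ports.
-/

namespace Pool.Agent.Lib.MP_9c5086_lc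

namespace Clone

variable {Col : Type} {C : Clone Col} {T F : Col}

theorem col_injective (hTF : T ≠ F) : Function.Injective (col T F) := by
  intro a b h
  cases a <;> cases b <;> simp [col] at h ⊢
  · exact hTF h.symm
  · exact hTF h

/-- Equality with arbitrary signs. -/
theorem Basic.eq2 (h : C.Basic T F) (sg : Bool → Bool) :
    C.BMem T F Bool sg (fun b => b true = b false) := by
  -- the mixed case
  have mixed : ∀ b : Bool, C.BMem T F Bool (fun i => if i then b else !b)
      (fun b => b true = b false) := by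
    intro b
    have hpp : C.mem (Unit ⊕ Unit) (Sum.elim (fun _ => true) fun _ => true)
        (fun c => ∃ x : Bool, c (Sum.inl ()) = col T F x ∧ c (Sum.inr ()) = col T F x) := by
      refine C.of_equiv (Q := Unit ⊕ Unit) (P := Bool)
        { toFun := Sum.elim (fun _ => true) (fun _ => false)
          invFun := fun b => if b then Sum.inl () else Sum.inr ()
          left_inv := by rintro (⟨⟩ | ⟨⟩) <;> rfl
          right_inv := by rintro (_ | _) <;> rfl } h.eqpp
        (by rintro (⟨⟩ | ⟨⟩) <;> rfl) fun c => ?_
      constructor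
      · rintro ⟨x, h1, h2⟩
        refine ⟨x true, h2 true, ?_⟩
        rw [h1]
        exact h2 false
      · rintro ⟨x, h1, h2⟩
        refine ⟨fun _ => x, rfl, ?_⟩
        rintro (_ | _)
        · exact h2
        · exact h1
    have hnn : C.mem (Unit ⊕ Unit) (Sum.elim (fun _ => false) fun _ => false)
        (fun c => ∃ x : Bool, c (Sum.inl ()) = col T F x ∧ c (Sum.inr ()) = col T F x) := by
      refine C.of_equiv (Q := Unit ⊕ Unit) (P := Bool)
        { toFun := Sum.elim (fun _ => true) (fun _ => false)
          invFun := fun b => if b then Sum.inl () else Sum.inr ()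
          left_inv := by rintro (⟨⟩ | ⟨⟩) <;> rfl
          right_inv := by rintro (_ | _) <;> rfl } h.eqnn
        (by rintro (⟨⟩ | ⟨⟩) <;> rfl) fun c => ?_
      constructor
      · rintro ⟨x, h1, h2⟩
        refine ⟨x true, h2 true, ?_⟩
        rw [h1]
        exact h2 false
      · rintro ⟨x, h1, h2⟩
        refine ⟨fun _ => x, rfl, ?_⟩
        rintro (_ | _)
        · exact h2
        · exact h1
    have h3 := C.comp (b := true) hpp hnn
    -- positive port `inl`, negative port `inr`
    let e : Bool ≃ Unit ⊕ Unit :=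
      { toFun := fun i => if i = b then Sum.inl () else Sum.inr ()
        invFun := Sum.elim (fun _ => b) (fun _ => !b)
        left_inv := by intro i; cases i <;> cases b <;> rfl
        right_inv := by rintro (⟨⟩ | ⟨⟩) <;> cases b <;> rfl }
    refine C.of_equiv e h3 ?_ fun c => ?_
    · intro i
      cases i <;> cases b <;> rfl
    · constructor
      · rintro ⟨z, ⟨x, h4, h5⟩, ⟨y, h6, h7⟩⟩
        have h8 : x = y := col_injective h.ne (h5.symm.trans h7)
        subst h8
        refine ⟨fun _ => x, rfl, ?_⟩
        change c b = _ at h4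
        change c (!b) = _ at h6
        intro i
        cases i <;> cases b <;> assumption
      · rintro ⟨x, h4, h5⟩
        refine ⟨col T F (x true), ⟨x true, ?_, rfl⟩, ⟨x true, ?_, rfl⟩⟩
        · change c b = _
          cases b
          · rw [h4]; exact h5 false
          · exact h5 true
        · change c (!b) = _
          cases b
          · exact h5 true
          · rw [h4]; exact h5 false
  by_cases h1 : sg false = sg true
  · cases h2 : sg true
    · have : sg = fun _ => false := funext fun i => by cases i <;> simp [h1, h2]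
      rw [this]
      exact h.eqnn
    · have : sg = fun _ => true := funext fun i => by cases i <;> simp [h1, h2]
      rw [this]
      exact h.eqpp
  · have h3 : sg = fun i => if i then sg true else !sg true := by
      funext i
      cases i
      · revert h1
        cases sg false <;> cases sg true <;> simp
      · rfl
    rw [h3]
    exact mixed (sg true)

/-- The sign of a port can be changed. -/
theorem Basic.sign (h : C.Basic T F) {P : Type} {sg : P → Bool} {R : (P → Bool) → Prop}
    (hR : C.BMem T F P sg R) (sg' : P → Bool) : C.BMem T F P sg' R := by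
  refine C.congr (C.wires (sg' := sg') (K := fun _ a z => ∃ x : Bool, a = col T F x ∧
    z = col T F x) hR fun p => ?_) fun c => ?_
  · refine C.congr (h.eq2 (fun i => if i then sg' p else !sg p)) fun c => ?_
    constructor
    · rintro ⟨x, h1, h2⟩
      refine ⟨x true, h2 true, ?_⟩
      rw [h1]
      exact h2 false
    · rintro ⟨x, h1, h2⟩
      refine ⟨fun _ => x, rfl, ?_⟩
      rintro (_ | _)
      · exact h2
      · exact h1
  · constructor
    · rintro ⟨z, ⟨b, h1, h2⟩, h3⟩
      refine ⟨b, h1, fun p => ?_⟩
      obtain ⟨x, h4, h5⟩ := h3 p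
      rw [h4, ← h5, h2]
    · rintro ⟨b, h1, h2⟩
      exact ⟨c, ⟨b, h1, h2⟩, fun p => ⟨b p, h2 p, h2 p⟩⟩

end Clone

end Pool.Agent.Lib.MP_9c5086_lc
end

section

/-!
Operations on Boolean relations.
-/

namespace Pool.Agent.Lib.MP_9c5086_lc

namespace Clone

variable {Col : Type} {C : Clone Col} {T F : Col}

theorem BMem.congr {P : Type} {sg : P → Bool} {R R' : (P → Bool) → Prop} (h : C.BMem T F P sg R)
    (hR : ∀ b, R b ↔ R' b) : C.BMem T F P sg R' := by
  refine C.congr h fun c => ?_
  simp only [hR]

/-- Renaming ports, with control over the signs and the relation. -/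
theorem BMem.of_equiv {P Q : Type} {sg : P → Bool} {sg' : Q → Bool} {R : (P → Bool) → Prop}
    {R' : (Q → Bool) → Prop} (e : Q ≃ P) (h : C.BMem T F P sg R) (hs : ∀ q, sg' q = sg (e q))
    (hR : ∀ b : Q → Bool, R (b ∘ e.symm) ↔ R' b) : C.BMem T F Q sg' R' := by
  refine C.of_equiv e h hs fun c => ?_
  constructor
  · rintro ⟨b, h1, h2⟩
    refine ⟨b ∘ e, ?_, fun q => ?_⟩
    · rw [← hR]
      convert h1 using 1
      funext p
      exact congrArg b (e.apply_symm_apply p)
    · have := h2 (e q)
      change c (e.symm (e q)) = _ at this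
      rwa [e.symm_apply_apply] at this
  · rintro ⟨b, h1, h2⟩
    exact ⟨b ∘ e.symm, (hR b).2 h1, fun p => h2 _⟩

theorem BMem.reindex {P Q : Type} {sg : P → Bool} {R : (P → Bool) → Prop} (e : Q ≃ P)
    (h : C.BMem T F P sg R) : C.BMem T F Q (sg ∘ e) (fun b => R (b ∘ e.symm)) :=
  BMem.of_equiv e h (fun _ => rfl) fun _ => Iff.rfl

theorem BMem.pi {N : Type} [Finite N] {Q : N → Type} {sg : ∀ n, Q n → Bool}
    {R : ∀ n, (Q n → Bool) → Prop} (h : ∀ n, C.BMem T F (Q n) (sg n) (R n)) :
    C.BMem T F (Σ n, Q n) (fun p => sg p.1 p.2) (fun b => ∀ n, R n (fun q => b ⟨n, q⟩)) := by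
  refine C.congr (C.pi h) fun c => ?_
  constructor
  · intro h1
    choose b hb using h1
    exact ⟨fun p => b p.1 p.2, fun n => (hb n).1, fun p => (hb p.1).2 p.2⟩
  · rintro ⟨b, h1, h2⟩ n
    exact ⟨fun q => b ⟨n, q⟩, h1 n, fun q => h2 _⟩

theorem BMem.prod {P Q : Type} {sg : P → Bool} {sg' : Q → Bool} {R : (P → Bool) → Prop}
    {R' : (Q → Bool) → Prop} (h : C.BMem T F P sg R) (h' : C.BMem T F Q sg' R') :
    C.BMem T F (P ⊕ Q) (Sum.elim sg sg') (fun b => R (b ∘ Sum.inl) ∧ R' (b ∘ Sum.inr)) := by
  refine C.congr (C.prod h h') fun c => ?_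
  constructor
  · rintro ⟨⟨b, h1, h2⟩, ⟨b', h3, h4⟩⟩
    refine ⟨Sum.elim b b', ⟨h1, h3⟩, ?_⟩
    rintro (p | q)
    · exact h2 p
    · exact h4 q
  · rintro ⟨b, ⟨h1, h2⟩, h3⟩
    exact ⟨⟨_, h1, fun p => h3 _⟩, ⟨_, h2, fun q => h3 _⟩⟩

theorem BMem.joins (hTF : T ≠ F) {P W : Type} {sg : P → Bool} (sw : W → Bool)
    {R : (P ⊕ (W ⊕ W) → Bool) → Prop}
    (h : C.BMem T F (P ⊕ (W ⊕ W)) (Sum.elim sg (Sum.elim sw fun w => !sw w)) R) :
    C.BMem T F P sg (fun b => ∃ z : W → Bool, R (Sum.elim b (Sum.elim z z))) := by
  refine C.congr (C.joins sw h) fun c => ?_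
  constructor
  · rintro ⟨z, b, h1, h2⟩
    refine ⟨fun p => b (Sum.inl p), ⟨fun w => b (Sum.inr (Sum.inl w)), ?_⟩, fun p => h2 (Sum.inl p)⟩
    convert h1 using 1
    funext p
    rcases p with p | w | w
    · rfl
    · rfl
    · have h3 := h2 (Sum.inr (Sum.inl w))
      have h4 := h2 (Sum.inr (Sum.inr w))
      exact col_injective hTF (h3.symm.trans h4)
  · rintro ⟨b, ⟨z, h1⟩, h2⟩
    refine ⟨fun w => col T F (z w), _, h1, ?_⟩
    rintro (p | w | w)
    · exact h2 p
    · rfl
    · rfl

theorem BMem.proj {P Q : Type} {sg : P → Bool} {sg' : Q → Bool} {R : (P ⊕ Q → Bool) → Prop}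
    (h : C.BMem T F (P ⊕ Q) (Sum.elim sg sg') R) :
    C.BMem T F P sg (fun b => ∃ z : Q → Bool, R (Sum.elim b z)) := by
  refine C.congr (C.proj h) fun c => ?_
  constructor
  · rintro ⟨z, b, h1, h2⟩
    refine ⟨fun p => b (Sum.inl p), ⟨fun q => b (Sum.inr q), ?_⟩, fun p => h2 (Sum.inl p)⟩
    convert h1 using 1
    funext p
    rcases p with p | q <;> rfl
  · rintro ⟨b, ⟨z, h1⟩, h2⟩
    refine ⟨fun q => col T F (z q), _, h1, ?_⟩
    rintro (p | q)
    · exact h2 p
    · rfl

theorem BMem.comp (hTF : T ≠ F) {P Q : Type} {sg : P → Bool} {sg' : Q → Bool} {b : Bool}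
    {R : (P ⊕ Unit → Bool) → Prop} {R' : (Q ⊕ Unit → Bool) → Prop}
    (h : C.BMem T F (P ⊕ Unit) (Sum.elim sg fun _ => b) R)
    (h' : C.BMem T F (Q ⊕ Unit) (Sum.elim sg' fun _ => !b) R') :
    C.BMem T F (P ⊕ Q) (Sum.elim sg sg') (fun c => ∃ z, R (Sum.elim (c ∘ Sum.inl) fun _ => z) ∧
      R' (Sum.elim (c ∘ Sum.inr) fun _ => z)) := by
  refine C.congr (C.comp h h') fun c => ?_
  constructor
  · rintro ⟨z, ⟨b, h1, h2⟩, ⟨b', h3, h4⟩⟩
    have h5 : b (Sum.inr ()) = b' (Sum.inr ()) :=
      col_injective hTF ((h2 (Sum.inr ())).symm.trans (h4 (Sum.inr ())))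
    refine ⟨Sum.elim (fun p => b (Sum.inl p)) (fun q => b' (Sum.inl q)),
      ⟨b (Sum.inr ()), ?_, ?_⟩, ?_⟩
    · convert h1 using 1
      funext p
      rcases p with p | ⟨⟩ <;> rfl
    · convert h3 using 1
      funext p
      rcases p with p | ⟨⟩
      · rfl
      · exact h5
    · rintro (p | q)
      · exact h2 (Sum.inl p)
      · exact h4 (Sum.inl q)
  · rintro ⟨b, ⟨z, h1, h2⟩, h3⟩
    refine ⟨col T F z, ⟨_, h1, ?_⟩, ⟨_, h2, ?_⟩⟩
    · rintro (p | ⟨⟩)
      · exact h3 (Sum.inl p)
      · rfl
    · rintro (p | ⟨⟩)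
      · exact h3 (Sum.inr p)
      · rfl

theorem BMem.restrict (hTF : T ≠ F) {P : Type} {sg : P → Bool} {R : (P → Bool) → Prop}
    (L : P → Set Bool) (h : C.BMem T F P sg R) :
    C.BMem T F P sg (fun b => R b ∧ ∀ p, b p ∈ L p) := by
  refine C.congr (C.restrict (fun p => col T F '' L p) h) fun c => ?_
  constructor
  · rintro ⟨⟨b, h1, h2⟩, h3⟩
    refine ⟨b, ⟨h1, fun p => ?_⟩, h2⟩
    obtain ⟨x, h4, h5⟩ := h3 p
    rw [h2 p] at h5
    rw [← col_injective hTF h5]
    exact h4
  · rintro ⟨b, ⟨h1, h2⟩, h3⟩
    exact ⟨⟨b, h1, h3⟩, fun p => ⟨b p, h2 p, (h3 p).symm⟩⟩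

theorem BMem.unit (b : Bool) (L : Set Bool) :
    C.BMem T F Unit (fun _ => b) (fun c => c () ∈ L) := by
  refine C.congr (C.restrict (fun _ => col T F '' L) (C.unit b)) fun c => ?_
  constructor
  · rintro ⟨-, h⟩
    obtain ⟨x, h1, h2⟩ := h ()
    exact ⟨fun _ => x, h1, fun _ => h2.symm⟩
  · rintro ⟨b, h1, h2⟩
    exact ⟨trivial, fun _ => ⟨b (), h1, (h2 ()).symm⟩⟩

end Clone

end Pool.Agent.Lib.MP_9c5086_lc
end

section

/-!
Equality of any number of ports.
-/

namespace Pool.Agent.Lib.MP_9c5086_lc

namespace Clone

variable {Col : Type} {C : Clone Col} {T F : Col}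

private theorem eqk_three (h : C.Basic T F) (sg : Bool ⊕ Unit → Bool) :
    C.BMem T F (Bool ⊕ Unit) sg (fun b => ∀ p q, b p = b q) := by
  obtain ⟨s3, h3⟩ := h.eq3
  let e : Bool ⊕ Unit ≃ Fin 3 :=
    { toFun := fun x => match x with
        | Sum.inl true => 0
        | Sum.inl false => 1
        | Sum.inr _ => 2
      invFun := fun i => match i with
        | 0 => Sum.inl true
        | 1 => Sum.inl false
        | 2 => Sum.inr ()
      left_inv := by
        rintro (b | u)
        · cases b <;> rfl
        · cases u; rfl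
      right_inv := by
        intro i
        fin_cases i <;> rfl }
  have h4 := Basic.sign h (BMem.reindex e h3) sg
  refine BMem.congr h4 ?_
  intro b
  have e0 : e.symm 0 = Sum.inl true := rfl
  have e1 : e.symm 1 = Sum.inl false := rfl
  have e2 : e.symm 2 = Sum.inr () := rfl
  simp only [Function.comp, e0, e1, e2]
  constructor
  · rintro ⟨a1, a2⟩ p q
    have key : ∀ p, b p = b (Sum.inr ()) := by
      rintro (x | u)
      · cases x
        · exact a2
        · exact a1.trans a2
      · cases u; rfl
    rw [key p, key q]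
  · intro hb
    exact ⟨hb _ _, hb _ _⟩

private theorem eqk_fin (h : C.Basic T F) (n : ℕ) :
    ∀ sg : Fin n ⊕ Unit → Bool, C.BMem T F (Fin n ⊕ Unit) sg (fun b => ∀ p q, b p = b q) := by
  induction n with
  | zero =>
    intro sg
    let e : Fin 0 ⊕ Unit ≃ Unit := Equiv.emptySum (Fin 0) Unit
    have h1 := Basic.sign h (BMem.reindex e (BMem.unit (C := C) (T := T) (F := F) true Set.univ)) sg
    refine BMem.congr h1 ?_
    intro b
    constructor
    · intro _ p q
      have : p = q := by
        apply e.injective
        exact Subsingleton.elim _ _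
      rw [this]
    · intro _
      trivial
  | succ n ih =>
    intro sg
    have hA := ih (Sum.elim (fun _ => true) fun _ => true)
    have hB := eqk_three h (Sum.elim (fun _ => true) fun _ => !true)
    have hc := BMem.comp (C := C) h.ne hA hB
    let e : Fin (n + 1) ⊕ Unit ≃ Fin n ⊕ Bool :=
      { toFun := fun x => match x with
          | Sum.inl i => if hi : (i : ℕ) < n then Sum.inl ⟨i, hi⟩ else Sum.inr true
          | Sum.inr _ => Sum.inr false
        invFun := fun y => match y with
          | Sum.inl i => Sum.inl ⟨i, by omega⟩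
          | Sum.inr true => Sum.inl ⟨n, by omega⟩
          | Sum.inr false => Sum.inr ()
        left_inv := by
          rintro (i | u)
          · by_cases hi : (i : ℕ) < n
            · simp [hi]
            · have : (i : ℕ) = n := by omega
              simp only [hi, dite_false]
              congr 1
              exact Fin.ext this.symm
          · rfl
        right_inv := by
          rintro (i | b)
          · simp
          · cases b <;> simp }
    have h2 := Basic.sign h (BMem.reindex e hc) sg
    refine BMem.congr h2 ?_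
    intro b
    constructor
    · rintro ⟨z, h5, h6⟩ p q
      have key : ∀ y, b (e.symm y) = z := by
        rintro (i | x)
        · exact h5 (Sum.inl i) (Sum.inr ())
        · exact h6 (Sum.inl x) (Sum.inr ())
      have k1 := key (e p)
      have k2 := key (e q)
      rw [Equiv.symm_apply_apply] at k1 k2
      rw [k1, k2]
    · intro hb
      refine ⟨b (Sum.inr ()), ?_, ?_⟩
      · have key : ∀ p : Fin n ⊕ Unit, (Sum.elim ((b ∘ e.symm) ∘ Sum.inl) fun _ => b (Sum.inr ())) p
            = b (Sum.inr ()) := by
          rintro (i | u)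
          · exact hb _ _
          · rfl
        intro p q
        rw [key p, key q]
      · have key : ∀ p : Bool ⊕ Unit, (Sum.elim ((b ∘ e.symm) ∘ Sum.inr) fun _ => b (Sum.inr ())) p
            = b (Sum.inr ()) := by
          rintro (i | u)
          · exact hb _ _
          · rfl
        intro p q
        rw [key p, key q]

/-- Equality of any number of ports. -/
theorem Basic.eqk (h : C.Basic T F) (P : Type) [Finite P] (sg : P → Bool) :
    C.BMem T F P sg (fun b => ∀ p q, b p = b q) := by
  classical
  rcases isEmpty_or_nonempty P with hP | hP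
  · let e : P ≃ Empty := Equiv.equivOfIsEmpty P Empty
    have h0 : C.BMem T F Empty (fun _ => true) (fun _ => True) := by
      refine C.congr (C.empty (fun _ => true)) ?_
      intro c
      constructor
      · intro _
        exact ⟨fun _ => true, trivial, fun p => p.elim⟩
      · intro _; trivial
    have h1 := Basic.sign h (BMem.reindex e h0) sg
    refine BMem.congr h1 ?_
    intro b
    constructor
    · intro _ p
      exact hP.elim p
    · intro _; trivial
  · have : Fintype P := Fintype.ofFinite P
    obtain ⟨n, hn⟩ : ∃ n, Fintype.card P = n + 1 := by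
      have := Fintype.card_pos (α := P)
      exact ⟨Fintype.card P - 1, by omega⟩
    let e : P ≃ Fin n ⊕ Unit := Fintype.equivOfCardEq (by simp [hn])
    have h1 := Basic.sign h (BMem.reindex e (eqk_fin h n (fun _ => true))) sg
    refine BMem.congr h1 ?_
    intro b
    constructor
    · intro hb p q
      have := hb (e p) (e q)
      simpa using this
    · intro hb p q
      exact hb _ _

end Clone

end Pool.Agent.Lib.MP_9c5086_lc
end

section

/-!
Sums of any number of ports.
-/

namespace Pool.Agent.Lib.MP_9c5086_lc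

namespace Clone

variable {Col : Type} {C : Clone Col} {T F : Col}

private def e3 : (Bool ⊕ Unit) ≃ Fin 3 where
  toFun x := Sum.elim (fun b => if b then 0 else 1) (fun _ => 2) x
  invFun := ![Sum.inl true, Sum.inl false, Sum.inr ()]
  left_inv := by decide
  right_inv := by decide

private def e2 : (Unit ⊕ Unit) ≃ Bool where
  toFun x := Sum.elim (fun _ => true) (fun _ => false) x
  invFun b := if b then Sum.inl () else Sum.inr ()
  left_inv := by decide
  right_inv := by decide

private def eO (α : Type) : (Option α ⊕ Unit) ≃ (α ⊕ Bool) where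
  toFun x := match x with
    | Sum.inl none => Sum.inr true
    | Sum.inl (some a) => Sum.inl a
    | Sum.inr _ => Sum.inr false
  invFun x := match x with
    | Sum.inl a => Sum.inl (some a)
    | Sum.inr true => Sum.inl none
    | Sum.inr false => Sum.inr ()
  left_inv := by rintro ((_ | a) | ⟨⟩) <;> rfl
  right_inv := by rintro (a | (_ | _)) <;> rfl

private theorem sum2 (h : C.Basic T F) (sg : Bool ⊕ Unit → Bool) :
    C.BMem T F (Bool ⊕ Unit) sg (fun b => (b (Sum.inr ())).toNat + (b (Sum.inl true)).toNat =
      (b (Sum.inl false)).toNat) := by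
  obtain ⟨s1, hnot⟩ := h.not
  obtain ⟨s3, hone⟩ := h.one3
  have h3 := h.sign (hone.reindex e3) (Sum.elim (fun _ => true) fun _ => true)
  have h2 := h.sign (hnot.reindex e2) (Sum.elim (fun _ => true) fun _ => !true)
  have h4 := BMem.comp h.ne h3 h2
  have h5 := h4.reindex (Equiv.swap (Sum.inl false) (Sum.inr ()))
  refine h.sign (h5.congr ?_) sg
  decide

private theorem ncard_option {α : Type} [Finite α] (f : Option α → Bool) :
    {p | f p = true}.ncard = {a | f (some a) = true}.ncard + (f none).toNat := by
  classical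
  have h1 : {p | f p = true} = (some '' {a | f (some a) = true}) ∪
      (if f none = true then {none} else ∅) := by
    ext p
    rcases p with _ | a
    · by_cases h : f none = true <;> simp [h]
    · by_cases h : f none = true <;> simp [h]
  have h2 : (some '' {a | f (some a) = true}).ncard = {a | f (some a) = true}.ncard :=
    Set.ncard_image_of_injective _ (Option.some_injective α)
  rw [h1]
  by_cases h : f none = true
  · rw [if_pos h, Set.ncard_union_eq (by simp) (Set.toFinite _) (Set.toFinite _), h2, h]
    simp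
  · rw [if_neg h, Set.union_empty, h2]
    simp [h]

/-- The output `z` is the sum of the inputs: no input is true and `z` is false, or exactly one
input is true and `z` is true. -/
theorem Basic.sumk (h : C.Basic T F) (P : Type) [Finite P] (sg : P ⊕ Unit → Bool) :
    C.BMem T F (P ⊕ Unit) sg (fun b => {p | b (Sum.inl p) = true}.ncard =
      (b (Sum.inr ())).toNat) := by
  have key : ∀ sg : P ⊕ Unit → Bool, C.BMem T F (P ⊕ Unit) sg
      (fun b => {p | b (Sum.inl p) = true}.ncard = (b (Sum.inr ())).toNat) := by
    refine Finite.induction_empty_option (P := fun P : Type => ∀ sg : P ⊕ Unit → Bool,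
      C.BMem T F (P ⊕ Unit) sg
        (fun b => {p | b (Sum.inl p) = true}.ncard = (b (Sum.inr ())).toNat)) ?_ ?_ ?_ P
    · intro α β e hα sg
      refine h.sign (((hα (fun _ => true)).reindex
        (Equiv.sumCongr e.symm (Equiv.refl Unit))).congr ?_) sg
      intro b
      have h1 : {p : β | b (Sum.inl p) = true} = e '' {a : α | b (Sum.inl (e a)) = true} := by
        ext p
        constructor
        · intro hp
          exact ⟨e.symm p, by simpa using hp, by simp⟩
        · rintro ⟨a, ha, rfl⟩
          exact ha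
      have h2 : {p : β | b (Sum.inl p) = true}.ncard = {a : α | b (Sum.inl (e a)) = true}.ncard := by
        rw [h1, Set.ncard_image_of_injective _ e.injective]
      rw [h2]
      exact Iff.rfl
    · intro sg
      refine h.sign (((BMem.unit true {false}).reindex (Equiv.emptySum PEmpty Unit)).congr ?_) sg
      intro b
      have h1 : {p : PEmpty | b (Sum.inl p) = true}.ncard = 0 := by
        rw [Set.ncard_eq_zero (Set.toFinite _)]
        ext p
        exact p.elim
      rw [h1]
      show b (Sum.inr ()) = false ↔ _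
      cases b (Sum.inr ()) <;> simp
    · intro α _ hα sg
      have h1 := hα (Sum.elim (fun _ => true) fun _ => true)
      have h2 := sum2 h (Sum.elim (fun _ => true) fun _ => !true)
      have h3 := (BMem.comp h.ne h1 h2).reindex (eO α)
      refine h.sign (h3.congr ?_) sg
      intro b
      rw [ncard_option (fun p => b (Sum.inl p))]
      show (∃ z : Bool, {p : α | b (Sum.inl (some p)) = true}.ncard = z.toNat ∧
        z.toNat + (b (Sum.inl none)).toNat = (b (Sum.inr ())).toNat) ↔ _
      constructor
      · rintro ⟨z, hz1, hz2⟩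
        rw [hz1, hz2]
      · intro hb
        have h4 : {p : α | b (Sum.inl (some p)) = true}.ncard ≤ 1 := by
          have := Bool.toNat_le (b (Sum.inr ()))
          omega
        interval_cases h5 : {p : α | b (Sum.inl (some p)) = true}.ncard
        · exact ⟨false, rfl, by simpa using hb⟩
        · exact ⟨true, rfl, by simpa using hb⟩
  exact key sg

end Clone

end Pool.Agent.Lib.MP_9c5086_lc
end

section

/-!
All Boolean relations.
-/

namespace Pool.Agent.Lib.MP_9c5086_lc

namespace Clone

variable {Col : Type} {C : Clone Col} {T F : Col}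

private def eB {P : Type} (r : P → Bool) :
    Option P ≃ (Option {p // r p = true} ⊕ (Σ _ : {p // r p = false}, Unit)) where
  toFun o := match o with
    | none => Sum.inl none
    | some p => if h : r p = true then Sum.inl (some ⟨p, h⟩)
        else Sum.inr ⟨⟨p, by simpa using h⟩, ()⟩
  invFun x := match x with
    | Sum.inl none => none
    | Sum.inl (some p) => some p.1
    | Sum.inr p => some p.1.1
  left_inv := by
    rintro (_ | p)
    · rfl
    · by_cases h : r p = true
      · simp [h]
      · simp [h]
  right_inv := by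
    rintro ((_ | ⟨p, h⟩) | ⟨⟨p, h⟩, ⟨⟩⟩)
    · rfl
    · simp [h]
    · simp [h]

/-- The relation `b (some p) = (b none && r p)`. -/
private theorem Basic.sel (h : C.Basic T F) {P : Type} [Finite P] (r : P → Bool) :
    C.BMem T F (Option P) (fun _ => true) (fun b => ∀ p, b (some p) = (b none && r p)) := by
  have h1 := h.eqk (Option {p // r p = true}) (fun _ => true)
  have h2 := BMem.pi (C := C) (T := T) (F := F) (N := {p // r p = false}) (Q := fun _ => Unit)
    (sg := fun _ _ => true) (R := fun _ c => c () ∈ ({false} : Set Bool))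
    (fun _ => BMem.unit true {false})
  have h3 := (BMem.prod h1 h2).reindex (eB r)
  refine h.sign (h3.congr ?_) _
  intro b
  constructor
  · rintro ⟨h4, h5⟩ p
    by_cases hp : r p = true
    · have h6 := h4 (some ⟨p, hp⟩) none
      have h7 : b (some p) = b none := h6
      rw [h7, hp, Bool.and_true]
    · have hp' : r p = false := by simpa using hp
      have h6 := h5 ⟨p, hp'⟩
      have h7 : b (some p) = false := h6
      rw [h7, hp', Bool.and_false]
  · intro h4
    have h5 : ∀ o : Option {p // r p = true}, b ((eB r).symm (Sum.inl o)) = b none := by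
      rintro (_ | ⟨p, hp⟩)
      · rfl
      · show b (some p) = b none
        rw [h4 p, hp, Bool.and_true]
    refine ⟨fun o o' => ?_, fun p => ?_⟩
    · show b ((eB r).symm (Sum.inl o)) = b ((eB r).symm (Sum.inl o'))
      rw [h5, h5]
    · show b (some p.1) = false
      rw [h4 p.1, p.2, Bool.and_false]

private def eAll (P N : Type) : (P ⊕ ((N × Option P) ⊕ (N × Option P))) ≃
    ((Σ _ : N, Option P) ⊕ ((Σ _ : P, (N ⊕ Unit)) ⊕ N)) where
  toFun x := match x with
    | Sum.inl p => Sum.inr (Sum.inl ⟨p, Sum.inr ()⟩)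
    | Sum.inr (Sum.inl w) => Sum.inl ⟨w.1, w.2⟩
    | Sum.inr (Sum.inr (r, none)) => Sum.inr (Sum.inr r)
    | Sum.inr (Sum.inr (r, some p)) => Sum.inr (Sum.inl ⟨p, Sum.inl r⟩)
  invFun x := match x with
    | Sum.inl w => Sum.inr (Sum.inl (w.1, w.2))
    | Sum.inr (Sum.inl ⟨p, Sum.inr _⟩) => Sum.inl p
    | Sum.inr (Sum.inl ⟨p, Sum.inl r⟩) => Sum.inr (Sum.inr (r, some p))
    | Sum.inr (Sum.inr r) => Sum.inr (Sum.inr (r, none))
  left_inv := by rintro (p | ⟨r, o⟩ | ⟨r, _ | p⟩) <;> rfl
  right_inv := by rintro (⟨r, o⟩ | ⟨p, r | ⟨⟩⟩ | r) <;> rfl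

/-- Every Boolean relation is obtained. -/
theorem Basic.all (h : C.Basic T F) (P : Type) [Finite P] (sg : P → Bool)
    (R : (P → Bool) → Prop) : C.BMem T F P sg R := by
  classical
  let N := {r : P → Bool // R r}
  have h1 : C.BMem T F (Σ _ : N, Option P) (fun _ => true)
      (fun b => ∀ (r : N) p, b ⟨r, some p⟩ = (b ⟨r, none⟩ && r.1 p)) :=
    BMem.pi (Q := fun _ : N => Option P) (sg := fun _ _ => true)
      (R := fun (r : N) (b : Option P → Bool) => ∀ p, b (some p) = (b none && r.1 p))
      (fun r => h.sel r.1)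
  have h2 : C.BMem T F (Σ _ : P, (N ⊕ Unit)) (fun _ => true)
      (fun b => ∀ p : P, {r : N | b ⟨p, Sum.inl r⟩ = true}.ncard = (b ⟨p, Sum.inr ()⟩).toNat) :=
    BMem.pi (Q := fun _ : P => (N ⊕ Unit)) (sg := fun _ _ => true)
      (R := fun _ (b : (N ⊕ Unit) → Bool) =>
        {r : N | b (Sum.inl r) = true}.ncard = (b (Sum.inr ())).toNat)
      (fun _ => h.sumk N _)
  have h3 : C.BMem T F N (fun _ => true) (fun b => {r : N | b r = true}.ncard = 1) := by
    have h4 := (h.sumk N (Sum.elim (fun _ => true) fun _ => true)).restrict h.ne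
      (Sum.elim (fun _ => Set.univ) fun _ => {true})
    refine (BMem.proj h4).congr ?_
    intro b
    constructor
    · rintro ⟨z, hz1, hz2⟩
      have hz3 : z () = true := hz2 (Sum.inr ())
      have hz4 : {r : N | b r = true}.ncard = (z ()).toNat := hz1
      rw [hz4, hz3]
      rfl
    · intro hb
      refine ⟨fun _ => true, ?_, ?_⟩
      · show {r : N | b r = true}.ncard = 1
        exact hb
      · rintro (r | ⟨⟩)
        · exact Set.mem_univ _
        · exact rfl
  have h4 := (BMem.prod h1 (BMem.prod h2 h3)).reindex (eAll P N)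
  have h5 := h.sign h4 (Sum.elim sg (Sum.elim (fun _ => true) fun _ => !true))
  have h6 := BMem.joins h.ne (W := N × Option P) (fun _ => true) h5
  refine h6.congr ?_
  intro b
  constructor
  · rintro ⟨z, hz1, hz2, hz3⟩
    have g1 : ∀ (r : N) p, z (r, some p) = (z (r, none) && r.1 p) := hz1
    have g2 : ∀ p : P, {r : N | z (r, some p) = true}.ncard = (b p).toNat := hz2
    have g3 : {r : N | z (r, none) = true}.ncard = 1 := hz3
    obtain ⟨r0, hr0⟩ := Set.ncard_eq_one.mp g3
    have hz0 : ∀ r : N, z (r, none) = true ↔ r = r0 := by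
      intro r
      have : r ∈ {r : N | z (r, none) = true} ↔ r ∈ ({r0} : Set N) := by rw [hr0]
      exact this
    have hb : b = r0.1 := by
      funext p
      have h7 := g2 p
      by_cases hp : r0.1 p = true
      · have h8 : {r : N | z (r, some p) = true} = {r0} := by
          ext r
          show z (r, some p) = true ↔ r = r0
          rw [g1, Bool.and_eq_true, hz0]
          constructor
          · exact fun h => h.1
          · rintro rfl
            exact ⟨rfl, hp⟩
        rw [h8, Set.ncard_singleton] at h7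
        rw [hp]
        cases hbp : b p with
        | true => rfl
        | false => rw [hbp] at h7; exact absurd h7 (by decide)
      · have hp' : r0.1 p = false := by simpa using hp
        have h8 : {r : N | z (r, some p) = true} = ∅ := by
          ext r
          show z (r, some p) = true ↔ False
          rw [g1, Bool.and_eq_true, hz0, iff_false]
          rintro ⟨rfl, h9⟩
          exact hp h9
        rw [h8, Set.ncard_empty] at h7
        rw [hp']
        cases hbp : b p with
        | true => rw [hbp] at h7; exact absurd h7 (by decide)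
        | false => rfl
    rw [hb]
    exact r0.2
  · intro hb
    let r0 : N := ⟨b, hb⟩
    refine ⟨fun w => match w with
      | (r, none) => decide (r = r0)
      | (r, some p) => decide (r = r0) && r.1 p, ?_, ?_, ?_⟩
    · intro r p
      rfl
    · intro p
      show {r : N | (decide (r = r0) && r.1 p) = true}.ncard = (b p).toNat
      by_cases hp : b p = true
      · have h8 : {r : N | (decide (r = r0) && r.1 p) = true} = {r0} := by
          ext r
          show (decide (r = r0) && r.1 p) = true ↔ r = r0
          rw [Bool.and_eq_true, decide_eq_true_iff]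
          constructor
          · exact fun h => h.1
          · rintro rfl
            exact ⟨rfl, hp⟩
        rw [h8, Set.ncard_singleton, hp]
        rfl
      · have hp' : b p = false := by simpa using hp
        have h8 : {r : N | (decide (r = r0) && r.1 p) = true} = ∅ := by
          ext r
          show (decide (r = r0) && r.1 p) = true ↔ False
          rw [Bool.and_eq_true, decide_eq_true_iff, iff_false]
          rintro ⟨rfl, h9⟩
          exact hp h9
        rw [h8, Set.ncard_empty, hp']
        rfl
    · show {r : N | decide (r = r0) = true}.ncard = 1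
      have h8 : {r : N | decide (r = r0) = true} = {r0} := by
        ext r
        show decide (r = r0) = true ↔ r = r0
        rw [decide_eq_true_iff]
      rw [h8, Set.ncard_singleton]

end Clone

end Pool.Agent.Lib.MP_9c5086_lc
end
end
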