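import Pool.Agent.Lib.MP_9c5086_lc.BPhi
import Pool.Agent.Lib.MP_9c5086_lc.PMSplit
import Pool.Agent.Lib.MP_9c5086_lc.CGadDefs
import Pool.Agent.Lib.MP_9c5086_lc.PMForest
import Pool.Agent.Lib.MP_9c5086_lc.CloneAll

section

/-!
The nodes above a tuple of vertices.
-/

namespace Pool.Agent.Lib.MP_9c5086_lc

namespace Graph

variable {V E I : Type} {H : Graph V E} {t : V → I}

namespace Thin

variable {Θ : Thin H t} {K : Type} [Fintype K]

/-- The sources of a node. -/
def Node.srcs (a : Node Θ K) : K → V := fun k => (a.d k).src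

/-- The targets of a node. -/
def Node.tgts (a : Node Θ K) : K → V := fun k => (a.d k).tgt

theorem Node.srcs_inv (a : Node Θ K) : a.inv.srcs = a.tgts := by
  funext k
  simp [Node.srcs, Node.tgts, Node.inv]

theorem Node.srcs_ta (a : Node Θ K) : a.ta.srcs = a.srcs := by
  funext k
  exact Θ.tau_src _ (a.mem k)

private theorem bl_fin3 : ∀ σ : Fin 3 → Fin 3, (∀ x y, σ x = σ y → x = y) → (∀ k, σ k ≠ k) →
    ∀ k0 k1, k0 = k1 ∨ k0 = σ k1 ∨ k0 = σ (σ k1) := by
  decide

private theorem bl_fin3' : ∀ σ : Fin 3 → Fin 3, (∀ k, σ (σ k) = k) → ∃ k, σ k = k := by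
  decide

private theorem bl_three (h : Fintype.card K = 3) (σ : K → K) (hi : Function.Injective σ)
    (hne : ∀ k, σ k ≠ k) (k0 k1 : K) : k0 = k1 ∨ k0 = σ k1 ∨ k0 = σ (σ k1) := by
  have e := Fintype.equivFinOfCardEq h
  have h1 := bl_fin3 (fun x => e (σ (e.symm x)))
    (fun x y hxy => e.symm.injective (hi (e.injective hxy)))
    (fun k hk => hne (e.symm k) (e.eq_symm_apply.2 hk)) (e k0) (e k1)
  simpa using h1

private theorem bl_three' (h : Fintype.card K = 3) (σ : K → K) (hi : ∀ k, σ (σ k) = k) :
    ∃ k, σ k = k := by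
  have e := Fintype.equivFinOfCardEq h
  obtain ⟨k, hk⟩ := bl_fin3' (fun x => e (σ (e.symm x))) (fun k => by simp [hi])
  exact ⟨e.symm k, e.eq_symm_apply.2 hk⟩

/-- a tuple which is not excluded is a node with the required properties -/
private theorem bl_mk [Nonempty K] (a : Node Θ K) (ha : Function.Injective a.srcs) (d : H.Dart)
    (k₀ : K) (hs : t d.src = t (a.d k₀).src) (c : K → H.Dart) (hc : ∀ k, c k ∈ Θ.sel)
    (hcs : ∀ k, (c k).src = (a.d k).src) (hct : ∀ k, t (c k).tgt = t d.tgt)
    (hn : ¬ (Fintype.card K = 3 ∧ ∀ k, ∃ k', k' ≠ k ∧ Θ.phi (c k) = c k')) :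
    ∃ b : Node Θ K, b.srcs = a.srcs ∧ (∀ k, t (b.d k).tgt = t d.tgt) ∧
      (Θ.dbl (t d.src) (t d.tgt) → b.ta ≠ b) := by
  refine ⟨⟨c, hc, ?_, ?_, ?_, hn⟩, ?_, hct, ?_⟩
  · intro k k' h
    apply ha
    show (a.d k).src = (a.d k').src
    rw [← hcs, ← hcs, h]
  · intro k k'
    rw [hcs, hcs]
    exact a.src_ty k k'
  · intro k k'
    rw [hct, hct]
  · funext k
    exact hcs k
  · intro hd h
    have h1 : Θ.tau (c k₀) = c k₀ := congrFun (congrArg Node.d h) k₀
    refine (Θ.tau_ne (c k₀) (hc k₀)).2 ?_ h1
    rw [hcs, hct, ← hs]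
    exact hd

/-- Above different vertices there are nodes of every selected class, and at least two if the
class is double. -/
theorem exists_above [Nonempty K] (hK : Fintype.card K ≤ 3) (a : Node Θ K)
    (ha : Function.Injective a.srcs) (d : H.Dart) (hd : d ∈ Θ.sel) (k₀ : K)
    (hs : t d.src = t (a.d k₀).src) :
    ∃ b : Node Θ K, b.srcs = a.srcs ∧ (∀ k, t (b.d k).tgt = t d.tgt) ∧
      (Θ.dbl (t d.src) (t d.tgt) → b.ta ≠ b) := by
  classical
  have _ := hK
  have hty : ∀ k, t (a.d k).src = t d.src := fun k => by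
    rw [hs]
    exact a.src_ty k k₀
  choose c hc hcs hct using fun k => Θ.ex d hd (a.d k).src (hty k)
  have hinj : Function.Injective fun k => (c k).src := by
    intro k k' h
    apply ha
    show (a.d k).src = (a.d k').src
    rw [← hcs, ← hcs]
    exact h
  by_cases hn : Fintype.card K = 3 ∧ ∀ k, ∃ k', k' ≠ k ∧ Θ.phi (c k) = c k'
  swap
  · exact bl_mk a ha d k₀ hs c hc hcs hct hn
  obtain ⟨h3, hn⟩ := hn
  choose σ hσ1 hσ2 using hn
  by_cases hdb : Θ.dbl (t d.src) (t d.tgt)
  swap
  · -- the class is not double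
    exfalso
    have hst : t d.tgt = t d.src := by
      have h1 := Θ.src_phi (hc k₀)
      rw [hσ2, hcs] at h1
      rw [← hct k₀, ← h1]
      exact hty _
    have hinv : ∀ k, (c k).inv = c (σ k) := by
      intro k
      rw [← hσ2]
      refine ((Θ.tau_eq_iff (Θ.inv_mem _ (hc k))).2 ?_).symm
      rw [Dart.src_inv, Dart.tgt_inv, hct, hcs, hty, hst]
      rw [hst] at hdb
      exact hdb
    obtain ⟨k, hk⟩ := bl_three' h3 σ fun k => by
      apply hinj
      show (c (σ (σ k))).src = (c k).src
      rw [← hinv, ← hinv, Dart.inv_inv]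
    exact hσ1 k hk
  · -- the class is double
    have hne : ∀ k, Θ.tau (c k) ≠ c k := by
      intro k
      rw [Θ.tau_ne (c k) (hc k), hcs, hct, hty]
      exact hdb
    have hc' : ∀ k, Function.update c k₀ (Θ.tau (c k₀)) k ∈ Θ.sel := by
      intro k
      by_cases hk : k = k₀
      · subst hk
        rw [Function.update_self]
        exact Θ.tau_mem _ (hc k)
      · rw [Function.update_of_ne hk]
        exact hc k
    have hcs' : ∀ k, (Function.update c k₀ (Θ.tau (c k₀)) k).src = (a.d k).src := by
      intro k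
      by_cases hk : k = k₀
      · subst hk
        rw [Function.update_self, Θ.tau_src _ (hc k)]
        exact hcs k
      · rw [Function.update_of_ne hk]
        exact hcs k
    have hct' : ∀ k, t (Function.update c k₀ (Θ.tau (c k₀)) k).tgt = t d.tgt := by
      intro k
      by_cases hk : k = k₀
      · subst hk
        rw [Function.update_self, Θ.tau_ty _ (hc k)]
        exact hct k
      · rw [Function.update_of_ne hk]
        exact hct k
    refine bl_mk a ha d k₀ hs _ hc' hcs' hct' ?_
    rintro ⟨-, hn'⟩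
    choose σ' hσ1' hσ2' using hn'
    have hσ'i : Function.Injective σ' := by
      intro k k' h
      have h1 : Θ.phi (Function.update c k₀ (Θ.tau (c k₀)) k) =
          Θ.phi (Function.update c k₀ (Θ.tau (c k₀)) k') := by rw [hσ2', hσ2', h]
      have h2 := Θ.phi_inj (hc' k) (hc' k') h1
      apply ha
      show (a.d k).src = (a.d k').src
      rw [← hcs', ← hcs', h2]
    obtain ⟨k1, hk1⟩ := Fintype.exists_ne_of_one_lt_card (by omega) k₀
    have hu : Function.update c k₀ (Θ.tau (c k₀)) k1 = c k1 := Function.update_of_ne hk1 _ _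
    have hmem : ∃ k, Θ.tau (c k₀) = c k := by
      have hself : Function.update c k₀ (Θ.tau (c k₀)) k₀ = Θ.tau (c k₀) :=
        Function.update_self _ _ _
      rcases bl_three h3 σ' hσ'i hσ1' k₀ k1 with h | h | h
      · exact absurd h.symm hk1
      · refine ⟨σ k1, ?_⟩
        rw [← hself, ← hσ2, ← hu, hσ2', ← h]
      · refine ⟨σ (σ k1), ?_⟩
        rw [← hself, ← hσ2, ← hσ2, ← hu, hσ2', hσ2', ← h]
    obtain ⟨k, hk⟩ := hmem
    have h1 : (c k).src = (c k₀).src := by rw [← hk, Θ.tau_src _ (hc k₀)]
    have h2 : k = k₀ := hinj h1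
    rw [h2] at hk
    exact hne k₀ hk

/-- Above different vertices there is only one node of a class which is not double. -/
theorem unique_above (a b : Node Θ K) (hab : b.srcs = a.srcs)
    (hty : ∀ k, t (b.d k).tgt = t (a.d k).tgt) (hn : ∀ k, ¬ Θ.dbl (t (a.d k).src) (t (a.d k).tgt)) :
    b = a := by
  refine Node.ext fun k => ?_
  rcases Θ.only (a.d k) (a.mem k) (b.d k) (b.mem k) (congrFun hab k) (hty k) with h | h
  · exact h
  · rw [h]
    exact (Θ.tau_eq_iff (a.mem k)).2 (hn k)

/-- Above vertices which are not different there are only nodes of double classes. -/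
theorem dbl_of_not_injective (a : Node Θ K) (ha : ¬ Function.Injective a.srcs) (k : K) :
    Θ.dbl (t (a.d k).src) (t (a.d k).tgt) := by
  rw [Function.not_injective_iff] at ha
  obtain ⟨k1, k2, h12, hne⟩ := ha
  have h12' : (a.d k2).src = (a.d k1).src := h12.symm
  have key : Θ.dbl (t (a.d k1).src) (t (a.d k1).tgt) := by
    rw [← Θ.tau_ne (a.d k1) (a.mem k1)]
    rcases Θ.only (a.d k1) (a.mem k1) (a.d k2) (a.mem k2) h12' (a.tgt_ty k2 k1) with h | h
    · exact absurd (a.inj h).symm hne
    · intro h1
      rw [h1] at h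
      exact hne (a.inj h).symm
  rw [a.src_ty k k1, a.tgt_ty k k1]
  exact key

end Thin

end Graph

end Pool.Agent.Lib.MP_9c5086_lc
end

section

/-!
Flags, local bijections and the greatest consistent relation.
-/

namespace Pool.Agent.Lib.MP_9c5086_lc

namespace Graph

variable {W D V E : Type} [DecidableEq V] {H : Graph V E} {G : LG W D V E}

theorem other_fl (d : H.Dart) : H.other d.fl = d.tgt := by
  obtain ⟨⟨e, k⟩, hd⟩ := d
  cases k
  · simp [Dart.fl, other, Dart.edge, Dart.src, Dart.tgt]
  · simp only [Dart.fl, other, Dart.edge, Dart.src, Dart.tgt, if_true]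
    split_ifs with h
    · exact h.symm
    · rfl

theorem opp_fl (d : H.Dart) : H.opp d.fl = d.inv.fl := by
  unfold opp
  rw [other_fl]
  simp [Dart.fl]

theorem opp_opp_fl (d : H.Dart) : H.opp (H.opp d.fl) = d.fl := by
  rw [opp_fl, opp_fl, Dart.inv_inv]

/-- The darts with a given flag at its source are the darts of its edge with this source. -/
theorem mult_eq_inc (φ : E × V) : H.mult φ = H.inc φ.1 φ.2 := by
  unfold mult inc
  congr 1
  ext d
  simp [Dart.fl, Prod.ext_iff]

theorem mult_pos_iff [Finite E] (φ : E × V) : 0 < H.mult φ ↔ ∃ d : H.Dart, d.fl = φ := by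
  unfold mult
  rw [Set.ncard_pos (Set.toFinite _)]
  exact Iff.rfl

theorem fl_facts {d d' : H.Dart} (h : d.fl = d'.fl) :
    d.src = d'.src ∧ d.tgt = d'.tgt ∧ d.edge = d'.edge ∧ d.inv.fl = d'.inv.fl := by
  have h1 : d.edge = d'.edge ∧ d.src = d'.src := by
    simpa [Dart.fl, Prod.ext_iff] using h
  refine ⟨h1.2, ?_, h1.1, ?_⟩
  · rw [← other_fl, ← other_fl, h]
  · rw [← opp_fl, ← opp_fl, h]

private theorem star_finite (G : LG W D V E) (u : W) : (G.star u).Finite :=
  (List.finite_toSet G.Ds).subset fun _ hd => hd.1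

/-- Local bijections to the darts at `x`. -/
theorem StarOk.exists_bij [Finite E] [Finite V] {R : D → E × V → Prop} {u : W} {x : V}
    {ψ : D → E × V} (h : H.StarOk G R u x ψ) :
    ∃ β : D → H.Dart, Set.BijOn β (G.star u) {e | e.src = x} ∧ ∀ d ∈ G.star u, (β d).fl = ψ d := by
  classical
  rcases isEmpty_or_nonempty D with hD | ⟨⟨d0⟩⟩
  · refine ⟨fun d => hD.elim d, ⟨fun d => hD.elim d, fun d => hD.elim d, ?_⟩, fun d => hD.elim d⟩
    intro e he
    exfalso
    have h1 := h.count e.fl he
    have h2 : 0 < H.mult e.fl := (mult_pos_iff _).2 ⟨e, rfl⟩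
    rw [← h1, Set.ncard_pos ((star_finite G u).subset fun _ hd => hd.1)] at h2
    obtain ⟨d, -⟩ := h2
    exact hD.elim d
  · haveI : Nonempty H.Dart := ⟨⟨((ψ d0).1, false), fun h => by simp at h⟩⟩
    have key : ∀ φ : E × V, ∃ f : D → H.Dart, φ.2 = x →
        Set.BijOn f {d | d ∈ G.star u ∧ ψ d = φ} {e | e.fl = φ} := by
      intro φ
      by_cases hφ : φ.2 = x
      · have hfin : {d | d ∈ G.star u ∧ ψ d = φ}.Finite :=
          (star_finite G u).subset fun _ hd => hd.1
        have hfin' : {e : H.Dart | e.fl = φ}.Finite := Set.toFinite _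
        have hc := h.count φ hφ
        unfold mult at hc
        have he : {d | d ∈ G.star u ∧ ψ d = φ}.encard = {e : H.Dart | e.fl = φ}.encard := by
          rw [← hfin.cast_ncard_eq, ← hfin'.cast_ncard_eq, hc]
        obtain ⟨f, hf⟩ := hfin.exists_bijOn_of_encard_eq he
        exact ⟨f, fun _ => hf⟩
      · exact ⟨fun _ => Classical.arbitrary _, fun h => absurd h hφ⟩
    choose f hf using key
    have hfl : ∀ d ∈ G.star u, (f (ψ d) d).fl = ψ d := fun d hd =>
      (hf (ψ d) (h.src d hd)).mapsTo ⟨hd, rfl⟩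
    refine ⟨fun d => f (ψ d) d, ⟨?_, ?_, ?_⟩, hfl⟩
    · intro d hd
      have h1 := congrArg Prod.snd (hfl d hd)
      have h2 : (f (ψ d) d).src = (ψ d).2 := h1
      change (f (ψ d) d).src = x
      rw [h2, h.src d hd]
    · intro d hd d' hd' he
      have h1 : f (ψ d) d = f (ψ d') d' := he
      have h2 : ψ d = ψ d' := by rw [← hfl d hd, ← hfl d' hd', h1]
      rw [← h2] at h1
      exact (hf (ψ d) (h.src d hd)).injOn ⟨hd, rfl⟩ ⟨hd', h2.symm⟩ h1
    · intro e he
      have hx : e.fl.2 = x := he
      obtain ⟨d, hd, hde⟩ := (hf e.fl hx).surjOn (show e ∈ {e' : H.Dart | e'.fl = e.fl} from rfl)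
      refine ⟨d, hd.1, ?_⟩
      change f (ψ d) d = e
      rw [hd.2]
      exact hde

theorem starOk_of_bij [Finite E] {R : D → E × V → Prop} {u : W} {x : V} {β : D → H.Dart}
    (h : Set.BijOn β (G.star u) {e | e.src = x}) (hR : ∀ d ∈ G.star u, R d (β d).fl) :
    H.StarOk G R u x fun d => (β d).fl := by
  refine ⟨hR, fun d hd => h.mapsTo hd, ?_⟩
  intro φ hφ
  unfold mult
  have h1 : {e : H.Dart | e.fl = φ} = β '' {d | d ∈ G.star u ∧ (β d).fl = φ} := by
    ext e
    constructor
    · intro he
      have he' : e.fl = φ := he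
      have hx : e ∈ {e : H.Dart | e.src = x} := by
        change e.fl.2 = x
        rw [he', hφ]
      obtain ⟨d, hd, hde⟩ := h.surjOn hx
      refine ⟨d, ⟨hd, ?_⟩, hde⟩
      rw [hde, he']
    · rintro ⟨d, hd, rfl⟩
      exact hd.2
  rw [h1, Set.ncard_image_of_injOn (h.injOn.mono fun _ hd => hd.1)]

theorem StarOk.mono {R R' : D → E × V → Prop} (hR : ∀ d φ, R d φ → R' d φ) {u : W} {x : V}
    {ψ : D → E × V} (h : H.StarOk G R u x ψ) : H.StarOk G R' u x ψ :=
  ⟨fun d hd => hR _ _ (h.rel d hd), h.src, h.count⟩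

/-- The union of all consistent relations is consistent. -/
theorem cons_Rm : H.Cons G (H.Rm G) := by
  rintro d φ ⟨R, hR, h⟩
  obtain ⟨h1, h2, h3, h4, h5, ψ, h6, h7⟩ := hR d φ h
  exact ⟨h1, h2, h3, h4, ⟨R, hR, h5⟩, ψ, StarOk.mono (fun d φ hdφ => ⟨R, hR, hdφ⟩) h6, h7⟩

/-- Every consistent relation is contained in the greatest one. -/
theorem Cons.le_Rm {R : D → E × V → Prop} (hR : H.Cons G R) {d : D} {φ : E × V} (h : R d φ) :
    H.Rm G d φ := ⟨R, hR, h⟩

/-- Related flags are flags of darts. -/
theorem Rm.exists_dart [Finite E] {d : D} {φ : E × V} (h : H.Rm G d φ) :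
    ∃ e : H.Dart, e.fl = φ := by
  obtain ⟨h1, h2, h3, h4, h5, ψ, h6, h7⟩ := cons_Rm d φ h
  rw [← mult_pos_iff, ← h6.count φ rfl,
    Set.ncard_pos ((star_finite G (G.src d)).subset fun _ hd => hd.1)]
  exact ⟨d, ⟨h1, rfl⟩, h7⟩

theorem Rm.src (hG : G.Ok) {d : D} {φ : E × V} (h : H.Rm G d φ) : H.Sm G (G.src d) φ.2 := by
  obtain ⟨h1, h2, h3, h4, h5, ψ, h6, h7⟩ := cons_Rm d φ h
  exact ⟨hG.src_mem d h1, h3, ψ, h6⟩

theorem Rm.tgt (hG : G.Ok) {d : D} {φ : E × V} (h : H.Rm G d φ) :
    H.Sm G (G.src (G.inv d)) (H.other φ) := by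
  obtain ⟨h1, h2, h3, h4, h5, ψ, h6, h7⟩ := cons_Rm d φ h
  exact Rm.src hG h5

theorem Sm.exists_rm (hG : G.Ok) {d : D} (hd : d ∈ G.Ds) {x : V} (h : H.Sm G (G.src d) x) :
    ∃ φ, H.Rm G d φ ∧ φ.2 = x := by
  have _ := hG
  obtain ⟨-, -, ψ, hψ⟩ := h
  exact ⟨ψ d, hψ.rel d ⟨hd, rfl⟩, hψ.src d ⟨hd, rfl⟩⟩

end Graph

end Pool.Agent.Lib.MP_9c5086_lc
end

section

section

/-!
From perfect matchings to factors.
-/

namespace Pool.Agent.Lib.MP_9c5086_lc

open PM

variable {W D : Type} [DecidableEq W] [DecidableEq D]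

private theorem mem_ends' {β : Type} [DecidableEq β] {N : List (β × β)} {x : β} :
    x ∈ ends N ↔ ∃ e ∈ N, x = e.1 ∨ x = e.2 := by
  simp [ends]

private theorem ends_cons' {β : Type} [DecidableEq β] (e : β × β) (N : List (β × β)) :
    ends (e :: N) = e.1 :: e.2 :: ends N := by
  simp [ends]

private theorem mate_unique {β : Type} [DecidableEq β] : ∀ (M : List (β × β)),
    (ends M).Nodup → ∀ v w w', ((v, w) ∈ M ∨ (w, v) ∈ M) → ((v, w') ∈ M ∨ (w', v) ∈ M) → w = w'
  | [], _, v, w, w', h, _ => by simp at h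
  | e :: M, hn, v, w, w', h, h' => by
    rw [ends_cons'] at hn
    obtain ⟨hn1, hn2⟩ := List.nodup_cons.mp hn
    obtain ⟨hn2, hn3⟩ := List.nodup_cons.mp hn2
    have hn1a : e.1 ≠ e.2 := fun h => hn1 (h ▸ List.mem_cons_self)
    have hn1b : e.1 ∉ ends M := fun h => hn1 (List.mem_cons_of_mem _ h)
    have key : ∀ w, ((v, w) ∈ e :: M ∨ (w, v) ∈ e :: M) →
        ((v, w) ∈ M ∨ (w, v) ∈ M) ∨ (v = e.1 ∧ w = e.2) ∨ (v = e.2 ∧ w = e.1) := by
      intro w h
      rcases h with h | h
      · rcases List.mem_cons.mp h with h | h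
        · exact Or.inr (Or.inl ⟨by rw [← h], by rw [← h]⟩)
        · exact Or.inl (Or.inl h)
      · rcases List.mem_cons.mp h with h | h
        · exact Or.inr (Or.inr ⟨by rw [← h], by rw [← h]⟩)
        · exact Or.inl (Or.inr h)
    have hin : ∀ w, ((v, w) ∈ M ∨ (w, v) ∈ M) → v ∈ ends M := by
      intro w h
      rcases h with h | h
      · exact mem_ends'.mpr ⟨_, h, Or.inl rfl⟩
      · exact mem_ends'.mpr ⟨_, h, Or.inr rfl⟩
    rcases key w h with h | ⟨h1, h2⟩ | ⟨h1, h2⟩
    · rcases key w' h' with h' | ⟨h1', h2'⟩ | ⟨h1', h2'⟩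
      · exact mate_unique M hn3 v w w' h h'
      · exact absurd (h1' ▸ hin w h) hn1b
      · exact absurd (h1' ▸ hin w h) hn2
    · rcases key w' h' with h' | ⟨h1', h2'⟩ | ⟨h1', h2'⟩
      · exact absurd (h1 ▸ hin w' h') hn1b
      · rw [h2, h2']
      · exact absurd (h1.symm.trans h1') hn1a
    · rcases key w' h' with h' | ⟨h1', h2'⟩ | ⟨h1', h2'⟩
      · exact absurd (h1 ▸ hin w' h') hn2
      · exact absurd (h1'.symm.trans h1) hn1a
      · rw [h2, h2']

private theorem exists_mate {β : Type} [DecidableEq β] {V : List β} {E M : List (β × β)}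
    (hM : IsM V E M) (hall : ∀ v ∈ V, v ∈ ends M) :
    ∃ f : β → β, (∀ v ∈ V, f v ∈ V) ∧ (∀ v ∈ V, f (f v) = v) ∧ ∀ v ∈ V, Adj E v (f v) := by
  classical
  have hex : ∀ v, ∃ w, v ∈ V → ((v, w) ∈ M ∨ (w, v) ∈ M) := by
    intro v
    by_cases hv : v ∈ V
    · obtain ⟨e, he, h⟩ := mem_ends'.mp (hall v hv)
      rcases h with rfl | rfl
      · exact ⟨e.2, fun _ => Or.inl he⟩
      · exact ⟨e.1, fun _ => Or.inr he⟩
    · exact ⟨v, fun h => absurd h hv⟩
  choose f hf using hex
  have h1 : ∀ v ∈ V, f v ∈ V := by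
    intro v hv
    apply hM.sub
    rcases hf v hv with h | h
    · exact mem_ends'.mpr ⟨_, h, Or.inr rfl⟩
    · exact mem_ends'.mpr ⟨_, h, Or.inl rfl⟩
  refine ⟨f, h1, ?_, ?_⟩
  · intro v hv
    exact mate_unique M hM.nodup (f v) _ _ (hf (f v) (h1 v hv)) (Or.symm (hf v hv))
  · intro v hv
    rcases hf v hv with h | h
    · exact hM.adj _ h
    · have := hM.adj _ h
      exact ⟨this.1.symm, this.2.symm⟩

private theorem mem_facV {C : List W} {L : List D} {x : (D ⊕ (W × Bool)) × Bool} :
    x ∈ facV C L ↔ (∃ d ∈ L, ∃ c, x = (Sum.inl d, c)) ∨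
      (∃ v ∈ C, ∃ k c, x = (Sum.inr (v, k), c)) := by
  simp only [facV, List.mem_append, List.mem_flatMap, List.mem_cons, List.not_mem_nil, or_false]
  constructor
  · rintro (⟨d, hd, h | h⟩ | ⟨v, hv, h | h | h | h⟩)
    · exact Or.inl ⟨d, hd, _, h⟩
    · exact Or.inl ⟨d, hd, _, h⟩
    all_goals exact Or.inr ⟨v, hv, _, _, h⟩
  · rintro (⟨d, hd, c, h⟩ | ⟨v, hv, k, c, h⟩)
    · left
      refine ⟨d, hd, ?_⟩
      cases c
      · exact Or.inl h
      · exact Or.inr h
    · right
      refine ⟨v, hv, ?_⟩
      cases k <;> cases c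
      · exact Or.inl h
      · exact Or.inr (Or.inr (Or.inl h))
      · exact Or.inr (Or.inl h)
      · exact Or.inr (Or.inr (Or.inr h))

private theorem mem_facE {src : D → W} {inv : D → D} {ra rb : D → Bool} {L : List D}
    {x y : (D ⊕ (W × Bool)) × Bool} (h : (x, y) ∈ facE src inv ra rb L) :
    (∃ d ∈ L, rb d = true ∧ inv d = d ∧ x = (Sum.inl d, false) ∧ y = (Sum.inl d, true)) ∨
    (∃ d ∈ L, ∃ c, rb d = true ∧ inv d ≠ d ∧ x = (Sum.inl d, c) ∧ y = (Sum.inl (inv d), c)) ∨
    (∃ d ∈ L, ∃ k c, ra d = true ∧ x = (Sum.inl d, c) ∧ y = (Sum.inr (src d, k), c)) := by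
  simp only [facE, List.mem_append, List.mem_flatMap] at h
  rcases h with ⟨d, hd, h⟩ | ⟨d, hd, h⟩
  · by_cases h1 : rb d = true
    · rw [if_pos h1] at h
      by_cases h2 : inv d = d
      · rw [if_pos h2] at h
        simp only [List.mem_cons, List.not_mem_nil, or_false, Prod.mk.injEq] at h
        left
        exact ⟨d, hd, h1, h2, h.1, h.2⟩
      · rw [if_neg h2] at h
        simp only [List.mem_cons, List.not_mem_nil, or_false] at h
        right; left
        rcases h with h | h
        · rw [Prod.mk.injEq] at h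
          exact ⟨d, hd, false, h1, h2, h.1, h.2⟩
        · rw [Prod.mk.injEq] at h
          exact ⟨d, hd, true, h1, h2, h.1, h.2⟩
    · rw [if_neg h1] at h
      exact absurd h List.not_mem_nil
  · by_cases h1 : ra d = true
    · rw [if_pos h1] at h
      simp only [List.mem_cons, List.not_mem_nil, or_false] at h
      right; right
      rcases h with h | h | h | h
      all_goals
        rw [Prod.mk.injEq] at h
        exact ⟨d, hd, _, _, h1, h.1, h.2⟩
    · rw [if_neg h1] at h
      exact absurd h List.not_mem_nil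

/-- A perfect matching gives a factor. -/
theorem factor_of_pm {src : D → W} {inv : D → D} {ra rb : D → Bool} {C : List W} {L : List D}
    (hC : C.Nodup) (hL : L.Nodup) (hs : ∀ d ∈ L, src d ∈ C) (hi : ∀ d ∈ L, inv d ∈ L)
    (hii : ∀ d ∈ L, inv (inv d) = d) (hra : ∀ d ∈ L, ra (inv d) = ra d)
    (hrb : ∀ d ∈ L, rb (inv d) = rb d) (nb : ℕ)
    (hdeg : ∀ v ∈ C, {d | d ∈ L ∧ src d = v}.ncard = 2 + nb)
    (h : ∃ M, IsM (facV C L) (facE src inv ra rb L) M ∧ ∀ v ∈ facV C L, v ∈ ends M) :
    ∃ B : Set D, (∀ d ∈ L, inv d ∈ B ↔ d ∈ B) ∧ (∀ d ∈ L, d ∈ B → rb d = true) ∧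
      (∀ d ∈ L, d ∉ B → ra d = true) ∧ ∀ v ∈ C, {d | (d ∈ L ∧ src d = v) ∧ d ∈ B}.ncard = nb := by
  classical
  obtain ⟨M, hM, hall⟩ := h
  obtain ⟨f, f1, f2, f3⟩ := exists_mate hM hall
  have hdV : ∀ d ∈ L, ∀ c, ((Sum.inl d, c) : (D ⊕ (W × Bool)) × Bool) ∈ facV C L :=
    fun d hd c => mem_facV.mpr (Or.inl ⟨d, hd, c, rfl⟩)
  have hvV : ∀ v ∈ C, ∀ k c, ((Sum.inr (v, k), c) : (D ⊕ (W × Bool)) × Bool) ∈ facV C L :=
    fun v hv k c => mem_facV.mpr (Or.inr ⟨v, hv, k, c, rfl⟩)
  -- neighbours of a dart
  have nd : ∀ d ∈ L, ∀ c, (inv d = d ∧ rb d = true ∧ f (Sum.inl d, c) = (Sum.inl d, !c)) ∨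
      (inv d ≠ d ∧ rb d = true ∧ f (Sum.inl d, c) = (Sum.inl (inv d), c)) ∨
      (ra d = true ∧ ∃ k, f (Sum.inl d, c) = (Sum.inr (src d, k), c)) := by
    intro d hd c
    have hadj := f3 _ (hdV d hd c)
    rcases hadj.2 with h | h
    · rcases mem_facE h with ⟨e, he, h1, h2, h3, h4⟩ | ⟨e, he, c', h1, h2, h3, h4⟩ |
        ⟨e, he, k, c', h1, h3, h4⟩
      · rw [Prod.mk.injEq, Sum.inl.injEq] at h3
        obtain ⟨rfl, rfl⟩ := h3
        exact Or.inl ⟨h2, h1, h4⟩
      · rw [Prod.mk.injEq, Sum.inl.injEq] at h3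
        obtain ⟨rfl, rfl⟩ := h3
        exact Or.inr (Or.inl ⟨h2, h1, h4⟩)
      · rw [Prod.mk.injEq, Sum.inl.injEq] at h3
        obtain ⟨rfl, rfl⟩ := h3
        exact Or.inr (Or.inr ⟨h1, k, h4⟩)
    · rcases mem_facE h with ⟨e, he, h1, h2, h3, h4⟩ | ⟨e, he, c', h1, h2, h3, h4⟩ |
        ⟨e, he, k, c', h1, h3, h4⟩
      · rw [Prod.mk.injEq, Sum.inl.injEq] at h4
        obtain ⟨rfl, rfl⟩ := h4
        exact Or.inl ⟨h2, h1, h3⟩
      · rw [Prod.mk.injEq, Sum.inl.injEq] at h4
        obtain ⟨rfl, rfl⟩ := h4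
        refine Or.inr (Or.inl ⟨?_, ?_, ?_⟩)
        · rw [hii e he]; exact Ne.symm h2
        · rw [hrb e he]; exact h1
        · rw [hii e he]; exact h3
      · simp at h4
  have nv : ∀ v ∈ C, ∀ k c, ∃ d ∈ L, ra d = true ∧ src d = v ∧
      f (Sum.inr (v, k), c) = (Sum.inl d, c) := by
    intro v hv k c
    have hadj := f3 _ (hvV v hv k c)
    rcases hadj.2 with h | h
    · rcases mem_facE h with ⟨e, he, h1, h2, h3, h4⟩ | ⟨e, he, c', h1, h2, h3, h4⟩ |
        ⟨e, he, k, c', h1, h3, h4⟩
      · simp at h3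
      · simp at h3
      · simp at h3
    · rcases mem_facE h with ⟨e, he, h1, h2, h3, h4⟩ | ⟨e, he, c', h1, h2, h3, h4⟩ |
        ⟨e, he, k, c', h1, h3, h4⟩
      · simp at h4
      · simp at h4
      · simp only [Prod.mk.injEq, Sum.inr.injEq] at h4
        obtain ⟨⟨rfl, rfl⟩, rfl⟩ := h4
        exact ⟨e, he, h1, rfl, h3⟩
  refine ⟨{d | ∀ k, f (Sum.inl d, false) ≠ (Sum.inr (src d, k), false)}, ?_, ?_, ?_, ?_⟩
  · -- closed under inv
    have key : ∀ d ∈ L, (∀ k, f (Sum.inl d, false) ≠ (Sum.inr (src d, k), false)) →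
        ∀ k, f (Sum.inl (inv d), false) ≠ (Sum.inr (src (inv d), k), false) := by
      intro d hd h k hk
      rcases nd d hd false with ⟨h1, h2, h3⟩ | ⟨h1, h2, h3⟩ | ⟨h1, k', h3⟩
      · rw [h1] at hk
        exact h k hk
      · have h4 := f2 _ (hdV d hd false)
        rw [h3, hk] at h4
        simp at h4
      · exact h k' h3
    intro d hd
    constructor
    · intro h
      have := key (inv d) (hi d hd) h
      rw [hii d hd] at this
      exact this
    · exact key d hd
  · intro d hd h
    rcases nd d hd false with ⟨h1, h2, h3⟩ | ⟨h1, h2, h3⟩ | ⟨h1, k', h3⟩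
    · exact h2
    · exact h2
    · exact absurd h3 (h k')
  · intro d hd h
    rcases nd d hd false with ⟨h1, h2, h3⟩ | ⟨h1, h2, h3⟩ | ⟨h1, k', h3⟩
    · exfalso
      apply h
      intro k hk
      rw [h3] at hk
      simp at hk
    · exfalso
      apply h
      intro k hk
      rw [h3] at hk
      simp at hk
    · exact h1
  · intro v hv
    set B : Set D := {d | ∀ k, f (Sum.inl d, false) ≠ (Sum.inr (src d, k), false)} with hB
    have hfin : {d | d ∈ L ∧ src d = v}.Finite := (List.finite_toSet L).subset fun d hd => hd.1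
    obtain ⟨d0, hd0, -, hs0, hf0⟩ := nv v hv false false
    obtain ⟨d1, hd1, -, hs1, hf1⟩ := nv v hv true false
    have hg0 : f (Sum.inl d0, false) = (Sum.inr (v, false), false) := by
      rw [← hf0, f2 _ (hvV v hv false false)]
    have hg1 : f (Sum.inl d1, false) = (Sum.inr (v, true), false) := by
      rw [← hf1, f2 _ (hvV v hv true false)]
    have hne : d0 ≠ d1 := by
      intro h
      rw [h, hg1] at hg0
      simp at hg0
    have hset : ({d | d ∈ L ∧ src d = v} \ B) = {d0, d1} := by
      ext d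
      simp only [Set.mem_sdiff, Set.mem_ofPred_eq, Set.mem_insert_iff, Set.mem_singleton_iff, hB,
        not_forall, not_not]
      constructor
      · rintro ⟨⟨hd, hsd⟩, k, hk⟩
        have h4 := f2 _ (hdV d hd false)
        rw [hk, hsd] at h4
        cases k
        · left
          rw [hf0] at h4
          simpa using h4.symm
        · right
          rw [hf1] at h4
          simpa using h4.symm
      · rintro (rfl | rfl)
        · exact ⟨⟨hd0, hs0⟩, false, by rw [hs0]; exact hg0⟩
        · exact ⟨⟨hd1, hs1⟩, true, by rw [hs1]; exact hg1⟩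
    have h1 := Set.ncard_inter_add_ncard_sdiff_eq_ncard {d | d ∈ L ∧ src d = v} B hfin
    rw [hset, Set.ncard_pair hne, hdeg v hv] at h1
    have h2 : {d | (d ∈ L ∧ src d = v) ∧ d ∈ B}.ncard = ({d | d ∈ L ∧ src d = v} ∩ B).ncard := rfl
    rw [h2]
    omega

end Pool.Agent.Lib.MP_9c5086_lc
end

section

/-!
The forest is maximal.
-/

namespace Pool.Agent.Lib.MP_9c5086_lc.PM

variable {α : Type} [DecidableEq α] {V : List α} {E M : List (α × α)}

private theorem pmmax_addStep_nil {F : List (List α)} (h : F.flatMap (ext V E M F) = []) :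
    addStep V E M F = F := by
  unfold addStep
  rw [h]

private theorem pmmax_addStep_len {F : List (List α)} (h : F.flatMap (ext V E M F) ≠ []) :
    (addStep V E M F).length = F.length + 1 := by
  unfold addStep
  cases h1 : F.flatMap (ext V E M F) with
  | nil => exact absurd h1 h
  | cons p l => simp

private theorem pmmax_inv (hV : V.Nodup) (hM : IsM V E M) (k : ℕ) :
    Inv V E M ((addStep V E M)^[k] (roots V M)) := by
  induction k with
  | zero => exact inv_roots hV hM
  | succ k ih =>
    rw [Function.iterate_succ_apply']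
    exact inv_addStep hV hM ih

private theorem pmmax_card (hM : IsM V E M) {F : List (List α)} (hF : Inv V E M F) :
    F.flatten.toFinset.card ≤ V.length := by
  refine le_trans (Finset.card_le_card ?_) (List.toFinset_card_le V)
  intro x hx
  rw [List.mem_toFinset, List.mem_flatten] at hx
  obtain ⟨p, hp, hxp⟩ := hx
  rw [List.mem_toFinset]
  exact (hF.alt p hp).sub hM x hxp

/-- No path can be added to the forest. -/
theorem forest_max (hV : V.Nodup) (hM : IsM V E M) :
    (forest V E M).flatMap (ext V E M (forest V E M)) = [] := by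
  by_contra hne
  -- the earlier stages
  have hall : ∀ k ≤ V.length, ((addStep V E M)^[k] (roots V M)).flatMap
      (ext V E M ((addStep V E M)^[k] (roots V M))) ≠ [] := by
    intro k hk h0
    apply hne
    have h1 : ∀ j, (addStep V E M)^[k + j] (roots V M) = (addStep V E M)^[k] (roots V M) := by
      intro j
      induction j with
      | zero => rfl
      | succ j ih =>
        rw [← Nat.add_assoc, Function.iterate_succ_apply', ih]
        exact pmmax_addStep_nil h0
    obtain ⟨j, hj⟩ := Nat.exists_eq_add_of_le hk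
    have h2 : forest V E M = (addStep V E M)^[k] (roots V M) := by
      unfold forest
      rw [hj]
      exact h1 j
    rw [h2]
    exact h0
  have hlen : ∀ k ≤ V.length + 1, ((addStep V E M)^[k] (roots V M)).length =
      (roots V M).length + k := by
    intro k
    induction k with
    | zero =>
      intro _
      rfl
    | succ k ih =>
      intro hk
      rw [Function.iterate_succ_apply', pmmax_addStep_len (hall k (by omega)), ih (by omega)]
      rfl
  have h1 := (pmmax_inv hV hM (V.length + 1)).card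
  have h2 := pmmax_card hM (pmmax_inv hV hM (V.length + 1))
  rw [hlen _ le_rfl] at h1
  have h3 : (roots V M).length = (V.filter fun v => decide (v ∉ ends M)).length := by
    unfold roots
    rw [List.length_map]
  omega

/-- All neighbours of the last vertices of the paths are in the forest. -/
theorem forest_closed (hV : V.Nodup) (hM : IsM V E M) {h : α} {t : List α}
    (hp : h :: t ∈ forest V E M) {y : α} (hy : y ∈ V) (ha : Adj E h y) :
    y ∈ (forest V E M).flatten := by
  by_contra hyF
  have hyM : y ∈ ends M := by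
    by_contra hyM
    apply hyF
    rw [List.mem_flatten]
    exact ⟨[y], (inv_forest hV hM).root y hy hyM, List.mem_singleton.2 rfl⟩
  obtain ⟨z, hz⟩ : ∃ z, z ∈ mate M y := by
    unfold ends at hyM
    rw [List.mem_flatMap] at hyM
    obtain ⟨e, he, hye⟩ := hyM
    by_cases h1 : e.1 = y
    · refine ⟨e.2, ?_⟩
      unfold mate
      rw [List.mem_flatMap]
      refine ⟨e, he, ?_⟩
      rw [if_pos h1]
      exact List.mem_singleton.2 rfl
    · have h2 : e.2 = y := by
        simp only [List.mem_cons, List.not_mem_nil, or_false] at hye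
        rcases hye with h2 | h2
        · exact absurd h2.symm h1
        · exact h2.symm
      refine ⟨e.1, ?_⟩
      unfold mate
      rw [List.mem_flatMap]
      refine ⟨e, he, ?_⟩
      rw [if_neg h1, if_pos h2]
      exact List.mem_singleton.2 rfl
  have h3 : z :: y :: h :: t ∈ (forest V E M).flatMap (ext V E M (forest V E M)) := by
    rw [List.mem_flatMap]
    refine ⟨h :: t, hp, ?_⟩
    unfold ext
    rw [List.mem_flatMap]
    refine ⟨y, hy, ?_⟩
    rw [if_pos ⟨ha, hyF⟩, List.mem_map]
    exact ⟨z, hz, rfl⟩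
  rw [forest_max hV hM] at h3
  exact List.not_mem_nil h3

end Pool.Agent.Lib.MP_9c5086_lc.PM
end

section

/-!
Factors and perfect matchings.
-/

namespace Pool.Agent.Lib.MP_9c5086_lc

open PM

variable {W D : Type} [DecidableEq W] [DecidableEq D]

/-- Factors correspond to perfect matchings. -/
theorem factor_iff {src : D → W} {inv : D → D} {ra rb : D → Bool} {C : List W} {L : List D}
    (hC : C.Nodup) (hL : L.Nodup) (hs : ∀ d ∈ L, src d ∈ C) (hi : ∀ d ∈ L, inv d ∈ L)
    (hii : ∀ d ∈ L, inv (inv d) = d) (hra : ∀ d ∈ L, ra (inv d) = ra d)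
    (hrb : ∀ d ∈ L, rb (inv d) = rb d) (nb : ℕ)
    (hdeg : ∀ v ∈ C, {d | d ∈ L ∧ src d = v}.ncard = 2 + nb) :
    (∃ B : Set D, (∀ d ∈ L, inv d ∈ B ↔ d ∈ B) ∧ (∀ d ∈ L, d ∈ B → rb d = true) ∧
      (∀ d ∈ L, d ∉ B → ra d = true) ∧ ∀ v ∈ C, {d | (d ∈ L ∧ src d = v) ∧ d ∈ B}.ncard = nb) ↔
    ∃ M, IsM (facV C L) (facE src inv ra rb L) M ∧ ∀ v ∈ facV C L, v ∈ ends M :=
  ⟨pm_of_factor hC hL hs hi hii hra hrb nb hdeg, factor_of_pm hC hL hs hi hii hra hrb nb hdeg⟩

/-- The list of vertices of the matching problem has no duplicates. -/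
theorem facV_nodup {C : List W} {L : List D} (hC : C.Nodup) (hL : L.Nodup) :
    (facV C L).Nodup := by
  rw [facV, List.nodup_append]
  refine ⟨?_, ?_, ?_⟩
  · rw [List.nodup_flatMap]
    refine ⟨fun d _ => by simp, hL.imp fun {a b} hab => ?_⟩
    intro x hx hy
    simp only [List.mem_cons, List.not_mem_nil, or_false] at hx hy
    apply hab
    rcases hx with rfl | rfl <;> rcases hy with hy | hy <;> simp_all
  · rw [List.nodup_flatMap]
    refine ⟨fun d _ => by simp, hC.imp fun {a b} hab => ?_⟩
    intro x hx hy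
    simp only [List.mem_cons, List.not_mem_nil, or_false] at hx hy
    apply hab
    rcases hx with rfl | rfl | rfl | rfl <;> rcases hy with hy | hy | hy | hy <;> simp_all
  · intro a ha b hb hab
    simp only [List.mem_flatMap, List.mem_cons, List.not_mem_nil, or_false] at ha hb
    obtain ⟨d, -, hd⟩ := ha
    obtain ⟨v, -, hv⟩ := hb
    rcases hd with rfl | rfl <;> rcases hv with hv | hv | hv | hv <;> simp_all

end Pool.Agent.Lib.MP_9c5086_lc
end

section

/-!
If no last vertices of paths of the forest are adjacent, then the matching is maximum.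
-/

namespace Pool.Agent.Lib.MP_9c5086_lc.PM

variable {α : Type} [DecidableEq α] {V : List α} {E M : List (α × α)}

/-- If no last vertices are adjacent, then there is a certificate. -/
theorem cert_of_found_nil (hV : V.Nodup) (hM : IsM V E M)
    (h : found E (forest V E M) = []) : ∃ U D, IsCert V E M U D := by
  have hI := inv_forest hV hM
  set F := forest V E M with hF
  let T : List α → Finset α := fun p => p.head?.toFinset
  have hT : ∀ (x : α) (l : List α), T (x :: l) = {x} := fun x l => rfl
  -- all paths are nonempty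
  have hne : ∀ p ∈ F, ∃ x l, p = x :: l := by
    intro p hp
    have h1 := (hI.alt p hp).odd
    cases p with
    | nil => simp at h1
    | cons x l => exact ⟨x, l, rfl⟩
  have hhead : ∀ p ∈ F, ∀ q ∈ F, ∀ x, x ∈ T p → x ∈ T q → p = q := by
    intro p hp q hq x hxp hxq
    obtain ⟨a, l, rfl⟩ := hne p hp
    obtain ⟨b, m, rfl⟩ := hne q hq
    rw [hT, Finset.mem_singleton] at hxp hxq
    subst hxp
    subst hxq
    rw [hI.suff [] x l [] m hp hq]
  let D : Finset (Finset α) := F.toFinset.image T
  let Hd : Finset α := F.toFinset.biUnion T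
  have hHd : ∀ x, x ∈ Hd ↔ ∃ l, x :: l ∈ F := by
    intro x
    rw [Finset.mem_biUnion]
    constructor
    · rintro ⟨p, hp, hx⟩
      rw [List.mem_toFinset] at hp
      obtain ⟨a, l, rfl⟩ := hne p hp
      rw [hT, Finset.mem_singleton] at hx
      subst hx
      exact ⟨l, hp⟩
    · rintro ⟨l, hl⟩
      exact ⟨x :: l, List.mem_toFinset.2 hl, by rw [hT]; exact Finset.mem_singleton_self x⟩
  have hFc : F.toFinset.card = F.length := List.toFinset_card_of_nodup hI.nodup
  have hDc : D.card = F.length := by
    rw [← hFc]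
    refine Finset.card_image_of_injOn ?_
    intro p hp q hq hpq
    rw [Finset.mem_coe, List.mem_toFinset] at hp hq
    obtain ⟨a, l, rfl⟩ := hne p hp
    refine hhead _ hp _ hq a ?_ ?_
    · rw [hT]; exact Finset.mem_singleton_self a
    · have h1 : T (a :: l) = T q := hpq
      rw [← h1, hT]; exact Finset.mem_singleton_self a
  have hHc : Hd.card = F.length := by
    rw [← hFc]
    have h1 : Hd.card = ∑ p ∈ F.toFinset, (T p).card := by
      refine Finset.card_biUnion ?_
      intro p hp q hq hpq
      rw [Finset.mem_coe, List.mem_toFinset] at hp hq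
      show Disjoint (T p) (T q)
      rw [Finset.disjoint_left]
      intro x hxp hxq
      exact hpq (hhead p hp q hq x hxp hxq)
    rw [h1, Finset.card_eq_sum_ones]
    refine Finset.sum_congr rfl fun p hp => ?_
    rw [List.mem_toFinset] at hp
    obtain ⟨a, l, rfl⟩ := hne p hp
    rw [hT, Finset.card_singleton]
  have hHs : Hd ⊆ F.flatten.toFinset := by
    intro x hx
    obtain ⟨l, hl⟩ := (hHd x).1 hx
    rw [List.mem_toFinset]
    exact List.mem_flatten.2 ⟨_, hl, List.mem_cons_self⟩
  have hmemD : ∀ A ∈ D, ∃ x l, x :: l ∈ F ∧ A = {x} := by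
    intro A hA
    obtain ⟨p, hp, rfl⟩ := Finset.mem_image.1 hA
    rw [List.mem_toFinset] at hp
    obtain ⟨a, l, rfl⟩ := hne p hp
    exact ⟨a, l, hp, hT a l⟩
  refine ⟨F.flatten.toFinset \ Hd, D, ?_, ?_, ?_, ?_, ?_, ?_⟩
  · intro x hx
    have h1 := (Finset.mem_sdiff.1 hx).1
    rw [List.mem_toFinset] at h1
    obtain ⟨p, hp, hxp⟩ := List.mem_flatten.1 h1
    exact (hI.alt p hp).sub hM x hxp
  · intro A hA x hx
    obtain ⟨a, l, hl, rfl⟩ := hmemD A hA
    rw [Finset.mem_singleton] at hx
    subst hx
    refine ⟨(hI.alt _ hl).sub hM x List.mem_cons_self, ?_⟩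
    intro h1
    exact (Finset.mem_sdiff.1 h1).2 ((hHd x).2 ⟨l, hl⟩)
  · intro A hA
    obtain ⟨a, l, hl, rfl⟩ := hmemD A hA
    rw [Finset.card_singleton]
    exact odd_one
  · intro A hA B hB hAB
    obtain ⟨a, l, hl, rfl⟩ := hmemD A hA
    obtain ⟨b, m, hm, rfl⟩ := hmemD B hB
    rw [Finset.disjoint_singleton]
    rintro rfl
    exact hAB rfl
  · intro A hA x hx y hy hxy
    obtain ⟨a, l, hl, rfl⟩ := hmemD A hA
    rw [Finset.mem_singleton] at hx
    subst hx
    left
    have h1 := forest_closed hV hM hl hy hxy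
    rw [Finset.mem_sdiff, List.mem_toFinset]
    refine ⟨h1, fun h2 => ?_⟩
    obtain ⟨m, hm⟩ := (hHd y).1 h2
    have h3 : (x :: l, y :: m) ∈ found E F := by
      unfold found
      rw [List.mem_flatMap]
      refine ⟨x :: l, hl, ?_⟩
      rw [List.mem_flatMap]
      refine ⟨y :: m, hm, ?_⟩
      simp only [if_pos hxy, List.mem_singleton]
    rw [h] at h3
    exact absurd h3 List.not_mem_nil
  · have h1 := hI.card
    have h2 := exposed_count hV hM
    have h3 : (F.flatten.toFinset \ Hd).card + Hd.card = F.flatten.toFinset.card :=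
      Finset.card_sdiff_add_card_eq_card hHs
    rw [hDc]
    rw [hHc] at h3
    omega

end Pool.Agent.Lib.MP_9c5086_lc.PM
end

section

/-!
Blossoms.
-/

namespace Pool.Agent.Lib.MP_9c5086_lc.PM

variable {α : Type} [DecidableEq α] {V : List α} {E M : List (α × α)}

/-- The vertices `b :: c` form an odd cycle, all of whose vertices but `b` are matched within the
cycle, while `b` is exposed. -/
structure Blossom (V : List α) (E M : List (α × α)) (b : α) (c : List α) : Prop where
  nodup : (b :: c).Nodup
  sub : ∀ x ∈ b :: c, x ∈ V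
  even : Even c.length
  ne : c ≠ []
  chain : List.IsChain (Adj E) (b :: (c ++ [b]))
  base : b ∉ ends M
  touch : 2 * (untouched M c).length + c.length = 2 * M.length

private theorem pb_adj_symm {a b : α} (h : Adj E a b) : Adj E b a :=
  ⟨h.1.symm, h.2.symm⟩

private theorem pb_count {β : Type} (N : List β) (P Q : β → Bool)
    (h : ∀ e ∈ N, P e = true ∨ Q e = true) :
    (N.filter P).length + (N.filter Q).length =
      N.length + (N.filter fun e => P e && Q e).length := by
  induction N with
  | nil => simp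
  | cons a N ih =>
    have h1 := ih fun e he => h e (List.mem_cons_of_mem _ he)
    have h2 := h a List.mem_cons_self
    cases hP : P a <;> cases hQ : Q a
    · rw [hP, hQ] at h2; simp at h2
    · simp only [List.filter_cons, hP, hQ, Bool.and_true, Bool.and_false, Bool.false_eq_true,
        if_true, if_false, List.length_cons]
      omega
    · simp only [List.filter_cons, hP, hQ, Bool.and_true, Bool.and_false, Bool.false_eq_true,
        if_true, if_false, List.length_cons]
      omega
    · simp only [List.filter_cons, hP, hQ, Bool.and_true, if_true, List.length_cons]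
      omega

private theorem pb_untouched_append (M : List (α × α)) {c d l : List α}
    (h : ∀ x, x ∈ l ↔ x ∈ c ∨ x ∈ d) :
    untouched M l = untouched (untouched M d) c := by
  unfold untouched
  rw [List.filter_filter]
  refine List.filter_congr fun e _ => ?_
  have h1 := h e.1
  have h2 := h e.2
  by_cases a1 : e.1 ∈ c <;> by_cases a2 : e.1 ∈ d <;> by_cases a3 : e.2 ∈ c <;>
    by_cases a4 : e.2 ∈ d <;> simp [h1, h2, a1, a2, a3, a4]

private theorem pb_untouched_and (N : List (α × α)) {c d l : List α}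
    (h : ∀ x, x ∈ l ↔ x ∈ c ∨ x ∈ d) :
    untouched N l = N.filter fun e => (decide (e.1 ∉ c) && decide (e.2 ∉ c)) &&
      (decide (e.1 ∉ d) && decide (e.2 ∉ d)) := by
  unfold untouched
  refine List.filter_congr fun e _ => ?_
  have h1 := h e.1
  have h2 := h e.2
  by_cases a1 : e.1 ∈ c <;> by_cases a2 : e.1 ∈ d <;> by_cases a3 : e.2 ∈ c <;>
    by_cases a4 : e.2 ∈ d <;> simp [h1, h2, a1, a2, a3, a4]

/-- Consecutive vertices of an alternating path are adjacent. -/
theorem Alt.isChain (hM : IsM V E M) {p : List α} (hp : Alt V E M p) :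
    List.IsChain (Adj E) p := by
  induction hp with
  | root _ _ => exact List.isChain_singleton _
  | step h1 h2 _ h4 _ _ ih =>
    refine List.isChain_cons_cons.2 ⟨?_, List.isChain_cons_cons.2 ⟨pb_adj_symm h2, ih⟩⟩
    rcases h4 with h4 | h4
    · exact hM.adj _ h4
    · exact pb_adj_symm (hM.adj _ h4)

/-- Two paths of the forest with adjacent last vertices and a common vertex give a blossom, after
the pairs along the common suffix are exchanged. -/
theorem blossom_of_found (hM : IsM V E M) {F : List (List α)} (hF : Inv V E M F)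
    {h g : α} {t u : List α} (hp : h :: t ∈ F) (hq : g :: u ∈ F) (ha : Adj E h g)
    {b : α} {s : List α} (hs : ((h :: t).filter fun x => decide (x ∈ g :: u)) = b :: s) :
    Blossom V E (flip M (b :: s)) b (((h :: t).filter fun x => decide (x ∉ g :: u)).reverse ++
      (g :: u).filter fun x => decide (x ∉ h :: t)) := by
  obtain ⟨hb, ep, eq, evp, evq⟩ := split_paths hM hF hp hq hs
  have hdq : ∀ x ∈ (h :: t).filter (fun x => decide (x ∉ g :: u)), x ∉ g :: u := by
    intro x hx
    exact of_decide_eq_true (List.mem_filter.1 hx).2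
  have hdp : ∀ x ∈ (g :: u).filter (fun x => decide (x ∉ h :: t)), x ∉ h :: t := by
    intro x hx
    exact of_decide_eq_true (List.mem_filter.1 hx).2
  set p1 := (h :: t).filter fun x => decide (x ∉ g :: u) with hp1
  set q1 := (g :: u).filter fun x => decide (x ∉ h :: t) with hq1
  clear_value p1 q1
  have ap := hF.alt _ hp
  have aq := hF.alt _ hq
  have ab := hF.alt _ hb
  have np := ap.nodup hM
  have nq := aq.nodup hM
  rw [ep] at np
  rw [eq] at nq
  obtain ⟨np1, nbs, npd⟩ := List.nodup_append.1 np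
  obtain ⟨nq1, -, nqd⟩ := List.nodup_append.1 nq
  have hbp : b ∉ p1 := fun hx => npd b hx b List.mem_cons_self rfl
  have hbq : b ∉ q1 := fun hx => nqd b hx b List.mem_cons_self rfl
  have hp1p : ∀ x ∈ p1, x ∈ h :: t := fun x hx => by rw [ep]; exact List.mem_append_left _ hx
  have hq1q : ∀ x ∈ q1, x ∈ g :: u := fun x hx => by rw [eq]; exact List.mem_append_left _ hx
  have hpq : ∀ x ∈ p1, x ∉ q1 := fun x hx hx' => hdq x hx (hq1q x hx')
  obtain ⟨f1, f2, f3⟩ := flip_spec hM ab
  have cp := ap.isChain hM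
  have cq := aq.isChain hM
  have hhead : ∀ {l : List α} {a : α} {r : List α}, a :: r = l ++ b :: s →
      (l ++ [b]).head? = some a := by
    intro l a r e
    cases l with
    | nil => simp only [List.nil_append, List.cons.injEq] at e; simp [e.1]
    | cons y l => simp only [List.cons_append, List.cons.injEq] at e; simp [e.1]
  refine ⟨?_, ?_, ?_, ?_, ?_, f3, ?_⟩
  · rw [List.nodup_cons]
    refine ⟨?_, ?_⟩
    · rw [List.mem_append, List.mem_reverse]
      exact fun hx => hx.elim hbp hbq
    · rw [List.nodup_append]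
      refine ⟨List.nodup_reverse.2 np1, nq1, ?_⟩
      intro x hx y hy hxy
      rw [List.mem_reverse] at hx
      exact hpq x hx (hxy ▸ hy)
  · intro x hx
    rw [List.mem_cons, List.mem_append, List.mem_reverse] at hx
    rcases hx with hx | hx | hx
    · rw [hx]
      exact ab.sub hM b List.mem_cons_self
    · exact ap.sub hM x (hp1p x hx)
    · exact aq.sub hM x (hq1q x hx)
  · rw [List.length_append, List.length_reverse]
    exact evp.add evq
  · intro hc
    rw [List.append_eq_nil_iff, List.reverse_eq_nil_iff] at hc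
    rw [hc.1] at ep
    rw [hc.2] at eq
    have : h :: t = g :: u := by rw [ep, eq]
    exact ha.1 (List.cons.inj this).1
  · have e : b :: (p1.reverse ++ q1 ++ [b]) = (p1 ++ [b]).reverse ++ (q1 ++ [b]) := by
      rw [List.reverse_append]
      simp
    rw [e, List.isChain_append]
    have e1 : h :: t = (p1 ++ [b]) ++ s := by rw [ep]; simp
    have e2 : g :: u = (q1 ++ [b]) ++ s := by rw [eq]; simp
    rw [e1, List.isChain_append] at cp
    rw [e2, List.isChain_append] at cq
    refine ⟨?_, cq.1, ?_⟩
    · rw [List.isChain_reverse]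
      exact cp.1.imp fun a b h => pb_adj_symm h
    · intro x hx y hy
      rw [List.getLast?_reverse, hhead ep] at hx
      rw [hhead eq] at hy
      rw [Option.mem_some_iff] at hx hy
      rw [← hx, ← hy]
      exact ha
  · have evs : Even s.length := by
      have := ab.odd
      rw [List.length_cons] at this
      exact Nat.not_odd_iff_even.1 fun h => (Nat.not_odd_iff_even.2 (h.add_one)) this
    have hend : ∀ {l : List α}, Even l.length → 2 * (pairs l).length = l.length := by
      intro l hl
      rw [← length_ends, ends_pairs hl]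
    have tp := ap.touch hM
    have tq := aq.touch hM
    have tb := ab.touch hM
    have mp : ∀ x, x ∈ h :: t ↔ x ∈ p1 ∨ x ∈ b :: s := fun x => by rw [ep, List.mem_append]
    have mq : ∀ x, x ∈ g :: u ↔ x ∈ q1 ∨ x ∈ b :: s := fun x => by rw [eq, List.mem_append]
    rw [pb_untouched_append M mp] at tp
    rw [pb_untouched_append M mq] at tq
    have lp : (h :: t).length = p1.length + (b :: s).length := by rw [ep, List.length_append]
    have lq : (g :: u).length = q1.length + (b :: s).length := by rw [eq, List.length_append]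
    set N := untouched M (b :: s) with hN
    have hNM : ∀ e ∈ N, e ∈ M ∧ e.1 ∉ b :: s ∧ e.2 ∉ b :: s := by
      intro e he
      rw [hN, untouched, List.mem_filter, Bool.and_eq_true, decide_eq_true_iff,
        decide_eq_true_iff] at he
      exact he
    have hcnt := pb_count N (fun e => decide (e.1 ∉ p1) && decide (e.2 ∉ p1))
      (fun e => decide (e.1 ∉ q1) && decide (e.2 ∉ q1)) (by
        intro e he
        obtain ⟨heM, hb1, hb2⟩ := hNM e he
        have bo := ap.both hM heM
        simp only [Bool.and_eq_true, decide_eq_true_iff]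
        by_cases c1 : e.1 ∈ p1
        · right
          refine ⟨hpq _ c1, ?_⟩
          have := (mp e.2).1 (bo.1 (hp1p _ c1))
          exact hpq _ (this.resolve_right hb2)
        · by_cases c2 : e.2 ∈ p1
          · right
            refine ⟨?_, hpq _ c2⟩
            have := (mp e.1).1 (bo.2 (hp1p _ c2))
            exact hpq _ (this.resolve_right hb1)
          · left
            exact ⟨c1, c2⟩)
    have hc := pb_untouched_and N (c := p1) (d := q1) (l := p1.reverse ++ q1)
      (fun x => by rw [List.mem_append, List.mem_reverse])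
    rw [← hc] at hcnt
    change (untouched N p1).length + (untouched N q1).length = _ at hcnt
    have hpairs : ∀ {l : List α}, ∀ e ∈ pairs l, e.1 ∈ l ∧ e.2 ∈ l := by
      intro l
      induction l using pairs.induct with
      | case1 a b l ih =>
        intro e he
        rw [pairs, List.mem_cons] at he
        rcases he with he | he
        · rw [he]; simp
        · have := ih e he
          exact ⟨List.mem_cons_of_mem _ (List.mem_cons_of_mem _ this.1),
            List.mem_cons_of_mem _ (List.mem_cons_of_mem _ this.2)⟩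
      | case2 l hl =>
        intro e he
        rw [pairs] at he
        · simp at he
        · exact hl
    have hunt : untouched (pairs s) (p1.reverse ++ q1) = pairs s := by
      unfold untouched
      rw [List.filter_eq_self]
      intro e he
      obtain ⟨m1, m2⟩ := hpairs e he
      have hno : ∀ x ∈ s, x ∉ p1.reverse ++ q1 := by
        intro x hx hx'
        rw [List.mem_append, List.mem_reverse] at hx'
        rcases hx' with hx' | hx'
        · exact npd x hx' x (List.mem_cons_of_mem _ hx) rfl
        · exact nqd x hx' x (List.mem_cons_of_mem _ hx) rfl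
      rw [Bool.and_eq_true, decide_eq_true_iff, decide_eq_true_iff]
      exact ⟨hno _ m1, hno _ m2⟩
    have hfl : untouched (flip M (b :: s)) (p1.reverse ++ q1) =
        pairs s ++ untouched N (p1.reverse ++ q1) := by
      rw [flip, List.tail_cons]
      conv_lhs => rw [untouched, List.filter_append]
      exact congrArg₂ _ hunt rfl
    rw [hfl, f2, List.length_append, List.length_append, List.length_reverse]
    have := hend evs
    rw [lp] at tp
    rw [lq] at tq
    simp only [List.length_cons] at tp tq tb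
    omega

end Pool.Agent.Lib.MP_9c5086_lc.PM
end

section

/-!
Contraction of a blossom.
-/

namespace Pool.Agent.Lib.MP_9c5086_lc.PM

variable {α : Type} [DecidableEq α] {V : List α} {E M : List (α × α)}

/-- The remaining vertices after the contraction of a blossom. -/
theorem contract_length {b : α} {c : List α} (hV : V.Nodup) (h : Blossom V E M b c) :
    (V.filter fun v => decide (v ∉ c)).length + c.length = V.length := by
  have h1 : (V.filter fun v => decide (v ∈ c)).Perm c := by
    rw [List.perm_ext_iff_of_nodup (hV.filter _) (List.nodup_cons.mp h.nodup).2]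
    intro a
    simp only [List.mem_filter, decide_eq_true_eq]
    exact ⟨fun h => h.2, fun ha => ⟨h.sub a (List.mem_cons_of_mem _ ha), ha⟩⟩
  have h2 := List.length_eq_length_filter_add (l := V) fun v => decide (v ∈ c)
  rw [h1.length_eq] at h2
  have h3 : (V.filter fun v => decide (v ∉ c)) = V.filter (fun v => !decide (v ∈ c)) := by
    refine List.filter_congr fun x _ => ?_
    simp
  rw [h3]
  omega

/-- Adjacency after the contraction. -/
theorem adj_contract {b : α} {c : List α} (h : Blossom V E M b c) {x y : α} (hx : x ∉ c)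
    (hy : y ∉ c) : Adj (E.map fun e => (rn b c e.1, rn b c e.2)) x y ↔
      x ≠ y ∧ ∃ x' y', rn b c x' = x ∧ rn b c y' = y ∧ Adj E x' y' := by
  unfold Adj
  constructor
  · rintro ⟨h1, h2⟩
    refine ⟨h1, ?_⟩
    rcases h2 with h2 | h2
    · obtain ⟨e, he, he'⟩ := List.mem_map.mp h2
      rw [Prod.mk.injEq] at he'
      refine ⟨e.1, e.2, he'.1, he'.2, ?_, Or.inl he⟩
      intro h3
      apply h1
      rw [← he'.1, ← he'.2, h3]
    · obtain ⟨e, he, he'⟩ := List.mem_map.mp h2
      rw [Prod.mk.injEq] at he'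
      refine ⟨e.2, e.1, he'.2, he'.1, ?_, Or.inr he⟩
      intro h3
      apply h1
      rw [← he'.1, ← he'.2, h3]
  · rintro ⟨h1, x', y', hx', hy', h2, h3⟩
    refine ⟨h1, ?_⟩
    rcases h3 with h3 | h3
    · exact Or.inl (List.mem_map.mpr ⟨(x', y'), h3, by rw [hx', hy']⟩)
    · exact Or.inr (List.mem_map.mpr ⟨(y', x'), h3, by rw [hx', hy']⟩)

/-- Ends of the untouched pairs. -/
private theorem mem_ends {N : List (α × α)} {x : α} :
    x ∈ ends N ↔ ∃ e ∈ N, x = e.1 ∨ x = e.2 := by
  simp [ends]

private theorem ends_sublist {N N' : List (α × α)} (h : N.Sublist N') :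
    (ends N).Sublist (ends N') := by
  unfold ends
  exact h.flatMap _

private theorem rn_of_not {b : α} {c : List α} {x : α} (hx : x ∉ c) : rn b c x = x := by
  simp [rn, hx]

private theorem rn_of_mem {b : α} {c : List α} {x : α} (hx : x ∈ c) : rn b c x = b := by
  simp [rn, hx]

/-- The matching after the contraction. -/
theorem contract_isM {b : α} {c : List α} (hM : IsM V E M) (h : Blossom V E M b c) :
    IsM (V.filter fun v => decide (v ∉ c)) (E.map fun e => (rn b c e.1, rn b c e.2))
      (untouched M c) := by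
  have hu : ∀ e, e ∈ untouched M c ↔ e ∈ M ∧ e.1 ∉ c ∧ e.2 ∉ c := by
    intro e
    simp [untouched]
  refine ⟨?_, ?_, ?_⟩
  · intro e he
    obtain ⟨h1, h2, h3⟩ := (hu e).mp he
    rw [adj_contract h h2 h3]
    have h4 := hM.adj e h1
    exact ⟨h4.1, e.1, e.2, rn_of_not h2, rn_of_not h3, h4⟩
  · exact hM.nodup.sublist (ends_sublist List.filter_sublist)
  · intro x hx
    obtain ⟨e, he, hx⟩ := mem_ends.mp hx
    obtain ⟨h1, h2, h3⟩ := (hu e).mp he
    rw [List.mem_filter]
    refine ⟨hM.sub x (mem_ends.mpr ⟨e, h1, hx⟩), ?_⟩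
    rcases hx with rfl | rfl
    · simpa using h2
    · simpa using h3

/-- Certificates can be lifted. -/
theorem lift_cert {b : α} {c : List α} (hV : V.Nodup) (hM : IsM V E M) (h : Blossom V E M b c)
    {U : Finset α} {D : Finset (Finset α)}
    (hC : IsCert (V.filter fun v => decide (v ∉ c)) (E.map fun e => (rn b c e.1, rn b c e.2))
      (untouched M c) U D) : ∃ U' D', IsCert V E M U' D' := by
  have hbc : b ∉ c := (List.nodup_cons.mp h.nodup).1
  have hcn : c.Nodup := (List.nodup_cons.mp h.nodup).2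
  have hbV : b ∈ V := h.sub b List.mem_cons_self
  have hV' : (V.filter fun v => decide (v ∉ c)).Nodup := hV.filter _
  have hmV' : ∀ x, x ∈ (V.filter fun v => decide (v ∉ c)) ↔ x ∈ V ∧ x ∉ c := by
    intro x; simp [List.mem_filter]
  have hM' := contract_isM hM h
  have hb' : b ∉ ends (untouched M c) := fun hb =>
    h.base ((ends_sublist List.filter_sublist).subset hb)
  obtain ⟨A0, hA0, hbA0⟩ := exposed_mem hV' hC hM' ((hmV' b).mpr ⟨hbV, hbc⟩) hb'
  have hbU : b ∉ U := (hC.subD A0 hA0 b hbA0).2
  have hDV : ∀ A ∈ D, ∀ x ∈ A, x ∈ V ∧ x ∉ c ∧ x ∉ U := fun A hA x hx =>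
    ⟨((hmV' x).mp (hC.subD A hA x hx).1).1, ((hmV' x).mp (hC.subD A hA x hx).1).2,
      (hC.subD A hA x hx).2⟩
  have huniq : ∀ A ∈ D, b ∈ A → A = A0 := by
    intro A hA hbA
    by_contra hne
    exact Finset.disjoint_left.mp (hC.disj A hA A0 hA0 hne) hbA hbA0
  have hcU : ∀ x ∈ c, x ∉ U := fun x hx hxU => ((hmV' x).mp (hC.subU x hxU)).2 hx
  have hmem : ∀ A, A ∈ insert (A0 ∪ c.toFinset) (D.erase A0) ↔
      A = A0 ∪ c.toFinset ∨ (A ∈ D ∧ A ≠ A0) := by
    intro A
    rw [Finset.mem_insert, Finset.mem_erase]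
    tauto
  have hdisjc : ∀ A ∈ D, Disjoint A c.toFinset := by
    intro A hA
    rw [Finset.disjoint_left]
    intro x hx hxc
    exact (hDV A hA x hx).2.1 (List.mem_toFinset.mp hxc)
  have hclosed : ∀ A ∈ D, ∀ x ∈ A, ∀ x' y', rn b c x' = x → y' ∈ V → x ≠ rn b c y' →
      Adj E x' y' → rn b c y' ∈ U ∨ rn b c y' ∈ A := by
    intro A hA x hx x' y' hx' hy' hne hadj
    have hyc : rn b c y' ∉ c := by
      by_cases hyc : y' ∈ c
      · rw [rn_of_mem hyc]; exact hbc
      · rw [rn_of_not hyc]; exact hyc
    have hyV : rn b c y' ∈ V := by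
      by_cases hyc : y' ∈ c
      · rw [rn_of_mem hyc]; exact hbV
      · rw [rn_of_not hyc]; exact hy'
    refine hC.closed A hA x hx (rn b c y') ((hmV' _).mpr ⟨hyV, hyc⟩) ?_
    rw [adj_contract h (hDV A hA x hx).2.1 hyc]
    exact ⟨hne, x', y', hx', rfl, hadj⟩
  refine ⟨U, insert (A0 ∪ c.toFinset) (D.erase A0), ?_, ?_, ?_, ?_, ?_, ?_⟩
  · intro x hx
    exact ((hmV' x).mp (hC.subU x hx)).1
  · intro A hA x hx
    rcases (hmem A).mp hA with rfl | ⟨hA, hne⟩
    · rcases Finset.mem_union.mp hx with hx | hx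
      · exact ⟨(hDV A0 hA0 x hx).1, (hDV A0 hA0 x hx).2.2⟩
      · have hx := List.mem_toFinset.mp hx
        exact ⟨h.sub x (List.mem_cons_of_mem _ hx), hcU x hx⟩
    · exact ⟨(hDV A hA x hx).1, (hDV A hA x hx).2.2⟩
  · intro A hA
    rcases (hmem A).mp hA with rfl | ⟨hA, hne⟩
    · rw [Finset.card_union_of_disjoint (hdisjc A0 hA0), List.toFinset_card_of_nodup hcn]
      exact (hC.odd A0 hA0).add_even h.even
    · exact hC.odd A hA
  · have key : ∀ B ∈ D, B ≠ A0 → Disjoint (A0 ∪ c.toFinset) B := by
      intro B hB hne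
      rw [Finset.disjoint_union_left]
      exact ⟨hC.disj A0 hA0 B hB (Ne.symm hne), (hdisjc B hB).symm⟩
    intro A hA B hB hAB
    rcases (hmem A).mp hA with rfl | ⟨hA, hneA⟩
    · rcases (hmem B).mp hB with rfl | ⟨hB, hneB⟩
      · exact absurd rfl hAB
      · exact key B hB hneB
    · rcases (hmem B).mp hB with rfl | ⟨hB, hneB⟩
      · exact (key A hA hneA).symm
      · exact hC.disj A hA B hB hAB
  · intro A hA x hx y hy hadj
    rcases (hmem A).mp hA with rfl | ⟨hA, hne⟩
    · by_cases hyc : y ∈ c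
      · exact Or.inr (Finset.mem_union_right _ (List.mem_toFinset.mpr hyc))
      have hx1 : rn b c x ∈ A0 := by
        rcases Finset.mem_union.mp hx with hx | hx
        · rw [rn_of_not (hDV A0 hA0 x hx).2.1]; exact hx
        · rw [rn_of_mem (List.mem_toFinset.mp hx)]; exact hbA0
      by_cases hxy : rn b c x = rn b c y
      · right
        rw [rn_of_not hyc] at hxy
        rw [hxy] at hx1
        exact Finset.mem_union_left _ hx1
      · have := hclosed A0 hA0 (rn b c x) hx1 x y rfl hy hxy hadj
        rw [rn_of_not hyc] at this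
        rcases this with h1 | h1
        · exact Or.inl h1
        · exact Or.inr (Finset.mem_union_left _ h1)
    · have hxc := (hDV A hA x hx).2.1
      by_cases hyc : y ∈ c
      · exfalso
        have hxb : x ≠ b := by
          rintro rfl
          exact hne (huniq A hA hx)
        have := hclosed A hA x hx x y (rn_of_not hxc) hy (by rw [rn_of_mem hyc]; exact hxb) hadj
        rw [rn_of_mem hyc] at this
        rcases this with h1 | h1
        · exact hbU h1
        · exact hne (huniq A hA h1)
      · have := hclosed A hA x hx x y (rn_of_not hxc) hy (by rw [rn_of_not hyc]; exact hadj.1) hadj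
        rw [rn_of_not hyc] at this
        exact this
  · have h1 : (insert (A0 ∪ c.toFinset) (D.erase A0)).card = D.card := by
      rw [Finset.card_insert_of_notMem, Finset.card_erase_of_mem hA0]
      · have := Finset.card_pos.mpr ⟨A0, hA0⟩
        omega
      · intro hmem'
        rw [Finset.mem_erase] at hmem'
        exact hmem'.1 (huniq _ hmem'.2 (Finset.mem_union_left _ hbA0))
    have h2 := hC.card
    have h3 := contract_length hV h
    have h4 := h.touch
    rw [h1]
    omega

end Pool.Agent.Lib.MP_9c5086_lc.PM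
end

section

/-!
Two disjoint alternating paths with adjacent last vertices.
-/

namespace Pool.Agent.Lib.MP_9c5086_lc.PM

variable {α : Type} [DecidableEq α] {V : List α} {E M : List (α × α)}

private lemma filter_len {β : Type} (a b : β → Bool) (L : List β)
    (h : ∀ e ∈ L, (a e || b e) = true) :
    (L.filter fun e => a e && b e).length + L.length =
      (L.filter a).length + (L.filter b).length := by
  induction L with
  | nil => rfl
  | cons e L ih =>
    have ih' := ih fun e' he' => h e' (List.mem_cons_of_mem _ he')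
    have he := h e List.mem_cons_self
    simp only [List.filter_cons, List.length_cons]
    cases ha : a e <;> cases hb : b e <;> simp [ha, hb] at he ⊢ <;> omega

private lemma untouched_append (M : List (α × α)) (p q : List α)
    (h : ∀ e ∈ M, (e.1 ∉ p ∧ e.2 ∉ p) ∨ (e.1 ∉ q ∧ e.2 ∉ q)) :
    (untouched M (p ++ q)).length + M.length =
      (untouched M p).length + (untouched M q).length := by
  have h1 := filter_len (fun e : α × α => decide (e.1 ∉ p) && decide (e.2 ∉ p))
    (fun e => decide (e.1 ∉ q) && decide (e.2 ∉ q)) M (fun e he => by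
      rcases h e he with ⟨h1, h2⟩ | ⟨h1, h2⟩
      · simp [h1, h2]
      · simp [h1, h2])
  have h2 : untouched M (p ++ q) = M.filter fun e =>
      (decide (e.1 ∉ p) && decide (e.2 ∉ p)) && (decide (e.1 ∉ q) && decide (e.2 ∉ q)) := by
    unfold untouched
    refine List.filter_congr fun e _ => ?_
    by_cases h1 : e.1 ∈ p <;> by_cases h2 : e.2 ∈ p <;> by_cases h3 : e.1 ∈ q <;>
      by_cases h4 : e.2 ∈ q <;> simp [h1, h2, h3, h4]
  rw [h2]
  exact h1

private lemma mem_ends_untouched {M : List (α × α)} {c : List α} {x : α}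
    (h : x ∈ ends (untouched M c)) : x ∈ ends M ∧ x ∉ c := by
  unfold ends untouched at h
  rw [List.mem_flatMap] at h
  obtain ⟨e, he, hx⟩ := h
  rw [List.mem_filter] at he
  obtain ⟨he1, he2⟩ := he
  simp only [Bool.and_eq_true, decide_eq_true_eq] at he2
  refine ⟨List.mem_flatMap.2 ⟨e, he1, hx⟩, ?_⟩
  simp only [List.mem_cons, List.not_mem_nil, or_false] at hx
  rcases hx with rfl | rfl
  · exact he2.1
  · exact he2.2

private lemma ends_length (M : List (α × α)) : (ends M).length = 2 * M.length := by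
  induction M with
  | nil => rfl
  | cons e M ih =>
    show ([e.1, e.2] ++ ends M).length = _
    rw [List.length_append, ih]
    simp
    omega

private lemma sub_ends {M M' : List (α × α)} (h : M'.Sublist M) : (ends M').Sublist (ends M) := by
  induction h with
  | slnil => exact List.Sublist.refl _
  | cons e _ ih =>
    show (ends _).Sublist ([e.1, e.2] ++ ends _)
    exact ih.trans (List.sublist_append_right _ _)
  | cons_cons e _ ih =>
    show ([e.1, e.2] ++ ends _).Sublist ([e.1, e.2] ++ ends _)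
    exact List.Sublist.append (List.Sublist.refl _) ih

/-- If two disjoint alternating paths have adjacent last vertices, then there is a larger
matching. -/
theorem better_of_disjoint {h g : α} {t u : List α} (hM : IsM V E M)
    (hp : Alt V E M (h :: t)) (hq : Alt V E M (g :: u)) (ha : Adj E h g)
    (hd : ∀ x ∈ h :: t, x ∉ g :: u) : Better V E M := by
  have hto := hp.odd
  have huo := hq.odd
  rw [List.length_cons] at hto huo
  have hte : Even t.length := by
    rcases Nat.even_or_odd t.length with h1 | h1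
    · exact h1
    · exact absurd hto (by rw [Nat.not_odd_iff_even]; exact h1.add_one)
  have hue : Even u.length := by
    rcases Nat.even_or_odd u.length with h1 | h1
    · exact h1
    · exact absurd huo (by rw [Nat.not_odd_iff_even]; exact h1.add_one)
  have e1 := ends_pairs hte
  have e2 := ends_pairs hue
  have l1 : 2 * (pairs t).length = t.length := by rw [← ends_length, e1]
  have l2 : 2 * (pairs u).length = u.length := by rw [← ends_length, e2]
  have t1 := Alt.touch hM hp
  have t2 := Alt.touch hM hq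
  rw [List.length_cons] at t1 t2
  have hsplit : ∀ e ∈ M, (e.1 ∉ h :: t ∧ e.2 ∉ h :: t) ∨ (e.1 ∉ g :: u ∧ e.2 ∉ g :: u) := by
    intro e he
    by_cases h1 : e.1 ∈ h :: t
    · right
      have h2 := (Alt.both hM hp he).1 h1
      exact ⟨hd _ h1, hd _ h2⟩
    · left
      exact ⟨h1, fun h2 => h1 ((Alt.both hM hp he).2 h2)⟩
  have t3 := untouched_append M (h :: t) (g :: u) hsplit
  refine ⟨pairs t ++ (h, g) :: (pairs u ++ untouched M (h :: t ++ g :: u)), ?_, ?_⟩
  · have hE : ends (pairs t ++ (h, g) :: (pairs u ++ untouched M (h :: t ++ g :: u))) =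
        t ++ (h :: g :: (u ++ ends (untouched M (h :: t ++ g :: u)))) := by
      unfold ends
      rw [List.flatMap_append, List.flatMap_cons, List.flatMap_append]
      have e1' : (pairs t).flatMap (fun e => [e.1, e.2]) = t := e1
      have e2' : (pairs u).flatMap (fun e => [e.1, e.2]) = u := e2
      rw [e1', e2']
      rfl
    refine ⟨?_, ?_, ?_⟩
    · intro e he
      rw [List.mem_append, List.mem_cons, List.mem_append] at he
      rcases he with he | rfl | he | he
      · exact hp.pairs_adj e he
      · exact ha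
      · exact hq.pairs_adj e he
      · exact hM.adj e (List.mem_of_mem_filter he)
    · rw [hE]
      have n1 := Alt.nodup hM hp
      have n2 := Alt.nodup hM hq
      have n3 : (ends (untouched M (h :: t ++ g :: u))).Nodup :=
        hM.nodup.sublist (sub_ends List.filter_sublist)
      have hperm : (t ++ (h :: g :: (u ++ ends (untouched M (h :: t ++ g :: u))))).Perm
          ((h :: t) ++ ((g :: u) ++ ends (untouched M (h :: t ++ g :: u)))) := by
        refine List.perm_middle.trans ?_
        rfl
      rw [hperm.nodup_iff, List.nodup_append]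
      refine ⟨n1, ?_, ?_⟩
      · rw [List.nodup_append]
        refine ⟨n2, n3, ?_⟩
        intro a ha' b hb' hab
        have := (mem_ends_untouched hb').2
        rw [← hab, List.mem_append] at this
        exact this (Or.inr ha')
      · intro a ha' b hb' hab
        rw [← hab] at hb'
        rcases List.mem_append.1 hb' with h1 | h1
        · exact hd a ha' h1
        · have := (mem_ends_untouched h1).2
          rw [List.mem_append] at this
          exact this (Or.inl ha')
    · intro x hx
      rw [hE] at hx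
      have s1 := Alt.sub hM hp
      have s2 := Alt.sub hM hq
      rw [List.mem_append, List.mem_cons, List.mem_cons, List.mem_append] at hx
      rcases hx with hx | rfl | rfl | hx | hx
      · exact s1 x (List.mem_cons_of_mem _ hx)
      · exact s1 x List.mem_cons_self
      · exact s2 x List.mem_cons_self
      · exact s2 x (List.mem_cons_of_mem _ hx)
      · exact hM.sub x (mem_ends_untouched hx).1
  · rw [List.length_append, List.length_cons, List.length_append]
    omega

end Pool.Agent.Lib.MP_9c5086_lc.PM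
end
end
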