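import Mathlib
import Pool.Agent.Lib.MP_9c5086_lc.CRank
import Pool.Agent.Lib.MP_9c5086_lc.PMDisj
import Pool.Agent.Lib.MP_9c5086_lc.Glue
import Pool.Agent.Lib.MP_9c5086_lc.CRef

section

/-!
Core darts and up darts.
-/

namespace Pool.Agent.Lib.MP_9c5086_lc

namespace Graph

variable {V E I : Type} {H : Graph V E} {t : V → I}

namespace Dart

/-- The dart lies in the core: both directions have infinite rank. -/
def Core (d : H.Dart) : Prop := d.rk = ⊤ ∧ d.inv.rk = ⊤

/-- The dart has larger rank than all other darts with the same source. -/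
def Up (d : H.Dart) : Prop := ∀ e : H.Dart, e.src = d.src → e ≠ d → e.rk < d.rk

theorem Core.inv {d : H.Dart} (h : d.Core) : d.inv.Core := ⟨h.2, by rw [inv_inv]; exact h.1⟩

theorem core_class [Finite E] (ht : H.Equitable t) {d d' : H.Dart} (hs : t d.src = t d'.src)
    (hg : t d.tgt = t d'.tgt) (h : d.Core) : d'.Core := by
  refine ⟨?_, ?_⟩
  · rw [← rk_class ht hs hg]
    exact h.1
  · rw [← rk_class ht (d := d.inv) (d' := d'.inv) (by rw [src_inv, src_inv, hg])
      (by rw [tgt_inv, tgt_inv, hs])]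
    exact h.2

theorem up_class [Finite E] (ht : H.Equitable t) {d d' : H.Dart} (hs : t d.src = t d'.src)
    (hg : t d.tgt = t d'.tgt) (h : d.Up) : d'.Up := by
  intro e' he' hne
  have hr := rk_class ht hs hg
  have hcl := ht d.src d'.src hs (t e'.tgt)
  unfold classSize at hcl
  have he : e' ∈ {c : H.Dart | c.src = d'.src ∧ t c.tgt = t e'.tgt} := ⟨he', rfl⟩
  by_cases hc : t e'.tgt = t d'.tgt
  · exfalso
    have h1 : 1 < {c : H.Dart | c.src = d'.src ∧ t c.tgt = t e'.tgt}.ncard :=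
      (Set.one_lt_ncard (Set.toFinite _)).2 ⟨e', he, d', ⟨rfl, hc.symm⟩, hne⟩
    rw [← hcl] at h1
    obtain ⟨e, ⟨he1, he2⟩, hed⟩ := Set.exists_ne_of_one_lt_ncard h1 d
    have h2 := h e he1 hed
    rw [rk_class ht (d := e) (d' := d) (by rw [he1]) (by rw [he2, hc, hg])] at h2
    exact lt_irrefl _ h2
  · have h1 : 0 < {c : H.Dart | c.src = d'.src ∧ t c.tgt = t e'.tgt}.ncard :=
      (Set.ncard_pos (Set.toFinite _)).2 ⟨e', he⟩
    rw [← hcl, Set.ncard_pos (Set.toFinite _)] at h1
    obtain ⟨e, he1, he2⟩ := h1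
    have hed : e ≠ d := by
      rintro rfl
      exact hc (by rw [← he2, hg])
    have h2 := h e he1 hed
    rwa [rk_class ht (d := e) (d' := e') (by rw [he1, hs, he']) he2, hr] at h2

theorem Up.unique {d d' : H.Dart} (h : d.Up) (h' : d'.Up) (hs : d.src = d'.src) : d = d' := by
  by_contra hne
  exact lt_asymm (h d' hs.symm (Ne.symm hne)) (h' d hs hne)

/-- The other darts at the source of an up dart lead to vertices whose up darts lead back. -/
theorem Up.up_inv {d e : H.Dart} (h : d.Up) (hs : e.src = d.src) (hne : e ≠ d) : e.inv.Up := by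
  intro f hf hfe
  rw [src_inv] at hf
  have h1 := rk_succ_le hf hfe
  have h2 := h e hs hne
  have h3 : d.rk + 1 ≤ e.inv.rk :=
    rk_succ_le (d := e.inv) (e := d) (by rw [tgt_inv, hs]) (by rw [inv_inv]; exact Ne.symm hne)
  calc f.rk ≤ f.rk + 1 := le_self_add
    _ ≤ e.rk := h1
    _ < d.rk := h2
    _ ≤ d.rk + 1 := le_self_add
    _ ≤ e.inv.rk := h3

/-- If no up dart starts at the source of `e` and `e` has finite rank, then the inverse of `e` is
an up dart. -/
theorem up_inv_of_no_up {e : H.Dart} (h : ∀ d : H.Dart, d.src = e.src → ¬ d.Up)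
    (hr : e.rk ≠ ⊤) : e.inv.Up := by
  have hn := h e rfl
  unfold Up at hn
  push Not at hn
  obtain ⟨d, hds, hde, hle⟩ := hn
  intro f hf hfe
  rw [src_inv] at hf
  have h1 := rk_succ_le hf hfe
  have h3 : d.rk + 1 ≤ e.inv.rk :=
    rk_succ_le (d := e.inv) (e := d) (by rw [tgt_inv, hds]) (by rw [inv_inv]; exact hde)
  have hf0 : f.rk ≠ ⊤ := by
    intro h4
    rw [h4, top_add, top_le_iff] at h1
    exact hr h1
  have h5 : f.rk < f.rk + 1 := by
    obtain ⟨k, hk⟩ := ENat.ne_top_iff_exists.1 hf0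
    rw [← hk]
    exact_mod_cast Nat.lt_succ_self k
  calc f.rk < f.rk + 1 := h5
    _ ≤ e.rk := h1
    _ ≤ d.rk := hle
    _ ≤ d.rk + 1 := le_self_add
    _ ≤ e.inv.rk := h3

theorem core_of_no_up {e : H.Dart} (h : ∀ d : H.Dart, d.src = e.src → ¬ d.Up)
    (hr : e.rk = ⊤) : e.Core := by
  refine ⟨hr, ?_⟩
  have hn := h e rfl
  unfold Up at hn
  push Not at hn
  obtain ⟨d, hds, hde, hle⟩ := hn
  have h3 : d.rk + 1 ≤ e.inv.rk :=
    rk_succ_le (d := e.inv) (e := d) (by rw [tgt_inv, hds]) (by rw [inv_inv]; exact hde)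
  rw [hr, top_le_iff] at hle
  rw [hle, top_add, top_le_iff] at h3
  exact h3

theorem Core.exists_other [Finite E] {d : H.Dart} (h : d.Core) :
    ∃ e : H.Dart, e.Core ∧ e.src = d.src ∧ e ≠ d := by
  obtain ⟨e, h1, h2, h3⟩ := exists_of_rk_top h.2
  rw [tgt_inv] at h1
  rw [inv_inv] at h2
  refine ⟨e, ⟨h3, ?_⟩, h1, h2⟩
  have h4 : d.rk + 1 ≤ e.inv.rk :=
    rk_succ_le (d := e.inv) (e := d) (by rw [tgt_inv, h1]) (by rw [inv_inv]; exact Ne.symm h2)
  rw [h.1, top_add, top_le_iff] at h4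
  exact h4

theorem Core.no_up [Finite E] {d e : H.Dart} (h : d.Core) (hs : e.src = d.src) : ¬ e.Up := by
  intro hup
  obtain ⟨e', h1, h2, h3⟩ := h.exists_other
  by_cases hed : e = d
  · subst hed
    have h4 := hup e' h2 h3
    rw [h1.1] at h4
    exact not_top_lt h4
  · have h4 := hup d hs.symm (Ne.symm hed)
    rw [h.1] at h4
    exact not_top_lt h4

theorem Up.rk_inv_ne_top [Finite E] {d : H.Dart} (h : d.Up) : d.inv.rk ≠ ⊤ := by
  intro htop
  obtain ⟨e, h1, h2, h3⟩ := exists_of_rk_top htop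
  rw [tgt_inv] at h1
  rw [inv_inv] at h2
  have h4 := h e h1 h2
  rw [h3] at h4
  exact not_top_lt h4

theorem rk_inv_succ_le {d d' : H.Dart} (hs : d'.src = d.tgt) (hne : d' ≠ d.inv) :
    d.inv.rk + 1 ≤ d'.inv.rk :=
  rk_succ_le (d := d'.inv) (e := d.inv) (by rw [src_inv, tgt_inv, hs])
    (by rw [inv_inv]; exact Ne.symm hne)

end Dart

end Graph

end Pool.Agent.Lib.MP_9c5086_lc
end

section

section

/-!
A counting lemma.
-/

namespace Pool.Agent.Lib.MP_9c5086_lc

/-- If for every `x` at most as many elements of `S` arrive at `x` as elements of `S` leave `x`,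
then these numbers are equal for every `x`.  Here `ι` is an involution exchanging sources and
targets. -/
theorem count_eq {α X : Type} [Finite α] (src tgt : α → X) (ι : α → α) (hι : ∀ a, ι (ι a) = a)
    (h : ∀ a, src (ι a) = tgt a) (S : Set α)
    (hle : ∀ x, {e | src e = x ∧ ι e ∈ S}.ncard ≤ {e | src e = x ∧ e ∈ S}.ncard) (x : X) :
    {e | src e = x ∧ ι e ∈ S}.ncard = {e | src e = x ∧ e ∈ S}.ncard := by
  classical
  haveI : Fintype α := Fintype.ofFinite α
  have key : ∀ (P : α → Prop) (y : X), {e | src e = y ∧ P e}.ncard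
      = ((Finset.univ.filter P).filter (fun e => src e = y)).card := by
    intro P y
    rw [← Set.ncard_coe_finset]
    congr 1
    ext e
    simp [and_comm]
  have htot : ∀ P : α → Prop, (Finset.univ.filter P).card
      = ∑ y ∈ Finset.univ.image src, {e | src e = y ∧ P e}.ncard := by
    intro P
    rw [Finset.card_eq_sum_card_fiberwise (f := src) (t := Finset.univ.image src)]
    · exact Finset.sum_congr rfl fun y _ => (key P y).symm
    · intro e _
      simp
  have hcard : (Finset.univ.filter (fun e => ι e ∈ S)).card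
      = (Finset.univ.filter (fun e => e ∈ S)).card := by
    refine Finset.card_bij' (fun e _ => ι e) (fun e _ => ι e) ?_ ?_ ?_ ?_
    · intro e he
      simpa using he
    · intro e he
      simpa [hι] using he
    · intro e _
      exact hι e
    · intro e _
      exact hι e
  have hsum : ∑ y ∈ Finset.univ.image src, {e | src e = y ∧ ι e ∈ S}.ncard
      = ∑ y ∈ Finset.univ.image src, {e | src e = y ∧ e ∈ S}.ncard := by
    rw [← htot (fun e => ι e ∈ S), ← htot (fun e => e ∈ S), hcard]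
  by_cases hx : x ∈ Finset.univ.image src
  · exact (Finset.sum_eq_sum_iff_of_le (fun y _ => hle y)).1 hsum x hx
  · have he : ∀ P : α → Prop, {e | src e = x ∧ P e} = ∅ := by
      intro P
      ext e
      simp only [Set.mem_setOf_eq, Set.mem_empty_iff_false, iff_false, not_and]
      intro hs
      exact absurd (Finset.mem_image.2 ⟨e, Finset.mem_univ e, hs⟩) hx
    rw [he (fun e => ι e ∈ S), he (fun e => e ∈ S)]

end Pool.Agent.Lib.MP_9c5086_lc
end

section

/-!
The local inequality for closed sets of nodes.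
-/

namespace Pool.Agent.Lib.MP_9c5086_lc

namespace Graph

variable {V E I : Type} {H : Graph V E} {t : V → I}

namespace Thin

variable {Θ : Thin H t} {K : Type} [Fintype K]

/-- The nodes of the closed set arriving at `x` (inverted). -/
private def aA (S : Set (Node Θ K)) (x : K → V) : Set (Node Θ K) := {e | e.srcs = x ∧ e.inv ∈ S}

/-- The nodes of the closed set leaving `x`. -/
private def bB (S : Set (Node Θ K)) (x : K → V) : Set (Node Θ K) := {e | e.srcs = x ∧ e ∈ S}

private theorem ta_inj : Function.Injective (Node.ta : Node Θ K → Node Θ K) := fun a b h => by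
  rw [← Node.ta_ta a, h, Node.ta_ta]

private theorem bi_src {e : Node Θ K} {x : K → V} (he : e.srcs = x) (k : K) :
    (e.d k).src = x k := congrFun he k

private theorem bi_dbl {e : Node Θ K} {k₀ : K}
    (h : Θ.dbl (t (e.d k₀).src) (t (e.d k₀).tgt)) (k : K) :
    Θ.dbl (t (e.d k).src) (t (e.d k).tgt) := by
  rw [e.src_ty k k₀, e.tgt_ty k k₀]
  exact h

private theorem bi_ta {S : Set (Node Θ K)} (hS : Closed S) {x : K → V} {e : Node Θ K}
    (he : e ∈ aA S x) (h : ∀ k, Θ.dbl (t (e.d k).src) (t (e.d k).tgt)) : e.ta ∈ bB S x :=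
  ⟨(Node.srcs_ta e).trans he.1, hS _ he.2 _ (step_inv_ta e h)⟩

private theorem bi_turn {S : Set (Node Θ K)} (hS : Closed S) {x : K → V}
    (hx : Function.Injective x) {e f : Node Θ K} (he : e ∈ aA S x) (hf : f.srcs = x) {k₀ : K}
    (h : t (f.d k₀).tgt ≠ t (e.d k₀).tgt) : f ∈ bB S x := by
  refine ⟨hf, hS _ he.2 _ (Or.inr ⟨fun k => ?_, ?_, fun k => ?_⟩)⟩
  · have h1 : (e.inv.d k).tgt = (e.d k).src := Dart.tgt_inv _
    rw [h1, bi_src he.1, bi_src hf]
  · have h1 : (fun k => (e.inv.d k).tgt) = x := by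
      funext k
      have h1 : (e.inv.d k).tgt = (e.d k).src := Dart.tgt_inv _
      rw [h1, bi_src he.1]
    rw [h1]
    exact hx
  · have h1 : (e.inv.d k).src = (e.d k).tgt := Dart.src_inv _
    rw [h1, f.tgt_ty k k₀, e.tgt_ty k k₀]
    exact h

/-- The inequality and the possible cases of equality. -/
private theorem bi_key [Finite E] (hK : Fintype.card K ≤ 3) (S : Set (Node Θ K)) (hS : Closed S)
    (x : K → V) (k₀ : K) : (aA S x).ncard ≤ (bB S x).ncard ∧
      ((aA S x).ncard = (bB S x).ncard →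
        (aA S x = ∅ ∧ bB S x = ∅) ∨ (∀ e : Node Θ K, e.srcs = x → e ∈ aA S x ∧ e ∈ bB S x) ∨
        (bB S x = Node.ta '' aA S x ∧ (¬ Function.Injective x ∨
          ∀ e f : Node Θ K, e.srcs = x → f.srcs = x → t (e.d k₀).tgt = t (f.d k₀).tgt)) ∨
        (Function.Injective x ∧ ∃ e f : Node Θ K, aA S x = {e} ∧ bB S x = {f} ∧
          t (e.d k₀).tgt ≠ t (f.d k₀).tgt ∧ (∀ g : Node Θ K, g.srcs = x → g = e ∨ g = f) ∧
          ¬ Θ.dbl (t (e.d k₀).src) (t (e.d k₀).tgt) ∧
          ¬ Θ.dbl (t (f.d k₀).src) (t (f.d k₀).tgt))) := by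
  classical
  have : Nonempty K := ⟨k₀⟩
  have hfin : ∀ T : Set (Node Θ K), T.Finite := fun T => Set.toFinite T
  by_cases hx : Function.Injective x
  · by_cases hA : aA S x = ∅
    · rw [hA, Set.ncard_empty]
      refine ⟨Nat.zero_le _, fun h => Or.inl ⟨rfl, ?_⟩⟩
      exact (Set.ncard_eq_zero (hfin _)).1 h.symm
    · obtain ⟨e, he⟩ := Set.nonempty_iff_ne_empty.2 hA
      by_cases h2 : ∃ e' ∈ aA S x, t (e'.d k₀).tgt ≠ t (e.d k₀).tgt
      · obtain ⟨e', he', hee⟩ := h2
        have hall : ∀ f : Node Θ K, f.srcs = x → f ∈ bB S x := by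
          intro f hf
          by_cases h3 : t (f.d k₀).tgt = t (e.d k₀).tgt
          · refine bi_turn hS hx he' hf (k₀ := k₀) ?_
            rw [h3]
            exact hee.symm
          · exact bi_turn hS hx he hf h3
        have hsub : aA S x ⊆ bB S x := fun f hf => hall f hf.1
        refine ⟨Set.ncard_le_ncard hsub (hfin _), fun h => Or.inr (Or.inl fun f hf => ?_)⟩
        have h4 : aA S x = bB S x := Set.eq_of_subset_of_ncard_le hsub h.ge (hfin _)
        exact ⟨h4 ▸ hall f hf, hall f hf⟩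
      · push Not at h2
        by_cases hd : Θ.dbl (t (e.d k₀).src) (t (e.d k₀).tgt)
        · have hsub : Node.ta '' aA S x ⊆ bB S x := by
            rintro _ ⟨f, hf, rfl⟩
            refine bi_ta hS hf (bi_dbl (k₀ := k₀) ?_)
            rw [h2 f hf, bi_src hf.1, ← bi_src he.1]
            exact hd
          have hc : (Node.ta '' aA S x).ncard = (aA S x).ncard :=
            Set.ncard_image_of_injective _ ta_inj
          refine ⟨hc ▸ Set.ncard_le_ncard hsub (hfin _), fun h => Or.inr (Or.inr (Or.inl ?_))⟩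
          have h4 : Node.ta '' aA S x = bB S x :=
            Set.eq_of_subset_of_ncard_le hsub (by rw [hc, h]) (hfin _)
          have h5 : ∀ g : Node Θ K, g.srcs = x → t (g.d k₀).tgt = t (e.d k₀).tgt := by
            intro g hg
            by_contra hne
            have h6 : g ∈ bB S x := bi_turn hS hx he hg hne
            rw [← h4] at h6
            obtain ⟨f, hf, rfl⟩ := h6
            apply hne
            have h7 : t (f.ta.d k₀).tgt = t (f.d k₀).tgt := Θ.tau_ty _ (f.mem k₀)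
            rw [h7]
            exact h2 f hf
          exact ⟨h4.symm, Or.inr fun f g hf hg => (h5 f hf).trans (h5 g hg).symm⟩
        · have hnd : ∀ k, ¬ Θ.dbl (t (e.d k).src) (t (e.d k).tgt) := by
            intro k h
            exact hd (bi_dbl h k₀)
          have huniq : ∀ g : Node Θ K, g.srcs = x → t (g.d k₀).tgt = t (e.d k₀).tgt → g = e := by
            intro g hg hge
            refine unique_above e g (hg.trans he.1.symm) (fun k => ?_) hnd
            rw [g.tgt_ty k k₀, e.tgt_ty k k₀]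
            exact hge
          have hA1 : aA S x = {e} := by
            ext g
            rw [Set.mem_singleton_iff]
            constructor
            · intro hg
              exact huniq g hg.1 (h2 g hg)
            · rintro rfl
              exact he
          obtain ⟨d', hd', hsrc, htgt⟩ := (Θ.deg _ (e.mem k₀)).resolve_left hd
          have hinj : Function.Injective e.srcs := by
            rw [he.1]
            exact hx
          obtain ⟨f, hf1, hf2, hf3⟩ := exists_above hK e hinj d' hd' k₀ (by rw [hsrc])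
          have hf : f.srcs = x := hf1.trans he.1
          have hfe : t (f.d k₀).tgt ≠ t (e.d k₀).tgt := by
            rw [hf2 k₀]
            exact htgt
          have hfB : f ∈ bB S x := bi_turn hS hx he hf hfe
          rw [hA1, Set.ncard_singleton]
          have hpos : 0 < (bB S x).ncard := (Set.ncard_pos (hfin _)).2 ⟨f, hfB⟩
          refine ⟨hpos, fun h => Or.inr (Or.inr (Or.inr ⟨hx, e, f, rfl, ?_, hfe.symm, ?_, hd, ?_⟩))⟩
          · obtain ⟨g, hg⟩ := Set.ncard_eq_one.1 h.symm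
            rw [hg] at hfB ⊢
            rw [Set.mem_singleton_iff.1 hfB]
          · obtain ⟨g, hg⟩ := Set.ncard_eq_one.1 h.symm
            intro b hb
            by_cases hbe : t (b.d k₀).tgt = t (e.d k₀).tgt
            · exact Or.inl (huniq b hb hbe)
            · right
              have hbB : b ∈ bB S x := bi_turn hS hx he hb hbe
              rw [hg] at hbB hfB
              rw [Set.mem_singleton_iff.1 hbB, Set.mem_singleton_iff.1 hfB]
          · intro hdf
            obtain ⟨g, hg⟩ := Set.ncard_eq_one.1 h.symm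
            have h8 : Θ.dbl (t d'.src) (t d'.tgt) := by
              rw [hf2 k₀] at hdf
              have h9 : t (f.d k₀).src = t d'.src := by
                rw [bi_src hf, ← bi_src he.1, hsrc]
              rw [h9] at hdf
              exact hdf
            have h10 : f.ta ∈ bB S x := by
              refine bi_turn hS hx he ((Node.srcs_ta f).trans hf) (k₀ := k₀) ?_
              have h7 : t (f.ta.d k₀).tgt = t (f.d k₀).tgt := Θ.tau_ty _ (f.mem k₀)
              rw [h7]
              exact hfe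
            rw [hg] at h10 hfB
            exact hf3 h8 ((Set.mem_singleton_iff.1 h10).trans (Set.mem_singleton_iff.1 hfB).symm)
  · have hsub : Node.ta '' aA S x ⊆ bB S x := by
      rintro _ ⟨f, hf, rfl⟩
      refine bi_ta hS hf fun k => dbl_of_not_injective f ?_ k
      rw [hf.1]
      exact hx
    have hc : (Node.ta '' aA S x).ncard = (aA S x).ncard :=
      Set.ncard_image_of_injective _ ta_inj
    refine ⟨hc ▸ Set.ncard_le_ncard hsub (hfin _), fun h => Or.inr (Or.inr (Or.inl ?_))⟩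
    have h4 : Node.ta '' aA S x = bB S x :=
      Set.eq_of_subset_of_ncard_le hsub (by rw [hc, h]) (hfin _)
    exact ⟨h4.symm, Or.inl hx⟩

/-- The local inequality: at most as many nodes of a closed set arrive at `x` as leave `x`. -/
theorem local_le [Finite E] [Nonempty K] (hK : Fintype.card K ≤ 3) (S : Set (Node Θ K)) (hS : Closed S)
    (x : K → V) :
    {e : Node Θ K | e.srcs = x ∧ e.inv ∈ S}.ncard ≤ {e : Node Θ K | e.srcs = x ∧ e ∈ S}.ncard := by
  obtain ⟨k₀⟩ := ‹Nonempty K›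
  exact (bi_key hK S hS x k₀).1

/-- In the case of equality, the closed set is closed under reversed steps at `x`. -/
theorem local_back [Finite E] [Nonempty K] (hK : Fintype.card K ≤ 3) (S : Set (Node Θ K)) (hS : Closed S)
    (x : K → V) (he : {e : Node Θ K | e.srcs = x ∧ e.inv ∈ S}.ncard =
      {e : Node Θ K | e.srcs = x ∧ e ∈ S}.ncard) (a b : Node Θ K) (hb : b.srcs = x)
    (hab : Step a b) (hbS : b ∈ S) : a ∈ S := by
  obtain ⟨k₀⟩ := ‹Nonempty K›
  have hbB : b ∈ bB S x := ⟨hb, hbS⟩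
  have hsrc : a.inv.srcs = x := by
    rw [← hb]
    funext k
    have h1 : (a.inv.d k).src = (a.d k).tgt := Dart.src_inv _
    show (a.inv.d k).src = (b.d k).src
    rw [h1]
    rcases hab with h | h
    · rw [h.1 k, Θ.src_phi (a.mem k)]
    · exact (h.1 k).symm
  have hinvA : a.inv ∈ aA S x → a ∈ S := by
    intro h
    have h2 := h.2
    rwa [Node.inv_inv] at h2
  rcases (bi_key hK S hS x k₀).2 he with h | h | h | h
  · rw [h.2] at hbB
    exact absurd hbB (Set.notMem_empty _)
  · exact hinvA (h a.inv hsrc).1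
  · obtain ⟨h1, h2⟩ := h
    rcases hab with h3 | h3
    · apply hinvA
      rw [h1] at hbB
      obtain ⟨e, heA, heb⟩ := hbB
      have h4 : e = a.inv := by
        rw [← Node.ta_ta e, heb]
        refine Node.ext fun k => ?_
        show Θ.tau (b.d k) = (a.d k).inv
        rw [h3.1 k]
        exact Θ.tau_tau _ (Θ.inv_mem _ (a.mem k))
      rwa [← h4]
    · exfalso
      have hx : Function.Injective x := by
        have h4 : x = fun k => (a.d k).tgt := by
          rw [← hb]
          funext k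
          exact h3.1 k
        rw [h4]
        exact h3.2.1
      have h5 := h2.resolve_left (fun h => h hx) a.inv b hsrc hb
      have h6 : (a.inv.d k₀).tgt = (a.d k₀).src := Dart.tgt_inv _
      rw [h6] at h5
      exact h3.2.2 k₀ h5.symm
  · obtain ⟨hx, e, f, hA, hB, hef, hall, hde, hdf⟩ := h
    rw [hB] at hbB
    have hbf : b = f := hbB
    rcases hab with h3 | h3
    · exfalso
      apply hdf
      have h4 := h3.2 k₀
      rw [← hbf, h3.1 k₀, Θ.src_phi (a.mem k₀), Θ.ty_phi (a.mem k₀)]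
      exact h4
    · rcases hall a.inv hsrc with h4 | h4
      · apply hinvA
        rw [hA, h4]
        rfl
      · exfalso
        have h6 : (a.inv.d k₀).tgt = (a.d k₀).src := Dart.tgt_inv _
        have h7 := h3.2.2 k₀
        rw [← h6, h4, hbf] at h7
        exact h7 rfl

/-- In the case of equality, all or none of the nodes leaving or arriving at `x` are in the closed
set, if the vertices are different and the block is rich enough. -/
theorem local_uturn [Finite E] [Nonempty K] (hK : Fintype.card K ≤ 3) (S : Set (Node Θ K)) (hS : Closed S)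
    (x : K → V) (hx : Function.Injective x) (k₀ : K) (hU : Θ.UOk (t (x k₀)))
    (he : {e : Node Θ K | e.srcs = x ∧ e.inv ∈ S}.ncard =
      {e : Node Θ K | e.srcs = x ∧ e ∈ S}.ncard) (a b : Node Θ K) (ha : a.srcs = x)
    (hb : b.srcs = x) : (a ∈ S ↔ b ∈ S) ∧ (a ∈ S ↔ b.inv ∈ S) := by
  have hinj : Function.Injective a.srcs := by
    rw [ha]
    exact hx
  have hblk : t (x k₀) = t (a.d k₀).src := by rw [bi_src ha]
  obtain ⟨d, hd, d', hd', hds, hdd, htt, hor⟩ := hU
  rw [hblk] at hds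
  obtain ⟨b1, hb1, hb1t, hb1d⟩ := exists_above hK a hinj d hd k₀ hds
  obtain ⟨b2, hb2, hb2t, -⟩ := exists_above hK a hinj d' hd' k₀ (by rw [hdd]; exact hds)
  have h12 : t (b2.d k₀).tgt ≠ t (b1.d k₀).tgt := by
    rw [hb1t, hb2t]
    exact htt
  rcases (bi_key hK S hS x k₀).2 he with h | h | h | h
  · have h1 : ∀ e : Node Θ K, e.srcs = x → e ∉ S := by
      intro e hex heS
      have : e ∈ bB S x := ⟨hex, heS⟩
      rw [h.2] at this
      exact this
    have h2 : b.inv ∉ S := by
      intro hbS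
      have : b ∈ aA S x := ⟨hb, hbS⟩
      rw [h.1] at this
      exact this
    exact ⟨iff_of_false (h1 a ha) (h1 b hb), iff_of_false (h1 a ha) h2⟩
  · exact ⟨iff_of_true (h a ha).2.2 (h b hb).2.2, iff_of_true (h a ha).2.2 (h b hb).1.2⟩
  · exfalso
    exact h12 (h.2.resolve_left (fun h => h hx) b2 b1 (hb2.trans ha) (hb1.trans ha))
  · exfalso
    obtain ⟨-, e, f, hA, hB, hef, hall, hde, hdf⟩ := h
    have hd1 : ¬ Θ.dbl (t (b1.d k₀).src) (t (b1.d k₀).tgt) := by
      rcases hall b1 (hb1.trans ha) with h4 | h4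
      · rw [h4]
        exact hde
      · rw [h4]
        exact hdf
    rcases hor with h3 | h3
    · apply hd1
      rw [hb1t, bi_src (hb1.trans ha), hblk, ← hds]
      exact h3
    · obtain ⟨d'', hd'', hdd'', htt1, htt2⟩ := h3
      obtain ⟨b3, hb3, hb3t, -⟩ := exists_above hK a hinj d'' hd'' k₀ (by rw [hdd'']; exact hds)
      have h13 : t (b3.d k₀).tgt ≠ t (b1.d k₀).tgt := by
        rw [hb1t, hb3t]
        exact htt1
      have h23 : t (b3.d k₀).tgt ≠ t (b2.d k₀).tgt := by
        rw [hb2t, hb3t]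
        exact htt2
      rcases hall b1 (hb1.trans ha) with h4 | h4 <;> rcases hall b2 (hb2.trans ha) with h5 | h5 <;>
        rcases hall b3 (hb3.trans ha) with h6 | h6 <;> subst h4
      · exact h12 (by rw [h5])
      · exact h12 (by rw [h5])
      · exact h13 (by rw [h6])
      · exact h23 (by rw [h5, h6])
      · exact h23 (by rw [h5, h6])
      · exact h13 (by rw [h6])
      · exact h12 (by rw [h5])
      · exact h12 (by rw [h5])

end Thin

end Graph

end Pool.Agent.Lib.MP_9c5086_lc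
end

section

/-!
Recurrence and U-turns.
-/

namespace Pool.Agent.Lib.MP_9c5086_lc

namespace Graph

variable {V E I : Type} {H : Graph V E} {t : V → I}

namespace Thin

variable {Θ : Thin H t} {K : Type} [Fintype K]

private theorem back_eq [Finite E] [Nonempty K] (hK : Fintype.card K ≤ 3) (S : Set (Node Θ K))
    (hS : Closed S) (x : K → V) : {e : Node Θ K | e.srcs = x ∧ e.inv ∈ S}.ncard =
      {e : Node Θ K | e.srcs = x ∧ e ∈ S}.ncard :=
  count_eq Node.srcs Node.tgts Node.inv Node.inv_inv Node.srcs_inv S (local_le hK S hS) x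

/-- A set closed under steps is closed under reversed steps. -/
theorem closed_back [Finite E] [Nonempty K] (hK : Fintype.card K ≤ 3) (S : Set (Node Θ K))
    (hS : Closed S) (a b : Node Θ K) (hab : Step a b) (hb : b ∈ S) : a ∈ S :=
  local_back hK S hS b.srcs (back_eq hK S hS b.srcs) a b rfl hab hb

/-- U-turns. -/
theorem uturn [Finite E] [Nonempty K] (hK : Fintype.card K ≤ 3) (S : Set (Node Θ K))
    (hS : Closed S) (a b : Node Θ K) (hab : b.srcs = a.srcs) (ha : Function.Injective a.srcs)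
    (k₀ : K) (hU : Θ.UOk (t (a.d k₀).src)) : (a ∈ S ↔ b ∈ S) ∧ (a ∈ S ↔ b.inv ∈ S) :=
  local_uturn hK S hS a.srcs ha k₀ hU (back_eq hK S hS a.srcs) a b rfl hab

/-- Reachability is symmetric. -/
theorem Reach.symm [Finite E] [Nonempty K] (hK : Fintype.card K ≤ 3) {a b : Node Θ K}
    (h : Reach a b) : Reach b a := by
  have hS : Closed {c : Node Θ K | Reach b c} := fun c hc c' hcc' =>
    Relation.ReflTransGen.tail hc hcc'
  refine Relation.ReflTransGen.head_induction_on (motive := fun c _ => Reach b c) h ?_ ?_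
  · exact Relation.ReflTransGen.refl
  · intro c c' hcc' _ hc'
    exact closed_back hK {c : Node Θ K | Reach b c} hS c c' hcc' hc'

/-- Reachability is reversed by inversion. -/
theorem Reach.inv {a b : Node Θ K} (h : Reach a b) : Reach b.inv a.inv := by
  induction h with
  | refl => exact Relation.ReflTransGen.refl
  | tail _ hbc ih => exact Relation.ReflTransGen.head hbc.inv ih

/-- U-turns in terms of reachability. -/
theorem reach_uturn [Finite E] [Nonempty K] (hK : Fintype.card K ≤ 3) (a b : Node Θ K)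
    (hab : b.srcs = a.srcs) (ha : Function.Injective a.srcs) (k₀ : K)
    (hU : Θ.UOk (t (a.d k₀).src)) : Reach a b ∧ Reach a b.inv := by
  have hS : Closed {c : Node Θ K | Reach a c} := fun c hc c' hcc' =>
    Relation.ReflTransGen.tail hc hcc'
  have h := uturn hK {c : Node Θ K | Reach a c} hS a b hab ha k₀ hU
  have ha' : a ∈ {c : Node Θ K | Reach a c} := Relation.ReflTransGen.refl
  exact ⟨h.1.mp ha', h.2.mp ha'⟩

end Thin

end Graph

end Pool.Agent.Lib.MP_9c5086_lc
end
end

section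

section

/-!
Solutions of a glued gadget: restriction to the nodes.
-/

namespace Pool.Agent.Lib.MP_9c5086_lc

namespace Graph

variable {V E I : Type} {H : Graph V E} {t : V → I} {Col : Type} {S : Setup H t Col}

private theorem glmp_ncard_sum {α β : Type} [Finite α] [Finite β] (A : Set α) (B : Set β) :
    (Sum.inl '' A ∪ Sum.inr '' B : Set (α ⊕ β)).ncard = A.ncard + B.ncard := by
  rw [Set.ncard_union_eq ?_ (Set.toFinite _) (Set.toFinite _),
    Set.ncard_image_of_injective _ Sum.inl_injective,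
    Set.ncard_image_of_injective _ Sum.inr_injective]
  rw [Set.disjoint_left]
  rintro _ ⟨a, _, rfl⟩ ⟨b, _, h⟩
  exact Sum.inr_ne_inl h

/-- A solution of the glued gadget restricts to solutions of the nodes. -/
theorem Gadget.glue_sat_mp {N : Type} [Finite N] {Q : N → Type} [∀ n, Finite (Q n)]
    {sn : ∀ n, Q n → Bool} {W P : Type} [Finite W] [Finite P]
    {sg : P → Bool} (g : ∀ n, Gadget S (Q n) (sn n)) (G : GlueData sn W P sg) (c : P → Col)
    (h : (Gadget.glue g G).Sat c) : ∃ cn : ∀ n, Q n → Col, (∀ n, (g n).Sat (cn n)) ∧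
      (∀ w, cn _ (G.wp w).2 = cn _ (G.wn w).2) ∧ ∀ p, cn _ (G.ext p).2 = c p := by
  classical
  obtain ⟨fv, fe, hs⟩ := h
  have hle : ∀ w : W, ∃ x : Col, x ∈ (g (G.wp w).1).LP (G.wp w).2 ∧
      x ∈ (g (G.wn w).1).LP (G.wn w).2 ∧ S.ec x = fe (Sum.inr (w, true)) := by
    intro w
    obtain ⟨x, h1, h2, h3⟩ := hs.le (Sum.inr (w, true))
    exact ⟨x, h1, h2, h3⟩
  choose cw hcw1 hcw2 hcw3 using hle
  have hcw4 : ∀ w : W, S.ec (cw w) = fe (Sum.inr (w, false)) := by
    intro w
    rw [hcw3]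
    exact hs.rev (Sum.inr (w, false))
  let e : W ⊕ (W ⊕ P) ≃ Σ n, Q n := Equiv.ofBijective _ ⟨G.inj, G.surj⟩
  let val : (Σ n, Q n) → Col := fun s => Sum.elim cw (Sum.elim cw c) (e.symm s)
  have hval : ∀ i, val (e i) = Sum.elim cw (Sum.elim cw c) i := fun i => by
    show Sum.elim cw (Sum.elim cw c) (e.symm (e i)) = _
    rw [Equiv.symm_apply_apply]
  have ewp : ∀ w, e (Sum.inl w) = G.wp w := fun w => rfl
  have ewn : ∀ w, e (Sum.inr (Sum.inl w)) = G.wn w := fun w => rfl
  have eext : ∀ p, e (Sum.inr (Sum.inr p)) = G.ext p := fun p => rfl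
  have vwp : ∀ w, val (G.wp w) = cw w := fun w => hval (Sum.inl w)
  have vwn : ∀ w, val (G.wn w) = cw w := fun w => hval (Sum.inr (Sum.inl w))
  have vext : ∀ p, val (G.ext p) = c p := fun p => hval (Sum.inr (Sum.inr p))
  have hx : ∀ w, fv ⟨(G.wp w).1, (g _).pu (G.wp w).2⟩ = S.x := by
    intro w
    have h1 := hs.lv ⟨(G.wp w).1, (g _).pu (G.wp w).2⟩
    exact ((g _).ty_pos (G.wp w).2 (G.swp w)).2.2 h1
  refine ⟨fun n q => val ⟨n, q⟩, fun n => ?_, fun w => ?_, fun p => ?_⟩
  · refine ⟨fun u => fv ⟨n, u⟩, fun d => fe (Sum.inl ⟨n, d⟩), ?_⟩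
    have hneg : ∀ s : Σ n, Q n, sn s.1 s.2 = false →
        H.Joins (S.ec (val s)) (fv ⟨s.1, (g s.1).pu s.2⟩) S.x := by
      intro s hsn
      obtain ⟨i, rfl⟩ := e.surjective s
      rcases i with w | w | p
      · have h1 : sn (G.wp w).1 (G.wp w).2 = false := hsn
        rw [G.swp w] at h1
        exact absurd h1 (by simp)
      · have h1 := hs.joins (Sum.inr (w, false))
        have h2 : H.Joins (S.ec (cw w)) (fv ⟨(G.wn w).1, (g _).pu (G.wn w).2⟩) S.x := by
          rw [hcw4, ← hx w]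
          exact h1
        show H.Joins (S.ec (val (G.wn w))) (fv ⟨(G.wn w).1, (g _).pu (G.wn w).2⟩) S.x
        rw [vwn]
        exact h2
      · show H.Joins (S.ec (val (G.ext p))) (fv ⟨(G.ext p).1, (g _).pu (G.ext p).2⟩) S.x
        rw [vext]
        refine hs.neg p ?_
        rw [← G.sext p]
        exact hsn
    have hlp : ∀ s : Σ n, Q n, val s ∈ (g s.1).LP s.2 := by
      intro s
      obtain ⟨i, rfl⟩ := e.surjective s
      rcases i with w | w | p
      · show val (G.wp w) ∈ (g _).LP (G.wp w).2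
        rw [vwp]
        exact hcw1 w
      · show val (G.wn w) ∈ (g _).LP (G.wn w).2
        rw [vwn]
        exact hcw2 w
      · show val (G.ext p) ∈ (g _).LP (G.ext p).2
        rw [vext]
        exact hs.lp p
    refine
      { rev := fun d => hs.rev (Sum.inl ⟨n, d⟩)
        ty := fun u => hs.ty ⟨n, u⟩
        joins := fun d => hs.joins (Sum.inl ⟨n, d⟩)
        neg := fun q hq => hneg ⟨n, q⟩ hq
        lv := fun u => hs.lv ⟨n, u⟩
        le := fun d => hs.le (Sum.inl ⟨n, d⟩)
        lp := fun q => hlp ⟨n, q⟩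
        count := ?_ }
    intro u b
    refine le_trans ?_ (hs.count ⟨n, u⟩ b)
    have := fun n => (g n).finU
    have := fun n => (g n).finD
    let k : W ⊕ (W ⊕ P) → ((Σ n, (g n).D) ⊕ (W × Bool)) ⊕ P :=
      Sum.elim (fun w => Sum.inl (Sum.inr (w, true)))
        (Sum.elim (fun w => Sum.inl (Sum.inr (w, false))) Sum.inr)
    have hk : Function.Injective k := by
      rintro (w | w | p) (w' | w' | p') h
      · have h1 := Prod.mk.inj (Sum.inr_injective (Sum.inl_injective h))
        rw [h1.1]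
      · have h1 := Prod.mk.inj (Sum.inr_injective (Sum.inl_injective h))
        exact absurd h1.2 (by simp)
      · exact absurd h Sum.inl_ne_inr
      · have h1 := Prod.mk.inj (Sum.inr_injective (Sum.inl_injective h))
        exact absurd h1.2 (by simp)
      · have h1 := Prod.mk.inj (Sum.inr_injective (Sum.inl_injective h))
        rw [h1.1]
      · exact absurd h Sum.inl_ne_inr
      · exact absurd h Sum.inr_ne_inl
      · exact absurd h Sum.inr_ne_inl
      · rw [Sum.inr_injective h]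
    let F : (g n).D ⊕ Q n → ((Σ n, (g n).D) ⊕ (W × Bool)) ⊕ P :=
      Sum.elim (fun d => Sum.inl (Sum.inl ⟨n, d⟩)) (fun q => k (e.symm ⟨n, q⟩))
    have hkn : ∀ i (d : Σ n, (g n).D), k i ≠ Sum.inl (Sum.inl d) := by
      rintro (w | w | p) d h
      · exact absurd (Sum.inl_injective h) Sum.inr_ne_inl
      · exact absurd (Sum.inl_injective h) Sum.inr_ne_inl
      · exact absurd h Sum.inr_ne_inl
    have hF : Function.Injective F := by
      rintro (d | q) (d' | q') h
      · have h1 := Sum.inl_injective (Sum.inl_injective h)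
        have h2 := eq_of_heq (Sigma.mk.inj_iff.1 h1).2
        rw [h2]
      · exact absurd h.symm (hkn _ _)
      · exact absurd h (hkn _ _)
      · have h1 : (⟨n, q⟩ : Σ n, Q n) = ⟨n, q'⟩ := e.symm.injective (hk h)
        have h2 := eq_of_heq (Sigma.mk.inj_iff.1 h1).2
        rw [h2]
    -- the images
    have hA := glmp_ncard_sum {d | (g n).pos d = u ∧ fe (Sum.inl ⟨n, d⟩) = b}
      {q | (g n).pu q = u ∧ S.ec (val ⟨n, q⟩) = b}
    have hB := glmp_ncard_sum (α := (Σ n, (g n).D) ⊕ (W × Bool)) (β := P)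
      {d | (Gadget.glue g G).pos d = ⟨n, u⟩ ∧ fe d = b}
      {p | (Gadget.glue g G).pu p = ⟨n, u⟩ ∧ S.ec (c p) = b}
    refine (hA.symm.le.trans ?_).trans hB.le
    refine Set.ncard_le_ncard_of_injOn F ?_ (hF.injOn) (Set.toFinite _)
    have hport : ∀ i : W ⊕ (W ⊕ P), (⟨(e i).1, (g (e i).1).pu (e i).2⟩ : Σ n, (g n).U) = ⟨n, u⟩ →
        S.ec (val (e i)) = b → k i ∈ (Sum.inl '' {d | (Gadget.glue g G).pos d = ⟨n, u⟩ ∧ fe d = b} ∪
          Sum.inr '' {p | (Gadget.glue g G).pu p = ⟨n, u⟩ ∧ S.ec (c p) = b} :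
            Set (((Σ n, (g n).D) ⊕ (W × Bool)) ⊕ P)) := by
      rintro (w | w | p) h1 h2
      · left
        refine ⟨Sum.inr (w, true), ⟨h1, ?_⟩, rfl⟩
        rw [← hcw3, ← vwp]
        exact h2
      · left
        refine ⟨Sum.inr (w, false), ⟨h1, ?_⟩, rfl⟩
        rw [← hcw4, ← vwn]
        exact h2
      · right
        refine ⟨p, ⟨h1, ?_⟩, rfl⟩
        rw [← vext]
        exact h2
    rintro _ (⟨d, ⟨h1, h2⟩, rfl⟩ | ⟨q, ⟨h1, h2⟩, rfl⟩)
    · left
      refine ⟨Sum.inl ⟨n, d⟩, ⟨?_, h2⟩, rfl⟩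
      show (⟨n, (g n).pos d⟩ : Σ n, (g n).U) = ⟨n, u⟩
      rw [h1]
    · have h3 := hport (e.symm ⟨n, q⟩)
      rw [Equiv.apply_symm_apply] at h3
      refine h3 ?_ h2
      show (⟨n, (g n).pu q⟩ : Σ n, (g n).U) = ⟨n, u⟩
      rw [h1]
  · exact (vwp w).trans (vwn w).symm
  · exact vext p

end Graph

end Pool.Agent.Lib.MP_9c5086_lc
end

section

/-!
Solutions of a glued gadget: composition.
-/

namespace Pool.Agent.Lib.MP_9c5086_lc

namespace Graph

variable {V E I : Type} {H : Graph V E} {t : V → I} {Col : Type} {S : Setup H t Col}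

private def gmJ {N : Type} {D Q : N → Type} (q : Σ n, Q n) : Σ n, D n ⊕ Q n := ⟨q.1, Sum.inr q.2⟩

private def gmJ' {N : Type} {D Q : N → Type} (d : Σ n, D n) : Σ n, D n ⊕ Q n := ⟨d.1, Sum.inl d.2⟩

private theorem gmJ_inj {N : Type} {D Q : N → Type} :
    Function.Injective (gmJ : (Σ n, Q n) → Σ n, D n ⊕ Q n) := by
  rintro ⟨n, q⟩ ⟨n', q'⟩ h
  unfold gmJ at h
  rw [Sigma.mk.injEq] at h
  obtain ⟨h1, h2⟩ := h
  change n = n' at h1
  subst h1
  have h3 := eq_of_heq h2
  change (Sum.inr q : D n ⊕ Q n) = Sum.inr q' at h3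
  rw [Sum.inr_injective h3]

private theorem gmJ'_inj {N : Type} {D Q : N → Type} :
    Function.Injective (gmJ' : (Σ n, D n) → Σ n, D n ⊕ Q n) := by
  rintro ⟨n, q⟩ ⟨n', q'⟩ h
  unfold gmJ' at h
  rw [Sigma.mk.injEq] at h
  obtain ⟨h1, h2⟩ := h
  change n = n' at h1
  subst h1
  have h3 := eq_of_heq h2
  change (Sum.inl q : D n ⊕ Q n) = Sum.inl q' at h3
  rw [Sum.inl_injective h3]

private theorem gmJ_ne {N : Type} {D Q : N → Type} (d : Σ n, D n) (q : Σ n, Q n) :
    (gmJ' d : Σ n, D n ⊕ Q n) ≠ gmJ q := by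
  obtain ⟨n, d⟩ := d
  obtain ⟨n', q⟩ := q
  intro h
  unfold gmJ gmJ' at h
  rw [Sigma.mk.injEq] at h
  obtain ⟨h1, h2⟩ := h
  change n = n' at h1
  subst h1
  have h3 := eq_of_heq h2
  change (Sum.inl d : D n ⊕ Q n) = Sum.inr q at h3
  cases h3

private def gmK {N : Type} {Q : N → Type} {sn : ∀ n, Q n → Bool} {W P : Type}
    {sg : P → Bool} (G : GlueData sn W P sg) : (W × Bool) ⊕ P → Σ n, Q n
  | Sum.inl (w, true) => G.wp w
  | Sum.inl (w, false) => G.wn w
  | Sum.inr p => G.ext p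

private def gmr {W P : Type} : (W × Bool) ⊕ P → W ⊕ (W ⊕ P)
  | Sum.inl (w, true) => Sum.inl w
  | Sum.inl (w, false) => Sum.inr (Sum.inl w)
  | Sum.inr p => Sum.inr (Sum.inr p)

private theorem gmr_inj {W P : Type} : Function.Injective (gmr : (W × Bool) ⊕ P → W ⊕ (W ⊕ P)) := by
  rintro (⟨w, b⟩ | p) (⟨w', b'⟩ | p') h
  · cases b <;> cases b' <;> simp [gmr] at h <;> rw [h]
  · cases b <;> simp [gmr] at h
  · cases b' <;> simp [gmr] at h
  · simp [gmr] at h
    rw [h]

private theorem gmK_inj {N : Type} {Q : N → Type} {sn : ∀ n, Q n → Bool} {W P : Type}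
    {sg : P → Bool} (G : GlueData sn W P sg) : Function.Injective (gmK G) := by
  have h : gmK G = (Sum.elim G.wp (Sum.elim G.wn G.ext) : W ⊕ (W ⊕ P) → Σ n, Q n) ∘ gmr := by
    funext z
    rcases z with ⟨w, b⟩ | p
    · cases b <;> rfl
    · rfl
  rw [h]
  exact G.inj.comp gmr_inj

private def gmF {N : Type} {D Q : N → Type} {sn : ∀ n, Q n → Bool} {W P : Type}
    {sg : P → Bool} (G : GlueData sn W P sg) : ((Σ n, D n) ⊕ (W × Bool)) ⊕ P → Σ n, D n ⊕ Q n
  | Sum.inl (Sum.inl d) => gmJ' d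
  | Sum.inl (Sum.inr w) => gmJ (gmK G (Sum.inl w))
  | Sum.inr p => gmJ (gmK G (Sum.inr p))

private theorem gmF_inj {N : Type} {D Q : N → Type} {sn : ∀ n, Q n → Bool} {W P : Type}
    {sg : P → Bool} (G : GlueData sn W P sg) : Function.Injective (gmF (D := D) G) := by
  rintro ((d | w) | p) ((d' | w') | p') h
  · rw [gmJ'_inj h]
  · exact absurd h (gmJ_ne _ _)
  · exact absurd h (gmJ_ne _ _)
  · exact absurd h.symm (gmJ_ne _ _)
  · have h1 := gmK_inj G (gmJ_inj h)
    rw [Sum.inl_injective h1]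
  · have h1 := gmK_inj G (gmJ_inj h)
    cases h1
  · exact absurd h.symm (gmJ_ne _ _)
  · have h1 := gmK_inj G (gmJ_inj h)
    cases h1
  · have h1 := gmK_inj G (gmJ_inj h)
    rw [Sum.inr_injective h1]

/-- Compatible solutions of the nodes give a solution of the glued gadget. -/
theorem Gadget.glue_sat_mpr {N : Type} [Finite N] {Q : N → Type} [∀ n, Finite (Q n)]
    {sn : ∀ n, Q n → Bool} {W P : Type} [Finite W] [Finite P]
    {sg : P → Bool} (g : ∀ n, Gadget S (Q n) (sn n)) (G : GlueData sn W P sg) (c : P → Col)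
    (cn : ∀ n, Q n → Col) (h1 : ∀ n, (g n).Sat (cn n))
    (h2 : ∀ w, cn _ (G.wp w).2 = cn _ (G.wn w).2) (h3 : ∀ p, cn _ (G.ext p).2 = c p) :
    (Gadget.glue g G).Sat c := by
  choose fv fe hs using h1
  refine ⟨fun u => fv u.1 u.2,
    Sum.elim (fun d => fe d.1 d.2) (fun w => S.ec (cn _ (G.wp w.1).2)), ?_⟩
  constructor
  · rintro (⟨n, d⟩ | ⟨w, b⟩)
    · exact (hs n).rev d
    · rfl
  · rintro ⟨n, u⟩
    exact (hs n).ty u
  · rintro (⟨n, d⟩ | ⟨w, b⟩)
    · exact (hs n).joins d
    · have hx : fv _ ((g _).pu (G.wp w).2) = S.x :=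
        ((g _).ty_pos _ (G.swp w)).2.2 ((hs (G.wp w).1).lv ((g _).pu (G.wp w).2))
      have hj : H.Joins (S.ec (cn _ (G.wp w).2)) (fv _ ((g _).pu (G.wn w).2)) S.x := by
        rw [h2 w]
        exact (hs _).neg _ (G.swn w)
      cases b
      · show H.Joins (S.ec (cn _ (G.wp w).2)) (fv _ ((g _).pu (G.wn w).2))
          (fv _ ((g _).pu (G.wp w).2))
        rw [hx]
        exact hj
      · show H.Joins (S.ec (cn _ (G.wp w).2)) (fv _ ((g _).pu (G.wp w).2))
          (fv _ ((g _).pu (G.wn w).2))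
        rw [hx]
        exact hj.symm
  · intro p hp
    have h4 := (hs (G.ext p).1).neg (G.ext p).2 (by rw [G.sext p]; exact hp)
    rw [h3 p] at h4
    exact h4
  · rintro ⟨n, u⟩
    exact (hs n).lv u
  · rintro (⟨n, d⟩ | ⟨w, b⟩)
    · exact (hs n).le d
    · exact ⟨cn _ (G.wp w).2, (hs _).lp _, by rw [h2 w]; exact (hs _).lp _, rfl⟩
  · intro p
    have h4 := (hs _).lp (G.ext p).2
    rw [h3 p] at h4
    exact h4
  · rintro ⟨n, u⟩ e
    have hfD : Finite (g n).D := (g n).finD
    have hfD' : Finite (Gadget.glue g G).D := (Gadget.glue g G).finD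
    set A : Set (Gadget.glue g G).D := {d | (Gadget.glue g G).pos d = ⟨n, u⟩ ∧
      (Sum.elim (fun d => fe d.1 d.2) (fun w => S.ec (cn _ (G.wp w.1).2)) :
        ((Σ n, (g n).D) ⊕ (W × Bool)) → E) d = e} with hA
    set B : Set P := {p | (Gadget.glue g G).pu p = ⟨n, u⟩ ∧ S.ec (c p) = e} with hB
    set A0 : Set (g n).D := {d | (g n).pos d = u ∧ fe n d = e} with hA0
    set B0 : Set (Q n) := {q | (g n).pu q = u ∧ S.ec (cn n q) = e} with hB0
    refine le_trans ?_ ((hs n).count u e)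
    change A.ncard + B.ncard ≤ A0.ncard + B0.ncard
    set T : Set (Σ n, (g n).D ⊕ Q n) :=
      (fun d : (g n).D => (⟨n, Sum.inl d⟩ : Σ n, (g n).D ⊕ Q n)) '' A0 ∪
      (fun q : Q n => (⟨n, Sum.inr q⟩ : Σ n, (g n).D ⊕ Q n)) '' B0 with hT
    have hTf : T.Finite := ((Set.toFinite A0).image _).union ((Set.toFinite B0).image _)
    have hTc : T.ncard ≤ A0.ncard + B0.ncard :=
      (Set.ncard_union_le _ _).trans (add_le_add (Set.ncard_image_le (Set.toFinite A0))
        (Set.ncard_image_le (Set.toFinite B0)))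
    refine le_trans ?_ hTc
    set S1 : Set (((Σ n, (g n).D) ⊕ (W × Bool)) ⊕ P) := Sum.inl '' A ∪ Sum.inr '' B with hS1
    have hdisj : Disjoint (Sum.inl '' A : Set (((Σ n, (g n).D) ⊕ (W × Bool)) ⊕ P))
        (Sum.inr '' B) := by
      rw [Set.disjoint_left]
      rintro _ ⟨d, _, rfl⟩ ⟨p, _, hp⟩
      cases hp
    have hc1 : S1.ncard = A.ncard + B.ncard := by
      rw [hS1, Set.ncard_union_eq hdisj ((Set.toFinite A).image _) ((Set.toFinite B).image _)]
      congr 1
      · exact Set.ncard_image_of_injective A Sum.inl_injective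
      · exact Set.ncard_image_of_injective B Sum.inr_injective
    rw [← hc1, ← Set.ncard_image_of_injective S1 (gmF_inj (D := fun n => (g n).D) G)]
    refine Set.ncard_le_ncard ?_ hTf
    have key : ∀ q : Σ n, Q n, (⟨q.1, (g q.1).pu q.2⟩ : Σ n, (g n).U) = ⟨n, u⟩ →
        S.ec (cn q.1 q.2) = e → (gmJ q : Σ n, (g n).D ⊕ Q n) ∈ T := by
      rintro ⟨n', q⟩ h5 h6
      rw [Sigma.mk.injEq] at h5
      obtain ⟨h7, h8⟩ := h5
      change n' = n at h7
      subst h7
      exact Or.inr ⟨q, ⟨eq_of_heq h8, h6⟩, rfl⟩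
    rintro _ ⟨z, hz, rfl⟩
    rcases hz with ⟨d, hd, rfl⟩ | ⟨p, hp, rfl⟩
    · rcases d with ⟨n', d⟩ | ⟨w, b⟩
      · obtain ⟨h5, h6⟩ := hd
        change (⟨n', (g n').pos d⟩ : Σ n, (g n).U) = ⟨n, u⟩ at h5
        rw [Sigma.mk.injEq] at h5
        obtain ⟨h7, h8⟩ := h5
        subst h7
        exact Or.inl ⟨d, ⟨eq_of_heq h8, h6⟩, rfl⟩
      · obtain ⟨h5, h6⟩ := hd
        cases b
        · refine key (G.wn w) h5 ?_
          rw [← h2 w]
          exact h6
        · exact key (G.wp w) h5 h6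
    · obtain ⟨h5, h6⟩ := hp
      refine key (G.ext p) h5 ?_
      rw [h3 p]
      exact h6

end Graph

end Pool.Agent.Lib.MP_9c5086_lc
end

section

/-!
Relations realized by glued gadgets.
-/

namespace Pool.Agent.Lib.MP_9c5086_lc

namespace Graph

variable {V E I : Type} {H : Graph V E} {t : V → I} {Col : Type} {S : Setup H t Col}

/-- Solutions of a glued gadget. -/
theorem Gadget.glue_sat {N : Type} [Finite N] {Q : N → Type} [∀ n, Finite (Q n)]
    {sn : ∀ n, Q n → Bool} {W P : Type} [Finite W] [Finite P]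
    {sg : P → Bool} (g : ∀ n, Gadget S (Q n) (sn n)) (G : GlueData sn W P sg) (c : P → Col) :
    (Gadget.glue g G).Sat c ↔ ∃ cn : ∀ n, Q n → Col, (∀ n, (g n).Sat (cn n)) ∧
      (∀ w, cn _ (G.wp w).2 = cn _ (G.wn w).2) ∧ ∀ p, cn _ (G.ext p).2 = c p := by
  constructor
  · exact Gadget.glue_sat_mp g G c
  · rintro ⟨cn, h1, h2, h3⟩
    exact Gadget.glue_sat_mpr g G c cn h1 h2 h3

theorem Real.glue {N : Type} [Finite N] {Q : N → Type} {sn : ∀ n, Q n → Bool} {W P : Type}
    [Finite W] [Finite P] {sg : P → Bool} {R : ∀ n, (Q n → Col) → Prop}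
    (h : ∀ n, Real S (Q n) (sn n) (R n)) (G : GlueData sn W P sg) :
    Real S P sg (fun c => ∃ cn : ∀ n, Q n → Col, (∀ n, R n (cn n)) ∧
      (∀ w, cn _ (G.wp w).2 = cn _ (G.wn w).2) ∧ ∀ p, cn _ (G.ext p).2 = c p) := by
  classical
  have := fun n => (h n).1
  choose g hg using fun n => (h n).2
  refine ⟨inferInstance, Gadget.glue g G, fun c => ?_⟩
  rw [Gadget.glue_sat]
  simp only [hg]

end Graph

end Pool.Agent.Lib.MP_9c5086_lc
end
end

section

/-!
Types, up darts and core darts of an instance.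
-/

namespace Pool.Agent.Lib.MP_9c5086_lc

namespace Graph

variable {W D V E : Type} [DecidableEq V] {H : Graph V E} {G : LG W D V E}

/-- All local images of a vertex have the same type. -/
theorem Sm.ty_eq [Finite V] [Finite E] (hG : G.Ok) {u : W} {x y : V} (hx : H.Sm G u x)
    (hy : H.Sm G u y) : H.ty x = H.ty y := by
  classical
  refine ty_eq_of_bisim (fun x y => ∃ u, H.Sm G u x ∧ H.Sm G u y) ?_ ⟨u, hx, hy⟩
  rintro x y ⟨u, ⟨_, _, ψ₁, h₁⟩, ⟨_, _, ψ₂, h₂⟩⟩
  obtain ⟨β₁, b₁, f₁⟩ := h₁.exists_bij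
  obtain ⟨β₂, b₂, f₂⟩ := h₂.exists_bij
  have key : ∀ d : H.Dart, d.src = x → ∃ c, c ∈ G.star u ∧ β₁ c = d := fun d hd => by
    obtain ⟨c, hc, h⟩ := b₁.surjOn hd
    exact ⟨c, hc, h⟩
  refine ⟨fun d => if h : ∃ c, c ∈ G.star u ∧ β₁ c = d then β₂ h.choose else d,
    ⟨?_, ?_, ?_⟩, ?_⟩
  · intro d hd
    have h := key d hd
    simp only [h, dif_pos]
    exact b₂.mapsTo h.choose_spec.1
  · intro d hd d' hd' he
    have h := key d hd
    have h' := key d' hd'
    simp only [h, h', dif_pos] at he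
    have := b₂.injOn h.choose_spec.1 h'.choose_spec.1 he
    rw [← h.choose_spec.2, ← h'.choose_spec.2, this]
  · intro e he
    obtain ⟨c, hc, rfl⟩ := b₂.surjOn he
    refine ⟨β₁ c, b₁.mapsTo hc, ?_⟩
    have h : ∃ c', c' ∈ G.star u ∧ β₁ c' = β₁ c := ⟨c, hc, rfl⟩
    simp only [h, dif_pos]
    rw [b₁.injOn h.choose_spec.1 hc h.choose_spec.2]
  · intro d hd
    have h := key d hd
    simp only [h, dif_pos]
    refine ⟨G.src (G.inv h.choose), ?_, ?_⟩
    · have h3 : H.Rm G h.choose (β₁ h.choose).fl := by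
        rw [f₁ _ h.choose_spec.1]
        exact h₁.rel _ h.choose_spec.1
      have h4 := Rm.tgt hG h3
      rw [other_fl, h.choose_spec.2] at h4
      exact h4
    · have h3 : H.Rm G h.choose (β₂ h.choose).fl := by
        rw [f₂ _ h.choose_spec.1]
        exact h₂.rel _ h.choose_spec.1
      have h4 := Rm.tgt hG h3
      rw [other_fl] at h4
      exact h4

/-- All flags related to a dart have the same class. -/
theorem Rm.cls_eq [Finite V] [Finite E] (hG : G.Ok) {d : D} {e f : H.Dart} (he : H.Rm G d e.fl)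
    (hf : H.Rm G d f.fl) : H.ty e.src = H.ty f.src ∧ H.ty e.tgt = H.ty f.tgt := by
  refine ⟨Sm.ty_eq hG (Rm.src hG he) (Rm.src hG hf), ?_⟩
  have h1 := Rm.tgt hG he
  have h2 := Rm.tgt hG hf
  rw [other_fl] at h1 h2
  exact Sm.ty_eq hG h1 h2

variable (H G)

/-- The dart of the instance is an up dart. -/
def GUp (d : D) : Prop := ∃ e : H.Dart, H.Rm G d e.fl ∧ e.Up

/-- The dart of the instance is a core dart. -/
def GCore (d : D) : Prop := ∃ e : H.Dart, H.Rm G d e.fl ∧ e.Core

variable {H G}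

theorem gup_iff [Finite V] [Finite E] (hG : G.Ok) {d : D} {e : H.Dart} (h : H.Rm G d e.fl) :
    H.GUp G d ↔ e.Up := by
  refine ⟨?_, fun hu => ⟨e, h, hu⟩⟩
  rintro ⟨f, hf, hu⟩
  obtain ⟨h1, h2⟩ := Rm.cls_eq hG hf h
  exact Dart.up_class equitable_ty h1 h2 hu

theorem gcore_iff [Finite V] [Finite E] (hG : G.Ok) {d : D} {e : H.Dart} (h : H.Rm G d e.fl) :
    H.GCore G d ↔ e.Core := by
  refine ⟨?_, fun hu => ⟨e, h, hu⟩⟩
  rintro ⟨f, hf, hu⟩
  obtain ⟨h1, h2⟩ := Rm.cls_eq hG hf h
  exact Dart.core_class equitable_ty h1 h2 hu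

theorem Rm.inv_fl {d : D} {e : H.Dart} (h : H.Rm G d e.fl) : H.Rm G (G.inv d) e.inv.fl := by
  have h1 := (cons_Rm (G := G) d e.fl h).2.2.2.2.1
  rwa [opp_fl] at h1

theorem GCore.inv [Finite V] [Finite E] (hG : G.Ok) {d : D} (h : H.GCore G d) :
    H.GCore G (G.inv d) := by
  obtain ⟨e, he, hc⟩ := h
  exact ⟨e.inv, he.inv_fl, hc.inv⟩

section

variable [Finite V] [Finite E] (hG : G.Ok) (hS : ∀ u ∈ G.Vs, ∃ x, H.Sm G u x)

include hG hS

theorem exists_rm {d : D} (hd : d ∈ G.Ds) : ∃ e : H.Dart, H.Rm G d e.fl := by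
  obtain ⟨x, hx⟩ := hS _ (hG.src_mem d hd)
  obtain ⟨φ, hφ, -⟩ := Sm.exists_rm hG hd hx
  obtain ⟨e, he⟩ := hφ.exists_dart
  exact ⟨e, by rw [he]; exact hφ⟩

private theorem exists_local {u : W} (hu : u ∈ G.Vs) : ∃ (x : V) (β : D → H.Dart),
    Set.BijOn β (G.star u) {e | e.src = x} ∧ ∀ d ∈ G.star u, H.Rm G d (β d).fl := by
  obtain ⟨x, _, _, ψ, h⟩ := hS u hu
  obtain ⟨β, hb, hf⟩ := h.exists_bij
  refine ⟨x, β, hb, fun d hd => ?_⟩
  rw [hf d hd]
  exact h.rel d hd

/-- At most one up dart starts at a vertex. -/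
theorem GUp.unique {d d' : D} (hd : d ∈ G.Ds) (hd' : d' ∈ G.Ds) (h : H.GUp G d)
    (h' : H.GUp G d') (hs : G.src d = G.src d') : d = d' := by
  obtain ⟨x, β, hb, hr⟩ := exists_local hG hS (hG.src_mem d hd)
  have m : d ∈ G.star (G.src d) := ⟨hd, rfl⟩
  have m' : d' ∈ G.star (G.src d) := ⟨hd', hs.symm⟩
  have u := (gup_iff hG (hr d m)).1 h
  have u' := (gup_iff hG (hr d' m')).1 h'
  exact hb.injOn m m' (u.unique u' ((hb.mapsTo m).trans (hb.mapsTo m').symm))

/-- The other darts at the source of an up dart lead to vertices whose up darts lead back. -/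
theorem GUp.inv_of_ne {d₀ d : D} (hd₀ : d₀ ∈ G.Ds) (hd : d ∈ G.Ds) (h : H.GUp G d₀)
    (hs : G.src d = G.src d₀) (hne : d ≠ d₀) : H.GUp G (G.inv d) := by
  obtain ⟨x, β, hb, hr⟩ := exists_local hG hS (hG.src_mem d₀ hd₀)
  have m : d₀ ∈ G.star (G.src d₀) := ⟨hd₀, rfl⟩
  have m' : d ∈ G.star (G.src d₀) := ⟨hd, hs⟩
  have u := (gup_iff hG (hr d₀ m)).1 h
  exact ⟨(β d).inv, (hr d m').inv_fl, u.up_inv ((hb.mapsTo m').trans (hb.mapsTo m).symm)
    fun he => hne (hb.injOn m' m he)⟩

theorem gup_inv_of_no_up {d : D} (hd : d ∈ G.Ds)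
    (h : ∀ d' ∈ G.Ds, G.src d' = G.src d → ¬ H.GUp G d') (hc : ¬ H.GCore G d) :
    H.GUp G (G.inv d) := by
  obtain ⟨x, β, hb, hr⟩ := exists_local hG hS (hG.src_mem d hd)
  have m : d ∈ G.star (G.src d) := ⟨hd, rfl⟩
  have hno : ∀ f : H.Dart, f.src = (β d).src → ¬ f.Up := by
    intro f hf hu
    obtain ⟨c, hcm, rfl⟩ := hb.surjOn (show f ∈ {e : H.Dart | e.src = x} from
      hf.trans (hb.mapsTo m))
    exact h c hcm.1 hcm.2 ⟨_, hr c hcm, hu⟩
  refine ⟨(β d).inv, (hr d m).inv_fl, Dart.up_inv_of_no_up hno fun ht => hc ?_⟩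
  exact ⟨β d, hr d m, Dart.core_of_no_up hno ht⟩

/-- No up dart starts at the source of a core dart. -/
theorem GCore.no_up {d d' : D} (hd : d ∈ G.Ds) (hd' : d' ∈ G.Ds) (h : H.GCore G d)
    (hs : G.src d' = G.src d) : ¬ H.GUp G d' := by
  intro h'
  obtain ⟨x, β, hb, hr⟩ := exists_local hG hS (hG.src_mem d hd)
  have m : d ∈ G.star (G.src d) := ⟨hd, rfl⟩
  have m' : d' ∈ G.star (G.src d) := ⟨hd', hs⟩
  exact ((gcore_iff hG (hr d m)).1 h).no_up ((hb.mapsTo m').trans (hb.mapsTo m).symm)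
    ((gup_iff hG (hr d' m')).1 h')

/-- There is a level function which increases along up darts. -/
theorem exists_level : ∃ lv : D → ℕ, ∀ d ∈ G.Ds, ∀ d' ∈ G.Ds, H.GUp G d → H.GUp G d' →
    G.src d' = G.src (G.inv d) → d' ≠ G.inv d → lv d < lv d' := by
  classical
  have hlv : ∀ (d : D) (e : H.Dart), H.Rm G d e.fl →
      (if h : ∃ e : H.Dart, H.Rm G d e.fl then (h.choose.inv.rk).toNat else 0) =
        (e.inv.rk).toNat := by
    intro d e he
    have h : ∃ e : H.Dart, H.Rm G d e.fl := ⟨e, he⟩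
    rw [dif_pos h]
    obtain ⟨h1, h2⟩ := Rm.cls_eq hG h.choose_spec he
    rw [Dart.rk_class (H := H) equitable_ty (d := h.choose.inv) (d' := e.inv)
      (by rw [Dart.src_inv, Dart.src_inv, h2]) (by rw [Dart.tgt_inv, Dart.tgt_inv, h1])]
  refine ⟨fun d => if h : ∃ e : H.Dart, H.Rm G d e.fl then (h.choose.inv.rk).toNat else 0, ?_⟩
  intro d hd d' hd' _ hu' hs hne
  obtain ⟨x, β, hb, hr⟩ := exists_local hG hS (hG.src_mem _ (hG.inv_mem d hd))
  have m : G.inv d ∈ G.star (G.src (G.inv d)) := ⟨hG.inv_mem d hd, rfl⟩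
  have m' : d' ∈ G.star (G.src (G.inv d)) := ⟨hd', hs⟩
  have h1 : H.Rm G d (β (G.inv d)).inv.fl := by
    have := (hr _ m).inv_fl
    rwa [hG.inv_inv d hd] at this
  have u' := (gup_iff hG (hr d' m')).1 hu'
  change (if h : ∃ e : H.Dart, H.Rm G d e.fl then (h.choose.inv.rk).toNat else 0) <
    (if h : ∃ e : H.Dart, H.Rm G d' e.fl then (h.choose.inv.rk).toNat else 0)
  rw [hlv d _ h1, hlv d' _ (hr d' m')]
  have h2 : (β (G.inv d)).inv.inv.rk + 1 ≤ (β d').inv.rk := by
    refine Dart.rk_inv_succ_le ?_ ?_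
    · rw [Dart.tgt_inv]
      exact (hb.mapsTo m').trans (hb.mapsTo m).symm
    · rw [Dart.inv_inv]
      exact fun he => hne (hb.injOn m' m he)
  have h3 := u'.rk_inv_ne_top
  have h4 : (β (G.inv d)).inv.inv.rk ≠ ⊤ := by
    intro h
    rw [h] at h2
    exact h3 (top_le_iff.1 (le_trans (by simp) h2))
  have h5 : (β (G.inv d)).inv.inv.rk < (β d').inv.rk :=
    lt_of_lt_of_le (ENat.lt_add_one_iff h4 |>.2 le_rfl) h2
  obtain ⟨n, hn⟩ := ENat.ne_top_iff_exists.1 h4
  obtain ⟨k, hk⟩ := ENat.ne_top_iff_exists.1 h3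
  rw [← hn, ← hk] at h5 ⊢
  simpa using h5

end

end Graph

end Pool.Agent.Lib.MP_9c5086_lc
end

section

/-!
Some vertex has at most one bad dart.
-/

namespace Pool.Agent.Lib.MP_9c5086_lc

namespace Graph

variable {V E I : Type} {H : Graph V E} {t : V → I}

private theorem rconn_mem {A : Set V} {v w : V} (hv : v ∈ A) (h : H.RConn A v w) : w ∈ A := by
  unfold RConn at h
  induction h with
  | refl => exact hv
  | tail _ h2 _ => exact h2.2.1

private theorem rconn_avoid {A : Set V} {x x' v w : V} (hx : ¬ H.RConn (A \ {x'}) v x)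
    (h : H.RConn (A \ {x'}) v w) : H.RConn (A \ {x}) v w := by
  unfold RConn at h
  induction h with
  | refl => exact Relation.ReflTransGen.refl
  | @tail b c h1 h2 ih =>
    refine Relation.ReflTransGen.tail ih ⟨⟨h2.1.1, ?_⟩, ⟨h2.2.1.1, ?_⟩, h2.2.2⟩
    · rintro rfl
      exact hx h1
    · rintro rfl
      exact hx (Relation.ReflTransGen.tail h1 h2)

/-- Some vertex has at most one bad dart. -/
theorem exists_few_bad [Finite V] (H : Graph V E) (A T : Set V) (hT : T ⊆ A)
    (hne : T.Nonempty) : ∃ x ∈ T, ∀ d d', Bad H A T x d → Bad H A T x d' → d = d' := by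
  by_contra hcon
  push Not at hcon
  have key : ∀ n : ℕ, ∀ x ∈ T, ∀ d : H.Dart, Bad H A T x d →
      {v | H.RConn (A \ {x}) d.tgt v}.ncard = n → False := by
    intro n
    induction n using Nat.strong_induction_on with
    | _ n ih =>
      intro x hx d hd hn
      obtain ⟨hd1, hd2, hd3, hd4, x', hx'T, hx'⟩ := hd
      have hx'A : x' ∈ A \ {x} := rconn_mem (A := A \ {x}) ⟨hd2, hd3⟩ hx'
      obtain ⟨d₁, d₂, hb1, hb2, hne12⟩ := hcon x' hx'T
      have main : ∀ d' : H.Dart, Bad H A T x' d' → ¬ H.RConn (A \ {x'}) d'.tgt x → False := by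
        intro d' hb hnx
        have hb' := hb
        obtain ⟨hb1, hb2, hb3, hb4, hb5⟩ := hb
        have htx : d'.tgt ≠ x := by
          intro h
          exact hnx (h ▸ Relation.ReflTransGen.refl)
        have hstep : H.RConn (A \ {x}) x' d'.tgt := by
          refine Relation.ReflTransGen.single ⟨hx'A, ⟨hb2, htx⟩, d'.edge, ?_⟩
          have := d'.joins
          rwa [hb1] at this
        have hsub : {v | H.RConn (A \ {x'}) d'.tgt v} ⊂ {v | H.RConn (A \ {x}) d.tgt v} := by
          rw [Set.ssubset_iff_of_subset]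
          · refine ⟨x', hx', fun h => ?_⟩
            have := rconn_mem (A := A \ {x'}) ⟨hb2, hb3⟩ h
            exact this.2 rfl
          · intro v hv
            exact (hx'.trans hstep).trans (rconn_avoid hnx hv)
        have hlt := Set.ncard_lt_ncard hsub (Set.toFinite _)
        rw [hn] at hlt
        exact ih _ hlt x' hx'T d' hb' rfl
      by_cases h1 : H.RConn (A \ {x'}) d₁.tgt x
      · by_cases h2 : H.RConn (A \ {x'}) d₂.tgt x
        · obtain ⟨ha1, ha2, ha3, ha4, ha5⟩ := hb1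
          obtain ⟨hc1, hc2, hc3, hc4, hc5⟩ := hb2
          exact hne12 (ha4 d₂ hc1 hc2 hc3 (h1.trans h2.symm)).symm
        · exact main d₂ hb2 h2
      · exact main d₁ hb1 h1
  obtain ⟨x, hx⟩ := hne
  obtain ⟨d, d', hb, -, -⟩ := hcon x hx
  exact key _ x hx d hb rfl

end Graph

end Pool.Agent.Lib.MP_9c5086_lc
end
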