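import Mathlib

section

/-!
Families of signed relations closed under the operations available for gadgets.
-/

namespace Pool.Agent.Lib.MP_9c5086_lc

/-- A family of relations on finite sets of signed ports with values in `Col`, closed under
renaming, products, joining a positive port with a negative port, unary restrictions, and
containing the full unary relations. -/
structure Clone (Col : Type) where
  mem : (P : Type) → (P → Bool) → ((P → Col) → Prop) → Prop
  finite : ∀ {P sg R}, mem P sg R → Finite P
  congr : ∀ {P sg R R'}, mem P sg R → (∀ c, R c ↔ R' c) → mem P sg R'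
  reindex : ∀ {P Q sg R} (e : Q ≃ P), mem P sg R → mem Q (sg ∘ e) (fun c => R (c ∘ e.symm))
  prod : ∀ {P Q sg sg' R R'}, mem P sg R → mem Q sg' R' →
    mem (P ⊕ Q) (Sum.elim sg sg') (fun c => R (c ∘ Sum.inl) ∧ R' (c ∘ Sum.inr))
  join : ∀ {P sg R}, mem (P ⊕ Bool) (Sum.elim sg id) R →
    mem P sg (fun c => ∃ z, R (Sum.elim c (fun _ => z)))
  restrict : ∀ {P sg R} (L : P → Set Col), mem P sg R → mem P sg (fun c => R c ∧ ∀ p, c p ∈ L p)
  unit : ∀ b : Bool, mem Unit (fun _ => b) (fun _ => True)
  empty : ∀ sg : Empty → Bool, mem Empty sg (fun _ => True)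

namespace Clone

variable {Col : Type} (C : Clone Col)

/-- The colour of a truth value. -/
def col (T F : Col) (b : Bool) : Col := if b then T else F

/-- The Boolean relation `R` on ports whose values are `T` (true) and `F` (false). -/
def BMem (T F : Col) (P : Type) (sg : P → Bool) (R : (P → Bool) → Prop) : Prop :=
  C.mem P sg (fun c => ∃ b : P → Bool, R b ∧ ∀ p, c p = col T F (b p))

/-- Basic Boolean relations, with arbitrary signs. -/
structure Basic (T F : Col) : Prop where
  ne : T ≠ F
  eqpp : C.BMem T F Bool (fun _ => true) (fun b => b true = b false)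
  eqnn : C.BMem T F Bool (fun _ => false) (fun b => b true = b false)
  not : ∃ sg, C.BMem T F Bool sg (fun b => b true = !b false)
  eq3 : ∃ sg, C.BMem T F (Fin 3) sg (fun b => b 0 = b 1 ∧ b 1 = b 2)
  one3 : ∃ sg, C.BMem T F (Fin 3) sg (fun b => (Finset.univ.filter fun i => b i = true).card = 1)

end Clone

end Pool.Agent.Lib.MP_9c5086_lc
end

section

/-!
Tile systems.
-/

namespace Pool.Agent.Lib.MP_9c5086_lc

/-- A tile system: tiles with horizontal colours `Ch` (left, right) and vertical colours `Cv` (up,
down); `ok k` is the set of tiles allowed at a position of kind `k`. -/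
structure TileSystem (K T Ch Cv : Type) where
  lf : T → Ch
  rt : T → Ch
  up : T → Cv
  dn : T → Cv
  ok : K → T → Prop

/-- The cyclic successor. -/
def nx {n : ℕ} (i : Fin n) : Fin n := ⟨(i.1 + 1) % n, Nat.mod_lt _ i.pos⟩

/-- Tilings of the torus. -/
def TileSystem.Tiles {K T Ch Cv : Type} (A : TileSystem K T Ch Cv) {n : ℕ}
    (κ : Fin n × Fin n → K) (τ : Fin n × Fin n → T) : Prop :=
  ∀ a, A.ok (κ a) (τ a) ∧ A.rt (τ a) = A.lf (τ (a.1, nx a.2)) ∧ A.dn (τ a) = A.up (τ (nx a.1, a.2))

/-- The ports of a tile: left, right, up, down. -/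
abbrev TPort (Ch Cv : Type) : Type := (Ch ⊕ Ch) ⊕ (Cv ⊕ Cv)

/-- Left and up ports are negative, right and down ports are positive. -/
def tsg {Ch Cv : Type} : TPort Ch Cv → Bool
  | Sum.inl (Sum.inl _) => false
  | Sum.inl (Sum.inr _) => true
  | Sum.inr (Sum.inl _) => false
  | Sum.inr (Sum.inr _) => true

/-- The relation of the tiles allowed for the kind `k`: the colours in one-hot coding. -/
def TileSystem.rel {K T Ch Cv : Type} (A : TileSystem K T Ch Cv) (k : K)
    (b : TPort Ch Cv → Bool) : Prop :=
  ∃ τ, A.ok k τ ∧ (∀ c, b (Sum.inl (Sum.inl c)) = true ↔ c = A.lf τ) ∧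
    (∀ c, b (Sum.inl (Sum.inr c)) = true ↔ c = A.rt τ) ∧
    (∀ c, b (Sum.inr (Sum.inl c)) = true ↔ c = A.up τ) ∧
    ∀ c, b (Sum.inr (Sum.inr c)) = true ↔ c = A.dn τ

end Pool.Agent.Lib.MP_9c5086_lc
end

section

/-!
Closed nonbacktracking walks.
-/

namespace Pool.Agent.Lib.MP_9c5086_lc

/-- An infinite nonbacktracking walk in a finite graph yields a closed nonbacktracking walk with
the same first two vertices. -/
theorem exists_closed_walk {X : Type} [Finite X] (G : SimpleGraph X) (A : Set X) (c : ℕ → X)
    (hA : ∀ r, c r ∈ A) (hadj : ∀ r, G.Adj (c r) (c (r + 1))) (hnb : ∀ r, c (r + 2) ≠ c r) :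
    ∃ L, 2 ≤ L ∧ ∃ d : ℕ → X, d 0 = c 0 ∧ d 1 = c 1 ∧ d L = c 0 ∧ (∀ r, r ≤ L → d r ∈ A) ∧
      (∀ r, r < L → G.Adj (d r) (d (r + 1))) ∧ ∀ r, r + 2 ≤ L → d (r + 2) ≠ d r := by
  classical
  have hex : ∃ s, ∃ r, r < s ∧ c s = c r := by
    obtain ⟨x, y, hxy, he⟩ := Finite.exists_ne_map_eq_of_infinite c
    rcases lt_or_gt_of_ne hxy with h | h
    · exact ⟨y, x, h, he.symm⟩
    · exact ⟨x, y, h, he⟩
  obtain ⟨s, ⟨r, hrs, hcr⟩, hmin⟩ : ∃ s, (∃ r, r < s ∧ c s = c r) ∧
      ∀ s', s' < s → ¬ ∃ r, r < s' ∧ c s' = c r :=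
    ⟨Nat.find hex, Nat.find_spec hex, fun s' hs' => Nat.find_min hex hs'⟩
  have hinj : ∀ i j, i < s → j < s → i ≠ j → c i ≠ c j := by
    intro i j hi hj hij he
    rcases lt_or_gt_of_ne hij with h | h
    · exact hmin j hj ⟨i, h, he.symm⟩
    · exact hmin i hi ⟨j, h, he⟩
  have hs2 : 2 ≤ s := by
    by_contra h
    have h1 : s = 1 := by omega
    have h0 : r = 0 := by omega
    subst h1 h0
    have := (hadj 0).ne
    exact this hcr.symm
  rcases Nat.eq_zero_or_pos r with hr0 | hr0
  · subst hr0
    exact ⟨s, hs2, c, rfl, rfl, hcr, fun i _ => hA i, fun i _ => hadj i, fun i _ => hnb i⟩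
  · refine ⟨s + r, by omega, fun i => if i < s then c i else c (r + s - i), ?_, ?_, ?_, ?_, ?_, ?_⟩
    · simp only
      rw [if_pos (by omega)]
    · simp only
      rw [if_pos (by omega)]
    · simp only
      rw [if_neg (by omega)]
      congr 1
      omega
    · intro i _
      simp only
      split_ifs
      · exact hA _
      · exact hA _
    · intro i hi
      simp only
      by_cases h1 : i + 1 < s
      · rw [if_pos (by omega), if_pos h1]
        exact hadj i
      · by_cases h2 : i < s
        · have h3 : i + 1 = s := by omega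
          rw [if_pos h2, if_neg h1]
          have h4 : r + s - (i + 1) = r := by omega
          rw [h4, ← hcr, ← h3]
          exact hadj i
        · rw [if_neg h2, if_neg h1]
          have h4 : r + s - i = (r + s - (i + 1)) + 1 := by omega
          rw [h4]
          exact (hadj _).symm
    · intro i hi
      simp only
      by_cases h1 : i + 2 < s
      · rw [if_pos h1, if_pos (by omega)]
        exact hnb i
      · by_cases h2 : i + 2 = s
        · rw [if_neg h1, if_pos (by omega)]
          have h4 : r + s - (i + 2) = r := by omega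
          rw [h4, ← hcr, ← h2]
          exact hnb i
        · by_cases h3 : i < s
          · rw [if_neg h1, if_pos h3]
            have h4 : r + s - (i + 2) = r - 1 := by omega
            rw [h4]
            exact hinj _ _ (by omega) h3 (by omega)
          · rw [if_neg h1, if_neg h3]
            have h4 : r + s - i = (r + s - (i + 2)) + 2 := by omega
            rw [h4]
            exact (hnb _).symm

end Pool.Agent.Lib.MP_9c5086_lc
end
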