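import Pool.Agent.Lib.MP_9c5086_lc.UnivDefs

/-!
Gadgets: partial instances with ports.
-/

namespace Pool.Agent.Lib.MP_9c5086_lc

namespace Graph

variable {V E I : Type}

/-- The colours: darts at a fixed vertex `x`, leading to the block `j`, with different edges. -/
structure Setup (H : Graph V E) (t : V → I) (Col : Type) where
  x : V
  j : I
  dc : Col → H.Dart
  src_dc : ∀ c, (dc c).src = x
  ty_dc : ∀ c, t (dc c).tgt = j
  inj_dc : ∀ c c', (dc c).edge = (dc c').edge → c = c'

/-- The edge of a colour. -/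
def Setup.ec {H : Graph V E} {t : V → I} {Col : Type} (S : Setup H t Col) (c : Col) : E :=
  (S.dc c).edge

/-- A gadget with ports `P`, whose signs are given by `sg` (`true` is positive). -/
structure Gadget {H : Graph V E} {t : V → I} {Col : Type} (S : Setup H t Col) (P : Type)
    (sg : P → Bool) where
  /-- vertices -/
  U : Type
  /-- internal darts -/
  D : Type
  finU : Finite U
  finD : Finite D
  /-- the model vertex of a vertex; its slots are the darts at the model vertex -/
  mv : U → V
  rev : D → D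
  pos : D → U
  slot : D → H.Dart
  /-- the vertex of a port -/
  pu : P → U
  /-- the slot of a port -/
  ps : P → H.Dart
  /-- lists of vertices, of edges and of ports -/
  Lv : U → Set V
  Le : D → Set E
  LP : P → Set Col
  rev_rev : ∀ d, rev (rev d) = d
  src_slot : ∀ d, (slot d).src = mv (pos d)
  src_ps : ∀ p, (ps p).src = mv (pu p)
  inj_slot : ∀ d d', pos d = pos d' → slot d = slot d' → d = d'
  inj_ps : ∀ p p', pu p = pu p' → ps p = ps p' → p = p'
  disj : ∀ d p, pos d = pu p → slot d ≠ ps p
  ty_slot : ∀ d, t (slot d).tgt = t (mv (pos (rev d)))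
  ne_pos : ∀ d, pos (rev d) ≠ pos d
  simple : ∀ d d', pos d = pos d' → pos (rev d) = pos (rev d') → d = d'
  Le_rev : ∀ d, Le (rev d) = Le d
  ty_pos : ∀ p, sg p = true → t (mv (pu p)) = t S.x ∧ t (ps p).tgt = S.j ∧ Lv (pu p) ⊆ {S.x}
  ty_neg : ∀ p, sg p = false → t (mv (pu p)) = S.j ∧ t (ps p).tgt = t S.x
  neg_inj : ∀ p p', sg p = false → sg p' = false → pu p = pu p' → p = p'
  neg_pos : ∀ p p', sg p = false → sg p' = true → pu p ≠ pu p'
  neg_adj : ∀ d p p', sg p = false → sg p' = true → pos d = pu p → pos (rev d) ≠ pu p'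

namespace Gadget

variable {H : Graph V E} {t : V → I} {Col : Type} {S : Setup H t Col} {P : Type} {sg : P → Bool}

/-- `fv`, `fe` is a solution of the gadget with port values `c`. -/
structure IsSol (g : Gadget S P sg) (c : P → Col) (fv : g.U → V) (fe : g.D → E) : Prop where
  rev : ∀ d, fe (g.rev d) = fe d
  ty : ∀ u, t (fv u) = t (g.mv u)
  joins : ∀ d, H.Joins (fe d) (fv (g.pos d)) (fv (g.pos (g.rev d)))
  neg : ∀ p, sg p = false → H.Joins (S.ec (c p)) (fv (g.pu p)) S.x
  lv : ∀ u, fv u ∈ g.Lv u
  le : ∀ d, fe d ∈ g.Le d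
  lp : ∀ p, c p ∈ g.LP p
  count : ∀ u e, {d | g.pos d = u ∧ fe d = e}.ncard + {p | g.pu p = u ∧ S.ec (c p) = e}.ncard ≤
    H.inc e (fv u)

/-- The gadget has a solution with port values `c`. -/
def Sat (g : Gadget S P sg) (c : P → Col) : Prop := ∃ fv fe, g.IsSol c fv fe

end Gadget

/-- The relation `R` is realized by a gadget. -/
def Real {H : Graph V E} {t : V → I} {Col : Type} (S : Setup H t Col) (P : Type) (sg : P → Bool)
    (R : (P → Col) → Prop) : Prop :=
  Finite P ∧ ∃ g : Gadget S P sg, ∀ c, R c ↔ g.Sat c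

/-! ### Gluing -/

section Glue

variable {H : Graph V E} {t : V → I} {Col : Type} {S : Setup H t Col}

/-- Data for gluing: `wp w` and `wn w` are the positive and the negative port joined by the wire
`w`, and `ext p` is the port of a node which becomes the port `p`. -/
structure GlueData {N : Type} {Q : N → Type} (sn : ∀ n, Q n → Bool) (W P : Type)
    (sg : P → Bool) where
  wp : W → Σ n, Q n
  wn : W → Σ n, Q n
  ext : P → Σ n, Q n
  swp : ∀ w, sn (wp w).1 (wp w).2 = true
  swn : ∀ w, sn (wn w).1 (wn w).2 = false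
  sext : ∀ p, sn (ext p).1 (ext p).2 = sg p
  inj : Function.Injective (Sum.elim wp (Sum.elim wn ext) : W ⊕ (W ⊕ P) → Σ n, Q n)
  surj : Function.Surjective (Sum.elim wp (Sum.elim wn ext) : W ⊕ (W ⊕ P) → Σ n, Q n)

end Glue

end Graph

end Pool.Agent.Lib.MP_9c5086_lc
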