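import Pool.Agent.Lib.MP_9c5086_lc.PMDisj
import Pool.Agent.Lib.MP_9c5086_lc.Gadget
import Pool.Agent.Lib.MP_9c5086_lc.ClosedWalk
import Pool.Agent.Lib.MP_9c5086_lc.Glue

section

/-!
Pairs of coordinates of nodes with three states, and the ports: definitions.
-/

namespace Pool.Agent.Lib.MP_9c5086_lc

namespace Graph

variable {V E I : Type} {H : Graph V E} {t : V → I}

namespace Thin

variable {Θ : Thin H t}

/-- The coordinates `a` and `b` of a node. -/
def Node.pair (e : Node Θ (Fin 3)) (a b : Fin 3) (h : a ≠ b) : Node Θ Bool :=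
  e.pr (fun k => if k = true then b else a) (by
    intro k k' hk
    cases k <;> cases k' <;> simp_all) (by simp)

@[simp] theorem Node.pair_false (e : Node Θ (Fin 3)) (a b : Fin 3) (h : a ≠ b) :
    (e.pair a b h).d false = e.d a := rfl

@[simp] theorem Node.pair_true (e : Node Θ (Fin 3)) (a b : Fin 3) (h : a ≠ b) :
    (e.pair a b h).d true = e.d b := rfl

/-- The port darts: a node with two states with one source and two targets. -/
structure Port (Θ : Thin H t) where
  n : Node Θ Bool
  src_eq : (n.d false).src = (n.d true).src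
  tgt_ne : (n.d false).tgt ≠ (n.d true).tgt

/-- The colours. -/
def Port.setup (p : Port Θ) : Setup H t Bool where
  x := (p.n.d false).src
  j := t (p.n.d false).tgt
  dc := p.n.d
  src_dc c := by
    cases c
    · rfl
    · exact p.src_eq.symm
  ty_dc c := p.n.tgt_ty c false
  inj_dc c c' h := by
    rcases Dart.eq_or_inv h with h1 | h1
    · exact (p.n.inj h1).symm
    · have h2 : (p.n.d c').tgt = (p.n.d c).src := by rw [h1, Dart.tgt_inv]
      have h3 : (p.n.d c').src = (p.n.d c).tgt := by rw [h1, Dart.src_inv]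
      have h4 : (p.n.d c).src = (p.n.d c').src := by
        cases c <;> cases c' <;> first | rfl | exact p.src_eq | exact p.src_eq.symm
      have h5 : (p.n.d c).tgt = (p.n.d c').tgt := by rw [h2, h4, h3]
      have h6 := p.tgt_ne
      cases c <;> cases c' <;> first | rfl | exact absurd h5 h6 | exact absurd h5.symm h6

end Thin

end Graph

end Pool.Agent.Lib.MP_9c5086_lc
end

section

/-!
Gadgets glued along a torus.
-/

namespace Pool.Agent.Lib.MP_9c5086_lc

namespace Graph

variable {V E I : Type} {H : Graph V E} {t : V → I} {Col : Type} {S : Setup H t Col}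

private theorem nx_injective (n : ℕ) : Function.Injective (nx : Fin n → Fin n) := by
  intro i j h
  have h1 : (i.1 + 1) % n = (j.1 + 1) % n := congrArg Fin.val h
  have hi := i.isLt
  have hj := j.isLt
  apply Fin.ext
  rcases Nat.lt_or_ge (i.1 + 1) n with h2 | h2 <;> rcases Nat.lt_or_ge (j.1 + 1) n with h3 | h3
  · rw [Nat.mod_eq_of_lt h2, Nat.mod_eq_of_lt h3] at h1
    omega
  · have h4 : j.1 + 1 = n := by omega
    rw [Nat.mod_eq_of_lt h2, h4, Nat.mod_self] at h1
    omega
  · have h4 : i.1 + 1 = n := by omega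
    rw [Nat.mod_eq_of_lt h3, h4, Nat.mod_self] at h1
    omega
  · omega

private theorem nx_surjective (n : ℕ) : Function.Surjective (nx : Fin n → Fin n) :=
  Finite.injective_iff_surjective.1 (nx_injective n)

/-- The gluing data of the torus. -/
def torusGlue (Ch Cv : Type) (n : ℕ) :
    GlueData (N := Fin n × Fin n) (Q := fun _ => TPort Ch Cv) (fun _ => tsg)
      ((Fin n × Fin n) × (Ch ⊕ Cv)) Empty (fun _ => true) where
  wp w := ⟨w.1, Sum.elim (fun c => Sum.inl (Sum.inr c)) (fun c => Sum.inr (Sum.inr c)) w.2⟩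
  wn w := Sum.elim (fun c => ⟨(w.1.1, nx w.1.2), Sum.inl (Sum.inl c)⟩)
    (fun c => ⟨(nx w.1.1, w.1.2), Sum.inr (Sum.inl c)⟩) w.2
  ext := Empty.elim
  swp := by
    rintro ⟨a, c | c⟩ <;> rfl
  swn := by
    rintro ⟨a, c | c⟩ <;> rfl
  sext := fun p => p.elim
  inj := by
    rintro (⟨⟨a, b⟩, c | c⟩ | ⟨⟨a, b⟩, c | c⟩ | p) (⟨⟨a', b'⟩, c' | c'⟩ | ⟨⟨a', b'⟩, c' | c'⟩ | p') h
    all_goals first
      | exact p.elim
      | exact p'.elim
      | skip
    all_goals
      simp only [Sum.elim_inl, Sum.elim_inr, Sigma.mk.injEq, Prod.mk.injEq, heq_eq_eq,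
        Sum.inl.injEq, Sum.inr.injEq, reduceCtorEq, and_false] at h
    all_goals
      obtain ⟨⟨h1, h2⟩, h3⟩ := h
      try replace h1 := nx_injective n h1
      try replace h2 := nx_injective n h2
      subst h1 h2 h3
      rfl
  surj := by
    rintro ⟨⟨a, b⟩, (c | c) | (c | c)⟩
    · obtain ⟨b', rfl⟩ := nx_surjective n b
      exact ⟨Sum.inr (Sum.inl ((a, b'), Sum.inl c)), rfl⟩
    · exact ⟨Sum.inl ((a, b), Sum.inl c), rfl⟩
    · obtain ⟨a', rfl⟩ := nx_surjective n a
      exact ⟨Sum.inr (Sum.inl ((a', b), Sum.inr c)), rfl⟩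
    · exact ⟨Sum.inl ((a, b), Sum.inr c), rfl⟩

/-- The glued gadget. -/
def torusGadget {Ch Cv K : Type} [Finite Ch] [Finite Cv] {n : ℕ} (κ : Fin n × Fin n → K)
    (g : K → Gadget S (TPort Ch Cv) tsg) : Gadget S Empty (fun _ => true) :=
  Gadget.glue (N := Fin n × Fin n) (Q := fun _ => TPort Ch Cv) (fun a => g (κ a))
    (torusGlue Ch Cv n)

end Graph

end Pool.Agent.Lib.MP_9c5086_lc
end
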