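import Pool.Agent.Lib.MP_9c5086_lc.BPhi
import Pool.Agent.Lib.MP_9c5086_lc.PMDisj
import Pool.Agent.Lib.MP_9c5086_lc.FewBad
import Pool.Agent.Lib.MP_9c5086_lc.BSpider
import Pool.Agent.Lib.MP_9c5086_lc.TorusGlue

section

/-!
The coverage lemma.
-/

namespace Pool.Agent.Lib.MP_9c5086_lc

namespace Graph

variable {V E I : Type} {H : Graph V E} {t : V → I}

namespace Thin

/-- Inversion conjugates `phi` to its inverse, iterated. -/
theorem cover_iter_inv (Θ : Thin H t) (r : ℕ) : ∀ d ∈ Θ.sel,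
    Θ.phi^[r] (Θ.phi^[r] d).inv = d.inv := by
  induction r with
  | zero => intro d _; rfl
  | succ r ih =>
    intro d hd
    rw [Function.iterate_succ_apply' Θ.phi r d, Function.iterate_succ_apply,
      Θ.phi_inv_phi (Θ.iterate_mem hd r), ih d hd]

theorem cover_iter_inj (Θ : Thin H t) (r : ℕ) {d d' : H.Dart} (hd : d ∈ Θ.sel)
    (hd' : d' ∈ Θ.sel) (h : Θ.phi^[r] d = Θ.phi^[r] d') : d = d' := by
  have h1 := Θ.cover_iter_inv r d hd
  have h2 := Θ.cover_iter_inv r d' hd'
  rw [h, h2] at h1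
  exact (Dart.inv_injective h1).symm

theorem cover_iter_class (Θ : Thin H t) {i : I} {d : H.Dart} (hd : d ∈ Θ.sel)
    (h1 : t d.src = i) (h2 : t d.tgt = i) (r : ℕ) :
    t (Θ.phi^[r] d).src = i ∧ t (Θ.phi^[r] d).tgt = i := by
  induction r with
  | zero => exact ⟨h1, h2⟩
  | succ r ih =>
    rw [Function.iterate_succ_apply', Θ.src_phi (Θ.iterate_mem hd r),
      Θ.ty_phi (Θ.iterate_mem hd r)]
    exact ⟨ih.2, ih.1⟩

variable {Θ : Thin H t} {K : Type} [Fintype K]

/-- The class of the node is double and joins a block with itself. -/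
def IIdbl (a : Node Θ K) : Prop :=
  ∀ k, t (a.d k).src = t (a.d k).tgt ∧ Θ.dbl (t (a.d k).src) (t (a.d k).tgt)

/-- A dart which stays, along its strand, at edges and at vertices of the given darts, visits the
same vertices as one of them. -/
theorem coverage [Finite E] (hK : Fintype.card K ≤ 3) (a : Node Θ K) (ha : IIdbl a) (s : H.Dart)
    (hs : s ∈ Θ.sel) (hcls : ∀ k, t s.src = t (a.d k).src ∧ t s.tgt = t (a.d k).tgt)
    (he : ∀ r, ∃ k, (Θ.phi^[r] s).edge = (Θ.phi^[r] (a.d k)).edge)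
    (hv : ∀ r, ∃ k, (Θ.phi^[r] s).src = (Θ.phi^[r] (a.d k)).src) :
    ∃ k, ∀ r, (Θ.phi^[r] s).src = (Θ.phi^[r] (a.d k)).src := by
  classical
  by_cases hsd : ∃ k, s = a.d k
  · obtain ⟨k, rfl⟩ := hsd
    exact ⟨k, fun _ => rfl⟩
  push Not at hsd
  -- the class of `s`
  obtain ⟨k₀, -⟩ := he 0
  have hs1 : t s.tgt = t s.src := by
    rw [(hcls k₀).1, (hcls k₀).2]
    exact (ha k₀).1.symm
  have hcs := Θ.cover_iter_class hs rfl hs1
  have hck : ∀ k r, t (Θ.phi^[r] (a.d k)).src = t s.src ∧ t (Θ.phi^[r] (a.d k)).tgt = t s.src := by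
    intro k r
    refine Θ.cover_iter_class (a.mem k) ?_ ?_ r
    · rw [(hcls k).1]
    · rw [← hs1, (hcls k).2]
  -- all iterates of `s` are inverses of the darts of the node
  have key : ∀ m, ∃ k, Θ.phi^[m] s = (a.d k).inv := by
    intro m
    rcases Nat.even_or_odd m with ⟨r, rfl⟩ | ⟨r, rfl⟩
    · obtain ⟨k, hk⟩ := he r
      refine ⟨k, ?_⟩
      rcases Dart.eq_or_inv hk with h | h
      · exact absurd (Θ.cover_iter_inj r (a.mem k) hs h).symm (hsd k)
      · have h1 : Θ.phi^[r] s = (Θ.phi^[r] (a.d k)).inv := by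
          rw [h, Dart.inv_inv]
        rw [Function.iterate_add_apply, h1]
        exact Θ.cover_iter_inv r _ (a.mem k)
    · obtain ⟨k, hk⟩ := hv (r + 1)
      refine ⟨k, ?_⟩
      have h0 : t (Θ.phi^[r + 1] s).tgt = t (Θ.phi^[r + 1] (a.d k)).tgt := by
        rw [(hcs (r + 1)).2, (hck k (r + 1)).2]
      rcases Θ.only _ (Θ.iterate_mem (a.mem k) (r + 1)) _ (Θ.iterate_mem hs (r + 1)) hk h0 with
        h | h
      · exact absurd (Θ.cover_iter_inj (r + 1) hs (a.mem k) h) (hsd k)
      · have h1 : Θ.phi^[r + 1] s = (Θ.phi^[r] (a.d k)).inv := by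
          rw [h, ← Θ.phi_inv, Function.iterate_succ_apply']
          exact Θ.phi_inv_phi (Θ.iterate_mem (a.mem k) r)
        rw [show 2 * r + 1 = r + (r + 1) by ring, Function.iterate_add_apply, h1]
        exact Θ.cover_iter_inv r _ (a.mem k)
  choose f hf using key
  by_cases h2 : Θ.phi^[2] s = s
  · -- period one or two
    refine ⟨f 1, ?_⟩
    have e1 : a.d (f 1) = (Θ.phi s).inv := by
      have := hf 1
      rw [Function.iterate_one] at this
      rw [this, Dart.inv_inv]
    have e2 : Θ.phi (a.d (f 1)) = s.inv := by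
      rw [e1]
      exact Θ.phi_inv_phi hs
    have h2' : Θ.phi (Θ.phi s) = s := h2
    have e3 : Θ.phi s.inv = a.d (f 1) := by
      rw [e1]
      conv_lhs => rw [← h2']
      exact Θ.phi_inv_phi (Θ.phi_mem hs)
    have hpair : ∀ r, (Θ.phi^[2 * r] s = s ∧ Θ.phi^[2 * r] (a.d (f 1)) = a.d (f 1)) := by
      intro r
      induction r with
      | zero => exact ⟨rfl, rfl⟩
      | succ r ih =>
        rw [show 2 * (r + 1) = 2 + 2 * r by ring, Function.iterate_add_apply,
          Function.iterate_add_apply, ih.1, ih.2]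
        refine ⟨h2, ?_⟩
        change Θ.phi (Θ.phi (a.d (f 1))) = _
        rw [e2, e3]
    have s0 : s.src = (a.d (f 1)).src := by
      rw [e1, Dart.src_inv, ← Θ.src_phi (Θ.phi_mem hs), h2']
    have s1 : (Θ.phi s).src = (Θ.phi (a.d (f 1))).src := by
      rw [e2, Dart.src_inv, Θ.src_phi hs]
    intro r
    rcases Nat.even_or_odd' r with ⟨q, rfl | rfl⟩
    · rw [(hpair q).1, (hpair q).2]
      exact s0
    · rw [Function.iterate_succ_apply', Function.iterate_succ_apply', (hpair q).1, (hpair q).2]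
      exact s1
  · -- period three
    exfalso
    have n1 : Θ.phi s ≠ s := by
      intro h
      apply h2
      change Θ.phi (Θ.phi s) = s
      rw [h, h]
    have inj3 : ∀ i j : ℕ, i < j → j ≤ 3 → f i = f j → Θ.phi^[j - i] s = s := by
      intro i j hij _ hfij
      have h1 : Θ.phi^[i] s = Θ.phi^[j] s := by rw [hf i, hf j, hfij]
      have h3 : Θ.phi^[j] s = Θ.phi^[i] (Θ.phi^[j - i] s) := by
        rw [← Function.iterate_add_apply]
        congr 1
        omega
      rw [h3] at h1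
      exact (Θ.cover_iter_inj i hs (Θ.iterate_mem hs _) h1).symm
    have d01 : f 0 ≠ f 1 := fun h => n1 (inj3 0 1 (by norm_num) (by norm_num) h)
    have d12 : f 1 ≠ f 2 := fun h => n1 (inj3 1 2 (by norm_num) (by norm_num) h)
    have d02 : f 0 ≠ f 2 := fun h => h2 (inj3 0 2 (by norm_num) (by norm_num) h)
    have hg : Function.Injective (fun i : Fin 3 => f i) := by
      intro i j hij
      have hij' : f i = f j := hij
      fin_cases i <;> fin_cases j <;> first
        | rfl
        | exact absurd hij' d01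
        | exact absurd hij' d12
        | exact absurd hij' d02
        | exact absurd hij'.symm d01
        | exact absurd hij'.symm d12
        | exact absurd hij'.symm d02
    have hcard : Fintype.card K = 3 := by
      refine le_antisymm hK ?_
      have := Fintype.card_le_of_injective _ hg
      simpa using this
    have hsurj : Function.Surjective (fun i : Fin 3 => f i) := by
      have hb : Function.Bijective (fun i : Fin 3 => f i) := by
        rw [Fintype.bijective_iff_injective_and_card]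
        exact ⟨hg, by rw [hcard, Fintype.card_fin]⟩
      exact hb.2
    have h3 : Θ.phi^[3] s = s := by
      obtain ⟨i, hi⟩ := hsurj (f 3)
      have hi' : f i = f 3 := hi
      fin_cases i
      · exact inj3 0 3 (by norm_num) le_rfl hi'
      · exact absurd (inj3 1 3 (by norm_num) le_rfl hi') h2
      · exact absurd (inj3 2 3 (by norm_num) le_rfl hi') n1
    have hper : ∀ m, Θ.phi^[m + 3] s = Θ.phi^[m] s := by
      intro m
      rw [Function.iterate_add_apply, h3]
    apply a.nex
    refine ⟨hcard, ?_⟩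
    intro k
    obtain ⟨i, rfl⟩ := hsurj k
    refine ⟨f ((i : ℕ) + 2), ?_, ?_⟩
    · intro h
      have h' : f ((i : ℕ) + 2) = f i := h
      have h1 : Θ.phi^[(i : ℕ)] s = Θ.phi^[(i : ℕ) + 2] s := by rw [hf, hf, h']
      rw [Function.iterate_add_apply] at h1
      exact h2 (Θ.cover_iter_inj _ hs (Θ.iterate_mem hs _) h1).symm
    · have h1 : a.d (f i) = (Θ.phi^[(i : ℕ)] s).inv := by
        rw [hf, Dart.inv_inv]
      have h4 : a.d (f ((i : ℕ) + 2)) = (Θ.phi^[(i : ℕ) + 2] s).inv := by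
        rw [hf, Dart.inv_inv]
      change Θ.phi (a.d (f i)) = a.d (f ((i : ℕ) + 2))
      rw [h1, h4, ← hper (i : ℕ), show (i : ℕ) + 3 = ((i : ℕ) + 2) + 1 by ring,
        Function.iterate_succ_apply']
      exact Θ.phi_inv_phi (Θ.iterate_mem hs _)

end Thin

end Graph

end Pool.Agent.Lib.MP_9c5086_lc
end

section

/-!
Good paths.
-/

namespace Pool.Agent.Lib.MP_9c5086_lc

namespace Graph

variable {V E I : Type} {H : Graph V E} {t : V → I}

namespace Thin

/-- A good path: every entry into a double class joining a block with itself is followed by a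
full period of slides. -/
structure GPath (Θ : Thin H t) (K : Type) [Fintype K] (N : ℕ) where
  /-- the number of nodes -/
  n : ℕ
  pos : 0 < n
  ν : ℕ → Node Θ K
  step : ∀ r, r + 1 < n → Step (ν r) (ν (r + 1))
  win : ∀ r, r < n → IIdbl (ν r) → (r = 0 ∨ ¬ Slide (ν (r - 1)) (ν r)) →
    r + N < n ∧ ∀ j, j ≤ N → ∀ k, (ν (r + j)).d k = Θ.phi^[j] ((ν r).d k)

variable {Θ : Thin H t} {K : Type} [Fintype K] {N : ℕ}

/-- The last node. -/
def GPath.last (p : GPath Θ K N) : Node Θ K := p.ν (p.n - 1)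

private theorem gp_iter (b : Node Θ K) (j : ℕ) (k : K) :
    ((Node.sl^[j]) b).d k = Θ.phi^[j] (b.d k) := by
  induction j with
  | zero => rfl
  | succ j ih =>
    rw [Function.iterate_succ_apply', Function.iterate_succ_apply', ← ih]
    rfl

private theorem gp_IIdbl_sl {b : Node Θ K} (h : IIdbl b) : IIdbl b.sl := by
  intro k
  obtain ⟨h1, h2⟩ := h k
  have h3 : (b.sl.d k) = Θ.phi (b.d k) := rfl
  rw [h3, Θ.src_phi (b.mem k), Θ.ty_phi (b.mem k)]
  refine ⟨h1.symm, ?_⟩
  rw [h1] at h2 ⊢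
  exact h2

private theorem gp_IIdbl_iter {b : Node Θ K} (h : IIdbl b) (j : ℕ) : IIdbl ((Node.sl^[j]) b) := by
  induction j with
  | zero => exact h
  | succ j ih =>
    rw [Function.iterate_succ_apply']
    exact gp_IIdbl_sl ih

private theorem gp_slide {b : Node Θ K} (h : IIdbl b) : Slide b b.sl := by
  refine ⟨fun _ => rfl, fun k => ?_⟩
  obtain ⟨h1, h2⟩ := h k
  rw [h1] at h2 ⊢
  exact h2

private theorem gp_slide_iter {b : Node Θ K} (h : IIdbl b) (j : ℕ) :
    Slide ((Node.sl^[j]) b) ((Node.sl^[j + 1]) b) := by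
  rw [Function.iterate_succ_apply']
  exact gp_slide (gp_IIdbl_iter h j)

private theorem gp_period (hN : Θ.IsPeriod N) (b : Node Θ K) : (Node.sl^[N]) b = b :=
  Node.ext fun k => by rw [gp_iter]; exact hN.2 _ (b.mem k)

/-- Good paths from a node to itself. -/
theorem GPath.exists_start (hN : Θ.IsPeriod N) (a : Node Θ K) :
    ∃ p : GPath Θ K N, p.ν 0 = a ∧ p.last = a := by
  classical
  by_cases ha : IIdbl a
  · refine ⟨⟨N + 1, Nat.succ_pos _, fun r => (Node.sl^[r]) a, ?_, ?_⟩, rfl, ?_⟩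
    · intro r _
      exact Or.inl (gp_slide_iter ha r)
    · intro r _ _ hr
      rcases Nat.eq_zero_or_pos r with rfl | hpos
      · refine ⟨by omega, ?_⟩
        intro j _ k
        show ((Node.sl^[0 + j]) a).d k = Θ.phi^[j] (((Node.sl^[0]) a).d k)
        rw [gp_iter, Nat.zero_add]
        rfl
      · exfalso
        rcases hr with h0 | hs
        · omega
        · apply hs
          have h1 := gp_slide_iter ha (r - 1)
          rwa [Nat.sub_add_cancel hpos] at h1
    · exact gp_period hN a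
  · refine ⟨⟨1, Nat.one_pos, fun _ => a, ?_, ?_⟩, rfl, rfl⟩
    · intro r hr
      omega
    · intro r _ h _
      exact absurd h ha

/-- Good paths can be extended by steps. -/
theorem GPath.exists_step (hN : Θ.IsPeriod N) (p : GPath Θ K N) (b : Node Θ K)
    (h : Step p.last b) : ∃ q : GPath Θ K N, p.n < q.n ∧ (∀ r, r < p.n → q.ν r = p.ν r) ∧
      q.last = b ∧ q.ν p.n = b := by
  classical
  have hpos := p.pos
  obtain ⟨m, hm1, hm2, hm3⟩ : ∃ m : ℕ, (Node.sl^[m]) b = b ∧
      (0 < m → IIdbl b) ∧ (IIdbl b → ¬ Slide p.last b → m = N) := by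
    by_cases hb : IIdbl b ∧ ¬ Slide p.last b
    · exact ⟨N, gp_period hN b, fun _ => hb.1, fun _ _ => rfl⟩
    · exact ⟨0, rfl, fun h0 => absurd h0 (lt_irrefl 0), fun h1 h2 => absurd ⟨h1, h2⟩ hb⟩
  set ν : ℕ → Node Θ K := fun r => if r < p.n then p.ν r else (Node.sl^[r - p.n]) b with hν
  have hν1 : ∀ r, r < p.n → ν r = p.ν r := fun r hr => by simp only [hν, if_pos hr]
  have hν2 : ∀ r, p.n ≤ r → ν r = (Node.sl^[r - p.n]) b := fun r hr => by
    simp only [hν, if_neg (not_lt.2 hr)]
  have hνn : ν p.n = b := by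
    rw [hν2 _ le_rfl, Nat.sub_self]
    rfl
  have hstep : ∀ r, r + 1 < p.n + m + 1 → Step (ν r) (ν (r + 1)) := by
    intro r hr
    rcases lt_trichotomy (r + 1) p.n with h1 | h1 | h1
    · rw [hν1 r (by omega), hν1 (r + 1) h1]
      exact p.step r h1
    · rw [hν1 r (by omega), h1, hνn]
      have h2 : p.ν r = p.last := by
        unfold GPath.last
        congr 1
        omega
      rw [h2]
      exact h
    · rw [hν2 r (by omega), hν2 (r + 1) (by omega)]
      have hb : IIdbl b := hm2 (by omega)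
      have h2 : r + 1 - p.n = (r - p.n) + 1 := by omega
      rw [h2]
      exact Or.inl (gp_slide_iter hb _)
  have hwin : ∀ r, r < p.n + m + 1 → IIdbl (ν r) → (r = 0 ∨ ¬ Slide (ν (r - 1)) (ν r)) →
      r + N < p.n + m + 1 ∧ ∀ j, j ≤ N → ∀ k, (ν (r + j)).d k = Θ.phi^[j] ((ν r).d k) := by
    intro r hr hI hs
    rcases lt_trichotomy r p.n with h1 | h1 | h1
    · rw [hν1 r h1] at hI hs
      rw [hν1 (r - 1) (by omega)] at hs
      obtain ⟨h2, h3⟩ := p.win r h1 hI hs
      refine ⟨by omega, ?_⟩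
      intro j hj k
      rw [hν1 (r + j) (by omega), hν1 r h1]
      exact h3 j hj k
    · subst h1
      rw [hνn] at hI hs
      rw [hν1 (p.n - 1) (by omega)] at hs
      have hs' : ¬ Slide p.last b := by
        rcases hs with h0 | hs
        · omega
        · exact hs
      have hmN := hm3 hI hs'
      refine ⟨by omega, ?_⟩
      intro j hj k
      rw [hν2 (p.n + j) (by omega), hνn, Nat.add_sub_cancel_left]
      exact gp_iter b j k
    · exfalso
      have hb : IIdbl b := hm2 (by omega)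
      rcases hs with h0 | hs
      · omega
      · apply hs
        rw [hν2 r (by omega), hν2 (r - 1) (by omega)]
        have h2 : r - p.n = (r - 1 - p.n) + 1 := by omega
        rw [h2]
        exact gp_slide_iter hb _
  refine ⟨⟨p.n + m + 1, Nat.succ_pos _, ν, hstep, hwin⟩, ?_, hν1, ?_, hνn⟩
  · show p.n < p.n + m + 1
    omega
  · show ν (p.n + m + 1 - 1) = b
    rw [Nat.add_sub_cancel, hν2 _ (Nat.le_add_right _ _), Nat.add_sub_cancel_left]
    exact hm1

/-- Good paths can be extended. -/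
theorem GPath.exists_extend (hN : Θ.IsPeriod N) (p : GPath Θ K N) (b : Node Θ K)
    (h : Reach p.last b) : ∃ q : GPath Θ K N, p.n ≤ q.n ∧ (∀ r, r < p.n → q.ν r = p.ν r) ∧
      q.last = b := by
  unfold Reach at h
  induction h with
  | refl => exact ⟨p, le_rfl, fun _ _ => rfl, rfl⟩
  | tail _ hs ih =>
    obtain ⟨q, h1, h2, h3⟩ := ih
    rw [← h3] at hs
    obtain ⟨q', h4, h5, h6, -⟩ := q.exists_step hN _ hs
    refine ⟨q', by omega, ?_, h6⟩
    intro r hr
    rw [h5 r (by omega), h2 r hr]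

private theorem gp_out [Nonempty K] (hK : Fintype.card K ≤ 3) (a : Node Θ K) :
    ∃ b : Node Θ K, Step a b := by
  classical
  obtain ⟨k₀⟩ := (inferInstance : Nonempty K)
  by_cases hd : Θ.dbl (t (a.d k₀).tgt) (t (a.d k₀).src)
  · refine ⟨a.sl, step_sl a fun k => ?_⟩
    rw [a.tgt_ty k k₀, a.src_ty k k₀]
    exact hd
  · have hinj : Function.Injective a.inv.srcs := by
      by_contra hni
      apply hd
      have h1 := dbl_of_not_injective a.inv hni k₀
      have h2 : a.inv.d k₀ = (a.d k₀).inv := rfl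
      rwa [h2, Dart.src_inv, Dart.tgt_inv] at h1
    rcases Θ.deg _ (Θ.inv_mem _ (a.mem k₀)) with h1 | ⟨d', hd', h1, h2⟩
    · rw [Dart.src_inv, Dart.tgt_inv] at h1
      exact absurd h1 hd
    · rw [Dart.src_inv] at h1
      rw [Dart.tgt_inv] at h2
      have hs : t d'.src = t (a.inv.d k₀).src := by
        have h3 : a.inv.d k₀ = (a.d k₀).inv := rfl
        rw [h1, h3, Dart.src_inv]
      obtain ⟨b, hb1, hb2, -⟩ := exists_above hK a.inv hinj d' hd' k₀ hs
      rw [Node.srcs_inv] at hb1 hinj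
      refine ⟨b, Or.inr ⟨fun k => congrFun hb1 k, hinj, fun k => ?_⟩⟩
      rw [hb2 k, a.src_ty k k₀]
      exact h2

/-- A good path from `a` to a node with a step to `b`. -/
theorem GPath.exists_leg [Finite E] [Nonempty K] (hK : Fintype.card K ≤ 3) (hN : Θ.IsPeriod N)
    (a b : Node Θ K) (h : Reach a b) : ∃ p : GPath Θ K N, p.ν 0 = a ∧ Step p.last b := by
  obtain ⟨c, hc, hcb⟩ : ∃ c, Reach a c ∧ Step c b := by
    rcases Relation.ReflTransGen.cases_tail h with h1 | ⟨c, h1, h2⟩
    · subst h1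
      obtain ⟨a', ha'⟩ := gp_out hK b
      have h1 : Reach b a' := Relation.ReflTransGen.single ha'
      have h2 := Reach.symm hK h1
      rcases Relation.ReflTransGen.cases_tail h2 with h3 | ⟨c, h3, h4⟩
      · exact ⟨b, Relation.ReflTransGen.refl, by rw [← h3] at ha'; exact ha'⟩
      · exact ⟨c, Relation.ReflTransGen.head ha' h3, h4⟩
    · exact ⟨c, h1, h2⟩
  obtain ⟨p, hp0, hpl⟩ := GPath.exists_start (N := N) hN a
  have h1 : Reach p.last c := by rw [hpl]; exact hc
  obtain ⟨q, -, h3, h4⟩ := p.exists_extend hN c h1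
  refine ⟨q, ?_, ?_⟩
  · rw [h3 0 p.pos, hp0]
  · rw [h4]
    exact hcb

end Thin

end Graph

end Pool.Agent.Lib.MP_9c5086_lc
end

section

section

/-!
Partial covers along slides.
-/

namespace Pool.Agent.Lib.MP_9c5086_lc

namespace Graph

variable {V E I : Type} {H : Graph V E} {t : V → I}

namespace Thin

variable {Θ : Thin H t} {K : Type} [Fintype K]

/-- The dart `s` follows the coordinate `k` of the node `a`. -/
def Match (a : Node Θ K) (k : K) (s : H.Dart) : Prop :=
  s = a.d k ∨ (IIdbl a ∧ s ∈ Θ.sel ∧ t s.src = t (a.d k).src ∧ t s.tgt = t (a.d k).tgt ∧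
    ∀ r, (Θ.phi^[r] s).src = (Θ.phi^[r] (a.d k)).src)

theorem Match.src {a : Node Θ K} {k : K} {s : H.Dart} (h : Match a k s) :
    s.src = (a.d k).src := by
  rcases h with rfl | ⟨-, -, -, -, h⟩
  · rfl
  · exact h 0

theorem Match.tgt {a : Node Θ K} {k : K} {s : H.Dart} (h : Match a k s) :
    s.tgt = (a.d k).tgt := by
  rcases h with rfl | ⟨-, hs, -, -, h⟩
  · rfl
  · have h1 := h 1
    rw [Function.iterate_one, Θ.src_phi hs, Θ.src_phi (a.mem k)] at h1
    exact h1

private theorem Match.mem {a : Node Θ K} {k : K} {s : H.Dart} (h : Match a k s) :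
    s ∈ Θ.sel := by
  rcases h with rfl | ⟨-, hs, -, -, -⟩
  · exact a.mem k
  · exact hs

/-- The next dart of a partial cover along a slide. -/
theorem slide_raw {a b : Node Θ K} (hab : Slide a b) {s : H.Dart} (hs : s ∈ Θ.sel)
    (hcls : ∀ k, t s.src = t (a.d k).src ∧ t s.tgt = t (a.d k).tgt)
    {y z : V} {e' : E} (hy : s.tgt = y) (hj : H.Joins e' y z)
    (he' : ∃ k, e' = (b.d k).edge) (hz : ∃ k, z = (b.d k).tgt)
    (hc : s.edge = e' → 2 ≤ H.inc e' y) :
    (Θ.phi s).edge = e' ∧ (Θ.phi s).tgt = z := by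
  obtain ⟨k, hk⟩ := he'
  obtain ⟨k', hk'⟩ := hz
  obtain ⟨s', hs'e, hs's, hs't⟩ := hj.exists_dart
  -- the class of `b`
  have hbs : t (b.d k).src = t s.tgt := by
    rw [hab.1 k, Θ.src_phi (a.mem k)]
    exact (hcls k).2.symm
  have hbt : t (b.d k).tgt = t s.src := by
    rw [hab.1 k, Θ.ty_phi (a.mem k)]
    exact (hcls k).1.symm
  have hphis : (Θ.phi s).src = y := by rw [Θ.src_phi hs, hy]
  have hphit : t (Θ.phi s).tgt = t (b.d k).tgt := by rw [Θ.ty_phi hs, hbt]
  have hphim := Θ.phi_mem hs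
  rcases Θ.kind (b.d k) (b.mem k) with hfull | ⟨-, hloop⟩
  · have hs'1 : t s'.src = t (b.d k).src := by rw [hs's, hbs, hy]
    have hs'2 : t s'.tgt = t (b.d k).tgt := by rw [hs't, hk', b.tgt_ty k' k]
    have hs'm := hfull s' hs'1 hs'2
    rcases Θ.only _ hphim s' hs'm (by rw [hs's, hphis]) (by rw [hs'2, hphit]) with h1 | h1
    · rw [← h1]
      exact ⟨hs'e, hs't⟩
    · have h2 : s' = s.inv := by
        rw [h1]
        exact Θ.tau_tau _ (Θ.inv_mem s hs)
      have h3 : s.edge = e' := by rw [← hs'e, h2, Dart.edge_inv]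
      have h4 := hc h3
      have h5 : s.src = y ∧ s ≠ s.inv := by
        by_contra hcon
        have h6 : {d : H.Dart | d.edge = e' ∧ d.src = y} ⊆ {s.inv} := by
          rintro d ⟨hd1, hd2⟩
          rw [Set.mem_singleton_iff]
          rcases Dart.eq_or_inv (h3.trans hd1.symm) with h7 | h7
          · subst h7
            by_contra h8
            exact hcon ⟨hd2, h8⟩
          · exact h7
        have h7 : H.inc e' y ≤ 1 := by
          unfold inc
          refine (Set.ncard_le_ncard h6 (Set.finite_singleton _)).trans ?_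
          rw [Set.ncard_singleton]
        omega
      have h6 := Θ.only _ (Θ.inv_mem s hs) s hs (by rw [Dart.src_inv, h5.1, hy])
        (by rw [Dart.tgt_inv, h5.1, hy])
      rcases h6 with h6 | h6
      · exact absurd h6 h5.2
      · have h7 : Θ.phi s = s := h6.symm
        rw [h7]
        refine ⟨h3, ?_⟩
        rw [hy, ← hs't, h2, Dart.tgt_inv, h5.1]
  · have h1 := hloop s.inv (Θ.inv_mem s hs) (by rw [Dart.src_inv, hbs]) (by rw [Dart.tgt_inv, hbt])
    have h2 : Θ.phi s = s := by
      unfold phi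
      rw [h1.1, Dart.inv_inv]
    have h3 := hloop (b.d k) (b.mem k) rfl rfl
    have h4 : s'.src = (b.d k).src ∧ s'.tgt = (b.d k).src := by
      rcases Dart.eq_or_inv (hk.symm.trans hs'e.symm) with h7 | h7
      · rw [h7]
        exact ⟨rfl, h3.2⟩
      · rw [h7, Dart.src_inv, Dart.tgt_inv]
        exact ⟨h3.2, rfl⟩
    have h5 : z = y := by rw [← hs's, ← hs't, h4.1, h4.2]
    rw [h2]
    refine ⟨?_, by rw [hy, h5]⟩
    have h6 : s.src = (b.d k).src := by
      rw [← h4.1, hs's, ← hy]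
      have h8 := h1.2
      rwa [Dart.src_inv, Dart.tgt_inv] at h8
    rcases Θ.only _ (b.mem k) s hs h6 (by
      rw [hbt]
      have h8 := h1.2
      rw [Dart.src_inv, Dart.tgt_inv] at h8
      rw [h8]) with h7 | h7
    · rw [h7, hk]
    · rw [h7, h3.1, Dart.edge_inv, hk]

/-- Continuation of a run by a slide. -/
theorem slide_next {a b : Node Θ K} (hab : Slide a b) {k : K} {s : H.Dart} (hm : Match a k s)
    {y z : V} {e e' : E} (hs : s.edge = e) (hy : s.tgt = y) (hj : H.Joins e' y z)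
    (he' : ∃ k, e' = (b.d k).edge) (hz : ∃ k, z = (b.d k).tgt)
    (hc : e = e' → 2 ≤ H.inc e y) :
    Match b k (Θ.phi s) ∧ (Θ.phi s).edge = e' ∧ (Θ.phi s).tgt = z := by
  have hmem := hm.mem
  have hcls : ∀ k', t s.src = t (a.d k').src ∧ t s.tgt = t (a.d k').tgt := by
    intro k'
    rw [hm.src, hm.tgt]
    exact ⟨a.src_ty k k', a.tgt_ty k k'⟩
  have h1 := slide_raw hab hmem hcls hy hj he' hz (by
    intro h2
    have h3 : e = e' := hs.symm.trans h2
    rw [← h3]
    exact hc h3)
  refine ⟨?_, h1⟩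
  rcases hm with rfl | ⟨h2, h3, h4, h5, h6⟩
  · left
    rw [hab.1 k]
  · right
    refine ⟨?_, Θ.phi_mem h3, ?_, ?_, ?_⟩
    · intro k'
      rw [hab.1 k', Θ.src_phi (a.mem k'), Θ.ty_phi (a.mem k')]
      exact ⟨(h2 k').1.symm, hab.2 k'⟩
    · rw [hab.1 k, Θ.src_phi (a.mem k), Θ.src_phi h3, h5]
    · rw [hab.1 k, Θ.ty_phi (a.mem k), Θ.ty_phi h3, h4]
    · intro r
      rw [hab.1 k, ← Function.iterate_succ_apply, ← Function.iterate_succ_apply]
      exact h6 (r + 1)

end Thin

end Graph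

end Pool.Agent.Lib.MP_9c5086_lc
end

section

/-!
The first dart of a run.
-/

namespace Pool.Agent.Lib.MP_9c5086_lc

namespace Graph

variable {V E I : Type} {H : Graph V E} {t : V → I}

namespace Thin

variable {Θ : Thin H t} {K : Type} [Fintype K] {N : ℕ}

private theorem joins_or {e : E} {y z v w : V} (h : H.Joins e y z) (h' : H.Joins e v w) :
    (y = v ∧ z = w) ∨ (y = w ∧ z = v) := by
  rcases h with ⟨h1, h2⟩ | ⟨h1, h2⟩ <;> rcases h' with ⟨h3, h4⟩ | ⟨h3, h4⟩
  · exact Or.inl ⟨h1.trans h3.symm, h2.trans h4.symm⟩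
  · exact Or.inr ⟨h1.trans h3.symm, h2.trans h4.symm⟩
  · exact Or.inr ⟨h2.trans h4.symm, h1.trans h3.symm⟩
  · exact Or.inl ⟨h2.trans h4.symm, h1.trans h3.symm⟩

/-- iterated slides -/
private theorem exists_iter {a : Node Θ K} (ha : IIdbl a) (r : ℕ) :
    ∃ b : Node Θ K, (∀ k, b.d k = Θ.phi^[r] (a.d k)) ∧
      ∀ k, t (b.d k).src = t (a.d k).src ∧ t (b.d k).tgt = t (a.d k).tgt := by
  induction r with
  | zero => exact ⟨a, fun k => rfl, fun k => ⟨rfl, rfl⟩⟩
  | succ r ih =>
    obtain ⟨b, hb, hty⟩ := ih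
    refine ⟨b.sl, fun k => ?_, fun k => ?_⟩
    · rw [Function.iterate_succ_apply', ← hb k]
      rfl
    · have h1 : (b.sl.d k).src = (b.d k).tgt := Θ.src_phi (b.mem k)
      have h2 : t (b.sl.d k).tgt = t (b.d k).src := Θ.ty_phi (b.mem k)
      rw [h1, h2, (hty k).1, (hty k).2]
      exact ⟨(ha k).1.symm, (ha k).1⟩

/-- The first dart of a run, in a class which is not a double class joining a block with itself. -/
theorem entry_simple {a : Node Θ K} (ha : ¬ IIdbl a) {y z : V} {e : E} (hj : H.Joins e y z)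
    (he : ∃ k, e = (a.d k).edge) (hy : ∃ k, y = (a.d k).src) (hz : ∃ k, z = (a.d k).tgt) :
    ∃ k, e = (a.d k).edge ∧ y = (a.d k).src ∧ z = (a.d k).tgt := by
  obtain ⟨k, hk⟩ := he
  obtain ⟨k', hk'⟩ := hy
  have hjk := (a.d k).joins
  rw [← hk] at hjk
  rcases joins_or hj hjk with ⟨h1, h2⟩ | ⟨h1, h2⟩
  · exact ⟨k, hk, h1, h2⟩
  -- the edge is used in the other direction
  have hii : ∀ l, t (a.d l).src = t (a.d l).tgt := by
    intro l
    rw [a.src_ty l k', ← hk', h1]
    exact a.tgt_ty k l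
  have hnd : ∀ l, ¬ Θ.dbl (t (a.d l).src) (t (a.d l).tgt) := by
    intro l hl
    apply ha
    intro m
    refine ⟨hii m, ?_⟩
    rw [a.src_ty m l, a.tgt_ty m l]
    exact hl
  obtain ⟨d, hd1, hd2, hd3⟩ := hj.exists_dart
  have hs : t d.src = t (a.d k').src := by rw [hd2, hk']
  have ht : t d.tgt = t (a.d k').tgt := by
    rw [hd3, h2, a.src_ty k k']
    exact hii k'
  have hmem : d ∈ Θ.sel := by
    rcases Θ.kind _ (a.mem k') with h | h
    · exact h d hs ht
    · exact absurd h.1 (hnd k')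
  have hsrc : d.src = (a.d k').src := by rw [hd2, hk']
  have hda : d = a.d k' := by
    rcases Θ.only _ (a.mem k') d hmem hsrc ht with h | h
    · exact h
    · rw [h]
      exact (Θ.tau_eq_iff (a.mem k')).2 (hnd k')
  refine ⟨k', ?_, hk', ?_⟩
  · rw [← hd1, hda]
  · rw [← hd3, hda]

/-- The first dart of a run, in a double class joining a block with itself. -/
theorem entry_window [Finite E] [Nonempty K] (hK : Fintype.card K ≤ 3) (hN : Θ.IsPeriod N)
    (a : Node Θ K) (ha : IIdbl a) (fv : ℕ → V) (fe : ℕ → E)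
    (hv : ∀ r, r ≤ N → ∃ k, fv r = (Θ.phi^[r] (a.d k)).src)
    (hw : ∀ r, r ≤ N → ∃ k, fv (r + 1) = (Θ.phi^[r] (a.d k)).tgt)
    (hj : ∀ r, r ≤ N → H.Joins (fe r) (fv r) (fv (r + 1)))
    (he : ∀ r, r ≤ N → ∃ k, fe r = (Θ.phi^[r] (a.d k)).edge)
    (hc : ∀ r, r + 1 ≤ N → fe r = fe (r + 1) → 2 ≤ H.inc (fe r) (fv (r + 1))) :
    ∃ k s, Match a k s ∧ s.edge = fe 0 ∧ s.src = fv 0 ∧ s.tgt = fv 1 := by
  obtain ⟨s, hs1, hs2, hs3⟩ := (hj 0 (Nat.zero_le _)).exists_dart
  have hmem : s ∈ Θ.sel := by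
    obtain ⟨k, hk⟩ := he 0 (Nat.zero_le _)
    have h1 : (a.d k).edge = s.edge := by
      rw [hs1, hk]
      rfl
    rcases Dart.eq_or_inv h1 with h | h
    · rw [h]; exact a.mem k
    · rw [h]; exact Θ.inv_mem _ (a.mem k)
  have hcls : ∀ k, t s.src = t (a.d k).src ∧ t s.tgt = t (a.d k).tgt := by
    intro k
    obtain ⟨k1, hk1⟩ := hv 0 (Nat.zero_le _)
    obtain ⟨k2, hk2⟩ := hw 0 (Nat.zero_le _)
    constructor
    · rw [hs2, hk1]
      exact a.src_ty k1 k
    · rw [hs3, hk2]
      exact a.tgt_ty k2 k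
  have hmemr : ∀ r, Θ.phi^[r] s ∈ Θ.sel := fun r => Θ.iterate_mem hmem r
  have hclsr : ∀ r, ∀ k, t (Θ.phi^[r] s).src = t (a.d k).src ∧
      t (Θ.phi^[r] s).tgt = t (a.d k).tgt := by
    intro r
    induction r with
    | zero => exact hcls
    | succ r ih =>
      intro k
      rw [Function.iterate_succ_apply', Θ.src_phi (hmemr r), Θ.ty_phi (hmemr r), (ih k).1,
        (ih k).2]
      exact ⟨(ha k).1.symm, (ha k).1⟩
  have key : ∀ r, r ≤ N → (Θ.phi^[r] s).edge = fe r ∧ (Θ.phi^[r] s).src = fv r ∧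
      (Θ.phi^[r] s).tgt = fv (r + 1) := by
    intro r
    induction r with
    | zero => exact fun _ => ⟨hs1, hs2, hs3⟩
    | succ r ih =>
      intro hr
      obtain ⟨h1, h2, h3⟩ := ih (by omega)
      obtain ⟨b, hb, hbty⟩ := exists_iter ha r
      have hslide : Slide b b.sl := by
        refine ⟨fun _ => rfl, fun k => ?_⟩
        rw [(hbty k).1, (hbty k).2, ← (ha k).1]
        have := (ha k).2
        rw [← (ha k).1] at this
        exact this
      have hbsl : ∀ k, b.sl.d k = Θ.phi^[r + 1] (a.d k) := by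
        intro k
        rw [Function.iterate_succ_apply', ← hb k]
        rfl
      have hraw := slide_raw (s := Θ.phi^[r] s) (y := fv (r + 1)) (z := fv (r + 1 + 1))
        (e' := fe (r + 1)) hslide (hmemr r) (fun k => by
          rw [(hbty k).1, (hbty k).2]
          exact hclsr r k) h3 (hj (r + 1) hr) (by
          obtain ⟨k, hk⟩ := he (r + 1) hr
          exact ⟨k, by rw [hbsl]; exact hk⟩) (by
          obtain ⟨k, hk⟩ := hw (r + 1) hr
          exact ⟨k, by rw [hbsl]; exact hk⟩) (by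
          intro h
          rw [h1] at h
          rw [← h]
          exact hc r hr h)
      rw [Function.iterate_succ_apply']
      refine ⟨hraw.1, ?_, hraw.2⟩
      rw [Θ.src_phi (hmemr r), h3]
  have hper : ∀ d ∈ Θ.sel, ∀ r, Θ.phi^[r % N] d = Θ.phi^[r] d := by
    intro d hd r
    have h1 : Function.IsPeriodicPt Θ.phi N d := hN.2 d hd
    exact h1.iterate_mod_apply r
  have hlt : ∀ r, r % N ≤ N := fun r => (Nat.mod_lt r hN.1).le
  obtain ⟨k, hk⟩ := coverage hK a ha s hmem hcls
    (by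
      intro r
      obtain ⟨k, hk⟩ := he (r % N) (hlt r)
      refine ⟨k, ?_⟩
      rw [← hper s hmem r, ← hper _ (a.mem k) r, ← hk]
      exact (key (r % N) (hlt r)).1)
    (by
      intro r
      obtain ⟨k, hk⟩ := hv (r % N) (hlt r)
      refine ⟨k, ?_⟩
      rw [← hper s hmem r, ← hper _ (a.mem k) r, ← hk]
      exact (key (r % N) (hlt r)).2.1)
  exact ⟨k, s, Or.inr ⟨ha, hmem, (hcls k).1, (hcls k).2, hk⟩, hs1, hs2, hs3⟩

end Thin

end Graph

end Pool.Agent.Lib.MP_9c5086_lc
end

section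

/-!
The relation realized by a spider.
-/

namespace Pool.Agent.Lib.MP_9c5086_lc

namespace Graph

variable {V E I : Type} {H : Graph V E} {t : V → I}

namespace Spider

variable {S : Setup H t Bool} {K P : Type} (A : Spider S K P)

/-- The body vertex `r`. -/
private def bv (r : ℕ) : A.Vtx := Sum.inl ⟨min r A.body.n, by omega⟩

/-- The leg vertex `s`. -/
private def lv (p : P) (s : ℕ) : A.Vtx :=
  if s = 0 then Sum.inl ⟨A.pos p, Nat.lt_succ_of_le (A.pos_le p)⟩ else
    Sum.inr ⟨p, ⟨min (s - 1) ((A.leg p).len - 1), by have := (A.leg p).len_pos; omega⟩⟩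

private theorem bv_le {r : ℕ} (h : r ≤ A.body.n) :
    A.bv r = Sum.inl ⟨r, Nat.lt_succ_of_le h⟩ := by
  unfold bv
  congr 2
  exact min_eq_left h

private theorem bv_ne (r : ℕ) (h : r < A.body.n) : A.bv (r + 1) ≠ A.rt := by
  rw [A.bv_le h]
  unfold rt
  intro h1
  have h2 := Sum.inl_injective h1
  have h3 := congrArg Fin.val h2
  simp at h3

private theorem par_bv {r : ℕ} (h : r < A.body.n) : A.par (A.bv (r + 1)) = A.bv r := by
  rw [A.bv_le h, A.bv_le h.le]
  rfl

private theorem lv_zero (p : P) :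
    A.lv p 0 = Sum.inl ⟨A.pos p, Nat.lt_succ_of_le (A.pos_le p)⟩ := rfl

private theorem lv_succ (p : P) {s : ℕ} (h : s < (A.leg p).len) :
    A.lv p (s + 1) = Sum.inr ⟨p, ⟨s, h⟩⟩ := by
  unfold lv
  rw [if_neg (Nat.succ_ne_zero s)]
  congr 3
  simp only [Nat.add_sub_cancel]
  omega

private theorem lv_ne (p : P) {s : ℕ} (h : s < (A.leg p).len) : A.lv p (s + 1) ≠ A.rt := by
  rw [A.lv_succ p h]
  unfold rt
  intro h1
  cases h1

private theorem par_lv (p : P) {s : ℕ} (h : s < (A.leg p).len) :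
    A.par (A.lv p (s + 1)) = A.lv p s := by
  rw [A.lv_succ p h]
  cases s with
  | zero =>
    rw [A.lv_zero]
    rfl
  | succ s =>
    rw [A.lv_succ p (by omega)]
    rfl

/-- Soundness of a spider: the values of the ports are the values of a state. -/
theorem sound_tree [Finite E] [Finite P] {c : P → Bool} {fv : A.Vtx → V}
    {fe : A.Vtx → A.Vtx → E} (h : A.tree.proto.Sol c fv fe) : ∃ k, ∀ p, c p = A.val p k := by
  obtain ⟨h1, h2, h3, h4⟩ := A.tree.sol_prop h
  replace h1 : ∀ u, ∃ k, fv u = A.vt u k := h1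
  replace h2 : ∀ u, u ≠ A.rt → H.Joins (fe (A.par u) u) (fv (A.par u)) (fv u) ∧
      ∃ k, fe (A.par u) u = (A.dt u k).edge := h2
  replace h3 : ∀ u u', u ≠ A.rt → u' ≠ A.rt → A.par u' = u → fe (A.par u) u = fe u u' →
      2 ≤ H.inc (fe (A.par u) u) (fv u) := h3
  replace h4 : ∀ p, fv (A.pv p) = (S.dc (c p)).tgt := h4
  obtain ⟨k, hk⟩ := A.body.sound (fun r => fv (A.bv r)) (fun r => fe (A.bv r) (A.bv (r + 1)))
    (by
      intro r hr
      obtain ⟨k, hk⟩ := h1 (A.bv r)
      refine ⟨k, ?_⟩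
      change fv (A.bv r) = _
      rw [hk, A.bv_le hr]
      rfl)
    (by
      intro r hr
      obtain ⟨h5, k, h6⟩ := h2 (A.bv (r + 1)) (A.bv_ne r hr)
      rw [A.par_bv hr] at h5 h6
      refine ⟨h5, k, ?_⟩
      change fe (A.bv r) (A.bv (r + 1)) = _
      rw [h6, A.bv_le hr]
      rfl)
    (by
      intro r hr he
      have h5 := h3 (A.bv (r + 1)) (A.bv (r + 2)) (A.bv_ne r (by omega))
        (A.bv_ne (r + 1) hr) (A.par_bv hr)
      rw [A.par_bv (by omega)] at h5
      exact h5 he)
  refine ⟨k, fun p => ?_⟩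
  obtain ⟨b, hb⟩ := (A.leg p).sound_β (fun s => fv (A.lv p s))
    (fun s => fe (A.lv p s) (A.lv p (s + 1)))
    (by
      intro s hs
      obtain ⟨k', hk'⟩ := h1 (A.lv p s)
      refine ⟨A.val p k', ?_⟩
      change fv (A.lv p s) = _
      cases s with
      | zero =>
        rw [hk', A.lv_zero, A.start]
        rfl
      | succ s =>
        rw [hk', A.lv_succ p (by omega)]
        rfl)
    (by
      intro s hs
      obtain ⟨h5, k', h6⟩ := h2 (A.lv p (s + 1)) (A.lv_ne p hs)
      rw [A.par_lv p hs] at h5 h6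
      refine ⟨h5, A.val p k', ?_⟩
      change fe (A.lv p s) (A.lv p (s + 1)) = _
      rw [h6, A.lv_succ p hs]
      rfl)
    (by
      intro s hs he
      have h5 := h3 (A.lv p (s + 1)) (A.lv p (s + 2)) (A.lv_ne p (by omega))
        (A.lv_ne p (s := s + 1) hs) (A.par_lv p hs)
      rw [A.par_lv p (by omega)] at h5
      exact h5 he)
  have h5 : A.val p k = b := by
    have h6 := hb 0 (Nat.zero_le _)
    have h7 := hk (A.pos p) (A.pos_le p)
    simp only [A.lv_zero] at h6
    simp only [A.bv_le (A.pos_le p)] at h7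
    rw [h7, ← A.start] at h6
    have h8 := A.start_ne p
    cases h9 : A.val p k <;> cases b <;> rw [h9] at h6 <;>
      first | rfl | exact absurd h6 h8 | exact absurd h6.symm h8
  have h6 : c p = b := by
    have h7 := hb (A.leg p).len le_rfl
    have h8 : A.lv p (A.leg p).len = A.pv p := by
      obtain ⟨l, hl⟩ : ∃ l, (A.leg p).len = l + 1 :=
        ⟨(A.leg p).len - 1, by have := (A.leg p).len_pos; omega⟩
      rw [hl, A.lv_succ p (by omega)]
      unfold pv
      congr 3
      omega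
    simp only [h8, (A.leg p).last_β, Dart.src_inv] at h7
    rw [h4 p] at h7
    have h9 := A.tgt_ne
    cases h10 : c p <;> cases b <;> rw [h10] at h7 <;>
      first | rfl | exact absurd h7 h9 | exact absurd h7.symm h9
  rw [h5, h6]

/-- The relation realized by a spider. -/
theorem real [Finite E] [Nonempty E] [Finite P] :
    Real S P (fun _ => false) (fun c => ∃ k, ∀ p, c p = A.val p k) := by
  refine ⟨inferInstance, A.tree.proto.gadget, fun c => ?_⟩
  rw [Proto.sat_iff]
  constructor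
  · rintro ⟨k, hk⟩
    refine A.tree.exists_sol k c (fun p => ?_) (fun p => ?_)
    · change (S.dc (A.val p k)).inv.edge = _
      rw [Dart.edge_inv, hk p]
      rfl
    · change (S.dc (A.val p k)).inv.tgt = _
      rw [Dart.tgt_inv, S.src_dc]
  · rintro ⟨fv, fe, h⟩
    exact A.sound_tree h

end Spider

end Graph

end Pool.Agent.Lib.MP_9c5086_lc
end

section

/-!
Good paths are sound: a partial cover along a good path which obeys the lists visits the same
vertices as one of the states.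
-/

namespace Pool.Agent.Lib.MP_9c5086_lc

namespace Graph

variable {V E I : Type} {H : Graph V E} {t : V → I}

namespace Thin

variable {Θ : Thin H t} {K : Type} [Fintype K] {N : ℕ}

/-- The first dart of a run along a good path. -/
private theorem path_entry [Finite E] [Nonempty K] (hK : Fintype.card K ≤ 3) (hN : Θ.IsPeriod N)
    (p : GPath Θ K N) (fv : ℕ → V) (fe : ℕ → E)
    (hv : ∀ r, r < p.n → ∃ k, fv r = ((p.ν r).d k).src)
    (hw : ∀ r, r < p.n → ∃ k, fv (r + 1) = ((p.ν r).d k).tgt)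
    (hj : ∀ r, r < p.n → H.Joins (fe r) (fv r) (fv (r + 1)))
    (he : ∀ r, r < p.n → ∃ k, fe r = ((p.ν r).d k).edge)
    (hc : ∀ r, r + 1 < p.n → fe r = fe (r + 1) → 2 ≤ H.inc (fe r) (fv (r + 1)))
    (r : ℕ) (hr : r < p.n) (h0 : r = 0 ∨ ¬ Slide (p.ν (r - 1)) (p.ν r)) :
    ∃ k s, Match (p.ν r) k s ∧ s.edge = fe r ∧ s.src = fv r ∧ s.tgt = fv (r + 1) := by
  by_cases ha : IIdbl (p.ν r)
  · obtain ⟨h1, h2⟩ := p.win r hr ha h0
    exact entry_window hK hN (p.ν r) ha (fun j => fv (r + j)) (fun j => fe (r + j))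
      (by
        intro j hj'
        obtain ⟨k, hk⟩ := hv (r + j) (by omega)
        exact ⟨k, by rw [← h2 j hj' k]; exact hk⟩)
      (by
        intro j hj'
        obtain ⟨k, hk⟩ := hw (r + j) (by omega)
        exact ⟨k, by rw [← h2 j hj' k]; exact hk⟩)
      (fun j hj' => hj (r + j) (by omega))
      (by
        intro j hj'
        obtain ⟨k, hk⟩ := he (r + j) (by omega)
        exact ⟨k, by rw [← h2 j hj' k]; exact hk⟩)
      (fun j hj' => hc (r + j) (by omega))
  · obtain ⟨k, h1, h2, h3⟩ := entry_simple ha (hj r hr) (he r hr) (hv r hr) (hw r hr)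
    exact ⟨k, (p.ν r).d k, Or.inl rfl, h1.symm, h2.symm, h3.symm⟩

/-- Good paths are sound. -/
theorem path_sound [Finite E] [Nonempty K] (hK : Fintype.card K ≤ 3) (hN : Θ.IsPeriod N)
    (p : GPath Θ K N) (fv : ℕ → V) (fe : ℕ → E)
    (hv : ∀ r, r < p.n → ∃ k, fv r = ((p.ν r).d k).src)
    (hw : ∀ r, r < p.n → ∃ k, fv (r + 1) = ((p.ν r).d k).tgt)
    (hj : ∀ r, r < p.n → H.Joins (fe r) (fv r) (fv (r + 1)))
    (he : ∀ r, r < p.n → ∃ k, fe r = ((p.ν r).d k).edge)
    (hc : ∀ r, r + 1 < p.n → fe r = fe (r + 1) → 2 ≤ H.inc (fe r) (fv (r + 1))) :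
    ∃ k, ∀ r, r < p.n → fv r = ((p.ν r).d k).src ∧ fv (r + 1) = ((p.ν r).d k).tgt := by
  have key : ∀ r, r < p.n → ∃ k s, Match (p.ν r) k s ∧ s.edge = fe r ∧ s.src = fv r ∧
      s.tgt = fv (r + 1) ∧ ∀ r', r' ≤ r →
        fv r' = ((p.ν r').d k).src ∧ fv (r' + 1) = ((p.ν r').d k).tgt := by
    intro r
    induction r with
    | zero =>
      intro hr
      obtain ⟨k, s, h1, h2, h3, h4⟩ := path_entry hK hN p fv fe hv hw hj he hc 0 hr (Or.inl rfl)
      refine ⟨k, s, h1, h2, h3, h4, ?_⟩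
      intro r' hr'
      obtain rfl : r' = 0 := by omega
      rw [← h3, ← h4]
      exact ⟨h1.src, h1.tgt⟩
    | succ r ih =>
      intro hr
      obtain ⟨k, s, h1, h2, h3, h4, h5⟩ := ih (by omega)
      have hcomb : ∀ s', Match (p.ν (r + 1)) k s' → s'.src = fv (r + 1) →
          s'.tgt = fv (r + 1 + 1) → ∀ r', r' ≤ r + 1 →
          fv r' = ((p.ν r').d k).src ∧ fv (r' + 1) = ((p.ν r').d k).tgt := by
        intro s' h6 h7 h8 r' hr'
        rcases Nat.lt_or_ge r r' with h9 | h9
        · obtain rfl : r' = r + 1 := by omega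
          rw [← h7, ← h8]
          exact ⟨h6.src, h6.tgt⟩
        · exact h5 r' h9
      by_cases hsl : Slide (p.ν r) (p.ν (r + 1))
      · obtain ⟨h6, h7, h8⟩ := slide_next hsl h1 h2 h4 (hj (r + 1) hr) (he (r + 1) hr)
          (hw (r + 1) hr) (hc r hr)
        have h9 : (Θ.phi s).src = fv (r + 1) := by
          rw [h6.src, hsl.1 k, Θ.src_phi ((p.ν r).mem k), ← h1.tgt, h4]
        exact ⟨k, Θ.phi s, h6, h7, h9, h8, hcomb _ h6 h9 h8⟩
      · have htu : Turn (p.ν r) (p.ν (r + 1)) := by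
          rcases p.step r hr with h | h
          · exact absurd h hsl
          · exact h
        obtain ⟨k', s', h6, h7, h8, h9⟩ := path_entry hK hN p fv fe hv hw hj he hc (r + 1) hr
          (Or.inr hsl)
        have hkk : k' = k := by
          apply htu.2.1
          change ((p.ν r).d k').tgt = ((p.ν r).d k).tgt
          rw [← htu.1 k', ← h6.src, h8, ← h4, h1.tgt]
        subst hkk
        exact ⟨k', s', h6, h7, h8, h9, hcomb _ h6 h8 h9⟩
  have hpos := p.pos
  obtain ⟨k, s, -, -, -, -, h⟩ := key (p.n - 1) (by omega)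
  exact ⟨k, fun r hr => h r (by omega)⟩

end Thin

end Graph

end Pool.Agent.Lib.MP_9c5086_lc
end

section

/-!
Bodies and legs made of good paths.
-/

namespace Pool.Agent.Lib.MP_9c5086_lc

namespace Graph

variable {V E I : Type} {H : Graph V E} {t : V → I}

/-- The body with a single vertex. -/
def pointBody (H : Graph V E) (t : V → I) {K : Type} (d₀ : H.Dart) (σ : K → V)
    (h : ∀ k k', t (σ k) = t (σ k')) : Body H t K where
  n := 0
  σ _ := σ
  ν _ _ := d₀
  src_ν _ h := absurd h (Nat.not_lt_zero _)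
  tgt_ν _ h := absurd h (Nat.not_lt_zero _)
  ty _ _ := h
  nb r h := absurd h (by omega)
  sound fv _ h _ _ := by
    obtain ⟨k, hk⟩ := h 0 (Nat.zero_le _)
    exact ⟨k, fun r hr => by rw [Nat.le_zero.1 hr]; exact hk⟩

namespace Thin

variable {Θ : Thin H t} {N : ℕ}

/-- A step does not go back. -/
theorem Step.ne_inv {K : Type} [Fintype K] {a b : Node Θ K} (h : Step a b) (k : K) :
    b.d k ≠ (a.d k).inv := by
  rcases h with ⟨h1, h2⟩ | ⟨-, -, h3⟩
  · rw [h1 k]
    have h4 := (Θ.tau_ne _ (Θ.inv_mem _ (a.mem k))).2 (by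
      rw [Dart.src_inv, Dart.tgt_inv]
      exact h2 k)
    exact h4
  · intro h4
    apply h3 k
    rw [h4, Dart.tgt_inv]

/-- The target of a step. -/
theorem Step.src_eq {K : Type} [Fintype K] {a b : Node Θ K} (h : Step a b) (k : K) :
    (b.d k).src = (a.d k).tgt := by
  rcases h with ⟨h1, -⟩ | ⟨h1, -, -⟩
  · rw [h1 k]
    exact Θ.src_phi (a.mem k)
  · exact h1 k

/-- The body of a good path. -/
theorem exists_body {K : Type} [Fintype K] [Nonempty K] [Finite E] (hK : Fintype.card K ≤ 3)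
    (hN : Θ.IsPeriod N) (p : GPath Θ K N) : ∃ B : Body H t K, B.n = p.n ∧
      (∀ r, r < p.n → B.ν r = (p.ν r).d ∧ B.σ r = (p.ν r).srcs) ∧ B.σ p.n = p.last.tgts := by
  classical
  have hlast : ∀ r, r < p.n → ¬ r + 1 < p.n → r = p.n - 1 := fun r h h' => by omega
  have htgt : ∀ r, r < p.n → ∀ k, ((p.ν r).d k).tgt =
      (if r + 1 < p.n then (fun k => ((p.ν (r + 1)).d k).src) else fun k => (p.last.d k).tgt) k := by
    intro r hr k
    by_cases h : r + 1 < p.n
    · rw [if_pos h]
      exact ((p.step r h).src_eq k).symm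
    · rw [if_neg h]
      have h1 := hlast r hr h
      subst h1
      rfl
  have hty : ∀ r, r ≤ p.n → ∀ k k', t ((if r < p.n then (fun k => ((p.ν r).d k).src) else
      fun k => (p.last.d k).tgt) k) = t ((if r < p.n then (fun k => ((p.ν r).d k).src) else
      fun k => (p.last.d k).tgt) k') := by
    intro r _ k k'
    split_ifs with h
    · exact (p.ν r).src_ty k k'
    · exact p.last.tgt_ty k k'
  let B : Body H t K :=
    { n := p.n
      σ := fun r => if r < p.n then (fun k => ((p.ν r).d k).src) else fun k => (p.last.d k).tgt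
      ν := fun r => (p.ν r).d
      src_ν := fun r hr k => by
        rw [if_pos hr]
      tgt_ν := htgt
      ty := hty
      nb := fun r hr k => (p.step r hr).ne_inv k
      sound := by
        intro fv fe h1 h2 h3
        obtain ⟨k, hk⟩ := path_sound hK hN p fv fe
          (fun r hr => by
            obtain ⟨k, hk⟩ := h1 r hr.le
            rw [if_pos hr] at hk
            exact ⟨k, hk⟩)
          (fun r hr => by
            obtain ⟨k, hk⟩ := h1 (r + 1) hr
            exact ⟨k, by rw [htgt r hr k]; exact hk⟩)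
          (fun r hr => (h2 r hr).1) (fun r hr => (h2 r hr).2) h3
        refine ⟨k, fun r hr => ?_⟩
        by_cases h : r < p.n
        · rw [if_pos h]
          exact (hk r h).1
        · rw [if_neg h]
          have hpos := p.pos
          have hr' : r = (p.n - 1) + 1 := by omega
          rw [hr']
          exact (hk (p.n - 1) (by omega)).2 }
  refine ⟨B, rfl, fun r hr => ⟨rfl, ?_⟩, ?_⟩
  · show (if r < p.n then (fun k => ((p.ν r).d k).src) else fun k => (p.last.d k).tgt) = _
    rw [if_pos hr]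
    rfl
  · show (if p.n < p.n then (fun k => ((p.ν p.n).d k).src) else fun k => (p.last.d k).tgt) = _
    rw [if_neg (lt_irrefl _)]
    rfl

end Thin

end Graph

end Pool.Agent.Lib.MP_9c5086_lc
end

section

/-!
Legs made of good paths.
-/

namespace Pool.Agent.Lib.MP_9c5086_lc

namespace Graph

variable {V E I : Type} {H : Graph V E} {t : V → I}

namespace Thin

variable {Θ : Thin H t} {N : ℕ}

/-- The darts of a leg. -/
private def legβ (P : Port Θ) (p : GPath Θ Bool N) (s : ℕ) : Bool → H.Dart :=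
  if s < p.n then (p.ν s).d else P.n.inv.d

private theorem legβ_lt (P : Port Θ) (p : GPath Θ Bool N) {s : ℕ} (h : s < p.n) :
    legβ P p s = (p.ν s).d := if_pos h

private theorem legβ_len (P : Port Θ) (p : GPath Θ Bool N) :
    legβ P p p.n = P.n.inv.d := if_neg (lt_irrefl _)

private theorem leg_src (P : Port Θ) (p : GPath Θ Bool N) (h : Step p.last P.n.inv) {s : ℕ}
    (hs : s < p.n) (b : Bool) : (legβ P p (s + 1) b).src = (legβ P p s b).tgt := by
  rw [legβ_lt P p hs]
  rcases Nat.lt_or_ge (s + 1) p.n with h1 | h1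
  · rw [legβ_lt P p h1]
    exact Step.src_eq (p.step s h1) b
  · have h2 : s + 1 = p.n := by omega
    have h3 : s = p.n - 1 := by omega
    rw [h2, legβ_len, h3]
    exact Step.src_eq h b

private theorem leg_ne (P : Port Θ) (p : GPath Θ Bool N) (h : Step p.last P.n.inv) {s : ℕ}
    (hs : s < p.n) (b : Bool) : legβ P p (s + 1) b ≠ (legβ P p s b).inv := by
  rw [legβ_lt P p hs]
  rcases Nat.lt_or_ge (s + 1) p.n with h1 | h1
  · rw [legβ_lt P p h1]
    exact Step.ne_inv (p.step s h1) b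
  · have h2 : s + 1 = p.n := by omega
    have h3 : s = p.n - 1 := by omega
    rw [h2, legβ_len, h3]
    exact Step.ne_inv h b

/-- A leg starting with a given node. -/
theorem exists_leg [Finite E] (P : Port Θ) (a : Node Θ Bool) (h : Reach a P.n.inv) :
    ∃ L : Leg P.setup, L.β 0 = a.d := by
  obtain ⟨N, hN⟩ := Θ.exists_period
  have hK : Fintype.card Bool ≤ 3 := by decide
  obtain ⟨p, hp0, hpl⟩ := GPath.exists_leg hK hN a P.n.inv h
  refine ⟨{
    len := p.n
    len_pos := p.pos
    β := legβ P p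
    src_β := fun s hs b => leg_src P p hpl hs b
    ty_β := ?_
    nb_β := fun s hs b => leg_ne P p hpl hs b
    last_β := fun b => by rw [legβ_len]; rfl
    sound_β := ?_ }, ?_⟩
  · intro s hs b b'
    rcases Nat.lt_or_ge s p.n with h1 | h1
    · rw [legβ_lt P p h1]
      exact (p.ν s).src_ty b b'
    · have h2 : s = p.n := by omega
      rw [h2, legβ_len]
      exact P.n.inv.src_ty b b'
  · intro fv fe hv hj hc
    have e1 : ∀ r, r < p.n → ∃ k, fv r = ((p.ν r).d k).src := by
      intro r hr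
      obtain ⟨b, hb⟩ := hv r hr.le
      exact ⟨b, by rw [hb, legβ_lt P p hr]⟩
    have e2 : ∀ r, r < p.n → ∃ k, fv (r + 1) = ((p.ν r).d k).tgt := by
      intro r hr
      obtain ⟨b, hb⟩ := hv (r + 1) hr
      exact ⟨b, by rw [hb, leg_src P p hpl hr, legβ_lt P p hr]⟩
    have e3 : ∀ r, r < p.n → ∃ k, fe r = ((p.ν r).d k).edge := by
      intro r hr
      obtain ⟨_, b, hb⟩ := hj r hr
      exact ⟨b, by rw [hb, legβ_lt P p hr]⟩
    obtain ⟨k, hk⟩ := path_sound hK hN p fv fe e1 e2 (fun r hr => (hj r hr).1) e3 hc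
    refine ⟨k, fun s hs => ?_⟩
    rcases Nat.lt_or_ge s p.n with h1 | h1
    · rw [legβ_lt P p h1]
      exact (hk s h1).1
    · have h2 : s = p.n - 1 + 1 := by have := p.pos; omega
      have h3 : p.n - 1 < p.n := by have := p.pos; omega
      have h4 := (hk (p.n - 1) h3).2
      rw [h2, leg_src P p hpl h3, legβ_lt P p h3]
      exact h4
  · change legβ P p 0 = a.d
    rw [legβ_lt P p p.pos, hp0]

end Thin

end Graph

end Pool.Agent.Lib.MP_9c5086_lc
end

section

/-!
Pairs of coordinates of nodes in a bad component.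
-/

namespace Pool.Agent.Lib.MP_9c5086_lc

namespace Graph

variable {V E I : Type} {H : Graph V E} {t : V → I}

namespace Thin

variable {Θ : Thin H t}

/-- A block with a node of some type allows U-turns. -/
theorem HasType.uok {e : Node Θ (Fin 3)} {a b : Fin 3} (hab : a ≠ b) (h : HasType e a b) :
    Θ.UOk (t (e.d a).src) := by
  obtain ⟨⟨d1, hd1, d2, hd2, h1, h2, h3⟩, hsrc, -⟩ := h
  have hne : e.d b ≠ e.d a := fun hc => hab (e.inj hc.symm)
  have htau : e.d b = Θ.tau (e.d a) := by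
    rcases Θ.only _ (e.mem a) _ (e.mem b) hsrc.symm (e.tgt_ty b a) with h4 | h4
    · exact absurd h4 hne
    · exact h4
  have hdbl : Θ.dbl (t (e.d a).src) (t (e.d a).tgt) := by
    rw [← Θ.tau_ne _ (e.mem a), ← htau]
    exact hne
  obtain ⟨g, hg, hg1, hg2⟩ := Θ.ex _ (e.mem a) d1.src h1
  have hgt : t g.src = t (e.d a).src := by rw [hg1, h1]
  have hdbl' : Θ.dbl (t g.src) (t g.tgt) := by rw [hgt, hg2]; exact hdbl
  by_cases hc : t d1.tgt = t g.tgt
  · exact ⟨g, hg, d2, hd2, hgt, by rw [h2, hg1], by rw [← hc]; exact h3, Or.inl hdbl'⟩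
  · exact ⟨g, hg, d1, hd1, hgt, hg1.symm, hc, Or.inl hdbl'⟩

/-- Projections of reachability. -/
theorem Reach.pair {e e' : Node Θ (Fin 3)} (h : Reach e e') {a b : Fin 3} (hab : a ≠ b) :
    Reach (e.pair a b hab) (e'.pair a b hab) := by
  refine Relation.ReflTransGen.lift (fun n : Node Θ (Fin 3) => n.pair a b hab) ?_ _ _ h
  intro n n' hs
  have hinj : Function.Injective (fun k : Bool => if k = true then b else a) := by
    intro k k' hk
    cases k <;> cases k' <;> simp_all
  rcases hs with ⟨h1, h2⟩ | ⟨h1, h2, h3⟩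
  · exact Or.inl ⟨fun k => h1 _, fun k => h2 _⟩
  · refine Or.inr ⟨fun k => h1 _, ?_, fun k => h3 _⟩
    exact h2.comp hinj

/-- The exchange of the two coordinates. -/
private def bpSwap (n : Node Θ Bool) : Node Θ Bool :=
  n.pr (fun k => !k) (fun k k' h => by simpa using h) (by simp)

private theorem bpSwap_pair (e : Node Θ (Fin 3)) {a b : Fin 3} (hab : a ≠ b) :
    bpSwap (e.pair a b hab) = e.pair b a hab.symm := by
  apply Node.ext
  intro k
  cases k <;> rfl

private theorem bpSwap_reach {n n' : Node Θ Bool} (h : Reach n n') :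
    Reach (bpSwap n) (bpSwap n') := by
  refine Relation.ReflTransGen.lift bpSwap ?_ _ _ h
  intro n n' hs
  have hinj : Function.Injective (fun k : Bool => !k) := fun k k' h => by simpa using h
  rcases hs with ⟨h1, h2⟩ | ⟨h1, h2, h3⟩
  · exact Or.inl ⟨fun k => h1 _, fun k => h2 _⟩
  · refine Or.inr ⟨fun k => h1 _, ?_, fun k => h3 _⟩
    exact h2.comp hinj

private theorem bp_card2 : Fintype.card Bool ≤ 3 := by simp

private theorem bp_card3 : Fintype.card (Fin 3) ≤ 3 := by simp

/-- Nodes above the sources of the coordinates `a`, `c` at a node of the type `{a, b}`. -/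
private theorem bp_above [Finite E] {e : Node Θ (Fin 3)} {a b c : Fin 3} (hab : a ≠ b)
    (ht : HasType e a b) (hca : c ≠ a) (hcb : c ≠ b) (n : Node Θ Bool)
    (hn : (n.d false).src = (e.d a).src) (hn' : (n.d true).src = (e.d c).src) :
    Reach (e.pair a c hca.symm) n ∧ Reach (e.pair a c hca.symm) n.inv := by
  refine reach_uturn bp_card2 _ _ ?_ ?_ false ?_
  · funext k
    cases k
    · exact hn
    · exact hn'
  · have hne : (e.d c).src ≠ (e.d a).src := ht.2.2 c hca hcb
    intro k k' hk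
    cases k <;> cases k'
    · rfl
    · exact absurd (show (e.d a).src = (e.d c).src from hk).symm hne
    · exact absurd (show (e.d c).src = (e.d a).src from hk) hne
    · rfl
  · exact ht.uok hab

/-- Change of the first coordinate. -/
private theorem bp_first [Finite E] (e₀ : Node Θ (Fin 3))
    (h : ∀ a b, a ≠ b → ∃ e : Node Θ (Fin 3), Reach e₀ e ∧ HasType e a b)
    {e e' : Node Θ (Fin 3)} (he : Reach e₀ e) (he' : Reach e₀ e') {a b c : Fin 3}
    (hac : a ≠ c) (hbc : b ≠ c) : Reach (e.pair a c hac) (e'.pair b c hbc) := by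
  rcases eq_or_ne a b with rfl | hab
  · have h0 : Reach e e' := (he.symm bp_card3).trans he'
    exact h0.pair hac
  obtain ⟨d, hd, ht⟩ := h a b hab
  have g1 : Reach e d := (he.symm bp_card3).trans hd
  have g2 : Reach d e' := (hd.symm bp_card3).trans he'
  have h1 : Reach (e.pair a c hac) (d.pair a c hac) := g1.pair hac
  have h2 : Reach (d.pair b c hbc) (e'.pair b c hbc) := g2.pair hbc
  have h3 := (bp_above hab ht hac.symm hbc.symm (d.pair b c hbc) ht.2.1.symm rfl).1
  exact (h1.trans h3).trans h2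

/-- Change of the second coordinate. -/
private theorem bp_second [Finite E] (e₀ : Node Θ (Fin 3))
    (h : ∀ a b, a ≠ b → ∃ e : Node Θ (Fin 3), Reach e₀ e ∧ HasType e a b)
    {e e' : Node Θ (Fin 3)} (he : Reach e₀ e) (he' : Reach e₀ e') {a b c : Fin 3}
    (hac : c ≠ a) (hbc : c ≠ b) : Reach (e.pair c a hac) (e'.pair c b hbc) := by
  have h1 := bpSwap_reach (bp_first e₀ h he he' hac.symm hbc.symm)
  rwa [bpSwap_pair, bpSwap_pair] at h1

private theorem bp_all [Finite E] (e₀ : Node Θ (Fin 3))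
    (h : ∀ a b, a ≠ b → ∃ e : Node Θ (Fin 3), Reach e₀ e ∧ HasType e a b)
    {e e' : Node Θ (Fin 3)} (he : Reach e₀ e) (he' : Reach e₀ e') {a b a' b' : Fin 3}
    (hab : a ≠ b) (hab' : a' ≠ b') :
    Reach (e.pair a b hab) (e'.pair a' b' hab') := by
  by_cases h1 : a' = b
  · subst h1
    -- `(a, b) → (b, b')`
    by_cases h2 : b' = a
    · subst h2
      -- `(a, b) → (c, b) → (c, a) → (b, a)`
      obtain ⟨c, hca, hcb⟩ : ∃ c : Fin 3, c ≠ b' ∧ c ≠ a' := by
        revert hab; revert a' b'; decide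
      exact ((bp_first e₀ h he he hab hcb).trans
        (bp_second e₀ h he he (a := a') (b := b') hcb hca)).trans
        (bp_first e₀ h he he' hca hab')
    · -- `(a, b) → (a, b') → (b, b')`
      exact (bp_second e₀ h he he hab (Ne.symm h2)).trans
        (bp_first e₀ h he he' (Ne.symm h2) hab')
  · -- `(a, b) → (a', b) → (a', b')`
    exact (bp_first e₀ h he he hab h1).trans (bp_second e₀ h he he' h1 hab')

/-- All pairs of coordinates of nodes of a bad component, and their inverses, are equivalent. -/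
theorem reach_pair [Finite E] (e₀ : Node Θ (Fin 3))
    (h : ∀ a b, a ≠ b → ∃ e : Node Θ (Fin 3), Reach e₀ e ∧ HasType e a b)
    {e e' : Node Θ (Fin 3)} (he : Reach e₀ e) (he' : Reach e₀ e') {a b a' b' : Fin 3}
    (hab : a ≠ b) (hab' : a' ≠ b') :
    Reach (e.pair a b hab) (e'.pair a' b' hab') ∧
      Reach (e.pair a b hab) (e'.pair a' b' hab').inv := by
  refine ⟨bp_all e₀ h he he' hab hab', ?_⟩
  obtain ⟨d, hd, ht⟩ := h 0 1 (by decide)
  have h02 : (0 : Fin 3) ≠ 2 := by decide
  have h1 : Reach (d.pair 0 2 h02) (d.pair 0 2 h02).inv :=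
    (bp_above (c := 2) (by decide) ht (by decide) (by decide) (d.pair 0 2 h02) rfl rfl).2
  have h2 : Reach (e.pair a b hab) (d.pair 0 2 h02) := bp_all e₀ h he hd hab h02
  have h3 : Reach (d.pair 0 2 h02).inv (e'.pair a' b' hab').inv :=
    (bp_all e₀ h he' hd hab' h02).inv
  exact (h2.trans h1).trans h3

/-- At a node of the type `{a, b}` with third coordinate `c`, all nodes above the sources of the
coordinates `a` and `c` are equivalent to the pairs. -/
theorem reach_above [Finite E] (e₀ : Node Θ (Fin 3))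
    (h : ∀ a b, a ≠ b → ∃ e : Node Θ (Fin 3), Reach e₀ e ∧ HasType e a b)
    {e e' : Node Θ (Fin 3)} (he : Reach e₀ e) (he' : Reach e₀ e') {a b a' b' c : Fin 3}
    (hab : a ≠ b) (hab' : a' ≠ b') (ht : HasType e a b) (hca : c ≠ a) (hcb : c ≠ b)
    (n : Node Θ Bool) (hn : (n.d false).src = (e.d a).src) (hn' : (n.d true).src = (e.d c).src) :
    Reach n (e'.pair a' b' hab') ∧ Reach n (e'.pair a' b' hab').inv := by
  have h1 := (bp_above hab ht hca hcb n hn hn').1.symm bp_card2
  have h2 := reach_pair e₀ h he he' hca.symm hab'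
  exact ⟨h1.trans h2.1, h1.trans h2.2⟩

end Thin

end Graph

end Pool.Agent.Lib.MP_9c5086_lc
end
end
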