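import Pool.Agent.Lib.MP_9c5086_lc.BThin

/-!
Identities for `tau` and `phi`, and the operations on nodes.
-/

namespace Pool.Agent.Lib.MP_9c5086_lc

namespace Graph

variable {V E I : Type} {H : Graph V E} {t : V → I}

namespace Thin

variable (Θ : Thin H t)

theorem phi_mem {d : H.Dart} (h : d ∈ Θ.sel) : Θ.phi d ∈ Θ.sel := Θ.tau_mem _ (Θ.inv_mem d h)

theorem src_phi {d : H.Dart} (h : d ∈ Θ.sel) : (Θ.phi d).src = d.tgt := by
  unfold phi
  rw [Θ.tau_src _ (Θ.inv_mem d h), Dart.src_inv]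

theorem ty_phi {d : H.Dart} (h : d ∈ Θ.sel) : t (Θ.phi d).tgt = t d.src := by
  unfold phi
  rw [Θ.tau_ty _ (Θ.inv_mem d h), Dart.tgt_inv]

theorem phi_inv (d : H.Dart) : Θ.phi d.inv = Θ.tau d := by
  unfold phi
  rw [Dart.inv_inv]

theorem phi_inv_phi {d : H.Dart} (h : d ∈ Θ.sel) : Θ.phi (Θ.phi d).inv = d.inv := by
  rw [phi_inv]
  exact Θ.tau_tau _ (Θ.inv_mem d h)

theorem phi_inj {d d' : H.Dart} (h : d ∈ Θ.sel) (h' : d' ∈ Θ.sel) (he : Θ.phi d = Θ.phi d') :
    d = d' := by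
  have h1 := Θ.phi_inv_phi h
  have h2 := Θ.phi_inv_phi h'
  rw [he, h2] at h1
  exact (Dart.inv_injective h1).symm

theorem iterate_mem {d : H.Dart} (h : d ∈ Θ.sel) (j : ℕ) : Θ.phi^[j] d ∈ Θ.sel := by
  induction j with
  | zero => exact h
  | succ j ih =>
    rw [Function.iterate_succ_apply']
    exact Θ.phi_mem ih

/-- A selected dart is equal to `tau` of itself iff its class is not double. -/
theorem tau_eq_iff {d : H.Dart} (h : d ∈ Θ.sel) : Θ.tau d = d ↔ ¬ Θ.dbl (t d.src) (t d.tgt) := by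
  rw [← Θ.tau_ne d h]
  exact not_not.symm

/-- A number of steps after which `phi` is the identity on the selected darts. -/
def IsPeriod (N : ℕ) : Prop := 0 < N ∧ ∀ d ∈ Θ.sel, Θ.phi^[N] d = d

theorem exists_period [Finite E] : ∃ N, Θ.IsPeriod N := by
  set f : Θ.sel → Θ.sel := fun d => ⟨Θ.phi d.1, Θ.phi_mem d.2⟩ with hf
  have hinj : Function.Injective f := by
    intro d d' h
    exact Subtype.ext (Θ.phi_inj d.2 d'.2 (congrArg Subtype.val h))
  have hbij : Function.Bijective f := hinj.bijective_of_finite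
  have hit : ∀ (n : ℕ) (x : Θ.sel), (f^[n] x).1 = Θ.phi^[n] x.1 := by
    intro n
    induction n with
    | zero => intro x; rfl
    | succ n ih =>
      intro x
      rw [Function.iterate_succ_apply, Function.iterate_succ_apply, ih]
  set σ : Equiv.Perm Θ.sel := Equiv.ofBijective f hbij with hσ
  refine ⟨orderOf σ, orderOf_pos σ, fun d hd => ?_⟩
  have h1 : (f^[orderOf σ] ⟨d, hd⟩) = ⟨d, hd⟩ := by
    have h2 : f^[orderOf σ] = ⇑(σ ^ orderOf σ) := Equiv.Perm.iterate_eq_pow σ (orderOf σ)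
    rw [h2, pow_orderOf_eq_one]
    rfl
  have h3 := hit (orderOf σ) ⟨d, hd⟩
  rw [h1] at h3
  exact h3.symm

variable {Θ} {K : Type} [Fintype K]

/-- If a map of a finite set shifts a tuple without fixed points, so does its inverse. -/
theorem shift_inv (d : K → H.Dart) (f g : H.Dart → H.Dart) (hd : Function.Injective d)
    (h : ∀ k, ∃ k', k' ≠ k ∧ f (d k) = d k') (hfg : ∀ k, g (f (d k)) = d k) :
    ∀ k, ∃ k', k' ≠ k ∧ g (d k) = d k' := by
  choose s hs using h
  have hinj : Function.Injective s := by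
    intro k k' hk
    apply hd
    rw [← hfg k, ← hfg k', (hs k).2, (hs k').2, hk]
  have hsur : Function.Surjective s := Finite.surjective_of_injective hinj
  intro k
  obtain ⟨k0, rfl⟩ := hsur k
  refine ⟨k0, (hs k0).1.symm, ?_⟩
  rw [← (hs k0).2, hfg]

private theorem shift_aux (d : K → H.Dart) (f : H.Dart → H.Dart) (hd : Function.Injective d)
    (h : ∀ k, ∃ k', k' ≠ k ∧ d k = f (d k')) : ∀ k, ∃ k', k' ≠ k ∧ f (d k) = d k' := by
  choose s hs using h
  have hinj : Function.Injective s := by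
    intro k k' hk
    apply hd
    rw [(hs k).2, (hs k').2, hk]
  have hsur : Function.Surjective s := Finite.surjective_of_injective hinj
  intro k
  obtain ⟨k0, rfl⟩ := hsur k
  exact ⟨k0, (hs k0).1.symm, (hs k0).2.symm⟩

theorem nex_inv (a : Node Θ K) :
    ¬ (Fintype.card K = 3 ∧ ∀ k, ∃ k', k' ≠ k ∧ Θ.phi (a.d k).inv = (a.d k').inv) := by
  rintro ⟨hc, h⟩
  refine a.nex ⟨hc, shift_aux a.d Θ.phi a.inj fun k => ?_⟩
  obtain ⟨k', hk, h1⟩ := h k
  refine ⟨k', hk, ?_⟩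
  rw [Θ.phi_inv] at h1
  unfold phi
  rw [← h1, Θ.tau_tau _ (a.mem k)]

theorem nex_phi (a : Node Θ K) :
    ¬ (Fintype.card K = 3 ∧ ∀ k, ∃ k', k' ≠ k ∧ Θ.phi (Θ.phi (a.d k)) = Θ.phi (a.d k')) := by
  rintro ⟨hc, h⟩
  refine a.nex ⟨hc, fun k => ?_⟩
  obtain ⟨k', hk, h1⟩ := h k
  exact ⟨k', hk, Θ.phi_inj (Θ.phi_mem (a.mem k)) (a.mem k') h1⟩

theorem nex_tau (a : Node Θ K) :
    ¬ (Fintype.card K = 3 ∧ ∀ k, ∃ k', k' ≠ k ∧ Θ.phi (Θ.tau (a.d k)) = Θ.tau (a.d k')) := by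
  rintro ⟨hc, h⟩
  refine a.nex ⟨hc, shift_aux a.d Θ.phi a.inj fun k => ?_⟩
  obtain ⟨k', hk, h1⟩ := h k
  refine ⟨k', hk, ?_⟩
  have h2 : (Θ.tau (a.d k)).inv = a.d k' := by
    have h3 := Θ.tau_tau _ (Θ.inv_mem _ (Θ.tau_mem _ (a.mem k)))
    have h4 : Θ.tau (Θ.tau (a.d k)).inv = Θ.tau (a.d k') := h1
    rw [h4, Θ.tau_tau _ (a.mem k')] at h3
    exact h3.symm
  unfold phi
  rw [← h2, Dart.inv_inv, Θ.tau_tau _ (a.mem k)]

/-- The inverse node. -/
def Node.inv (a : Node Θ K) : Node Θ K where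
  d k := (a.d k).inv
  mem k := Θ.inv_mem _ (a.mem k)
  inj _ _ h := a.inj (Dart.inv_injective h)
  src_ty k k' := by simpa using a.tgt_ty k k'
  tgt_ty k k' := by simpa using a.src_ty k k'
  nex := nex_inv a

/-- The node obtained by applying `phi`. -/
def Node.sl (a : Node Θ K) : Node Θ K where
  d k := Θ.phi (a.d k)
  mem k := Θ.phi_mem (a.mem k)
  inj k k' h := a.inj (Θ.phi_inj (a.mem k) (a.mem k') h)
  src_ty k k' := by
    rw [Θ.src_phi (a.mem k), Θ.src_phi (a.mem k')]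
    exact a.tgt_ty k k'
  tgt_ty k k' := by
    rw [Θ.ty_phi (a.mem k), Θ.ty_phi (a.mem k')]
    exact a.src_ty k k'
  nex := nex_phi a

/-- The node obtained by applying `tau`. -/
def Node.ta (a : Node Θ K) : Node Θ K where
  d k := Θ.tau (a.d k)
  mem k := Θ.tau_mem _ (a.mem k)
  inj k k' h := a.inj (by
    have h1 := Θ.tau_tau _ (a.mem k)
    have h2 := Θ.tau_tau _ (a.mem k')
    have h3 : Θ.tau (a.d k) = Θ.tau (a.d k') := h
    rw [h3, h2] at h1
    exact h1.symm)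
  src_ty k k' := by
    rw [Θ.tau_src _ (a.mem k), Θ.tau_src _ (a.mem k')]
    exact a.src_ty k k'
  tgt_ty k k' := by
    rw [Θ.tau_ty _ (a.mem k), Θ.tau_ty _ (a.mem k')]
    exact a.tgt_ty k k'
  nex := nex_tau a

@[simp] theorem Node.inv_inv (a : Node Θ K) : a.inv.inv = a :=
  Node.ext fun k => Dart.inv_inv (a.d k)

@[simp] theorem Node.ta_ta (a : Node Θ K) : a.ta.ta = a :=
  Node.ext fun k => Θ.tau_tau _ (a.mem k)

theorem Node.sl_inv (a : Node Θ K) : a.inv.sl = a.ta :=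
  Node.ext fun k => Θ.phi_inv (a.d k)

instance [Finite E] : Finite (Node Θ K) :=
  Finite.of_injective (fun a : Node Θ K => a.d) fun _ _ h => Node.ext fun k => congrFun h k

/-- Two coordinates of a node. -/
def Node.pr {L : Type} [Fintype L] (a : Node Θ L) (f : K → L) (hf : Function.Injective f)
    (hK : Fintype.card K ≠ 3) : Node Θ K where
  d k := a.d (f k)
  mem k := a.mem (f k)
  inj _ _ h := hf (a.inj h)
  src_ty k k' := a.src_ty (f k) (f k')
  tgt_ty k k' := a.tgt_ty (f k) (f k')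
  nex h := hK h.1

/-- A node is nonempty if its class is double, so the slide is a step. -/
theorem step_sl (a : Node Θ K) (h : ∀ k, Θ.dbl (t (a.d k).tgt) (t (a.d k).src)) :
    Step a a.sl := Or.inl ⟨fun _ => rfl, h⟩

theorem step_inv_ta (a : Node Θ K) (h : ∀ k, Θ.dbl (t (a.d k).src) (t (a.d k).tgt)) :
    Step a.inv a.ta := by
  rw [← Node.sl_inv]
  refine step_sl _ fun k => ?_
  have := h k
  simpa [Node.inv] using this

/-- Steps are reversed by inversion. -/
theorem Step.inv {a b : Node Θ K} (h : Step a b) : Step b.inv a.inv := by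
  rcases h with ⟨h1, h2⟩ | ⟨h1, h2, h3⟩
  · refine Or.inl ⟨fun k => ?_, fun k => ?_⟩
    · show (a.d k).inv = Θ.phi (b.d k).inv
      rw [h1, Θ.phi_inv_phi (a.mem k)]
    · show Θ.dbl (t (b.d k).inv.tgt) (t (b.d k).inv.src)
      rw [Dart.tgt_inv, Dart.src_inv, h1, Θ.src_phi (a.mem k), Θ.ty_phi (a.mem k)]
      exact h2 k
  · refine Or.inr ⟨fun k => ?_, ?_, fun k => ?_⟩
    · show (a.d k).inv.src = (b.d k).inv.tgt
      rw [Dart.src_inv, Dart.tgt_inv, h1]
    · have h4 : (fun k => (b.inv.d k).tgt) = fun k => (a.d k).tgt := by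
        funext k
        show (b.d k).inv.tgt = (a.d k).tgt
        rw [Dart.tgt_inv, h1]
      rw [h4]
      exact h2
    · show t (a.d k).inv.tgt ≠ t (b.d k).inv.src
      rw [Dart.tgt_inv, Dart.src_inv]
      exact (h3 k).symm

end Thin

end Graph

end Pool.Agent.Lib.MP_9c5086_lc
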