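import Pool.Agent.Lib.MP_9c5086_lc.Defs

/-!
Darts, incidence numbers and the counting form of the definition of covers.
-/

namespace Pool.Agent.Lib.MP_9c5086_lc

namespace Graph

variable {V E : Type} {H : Graph V E}

namespace Dart

theorem ext_iff' {d d' : H.Dart} : d = d' ↔ d.1 = d'.1 := Subtype.ext_iff

instance [Finite E] : Finite H.Dart := Subtype.finite

@[simp] theorem inv_inv (d : H.Dart) : d.inv.inv = d := by
  unfold inv
  by_cases h : (H.b d.1.1).isSome = true
  · simp only [h, dif_pos]
    apply Subtype.ext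
    simp
  · simp [h]

@[simp] theorem edge_inv (d : H.Dart) : d.inv.edge = d.edge := by
  unfold inv edge
  split_ifs <;> rfl

@[simp] theorem src_inv (d : H.Dart) : d.inv.src = d.tgt := by
  obtain ⟨⟨e, k⟩, hd⟩ := d
  unfold inv src tgt
  by_cases h : (H.b e).isSome = true
  · simp only [h, dif_pos]
    cases k <;> simp
  · have h' : H.b e = none := by simpa using h
    cases k
    · simp [h']
    · exact absurd (hd rfl) h

@[simp] theorem tgt_inv (d : H.Dart) : d.inv.tgt = d.src := by
  have := src_inv d.inv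
  rw [inv_inv] at this
  exact this.symm

theorem inv_injective : Function.Injective (inv : H.Dart → H.Dart) := fun d d' h => by
  rw [← inv_inv d, h, inv_inv]

/-- Two darts with the same edge are equal or inverse to each other. -/
theorem eq_or_inv {d d' : H.Dart} (h : d.edge = d'.edge) : d' = d ∨ d' = d.inv := by
  obtain ⟨⟨e, k⟩, hd⟩ := d
  obtain ⟨⟨e', k'⟩, hd'⟩ := d'
  change e = e' at h
  subst h
  by_cases hs : (H.b e).isSome = true
  · cases k <;> cases k' <;> simp [inv, hs, ext_iff']
  · left
    cases k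
    · cases k'
      · rfl
      · exact absurd (hd' rfl) hs
    · exact absurd (hd rfl) hs

theorem joins (d : H.Dart) : H.Joins d.edge d.src d.tgt := by
  obtain ⟨⟨e, k⟩, hd⟩ := d
  cases k
  · left; simp [edge, src, tgt]
  · right; simp [edge, src, tgt]

/-- The dart of a semi-edge is its own inverse. -/
theorem inv_eq_self_iff (d : H.Dart) : d.inv = d ↔ H.b d.edge = none := by
  obtain ⟨⟨e, k⟩, hd⟩ := d
  unfold inv edge
  by_cases h : (H.b e).isSome = true
  · simp only [h, dif_pos]
    constructor
    · intro h1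
      have := congrArg (fun d : H.Dart => d.1.2) h1
      simp at this
    · intro h1
      rw [h1] at h
      simp at h
  · simp only [h]
    simpa using h

end Dart

theorem Joins.symm {e : E} {v w : V} (h : H.Joins e v w) : H.Joins e w v := by
  rcases h with h | h
  · exact Or.inr h
  · exact Or.inl h

/-- An edge with ends `v` and `w` is the edge of a dart from `v` to `w`. -/
theorem Joins.exists_dart {e : E} {v w : V} (h : H.Joins e v w) :
    ∃ d : H.Dart, d.edge = e ∧ d.src = v ∧ d.tgt = w := by
  rcases h with ⟨h1, h2⟩ | ⟨h1, h2⟩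
  · exact ⟨⟨(e, false), fun h => by simp at h⟩, rfl, h1.symm, h2.symm⟩
  · by_cases hs : (H.b e).isSome = true
    · exact ⟨⟨(e, true), fun _ => hs⟩, rfl, h2.symm, h1.symm⟩
    · have hn : H.b e = none := by simpa using hs
      refine ⟨⟨(e, false), fun h => by simp at h⟩, rfl, ?_, ?_⟩
      · simp [Dart.src, h2, hn]
      · simp [Dart.tgt, h1, hn]

/-- The second end is determined by the edge and the first end. -/
theorem Joins.unique {e : E} {v w w' : V} (h : H.Joins e v w) (h' : H.Joins e v w') : w = w' := by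
  rcases h with ⟨h1, h2⟩ | ⟨h1, h2⟩ <;> rcases h' with ⟨h3, h4⟩ | ⟨h3, h4⟩
  · rw [h2, h4]
  · rw [h2, ← h4, h3, h1]
  · rw [h1, ← h3, h4, h2]
  · rw [h1, h3]

theorem joins_iff {e : E} {v w : V} : H.Joins e v w ↔
    ∃ d : H.Dart, d.edge = e ∧ d.src = v ∧ d.tgt = w := by
  refine ⟨Joins.exists_dart, ?_⟩
  rintro ⟨d, rfl, rfl, rfl⟩
  exact d.joins

theorem inc_pos_iff [Finite E] {e : E} {v : V} : 0 < H.inc e v ↔ ∃ w, H.Joins e v w := by
  unfold inc
  rw [Set.ncard_pos (Set.toFinite _)]
  constructor
  · rintro ⟨d, hd1, hd2⟩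
    exact ⟨d.tgt, hd1 ▸ hd2 ▸ d.joins⟩
  · rintro ⟨w, h⟩
    obtain ⟨d, h1, h2, -⟩ := h.exists_dart
    exact ⟨d, h1, h2⟩

/-- The number of darts from one block to another one. -/
noncomputable def blockDarts (H : Graph V E) {I : Type} (t : V → I) (i j : I) : ℕ :=
  {d : H.Dart | t d.src = i ∧ t d.tgt = j}.ncard

theorem blockDarts_comm [Finite E] {I : Type} (t : V → I) (i j : I) :
    H.blockDarts t i j = H.blockDarts t j i := by
  unfold blockDarts
  refine Set.ncard_congr (fun d _ => d.inv) ?_ ?_ ?_
  · rintro d ⟨h1, h2⟩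
    exact ⟨by rw [Dart.src_inv]; exact h2, by rw [Dart.tgt_inv]; exact h1⟩
  · intro d d' _ _ h
    exact Dart.inv_injective h
  · rintro d ⟨h1, h2⟩
    exact ⟨d.inv, ⟨by rw [Dart.src_inv]; exact h2, by rw [Dart.tgt_inv]; exact h1⟩, Dart.inv_inv d⟩

/-- `v` and `w` are connected by a path all of whose vertices are in `A`. -/
def RConn (H : Graph V E) (A : Set V) : V → V → Prop :=
  Relation.ReflTransGen fun v w => v ∈ A ∧ w ∈ A ∧ ∃ e, H.Joins e v w

theorem RConn.symm {A : Set V} {v w : V} (h : H.RConn A v w) : H.RConn A w v := by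
  unfold RConn at h
  induction h with
  | refl => exact Relation.ReflTransGen.refl
  | tail _ h2 ih =>
    obtain ⟨h3, h4, e, h5⟩ := h2
    exact Relation.ReflTransGen.head ⟨h4, h3, e, h5.symm⟩ ih

theorem RConn.trans {A : Set V} {u v w : V} (h : H.RConn A u v) (h' : H.RConn A v w) :
    H.RConn A u w := Relation.ReflTransGen.trans h h'

theorem RConn.mono {A B : Set V} (hAB : A ⊆ B) {v w : V} (h : H.RConn A v w) : H.RConn B v w := by
  unfold RConn at h
  induction h with
  | refl => exact Relation.ReflTransGen.refl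
  | tail _ h2 ih => exact Relation.ReflTransGen.tail ih ⟨hAB h2.1, hAB h2.2.1, h2.2.2⟩

/-- The graph is connected. -/
def Connected (H : Graph V E) : Prop := ∀ v w, H.RConn Set.univ v w

end Graph

end Pool.Agent.Lib.MP_9c5086_lc
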