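import Pool.Agent.Lib.MP_9c5086_lc.BThin
import Pool.Agent.Lib.MP_9c5086_lc.FewBad
import Pool.Agent.Lib.MP_9c5086_lc.ClosedWalk
import Pool.Agent.Lib.PolyTime.CookLevin
import Pool.Agent.Lib.PolyTime.Reduce
import Pool.Agent.Lib.MP_9c5086_lc.CGadDefs

section

section

/-!
A majority operation in the absence of bad components.
-/

namespace Pool.Agent.Lib.MP_9c5086_lc

namespace Graph

variable {V E I : Type} {H : Graph V E} {t : V → I}

/-- The operation `m` is a conservative majority operation. -/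
structure IsMaj {A : Type} (m : A → A → A → A) : Prop where
  left : ∀ a b, m a a b = a
  mid : ∀ a b, m a b a = a
  right : ∀ a b, m b a a = a
  cons : ∀ a b c, m a b c = a ∨ m a b c = b ∨ m a b c = c

/-- The majority operation is compatible with the maps of the thin system. -/
structure Thin.Compat (Θ : Thin H t) (m : V ⊕ (E × V) → V ⊕ (E × V) → V ⊕ (E × V) → V ⊕ (E × V)) :
    Prop where
  maj : IsMaj m
  compat : ∀ d : Fin 3 → H.Dart, (∀ k, d k ∈ Θ.sel) → (∀ k, Θ.Full (d k)) →
    (∀ k k', t (d k).src = t (d k').src) → (∀ k k', t (d k).tgt = t (d k').tgt) →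
    ∃ k : Fin 3,
      m (.inr (d 0).fl) (.inr (d 1).fl) (.inr (d 2).fl) = .inr (d k).fl ∧
      m (.inr (d 0).inv.fl) (.inr (d 1).inv.fl) (.inr (d 2).inv.fl) = .inr (d k).inv.fl ∧
      m (.inr (Θ.tau (d 0)).fl) (.inr (Θ.tau (d 1)).fl) (.inr (Θ.tau (d 2)).fl) =
        .inr (Θ.tau (d k)).fl ∧
      (Θ.NI (t (d 0).src) → m (.inl (d 0).src) (.inl (d 1).src) (.inl (d 2).src) =
        .inl (d k).src)

private theorem fl_inv {a b : H.Dart} (h : a.fl = b.fl) : a.inv.fl = b.inv.fl := by
  have he : a.edge = b.edge := congrArg (fun p : E × V => p.1) h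
  have hs : a.src = b.src := congrArg (fun p : E × V => p.2) h
  have ht : a.tgt = b.tgt := by
    rcases Dart.eq_or_inv he with h1 | h1
    · rw [h1]
    · rw [h1, Dart.src_inv] at hs
      rw [h1, Dart.tgt_inv]
      exact hs.symm
  unfold Dart.fl
  rw [Dart.edge_inv, Dart.edge_inv, Dart.src_inv, Dart.src_inv, he, ht]

private theorem fl_tau (Θ : Thin H t) {a b : H.Dart} (ha : a ∈ Θ.sel) (hb : b ∈ Θ.sel)
    (h : a.fl = b.fl) : (Θ.tau a).fl = (Θ.tau b).fl := by
  have he : a.edge = b.edge := congrArg (fun p : E × V => p.1) h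
  have hs : a.src = b.src := congrArg (fun p : E × V => p.2) h
  rcases Dart.eq_or_inv he with h1 | h1
  · rw [h1]
  · have h2 : b.tgt = a.tgt := by
      rw [h1, Dart.src_inv] at hs
      rw [h1, Dart.tgt_inv]
      exact hs
    rcases Θ.only a ha b hb hs.symm (by rw [h2]) with h3 | h3
    · rw [h3]
    · have h4 : Θ.tau b = a := by rw [h3]; exact Θ.tau_tau a ha
      rw [h4, ← h3]
      exact h.symm

/-- the type occurs in the component -/
private def Ty (Θ : Thin H t) (n : Fin 3 → V ⊕ (E × V)) (a b : Fin 3) : Prop :=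
  ∃ d : Fin 3 → H.Dart, Θ.Good3 d ∧ Θ.NI (t (d 0).src) ∧ (d a).src = (d b).src ∧
    (∀ c, c ≠ a → c ≠ b → (d c).src ≠ (d a).src) ∧ Relation.EqvGen Θ.Lk n (Thin.trF d)

private def PK (Θ : Thin H t) (n : Fin 3 → V ⊕ (E × V)) (k : Fin 3) : Prop :=
  ∀ a b, a ≠ b → a ≠ k → b ≠ k → ¬ Ty Θ n a b

private noncomputable def ch (Θ : Thin H t) (n : Fin 3 → V ⊕ (E × V)) : Fin 3 :=
  Classical.epsilon (PK Θ n)

private theorem Ty_symm {Θ : Thin H t} {n : Fin 3 → V ⊕ (E × V)} {a b : Fin 3}
    (h : Ty Θ n a b) : Ty Θ n b a := by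
  obtain ⟨d, h1, h2, h3, h4, h5⟩ := h
  refine ⟨d, h1, h2, h3.symm, fun c hc hc' => ?_, h5⟩
  rw [← h3]
  exact h4 c hc' hc

private theorem fin3_third : ∀ a b : Fin 3, a ≠ b → ∃ k, ∀ x y : Fin 3, x ≠ y → x ≠ k → y ≠ k →
    (x = a ∧ y = b) ∨ (x = b ∧ y = a) := by
  decide

private theorem fin3_two : ∀ a b k : Fin 3, a ≠ b → k ≠ a → k ≠ b → a ≠ k ∧ b ≠ k := by
  decide

private theorem PK_ch {Θ : Thin H t} (h : ¬ Θ.Static) (n : Fin 3 → V ⊕ (E × V)) :
    PK Θ n (ch Θ n) := by
  apply Classical.epsilon_spec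
  by_contra hn
  push Not at hn
  apply h
  refine ⟨n, fun a b hab => ?_⟩
  obtain ⟨k, hk⟩ := fin3_third a b hab
  have h1 := hn k
  unfold PK at h1
  push Not at h1
  obtain ⟨x, y, hxy, hx, hy, h2⟩ := h1
  have h3 : Ty Θ n a b := by
    rcases hk x y hxy hx hy with ⟨rfl, rfl⟩ | ⟨rfl, rfl⟩
    · exact h2
    · exact Ty_symm h2
  exact h3

private theorem ch_of_Ty {Θ : Thin H t} (h : ¬ Θ.Static) {n : Fin 3 → V ⊕ (E × V)} {a b : Fin 3}
    (hab : a ≠ b) (hT : Ty Θ n a b) : ch Θ n = a ∨ ch Θ n = b := by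
  by_contra hn
  push Not at hn
  obtain ⟨h1, h2⟩ := fin3_two a b _ hab hn.1 hn.2
  exact PK_ch h n a b hab h1 h2 hT

private theorem ch_eq {Θ : Thin H t} {n n' : Fin 3 → V ⊕ (E × V)} (h : Θ.Lk n n') :
    ch Θ n = ch Θ n' := by
  have h1 : PK Θ n = PK Θ n' := by
    funext k
    apply propext
    have h2 : ∀ a b, Ty Θ n a b ↔ Ty Θ n' a b := by
      intro a b
      constructor
      · rintro ⟨d, h1, h2, h3, h4, h5⟩
        exact ⟨d, h1, h2, h3, h4, (Relation.EqvGen.symm _ _ (Relation.EqvGen.rel _ _ h)).trans _ _ _ h5⟩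
      · rintro ⟨d, h1, h2, h3, h4, h5⟩
        exact ⟨d, h1, h2, h3, h4, (Relation.EqvGen.rel _ _ h).trans _ _ _ h5⟩
    unfold PK
    simp only [h2]
  unfold ch
  rw [h1]

open Classical in
private noncomputable def mm (Θ : Thin H t) (a b c : V ⊕ (E × V)) : V ⊕ (E × V) :=
  if a = b ∨ a = c then a else if b = c then b else (![a, b, c] : Fin 3 → V ⊕ (E × V)) (ch Θ ![a, b, c])

private theorem mm_inj {Θ : Thin H t} {n : Fin 3 → V ⊕ (E × V)} (hn : Function.Injective n) :
    mm Θ (n 0) (n 1) (n 2) = n (ch Θ n) := by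
  have h01 : n 0 ≠ n 1 := fun h => absurd (hn h) (by decide)
  have h02 : n 0 ≠ n 2 := fun h => absurd (hn h) (by decide)
  have h12 : n 1 ≠ n 2 := fun h => absurd (hn h) (by decide)
  have h3 : (![n 0, n 1, n 2] : Fin 3 → V ⊕ (E × V)) = n := by
    funext k
    fin_cases k <;> rfl
  unfold mm
  rw [if_neg (by push Not; exact ⟨h01, h02⟩), if_neg h12, h3]

private theorem mm_maj {Θ : Thin H t} {n : Fin 3 → V ⊕ (E × V)} {a b : Fin 3} (hab : a ≠ b)
    (h : n a = n b) : mm Θ (n 0) (n 1) (n 2) = n a := by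
  unfold mm
  by_cases h01 : n 0 = n 1 ∨ n 0 = n 2
  · rw [if_pos h01]
    fin_cases a <;> fin_cases b <;> simp_all
  · rw [if_neg h01]
    push Not at h01
    by_cases h12 : n 1 = n 2
    · rw [if_pos h12]
      fin_cases a <;> fin_cases b <;> simp_all
    · rw [if_neg h12]
      exfalso
      fin_cases a <;> fin_cases b <;> simp_all

/-- If the thin system is not statically bad, then there is a compatible majority operation. -/
theorem Thin.exists_maj (Θ : Thin H t) (h : ¬ Θ.Static) : ∃ m, Θ.Compat m := by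
  refine ⟨mm Θ, ⟨⟨fun a b => ?_, fun a b => ?_, fun a b => ?_, fun a b c => ?_⟩, ?_⟩⟩
  · exact mm_maj (n := ![a, a, b]) (a := 0) (b := 1) (by decide) rfl
  · exact mm_maj (n := ![a, b, a]) (a := 0) (b := 2) (by decide) rfl
  · exact mm_maj (n := ![b, a, a]) (a := 1) (b := 2) (by decide) rfl
  · unfold mm
    split_ifs
    · exact Or.inl rfl
    · exact Or.inr (Or.inl rfl)
    · generalize ch Θ ![a, b, c] = k
      fin_cases k
      · exact Or.inl rfl
      · exact Or.inr (Or.inl rfl)
      · exact Or.inr (Or.inr rfl)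
  · intro d hd hF hs ht
    by_cases hinj : Function.Injective fun k => (d k).fl
    · have hG : Θ.Good3 d := ⟨hd, hF, hs, ht, hinj⟩
      refine ⟨ch Θ (Thin.trF d), ?_, ?_, ?_, ?_⟩
      · exact mm_inj (n := Thin.trF d) fun k k' hk => hinj (Sum.inr.inj hk)
      · have h1 := ch_eq (Thin.Lk.inv d hG)
        rw [h1]
        refine mm_inj (n := Thin.trF fun k => (d k).inv) fun k k' hk => hinj ?_
        have h2 := fl_inv (Sum.inr.inj hk)
        rw [Dart.inv_inv, Dart.inv_inv] at h2
        exact h2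
      · have h1 := ch_eq (Thin.Lk.tau d hG)
        rw [h1]
        refine mm_inj (n := Thin.trF fun k => Θ.tau (d k)) fun k k' hk => hinj ?_
        have h2 := fl_tau Θ (Θ.tau_mem _ (hd k)) (Θ.tau_mem _ (hd k')) (Sum.inr.inj hk)
        rw [Θ.tau_tau _ (hd k), Θ.tau_tau _ (hd k')] at h2
        exact h2
      · intro hN
        by_cases hi : Function.Injective fun k => (d k).src
        · have h1 := ch_eq (Thin.Lk.src d hG hN hi)
          rw [h1]
          exact mm_inj (n := Thin.trV d) fun k k' hk => hi (Sum.inl.inj hk)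
        · have h1 : ∃ a b : Fin 3, (d a).src = (d b).src ∧ a ≠ b := by
            by_contra hc
            push Not at hc
            exact hi fun a b hab => by_contra fun hne => hne (hc a b hab)
          obtain ⟨a, b, h2, h3⟩ := h1
          have h4 : mm Θ (.inl (d 0).src) (.inl (d 1).src) (.inl (d 2).src) = .inl (d a).src :=
            mm_maj (Θ := Θ) (n := Thin.trV d) h3 (congrArg Sum.inl h2)
          rw [h4]
          by_cases h5 : ∀ c, c ≠ a → c ≠ b → (d c).src ≠ (d a).src
          · have h6 : Ty Θ (Thin.trF d) a b := ⟨d, hG, hN, h2, h5, Relation.EqvGen.refl _⟩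
            rcases ch_of_Ty h h3 h6 with h7 | h7
            · rw [h7]
            · rw [h7, h2]
          · push Not at h5
            obtain ⟨c, hca, hcb, hc⟩ := h5
            have h6 : ∀ k, (d k).src = (d a).src := by
              intro k
              have h7 : k = a ∨ k = b ∨ k = c := by
                revert h3 hca hcb
                clear h2 h4 hc
                revert a b c k
                decide
              rcases h7 with rfl | rfl | rfl
              · rfl
              · exact h2.symm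
              · exact hc
            rw [h6 (ch Θ (Thin.trF d))]
    · have h1 : ∃ a b : Fin 3, (d a).fl = (d b).fl ∧ a ≠ b := by
        by_contra hc
        push Not at hc
        exact hinj fun a b hab => by_contra fun hne => hne (hc a b hab)
      obtain ⟨a, b, h2, h3⟩ := h1
      refine ⟨a, ?_, ?_, ?_, fun _ => ?_⟩
      · exact mm_maj (Θ := Θ) (n := Thin.trF d) h3 (congrArg Sum.inr h2)
      · exact mm_maj (Θ := Θ) (n := Thin.trF fun k => (d k).inv) h3 (congrArg Sum.inr (fl_inv h2))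
      · exact mm_maj (Θ := Θ) (n := Thin.trF fun k => Θ.tau (d k)) h3
          (congrArg Sum.inr (fl_tau Θ (hd a) (hd b) h2))
      · exact mm_maj (Θ := Θ) (n := Thin.trV d) h3
          (congrArg Sum.inl (congrArg (fun p : E × V => p.2) h2))

end Graph

end Pool.Agent.Lib.MP_9c5086_lc
end

section

/-!
Graphs without big rich infinite classes.
-/

namespace Pool.Agent.Lib.MP_9c5086_lc

namespace Graph

variable {V E I : Type}

/-- No infinite class with at least three darts is rich. -/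
def Tame (H : Graph V E) (t : V → I) : Prop :=
  ∀ x j, H.InfiniteClass t x j → 3 ≤ H.classSize t x j → ¬ H.RichClass t x j

/-- The block `i` is a gamma block: it has a core class inside the block with at least three
darts. -/
def Gam (H : Graph V E) (t : V → I) (i : I) : Prop :=
  ∃ d : H.Dart, d.Core ∧ t d.src = i ∧ t d.tgt = i ∧ 3 ≤ H.classSize t d.src i

variable {H : Graph V E} {t : V → I}

theorem classSize_class (ht : H.Equitable t) {d d' : H.Dart} (hs : t d.src = t d'.src)
    (hg : t d.tgt = t d'.tgt) :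
    H.classSize t d.src (t d.tgt) = H.classSize t d'.src (t d'.tgt) := by
  rw [ht d.src d'.src hs (t d.tgt), hg]

/-- A core dart whose class has at least three darts lies in a gamma block and is a loop or a
semi-edge. -/
theorem Tame.gam_of_core [Finite E] (hT : H.Tame t) {d : H.Dart} (hd : d.Core)
    (h3 : 3 ≤ H.classSize t d.src (t d.tgt)) :
    H.Gam t (t d.src) ∧ d.tgt = d.src := by
  have hn := hT d.src (t d.tgt) (Dart.infiniteClass_of_rk_top t hd.1) h3
  have hl : d.tgt = d.src := by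
    by_contra h
    exact hn (Or.inl ⟨d, rfl, rfl, h⟩)
  refine ⟨⟨d, hd, rfl, by rw [hl], ?_⟩, hl⟩
  rw [hl] at h3
  exact h3

private theorem ct_ends {d : H.Dart} {x : V} (hs : d.src = x) (hg : d.tgt = x) :
    H.a d.edge = x ∧ (H.b d.edge = none ∨ H.b d.edge = some x) := by
  obtain ⟨⟨e, k⟩, hd⟩ := d
  have h1 : H.a e = x ∧ (H.b e).getD (H.a e) = x := by
    cases k
    · simp only [Dart.src, Dart.tgt] at hs hg
      exact ⟨by simpa using hs, by simpa using hg⟩
    · simp only [Dart.src, Dart.tgt] at hs hg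
      exact ⟨by simpa using hg, by simpa using hs⟩
  change H.a e = x ∧ (H.b e = none ∨ H.b e = some x)
  refine ⟨h1.1, ?_⟩
  cases hb : H.b e with
  | none => exact Or.inl rfl
  | some y =>
    right
    have h2 := h1.2
    rw [hb, Option.getD_some] at h2
    rw [h2]

/-- The two edges at a vertex of a gamma block. -/
theorem Tame.gam_edges [Finite E] (hT : H.Tame t) (ht : H.Equitable t) {x : V}
    (h : H.Gam t (t x)) :
    ∃ a b : E, a ≠ b ∧ H.a a = x ∧ H.b a = some x ∧ H.a b = x ∧
      (H.b b = none ∨ H.b b = some x) ∧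
      ∀ d : H.Dart, d.src = x → t d.tgt = t x → d.edge = a ∨ d.edge = b := by
  obtain ⟨d₀, h0, h1, h2, h3⟩ := h
  rw [ht d₀.src x h1 (t x)] at h3
  have hcore : ∀ d : H.Dart, d.src = x → t d.tgt = t x → d.Core := by
    intro d hs hg
    exact Dart.core_class ht (d := d₀) (d' := d) (by rw [h1, hs]) (by rw [h2, hg]) h0
  have h3' : 2 < {d : H.Dart | d.src = x ∧ t d.tgt = t x}.ncard := h3
  obtain ⟨p, q, r, hp, hq, hr, hpq, hpr, hqr⟩ := (Set.two_lt_ncard_iff (Set.toFinite _)).1 h3'
  have hinf : H.InfiniteClass t x (t x) := by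
    have h4 := Dart.infiniteClass_of_rk_top t (hcore p hp.1 hp.2).1
    rwa [hp.1, hp.2] at h4
  have hn := hT x (t x) hinf h3
  have hloop : ∀ d : H.Dart, d.src = x → t d.tgt = t x → d.tgt = x := by
    intro d hs hg
    by_contra h
    exact hn (Or.inl ⟨d, hs, hg, h⟩)
  have hedge : ∀ d e f : H.Dart, (d.src = x ∧ t d.tgt = t x) → (e.src = x ∧ t e.tgt = t x) →
      (f.src = x ∧ t f.tgt = t x) → d.edge ≠ e.edge → d.edge ≠ f.edge → e.edge ≠ f.edge →
      False := by
    intro d e f hd he hf h4 h5 h6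
    refine hn (Or.inr ?_)
    exact (Set.two_lt_ncard_iff (Set.toFinite _)).2 ⟨d.edge, e.edge, f.edge,
      ⟨d, rfl, hd.1, hd.2⟩, ⟨e, rfl, he.1, he.2⟩, ⟨f, rfl, hf.1, hf.2⟩, h4, h5, h6⟩
  have key : ∀ d e f : H.Dart, (d.src = x ∧ t d.tgt = t x) → (e.src = x ∧ t e.tgt = t x) →
      (f.src = x ∧ t f.tgt = t x) → d ≠ e → d.edge = e.edge → f.edge ≠ d.edge →
      ∃ a b : E, a ≠ b ∧ H.a a = x ∧ H.b a = some x ∧ H.a b = x ∧
      (H.b b = none ∨ H.b b = some x) ∧
      ∀ d : H.Dart, d.src = x → t d.tgt = t x → d.edge = a ∨ d.edge = b := by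
    intro d e f hd he hf hne hde hfd
    obtain ⟨hda, hdb⟩ := ct_ends hd.1 (hloop d hd.1 hd.2)
    obtain ⟨hfa, hfb⟩ := ct_ends hf.1 (hloop f hf.1 hf.2)
    have hdn : H.b d.edge ≠ none := by
      intro h4
      have h5 := (Dart.inv_eq_self_iff d).2 h4
      rcases Dart.eq_or_inv hde with h6 | h6
      · exact hne h6.symm
      · rw [h5] at h6
        exact hne h6.symm
    refine ⟨d.edge, f.edge, Ne.symm hfd, hda, hdb.resolve_left hdn, hfa, hfb, ?_⟩
    intro c hc1 hc2
    by_contra hcon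
    rw [not_or] at hcon
    exact hedge c d f ⟨hc1, hc2⟩ hd hf hcon.1 hcon.2 (Ne.symm hfd)
  have hthree : ∀ d e f : H.Dart, d ≠ e → d ≠ f → e ≠ f → d.edge = e.edge → d.edge = f.edge →
      False := by
    intro d e f h4 h5 h6 h7 h8
    rcases Dart.eq_or_inv h7 with h9 | h9
    · exact h4 h9.symm
    · rcases Dart.eq_or_inv h8 with h10 | h10
      · exact h5 h10.symm
      · exact h6 (h9.trans h10.symm)
  by_cases e1 : p.edge = q.edge
  · exact key p q r hp hq hr hpq e1 fun h4 => hthree p q r hpq hpr hqr e1 h4.symm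
  · by_cases e2 : p.edge = r.edge
    · exact key p r q hp hr hq hpr e2 fun h4 => e1 h4.symm
    · by_cases e3 : q.edge = r.edge
      · exact key q r p hq hr hp hqr e3 e1
      · exact absurd (hedge p q r hp hq hr e1 e2 e3) id

/-- The darts inside a gamma block are core darts, loops or semi-edges, and their classes have at
least three darts. -/
theorem Tame.gam_dart [Finite E] (hT : H.Tame t) (ht : H.Equitable t) {d : H.Dart}
    (h : H.Gam t (t d.src)) (hd : t d.tgt = t d.src) :
    d.Core ∧ d.tgt = d.src ∧ 3 ≤ H.classSize t d.src (t d.tgt) := by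
  obtain ⟨d₀, h0, h1, h2, h3⟩ := h
  have hc : d.Core := Dart.core_class ht (d := d₀) (d' := d) h1 (by rw [h2, hd]) h0
  have h4 : 3 ≤ H.classSize t d.src (t d.tgt) := by
    rw [hd, ← ht d₀.src d.src h1 (t d.src)]
    exact h3
  exact ⟨hc, (hT.gam_of_core hc h4).2, h4⟩

end Graph

end Pool.Agent.Lib.MP_9c5086_lc
end

section

/-!
The thin system of a tame graph.
-/

namespace Pool.Agent.Lib.MP_9c5086_lc

namespace Graph

variable {V E I : Type} {H : Graph V E} {t : V → I}

/-- The dart is a thin core dart: a core dart whose class has at most two darts. -/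
def Dart.ThinCore (t : V → I) (d : H.Dart) : Prop :=
  d.Core ∧ H.classSize t d.src (t d.tgt) ≤ 2

/-- The thin system consists of core darts, contains all thin core darts and a dart of every core
class. -/
structure Thin.Covers (Θ : Thin H t) : Prop where
  core : ∀ d ∈ Θ.sel, d.Core
  thin : ∀ d : H.Dart, d.ThinCore t → d ∈ Θ.sel
  ex : ∀ d : H.Dart, d.Core → ∃ d' ∈ Θ.sel, d'.src = d.src ∧ t d'.tgt = t d.tgt

/-- The selected darts. -/
private def tsel (H : Graph V E) (t : V → I) (ga : V → E) : Set H.Dart :=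
  {d | d.Core ∧ (H.classSize t d.src (t d.tgt) ≤ 2 ∨
    (H.Gam t (t d.src) ∧ d.edge = ga d.src ∧ t d.tgt = t d.src))}

/-- The other selected dart. -/
private noncomputable def ttau (H : Graph V E) (t : V → I) (ga : V → E) (d : H.Dart) : H.Dart :=
  open scoped Classical in
  if h : ∃ d' ∈ tsel H t ga, d'.src = d.src ∧ t d'.tgt = t d.tgt ∧ d' ≠ d then h.choose else d

private theorem ttau_spec {ga : V → E} {d : H.Dart}
    (h : ∃ d' ∈ tsel H t ga, d'.src = d.src ∧ t d'.tgt = t d.tgt ∧ d' ≠ d) :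
    ttau H t ga d ∈ tsel H t ga ∧ (ttau H t ga d).src = d.src ∧
      t (ttau H t ga d).tgt = t d.tgt ∧ ttau H t ga d ≠ d := by
  unfold ttau
  rw [dif_pos h]
  exact h.choose_spec

private theorem ttau_neg {ga : V → E} {d : H.Dart}
    (h : ¬ ∃ d' ∈ tsel H t ga, d'.src = d.src ∧ t d'.tgt = t d.tgt ∧ d' ≠ d) :
    ttau H t ga d = d := by
  unfold ttau
  rw [dif_neg h]

private theorem two_le_of [Finite E] {x : V} {j : I} {d d' : H.Dart} (h1 : d.src = x)
    (h2 : t d.tgt = j) (h3 : d'.src = x) (h4 : t d'.tgt = j) (hne : d ≠ d') :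
    2 ≤ H.classSize t x j := by
  have : ({d, d'} : Set H.Dart).ncard = 2 := Set.ncard_pair hne
  unfold classSize
  rw [← this]
  refine Set.ncard_le_ncard ?_ (Set.toFinite _)
  rintro e (rfl | rfl)
  · exact ⟨h1, h2⟩
  · exact ⟨h3, h4⟩

private theorem exists_ne_of_two_le [Finite E] {x : V} {j : I} (h : 2 ≤ H.classSize t x j)
    (d : H.Dart) : ∃ e : H.Dart, e.src = x ∧ t e.tgt = j ∧ e ≠ d := by
  unfold classSize at h
  obtain ⟨e, he, hne⟩ := Set.exists_ne_of_one_lt_ncard (show 1 < _ from h) d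
  exact ⟨e, he.1, he.2, hne⟩

private theorem at_most [Finite E] {ga : V → E} {d d' d'' : H.Dart} (hd : d ∈ tsel H t ga)
    (hd' : d' ∈ tsel H t ga) (hd'' : d'' ∈ tsel H t ga) (h1 : d'.src = d.src)
    (h2 : t d'.tgt = t d.tgt) (h3 : d''.src = d.src) (h4 : t d''.tgt = t d.tgt) (h5 : d' ≠ d)
    (h6 : d'' ≠ d) : d' = d'' := by
  by_contra hne
  by_cases hc : H.classSize t d.src (t d.tgt) ≤ 2
  · have hs : ({d, d', d''} : Set H.Dart) ⊆ {e : H.Dart | e.src = d.src ∧ t e.tgt = t d.tgt} := by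
      rintro e (rfl | rfl | rfl)
      · exact ⟨rfl, rfl⟩
      · exact ⟨h1, h2⟩
      · exact ⟨h3, h4⟩
    have h7 : ({d, d', d''} : Set H.Dart).ncard = 3 := by
      rw [Set.ncard_eq_three]
      exact ⟨d, d', d'', Ne.symm h5, Ne.symm h6, hne, rfl⟩
    have h8 := Set.ncard_le_ncard hs (Set.toFinite _)
    unfold classSize at hc
    omega
  · have e0 : d.edge = ga d.src := (hd.2.resolve_left hc).2.1
    have e1 : d'.edge = ga d.src := by
      have := hd'.2.resolve_left (by rw [h1, h2]; exact hc)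
      rw [this.2.1, h1]
    have e2 : d''.edge = ga d.src := by
      have := hd''.2.resolve_left (by rw [h3, h4]; exact hc)
      rw [this.2.1, h3]
    have f1 := (Dart.eq_or_inv (e0.trans e1.symm)).resolve_left h5
    have f2 := (Dart.eq_or_inv (e0.trans e2.symm)).resolve_left h6
    exact hne (f1.trans f2.symm)

/-- The loop dart of a gamma block. -/
private theorem exists_loop [Finite E] (hT : H.Tame t) (ht : H.Equitable t) {ga : V → E}
    (hga : ∀ x, H.Gam t (t x) → H.a (ga x) = x ∧ H.b (ga x) = some x) {x : V}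
    (h : H.Gam t (t x)) : ∃ d ∈ tsel H t ga, d.src = x ∧ t d.tgt = t x := by
  obtain ⟨h1, h2⟩ := hga x h
  obtain ⟨d, he, hs, hg⟩ : ∃ d : H.Dart, d.edge = ga x ∧ d.src = x ∧ d.tgt = x :=
    Joins.exists_dart (Or.inl ⟨h1.symm, by rw [h2]; rfl⟩)
  refine ⟨d, ⟨?_, Or.inr ⟨?_, ?_, ?_⟩⟩, hs, by rw [hg]⟩
  · exact (Tame.gam_dart hT ht (d := d) (by rw [hs]; exact h) (by rw [hs, hg])).1
  · rw [hs]
    exact h
  · rw [hs]
    exact he
  · rw [hs, hg]

/-- Selected darts of gamma blocks. -/
private theorem gamma_facts [Finite E] (hT : H.Tame t) (ht : H.Equitable t) {ga : V → E}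
    (hga : ∀ x, H.Gam t (t x) → H.a (ga x) = x ∧ H.b (ga x) = some x) {d : H.Dart}
    (hd : d ∈ tsel H t ga) (h : H.Gam t (t d.src)) (hg : t d.tgt = t d.src) :
    d.edge = ga d.src ∧ d.tgt = d.src ∧ d.inv ≠ d ∧ d.inv ∈ tsel H t ga := by
  obtain ⟨h1, h2, h3⟩ := Tame.gam_dart hT ht h hg
  have he : d.edge = ga d.src := (hd.2.resolve_left (by omega)).2.1
  refine ⟨he, h2, ?_, h1.inv, Or.inr ⟨?_, ?_, ?_⟩⟩
  · intro hinv
    rw [Dart.inv_eq_self_iff, he, (hga _ h).2] at hinv
    exact absurd hinv (by simp)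
  · rw [Dart.src_inv, h2]
    exact h
  · rw [Dart.src_inv, h2, Dart.edge_inv, he]
  · rw [Dart.src_inv, Dart.tgt_inv, h2]

private theorem mem_of_class [Finite E] (ht : H.Equitable t) {ga : V → E} {d d' : H.Dart}
    (hd : d.Core) (hc : H.classSize t d.src (t d.tgt) ≤ 2) (hs : t d'.src = t d.src)
    (hg : t d'.tgt = t d.tgt) : d' ∈ tsel H t ga :=
  ⟨Dart.core_class ht hs.symm hg.symm hd, Or.inl (by rw [classSize_class ht hs hg]; exact hc)⟩

private theorem ttau_inv [Finite E] (hT : H.Tame t) (ht : H.Equitable t) {ga : V → E}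
    (hga : ∀ x, H.Gam t (t x) → H.a (ga x) = x ∧ H.b (ga x) = some x) {d : H.Dart}
    (hd : d ∈ tsel H t ga) (h : H.Gam t (t d.src)) (hg : t d.tgt = t d.src) :
    ttau H t ga d = d.inv := by
  obtain ⟨h1, h2, h3, h4⟩ := gamma_facts hT ht hga hd h hg
  have hex : ∃ d' ∈ tsel H t ga, d'.src = d.src ∧ t d'.tgt = t d.tgt ∧ d' ≠ d :=
    ⟨d.inv, h4, by rw [Dart.src_inv, h2], by rw [Dart.tgt_inv, h2], h3⟩
  obtain ⟨s1, s2, s3, s4⟩ := ttau_spec hex
  exact at_most hd s1 h4 s2 s3 (by rw [Dart.src_inv, h2]) (by rw [Dart.tgt_inv, h2]) s4 h3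

/-- The thin system of a tame graph. -/
theorem Tame.exists_thin [Finite E] (hT : H.Tame t) (ht : H.Equitable t) :
    ∃ Θ : Thin H t, Θ.Covers := by
  classical
  rcases isEmpty_or_nonempty E with hE | hE
  · have hD : IsEmpty H.Dart := ⟨fun d => hE.false d.edge⟩
    refine ⟨{ sel := ∅, tau := id, dbl := fun _ _ => False, inv_mem := ?_, tau_mem := ?_,
              tau_src := ?_, tau_ty := ?_, tau_tau := ?_, tau_ne := ?_, only := ?_, ex := ?_,
              kind := ?_, deg := ?_ }, ?_, ?_, ?_⟩ <;> exact fun d => hD.elim d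
  have hex : ∀ x, ∃ a : E, H.Gam t (t x) → H.a a = x ∧ H.b a = some x := by
    intro x
    by_cases h : H.Gam t (t x)
    · obtain ⟨a, b, -, h1, h2, -⟩ := hT.gam_edges ht h
      exact ⟨a, fun _ => ⟨h1, h2⟩⟩
    · exact ⟨Classical.arbitrary E, fun h' => absurd h' h⟩
  choose ga hga using hex
  have hother : ∀ d ∈ tsel H t ga, ∀ e ∈ tsel H t ga, t e.src = t d.src → t e.tgt = t d.tgt →
      ttau H t ga e ≠ e → ttau H t ga d ≠ d := by
    intro d hd e he hs hg hne
    have hex : ∃ d' ∈ tsel H t ga, d'.src = e.src ∧ t d'.tgt = t e.tgt ∧ d' ≠ e := by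
      by_contra hcon
      exact hne (ttau_neg hcon)
    obtain ⟨e', he', h1, h2, h3⟩ := hex
    by_cases hc : H.classSize t e.src (t e.tgt) ≤ 2
    · have h4 : 2 ≤ H.classSize t e.src (t e.tgt) := two_le_of h1 h2 rfl rfl h3
      rw [classSize_class ht hs hg] at h4 hc
      obtain ⟨d', h5, h6, h7⟩ := exists_ne_of_two_le h4 d
      exact (ttau_spec ⟨d', mem_of_class ht hd.1 hc (by rw [h5]) h6, h5, h6, h7⟩).2.2.2
    · obtain ⟨g1, g2, g3⟩ := he.2.resolve_left hc
      have g4 : H.Gam t (t d.src) := by rw [← hs]; exact g1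
      have g5 : t d.tgt = t d.src := by rw [← hs, ← hg, g3]
      rw [ttau_inv hT ht hga hd g4 g5]
      exact (gamma_facts hT ht hga hd g4 g5).2.2.1
  have hdbl : ∀ d ∈ tsel H t ga, (ttau H t ga d ≠ d ↔
      ∃ e ∈ tsel H t ga, t e.src = t d.src ∧ t e.tgt = t d.tgt ∧ ttau H t ga e ≠ e) := by
    intro d hd
    constructor
    · intro h
      exact ⟨d, hd, rfl, rfl, h⟩
    · rintro ⟨e, he, h1, h2, h3⟩
      exact hother d hd e he h1 h2 h3
  have hloop : ∀ e : H.Dart, e.Core → ¬ H.classSize t e.src (t e.tgt) ≤ 2 →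
      ∃ d ∈ tsel H t ga, d.src = e.src ∧ t d.tgt = t e.tgt := by
    intro e he hc
    obtain ⟨g1, g2⟩ := hT.gam_of_core he (by omega)
    obtain ⟨d, hd, h1, h2⟩ := exists_loop hT ht hga g1
    exact ⟨d, hd, h1, by rw [h2, g2]⟩
  refine ⟨{ sel := tsel H t ga, tau := ttau H t ga
            dbl := fun i j => ∃ e ∈ tsel H t ga, t e.src = i ∧ t e.tgt = j ∧ ttau H t ga e ≠ e
            inv_mem := ?_, tau_mem := ?_, tau_src := ?_, tau_ty := ?_, tau_tau := ?_
            tau_ne := hdbl, only := ?_, ex := ?_, kind := ?_, deg := ?_ }, ?_, ?_, ?_⟩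
  · -- inv_mem
    intro d hd
    refine ⟨hd.1.inv, ?_⟩
    by_cases hc : H.classSize t d.inv.src (t d.inv.tgt) ≤ 2
    · exact Or.inl hc
    · obtain ⟨g1, g2⟩ := hT.gam_of_core hd.1.inv (by omega)
      rw [Dart.tgt_inv, Dart.src_inv] at g2
      rw [Dart.src_inv, Dart.tgt_inv, g2] at hc
      rw [Dart.src_inv, ← g2] at g1
      obtain ⟨-, h2, h3⟩ := hd.2.resolve_left (by rw [← g2]; rw [← g2] at hc; exact hc)
      right
      rw [Dart.src_inv, Dart.tgt_inv, Dart.edge_inv, ← g2]
      exact ⟨g1, h2, rfl⟩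
  · -- tau_mem
    intro d hd
    by_cases h : ∃ d' ∈ tsel H t ga, d'.src = d.src ∧ t d'.tgt = t d.tgt ∧ d' ≠ d
    · exact (ttau_spec h).1
    · rw [ttau_neg h]
      exact hd
  · -- tau_src
    intro d hd
    by_cases h : ∃ d' ∈ tsel H t ga, d'.src = d.src ∧ t d'.tgt = t d.tgt ∧ d' ≠ d
    · exact (ttau_spec h).2.1
    · rw [ttau_neg h]
  · -- tau_ty
    intro d hd
    by_cases h : ∃ d' ∈ tsel H t ga, d'.src = d.src ∧ t d'.tgt = t d.tgt ∧ d' ≠ d
    · exact (ttau_spec h).2.2.1
    · rw [ttau_neg h]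
  · -- tau_tau
    intro d hd
    by_cases h : ∃ d' ∈ tsel H t ga, d'.src = d.src ∧ t d'.tgt = t d.tgt ∧ d' ≠ d
    · obtain ⟨s1, s2, s3, s4⟩ := ttau_spec h
      have h' : ∃ d' ∈ tsel H t ga, d'.src = (ttau H t ga d).src ∧
          t d'.tgt = t (ttau H t ga d).tgt ∧ d' ≠ ttau H t ga d :=
        ⟨d, hd, s2.symm, s3.symm, Ne.symm s4⟩
      obtain ⟨r1, r2, r3, r4⟩ := ttau_spec h'
      exact at_most s1 r1 hd r2 r3 s2.symm s3.symm r4 (Ne.symm s4)
    · rw [ttau_neg h, ttau_neg h]
  · -- only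
    intro d hd d' hd' h1 h2
    by_cases hne : d' = d
    · exact Or.inl hne
    · right
      obtain ⟨s1, s2, s3, s4⟩ := ttau_spec ⟨d', hd', h1, h2, hne⟩
      exact at_most hd hd' s1 h1 h2 s2 s3 hne s4
  · -- ex
    intro d hd x hx
    by_cases hc : H.classSize t d.src (t d.tgt) ≤ 2
    · have h1 : 0 < H.classSize t d.src (t d.tgt) := by
        unfold classSize
        rw [Set.ncard_pos (Set.toFinite _)]
        exact ⟨d, rfl, rfl⟩
      rw [← ht x d.src hx] at h1
      unfold classSize at h1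
      rw [Set.ncard_pos (Set.toFinite _)] at h1
      obtain ⟨d', h2, h3⟩ := h1
      exact ⟨d', mem_of_class ht hd.1 hc (by rw [h2, hx]) h3, h2, h3⟩
    · obtain ⟨g1, g2, g3⟩ := hd.2.resolve_left hc
      rw [← hx] at g1
      obtain ⟨d', hd', h1, h2⟩ := exists_loop hT ht hga g1
      exact ⟨d', hd', h1, by rw [h2, g3, hx]⟩
  · -- kind
    intro d hd
    by_cases hc : H.classSize t d.src (t d.tgt) ≤ 2
    · left
      intro d' h1 h2
      exact mem_of_class ht hd.1 hc h1 h2
    · right
      obtain ⟨g1, g2, g3⟩ := hd.2.resolve_left hc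
      refine ⟨⟨d, hd, rfl, rfl, ?_⟩, ?_⟩
      · rw [ttau_inv hT ht hga hd g1 g3]
        exact (gamma_facts hT ht hga hd g1 g3).2.2.1
      · intro d' hd' h1 h2
        have g4 : H.Gam t (t d'.src) := by rw [h1]; exact g1
        have g5 : t d'.tgt = t d'.src := by rw [h1, h2, g3]
        exact ⟨ttau_inv hT ht hga hd' g4 g5, (gamma_facts hT ht hga hd' g4 g5).2.1⟩
  · -- deg
    intro d hd
    obtain ⟨e, he, h1, h2⟩ := hd.1.exists_other
    by_cases hg : t e.tgt = t d.tgt
    · left
      refine ⟨d, hd, rfl, rfl, ?_⟩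
      by_cases hc : H.classSize t d.src (t d.tgt) ≤ 2
      · exact (ttau_spec ⟨e, mem_of_class ht hd.1 hc (by rw [h1]) hg, h1, hg, h2⟩).2.2.2
      · obtain ⟨g1, g2, g3⟩ := hd.2.resolve_left hc
        rw [ttau_inv hT ht hga hd g1 g3]
        exact (gamma_facts hT ht hga hd g1 g3).2.2.1
    · right
      by_cases hc : H.classSize t e.src (t e.tgt) ≤ 2
      · exact ⟨e, ⟨he, Or.inl hc⟩, h1, hg⟩
      · obtain ⟨d', hd', h3, h4⟩ := hloop e he hc
        exact ⟨d', hd', by rw [h3, h1], by rw [h4]; exact hg⟩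
  · intro d hd
    exact hd.1
  · intro d hd
    exact ⟨hd.1, Or.inl hd.2⟩
  · intro d hd
    by_cases hc : H.classSize t d.src (t d.tgt) ≤ 2
    · exact ⟨d, ⟨hd, Or.inl hc⟩, rfl, rfl⟩
    · exact hloop d hd hc

end Graph

end Pool.Agent.Lib.MP_9c5086_lc
end

section

/-!
Facts on the thin system of a tame graph.
-/

namespace Pool.Agent.Lib.MP_9c5086_lc

namespace Graph

variable {V E I : Type} {H : Graph V E} {t : V → I}

theorem Dart.ThinCore.class_eq [Finite E] (ht : H.Equitable t) {d d' : H.Dart}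
    (h : d.ThinCore t) (hs : t d.src = t d'.src) (hg : t d.tgt = t d'.tgt) : d'.ThinCore t :=
  ⟨Dart.core_class ht hs hg h.1, by rw [← classSize_class ht hs hg]; exact h.2⟩

/-- The inverse of a thin core dart is a thin core dart. -/
theorem Dart.ThinCore.inv [Finite E] (hT : H.Tame t) (ht : H.Equitable t) {d : H.Dart}
    (h : d.ThinCore t) : d.inv.ThinCore t := by
  refine ⟨h.1.inv, ?_⟩
  by_contra hc
  have h3 : 3 ≤ H.classSize t d.inv.src (t d.inv.tgt) := by omega
  have h4 := (hT.gam_of_core h.1.inv h3).2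
  rw [Dart.tgt_inv, Dart.src_inv] at h4
  have h5 : H.classSize t d.inv.src (t d.inv.tgt) = H.classSize t d.src (t d.tgt) :=
    classSize_class ht (by rw [Dart.src_inv, h4]) (by rw [Dart.tgt_inv, h4])
  have h6 := h.2
  omega

namespace Thin

variable {Θ : Thin H t}

theorem Covers.full [Finite E] (hΘ : Θ.Covers) (ht : H.Equitable t) {d : H.Dart}
    (h : d.ThinCore t) : Θ.Full d :=
  fun d' hs hg => hΘ.thin d' (h.class_eq ht hs.symm hg.symm)

/-- The darts of the class of a thin core dart. -/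
theorem Covers.only_tau [Finite E] (hΘ : Θ.Covers) (ht : H.Equitable t) {d d' : H.Dart}
    (h : d.ThinCore t) (hs : d'.src = d.src) (hg : t d'.tgt = t d.tgt) :
    d' = d ∨ d' = Θ.tau d :=
  Θ.only d (hΘ.thin d h) d' (hΘ.full ht h d' (by rw [hs]) hg) hs hg

theorem Covers.tau_thinCore [Finite E] (hΘ : Θ.Covers) (ht : H.Equitable t) {d : H.Dart}
    (h : d.ThinCore t) : (Θ.tau d).ThinCore t :=
  h.class_eq ht (by rw [Θ.tau_src d (hΘ.thin d h)]) (Θ.tau_ty d (hΘ.thin d h)).symm

private theorem fl_tau' (Θ : Thin H t) {a b : H.Dart} (ha : a ∈ Θ.sel) (hb : b ∈ Θ.sel)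
    (h : a.fl = b.fl) : (Θ.tau a).fl = (Θ.tau b).fl := by
  have he : a.edge = b.edge := congrArg (fun p : E × V => p.1) h
  have hs : a.src = b.src := congrArg (fun p : E × V => p.2) h
  rcases Dart.eq_or_inv he with h1 | h1
  · rw [h1]
  · have h2 : b.tgt = a.tgt := by
      rw [h1, Dart.src_inv] at hs
      rw [h1, Dart.tgt_inv]
      exact hs
    rcases Θ.only a ha b hb hs.symm (by rw [h2]) with h3 | h3
    · rw [h3]
    · have h4 : Θ.tau b = a := by rw [h3]; exact Θ.tau_tau a ha
      rw [h4, ← h3]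
      exact h.symm

/-- Flags determine the flags of the inverse, the type of the target and the flag of `tau`. -/
theorem flag_facts [Finite E] (hΘ : Θ.Covers) (ht : H.Equitable t) {d d' : H.Dart}
    (h : d.ThinCore t) (he : d.fl = d'.fl) : d'.ThinCore t ∧ (Θ.tau d).fl = (Θ.tau d').fl := by
  have h1 : d.edge = d'.edge := congrArg (fun p : E × V => p.1) he
  have hs : d.src = d'.src := congrArg (fun p : E × V => p.2) he
  have hg : d.tgt = d'.tgt := by
    rcases Dart.eq_or_inv h1 with h2 | h2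
    · rw [h2]
    · rw [h2, Dart.src_inv] at hs
      rw [h2, Dart.tgt_inv]
      exact hs.symm
  have h' : d'.ThinCore t := h.class_eq ht (by rw [hs]) (by rw [hg])
  exact ⟨h', fl_tau' Θ (hΘ.thin d h) (hΘ.thin d' h') he⟩

/-- Core darts of two classes at a vertex: the block is not ignored. -/
theorem Covers.ni_of_two [Finite E] (hΘ : Θ.Covers) {d d' : H.Dart} (h : d.Core) (h' : d'.Core)
    (hs : d'.src = d.src) (hg : t d'.tgt ≠ t d.tgt) : Θ.NI (t d.src) := by
  obtain ⟨e, he, hes, het⟩ := hΘ.ex d h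
  obtain ⟨e', he', hes', het'⟩ := hΘ.ex d' h'
  exact ⟨e, he, e', he', by rw [hes], by rw [hes', hs, hes], by rw [het', het]; exact hg⟩

/-- If the block of the source of a thin core dart is ignored, then all core darts at its source
are the dart itself and its partner, which is different. -/
theorem Covers.of_not_ni [Finite E] (hΘ : Θ.Covers) (ht : H.Equitable t) {d : H.Dart}
    (h : d.ThinCore t) (hN : ¬ Θ.NI (t d.src)) :
    Θ.tau d ≠ d ∧ ∀ d' : H.Dart, d'.Core → d'.src = d.src → d' = d ∨ d' = Θ.tau d := by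
  have hd := hΘ.thin d h
  refine ⟨(Θ.tau_ne d hd).2 ?_, fun d' hc hs => ?_⟩
  · rcases Θ.deg d hd with h1 | ⟨d', h1, h2, h3⟩
    · exact h1
    · exact absurd ⟨d, hd, d', h1, rfl, h2, h3⟩ hN
  · refine hΘ.only_tau ht h hs ?_
    by_contra hg
    exact hN (hΘ.ni_of_two h.1 hc hs hg)

end Thin

end Graph

end Pool.Agent.Lib.MP_9c5086_lc
end

section

/-!
The constraint satisfaction problem on the core.
-/

namespace Pool.Agent.Lib.MP_9c5086_lc

namespace Graph

variable {W D V E : Type} [DecidableEq V] (H : Graph V E) (G : LG W D V E)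

/-- The dart `d` is mapped into the gamma block by local maps with image `x`; `ga` and `gb` give
the two edges at `x`. -/
def GD (ga gb : V → E) (x : V) (d : D) : Prop := H.Rm G d (ga x, x) ∨ H.Rm G d (gb x, x)

/-- Connected by gamma darts for `x`. -/
def GConn (ga gb : V → E) (x : V) : W → W → Prop :=
  Relation.ReflTransGen fun v w => ∃ d ∈ G.Ds, G.src d = v ∧ G.src (G.inv d) = w ∧
    H.GD G ga gb x d

/-- The set `B` of darts is a factor on the set `C` of vertices, for the image `x`. -/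
structure Factor (ga gb : V → E) (C : Set W) (x : V) (B : Set D) : Prop where
  inv : ∀ d ∈ G.Ds, G.src d ∈ C → H.GD G ga gb x d → (G.inv d ∈ B ↔ d ∈ B)
  mem : ∀ d ∈ G.Ds, G.src d ∈ C → H.GD G ga gb x d → d ∈ B → H.Rm G d (gb x, x)
  not_mem : ∀ d ∈ G.Ds, G.src d ∈ C → H.GD G ga gb x d → d ∉ B → H.Rm G d (ga x, x)
  count : ∀ v ∈ C, {d | d ∈ G.star v ∧ H.GD G ga gb x d ∧ d ∈ B}.ncard = H.mult (gb x, x)

/-- The component of `u` has a factor for the image `x`. -/
def Feas (ga gb : V → E) (u : W) (x : V) : Prop :=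
  ∃ B, H.Factor G ga gb {v | H.GConn G ga gb x u v} x B

/-- The edges `ga x` and `gb x` are the two edges at the vertices `x` of gamma blocks. -/
def GEdges (ga gb : V → E) : Prop :=
  ∀ x, H.Gam H.ty (H.ty x) → ga x ≠ gb x ∧ H.a (ga x) = x ∧ H.b (ga x) = some x ∧
    H.a (gb x) = x ∧ (H.b (gb x) = none ∨ H.b (gb x) = some x) ∧
    ∀ d : H.Dart, d.src = x → H.ty d.tgt = H.ty x → d.edge = ga x ∨ d.edge = gb x

/-- The variables: vertices and darts of the instance. -/
def Vars : Set (W ⊕ D) := {v | (∃ u ∈ G.Vs, v = .inl u) ∨ ∃ d ∈ G.Ds, v = .inr d}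

/-- The unary constraints. -/
def UC (ga gb : V → E) (v : W ⊕ D) (a : V ⊕ (E × V)) : Prop :=
  (∃ u x, v = .inl u ∧ a = .inl x ∧ H.Sm G u x ∧
    (H.Gam H.ty (H.ty x) → H.Feas G ga gb u x)) ∨
  ∃ d φ, v = .inr d ∧ a = .inr φ ∧ H.Rm G d φ

variable {H}

/-- The binary constraints. -/
structure BC (Θ : Thin H H.ty) (v w : W ⊕ D) (a b : V ⊕ (E × V)) : Prop where
  c1 : ∀ (d : D) (e : H.Dart) (φ : E × V), v = .inr d → w = .inr (G.inv d) → a = .inr e.fl →
    b = .inr φ → e.ThinCore H.ty → φ = e.inv.fl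
  c2 : ∀ (d d' : D) (e e' : H.Dart), v = .inr d → w = .inr d' → d ≠ d' → G.src d = G.src d' →
    a = .inr e.fl → b = .inr e'.fl → e.ThinCore H.ty → H.ty e.src = H.ty e'.src →
    H.ty e.tgt = H.ty e'.tgt → e'.fl = (Θ.tau e).fl
  c3 : ∀ (d : D) (x : V) (e : H.Dart), v = .inl (G.src d) → w = .inr d → a = .inl x →
    b = .inr e.fl → e.ThinCore H.ty → Θ.NI (H.ty e.src) → x = e.src
  c4 : ∀ (d : D) (x x' : V), d ∈ G.Ds → v = .inl (G.src d) → w = .inl (G.src (G.inv d)) →
    a = .inl x → b = .inl x' → H.Gam H.ty (H.ty x) → H.ty x' = H.ty x → x = x'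

/-- A solution of the constraint satisfaction problem. -/
structure Sol (Θ : Thin H H.ty) (ga gb : V → E) (s : W ⊕ D → V ⊕ (E × V)) : Prop where
  un : ∀ v ∈ Vars G, H.UC G ga gb v (s v)
  bin : ∀ v ∈ Vars G, ∀ w ∈ Vars G, BC G Θ v w (s v) (s w)

/-- A path consistent family. -/
def Pc (Θ : Thin H H.ty) (ga gb : V → E)
    (P : W ⊕ D → W ⊕ D → V ⊕ (E × V) → V ⊕ (E × V) → Prop) : Prop :=
  ∀ v w a b, P v w a b → v ∈ Vars G ∧ w ∈ Vars G ∧ H.UC G ga gb v a ∧ H.UC G ga gb w b ∧
    BC G Θ v w a b ∧ P w v b a ∧ (v = w → a = b) ∧ ∀ u ∈ Vars G, ∃ c, P v u a c ∧ P u w c b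

end Graph

end Pool.Agent.Lib.MP_9c5086_lc
end
end

section

/-!
Gamma darts.
-/

namespace Pool.Agent.Lib.MP_9c5086_lc

namespace Graph

variable {W D V E : Type} [DecidableEq V] {H : Graph V E} {G : LG W D V E} {ga gb : V → E}

private theorem other_ga (hE : H.GEdges ga gb) {x : V} (hx : H.Gam H.ty (H.ty x)) :
    H.other (ga x, x) = x := by
  obtain ⟨-, h1, h2, -⟩ := hE x hx
  simp [other, h1, h2]

private theorem other_gb (hE : H.GEdges ga gb) {x : V} (hx : H.Gam H.ty (H.ty x)) :
    H.other (gb x, x) = x := by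
  obtain ⟨-, -, -, h1, h2, -⟩ := hE x hx
  rcases h2 with h2 | h2 <;> simp [other, h1, h2]

theorem opp_ga (hE : H.GEdges ga gb) {x : V} (hx : H.Gam H.ty (H.ty x)) :
    H.opp (ga x, x) = (ga x, x) := by
  unfold opp
  rw [other_ga hE hx]

theorem opp_gb (hE : H.GEdges ga gb) {x : V} (hx : H.Gam H.ty (H.ty x)) :
    H.opp (gb x, x) = (gb x, x) := by
  unfold opp
  rw [other_gb hE hx]

/-- Gamma darts are closed under inversion. -/
theorem GD.inv (hE : H.GEdges ga gb) {x : V} (hx : H.Gam H.ty (H.ty x)) {d : D}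
    (h : H.GD G ga gb x d) : H.GD G ga gb x (G.inv d) := by
  rcases h with h | h
  · left
    have := (cons_Rm d _ h).2.2.2.2.1
    rwa [opp_ga hE hx] at this
  · right
    have := (cons_Rm d _ h).2.2.2.2.1
    rwa [opp_gb hE hx] at this

/-- The relation of being connected by gamma darts is symmetric. -/
theorem GConn.symm (hG : G.Ok) (hE : H.GEdges ga gb) {x : V} (hx : H.Gam H.ty (H.ty x)) {u v : W}
    (h : H.GConn G ga gb x u v) : H.GConn G ga gb x v u := by
  unfold GConn at h ⊢
  induction h with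
  | refl => exact Relation.ReflTransGen.refl
  | tail _ hs ih =>
    obtain ⟨d, hd, h1, h2, h3⟩ := hs
    refine Relation.ReflTransGen.head ⟨G.inv d, hG.inv_mem d hd, h2, ?_, GD.inv hE hx h3⟩ ih
    rw [hG.inv_inv d hd, h1]

/-- The vertices connected by gamma darts for `x` have the local image `x`. -/
theorem GConn.sm (hG : G.Ok) (hE : H.GEdges ga gb) {x : V} (hx : H.Gam H.ty (H.ty x)) {u v : W}
    (hu : H.Sm G u x) (h : H.GConn G ga gb x u v) : H.Sm G v x := by
  unfold GConn at h
  induction h with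
  | refl => exact hu
  | tail _ hs _ =>
    obtain ⟨d, hd, h1, h2, h3⟩ := hs
    rcases h3 with h3 | h3
    · have := Rm.tgt hG h3
      rwa [other_ga hE hx, h2] at this
    · have := Rm.tgt hG h3
      rwa [other_gb hE hx, h2] at this

/-- The gamma darts at a vertex with a local image `x` are its darts whose flags have the class
of the gamma block. -/
theorem gd_iff [Finite V] [Finite E] (hG : G.Ok) (hE : H.GEdges ga gb) {x : V}
    (hx : H.Gam H.ty (H.ty x)) {d : D} {e : H.Dart} (hS : H.Sm G (G.src d) x)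
    (h : H.Rm G d e.fl) : H.GD G ga gb x d ↔ H.ty e.tgt = H.ty x := by
  constructor
  · rintro (h' | h')
    · obtain ⟨f, hf⟩ := Rm.exists_dart h'
      have h1 : f.tgt = x := by rw [← other_fl, hf, other_ga hE hx]
      rw [← hf] at h'
      rw [(Rm.cls_eq hG h h').2, h1]
    · obtain ⟨f, hf⟩ := Rm.exists_dart h'
      have h1 : f.tgt = x := by rw [← other_fl, hf, other_gb hE hx]
      rw [← hf] at h'
      rw [(Rm.cls_eq hG h h').2, h1]
  · intro ht
    obtain ⟨φ, h1, h2⟩ := Sm.exists_rm hG (cons_Rm d _ h).1 hS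
    obtain ⟨f, rfl⟩ := Rm.exists_dart h1
    have h3 : f.src = x := h2
    have h4 : H.ty f.tgt = H.ty x := by rw [← (Rm.cls_eq hG h h1).2, ht]
    have h5 : f.fl = (f.edge, x) := by rw [← h3]; rfl
    rw [h5] at h1
    rcases (hE x hx).2.2.2.2.2 f h3 h4 with h6 | h6
    · left; rwa [h6] at h1
    · right; rwa [h6] at h1

omit [DecidableEq V] in
private theorem inc_loop {e : E} {x : V} (h1 : H.a e = x) (h2 : H.b e = some x) :
    H.inc e x = 2 := by
  have hs : (H.b e).isSome = true := by rw [h2]; rfl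
  have : {d : H.Dart | d.edge = e ∧ d.src = x} =
      {⟨(e, false), fun h => by simp at h⟩, ⟨(e, true), fun _ => hs⟩} := by
    ext ⟨⟨e', k⟩, hd⟩
    simp only [Set.mem_ofPred_eq, Set.mem_insert_iff, Set.mem_singleton_iff]
    constructor
    · rintro ⟨h3, -⟩
      change e' = e at h3
      subst h3
      cases k
      · left; rfl
      · right; rfl
    · rintro (h3 | h3)
      · have h4 : e' = e ∧ k = false := by simpa using congrArg Subtype.val h3
        obtain ⟨rfl, rfl⟩ := h4
        exact ⟨rfl, by simp [Dart.src, h1]⟩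
      · have h4 : e' = e ∧ k = true := by simpa using congrArg Subtype.val h3
        obtain ⟨rfl, rfl⟩ := h4
        exact ⟨rfl, by simp [Dart.src, h2]⟩
  unfold inc
  rw [this, Set.ncard_pair]
  intro h3
  have := congrArg (fun d : H.Dart => d.1.2) h3
  simp at this

/-- The number of gamma darts at a vertex with local image `x`. -/
theorem gd_count [Finite V] [Finite E] (hG : G.Ok) (hE : H.GEdges ga gb) {x : V}
    (hx : H.Gam H.ty (H.ty x)) {v : W} (hv : H.Sm G v x) :
    {d | d ∈ G.star v ∧ H.GD G ga gb x d}.ncard = 2 + H.mult (gb x, x) := by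
  obtain ⟨ψ, hψ⟩ := hv.2.2
  obtain ⟨β, hβ, hf⟩ := hψ.exists_bij
  obtain ⟨hne, ha1, ha2, hb1, hb2, hE3⟩ := hE x hx
  have key : ∀ d ∈ G.star v, (H.GD G ga gb x d ↔ ((β d).edge = ga x ∨ (β d).edge = gb x)) := by
    intro d hd
    have hr : H.Rm G d (β d).fl := by rw [hf d hd]; exact hψ.rel d hd
    have hs : (β d).src = x := hβ.mapsTo hd
    have hfl : (β d).fl = ((β d).edge, x) := by
      conv_rhs => rw [← hs]
      rfl
    rw [gd_iff hG hE hx (e := β d) (by rw [hd.2]; exact hv) hr]
    constructor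
    · exact hE3 (β d) hs
    · rintro (h | h)
      · rw [← other_fl, hfl, h, other_ga hE hx]
      · rw [← other_fl, hfl, h, other_gb hE hx]
  have h1 : {d | d ∈ G.star v ∧ H.GD G ga gb x d}.ncard =
      {e : H.Dart | e.src = x ∧ (e.edge = ga x ∨ e.edge = gb x)}.ncard := by
    refine Set.ncard_congr (fun d _ => β d) ?_ ?_ ?_
    · rintro d ⟨hd, hg⟩
      exact ⟨hβ.mapsTo hd, (key d hd).1 hg⟩
    · rintro d d' ⟨hd, -⟩ ⟨hd', -⟩ h
      exact hβ.injOn hd hd' h
    · rintro e ⟨he, h⟩
      obtain ⟨d, hd, rfl⟩ := hβ.surjOn he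
      exact ⟨d, ⟨hd, (key d hd).2 h⟩, rfl⟩
  have h2 : {e : H.Dart | e.src = x ∧ (e.edge = ga x ∨ e.edge = gb x)} =
      {e : H.Dart | e.edge = ga x ∧ e.src = x} ∪ {e : H.Dart | e.edge = gb x ∧ e.src = x} := by
    ext e
    simp only [Set.mem_ofPred_eq, Set.mem_union]
    tauto
  rw [h1, h2, Set.ncard_union_eq ?_ (Set.toFinite _) (Set.toFinite _)]
  · change H.inc (ga x) x + H.inc (gb x) x = _
    rw [inc_loop ha1 ha2, mult_eq_inc]
  · rw [Set.disjoint_left]
    rintro e ⟨h3, -⟩ ⟨h4, -⟩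
    exact hne (h3.symm.trans h4)

end Graph

end Pool.Agent.Lib.MP_9c5086_lc
end

section

/-!
The tile system of a machine.
-/

namespace Pool.Agent.Lib.MP_9c5086_lc

open Pool.Agent.Lib.PolyTime

/-- The kind of a position: first row, last row, first column, last column, template symbol. -/
abbrev Kind : Type := (Bool × Bool) × (Bool × Bool) × ZSym

/-- The kind of the position `(t, p)`. -/
def kindN (Z : List ZSym) (t p : ℕ) : Kind :=
  ((decide (t = 0), decide (t + 1 = Z.length)), (decide (p = 0), decide (p + 1 = Z.length)),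
    (Z[p]?).join)

/-- The kinds of the positions of the torus. -/
def kindZ (Z : List ZSym) (a : Fin Z.length × Fin Z.length) : Kind := kindN Z a.1 a.2

section

variable (M : Flat) (kin : M.K) (q₀ : M.Q) (sy : Bool → M.A)
  (acc : M.Q → (M.K → Option M.A) → Prop)

/-- Tiles: the kind and the five cells in the scope of the local condition. -/
abbrev Tile : Type := Kind × (Fin 5 → M.Cell)

/-- The tile system of a machine. -/
def tabSystem : TileSystem Kind (Tile M) (Option (M.Cell × M.Cell × M.Cell))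
    (Option (M.Cell × M.Cell)) where
  lf τ := if τ.1.2.1.1 = true then none else some (τ.2 0, τ.2 1, τ.2 3)
  rt τ := if τ.1.2.1.2 = true then none else some (τ.2 0, τ.2 2, τ.2 4)
  up τ := if τ.1.1.1 = true then none else some (τ.2 1, τ.2 2)
  dn τ := if τ.1.1.2 = true then none else some (τ.2 3, τ.2 4)
  ok k τ := τ.1 = k ∧ (k.2.1.1 = true → τ.2 0 = τ.2 1) ∧
    Good M kin q₀ sy acc k.1.1 k.1.2 k.2.1.1 k.2.1.2 k.2.2 (τ.2 0) (τ.2 1) (τ.2 2) (τ.2 3) (τ.2 4)

end

end Pool.Agent.Lib.MP_9c5086_lc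
end

section

/-!
The algorithm.
-/

namespace Pool.Agent.Lib.MP_9c5086_lc

namespace Alg

/-- Delete elements which violate the condition, as long as there are any. -/
def gfp {α : Type} (p : List α → α → Bool) (L : List α) : List α :=
  (fun R => R.filter (p R))^[L.length] L

/-- Membership in a list. -/
def memB {α : Type} [DecidableEq α] (a : α) (l : List α) : Bool := decide (a ∈ l)

theorem memB_iff {α : Type} [DecidableEq α] (a : α) (l : List α) : memB a l = true ↔ a ∈ l :=
  decide_eq_true_iff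

/-- Tables describing the target graph. -/
structure Tab (V E : Type) where
  /-- the flags -/
  fl : List (E × V)
  /-- the flags of the darts at a vertex, with multiplicities -/
  at' : V → List (E × V)
  /-- the vertices -/
  vs : List V
  /-- the opposite flag -/
  opp : E × V → E × V
  /-- is the edge a semi-edge? -/
  isS : E → Bool
  /-- is the flag a flag of a thin core dart? -/
  thin : E × V → Bool
  /-- are the classes of the flags the same? -/
  cls : E × V → E × V → Bool
  /-- the other flag of the same class -/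
  tau : E × V → E × V
  /-- is the block of the vertex not ignored? -/
  ni : V → Bool
  /-- does the vertex lie in a gamma block? -/
  gam : V → Bool
  /-- are the types equal? -/
  tyv : V → V → Bool
  /-- the first edge in a gamma block -/
  ga : V → E
  /-- the second edge in a gamma block -/
  gb : V → E

/-- The tables are right. -/
structure TabOk {V E : Type} [DecidableEq V] [DecidableEq E] (H : Graph V E)
    (Θ : Graph.Thin H H.ty) (T : Tab V E) : Prop where
  fl : ∀ φ, φ ∈ T.fl ↔ ∃ e : H.Dart, e.fl = φ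
  at' : ∀ x φ, (T.at' x).count φ = if φ.2 = x then H.mult φ else 0
  vs : ∀ x, x ∈ T.vs
  opp : T.opp = H.opp
  isS : ∀ e, T.isS e = true ↔ H.b e = none
  thin : ∀ e : H.Dart, T.thin e.fl = true ↔ e.ThinCore H.ty
  cls : ∀ e f : H.Dart, T.cls e.fl f.fl = true ↔ H.ty e.src = H.ty f.src ∧ H.ty e.tgt = H.ty f.tgt
  tau : ∀ e : H.Dart, e.ThinCore H.ty → T.tau e.fl = (Θ.tau e).fl
  ni : ∀ x, T.ni x = true ↔ Θ.NI (H.ty x)
  gam : ∀ x, T.gam x = true ↔ H.Gam H.ty (H.ty x)
  tyv : ∀ x y, T.tyv x y = true ↔ H.ty x = H.ty y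

variable {W D V E : Type} [DecidableEq W] [DecidableEq D] [DecidableEq V] [DecidableEq E]

/-- Variables with values. -/
abbrev Cell (W D V E : Type) : Type := (W ⊕ D) × (V ⊕ (E × V))

/-- Is there a bijection from the list of darts to the list of flags, within the relation `r`? -/
def sup (r : D → E × V → Bool) : List (E × V) → List D → Bool
  | [], l => decide (l = [])
  | φ :: φs, l => l.any fun d => r d φ && sup r φs (l.filter fun d' => !decide (d' = d))

variable (T : Tab V E) (G : LG W D V E)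

/-- The darts with source `u`. -/
def starL (u : W) : List D := G.Ds.filter fun d => decide (G.src d = u)

/-- The condition on the pairs of the consistent relation. -/
def stepR (R : List (D × (E × V))) (z : D × (E × V)) : Bool :=
  G.Le z.1 z.2.1 && G.Lv (G.src z.1) z.2.2 && (!decide (G.inv z.1 = z.1) || T.isS z.2.1) &&
    memB (G.inv z.1, T.opp z.2) R &&
    sup (fun d φ => memB (d, φ) R && (!decide (d = z.1) || decide (φ = z.2)))
      (T.at' z.2.2) (starL G (G.src z.1))

/-- The greatest consistent relation. -/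
def RL : List (D × (E × V)) := gfp (stepR T G) (G.Ds.flatMap fun d => T.fl.map fun φ => (d, φ))

/-- Can `u` locally be mapped to `x`? -/
def sB (u : W) (x : V) : Bool :=
  G.Lv u x && sup (fun d φ => memB (d, φ) (RL T G)) (T.at' x) (starL G u)

/-- The gamma darts for `x`. -/
def gdL (x : V) : List D :=
  G.Ds.filter fun d => memB (d, (T.ga x, x)) (RL T G) || memB (d, (T.gb x, x)) (RL T G)

/-- The condition on the vertices not connected to `u`. -/
def compStep (u : W) (x : V) (R : List W) (v : W) : Bool :=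
  !decide (v = u) && (gdL T G x).all fun d =>
    !decide (G.src d = v) || memB (G.src (G.inv d)) R

/-- The vertices connected to `u` by gamma darts for `x`. -/
def compL (u : W) (x : V) : List W :=
  G.Vs.filter fun v => !memB v (gfp (compStep T G u x) G.Vs)

/-- The gamma darts in the component of `u`. -/
def cdL (u : W) (x : V) : List D := (gdL T G x).filter fun d => memB (G.src d) (compL T G u x)

/-- Is there a factor on the component of `u`? -/
def feasB (u : W) (x : V) : Bool :=
  PM.pmDec (facV (compL T G u x) (cdL T G u x))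
    (facE G.src G.inv (fun d => memB (d, (T.ga x, x)) (RL T G))
      (fun d => memB (d, (T.gb x, x)) (RL T G)) (cdL T G u x))

/-- The pairs satisfying the unary constraints. -/
def ucL : List (Cell W D V E) :=
  (G.Vs.flatMap fun u => (T.vs.filter fun x => sB T G u x && (!T.gam x || feasB T G u x)).map
    fun x => (.inl u, .inl x)) ++ (RL T G).map fun z => (.inr z.1, .inr z.2)

/-- The first binary constraint. -/
def c1B (v w : W ⊕ D) (a b : V ⊕ (E × V)) : Bool :=
  G.Ds.all fun d => T.fl.all fun φ =>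
    !(decide (v = .inr d) && decide (w = .inr (G.inv d)) && decide (a = .inr φ) && T.thin φ) ||
      decide (b = .inr (T.opp φ))

/-- The second binary constraint. -/
def c2B (v w : W ⊕ D) (a b : V ⊕ (E × V)) : Bool :=
  G.Ds.all fun d => G.Ds.all fun d' => T.fl.all fun φ => T.fl.all fun φ' =>
    !(decide (v = .inr d) && decide (w = .inr d') && !decide (d = d') &&
      decide (G.src d = G.src d') && decide (a = .inr φ) && decide (b = .inr φ') && T.thin φ &&
      T.cls φ φ') || decide (φ' = T.tau φ)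

/-- The third binary constraint. -/
def c3B (v w : W ⊕ D) (a b : V ⊕ (E × V)) : Bool :=
  G.Ds.all fun d => T.vs.all fun x => T.fl.all fun φ =>
    !(decide (v = .inl (G.src d)) && decide (w = .inr d) && decide (a = .inl x) &&
      decide (b = .inr φ) && T.thin φ && T.ni φ.2) || decide (x = φ.2)

/-- The fourth binary constraint. -/
def c4B (v w : W ⊕ D) (a b : V ⊕ (E × V)) : Bool :=
  G.Ds.all fun d => T.vs.all fun x => T.vs.all fun x' =>
    !(decide (v = .inl (G.src d)) && decide (w = .inl (G.src (G.inv d))) && decide (a = .inl x) &&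
      decide (b = .inl x') && T.gam x && T.tyv x' x) || decide (x = x')

/-- The pairs of values satisfying the constraints. -/
def pairL : List (Cell W D V E × Cell W D V E) :=
  (ucL T G).flatMap fun y => ((ucL T G).filter fun z => c1B T G y.1 z.1 y.2 z.2 &&
    c2B T G y.1 z.1 y.2 z.2 && c3B T G y.1 z.1 y.2 z.2 && c4B T G y.1 z.1 y.2 z.2).map
      fun z => (y, z)

/-- The variables. -/
def varsL : List (W ⊕ D) := G.Vs.map .inl ++ G.Ds.map .inr

/-- The values. -/
def valsL : List (V ⊕ (E × V)) := T.vs.map .inl ++ T.fl.map .inr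

/-- The condition of path consistency. -/
def stepP (R : List (Cell W D V E × Cell W D V E))
    (q : Cell W D V E × Cell W D V E) : Bool :=
  memB (q.2, q.1) R && (!decide (q.1.1 = q.2.1) || decide (q.1.2 = q.2.2)) &&
    (varsL G).all fun u => (valsL T).any fun c =>
      memB (q.1, (u, c)) R && memB ((u, c), q.2) R

/-- The greatest path consistent family. -/
def PL : List (Cell W D V E × Cell W D V E) :=
  gfp (stepP T G) (pairL T G)

/-- The algorithm. -/
def accept : Bool :=
  (varsL G).all fun v => (valsL T).any fun a => memB ((v, a), (v, a)) (PL T G)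

end Alg

end Pool.Agent.Lib.MP_9c5086_lc
end
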