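import Pool.Agent.Lib.MP_9c5086_lc.Gadget
import Pool.Agent.Lib.MP_9c5086_lc.CAlg
import Pool.Agent.Lib.MP_9c5086_lc.TorusGlue
import Pool.Agent.Lib.MP_9c5086_lc.PMDisj

section

/-!
The completion of a closed gadget: a simple graph with lists which has a list cover iff the
gadget has a solution.
-/

namespace Pool.Agent.Lib.MP_9c5086_lc

namespace Graph

variable {V E I : Type} {H : Graph V E} {t : V → I} {Col : Type} {S : Setup H t Col}
  {sg : Empty → Bool}

/-- Adjacency in the completion of a gadget without ports. -/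
def fullAdj (Y : Univ H t) (g : Gadget S Empty sg) (a b : g.U × Y.X) : Prop :=
  (a.1 = b.1 ∧ Y.G.Adj a.2 b.2 ∧
    ∀ d, g.pos d = a.1 → ¬ (a.2 = Y.r (g.mv a.1) ∧ b.2 = Y.nb (g.slot d)) ∧
      ¬ (b.2 = Y.r (g.mv a.1) ∧ a.2 = Y.nb (g.slot d))) ∨
  ∃ d, g.pos d = a.1 ∧ g.pos (g.rev d) = b.1 ∧
    ((a.2 = Y.r (g.mv a.1) ∧ b.2 = Y.r (g.mv b.1)) ∨
      (a.2 = Y.nb (g.slot d) ∧ b.2 = Y.nb (g.slot (g.rev d))))

theorem fullAdj_symm (Y : Univ H t) (g : Gadget S Empty sg) {a b : g.U × Y.X}
    (h : fullAdj Y g a b) : fullAdj Y g b a := by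
  rcases h with ⟨h1, h2, h3⟩ | ⟨d, h1, h2, h3⟩
  · refine Or.inl ⟨h1.symm, h2.symm, fun d hd => ?_⟩
    rw [← h1] at hd ⊢
    obtain ⟨h4, h5⟩ := h3 d hd
    exact ⟨h5, h4⟩
  · refine Or.inr ⟨g.rev d, h2, by rw [g.rev_rev]; exact h1, ?_⟩
    rw [g.rev_rev]
    rcases h3 with ⟨h4, h5⟩ | ⟨h4, h5⟩
    · exact Or.inl ⟨h5, h4⟩
    · exact Or.inr ⟨h5, h4⟩

/-- The completion. -/
def fullGraph (Y : Univ H t) (g : Gadget S Empty sg) : SimpleGraph (g.U × Y.X) where
  Adj := fullAdj Y g
  symm := ⟨fun _ _ h => fullAdj_symm Y g h⟩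
  loopless := ⟨fun a h => by
    rcases h with ⟨-, h, -⟩ | ⟨d, h1, h2, -⟩
    · exact Y.G.irrefl h
    · exact g.ne_pos d (h2.trans h1.symm)⟩

/-- The lists of the vertices of the completion. -/
def fullLv (Y : Univ H t) (g : Gadget S Empty sg) (a : g.U × Y.X) : Set V :=
  {v | t v = Y.τ a.2 ∧ (a.2 = Y.r (g.mv a.1) → v ∈ g.Lv a.1)}

/-- The lists of the edges of the completion. -/
def fullLe (Y : Univ H t) (g : Gadget S Empty sg) (a b : g.U × Y.X) : Set E :=
  {e | ∀ d, g.pos d = a.1 → g.pos (g.rev d) = b.1 → a.2 = Y.r (g.mv a.1) →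
    b.2 = Y.r (g.mv b.1) → e ∈ g.Le d}

theorem fullLe_comm (Y : Univ H t) (g : Gadget S Empty sg) (a b : g.U × Y.X) :
    fullLe Y g a b = fullLe Y g b a := by
  have key : ∀ a b : g.U × Y.X, fullLe Y g a b ⊆ fullLe Y g b a := by
    intro a b e he d h1 h2 h3 h4
    have := he (g.rev d) h2 (by rw [g.rev_rev]; exact h1) h4 h3
    rwa [g.Le_rev] at this
  exact Set.Subset.antisymm (key a b) (key b a)

end Graph

end Pool.Agent.Lib.MP_9c5086_lc
end

section

/-!
The instance of the list covering problem for a template.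
-/

namespace Pool.Agent.Lib.MP_9c5086_lc

open Pool.Agent.Lib.PolyTime

namespace Graph

variable {V E I : Type} {H : Graph V E} {t : V → I} {Col : Type} {S : Setup H t Col}
  {Ch Cv : Type} [Finite Ch] [Finite Cv] {p q : ℕ} (Y : Univ H t)
  (g : Kind → Gadget S (TPort Ch Cv) tsg) (jv : V → Fin p) (je : E → Fin q)

/-- The closed gadget of a template. -/
abbrev tg (Z : List ZSym) : Gadget S Empty (fun _ => true) := torusGadget (kindZ Z) g

/-- All vertices of the gadget of kind `k`, together with a vertex of `Y`. -/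
noncomputable def names (k : Kind) : List ((g k).U × Y.X) :=
  letI := (g k).finU
  letI := Y.fin
  letI := Fintype.ofFinite ((g k).U × Y.X)
  Finset.univ.toList

/-- The list of all vertices of the graph. -/
noncomputable def vlist (Z : List ZSym) : List ((tg g Z).U × Y.X) :=
  (List.finRange Z.length).flatMap fun a => (List.finRange Z.length).flatMap fun b =>
    (names Y g (kindZ Z (a, b))).map fun ux => (⟨(a, b), ux.1⟩, ux.2)

open scoped Classical in
/-- The instance of a template. -/
noncomputable def outInst (Z : List ZSym) : Inst p q where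
  n := (vlist Y g Z).length
  G := (fullGraph Y (tg g Z)).comap (vlist Y g Z).get
  Lv i := Finset.univ.filter fun x => x ∈ jv '' fullLv Y (tg g Z) ((vlist Y g Z).get i)
  Le z := Finset.univ.filter fun e => ∃ e₀, je e₀ = e ∧ ∀ i j, z = s(i, j) →
    e₀ ∈ fullLe Y (tg g Z) ((vlist Y g Z).get i) ((vlist Y g Z).get j)

end Graph

end Pool.Agent.Lib.MP_9c5086_lc
end

section

section

/-!
Matchings of the contracted graph can be expanded.
-/

namespace Pool.Agent.Lib.MP_9c5086_lc.PM

variable {α : Type} [DecidableEq α] {V : List α} {E M : List (α × α)}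

private theorem pairs_rel {R : α → α → Prop} : ∀ l : List α, List.IsChain R l →
    ∀ e ∈ pairs l, R e.1 e.2
  | [], _, e, he => by simp [pairs] at he
  | [a], _, e, he => by simp [pairs] at he
  | a :: b :: l, h, e, he => by
    simp only [pairs, List.mem_cons] at he
    rw [List.isChain_cons_cons] at h
    rcases he with rfl | he
    · exact h.1
    · exact pairs_rel l h.2.tail e he

private theorem mem_ends {N : List (α × α)} {x : α} :
    x ∈ ends N ↔ ∃ e ∈ N, x = e.1 ∨ x = e.2 := by
  simp [ends]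

private theorem ends_append (N N' : List (α × α)) : ends (N ++ N') = ends N ++ ends N' := by
  simp [ends]

private theorem ends_cons (e : α × α) (N : List (α × α)) :
    ends (e :: N) = e.1 :: e.2 :: ends N := by
  simp [ends]

/-- The blossom without one of its vertices has a perfect matching. -/
theorem blossom_minus {b : α} {c : List α} (h : Blossom V E M b c) {x : α} (hx : x ∈ b :: c) :
    ∃ N : List (α × α), (∀ e ∈ N, Adj E e.1 e.2) ∧ 2 * N.length = c.length ∧
      (x :: ends N).Perm (b :: c) := by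
  obtain ⟨L1, L2, hL⟩ := List.append_of_mem hx
  have hlen : (L2 ++ L1).length = c.length := by
    have := congrArg List.length hL
    simp only [List.length_cons, List.length_append] at this ⊢
    omega
  have hev : Even (L2 ++ L1).length := hlen ▸ h.even
  have hch : List.IsChain (Adj E) (L1 ++ x :: (L2 ++ [b])) := by
    have h1 := h.chain
    have h2 : b :: (c ++ [b]) = L1 ++ x :: (L2 ++ [b]) := by
      have : b :: (c ++ [b]) = (b :: c) ++ [b] := rfl
      rw [this, hL]
      simp
    rw [h2] at h1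
    exact h1
  have hch2 : List.IsChain (Adj E) (L2 ++ L1) := by
    have h2 : List.IsChain (Adj E) (L2 ++ [b]) := by
      have := (List.isChain_append.mp hch).2.1
      exact this.tail
    cases L1 with
    | nil =>
      rw [List.append_nil]
      exact (List.isChain_append.mp h2).1
    | cons a L1 =>
      have hab : a = b := by
        rw [List.cons_append, List.cons.injEq] at hL
        exact hL.1.symm
      subst hab
      have h3 : List.IsChain (Adj E) (a :: L1) := (List.isChain_append.mp hch).1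
      rw [List.isChain_append] at h2 ⊢
      refine ⟨h2.1, h3, ?_⟩
      intro u hu v hv
      exact h2.2.2 u hu v hv
  have he := ends_pairs hev
  refine ⟨pairs (L2 ++ L1), pairs_rel _ hch2, ?_, ?_⟩
  · rw [← length_ends, he, hlen]
  · rw [he, hL]
    exact (List.perm_append_comm.cons x).trans List.perm_middle.symm

/-- A larger matching of the contracted graph gives a larger matching. -/
theorem expand_better {b : α} {c : List α} (hM : IsM V E M) (h : Blossom V E M b c)
    (hB : Better (V.filter fun v => decide (v ∉ c)) (E.map fun e => (rn b c e.1, rn b c e.2))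
      (untouched M c)) : Better V E M := by
  obtain ⟨M2, hM2, hlt⟩ := hB
  have hbc : b ∉ c := (List.nodup_cons.mp h.nodup).1
  have hcn : c.Nodup := (List.nodup_cons.mp h.nodup).2
  have htouch := h.touch
  have hcV : ∀ x ∈ ends M2, x ∈ V ∧ x ∉ c := by
    intro x hx
    have := hM2.sub x hx
    simpa [List.mem_filter] using this
  have hrn : ∀ x' x, rn b c x' = x → x ≠ b → x' = x := by
    intro x' x h1 h2
    by_cases h3 : x' ∈ c
    · simp only [rn, h3, if_true] at h1
      exact absurd h1.symm h2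
    · simpa [rn, h3] using h1
  have hadj : ∀ e ∈ M2, ∃ x' y', rn b c x' = e.1 ∧ rn b c y' = e.2 ∧ Adj E x' y' := by
    intro e he
    have h1 := (hcV e.1 (mem_ends.mpr ⟨e, he, Or.inl rfl⟩)).2
    have h2 := (hcV e.2 (mem_ends.mpr ⟨e, he, Or.inr rfl⟩)).2
    exact ((adj_contract h h1 h2).mp (hM2.adj e he)).2
  have hadj' : ∀ e ∈ M2, e.1 ≠ b → e.2 ≠ b → Adj E e.1 e.2 := by
    intro e he h1 h2
    obtain ⟨x', y', hx, hy, ha⟩ := hadj e he
    rw [hrn x' _ hx h1, hrn y' _ hy h2] at ha
    exact ha
  by_cases hb : b ∈ ends M2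
  · obtain ⟨e, he, hbe⟩ := mem_ends.mp hb
    obtain ⟨A, B, hAB⟩ := List.append_of_mem he
    -- the other end
    obtain ⟨y, x', hyx, hperm, hxy⟩ : ∃ y x', rn b c x' = b ∧
        (ends M2).Perm (b :: y :: ends (A ++ B)) ∧ Adj E x' y := by
      obtain ⟨u', v', hu, hv, ha⟩ := hadj e he
      have hp0 : (ends M2).Perm (e.1 :: e.2 :: ends (A ++ B)) := by
        rw [hAB, ends_append, ends_append, ends_cons]
        exact (List.perm_middle).trans ((List.perm_middle).cons _)
      have hnd0 : (e.1 :: e.2 :: ends (A ++ B)).Nodup := hp0.nodup_iff.mp hM2.nodup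
      have hne12 : e.1 ≠ e.2 := by
        intro heq
        have := (List.nodup_cons.mp hnd0).1
        exact this (heq ▸ List.mem_cons_self)
      rcases hbe with hbe | hbe
      · refine ⟨e.2, u', hu.trans hbe.symm, ?_, ?_⟩
        · rw [← hbe] at hp0; exact hp0
        · have : v' = e.2 := hrn v' _ hv (fun hh => hne12 (by rw [hh, hbe]))
          rw [← this]; exact ha
      · refine ⟨e.1, v', hv.trans hbe.symm, ?_, ?_⟩
        · rw [← hbe] at hp0; exact hp0.trans (List.Perm.swap _ _ _)
        · have : u' = e.1 := hrn u' _ hu (fun hh => hne12 (by rw [hh, ← hbe]))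
          rw [← this]
          exact ⟨Ne.symm ha.1, Or.symm ha.2⟩
    have hx' : x' ∈ b :: c := by
      by_cases h3 : x' ∈ c
      · exact List.mem_cons_of_mem _ h3
      · simp only [rn, h3, if_false] at hyx
        rw [hyx]; exact List.mem_cons_self
    obtain ⟨N, hN1, hN2, hN3⟩ := blossom_minus h hx'
    have hnd : (b :: y :: ends (A ++ B)).Nodup := hperm.nodup_iff.mp hM2.nodup
    have hrest : ∀ z ∈ y :: ends (A ++ B), z ∈ V ∧ z ∉ c ∧ z ≠ b := by
      intro z hz
      have h1 := hcV z (hperm.mem_iff.mpr (List.mem_cons_of_mem _ hz))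
      refine ⟨h1.1, h1.2, ?_⟩
      rintro rfl
      exact (List.nodup_cons.mp hnd).1 hz
    have hp : (ends (N ++ (x', y) :: (A ++ B))).Perm ((b :: c) ++ (y :: ends (A ++ B))) := by
      rw [ends_append, ends_cons]
      refine List.Perm.trans List.perm_middle ?_
      rw [← List.cons_append]
      exact hN3.append_right _
    refine ⟨N ++ (x', y) :: (A ++ B), ⟨?_, ?_, ?_⟩, ?_⟩
    · intro f hf
      rw [List.mem_append, List.mem_cons] at hf
      rcases hf with hf | rfl | hf
      · exact hN1 f hf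
      · exact hxy
      · have hfM : f ∈ M2 := by
          rw [hAB]
          rw [List.mem_append] at hf ⊢
          rcases hf with hf | hf
          · exact Or.inl hf
          · exact Or.inr (List.mem_cons_of_mem _ hf)
        refine hadj' f hfM ?_ ?_
        · exact (hrest f.1 (List.mem_cons_of_mem _ (mem_ends.mpr ⟨f, hf, Or.inl rfl⟩))).2.2
        · exact (hrest f.2 (List.mem_cons_of_mem _ (mem_ends.mpr ⟨f, hf, Or.inr rfl⟩))).2.2
    · rw [hp.nodup_iff]
      refine List.Nodup.append h.nodup (List.nodup_cons.mp hnd).2 ?_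
      intro z hz1 hz2
      rcases List.mem_cons.mp hz1 with rfl | hz1
      · exact (hrest z hz2).2.2 rfl
      · exact (hrest z hz2).2.1 hz1
    · intro z hz
      have := hp.mem_iff.mp hz
      rcases List.mem_append.mp this with hz | hz
      · exact h.sub z hz
      · exact (hrest z hz).1
    · have hl : M2.length = (A ++ B).length + 1 := by
        rw [hAB]; simp; omega
      simp only [List.length_append, List.length_cons] at hl ⊢
      omega
  · obtain ⟨N, hN1, hN2, hN3⟩ := blossom_minus h (List.mem_cons_self : b ∈ b :: c)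
    have hN3' : (ends N).Perm c := hN3.cons_inv
    refine ⟨N ++ M2, ⟨?_, ?_, ?_⟩, ?_⟩
    · intro f hf
      rcases List.mem_append.mp hf with hf | hf
      · exact hN1 f hf
      · refine hadj' f hf ?_ ?_
        · intro hh; exact hb (mem_ends.mpr ⟨f, hf, Or.inl hh.symm⟩)
        · intro hh; exact hb (mem_ends.mpr ⟨f, hf, Or.inr hh.symm⟩)
    · rw [ends_append]
      refine List.Nodup.append (hN3'.nodup_iff.mpr hcn) hM2.nodup ?_
      intro z hz1 hz2
      exact (hcV z hz2).2 (hN3'.mem_iff.mp hz1)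
    · intro z hz
      rw [ends_append] at hz
      rcases List.mem_append.mp hz with hz | hz
      · exact h.sub z (List.mem_cons_of_mem _ (hN3'.mem_iff.mp hz))
      · exact (hcV z hz).1
    · simp only [List.length_append]
      omega

end Pool.Agent.Lib.MP_9c5086_lc.PM
end

section

/-!
Correctness of the test for larger matchings.
-/

namespace Pool.Agent.Lib.MP_9c5086_lc.PM

variable {α : Type} [DecidableEq α] {V : List α} {E M : List (α × α)}

private lemma augStep_fixed (V : List α) (E M : List (α × α)) (r : Bool) (rs : List Bool)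
    (n : ℕ) : augStep^[n] (V, E, M, r :: rs) = (V, E, M, r :: rs) := by
  apply Function.iterate_fixed
  rfl

private lemma augStep_nil {V : List α} {E M : List (α × α)}
    (h : found E (forest V E M) = []) : augStep (V, E, M, []) = (V, E, M, [false]) := by
  simp only [augStep, h]

private lemma augStep_disj {V : List α} {E M : List (α × α)} {p q : List α}
    {l : List (List α × List α)} (h : found E (forest V E M) = (p, q) :: l)
    (h' : (p.filter fun x => decide (x ∈ q)) = []) :
    augStep (V, E, M, []) = (V, E, M, [true]) := by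
  simp only [augStep, h, h']

private lemma augStep_contract {V : List α} {E M : List (α × α)} {p q : List α}
    {l : List (List α × List α)} (h : found E (forest V E M) = (p, q) :: l) {b : α} {t : List α}
    (h' : (p.filter fun x => decide (x ∈ q)) = b :: t) :
    augStep (V, E, M, []) = contract V E (flip M (b :: t)) b
            ((p.filter fun x => decide (x ∉ q)).reverse ++ q.filter fun x => decide (x ∉ p)) := by
  simp only [augStep, h, h']

private lemma found_mem {E : List (α × α)} {F : List (List α)} {p q : List α}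
    (h : (p, q) ∈ found E F) : ∃ a t b u, p = a :: t ∧ q = b :: u ∧ p ∈ F ∧ q ∈ F ∧ Adj E a b := by
  unfold found at h
  rw [List.mem_flatMap] at h
  obtain ⟨p', hp', h⟩ := h
  rw [List.mem_flatMap] at h
  obtain ⟨q', hq', h⟩ := h
  match p', q' with
  | [], [] => simp at h
  | [], _ :: _ => simp at h
  | _ :: _, [] => simp at h
  | a :: t, b :: u =>
    simp only at h
    split_ifs at h with hadj
    · rw [List.mem_singleton, Prod.mk.injEq] at h
      obtain ⟨rfl, rfl⟩ := h
      exact ⟨a, t, b, u, rfl, rfl, hp', hq', hadj⟩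
    · simp at h

private lemma aug_main (k : ℕ) : ∀ (V : List α) (E M : List (α × α)), V.length = k → V.Nodup →
    IsM V E M → ∀ n, k + 1 ≤ n → ∃ b, (augStep^[n] (V, E, M, [])).2.2.2 = [b] ∧
      (b = true → Better V E M) ∧ (b = false → ∃ U D, IsCert V E M U D) := by
  induction k using Nat.strong_induction_on with
  | _ k ih =>
    intro V E M hk hV hM n hn
    obtain ⟨n, rfl⟩ : ∃ m, n = m + 1 := ⟨n - 1, by omega⟩
    rw [Function.iterate_succ_apply]
    have hF := inv_forest hV hM
    cases hfound : found E (forest V E M) with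
    | nil =>
      rw [augStep_nil hfound, augStep_fixed]
      exact ⟨false, rfl, fun h => by simp at h, fun _ => cert_of_found_nil hV hM hfound⟩
    | cons pq l =>
      obtain ⟨p, q⟩ := pq
      have hmem : (p, q) ∈ found E (forest V E M) := by
        rw [hfound]
        exact List.mem_cons_self
      obtain ⟨a, t, b', u, rfl, rfl, hp, hq, hadj⟩ := found_mem hmem
      cases hfilt : ((a :: t).filter fun x => decide (x ∈ b' :: u)) with
      | nil =>
        rw [augStep_disj hfound hfilt, augStep_fixed]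
        refine ⟨true, rfl, fun _ => ?_, fun h => by simp at h⟩
        apply better_of_disjoint hM (hF.alt _ hp) (hF.alt _ hq) hadj
        intro x hx hx'
        rw [List.filter_eq_nil_iff] at hfilt
        exact hfilt x hx (by simpa using hx')
      | cons b s =>
        rw [augStep_contract hfound hfilt]
        obtain ⟨hs, -, -, -, -⟩ := split_paths hM hF hp hq hfilt
        obtain ⟨hM', hlen, -⟩ := flip_spec hM (hF.alt _ hs)
        have hB := blossom_of_found hM hF hp hq hadj hfilt
        set c : List α := ((a :: t).filter fun x => decide (x ∉ b' :: u)).reverse ++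
          (b' :: u).filter fun x => decide (x ∉ a :: t) with hc
        have hcl := contract_length hV hB
        have hcm := contract_isM hM' hB
        have hcpos : 0 < c.length := List.length_pos_iff.2 hB.ne
        have hlt : (V.filter fun v => decide (v ∉ c)).length < k := by omega
        obtain ⟨r, hr1, hr2, hr3⟩ := ih _ hlt (V.filter fun v => decide (v ∉ c))
          (E.map fun e => (rn b c e.1, rn b c e.2)) (untouched (flip M (b :: s)) c) rfl
          (hV.filter _) hcm n (by omega)
        refine ⟨r, hr1, fun h => ?_, fun h => ?_⟩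
        · obtain ⟨M'', h1, h2⟩ := expand_better hM' hB (hr2 h)
          exact ⟨M'', h1, by rw [← hlen]; exact h2⟩
        · obtain ⟨U, D, hUD⟩ := hr3 h
          obtain ⟨U', D', hUD'⟩ := lift_cert hV hM' hB hUD
          refine ⟨U', D', ⟨hUD'.subU, hUD'.subD, hUD'.odd, hUD'.disj, hUD'.closed, ?_⟩⟩
          rw [← hlen]
          exact hUD'.card

/-- The test for a larger matching is correct. -/
theorem aug_iff (hV : V.Nodup) (hM : IsM V E M) : aug V E M = true ↔ Better V E M := by
  obtain ⟨b, h1, h2, h3⟩ := aug_main V.length V E M rfl hV hM (V.length + 1) le_rfl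
  unfold aug
  rw [h1, List.headD_cons]
  cases b with
  | true => exact ⟨fun _ => h2 rfl, fun _ => rfl⟩
  | false =>
    obtain ⟨U, D, hUD⟩ := h3 rfl
    exact ⟨fun h => by simp at h, fun h => absurd h (not_better hV hUD)⟩

end Pool.Agent.Lib.MP_9c5086_lc.PM
end

section

/-!
Finding a larger matching.
-/

namespace Pool.Agent.Lib.MP_9c5086_lc.PM

variable {α : Type} [DecidableEq α] {V : List α} {E M : List (α × α)}

omit [DecidableEq α] in
private lemma pr_mem_ends {L : List (α × α)} {x : α} :
    x ∈ ends L ↔ ∃ e ∈ L, x = e.1 ∨ x = e.2 := by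
  unfold ends
  simp [List.mem_flatMap]

omit [DecidableEq α] in
private lemma pr_ends_append (L K : List (α × α)) : ends (L ++ K) = ends L ++ ends K := by
  unfold ends
  rw [List.flatMap_append]

omit [DecidableEq α] in
private lemma pr_ends_length (L : List (α × α)) : (ends L).length = 2 * L.length := by
  induction L with
  | nil => rfl
  | cons e L ih =>
    have h1 : ends (e :: L) = [e.1, e.2] ++ ends L := by
      unfold ends
      rw [List.flatMap_cons]
    rw [h1, List.length_append, ih]
    simp only [List.length_cons, List.length_nil]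
    ring

omit [DecidableEq α] in
private lemma pr_isM_mono {E₁ E₂ : List (α × α)} (hE : ∀ e ∈ E₁, e ∈ E₂) {M₁ : List (α × α)}
    (h : IsM V E₁ M₁) : IsM V E₂ M₁ where
  adj := fun e he => by
    obtain ⟨h1, h2⟩ := h.adj e he
    exact ⟨h1, h2.imp (hE _) (hE _)⟩
  nodup := h.nodup
  sub := h.sub

omit [DecidableEq α] in
private lemma pr_better_mono {E₁ E₂ : List (α × α)} (hE : ∀ e ∈ E₁, e ∈ E₂)
    (h : Better V E₁ M) : Better V E₂ M := by
  obtain ⟨M', h1, h2⟩ := h
  exact ⟨M', pr_isM_mono hE h1, h2⟩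

omit [DecidableEq α] in
private lemma pr_isM_self {L : List (α × α)} (hM : IsM V E M) : IsM V (M ++ L) M where
  adj := fun e he => by
    obtain ⟨h1, -⟩ := hM.adj e he
    exact ⟨h1, Or.inl (List.mem_append_left _ he)⟩
  nodup := hM.nodup
  sub := hM.sub

/-- The invariant of the search. -/
private def PrInv (V : List α) (E M : List (α × α)) (s : List (α × α) × List (α × α)) : Prop :=
  (∀ e ∈ s.1, e ∈ E) ∧ (∀ e ∈ s.2, e ∈ E) ∧ Better V (M ++ (s.1 ++ s.2)) M ∧
    ∀ e ∈ s.1, ¬ Better V (M ++ (s.1.erase e ++ s.2)) M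

private lemma pr_iter (hV : V.Nodup) (hM : IsM V E M) (R : List (α × α)) :
    ∀ K, PrInv V E M (K, R) → ∃ K', (pruneStep V M)^[R.length] (K, R) = (K', []) ∧
      PrInv V E M (K', []) := by
  induction R with
  | nil =>
    intro K hK
    exact ⟨K, rfl, hK⟩
  | cons e R' ih =>
    intro K hK
    obtain ⟨h1, h2, h3, h4⟩ := hK
    simp only at h1 h2 h3 h4
    rw [List.length_cons, Function.iterate_succ_apply]
    have haug := aug_iff (E := M ++ (K ++ R')) hV (pr_isM_self hM)
    by_cases ha : aug V (M ++ (K ++ R')) M = true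
    · have hs : pruneStep V M (K, e :: R') = (K, R') := by
        simp only [pruneStep, ha, if_true]
      rw [hs]
      apply ih
      refine ⟨h1, fun f hf => h2 f (List.mem_cons_of_mem _ hf), haug.1 ha, fun f hf hb => ?_⟩
      refine h4 f hf (pr_better_mono (fun x hx => ?_) hb)
      simp only [List.mem_append, List.mem_cons] at hx ⊢
      tauto
    · have hs : pruneStep V M (K, e :: R') = (e :: K, R') := by
        simp only [pruneStep, ha]
        rfl
      rw [hs]
      apply ih
      refine ⟨?_, fun f hf => h2 f (List.mem_cons_of_mem _ hf), ?_, ?_⟩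
      · intro f hf
        rcases List.mem_cons.1 hf with rfl | hf
        · exact h2 _ List.mem_cons_self
        · exact h1 f hf
      · refine pr_better_mono (fun x hx => ?_) h3
        simp only [List.mem_append, List.mem_cons] at hx ⊢
        tauto
      · intro f hf hb
        by_cases hfe : f = e
        · subst hfe
          simp only [List.erase_cons_head] at hb
          exact ha (haug.2 hb)
        · have hfK : f ∈ K := by
            rcases List.mem_cons.1 hf with h | h
            · exact absurd h hfe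
            · exact h
          have h5 : (e :: K).erase f = e :: K.erase f :=
            List.erase_cons_tail (by simpa using fun h => hfe h.symm)
          simp only [h5] at hb
          refine h4 f hfK (pr_better_mono (fun x hx => ?_) hb)
          simp only [List.mem_append, List.mem_cons] at hx ⊢
          tauto

/-- The graph given by `M` and the list of additional edges still has a larger matching, and no
additional edge can be omitted. -/
theorem prune_spec (hV : V.Nodup) (hM : IsM V E M) (h : Better V E M) :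
    (∀ e ∈ prune V E M, e ∈ E) ∧ Better V (M ++ prune V E M) M ∧
      ∀ e ∈ prune V E M, ¬ Better V (M ++ (prune V E M).erase e) M := by
  obtain ⟨K', h1, h2, -, h3, h4⟩ := pr_iter hV hM E [] ⟨by simp, by simp,
    pr_better_mono (fun x hx => by simp [hx]) h, by simp⟩
  have h5 : prune V E M = K' := by
    unfold prune
    rw [h1]
  simp only [List.append_nil] at h2 h3 h4
  rw [h5]
  exact ⟨h2, h3, h4⟩

/-- A minimal set of additional edges gives a larger matching. -/
theorem larger_of_minimal (hM : IsM V E M) {N : List (α × α)} (hE : ∀ e ∈ N, e ∈ E)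
    (hN : Better V (M ++ N) M) (hmin : ∀ e ∈ N, ¬ Better V (M ++ N.erase e) M) :
    IsM V E (N ++ untouched M (ends N)) ∧ M.length < (N ++ untouched M (ends N)).length := by
  obtain ⟨M', hM', hlt⟩ := hN
  -- the pairs of `N`
  have key : ∀ e ∈ N, e.1 ≠ e.2 ∧ (e ∈ M' ∨ e.swap ∈ M') ∧ e ∉ N.erase e ∧ e.swap ∉ N := by
    intro e he
    by_contra hcon
    refine hmin e he ⟨M', ⟨fun f hf => ?_, hM'.nodup, hM'.sub⟩, hlt⟩
    obtain ⟨h1, h2⟩ := hM'.adj f hf
    refine ⟨h1, ?_⟩
    by_contra h3
    push Not at h3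
    obtain ⟨h3, h4⟩ := h3
    have h3a : f ∉ M := fun h => h3 (List.mem_append_left _ h)
    have h3b : f ∉ N.erase e := fun h => h3 (List.mem_append_right _ h)
    have h4a : f.swap ∉ M := fun h => h4 (List.mem_append_left _ h)
    have h4b : f.swap ∉ N.erase e := fun h => h4 (List.mem_append_right _ h)
    have h5 : f ∈ N → f = e := fun h => by
      by_contra hne
      exact h3b ((List.mem_erase_of_ne hne).2 h)
    have h6 : f.swap ∈ N → f.swap = e := fun h => by
      by_contra hne
      exact h4b ((List.mem_erase_of_ne hne).2 h)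
    have hsw : f.swap ≠ f := fun h => h1 (by
      have := congrArg Prod.fst h
      simpa using this.symm)
    apply hcon
    rcases h2 with h2 | h2
    · have hfN : f ∈ N := by
        rcases List.mem_append.1 h2 with h | h
        · exact absurd h h3a
        · exact h
      have hfe := h5 hfN
      subst hfe
      refine ⟨h1, Or.inl hf, h3b, fun h => ?_⟩
      exact hsw (h6 h)
    · have hfN : f.swap ∈ N := by
        rcases List.mem_append.1 h2 with h | h
        · exact absurd h h4a
        · exact h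
      have hfe := h6 hfN
      subst hfe
      refine ⟨fun h => h1 (by simpa using h.symm), Or.inr (by simpa using hf), h4b, fun h => ?_⟩
      rw [Prod.swap_swap] at h
      exact hsw (h5 h).symm
  -- disjointness in `M'`
  have hdis : ∀ e ∈ M', ∀ f ∈ M', ∀ x, (x = e.1 ∨ x = e.2) → (x = f.1 ∨ x = f.2) → e = f := by
    intro e he f hf x hxe hxf
    by_contra hne
    have h1 := hM'.nodup
    unfold ends at h1
    rw [List.nodup_flatMap] at h1
    have h2 : M'.Pairwise fun a b => ∀ x : α, (x = a.1 ∨ x = a.2) → ¬ (x = b.1 ∨ x = b.2) := by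
      refine h1.2.imp ?_
      intro a b hab x hxa hxb
      have h7 : List.Disjoint [a.1, a.2] [b.1, b.2] := hab
      rw [List.disjoint_left] at h7
      have h8 : x ∈ [a.1, a.2] := by simpa using hxa
      exact h7 h8 (by simpa using hxb)
    have h3 : ∀ ⦃a⦄, a ∈ M' → ∀ ⦃b⦄, b ∈ M' →
        (fun a b : α × α => a ≠ b → ∀ x : α, (x = a.1 ∨ x = a.2) → ¬ (x = b.1 ∨ x = b.2)) a b := by
      refine List.Pairwise.forall_of_forall_of_flip ?_ ?_ ?_
      · intro a _ hne
        exact absurd rfl hne
      · refine h2.imp ?_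
        intro a b hab _ x hxa hxb
        exact hab x hxa hxb
      · refine h2.imp ?_
        intro a b hab _ x hxb hxa
        exact hab x hxa hxb
    exact h3 he hf hne x hxe hxf
  have hNM : ∀ e ∈ N, ∃ e' ∈ M', (∀ x, (x = e.1 ∨ x = e.2) ↔ (x = e'.1 ∨ x = e'.2)) ∧
      (e' = e ∨ e' = e.swap) := by
    intro e he
    rcases (key e he).2.1 with h | h
    · exact ⟨e, h, fun x => Iff.rfl, Or.inl rfl⟩
    · exact ⟨e.swap, h, fun x => by simp [or_comm], Or.inr rfl⟩
  have hNdup : N.Nodup := by
    rw [List.nodup_iff_count_le_one]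
    intro e
    by_cases he : e ∈ N
    · have h1 := (key e he).2.2.1
      have h2 : (N.erase e).count e = 0 := List.count_eq_zero.2 h1
      rw [List.count_erase_self] at h2
      omega
    · rw [List.count_eq_zero.2 he]
      exact Nat.zero_le 1
  have hNends : (ends N).Nodup := by
    unfold ends
    rw [List.nodup_flatMap]
    refine ⟨fun e he => ?_, ?_⟩
    · have := (key e he).1
      simp [this]
    · have h1 : N.Pairwise fun a b => a ≠ b := hNdup
      refine List.Pairwise.imp_of_mem ?_ h1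
      intro a b ha hb hab
      have h2 : List.Disjoint [a.1, a.2] [b.1, b.2] := by
        rw [List.disjoint_left]
        intro x hxa hxb
        obtain ⟨a', ha', hax, hae⟩ := hNM a ha
        obtain ⟨b', hb', hbx, hbe⟩ := hNM b hb
        have h3 : a' = b' := hdis a' ha' b' hb' x ((hax x).1 (by simpa using hxa))
          ((hbx x).1 (by simpa using hxb))
        have hsa := (key a ha).2.2.2
        have hsb := (key b hb).2.2.2
        rcases hae with rfl | rfl <;> rcases hbe with rfl | rfl
        · exact hab h3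
        · subst h3
          exact hsb ha
        · subst h3
          exact hsa hb
        · exact hab (by simpa using congrArg Prod.swap h3)
      exact h2
  have hNsub : ∀ x ∈ ends N, x ∈ ends M' := by
    intro x hx
    obtain ⟨e, he, hxe⟩ := pr_mem_ends.1 hx
    obtain ⟨e', he', h1, -⟩ := hNM e he
    exact pr_mem_ends.2 ⟨e', he', (h1 x).1 hxe⟩
  have hUsub : ∀ e ∈ untouched M (ends N), e ∈ M ∧ e.1 ∉ ends N ∧ e.2 ∉ ends N := by
    intro e he
    unfold untouched at he
    simpa using he
  have hM1 : IsM V E (N ++ untouched M (ends N)) := by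
    refine ⟨fun e he => ?_, ?_, fun x hx => ?_⟩
    · rcases List.mem_append.1 he with h | h
      · exact ⟨(key e h).1, Or.inl (hE e h)⟩
      · exact hM.adj e (hUsub e h).1
    · rw [pr_ends_append, List.nodup_append']
      refine ⟨hNends, ?_, ?_⟩
      · have h1 : (untouched M (ends N)).Sublist M := List.filter_sublist
        have h2 : (ends (untouched M (ends N))).Sublist (ends M) := h1.flatMap _
        exact h2.nodup hM.nodup
      · rw [List.disjoint_left]
        intro x hx1 hx2
        obtain ⟨e, he, hxe⟩ := pr_mem_ends.1 hx2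
        obtain ⟨-, h1, h2⟩ := hUsub e he
        rcases hxe with rfl | rfl
        · exact h1 hx1
        · exact h2 hx1
    · rw [pr_ends_append] at hx
      rcases List.mem_append.1 hx with h | h
      · exact hM'.sub x (hNsub x h)
      · obtain ⟨e, he, hxe⟩ := pr_mem_ends.1 h
        exact hM.sub x (pr_mem_ends.2 ⟨e, (hUsub e he).1, hxe⟩)
  refine ⟨hM1, ?_⟩
  have hsub : ∀ x ∈ ends M', x ∈ ends (N ++ untouched M (ends N)) := by
    intro x hx
    obtain ⟨f, hf, hxf⟩ := pr_mem_ends.1 hx
    rw [pr_ends_append, List.mem_append]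
    by_cases hfN : f ∈ N ∨ f.swap ∈ N
    · left
      rcases hfN with h | h
      · exact pr_mem_ends.2 ⟨f, h, hxf⟩
      · exact pr_mem_ends.2 ⟨f.swap, h, by simpa [or_comm] using hxf⟩
    · right
      push Not at hfN
      obtain ⟨h1, h2⟩ := hM'.adj f hf
      have hno : ∀ y, (y = f.1 ∨ y = f.2) → y ∉ ends N := by
        intro y hy hyN
        obtain ⟨e, he, hye⟩ := pr_mem_ends.1 hyN
        obtain ⟨e', he', h3, h4⟩ := hNM e he
        have h5 : f = e' := hdis f hf e' he' y hy ((h3 y).1 hye)
        rcases h4 with h4 | h4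
        · exact hfN.1 (by rw [h5, h4]; exact he)
        · exact hfN.2 (by rw [h5, h4, Prod.swap_swap]; exact he)
      have hn1 := hno f.1 (Or.inl rfl)
      have hn2 := hno f.2 (Or.inr rfl)
      rcases h2 with h2 | h2
      · have hfM : f ∈ M := by
          rcases List.mem_append.1 h2 with h | h
          · exact h
          · exact absurd h hfN.1
        refine pr_mem_ends.2 ⟨f, ?_, hxf⟩
        unfold untouched
        rw [List.mem_filter]
        exact ⟨hfM, by simp [hn1, hn2]⟩
      · have hfM : f.swap ∈ M := by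
          rcases List.mem_append.1 h2 with h | h
          · exact h
          · exact absurd h hfN.2
        refine pr_mem_ends.2 ⟨f.swap, ?_, by simpa [or_comm] using hxf⟩
        unfold untouched
        rw [List.mem_filter]
        exact ⟨hfM, by simp [hn1, hn2]⟩
  have h1 : (ends M').length ≤ (ends (N ++ untouched M (ends N))).length :=
    (hM'.nodup.subperm hsub).length_le
  rw [pr_ends_length, pr_ends_length] at h1
  omega

/-- The improvement step. -/
theorem improve_spec (hV : V.Nodup) (hM : IsM V E M) :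
    IsM V E (improve V E M) ∧ (Better V E M → M.length < (improve V E M).length) ∧
      (¬ Better V E M → improve V E M = M) := by
  by_cases ha : aug V E M = true
  · have hb := (aug_iff hV hM).1 ha
    obtain ⟨h1, h2, h3⟩ := prune_spec hV hM hb
    obtain ⟨h4, h5⟩ := larger_of_minimal hM h1 h2 h3
    have h6 : improve V E M = prune V E M ++ untouched M (ends (prune V E M)) := by
      unfold improve
      rw [if_pos ha]
    rw [h6]
    exact ⟨h4, fun _ => h5, fun h => absurd hb h⟩
  · have hb : ¬ Better V E M := fun h => ha ((aug_iff hV hM).2 h)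
    have h6 : improve V E M = M := by
      unfold improve
      rw [if_neg ha]
    rw [h6]
    exact ⟨hM, fun h => absurd h hb, fun _ => rfl⟩

end Pool.Agent.Lib.MP_9c5086_lc.PM
end

section

/-!
Correctness of the algorithm for perfect matchings.
-/

namespace Pool.Agent.Lib.MP_9c5086_lc.PM

variable {α : Type} [DecidableEq α] {V : List α} {E M : List (α × α)}

omit [DecidableEq α] in
private theorem isM_nil_dec : IsM V E ([] : List (α × α)) :=
  ⟨fun e he => by simp at he, by simp [ends], fun x hx => by simp [ends] at hx⟩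

private theorem iter_spec (hV : V.Nodup) (i : ℕ) :
    IsM V E ((improve V E)^[i] []) ∧
      (Better V E ((improve V E)^[i] []) → i ≤ ((improve V E)^[i] []).length) := by
  induction i with
  | zero => exact ⟨isM_nil_dec, fun _ => Nat.zero_le _⟩
  | succ i ih =>
    rw [Function.iterate_succ_apply']
    obtain ⟨h1, h2, h3⟩ := improve_spec hV ih.1
    refine ⟨h1, fun hb => ?_⟩
    by_cases hb' : Better V E ((improve V E)^[i] [])
    · have := ih.2 hb'
      have := h2 hb'
      omega
    · rw [h3 hb'] at hb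
      exact absurd hb hb'

/-- The algorithm finds a maximum matching. -/
theorem maxMatching_spec (hV : V.Nodup) :
    IsM V E (maxMatching V E) ∧ ¬ Better V E (maxMatching V E) := by
  obtain ⟨h1, h2⟩ := iter_spec (E := E) hV V.length
  refine ⟨h1, fun hb => ?_⟩
  have h3 := h2 hb
  obtain ⟨M', hM', hlt⟩ := hb
  have h4 := exposed_count hV hM'
  unfold maxMatching at hlt
  omega

/-- The algorithm decides the existence of perfect matchings. -/
theorem pmDec_iff (hV : V.Nodup) :
    pmDec V E = true ↔ ∃ M, IsM V E M ∧ ∀ v ∈ V, v ∈ ends M := by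
  obtain ⟨h1, h2⟩ := maxMatching_spec (E := E) hV
  unfold pmDec
  rw [List.all_eq_true]
  constructor
  · intro h
    exact ⟨_, h1, fun v hv => by simpa using h v hv⟩
  · rintro ⟨M, hM, hp⟩
    have h3 := exposed_count hV hM
    have h4 : (V.filter fun v => decide (v ∉ ends M)) = [] := by
      rw [List.filter_eq_nil_iff]
      intro v hv
      simpa using hp v hv
    rw [h4] at h3
    have h5 : M.length ≤ (maxMatching V E).length := by
      by_contra hc
      exact h2 ⟨M, hM, by omega⟩
    have h6 := exposed_count hV h1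
    have h7 : (V.filter fun v => decide (v ∉ ends (maxMatching V E))).length = 0 := by
      simp only [List.length_nil, zero_add] at h3
      omega
    rw [List.length_eq_zero_iff, List.filter_eq_nil_iff] at h7
    intro v hv
    have := h7 v hv
    simpa using this

end Pool.Agent.Lib.MP_9c5086_lc.PM
end

section

/-!
Greatest fixed points of lists, and bijections.
-/

namespace Pool.Agent.Lib.MP_9c5086_lc

namespace Alg

/-- The deletion procedure computes the greatest set with a monotone condition. -/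
theorem mem_gfp {α : Type} {p : List α → α → Bool} {L : List α} {Q : Set α → α → Prop}
    (hp : ∀ R : List α, (∀ b ∈ R, b ∈ L) → ∀ a ∈ R, (p R a = true ↔ Q {b | b ∈ R} a))
    (hQ : ∀ (S S' : Set α) (a : α), S ⊆ S' → Q S a → Q S' a) {a : α} :
    a ∈ gfp p L ↔ ∃ S : Set α, (∀ b ∈ S, b ∈ L ∧ Q S b) ∧ a ∈ S := by
  set F : List α → List α := fun R => R.filter (p R) with hF
  have hL : ∀ i, ∀ b ∈ F^[i] L, b ∈ L := by
    intro i
    induction i with
    | zero => exact fun b hb => hb
    | succ i ih =>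
      intro b hb
      rw [Function.iterate_succ_apply'] at hb
      exact ih b (List.mem_filter.1 hb).1
  have hfix : ∀ i, F (F^[i] L) = F^[i] L ∨ (F^[i] L).length + i ≤ L.length := by
    intro i
    induction i with
    | zero => exact Or.inr le_rfl
    | succ i ih =>
      rw [Function.iterate_succ_apply']
      rcases ih with ih | ih
      · rw [ih]
        exact Or.inl ih
      · by_cases h : F (F^[i] L) = F^[i] L
        · rw [h]
          exact Or.inl h
        · right
          have h1 : (F (F^[i] L)).Sublist (F^[i] L) := List.filter_sublist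
          have h2 : (F (F^[i] L)).length ≠ (F^[i] L).length := fun h3 => h (h1.eq_of_length h3)
          have h3 := h1.length_le
          omega
  have hfixN : F (F^[L.length] L) = F^[L.length] L := by
    rcases hfix L.length with h | h
    · exact h
    · have h1 : (F^[L.length] L).length = 0 := by omega
      rw [List.length_eq_zero_iff.1 h1]
      rfl
  change a ∈ F^[L.length] L ↔ _
  constructor
  · intro ha
    refine ⟨{b | b ∈ F^[L.length] L}, fun b hb => ⟨hL _ b hb, ?_⟩, ha⟩
    have hb' : b ∈ F (F^[L.length] L) := by rw [hfixN]; exact hb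
    exact (hp _ (hL _) b hb).1 (List.mem_filter.1 hb').2
  · rintro ⟨S, hS, haS⟩
    have h : ∀ i, ∀ b ∈ S, b ∈ F^[i] L := by
      intro i
      induction i with
      | zero => exact fun b hb => (hS b hb).1
      | succ i ih =>
        intro b hb
        rw [Function.iterate_succ_apply']
        refine List.mem_filter.2 ⟨ih b hb, ?_⟩
        exact (hp _ (hL _) b (ih b hb)).2 (hQ S _ b ih (hS b hb).2)
    exact h _ a haS

variable {W D V E : Type} [DecidableEq W] [DecidableEq D] [DecidableEq V] [DecidableEq E]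
  [Nonempty V] [Nonempty E]

theorem sup_iff {r : D → E × V → Bool} {fs : List (E × V)} {l : List D} (hl : l.Nodup) :
    sup r fs l = true ↔ ∃ ψ : D → E × V, (∀ d ∈ l, r d (ψ d) = true) ∧ (l.map ψ).Perm fs := by
  induction fs generalizing l with
  | nil =>
    simp only [sup, decide_eq_true_eq]
    constructor
    · rintro rfl
      exact ⟨fun _ => (Classical.arbitrary E, Classical.arbitrary V), by simp, by simp⟩
    · rintro ⟨ψ, -, h⟩
      exact List.map_eq_nil_iff.1 h.eq_nil
  | cons φ φs ih =>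
    have hperm : ∀ d ∈ l, l.Perm (d :: l.filter fun d' => !decide (d' = d)) := by
      intro d hd
      have h1 := List.perm_cons_erase hd
      have h2 : l.erase d = l.filter fun d' => !decide (d' = d) := by
        rw [hl.erase_eq_filter]
        rfl
      rwa [h2] at h1
    simp only [sup, List.any_eq_true, Bool.and_eq_true]
    constructor
    · rintro ⟨d, hd, hr, hs⟩
      obtain ⟨ψ₀, h1, h2⟩ := (ih (hl.filter _)).1 hs
      have hne : ∀ d' ∈ l.filter fun d' => !decide (d' = d), d' ≠ d := by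
        intro d' hd'
        have := (List.mem_filter.1 hd').2
        simpa using this
      refine ⟨Function.update ψ₀ d φ, ?_, ?_⟩
      · intro d' hd'
        by_cases he : d' = d
        · subst he
          rw [Function.update_self]
          exact hr
        · rw [Function.update_of_ne he]
          exact h1 d' (List.mem_filter.2 ⟨hd', by simpa using he⟩)
      · refine ((hperm d hd).map _).trans ?_
        rw [List.map_cons, Function.update_self]
        refine List.Perm.cons φ ?_
        have h3 : (l.filter fun d' => !decide (d' = d)).map (Function.update ψ₀ d φ) =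
            (l.filter fun d' => !decide (d' = d)).map ψ₀ :=
          List.map_congr_left fun d' hd' => Function.update_of_ne (hne d' hd') _ _
        rw [h3]
        exact h2
    · rintro ⟨ψ, h1, h2⟩
      have h3 : φ ∈ l.map ψ := h2.symm.subset (by simp)
      obtain ⟨d, hd, hdφ⟩ := List.mem_map.1 h3
      refine ⟨d, hd, by rw [← hdφ]; exact h1 d hd, (ih (hl.filter _)).2 ⟨ψ, ?_, ?_⟩⟩
      · exact fun d' hd' => h1 d' (List.mem_filter.1 hd').1
      · have h4 := ((hperm d hd).map ψ).symm.trans h2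
        rw [List.map_cons, hdφ] at h4
        exact h4.cons_inv

/-- The test for local maps. -/
theorem sup_iff_starOk {H : Graph V E} {G : LG W D V E} (hN : G.Ds.Nodup)
    {Θ : Graph.Thin H H.ty} {T : Tab V E} (hT : TabOk H Θ T) {r : D → E × V → Bool} {u : W} {x : V} :
    sup r (T.at' x) (starL G u) = true ↔
      ∃ ψ, H.StarOk G (fun d φ => r d φ = true) u x ψ := by
  classical
  have hl : (starL G u).Nodup := hN.filter _
  have hmem : ∀ d, d ∈ starL G u ↔ d ∈ G.star u := by
    intro d
    simp [starL, LG.star]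
  have hcount : ∀ (ψ : D → E × V) (φ : E × V), ((starL G u).map ψ).count φ =
      {d | d ∈ G.star u ∧ ψ d = φ}.ncard := by
    intro ψ φ
    have h1 : {d | d ∈ G.star u ∧ ψ d = φ} =
        (((starL G u).filter fun d => decide (ψ d = φ)).toFinset : Set D) := by
      apply Set.ext
      intro d
      simp [hmem]
    rw [h1, Set.ncard_coe_finset, List.toFinset_card_of_nodup (hl.filter _),
      List.count_eq_countP, List.countP_map, List.countP_eq_length_filter]
    congr 1
    apply List.filter_congr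
    intro d _
    by_cases h2 : ψ d = φ
    · simp [h2]
    · simp only [Function.comp, h2, decide_false]
      exact beq_eq_false_iff_ne.2 h2
  rw [sup_iff hl]
  refine exists_congr fun ψ => ?_
  constructor
  · rintro ⟨h1, h2⟩
    have h3 : ∀ φ, {d | d ∈ G.star u ∧ ψ d = φ}.ncard = if φ.2 = x then H.mult φ else 0 := by
      intro φ
      rw [← hcount, h2.count_eq, hT.at']
    refine ⟨fun d hd => h1 d ((hmem d).2 hd), fun d hd => ?_, fun φ hφ => ?_⟩
    · by_contra hne
      have h4 := h3 (ψ d)
      rw [if_neg hne, ← hcount, List.count_eq_zero] at h4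
      exact h4 (List.mem_map.2 ⟨d, (hmem d).2 hd, rfl⟩)
    · rw [h3, if_pos hφ]
  · intro h
    refine ⟨fun d hd => h.rel d ((hmem d).1 hd), List.perm_iff_count.2 fun φ => ?_⟩
    rw [hcount, hT.at']
    by_cases hφ : φ.2 = x
    · rw [if_pos hφ]
      exact h.count φ hφ
    · rw [if_neg hφ, ← hcount, List.count_eq_zero]
      intro h1
      obtain ⟨d, hd, rfl⟩ := List.mem_map.1 h1
      exact hφ (h.src d ((hmem d).1 hd))

end Alg

end Pool.Agent.Lib.MP_9c5086_lc
end

section

/-!
The algorithm computes the greatest consistent relation.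
-/

namespace Pool.Agent.Lib.MP_9c5086_lc

namespace Alg

variable {W D V E : Type} [DecidableEq W] [DecidableEq D] [DecidableEq V] [DecidableEq E]
  [Finite V] [Finite E] [Nonempty V] [Nonempty E] {H : Graph V E} {G : LG W D V E} {Θ : Graph.Thin H H.ty} {T : Tab V E}

/-- The condition of the greatest fixed point. -/
private def QR (H : Graph V E) (G : LG W D V E) (S : Set (D × (E × V))) (z : D × (E × V)) : Prop :=
  G.Le z.1 z.2.1 = true ∧ G.Lv (G.src z.1) z.2.2 = true ∧ (G.inv z.1 = z.1 → H.b z.2.1 = none) ∧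
    (G.inv z.1, H.opp z.2) ∈ S ∧
    ∃ ψ, H.StarOk G (fun d φ => (d, φ) ∈ S ∧ (d = z.1 → φ = z.2)) (G.src z.1) z.2.2 ψ

omit [Finite V] [Finite E] in
private theorem stepR_iff (hN : G.Ds.Nodup) (hT : TabOk H Θ T) (R : List (D × (E × V)))
    (z : D × (E × V)) : stepR T G R z = true ↔ QR H G {b | b ∈ R} z := by
  have key : ∀ d φ, (memB (d, φ) R && (!decide (d = z.1) || decide (φ = z.2))) = true ↔
      ((d, φ) ∈ {b | b ∈ R} ∧ (d = z.1 → φ = z.2)) := by
    intro d φ
    rw [Bool.and_eq_true, memB_iff, Bool.or_eq_true, Bool.not_eq_true', decide_eq_false_iff_not,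
      decide_eq_true_iff, ← imp_iff_not_or]
    exact Iff.rfl
  have hs := sup_iff_starOk (H := H) (G := G) hN hT (u := G.src z.1) (x := z.2.2)
    (r := fun d φ => memB (d, φ) R && (!decide (d = z.1) || decide (φ = z.2)))
  have hfun : (fun (d : D) (φ : E × V) =>
      (memB (d, φ) R && (!decide (d = z.1) || decide (φ = z.2))) = true) =
      fun d φ => (d, φ) ∈ {b | b ∈ R} ∧ (d = z.1 → φ = z.2) := by
    funext d φ
    exact propext (key d φ)
  rw [hfun] at hs
  unfold stepR QR
  rw [Bool.and_eq_true, Bool.and_eq_true, Bool.and_eq_true, Bool.and_eq_true, hs, memB_iff, hT.opp,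
    Bool.or_eq_true, Bool.not_eq_true', decide_eq_false_iff_not, hT.isS, ← imp_iff_not_or]
  constructor
  · rintro ⟨⟨⟨⟨h1, h2⟩, h3⟩, h4⟩, h5⟩
    exact ⟨h1, h2, h3, h4, h5⟩
  · rintro ⟨h1, h2, h3, h4, h5⟩
    exact ⟨⟨⟨⟨h1, h2⟩, h3⟩, h4⟩, h5⟩

omit [DecidableEq W] [DecidableEq D] [DecidableEq E] [Finite V] [Finite E] in
private theorem QR_mono (S S' : Set (D × (E × V))) (z : D × (E × V)) (h : S ⊆ S')
    (hq : QR H G S z) : QR H G S' z := by
  obtain ⟨h1, h2, h3, h4, ψ, h5⟩ := hq
  exact ⟨h1, h2, h3, h h4, ψ, h5.mono fun d φ hd => ⟨h hd.1, hd.2⟩⟩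

theorem mem_RL (hG : G.Ok) (hN : G.Ds.Nodup) (hT : TabOk H Θ T) {d : D} {φ : E × V} :
    (d, φ) ∈ RL T G ↔ H.Rm G d φ := by
  have _ := hG
  have hL : ∀ z : D × (E × V), z ∈ (G.Ds.flatMap fun d => T.fl.map fun φ => (d, φ)) ↔
      z.1 ∈ G.Ds ∧ z.2 ∈ T.fl := by
    rintro ⟨d, φ⟩
    simp only [List.mem_flatMap, List.mem_map, Prod.mk.injEq]
    constructor
    · rintro ⟨d', hd', φ', hφ', rfl, rfl⟩
      exact ⟨hd', hφ'⟩
    · rintro ⟨hd, hφ⟩
      exact ⟨d, hd, φ, hφ, rfl, rfl⟩
  unfold RL
  rw [mem_gfp (Q := QR H G) (fun R _ z _ => stepR_iff hN hT R z) fun S S' z => QR_mono S S' z]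
  constructor
  · rintro ⟨S, hS, hd⟩
    refine ⟨fun d φ => (d, φ) ∈ S, ?_, hd⟩
    intro d φ hdφ
    obtain ⟨hm, h1, h2, h3, h4, ψ, h5⟩ := hS _ hdφ
    have hds := ((hL _).1 hm).1
    refine ⟨hds, h1, h2, h3, h4, ψ, h5.mono fun _ _ h => h.1, ?_⟩
    exact (h5.rel d ⟨hds, rfl⟩).2 rfl
  · intro h
    refine ⟨{z | H.Rm G z.1 z.2}, ?_, h⟩
    rintro ⟨d, φ⟩ hz
    have hz' : H.Rm G d φ := hz
    obtain ⟨h1, h2, h3, h4, h5, ψ, h6, h7⟩ := Graph.cons_Rm d φ hz'
    refine ⟨(hL _).2 ⟨h1, (hT.fl φ).2 hz'.exists_dart⟩, h2, h3, h4, h5, ψ, ?_, h6.src, h6.count⟩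
    intro d' hd'
    refine ⟨h6.rel d' hd', ?_⟩
    rintro rfl
    exact h7

theorem sB_iff (hG : G.Ok) (hN : G.Ds.Nodup) (hT : TabOk H Θ T) {u : W} (hu : u ∈ G.Vs) {x : V} :
    sB T G u x = true ↔ H.Sm G u x := by
  have hfun : (fun (d : D) (φ : E × V) => memB (d, φ) (RL T G) = true) = H.Rm G := by
    funext d φ
    rw [memB_iff]
    exact propext (mem_RL hG hN hT)
  have hs := sup_iff_starOk (H := H) (G := G) hN hT (u := u) (x := x)
    (r := fun d φ => memB (d, φ) (RL T G))
  rw [hfun] at hs
  unfold sB Graph.Sm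
  rw [Bool.and_eq_true, hs]
  exact ⟨fun h => ⟨hu, h⟩, fun h => h.2⟩

theorem mem_gdL (hG : G.Ok) (hN : G.Ds.Nodup) (hT : TabOk H Θ T) {x : V} {d : D} :
    d ∈ gdL T G x ↔ H.GD G T.ga T.gb x d := by
  unfold gdL Graph.GD
  rw [List.mem_filter, Bool.or_eq_true, memB_iff, memB_iff, mem_RL hG hN hT, mem_RL hG hN hT]
  refine ⟨fun h => h.2, fun h => ⟨?_, h⟩⟩
  rcases h with h | h
  · exact (Graph.cons_Rm d _ h).1
  · exact (Graph.cons_Rm d _ h).1

end Alg

end Pool.Agent.Lib.MP_9c5086_lc
end

section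

/-!
The algorithm decides the existence of factors.
-/

namespace Pool.Agent.Lib.MP_9c5086_lc

namespace Alg

variable {W D V E : Type} [DecidableEq W] [DecidableEq D] [DecidableEq V] [DecidableEq E]
  [Finite V] [Finite E] [Nonempty V] [Nonempty E] {H : Graph V E} {G : LG W D V E} {Θ : Graph.Thin H H.ty} {T : Tab V E}

/-- The condition on the vertices which are not connected to `u`. -/
private def QC (H : Graph V E) (G : LG W D V E) (T : Tab V E) (u : W) (x : V) (S : Set W)
    (v : W) : Prop :=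
  v ≠ u ∧ ∀ d, H.GD G T.ga T.gb x d → G.src d = v → G.src (G.inv d) ∈ S

private theorem compStep_iff (hG : G.Ok) (hN : G.Ds.Nodup) (hT : TabOk H Θ T) (u : W) (x : V)
    (R : List W) (v : W) : compStep T G u x R v = true ↔ QC H G T u x {w | w ∈ R} v := by
  unfold compStep QC
  rw [Bool.and_eq_true, Bool.not_eq_true', decide_eq_false_iff_not, List.all_eq_true]
  refine and_congr Iff.rfl ⟨fun h d hd hs => ?_, fun h d hd => ?_⟩
  · have h1 := h d ((mem_gdL hG hN hT).2 hd)
    rw [Bool.or_eq_true, Bool.not_eq_true', decide_eq_false_iff_not, memB_iff] at h1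
    exact h1.resolve_left fun h2 => h2 hs
  · rw [Bool.or_eq_true, Bool.not_eq_true', decide_eq_false_iff_not, memB_iff]
    by_cases hs : G.src d = v
    · exact Or.inr (h d ((mem_gdL hG hN hT).1 hd) hs)
    · exact Or.inl hs

omit [DecidableEq W] [DecidableEq D] [DecidableEq E] [Finite V] [Finite E] in
private theorem gd_mem {x : V} {d : D} (h : H.GD G T.ga T.gb x d) : d ∈ G.Ds := by
  rcases h with h | h
  · exact (Graph.cons_Rm d _ h).1
  · exact (Graph.cons_Rm d _ h).1

theorem mem_compL (hG : G.Ok) (hN : G.Ds.Nodup) (hT : TabOk H Θ T) (hE : H.GEdges T.ga T.gb)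
    {u : W} (hu : u ∈ G.Vs) {x : V} (hx : H.Gam H.ty (H.ty x)) {v : W} :
    v ∈ compL T G u x ↔ H.GConn G T.ga T.gb x u v := by
  unfold compL
  rw [List.mem_filter, Bool.not_eq_true', ← Bool.not_eq_true, memB_iff,
    mem_gfp (Q := QC H G T u x) (fun R _ v _ => compStep_iff hG hN hT u x R v)
      fun S S' v h hq => ⟨hq.1, fun d hd hs => h (hq.2 d hd hs)⟩]
  constructor
  · rintro ⟨hv, h⟩
    by_contra hc
    refine h ⟨{w | w ∈ G.Vs ∧ ¬ H.GConn G T.ga T.gb x u w}, ?_, hv, hc⟩
    rintro w ⟨hw, hwc⟩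
    refine ⟨hw, ?_, ?_⟩
    · rintro rfl
      exact hwc Relation.ReflTransGen.refl
    · intro d hd hs
      have hdm := gd_mem hd
      refine ⟨hG.src_mem _ (hG.inv_mem d hdm), fun hc' => hwc ?_⟩
      refine Relation.ReflTransGen.tail hc' ⟨G.inv d, hG.inv_mem d hdm, rfl, ?_, hd.inv hE hx⟩
      rw [hG.inv_inv d hdm, hs]
  · intro h
    constructor
    · unfold Graph.GConn at h
      induction h with
      | refl => exact hu
      | tail _ hs _ =>
        obtain ⟨d, hd, -, h2, -⟩ := hs
        rw [← h2]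
        exact hG.src_mem _ (hG.inv_mem d hd)
    · rintro ⟨S, hS, hv⟩
      unfold Graph.GConn at h
      induction h with
      | refl => exact (hS u hv).2.1 rfl
      | tail _ hs ih =>
        obtain ⟨d, hd, h1, h2, h3⟩ := hs
        apply ih
        have h4 := (hS _ hv).2.2 (G.inv d) (h3.inv hE hx) h2
        rwa [hG.inv_inv d hd, h1] at h4

theorem feasB_iff (hG : G.Ok) (hN : G.Ds.Nodup) (hV : G.Vs.Nodup) (hT : TabOk H Θ T)
    (hE : H.GEdges T.ga T.gb) {u : W} {x : V} (hx : H.Gam H.ty (H.ty x)) (hu : H.Sm G u x) :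
    feasB T G u x = true ↔ H.Feas G T.ga T.gb u x := by
  have hC : ∀ v, v ∈ compL T G u x ↔ H.GConn G T.ga T.gb x u v := fun v =>
    mem_compL hG hN hT hE hu.1 hx
  have hL : ∀ d, d ∈ cdL T G u x ↔ H.GD G T.ga T.gb x d ∧ H.GConn G T.ga T.gb x u (G.src d) := by
    intro d
    unfold cdL
    rw [List.mem_filter, mem_gdL hG hN hT, memB_iff, hC]
  have hCn : (compL T G u x).Nodup := hV.filter _
  have hLn : (cdL T G u x).Nodup := (hN.filter _).filter _
  have hra : ∀ d ∈ G.Ds, (H.Rm G (G.inv d) (T.ga x, x) ↔ H.Rm G d (T.ga x, x)) := by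
    intro d hd
    constructor
    · intro h
      have := (Graph.cons_Rm _ _ h).2.2.2.2.1
      rwa [Graph.opp_ga hE hx, hG.inv_inv d hd] at this
    · intro h
      have := (Graph.cons_Rm _ _ h).2.2.2.2.1
      rwa [Graph.opp_ga hE hx] at this
  have hrb : ∀ d ∈ G.Ds, (H.Rm G (G.inv d) (T.gb x, x) ↔ H.Rm G d (T.gb x, x)) := by
    intro d hd
    constructor
    · intro h
      have := (Graph.cons_Rm _ _ h).2.2.2.2.1
      rwa [Graph.opp_gb hE hx, hG.inv_inv d hd] at this
    · intro h
      have := (Graph.cons_Rm _ _ h).2.2.2.2.1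
      rwa [Graph.opp_gb hE hx] at this
  unfold feasB
  rw [PM.pmDec_iff (facV_nodup hCn hLn), ← factor_iff hCn hLn ?_ ?_ ?_ ?_ ?_ (H.mult (T.gb x, x)) ?_]
  · unfold Graph.Feas
    refine exists_congr fun B => ?_
    constructor
    · rintro ⟨h1, h2, h3, h4⟩
      refine ⟨fun d _ hs hg => h1 d ((hL d).2 ⟨hg, hs⟩), fun d _ hs hg hb => ?_,
        fun d _ hs hg hb => ?_, fun v hv => ?_⟩
      · have := h2 d ((hL d).2 ⟨hg, hs⟩) hb
        rwa [memB_iff, mem_RL hG hN hT] at this
      · have := h3 d ((hL d).2 ⟨hg, hs⟩) hb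
        rwa [memB_iff, mem_RL hG hN hT] at this
      · rw [← h4 v ((hC v).2 hv)]
        congr 1
        ext d
        simp only [Set.mem_ofPred_eq]
        constructor
        · rintro ⟨⟨-, hs⟩, hg, hb⟩
          refine ⟨⟨(hL d).2 ⟨hg, ?_⟩, hs⟩, hb⟩
          rw [hs]
          exact hv
        · rintro ⟨⟨hd, hs⟩, hb⟩
          have := (hL d).1 hd
          exact ⟨⟨gd_mem this.1, hs⟩, this.1, hb⟩
    · intro F
      refine ⟨fun d hd => ?_, fun d hd hb => ?_, fun d hd hb => ?_, fun v hv => ?_⟩
      · have h := (hL d).1 hd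
        exact F.inv d (gd_mem h.1) h.2 h.1
      · have h := (hL d).1 hd
        rw [memB_iff, mem_RL hG hN hT]
        exact F.mem d (gd_mem h.1) h.2 h.1 hb
      · have h := (hL d).1 hd
        rw [memB_iff, mem_RL hG hN hT]
        exact F.not_mem d (gd_mem h.1) h.2 h.1 hb
      · have hv' := (hC v).1 hv
        rw [← F.count v hv']
        congr 1
        ext d
        simp only [Set.mem_ofPred_eq]
        constructor
        · rintro ⟨⟨hd, hs⟩, hb⟩
          have := (hL d).1 hd
          exact ⟨⟨gd_mem this.1, hs⟩, this.1, hb⟩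
        · rintro ⟨⟨-, hs⟩, hg, hb⟩
          refine ⟨⟨(hL d).2 ⟨hg, ?_⟩, hs⟩, hb⟩
          rw [hs]
          exact hv'
  · intro d hd
    exact (hC _).2 ((hL d).1 hd).2
  · intro d hd
    have h := (hL d).1 hd
    refine (hL _).2 ⟨h.1.inv hE hx, ?_⟩
    exact Relation.ReflTransGen.tail h.2 ⟨d, gd_mem h.1, rfl, rfl, h.1⟩
  · intro d hd
    exact hG.inv_inv d (gd_mem ((hL d).1 hd).1)
  · intro d hd
    rw [Bool.eq_iff_iff, memB_iff, memB_iff, mem_RL hG hN hT, mem_RL hG hN hT]
    exact hra d (gd_mem ((hL d).1 hd).1)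
  · intro d hd
    rw [Bool.eq_iff_iff, memB_iff, memB_iff, mem_RL hG hN hT, mem_RL hG hN hT]
    exact hrb d (gd_mem ((hL d).1 hd).1)
  · intro v hv
    have hv' := (hC v).1 hv
    rw [← Graph.gd_count hG hE hx (hv'.sm hG hE hx hu)]
    congr 1
    ext d
    simp only [Set.mem_ofPred_eq]
    constructor
    · rintro ⟨hd, hs⟩
      have := (hL d).1 hd
      exact ⟨⟨gd_mem this.1, hs⟩, this.1⟩
    · rintro ⟨⟨-, hs⟩, hg⟩
      refine ⟨(hL d).2 ⟨hg, ?_⟩, hs⟩
      rw [hs]
      exact hv'

end Alg

end Pool.Agent.Lib.MP_9c5086_lc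
end

section

/-!
The algorithm checks the unary and binary constraints.
-/

namespace Pool.Agent.Lib.MP_9c5086_lc

namespace Alg

variable {W D V E : Type} [DecidableEq W] [DecidableEq D] [DecidableEq V] [DecidableEq E]
  [Finite V] [Finite E] [Nonempty V] [Nonempty E] {H : Graph V E} {G : LG W D V E} {Θ : Graph.Thin H H.ty} {T : Tab V E}

private theorem imp_iff (p q : Bool) : (!p || q) = true ↔ (p = true → q = true) := by
  cases p <;> cases q <;> simp

private theorem and_iff (p q : Bool) : (p && q) = true ↔ (p = true ∧ q = true) := by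
  cases p <;> cases q <;> simp

private theorem ndec_iff (p : Prop) [Decidable p] : (!decide p) = true ↔ ¬ p := by
  by_cases h : p <;> simp [h]

theorem mem_ucL (hG : G.Ok) (hN : G.Ds.Nodup) (hV : G.Vs.Nodup) (hT : TabOk H Θ T)
    (hE : H.GEdges T.ga T.gb) {v : W ⊕ D} {a : V ⊕ (E × V)} :
    (v, a) ∈ ucL T G ↔ H.UC G T.ga T.gb v a := by
  unfold ucL Graph.UC
  rw [List.mem_append, List.mem_flatMap]
  constructor
  · rintro (⟨u, hu, h⟩ | h)
    · rw [List.mem_map] at h
      obtain ⟨x, hx, he⟩ := h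
      rw [List.mem_filter, and_iff, imp_iff, sB_iff hG hN hT hu] at hx
      obtain ⟨-, hs, hf⟩ := hx
      left
      refine ⟨u, x, (congrArg Prod.fst he).symm, (congrArg Prod.snd he).symm, hs, fun hg => ?_⟩
      exact (feasB_iff hG hN hV hT hE hg hs).1 (hf ((hT.gam x).2 hg))
    · rw [List.mem_map] at h
      obtain ⟨z, hz, he⟩ := h
      right
      exact ⟨z.1, z.2, (congrArg Prod.fst he).symm, (congrArg Prod.snd he).symm,
        (mem_RL hG hN hT).1 hz⟩
  · rintro (⟨u, x, rfl, rfl, hs, hf⟩ | ⟨d, φ, rfl, rfl, hr⟩)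
    · left
      refine ⟨u, hs.1, List.mem_map.2 ⟨x, ?_, rfl⟩⟩
      rw [List.mem_filter, and_iff, imp_iff, sB_iff hG hN hT hs.1]
      refine ⟨hT.vs x, hs, fun hg => ?_⟩
      have hg' := (hT.gam x).1 hg
      exact (feasB_iff hG hN hV hT hE hg' hs).2 (hf hg')
    · right
      exact List.mem_map.2 ⟨(d, φ), (mem_RL hG hN hT).2 hr, rfl⟩

omit [Finite V] [Finite E] in
private theorem c1B_iff {v w : W ⊕ D} {a b : V ⊕ (E × V)} : c1B T G v w a b = true ↔
    ∀ d ∈ G.Ds, ∀ φ ∈ T.fl, v = .inr d → w = .inr (G.inv d) → a = .inr φ → T.thin φ = true →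
      b = .inr (T.opp φ) := by
  simp only [c1B, List.all_eq_true, imp_iff, and_iff, decide_eq_true_eq, and_imp]

omit [Finite V] [Finite E] in
private theorem c2B_iff {v w : W ⊕ D} {a b : V ⊕ (E × V)} : c2B T G v w a b = true ↔
    ∀ d ∈ G.Ds, ∀ d' ∈ G.Ds, ∀ φ ∈ T.fl, ∀ φ' ∈ T.fl, v = .inr d → w = .inr d' → ¬ d = d' →
      G.src d = G.src d' → a = .inr φ → b = .inr φ' → T.thin φ = true → T.cls φ φ' = true →
      φ' = T.tau φ := by
  simp only [c2B, List.all_eq_true, imp_iff, and_iff, ndec_iff, decide_eq_true_eq, and_imp]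

omit [Finite V] [Finite E] in
private theorem c3B_iff {v w : W ⊕ D} {a b : V ⊕ (E × V)} : c3B T G v w a b = true ↔
    ∀ d ∈ G.Ds, ∀ x ∈ T.vs, ∀ φ ∈ T.fl, v = .inl (G.src d) → w = .inr d → a = .inl x →
      b = .inr φ → T.thin φ = true → T.ni φ.2 = true → x = φ.2 := by
  simp only [c3B, List.all_eq_true, imp_iff, and_iff, decide_eq_true_eq, and_imp]

omit [Finite V] [Finite E] in
private theorem c4B_iff {v w : W ⊕ D} {a b : V ⊕ (E × V)} : c4B T G v w a b = true ↔
    ∀ d ∈ G.Ds, ∀ x ∈ T.vs, ∀ x' ∈ T.vs, v = .inl (G.src d) → w = .inl (G.src (G.inv d)) →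
      a = .inl x → b = .inl x' → T.gam x = true → T.tyv x' x = true → x = x' := by
  simp only [c4B, List.all_eq_true, imp_iff, and_iff, decide_eq_true_eq, and_imp]

omit [DecidableEq W] [DecidableEq D] [DecidableEq E] [Finite V] [Finite E] in
private theorem uc_inr {ga gb : V → E} {z : W ⊕ D} {a : V ⊕ (E × V)} {d : D}
    (hz : H.UC G ga gb z a) (hd : z = .inr d) : ∃ φ, a = .inr φ ∧ H.Rm G d φ := by
  subst hd
  rcases hz with ⟨u, x, h, -⟩ | ⟨d', φ, h, ha, hr⟩
  · cases h
  · cases h
    exact ⟨φ, ha, hr⟩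

omit [DecidableEq W] [DecidableEq D] [DecidableEq E] [Finite V] [Finite E] in
private theorem uc_mem {ga gb : V → E} {z : W ⊕ D} {a : V ⊕ (E × V)} {d : D}
    (hz : H.UC G ga gb z a) (hd : z = .inr d) : d ∈ G.Ds := by
  obtain ⟨φ, -, hr⟩ := uc_inr hz hd
  exact (Graph.cons_Rm d φ hr).1

theorem bc_iff (hG : G.Ok) (hT : TabOk H Θ T) {v w : W ⊕ D} {a b : V ⊕ (E × V)}
    (ha : H.UC G T.ga T.gb v a) (hb : H.UC G T.ga T.gb w b) :
    (c1B T G v w a b && c2B T G v w a b && c3B T G v w a b && c4B T G v w a b) = true ↔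
      Graph.BC G Θ v w a b := by
  have _ := hG
  rw [and_iff, and_iff, and_iff, c1B_iff, c2B_iff, c3B_iff, c4B_iff]
  constructor
  · rintro ⟨⟨⟨h1, h2⟩, h3⟩, h4⟩
    refine ⟨?_, ?_, ?_, ?_⟩
    · intro d e φ hv hw hae hbe ht
      have h := h1 d (uc_mem ha hv) e.fl ((hT.fl _).2 ⟨e, rfl⟩) hv hw hae ((hT.thin e).2 ht)
      rw [hbe, hT.opp, Graph.opp_fl] at h
      exact Sum.inr.inj h
    · intro d d' e e' hv hw hne hs hae hbe ht hts htt
      have h := h2 d (uc_mem ha hv) d' (uc_mem hb hw) e.fl ((hT.fl _).2 ⟨e, rfl⟩) e'.fl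
        ((hT.fl _).2 ⟨e', rfl⟩) hv hw hne hs hae hbe ((hT.thin e).2 ht)
        ((hT.cls e e').2 ⟨hts, htt⟩)
      rw [h, hT.tau e ht]
    · intro d x e hv hw hae hbe ht hN
      exact h3 d (uc_mem hb hw) x (hT.vs x) e.fl ((hT.fl _).2 ⟨e, rfl⟩) hv hw hae hbe
        ((hT.thin e).2 ht) ((hT.ni _).2 hN)
    · intro d x x' hd hv hw hae hbe hg hty
      exact h4 d hd x (hT.vs x) x' (hT.vs x') hv hw hae hbe ((hT.gam x).2 hg)
        ((hT.tyv x' x).2 hty)
  · rintro ⟨h1, h2, h3, h4⟩
    refine ⟨⟨⟨?_, ?_⟩, ?_⟩, ?_⟩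
    · intro d _ φ hφ hv hw hae ht
      obtain ⟨e, rfl⟩ := (hT.fl φ).1 hφ
      obtain ⟨φ', hb', -⟩ := uc_inr hb hw
      rw [hb', h1 d e φ' hv hw hae hb' ((hT.thin e).1 ht), hT.opp, Graph.opp_fl]
    · intro d _ d' _ φ hφ φ' hφ' hv hw hne hs hae hbe ht hc
      obtain ⟨e, rfl⟩ := (hT.fl φ).1 hφ
      obtain ⟨e', rfl⟩ := (hT.fl φ').1 hφ'
      have ht' := (hT.thin e).1 ht
      obtain ⟨c1, c2⟩ := (hT.cls e e').1 hc
      rw [h2 d d' e e' hv hw hne hs hae hbe ht' c1 c2, hT.tau e ht']
    · intro d _ x _ φ hφ hv hw hae hbe ht hN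
      obtain ⟨e, rfl⟩ := (hT.fl φ).1 hφ
      exact h3 d x e hv hw hae hbe ((hT.thin e).1 ht) ((hT.ni _).1 hN)
    · intro d hd x _ x' _ hv hw hae hbe hg hty
      exact h4 d x x' hd hv hw hae hbe ((hT.gam x).1 hg) ((hT.tyv x' x).1 hty)

end Alg

end Pool.Agent.Lib.MP_9c5086_lc
end

section

/-!
Correctness of the algorithm.
-/

namespace Pool.Agent.Lib.MP_9c5086_lc

namespace Alg

variable {W D V E : Type} [DecidableEq W] [DecidableEq D] [DecidableEq V] [DecidableEq E]
  [Finite V] [Finite E] [Nonempty V] [Nonempty E] {H : Graph V E} {G : LG W D V E} {Θ : Graph.Thin H H.ty} {T : Tab V E}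

omit [DecidableEq W] [DecidableEq D] [DecidableEq V] [DecidableEq E] [Finite V] [Finite E]
  [Nonempty V] [Nonempty E] in
private theorem mem_varsL {v : W ⊕ D} : v ∈ varsL G ↔ v ∈ Graph.Vars G := by
  unfold varsL Graph.Vars
  simp only [List.mem_append, List.mem_map, Set.mem_ofPred_eq, eq_comm]

omit [Finite V] [Finite E] [Nonempty V] [Nonempty E] [DecidableEq W] [DecidableEq D]
  [DecidableEq E] in
private theorem uc_vars {v : W ⊕ D} {a : V ⊕ (E × V)} (h : H.UC G T.ga T.gb v a) :
    v ∈ Graph.Vars G := by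
  rcases h with ⟨u, x, rfl, rfl, h, -⟩ | ⟨d, φ, rfl, rfl, h⟩
  · exact Or.inl ⟨u, h.1, rfl⟩
  · exact Or.inr ⟨d, (Graph.cons_Rm d _ h).1, rfl⟩

omit [Finite V] [Nonempty V] [Nonempty E] [DecidableEq W] [DecidableEq D] in
private theorem uc_vals (hT : TabOk H Θ T) {v : W ⊕ D} {a : V ⊕ (E × V)}
    (h : H.UC G T.ga T.gb v a) : a ∈ valsL T := by
  unfold valsL
  rw [List.mem_append, List.mem_map, List.mem_map]
  rcases h with ⟨u, x, rfl, rfl, h, -⟩ | ⟨d, φ, rfl, rfl, h⟩
  · exact Or.inl ⟨x, hT.vs x, rfl⟩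
  · exact Or.inr ⟨φ, (hT.fl φ).2 h.exists_dart, rfl⟩

private theorem mem_pairL (hG : G.Ok) (hN : G.Ds.Nodup) (hV : G.Vs.Nodup) (hT : TabOk H Θ T)
    (hE : H.GEdges T.ga T.gb) {v w : W ⊕ D} {a b : V ⊕ (E × V)} :
    ((v, a), (w, b)) ∈ pairL T G ↔ H.UC G T.ga T.gb v a ∧ H.UC G T.ga T.gb w b ∧
      Graph.BC G Θ v w a b := by
  unfold pairL
  rw [List.mem_flatMap]
  constructor
  · rintro ⟨y, hy, hz⟩
    rw [List.mem_map] at hz
    obtain ⟨z, hz, he⟩ := hz
    rw [List.mem_filter] at hz
    have e1 : y = (v, a) := congrArg Prod.fst he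
    have e2 : z = (w, b) := congrArg Prod.snd he
    subst e1
    subst e2
    have ha := (mem_ucL hG hN hV hT hE).1 hy
    have hb := (mem_ucL hG hN hV hT hE).1 hz.1
    exact ⟨ha, hb, (bc_iff hG hT ha hb).1 hz.2⟩
  · rintro ⟨ha, hb, hc⟩
    refine ⟨(v, a), (mem_ucL hG hN hV hT hE).2 ha, ?_⟩
    rw [List.mem_map]
    refine ⟨(w, b), ?_, rfl⟩
    rw [List.mem_filter]
    exact ⟨(mem_ucL hG hN hV hT hE).2 hb, (bc_iff hG hT ha hb).2 hc⟩

/-- The condition of the greatest fixed point. -/
private def QP (T : Tab V E) (G : LG W D V E) (S : Set (Cell W D V E × Cell W D V E))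
    (q : Cell W D V E × Cell W D V E) : Prop :=
  (q.2, q.1) ∈ S ∧ (q.1.1 = q.2.1 → q.1.2 = q.2.2) ∧
    ∀ u ∈ varsL G, ∃ c ∈ valsL T, (q.1, (u, c)) ∈ S ∧ ((u, c), q.2) ∈ S

omit [Finite V] [Finite E] [Nonempty V] [Nonempty E] in
private theorem stepP_iff (R : List (Cell W D V E × Cell W D V E))
    (q : Cell W D V E × Cell W D V E) : stepP T G R q = true ↔ QP T G {b | b ∈ R} q := by
  unfold stepP QP
  rw [Bool.and_eq_true, Bool.and_eq_true, memB_iff, Bool.or_eq_true, Bool.not_eq_true',
    decide_eq_false_iff_not, decide_eq_true_iff, ← imp_iff_not_or, List.all_eq_true, and_assoc]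
  refine and_congr Iff.rfl (and_congr Iff.rfl (forall₂_congr fun u _ => ?_))
  rw [List.any_eq_true]
  refine exists_congr fun c => and_congr Iff.rfl ?_
  rw [Bool.and_eq_true, memB_iff, memB_iff]
  exact Iff.rfl

omit [Finite V] [Finite E] [Nonempty V] [Nonempty E] [DecidableEq W] [DecidableEq D]
  [DecidableEq V] [DecidableEq E] in
private theorem QP_mono (S S' : Set (Cell W D V E × Cell W D V E))
    (q : Cell W D V E × Cell W D V E) (h : S ⊆ S') (hq : QP T G S q) : QP T G S' q := by
  obtain ⟨h1, h2, h3⟩ := hq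
  refine ⟨h h1, h2, fun u hu => ?_⟩
  obtain ⟨c, hc, h4, h5⟩ := h3 u hu
  exact ⟨c, hc, h h4, h h5⟩

omit [Finite V] [Finite E] [Nonempty V] [Nonempty E] in
private theorem mem_PL {q : Cell W D V E × Cell W D V E} :
    q ∈ PL T G ↔ ∃ S : Set (Cell W D V E × Cell W D V E),
      (∀ b ∈ S, b ∈ pairL T G ∧ QP T G S b) ∧ q ∈ S :=
  mem_gfp (Q := QP T G) (fun R _ q _ => stepP_iff R q) fun S S' q => QP_mono S S' q

omit [Finite V] [Finite E] [Nonempty V] [Nonempty E] in
private theorem PL_prop {q : Cell W D V E × Cell W D V E} (hq : q ∈ PL T G) :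
    q ∈ pairL T G ∧ QP T G {b | b ∈ PL T G} q := by
  obtain ⟨S, hS, hqS⟩ := mem_PL.1 hq
  exact ⟨(hS q hqS).1, QP_mono S _ q (fun b hb => mem_PL.2 ⟨S, hS, hb⟩) (hS q hqS).2⟩

theorem accept_iff (hG : G.Ok) (hN : G.Ds.Nodup) (hV : G.Vs.Nodup) (hT : TabOk H Θ T)
    (hE : H.GEdges T.ga T.gb) : accept T G = true ↔
      ∃ P, Graph.Pc G Θ T.ga T.gb P ∧ ∀ v ∈ Graph.Vars G, ∃ a, P v v a a := by
  have hacc : accept T G = true ↔
      ∀ v ∈ varsL G, ∃ a ∈ valsL T, ((v, a), (v, a)) ∈ PL T G := by
    unfold accept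
    rw [List.all_eq_true]
    refine forall₂_congr fun v _ => ?_
    rw [List.any_eq_true]
    refine exists_congr fun c => and_congr Iff.rfl ?_
    rw [memB_iff]
  rw [hacc]
  constructor
  · intro h
    refine ⟨fun v w a b => ((v, a), (w, b)) ∈ PL T G, ?_, ?_⟩
    · intro v w a b hp
      obtain ⟨h1, h2, h3, h4⟩ := PL_prop hp
      obtain ⟨ha, hb, hc⟩ := (mem_pairL hG hN hV hT hE).1 h1
      refine ⟨uc_vars ha, uc_vars hb, ha, hb, hc, h2, h3, fun u hu => ?_⟩
      obtain ⟨c, -, h5, h6⟩ := h4 u (mem_varsL.2 hu)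
      exact ⟨c, h5, h6⟩
    · intro v hv
      obtain ⟨a, -, ha⟩ := h v (mem_varsL.2 hv)
      exact ⟨a, ha⟩
  · rintro ⟨P, hP, hv⟩ v hv'
    obtain ⟨a, ha⟩ := hv v (mem_varsL.1 hv')
    refine ⟨a, uc_vals hT (hP v v a a ha).2.2.1, mem_PL.2
      ⟨{q | P q.1.1 q.2.1 q.1.2 q.2.2}, ?_, ha⟩⟩
    rintro ⟨⟨v, a⟩, ⟨w, b⟩⟩ hp
    obtain ⟨-, -, h1, h2, h3, h4, h5, h6⟩ := hP v w a b hp
    refine ⟨(mem_pairL hG hN hV hT hE).2 ⟨h1, h2, h3⟩, h4, h5, fun u hu => ?_⟩
    obtain ⟨c, h7, h8⟩ := h6 u (mem_varsL.1 hu)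
    exact ⟨c, uc_vals hT (hP v u a c h7).2.2.2.1, h7, h8⟩

end Alg

end Pool.Agent.Lib.MP_9c5086_lc
end
end
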