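import Pool.Agent.Lib.MP_9c5086_lc.Defs
import Pool.Agent.Lib.PLib.Parse
import Pool.Agent.Lib.MP_9c5086_lc.Glue

section

/-!
The word encoding an instance determines whether there is a list cover.
-/

namespace Pool.Agent.Lib.MP_9c5086_lc

theorem bitsOf_injective {p : ℕ} : Function.Injective (bitsOf (p := p)) := by
  intro S T h
  unfold bitsOf at h
  have h1 := List.ofFn_injective h
  ext x
  have h2 := congrFun h1 x
  exact decide_eq_decide.mp h2

theorem encodeInst_data {p q n : ℕ} (G G' : SimpleGraph (Fin n)) (Lv Lv' : Fin n → Finset (Fin p))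
    (Le Le' : Sym2 (Fin n) → Finset (Fin q))
    (h : encodeInst (Inst.mk n G Lv Le) = encodeInst (Inst.mk n G' Lv' Le')) :
    G = G' ∧ Lv = Lv' ∧ ∀ i j, G.Adj i j → Le s(i, j) = Le' s(i, j) := by
  classical
  unfold encodeInst at h
  have h1 := List.ofFn_injective (N487b59b3.bitEncode_injective h)
  have h2 : ∀ i : Fin n, Lv i = Lv' i ∧
      ∀ j : Fin n, (if G.Adj i j then true :: bitsOf (Le s(i, j)) else [false])
        = (if G'.Adj i j then true :: bitsOf (Le' s(i, j)) else [false]) := by
    intro i
    have h3 := congrFun h1 i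
    simp only [List.cons.injEq] at h3
    refine ⟨bitsOf_injective h3.1, fun j => ?_⟩
    have h4 := congrFun (List.ofFn_injective h3.2) j
    convert h4 using 1
  have h5 : ∀ i j, G.Adj i j ↔ G'.Adj i j := by
    intro i j
    have h6 := (h2 i).2 j
    by_cases ha : G.Adj i j
    · by_cases hb : G'.Adj i j
      · exact ⟨fun _ => hb, fun _ => ha⟩
      · rw [if_pos ha, if_neg hb] at h6
        simp at h6
    · by_cases hb : G'.Adj i j
      · rw [if_neg ha, if_pos hb] at h6
        simp at h6
      · exact ⟨fun h => absurd h ha, fun h => absurd h hb⟩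
  refine ⟨?_, funext fun i => (h2 i).1, ?_⟩
  · ext i j
    exact h5 i j
  · intro i j ha
    have h6 := (h2 i).2 j
    rw [if_pos ha, if_pos ((h5 i j).mp ha)] at h6
    exact bitsOf_injective (List.cons.inj h6).2

theorem hasListCover_mp {p q : ℕ} (H : Graph (Fin p) (Fin q)) (I J : Inst p q)
    (h : encodeInst I = encodeInst J) (hI : H.HasListCover I) : H.HasListCover J := by
  classical
  have hn : I.n = J.n := by
    have h' := h
    unfold encodeInst at h'
    have h1 := congrArg List.length (N487b59b3.bitEncode_injective h')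
    rwa [List.length_ofFn, List.length_ofFn] at h1
  obtain ⟨n, G, Lv, Le⟩ := I
  obtain ⟨n', G', Lv', Le'⟩ := J
  change n = n' at hn
  subst hn
  obtain ⟨rfl, rfl, hL⟩ := encodeInst_data G G' Lv Lv' Le Le' h
  obtain ⟨fv, fe, hc, hv, he⟩ := hI
  refine ⟨fv, fe, hc, hv, fun u v ha => ?_⟩
  have h2 := he u v ha
  change fe s(u, v) ∈ Le s(u, v) at h2
  change fe s(u, v) ∈ Le' s(u, v)
  rw [← hL u v ha]
  exact h2

/-- The word encoding an instance determines whether there is a list cover. -/
theorem hasListCover_congr {p q : ℕ} (H : Graph (Fin p) (Fin q)) (I J : Inst p q)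
    (h : encodeInst I = encodeInst J) : H.HasListCover I ↔ H.HasListCover J :=
  ⟨hasListCover_mp H I J h, hasListCover_mp H J I h.symm⟩

theorem listcover_encodeInst {p q : ℕ} (H : Graph (Fin p) (Fin q)) (I : Inst p q) :
    LISTCOVER H (encodeInst I) = true ↔ H.HasListCover I := by
  classical
  unfold LISTCOVER
  rw [decide_eq_true_eq]
  constructor
  · rintro ⟨J, h, hJ⟩
    exact (hasListCover_congr H I J h).2 hJ
  · intro h
    exact ⟨I, rfl, h⟩

end Pool.Agent.Lib.MP_9c5086_lc
end

section

/-!
Membership in NP.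
-/

set_option autoImplicit false

namespace Pool.Agent.Lib.MP_9c5086_lc

open Pool.Agent.Lib.MP_20e1d9_lc (PT PT.of_eq PT.of_word PT.size)
open Pool.Agent.Lib.MP_20e1d9_lc.PL
open Pool.Agent.Lib.PLib
open Pool.Agent.Lib.MP_9c2350_lc (Enc)
open N487b59b3 (bitEncode)

/-- The data of an instance. -/
abbrev Dt : Type := List (List (List Bool))

/-- A certificate: a number (in unary) for each vertex and for each pair of vertices. -/
abbrev Ct : Type := List (List Bool) × List (List (List Bool))

/-- The cell of the vertex `i`: the list of the vertex. -/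
def vcell (D : Dt) (i : ℕ) : List Bool := (D.getD i []).getD 0 []

/-- The cell of a pair of vertices. -/
def ecell (D : Dt) (i j : ℕ) : List Bool := (D.getD i []).getD (j + 1) []

/-- The vertex chosen for `i`. -/
def cv (c : Ct) (i : ℕ) : ℕ := (c.1.getD i []).length

/-- The edge chosen for `ij`. -/
def ce (c : Ct) (i j : ℕ) : ℕ := ((c.2.getD i []).getD j []).length

/-- Adjacency. -/
def adjB (D : Dt) (i j : ℕ) : Bool := (ecell D i j).getD 0 false

/-- The data come from an instance. -/
def wf (p q : ℕ) (D : Dt) : Bool :=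
  ((List.range D.length).all fun i => decide ((D.getD i []).length = D.length + 1)) &&
  ((List.range D.length).all fun i => decide ((vcell D i).length = p)) &&
  ((List.range D.length).all fun i => decide (ecell D i i = [false])) &&
  ((List.range D.length).all fun i => (List.range D.length).all fun j =>
    decide (ecell D i j = ecell D j i) &&
    (decide (ecell D i j = [false]) ||
      (adjB D i j && decide ((ecell D i j).length = q + 1))))

variable {p q : ℕ}

open scoped Classical in
/-- `Joins` for numbers. -/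
noncomputable def joinsN (H : Graph (Fin p) (Fin q)) (t : ℕ × ℕ × ℕ) : Bool :=
  decide (∃ (e : Fin q) (v w : Fin p), t = (e.val, v.val, w.val) ∧ H.Joins e v w)

open scoped Classical in
/-- The number of edges over `e` at a vertex over `v`, if `v` is an end of `e`. -/
noncomputable def reqN (H : Graph (Fin p) (Fin q)) (t : ℕ × ℕ) : Option ℕ :=
  if h : t.1 < q ∧ t.2 < p then
    if H.a ⟨t.1, h.1⟩ = ⟨t.2, h.2⟩ ∨ H.b ⟨t.1, h.1⟩ = some ⟨t.2, h.2⟩ then
      some (if H.b ⟨t.1, h.1⟩ = some (H.a ⟨t.1, h.1⟩) then 2 else 1)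
    else none
  else none

/-- The verifier. -/
noncomputable def ver (H : Graph (Fin p) (Fin q)) (x : Dt × Ct) : Bool :=
  wf p q x.1 &&
  ((List.range x.1.length).all fun i => (vcell x.1 i).getD (cv x.2 i) false) &&
  ((List.range x.1.length).all fun i => (List.range x.1.length).all fun j =>
    decide (ce x.2 i j = ce x.2 j i) && decide (ce x.2 i j < q) &&
    (!(adjB x.1 i j) || ((ecell x.1 i j).getD (ce x.2 i j + 1) false &&
        joinsN H (ce x.2 i j, cv x.2 i, cv x.2 j)))) &&
  ((List.range x.1.length).all fun i => (List.range q).all fun e =>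
    decide (∀ k ∈ (reqN H (e, cv x.2 i)).toList,
      (List.range x.1.length).countP (fun j => adjB x.1 i j && decide (ce x.2 i j = e)) = k))

@[fun_prop]
theorem vcellPT {α : Type} [Enc α] {D : α → Dt} {i : α → ℕ} (hD : PT D) (hi : PT i) :
    PT (fun x => vcell (D x) (i x)) := by
  unfold vcell
  fun_prop

@[fun_prop]
theorem ecellPT {α : Type} [Enc α] {D : α → Dt} {i j : α → ℕ} (hD : PT D) (hi : PT i)
    (hj : PT j) : PT (fun x => ecell (D x) (i x) (j x)) := by
  unfold ecell
  fun_prop

@[fun_prop]
theorem cvPT {α : Type} [Enc α] {D : α → Ct} {i : α → ℕ} (hD : PT D) (hi : PT i) :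
    PT (fun x => cv (D x) (i x)) := by
  unfold cv
  fun_prop

@[fun_prop]
theorem cePT {α : Type} [Enc α] {D : α → Ct} {i j : α → ℕ} (hD : PT D) (hi : PT i)
    (hj : PT j) : PT (fun x => ce (D x) (i x) (j x)) := by
  unfold ce
  fun_prop

@[fun_prop]
theorem adjBPT {α : Type} [Enc α] {D : α → Dt} {i j : α → ℕ} (hD : PT D) (hi : PT i)
    (hj : PT j) : PT (fun x => adjB (D x) (i x) (j x)) := by
  unfold adjB
  fun_prop

@[fun_prop]
theorem wfPT {α : Type} [Enc α] {D : α → Dt} (hD : PT D) : PT (fun x => wf p q (D x)) := by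
  unfold wf
  fun_prop

theorem joinsNPT (H : Graph (Fin p) (Fin q)) : PT (joinsN H) := by
  refine of_list ((List.range q).product ((List.range p).product (List.range p))) _ false ?_
  rintro ⟨e, v, w⟩ h
  unfold joinsN
  rw [decide_eq_false_iff_not]
  rintro ⟨e', v', w', h1, -⟩
  apply h
  simp only [Prod.mk.injEq] at h1
  obtain ⟨rfl, rfl, rfl⟩ := h1
  simp

theorem reqNPT (H : Graph (Fin p) (Fin q)) : PT (reqN H) := by
  refine of_list ((List.range q).product (List.range p)) _ none ?_
  rintro ⟨e, v⟩ h
  unfold reqN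
  rw [dif_neg]
  rintro ⟨h1, h2⟩
  apply h
  simp only at h1 h2
  simp [h1, h2]

@[fun_prop]
theorem joinsNPT' {α : Type} [Enc α] (H : Graph (Fin p) (Fin q)) {f : α → ℕ × ℕ × ℕ}
    (hf : PT f) : PT (fun x => joinsN H (f x)) := (joinsNPT H).comp hf

@[fun_prop]
theorem reqNPT' {α : Type} [Enc α] (H : Graph (Fin p) (Fin q)) {f : α → ℕ × ℕ}
    (hf : PT f) : PT (fun x => reqN H (f x)) := (reqNPT H).comp hf

theorem verPT (H : Graph (Fin p) (Fin q)) : PT (ver H) := by
  unfold ver
  fun_prop

/-! ### Data and instances -/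

theorem wf_iff (D : Dt) : wf p q D = true ↔
    (∀ i < D.length, (D.getD i []).length = D.length + 1) ∧
    (∀ i < D.length, (vcell D i).length = p) ∧
    (∀ i < D.length, ecell D i i = [false]) ∧
    (∀ i < D.length, ∀ j < D.length, ecell D i j = ecell D j i ∧
      (ecell D i j = [false] ∨ (adjB D i j = true ∧ (ecell D i j).length = q + 1))) := by
  unfold wf
  simp only [Bool.and_eq_true, List.all_eq_true, List.mem_range, decide_eq_true_eq,
    Bool.or_eq_true, and_assoc]

theorem bits_eq (c : List Bool) (h : c.length = p) :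
    c = bitsOf (Finset.univ.filter fun k : Fin p => c.getD k false = true) := by
  unfold bitsOf
  refine List.ext_getElem (by simp [h]) fun i h1 h2 => ?_
  rw [List.getElem_ofFn]
  simp only [Finset.mem_filter, Finset.mem_univ, true_and]
  rw [List.getD_eq_getElem _ _ h1]
  simp

theorem cell_eq (c : List Bool) (h : c.length = q + 1) (h0 : c.getD 0 false = true) :
    c = true :: bitsOf (Finset.univ.filter fun k : Fin q => c.getD (k + 1) false = true) := by
  cases c with
  | nil => simp at h
  | cons b c =>
    have hb : b = true := by simpa using h0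
    rw [hb]
    congr 1
    have h' : c.length = q := by simpa using h
    conv_lhs => rw [bits_eq c h']
    congr 1

/-- The instance with given data. -/
noncomputable def instOf (p q : ℕ) (D : Dt) (h : wf p q D = true) : Inst p q where
  n := D.length
  G :=
    { Adj := fun i j => adjB D i j = true
      symm := by
        refine ⟨fun i j hij => ?_⟩
        have h1 := (((wf_iff D).1 h).2.2.2 i i.2 j j.2).1
        unfold adjB at hij ⊢
        rwa [← h1]
      loopless := by
        refine ⟨fun i hi => ?_⟩
        have h1 := ((wf_iff D).1 h).2.2.1 i i.2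
        unfold adjB at hi
        rw [h1] at hi
        simp at hi }
  Lv := fun i => Finset.univ.filter fun k : Fin p => (vcell D i).getD k false = true
  Le := fun e => open scoped Classical in Finset.univ.filter fun k : Fin q =>
    ∃ i j : Fin D.length, e = s(i, j) ∧ (ecell D i j).getD (k + 1) false = true

theorem instOf_Le (D : Dt) (h : wf p q D = true) (i j : Fin D.length) :
    (instOf p q D h).Le s(i, j) =
      Finset.univ.filter fun k : Fin q => (ecell D i j).getD (k + 1) false = true := by
  classical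
  ext k
  simp only [instOf, Finset.mem_filter, Finset.mem_univ, true_and]
  constructor
  · rintro ⟨i', j', h1, h2⟩
    rw [Sym2.eq_iff] at h1
    rcases h1 with ⟨rfl, rfl⟩ | ⟨rfl, rfl⟩
    · exact h2
    · rw [(((wf_iff D).1 h).2.2.2 i i.2 j j.2).1]
      exact h2
  · intro h2
    exact ⟨i, j, rfl, h2⟩

theorem encodeInst_instOf (D : Dt) (h : wf p q D = true) :
    encodeInst (instOf p q D h) = bitEncode D := by
  classical
  obtain ⟨h1, h2, h3, h4⟩ := (wf_iff D).1 h
  unfold encodeInst
  congr 1
  refine List.ext_getElem (by rw [List.length_ofFn]; rfl) fun i hi hi' => ?_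
  rw [List.getElem_ofFn]
  have e1 : D[i] = D.getD i [] := (List.getD_eq_getElem _ _ hi').symm
  rw [e1]
  have h5 : (D.getD i []).length = D.length + 1 := h1 i hi'
  refine List.ext_getElem ?_ fun j hj hj' => ?_
  · rw [List.length_cons, List.length_ofFn, h5]
    rfl
  · cases j with
    | zero =>
      rw [List.getElem_cons_zero]
      have e2 : (D.getD i [])[0] = vcell D i := (List.getD_eq_getElem _ _ hj').symm
      rw [e2]
      exact (bits_eq (vcell D i) (h2 i hi')).symm
    | succ j =>
      rw [List.getElem_cons_succ, List.getElem_ofFn]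
      have e2 : (D.getD i [])[j + 1] = ecell D i j := (List.getD_eq_getElem _ _ hj').symm
      rw [e2]
      have hjn : j < D.length := by rw [h5] at hj'; omega
      have e3 := instOf_Le D h ⟨i, hi'⟩ ⟨j, hjn⟩
      by_cases ha : adjB D i j = true
      · rw [if_pos (show (instOf p q D h).G.Adj ⟨i, _⟩ ⟨j, _⟩ from ha)]
        refine (congrArg (fun S => true :: bitsOf S) e3).trans ?_
        have h6 : (ecell D i j).length = q + 1 := by
          rcases (h4 i hi' j hjn).2 with h7 | h7
          · exfalso
            unfold adjB at ha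
            rw [h7] at ha
            simp at ha
          · exact h7.2
        exact (cell_eq (ecell D i j) h6 ha).symm
      · rw [if_neg (show ¬ (instOf p q D h).G.Adj ⟨i, _⟩ ⟨j, _⟩ from ha)]
        rcases (h4 i hi' j hjn).2 with h7 | h7
        · exact h7.symm
        · exact absurd h7.1 ha

open scoped Classical in
/-- The data of an instance. -/
noncomputable def dataOf (I : Inst p q) : Dt :=
  List.ofFn fun i : Fin I.n => bitsOf (I.Lv i) :: List.ofFn fun j : Fin I.n =>
    if I.G.Adj i j then true :: bitsOf (I.Le s(i, j)) else [false]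

theorem encodeInst_eq (I : Inst p q) : encodeInst I = bitEncode (dataOf I) := rfl

theorem length_dataOf (I : Inst p q) : (dataOf I).length = I.n := by
  unfold dataOf
  rw [List.length_ofFn]

open scoped Classical in
theorem dataOf_getD (I : Inst p q) (i : ℕ) (hi : i < I.n) :
    (dataOf I).getD i [] = bitsOf (I.Lv ⟨i, hi⟩) :: List.ofFn fun j : Fin I.n =>
      if I.G.Adj ⟨i, hi⟩ j then true :: bitsOf (I.Le s(⟨i, hi⟩, j)) else [false] := by
  unfold dataOf
  rw [List.getD_eq_getElem _ _ (by rw [List.length_ofFn]; exact hi), List.getElem_ofFn]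

theorem vcell_dataOf (I : Inst p q) (i : ℕ) (hi : i < I.n) :
    vcell (dataOf I) i = bitsOf (I.Lv ⟨i, hi⟩) := by
  classical
  unfold vcell
  rw [dataOf_getD I i hi]
  rfl

open scoped Classical in
theorem ecell_dataOf (I : Inst p q) (i j : ℕ) (hi : i < I.n) (hj : j < I.n) :
    ecell (dataOf I) i j =
      if I.G.Adj ⟨i, hi⟩ ⟨j, hj⟩ then true :: bitsOf (I.Le s(⟨i, hi⟩, ⟨j, hj⟩)) else [false] := by
  unfold ecell
  rw [dataOf_getD I i hi, List.getD_cons_succ,
    List.getD_eq_getElem _ _ (by rw [List.length_ofFn]; exact hj), List.getElem_ofFn]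

theorem length_bitsOf (S : Finset (Fin p)) : (bitsOf S).length = p := by
  unfold bitsOf
  rw [List.length_ofFn]

theorem wf_dataOf (I : Inst p q) : wf p q (dataOf I) = true := by
  classical
  rw [wf_iff, length_dataOf]
  refine ⟨fun i hi => ?_, fun i hi => ?_, fun i hi => ?_, fun i hi j hj => ⟨?_, ?_⟩⟩
  · rw [dataOf_getD I i hi, List.length_cons, List.length_ofFn]
  · rw [vcell_dataOf I i hi, length_bitsOf]
  · rw [ecell_dataOf I i i hi hi, if_neg (I.G.loopless.irrefl _)]
  · rw [ecell_dataOf I i j hi hj, ecell_dataOf I j i hj hi, Sym2.eq_swap]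
    by_cases h : I.G.Adj ⟨i, hi⟩ ⟨j, hj⟩
    · rw [if_pos h, if_pos h.symm]
    · rw [if_neg h, if_neg fun h' => h h'.symm]
  · unfold adjB
    rw [ecell_dataOf I i j hi hj]
    by_cases h : I.G.Adj ⟨i, hi⟩ ⟨j, hj⟩
    · right
      rw [if_pos h]
      exact ⟨rfl, by rw [List.length_cons, length_bitsOf]⟩
    · left
      rw [if_neg h]

/-! ### Correctness of the verifier -/

theorem countP_range (n : ℕ) (P : ℕ → Bool) :
    (List.range n).countP P = {v : Fin n | P v = true}.ncard := by
  classical
  have h1 : {v : Fin n | P v = true}.ncard = (Finset.univ.filter fun v : Fin n => P v = true).card := by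
    rw [Set.ncard_eq_toFinset_card']
    congr 1
    ext v
    simp
  rw [h1, Finset.card_filter]
  have h2 := Fin.sum_univ_eq_sum_range (fun i => if P i = true then 1 else 0) n
  rw [h2]
  clear h1 h2
  induction n with
  | zero => rfl
  | succ n ih =>
    rw [List.range_succ, List.countP_append, ih, Finset.sum_range_succ]
    congr 1
    by_cases h : P n = true <;> simp [h]

theorem isCover_iff {W : Type} (H : Graph (Fin p) (Fin q)) (G : SimpleGraph W) (fv : W → Fin p)
    (fe : Sym2 W → Fin q) : H.IsCover G fv fe ↔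
      (∀ u v, G.Adj u v → H.Joins (fe s(u, v)) (fv u) (fv v)) ∧
      ∀ u e, (H.a e = fv u ∨ H.b e = some (fv u)) →
        {v | G.Adj u v ∧ fe s(u, v) = e}.ncard = if H.b e = some (H.a e) then 2 else 1 := by
  constructor
  · intro h
    refine ⟨h.joins, fun u e he => ?_⟩
    by_cases hl : H.b e = some (H.a e)
    · rw [if_pos hl]
      rcases he with he | he
      · exact h.loop e (H.a e) rfl hl u he.symm
      · rw [hl, Option.some.injEq] at he
        exact h.loop e (H.a e) rfl hl u he.symm
    · rw [if_neg hl]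
      rcases hb : H.b e with _ | y
      · rcases he with he | he
        · exact h.semi e (H.a e) rfl hb u he.symm
        · rw [hb] at he
          exact absurd he (by simp)
      · refine h.ordinary e (H.a e) y rfl hb ?_ u ?_
        · rintro hxy
          exact hl (by rw [hb, hxy])
        · rcases he with he | he
          · exact Or.inl he.symm
          · rw [hb, Option.some.injEq] at he
            exact Or.inr he.symm
  · rintro ⟨h1, h2⟩
    refine ⟨h1, ?_, ?_, ?_⟩
    · intro e x y hx hy hxy u hu
      have h3 := h2 u e (by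
        rcases hu with hu | hu
        · left; rw [hx, hu]
        · right; rw [hy, hu])
      rw [if_neg] at h3
      · exact h3
      · rw [hx, hy, Option.some.injEq]
        exact fun h => hxy h.symm
    · intro e x hx hy u hu
      have h3 := h2 u e (Or.inl (by rw [hx, hu]))
      rw [if_pos (by rw [hx, hy])] at h3
      exact h3
    · intro e x hx hy u hu
      have h3 := h2 u e (Or.inl (by rw [hx, hu]))
      rw [if_neg (by rw [hy]; simp)] at h3
      exact h3

theorem reqN_iff (H : Graph (Fin p) (Fin q)) (e : Fin q) (v : Fin p) (n : ℕ) :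
    (∀ k ∈ (reqN H (e.val, v.val)).toList, n = k) ↔
      ((H.a e = v ∨ H.b e = some v) → n = if H.b e = some (H.a e) then 2 else 1) := by
  classical
  unfold reqN
  rw [dif_pos ⟨e.2, v.2⟩]
  by_cases h : H.a e = v ∨ H.b e = some v
  · rw [if_pos h]
    simp [h]
  · rw [if_neg h]
    simp [h]

theorem joinsN_iff (H : Graph (Fin p) (Fin q)) (e : Fin q) (v w : Fin p) :
    joinsN H (e.val, v.val, w.val) = true ↔ H.Joins e v w := by
  classical
  unfold joinsN
  rw [decide_eq_true_iff]
  constructor
  · rintro ⟨e', v', w', h, hj⟩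
    simp only [Prod.mk.injEq] at h
    obtain ⟨h1, h2, h3⟩ := h
    rwa [Fin.ext h1, Fin.ext h2, Fin.ext h3]
  · intro h
    exact ⟨e, v, w, rfl, h⟩

theorem ver_iff (H : Graph (Fin p) (Fin q)) (D : Dt) (c : Ct) : ver H (D, c) = true ↔
    wf p q D = true ∧
    (∀ i < D.length, (vcell D i).getD (cv c i) false = true) ∧
    (∀ i < D.length, ∀ j < D.length, ce c i j = ce c j i ∧ ce c i j < q ∧
      (adjB D i j = true → (ecell D i j).getD (ce c i j + 1) false = true ∧
        joinsN H (ce c i j, cv c i, cv c j) = true)) ∧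
    (∀ i < D.length, ∀ e < q, ∀ k ∈ (reqN H (e, cv c i)).toList,
      (List.range D.length).countP (fun j => adjB D i j && decide (ce c i j = e)) = k) := by
  unfold ver
  simp only [Bool.and_eq_true, List.all_eq_true, List.mem_range, decide_eq_true_eq,
    Bool.or_eq_true, and_assoc, Bool.not_eq_true', ← Bool.not_eq_true, ← imp_iff_not_or]

/-- The certificate given by a covering. -/
def certOf {n : ℕ} (fv : Fin n → Fin p) (fe : Sym2 (Fin n) → Fin q) : Ct :=
  (List.ofFn fun i => List.replicate (fv i) true,
    List.ofFn fun i => List.ofFn fun j => List.replicate (fe s(i, j)) true)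

theorem cv_certOf {n : ℕ} (fv : Fin n → Fin p) (fe : Sym2 (Fin n) → Fin q) (i : Fin n) :
    cv (certOf fv fe) i = fv i := by
  unfold cv certOf
  rw [List.getD_eq_getElem _ _ (by rw [List.length_ofFn]; exact i.2), List.getElem_ofFn,
    List.length_replicate]

theorem ce_certOf {n : ℕ} (fv : Fin n → Fin p) (fe : Sym2 (Fin n) → Fin q) (i j : Fin n) :
    ce (certOf fv fe) i j = fe s(i, j) := by
  have e : (certOf fv fe).2.getD i [] = List.ofFn fun j => List.replicate (fe s(i, j)) true := by
    unfold certOf
    rw [List.getD_eq_getElem _ _ (by rw [List.length_ofFn]; exact i.2), List.getElem_ofFn]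
  unfold ce
  rw [e, List.getD_eq_getElem _ _ (by rw [List.length_ofFn]; exact j.2), List.getElem_ofFn,
    List.length_replicate]

theorem length_certOf {n : ℕ} (fv : Fin n → Fin p) (fe : Sym2 (Fin n) → Fin q) :
    (bitEncode (certOf fv fe)).length ≤
      2 * (n * (2 * (3 * p) + 1)) + 1 + n * (2 * (n * (2 * (3 * q) + 1)) + 1) := by
  unfold certOf
  rw [length_bitEncode_pair]
  refine Nat.add_le_add (Nat.add_le_add_right (Nat.mul_le_mul_left _ ?_) _) ?_
  · refine (length_bitEncode_list_le _ (3 * p) ?_).trans ?_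
    · intro a ha
      obtain ⟨i, rfl⟩ := List.mem_ofFn.1 ha
      rw [length_bitEncode_bits, List.length_replicate]
      exact Nat.mul_le_mul_left _ (fv i).2.le
    · rw [List.length_ofFn]
  · refine (length_bitEncode_list_le _ (n * (2 * (3 * q) + 1)) ?_).trans ?_
    · intro a ha
      obtain ⟨i, rfl⟩ := List.mem_ofFn.1 ha
      refine (length_bitEncode_list_le _ (3 * q) ?_).trans ?_
      · intro b hb
        obtain ⟨j, rfl⟩ := List.mem_ofFn.1 hb
        rw [length_bitEncode_bits, List.length_replicate]
        exact Nat.mul_le_mul_left _ (fe s(i, j)).2.le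
      · rw [List.length_ofFn]
    · rw [List.length_ofFn]

theorem ver_certOf (H : Graph (Fin p) (Fin q)) (D : Dt) (h : wf p q D = true)
    (fv : Fin D.length → Fin p) (fe : Sym2 (Fin D.length) → Fin q)
    (hc : H.IsCover (instOf p q D h).G fv fe) (hv : ∀ u, fv u ∈ (instOf p q D h).Lv u)
    (he : ∀ u v, (instOf p q D h).G.Adj u v → fe s(u, v) ∈ (instOf p q D h).Le s(u, v)) :
    ver H (D, certOf fv fe) = true := by
  rw [ver_iff]
  obtain ⟨h1, h2⟩ := (isCover_iff H _ fv fe).1 hc
  refine ⟨h, fun i hi => ?_, fun i hi j hj => ⟨?_, ?_, fun hij => ⟨?_, ?_⟩⟩,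
    fun i hi e hlt k hk => ?_⟩
  · have h3 := hv ⟨i, hi⟩
    have e1 := cv_certOf fv fe ⟨i, hi⟩
    rw [show cv (certOf fv fe) i = fv ⟨i, hi⟩ from e1]
    simpa [instOf] using h3
  · rw [show ce (certOf fv fe) i j = fe s(⟨i, hi⟩, ⟨j, hj⟩) from ce_certOf fv fe ⟨i, hi⟩ ⟨j, hj⟩,
      show ce (certOf fv fe) j i = fe s(⟨j, hj⟩, ⟨i, hi⟩) from ce_certOf fv fe ⟨j, hj⟩ ⟨i, hi⟩,
      Sym2.eq_swap]
  · rw [show ce (certOf fv fe) i j = fe s(⟨i, hi⟩, ⟨j, hj⟩) from ce_certOf fv fe ⟨i, hi⟩ ⟨j, hj⟩]
    exact (fe _).2
  · rw [show ce (certOf fv fe) i j = fe s(⟨i, hi⟩, ⟨j, hj⟩) from ce_certOf fv fe ⟨i, hi⟩ ⟨j, hj⟩]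
    have h3 := he ⟨i, hi⟩ ⟨j, hj⟩ hij
    have h4 := instOf_Le D h ⟨i, hi⟩ ⟨j, hj⟩
    have h5 : fe s(⟨i, hi⟩, ⟨j, hj⟩) ∈ Finset.univ.filter fun k : Fin q =>
        (ecell D i j).getD (k + 1) false = true := by
      rw [← h4]
      exact h3
    simpa using h5
  · rw [show ce (certOf fv fe) i j = fe s(⟨i, hi⟩, ⟨j, hj⟩) from ce_certOf fv fe ⟨i, hi⟩ ⟨j, hj⟩,
      show cv (certOf fv fe) i = fv ⟨i, hi⟩ from cv_certOf fv fe ⟨i, hi⟩,
      show cv (certOf fv fe) j = fv ⟨j, hj⟩ from cv_certOf fv fe ⟨j, hj⟩, joinsN_iff]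
    exact h1 _ _ hij
  · rw [show cv (certOf fv fe) i = fv ⟨i, hi⟩ from cv_certOf fv fe ⟨i, hi⟩] at hk
    have h3 := (reqN_iff H ⟨e, hlt⟩ (fv ⟨i, hi⟩)
      ((List.range D.length).countP
        (fun j => adjB D i j && decide (ce (certOf fv fe) i j = e)))).2 ?_ k hk
    · exact h3
    · intro h4
      rw [← h2 ⟨i, hi⟩ ⟨e, hlt⟩ h4, countP_range]
      congr 1
      ext v
      simp only [Set.mem_ofPred_eq, Bool.and_eq_true, decide_eq_true_eq]
      rw [show ce (certOf fv fe) i v = fe s(⟨i, hi⟩, v) from ce_certOf fv fe ⟨i, hi⟩ v,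
        Fin.ext_iff]
      rfl

theorem hasListCover_of_ver (H : Graph (Fin p) (Fin q)) (D : Dt) (c : Ct)
    (hv : ver H (D, c) = true) (h : wf p q D = true) : H.HasListCover (instOf p q D h) := by
  rw [ver_iff] at hv
  obtain ⟨-, h1, h2, h3⟩ := hv
  have hp : ∀ i : Fin D.length, cv c i < p := by
    intro i
    have h4 := h1 i i.2
    have h5 := ((wf_iff D).1 h).2.1 i i.2
    by_contra h6
    rw [List.getD_eq_default _ _ (by omega)] at h4
    exact absurd h4 (by simp)
  let fv : Fin D.length → Fin p := fun i => ⟨cv c i, hp i⟩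
  let fe : Sym2 (Fin D.length) → Fin q := Sym2.lift ⟨fun i j => ⟨ce c i j, (h2 i i.2 j j.2).2.1⟩,
    fun i j => Fin.ext (h2 i i.2 j j.2).1⟩
  have hfe : ∀ i j, (fe s(i, j)).val = ce c i j := fun i j => rfl
  refine ⟨fv, fe, (isCover_iff H _ fv fe).2 ⟨?_, ?_⟩, ?_, ?_⟩
  · intro u v huv
    rw [← joinsN_iff]
    exact ((h2 u u.2 v v.2).2.2 huv).2
  · intro u e he
    have h4 := (reqN_iff H e (fv u) ((List.range D.length).countP
      (fun j => adjB D u j && decide (ce c u j = e)))).1 (h3 u u.2 e e.2) he
    rw [← h4, countP_range]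
    congr 1
    ext v
    simp only [Set.mem_ofPred_eq, Bool.and_eq_true, decide_eq_true_eq]
    rw [Fin.ext_iff, hfe]
    rfl
  · intro u
    simpa [instOf] using h1 u u.2
  · intro (u : Fin D.length) (v : Fin D.length) huv
    have h5 : fe s(u, v) ∈ Finset.univ.filter fun k : Fin q =>
        (ecell D u v).getD (k + 1) false = true := by
      rw [Finset.mem_filter]
      refine ⟨Finset.mem_univ _, ?_⟩
      rw [hfe]
      exact ((h2 u u.2 v v.2).2.2 huv).1
    have h6 := instOf_Le D h u v
    rw [← h6] at h5
    exact h5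

/-- LIST-`H`-COVER is in NP. -/
theorem listcover_mem_NP {p q : ℕ} (H : Graph (Fin p) (Fin q)) :
    LISTCOVER H ∈ N68a2faeb.NP := by
  refine mem_NP (α := Dt) (β := Ct) (g := ver H) (verPT H)
    (2 * (Polynomial.X * (2 * (3 * Polynomial.C p) + 1)) + 1 +
      Polynomial.X * (2 * (Polynomial.X * (2 * (3 * Polynomial.C q) + 1)) + 1)) ?_
  intro x
  constructor
  · intro hx
    classical
    unfold LISTCOVER at hx
    rw [decide_eq_true_eq] at hx
    obtain ⟨I, rfl, hI⟩ := hx
    have h := wf_dataOf I
    have e1 : encodeInst I = encodeInst (instOf p q (dataOf I) h) := by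
      rw [encodeInst_instOf, encodeInst_eq]
    rw [hasListCover_congr H I _ e1] at hI
    obtain ⟨fv, fe, hc, hv, he⟩ := hI
    refine ⟨dataOf I, certOf (n := (dataOf I).length) fv fe, encodeInst_eq I, ?_,
      ver_certOf H (dataOf I) h fv fe hc hv he⟩
    refine (length_certOf (n := (dataOf I).length) fv fe).trans ?_
    have hn : (dataOf I).length ≤ (encodeInst I).length := by
      rw [encodeInst_eq]
      exact length_le_bitEncode _
    simp only [Polynomial.eval_add, Polynomial.eval_mul, Polynomial.eval_X, Polynomial.eval_C,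
      Polynomial.eval_ofNat, Polynomial.eval_one]
    gcongr
  · rintro ⟨D, c, rfl, -, hv⟩
    have h : wf p q D = true := ((ver_iff H D c).1 hv).1
    rw [← encodeInst_instOf D h, listcover_encodeInst]
    exact hasListCover_of_ver H D c hv h

end Pool.Agent.Lib.MP_9c5086_lc
end

section

/-!
Conversion between the two encodings of simple instances: definitions.
-/

namespace Pool.Agent.Lib.MP_9c5086_lc

/-- The list of edges of a simple instance. -/
noncomputable def Inst.edges {p q : ℕ} (I : Inst p q) : List (Fin I.n × Fin I.n) :=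
  open scoped Classical in
  (List.finRange I.n).flatMap fun i => ((List.finRange I.n).filter fun j =>
    decide (i < j ∧ I.G.Adj i j)).map fun j => (i, j)

/-- A simple instance as an instance of the general problem. -/
noncomputable def Inst.toG {p q : ℕ} (I : Inst p q) : GInst p q where
  n := I.n
  m := I.edges.length
  G := ⟨fun f => (I.edges.get f).1, fun f => some (I.edges.get f).2⟩
  Lv := I.Lv
  Le := fun f => I.Le s((I.edges.get f).1, (I.edges.get f).2)

/-- The simple graph underlying an instance of the general problem, with its lists. -/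
noncomputable def GInst.toS {p q : ℕ} (J : GInst p q) : Inst p q where
  n := J.n
  G := SimpleGraph.fromRel fun v w => ∃ f, J.G.Joins f v w
  Lv := J.Lv
  Le := fun e => open scoped Classical in
    Finset.univ.filter fun c => ∃ f v w, J.G.Joins f v w ∧ e = s(v, w) ∧ c ∈ J.Le f

/-- The characteristic vector of a vertex. -/
def oh (n i : ℕ) : List Bool := (List.range n).map fun k => decide (k = i)

/-- From adjacency matrices to lists of edges. -/
def M2E (D : Dt) : RData :=
  (D.map fun r => r.getD 0 []) :: (List.range D.length).flatMap fun i =>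
    ((List.range D.length).filter fun j => decide (i < j) && adjB D i j).map fun j =>
      [(ecell D i j).tail, oh D.length i, oh D.length j]

/-- Does the row of an edge say that it joins `i` and `j`? -/
def joinsB (i j : ℕ) (r : List (List Bool)) : Bool :=
  ((r.getD 1 []).getD i false && (r.getD 2 []).getD j false) ||
    ((r.getD 1 []).getD j false && (r.getD 2 []).getD i false)

/-- From lists of edges to adjacency matrices. -/
def E2M (D : RData) : Dt :=
  (List.range (D.headD []).length).map fun i => ((D.headD []).getD i []) ::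
    (List.range (D.headD []).length).map fun j =>
      (D.tail.find? (joinsB i j)).elim [false] fun r => true :: r.getD 0 []

/-- Is the graph simple? -/
def simB (D : RData) : Bool :=
  ((List.range D.tail.length).all fun f => !sI D f && !decide (aI D f = bI D f)) &&
    (List.range D.tail.length).all fun f => (List.range D.tail.length).all fun f' =>
      decide (f = f') || !((decide (aI D f = aI D f') && decide (bI D f = bI D f')) ||
        (decide (aI D f = bI D f') && decide (bI D f = aI D f')))

end Pool.Agent.Lib.MP_9c5086_lc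
end
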