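import Pool.Agent.Lib.MP_9c5086_lc.BPairs
import Pool.Agent.Lib.MP_9c5086_lc.CAlgP
import Pool.Agent.Lib.PolyTime.Loop
import Pool.Agent.Lib.MP_9c5086_lc.GConv
import Pool.Agent.Lib.MP_9c5086_lc.Basic
import Pool.Agent.Lib.MP_9c5086_lc.FewBad

section

section

/-!
Entering and leaving nodes of some type.
-/

namespace Pool.Agent.Lib.MP_9c5086_lc

namespace Graph

variable {V E I : Type} {H : Graph V E} {t : V → I}

namespace Thin

variable {Θ : Thin H t}

/-- A node of some type is entered by a slide. -/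
theorem exists_pred {e : Node Θ (Fin 3)} {a b : Fin 3} (hab : a ≠ b) (h : HasType e a b) :
    ∃ f : Node Θ (Fin 3), Slide f e := by
  have hni : ¬ Function.Injective e.srcs := fun hi => hab (hi h.2.1)
  refine ⟨e.ta.inv, ?_, ?_⟩
  · intro k
    change e.d k = Θ.phi (Θ.tau (e.d k)).inv
    rw [phi_inv]
    exact (Θ.tau_tau _ (e.mem k)).symm
  · intro k
    change Θ.dbl (t (Θ.tau (e.d k)).inv.tgt) (t (Θ.tau (e.d k)).inv.src)
    rw [Dart.tgt_inv, Dart.src_inv, Θ.tau_src _ (e.mem k), Θ.tau_ty _ (e.mem k)]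
    exact dbl_of_not_injective e hni k

/-- The first node of the leg which tells whether the state is `c`. -/
theorem exists_out [Finite E] {e : Node Θ (Fin 3)} {a b c : Fin 3} (hab : a ≠ b) (hca : c ≠ a)
    (hcb : c ≠ b) (h : HasType e a b) : ∃ n : Node Θ Bool, (n.d false).src = (e.d a).src ∧
      (n.d true).src = (e.d c).src ∧ ∀ k k', t (n.d k).tgt ≠ t (e.d k').tgt := by
  obtain ⟨⟨d, hd, d', hd', hd1, hd2, hd3⟩, -, hc⟩ := h
  obtain ⟨D, hD, hD1, hD2⟩ : ∃ D ∈ Θ.sel, t D.src = t (e.d a).src ∧ t D.tgt ≠ t (e.d a).tgt := by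
    by_cases h1 : t d.tgt = t (e.d a).tgt
    · exact ⟨d', hd', by rw [hd2, hd1], by rw [← h1]; exact hd3⟩
    · exact ⟨d, hd, hd1, h1⟩
  have hinj : Function.Injective (e.pair a c hca.symm).srcs := by
    have h1 := hc c hca hcb
    intro k k' hk
    cases k <;> cases k' <;> first | rfl | exact absurd hk.symm h1 | exact absurd hk h1
  obtain ⟨n, hn1, hn2, -⟩ := exists_above (by simp) (e.pair a c hca.symm) hinj D hD false hD1
  refine ⟨n, congrFun hn1 false, congrFun hn1 true, ?_⟩
  intro k k'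
  rw [hn2 k, e.tgt_ty k' a]
  exact hD2

end Thin

end Graph

end Pool.Agent.Lib.MP_9c5086_lc
end

section

/-!
The targets of the port darts are different.
-/

namespace Pool.Agent.Lib.MP_9c5086_lc

namespace Graph

variable {V E I : Type} {H : Graph V E} {t : V → I}

namespace Thin

variable {Θ : Thin H t}

/-- The sources and the targets of the two darts of a node are equal. -/
private def SameEnds (n : Node Θ Bool) : Prop :=
  (n.d false).src = (n.d true).src ∧ (n.d false).tgt = (n.d true).tgt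

private theorem SameEnds.step {a b : Node Θ Bool} (ha : SameEnds a) (h : Step a b) :
    SameEnds b := by
  have hne : a.d true ≠ a.d false := fun h1 => by
    have := a.inj h1
    exact Bool.noConfusion this
  rcases h with h | h
  · obtain ⟨h1, -⟩ := h
    have hF := a.mem false
    have hT := a.mem true
    have e1 : (a.d true).inv = Θ.tau (a.d false).inv := by
      rcases Θ.only _ (Θ.inv_mem _ hF) _ (Θ.inv_mem _ hT)
        (by rw [Dart.src_inv, Dart.src_inv]; exact ha.2.symm)
        (by rw [Dart.tgt_inv, Dart.tgt_inv]; exact a.src_ty true false) with h2 | h2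
      · exact absurd (Dart.inv_injective h2) hne
      · exact h2
    have e2 : Θ.phi (a.d false) = (a.d true).inv := e1.symm
    have e3 : Θ.phi (a.d true) = (a.d false).inv := by
      unfold phi
      rw [e1]
      exact Θ.tau_tau _ (Θ.inv_mem _ hF)
    refine ⟨?_, ?_⟩
    · rw [h1, h1, Θ.src_phi hF, Θ.src_phi hT]
      exact ha.2
    · rw [h1, h1, e2, e3, Dart.tgt_inv, Dart.tgt_inv]
      exact ha.1.symm
  · exfalso
    have h2 := h.2.1 (a₁ := false) (a₂ := true) ha.2
    exact Bool.noConfusion h2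

private theorem SameEnds.reach {a b : Node Θ Bool} (ha : SameEnds a) (h : Reach a b) :
    SameEnds b := by
  unfold Reach at h
  induction h with
  | refl => exact ha
  | tail _ h2 ih => exact ih.step h2

/-- The targets of the first two coordinates are different at a node of the type `{0, 1}`. -/
theorem tgt_ne [Finite E] (e₀ : Node Θ (Fin 3))
    (h : ∀ a b, a ≠ b → ∃ e : Node Θ (Fin 3), Reach e₀ e ∧ HasType e a b)
    {e : Node Θ (Fin 3)} (he : Reach e₀ e) (ht : HasType e 0 1) : (e.d 0).tgt ≠ (e.d 1).tgt := by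
  intro heq
  have h01 : (0 : Fin 3) ≠ 1 := by decide
  have h02 : (0 : Fin 3) ≠ 2 := by decide
  have hp : SameEnds (e.pair 0 1 h01) := by
    refine ⟨?_, ?_⟩
    · simp only [Node.pair_false, Node.pair_true]
      exact ht.2.1
    · simp only [Node.pair_false, Node.pair_true]
      exact heq
  have h1 := hp.reach (reach_pair e₀ h he he h01 h02).1
  have h2 := h1.1
  simp only [Node.pair_false, Node.pair_true] at h2
  exact ht.2.2 2 (by decide) (by decide) h2.symm

end Thin

end Graph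

end Pool.Agent.Lib.MP_9c5086_lc
end

section

/-!
The port and three nodes above its sources.
-/

namespace Pool.Agent.Lib.MP_9c5086_lc

namespace Graph

variable {V E I : Type} {H : Graph V E} {t : V → I}

namespace Thin

variable {Θ : Thin H t}

/-- The port of a bad component. -/
theorem exists_port [Finite E] (e₀ : Node Θ (Fin 3))
    (h : ∀ a b, a ≠ b → ∃ e : Node Θ (Fin 3), Reach e₀ e ∧ HasType e a b) :
    ∃ (e : Node Θ (Fin 3)) (P : Port Θ), Reach e₀ e ∧ HasType e 0 1 ∧
      P.n = e.pair 0 1 (by decide) := by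
  obtain ⟨e, he, ht⟩ := h 0 1 (by decide)
  exact ⟨e, ⟨e.pair 0 1 (by decide), ht.2.1, tgt_ne e₀ h he ht⟩, he, ht, rfl⟩

/-- Three different nodes above the sources of the coordinates `0` and `2` at a node of the type
`{0, 1}`. -/
theorem exists_three [Finite E] {e : Node Θ (Fin 3)} (ht : HasType e 0 1) :
    ∃ a : Fin 3 → Node Θ Bool, (∀ q, ((a q).d false).src = (e.d 0).src ∧
      ((a q).d true).src = (e.d 2).src) ∧ ∀ q q', q ≠ q' → ∀ b, (a q).d b ≠ (a q').d b := by
  have hcl : ∀ k, t (e.d k).src = t (e.d 0).src ∧ t (e.d k).tgt = t (e.d 0).tgt := fun k =>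
    ⟨e.src_ty k 0, e.tgt_ty k 0⟩
  obtain ⟨⟨d1, hd1, d2, hd2, h1, h2, h3⟩, hsrc, hthird⟩ := ht
  have hne : e.d 1 ≠ e.d 0 := fun hc => absurd (e.inj hc) (by decide)
  have htau : e.d 1 = Θ.tau (e.d 0) := by
    rcases Θ.only _ (e.mem 0) _ (e.mem 1) hsrc.symm (e.tgt_ty 1 0) with h4 | h4
    · exact absurd h4 hne
    · exact h4
  have hdbl : Θ.dbl (t (e.d 0).src) (t (e.d 0).tgt) := by
    rw [← Θ.tau_ne _ (e.mem 0), ← htau]
    exact hne
  have htne : ∀ k, Θ.tau (e.d k) ≠ e.d k := by
    intro k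
    rw [Θ.tau_ne _ (e.mem k), (hcl k).1, (hcl k).2]
    exact hdbl
  obtain ⟨g, hg, hg1, hg2⟩ : ∃ g ∈ Θ.sel, t g.src = t (e.d 0).src ∧ t g.tgt ≠ t (e.d 0).tgt := by
    by_cases hc : t d1.tgt = t (e.d 0).tgt
    · exact ⟨d2, hd2, by rw [h2, h1], by rw [← hc]; exact h3⟩
    · exact ⟨d1, hd1, h1, hc⟩
  set n0 : Node Θ Bool := e.pair 0 2 (by decide) with hn0
  have hsne : (e.d 2).src ≠ (e.d 0).src := hthird 2 (by decide) (by decide)
  have hinj : Function.Injective n0.srcs := by
    intro k k' hk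
    cases k <;> cases k'
    · rfl
    · exact absurd (show (e.d 0).src = (e.d 2).src from hk).symm hsne
    · exact absurd (show (e.d 2).src = (e.d 0).src from hk) hsne
    · rfl
  obtain ⟨n2, hn2, hn2t, -⟩ := exists_above (by simp) n0 hinj g hg false hg1
  have hn0d : ∀ b, ∃ k, n0.d b = e.d k := by
    intro b
    cases b
    · exact ⟨0, rfl⟩
    · exact ⟨2, rfl⟩
  have a01 : ∀ b, n0.d b ≠ n0.ta.d b := by
    intro b
    obtain ⟨k, hk⟩ := hn0d b
    change n0.d b ≠ Θ.tau (n0.d b)
    rw [hk]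
    exact (htne k).symm
  have a02 : ∀ b, n0.d b ≠ n2.d b := by
    intro b hb
    obtain ⟨k, hk⟩ := hn0d b
    apply hg2
    rw [← hn2t b, ← hb, hk, (hcl k).2]
  have a12 : ∀ b, n0.ta.d b ≠ n2.d b := by
    intro b hb
    obtain ⟨k, hk⟩ := hn0d b
    apply hg2
    rw [← hn2t b, ← hb]
    change t (Θ.tau (n0.d b)).tgt = _
    rw [hk, Θ.tau_ty _ (e.mem k), (hcl k).2]
  refine ⟨![n0, n0.ta, n2], ?_, ?_⟩
  · intro q
    fin_cases q
    · exact ⟨rfl, rfl⟩
    · exact ⟨Θ.tau_src _ (e.mem 0), Θ.tau_src _ (e.mem 2)⟩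
    · exact ⟨congrFun hn2 false, congrFun hn2 true⟩
  · intro q q' hq b
    fin_cases q <;> fin_cases q'
    · exact absurd rfl hq
    · exact a01 b
    · exact a02 b
    · exact (a01 b).symm
    · exact absurd rfl hq
    · exact a12 b
    · exact (a02 b).symm
    · exact (a12 b).symm
    · exact absurd rfl hq

end Thin

end Graph

end Pool.Agent.Lib.MP_9c5086_lc
end

section

/-!
A good path through a bad component.
-/

namespace Pool.Agent.Lib.MP_9c5086_lc

namespace Graph

variable {V E I : Type} {H : Graph V E} {t : V → I}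

namespace Thin

variable {Θ : Thin H t}

private theorem gp3_reach {N : ℕ} {e₀ : Node Θ (Fin 3)} (p : GPath Θ (Fin 3) N)
    (h0 : p.ν 0 = e₀) : ∀ r, r < p.n → Reach e₀ (p.ν r) := by
  intro r
  induction r with
  | zero =>
    intro _
    rw [h0]
    exact Relation.ReflTransGen.refl
  | succ r ih =>
    intro hr
    exact (ih (by omega)).tail (p.step r hr)

private theorem gp3_aux [Finite E] {N : ℕ} (hN : Θ.IsPeriod N) (e₀ : Node Θ (Fin 3))
    (h : ∀ a b, a ≠ b → ∃ e : Node Θ (Fin 3), Reach e₀ e ∧ HasType e a b)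
    (l : List (Fin 3 × Fin 3)) : (∀ x ∈ l, x.1 ≠ x.2) →
    ∃ p : GPath Θ (Fin 3) N, p.ν 0 = e₀ ∧ ∀ x ∈ l, ∃ r, r + 1 < p.n ∧
      Slide (p.ν r) (p.ν (r + 1)) ∧ HasType (p.ν (r + 1)) x.1 x.2 := by
  have hK : Fintype.card (Fin 3) ≤ 3 := by simp
  induction l with
  | nil =>
    intro _
    obtain ⟨p, hp, -⟩ := GPath.exists_start hN e₀
    exact ⟨p, hp, fun x hx => absurd hx List.not_mem_nil⟩
  | cons y l ih =>
    intro hl
    obtain ⟨p, hp0, hpl⟩ := ih fun x hx => hl x (List.mem_cons_of_mem _ hx)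
    have hy := hl y List.mem_cons_self
    obtain ⟨e, he, hty⟩ := h y.1 y.2 hy
    obtain ⟨f, hf⟩ := exists_pred hy hty
    have hfe : Reach f e := Relation.ReflTransGen.single (Or.inl hf)
    have hef : Reach e f := Reach.symm hK hfe
    have hlast : Reach e₀ p.last := gp3_reach p hp0 _ (by have := p.pos; omega)
    have hlf : Reach p.last f := (Reach.symm hK hlast).trans (he.trans hef)
    obtain ⟨q, hq1, hq2, hq3⟩ := p.exists_extend hN f hlf
    obtain ⟨q', hq1', hq2', -, hq4'⟩ := q.exists_step hN e (by rw [hq3]; exact Or.inl hf)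
    have hpos := p.pos
    refine ⟨q', ?_, fun x hx => ?_⟩
    · rw [hq2' 0 (by omega), hq2 0 (by omega), hp0]
    · rcases List.mem_cons.1 hx with rfl | hx
      · refine ⟨q.n - 1, by omega, ?_, ?_⟩
        · have e1 : q.n - 1 + 1 = q.n := by omega
          rw [e1, hq4', hq2' (q.n - 1) (by omega)]
          have e2 : q.ν (q.n - 1) = f := hq3
          rw [e2]
          exact hf
        · have e1 : q.n - 1 + 1 = q.n := by omega
          rw [e1, hq4']
          exact hty
      · obtain ⟨r, hr, h1, h2⟩ := hpl x hx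
        refine ⟨r, by omega, ?_, ?_⟩
        · rw [hq2' r (by omega), hq2' (r + 1) (by omega), hq2 r (by omega), hq2 (r + 1) hr]
          exact h1
        · rw [hq2' (r + 1) (by omega), hq2 (r + 1) hr]
          exact h2

/-- A good path through a bad component which passes nodes of all three types. -/
theorem exists_gpath3 [Finite E] {N : ℕ} (hN : Θ.IsPeriod N) (e₀ : Node Θ (Fin 3))
    (h : ∀ a b, a ≠ b → ∃ e : Node Θ (Fin 3), Reach e₀ e ∧ HasType e a b) :
    ∃ p : GPath Θ (Fin 3) N, (∀ r, r < p.n → Reach e₀ (p.ν r)) ∧ ∀ a b, a ≠ b →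
      ∃ r, r + 1 < p.n ∧ Slide (p.ν r) (p.ν (r + 1)) ∧ HasType (p.ν (r + 1)) a b := by
  classical
  obtain ⟨p, hp0, hp⟩ := gp3_aux hN e₀ h
    ((Finset.univ : Finset (Fin 3 × Fin 3)).filter (fun x => x.1 ≠ x.2)).toList (fun x hx => by
      rw [Finset.mem_toList, Finset.mem_filter] at hx
      exact hx.2)
  refine ⟨p, gp3_reach p hp0, fun a b hab => ?_⟩
  exact hp (a, b) (by
    rw [Finset.mem_toList, Finset.mem_filter]
    exact ⟨Finset.mem_univ _, hab⟩)

end Thin

end Graph

end Pool.Agent.Lib.MP_9c5086_lc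
end

section

/-!
Equality gadgets.
-/

namespace Pool.Agent.Lib.MP_9c5086_lc

namespace Graph

variable {V E I : Type} {H : Graph V E} {t : V → I}

namespace Thin

variable {Θ : Thin H t}

/-- A star with three legs starting with three different nodes above two different vertices
realizes equality. -/
theorem real_eq_of_nodes [Finite E] [Nonempty E] (P : Port Θ) (Q : Type) [Finite Q]
    (a : Q → Node Θ Bool) (hr : ∀ q, Reach (a q) P.n.inv) (x : Bool → V)
    (hx : x false ≠ x true) (hs : ∀ q b, ((a q).d b).src = x b) (hq : Nonempty Q)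
    (hd : ∀ q q', q ≠ q' → ∀ b, (a q).d b ≠ (a q').d b) :
    Real P.setup Q (fun _ => false) (fun c => ∃ k : Bool, ∀ q, c q = k) := by
  obtain ⟨q₀⟩ := hq
  choose L hL using fun q => exists_leg P (a q) (hr q)
  have hx' : ∀ k k', t (x k) = t (x k') := fun k k' => by
    rw [← hs q₀ k, ← hs q₀ k']
    exact (a q₀).src_ty k k'
  let A : Spider P.setup Bool Q :=
    { k₀ := false
      body := pointBody H t (P.n.d false) x hx'
      pos := fun _ => 0
      pos_le := fun _ => Nat.zero_le _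
      val := fun _ k => k
      leg := L
      start := fun q k => by
        rw [hL q]
        exact hs q k
      start_ne := fun q => by
        rw [hL q, hs q, hs q]
        exact hx
      dis_leg := fun q q' k hne _ => by
        rw [hL q, hL q']
        exact hd q q' hne k
      dis_out := fun _ _ h => absurd h (Nat.not_lt_zero _)
      dis_in := fun _ _ _ _ h => absurd h (Nat.not_lt_zero _)
      tgt_ne := P.tgt_ne }
  exact A.real

end Thin

end Graph

end Pool.Agent.Lib.MP_9c5086_lc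
end

section

/-!
The encoding of the instance of a template is computable in polynomial time.
-/

namespace Pool.Agent.Lib.MP_9c5086_lc

open Pool.Agent.Lib.PolyTime

/-! ### Lists -/

private theorem finRange_flatMap {B : Type} (n : ℕ) (g : ℕ → List B) :
    (List.finRange n).flatMap (fun i : Fin n => g i.val) = (List.range n).flatMap g := by
  rw [List.flatMap_def, List.flatMap_def]
  congr 1
  apply List.ext_getElem
  · simp
  · intro i h1 h2
    simp

private theorem bitEncode_list {α : Type} [N487b59b3 α] (l : List α) :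
    N487b59b3.bitEncode l = l.flatMap (fun a => N487b59b3.delimit (N487b59b3.bitEncode a)) := by
  change ((l.map N487b59b3.bitEncode).map N487b59b3.delimit).flatten = _
  rw [List.flatMap_def, List.map_map]
  rfl

private theorem delimit_eq (l : List Bool) :
    N487b59b3.delimit l = l.flatMap (fun b => [true, b]) ++ [false] := by
  induction l with
  | nil => rfl
  | cons b l ih => simp [N487b59b3.delimit, ih]

/-- The code of an entry of a row. -/
private def blk (x : List Bool) : List Bool :=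
  (N487b59b3.delimit (N487b59b3.bitEncode x)).flatMap (fun b => [true, b])

private theorem bitEncode_rows (R : List (List (List Bool))) :
    N487b59b3.bitEncode R = R.flatMap (fun r => r.flatMap blk ++ [false]) := by
  rw [bitEncode_list, List.flatMap_def, List.flatMap_def]
  congr 1
  apply List.map_congr_left
  intro r _
  rw [bitEncode_list, delimit_eq, List.flatMap_assoc]
  rfl

private theorem ofFn_get {α β : Type} (L : List α) (f : α → β) :
    (List.ofFn fun i : Fin L.length => f (L.get i)) = L.map f := by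
  apply List.ext_getElem
  · simp
  · intro i h1 h2
    simp

/-- The cyclic successor. -/
private def nxR (n i j : ℕ) : Prop := j = i + 1 ∨ (i + 1 = n ∧ j = 0)

private theorem nxR_iff {n : ℕ} (i j : Fin n) : nxR n i j ↔ j = nx i := by
  have hi := i.isLt
  have hj := j.isLt
  rw [Fin.ext_iff]
  show ((j : ℕ) = i + 1 ∨ ((i : ℕ) + 1 = n ∧ (j : ℕ) = 0)) ↔ (j : ℕ) = (i.1 + 1) % n
  rcases Nat.lt_or_ge (i.1 + 1) n with h | h
  · rw [Nat.mod_eq_of_lt h]
    omega
  · have h' : i.1 + 1 = n := by omega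
    rw [h', Nat.mod_self]
    omega

/-- Relative positions of two positions of the torus. -/
private structure Pat where
  er : Prop
  ec : Prop
  h12 : Prop
  h21 : Prop
  v12 : Prop
  v21 : Prop

private def patN (n a b c d : ℕ) : Pat :=
  ⟨a = c, b = d, nxR n b d, nxR n d b, nxR n a c, nxR n c a⟩

private def patP (r : Prof ZSym 4) : Pat :=
  ⟨r.eq 0 2 = true, r.eq 1 3 = true, r.succ 1 3 = true ∨ (r.last 1 = true ∧ r.first 3 = true),
    r.succ 3 1 = true ∨ (r.last 3 = true ∧ r.first 1 = true),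
    r.succ 0 2 = true ∨ (r.last 0 = true ∧ r.first 2 = true),
    r.succ 2 0 = true ∨ (r.last 2 = true ∧ r.first 0 = true)⟩

private theorem patP_prof (Z : List ZSym) (idx : Fin 4 → ℕ) (h : ∀ m, idx m < Z.length) :
    patP (prof Z idx) = patN Z.length (idx 0) (idx 1) (idx 2) (idx 3) := by
  have hpos : 0 < Z.length := lt_of_le_of_lt (Nat.zero_le _) (h 0)
  simp only [patP, patN, prof, nxR, h, hpos, and_true, decide_eq_true_eq]

/-- The kind of two positions in terms of the profile. -/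
private def kindP {k : ℕ} (r : Prof ZSym k) (m m' : Fin k) : Kind :=
  ((r.first m, r.last m), (r.first m', r.last m'), (r.sym m').join)

private theorem kindP_prof {k : ℕ} (Z : List ZSym) (idx : Fin k → ℕ) (h : ∀ m, idx m < Z.length)
    (m m' : Fin k) : kindP (prof Z idx) m m' = kindN Z (idx m) (idx m') := by
  have hpos : 0 < Z.length := lt_of_le_of_lt (Nat.zero_le _) (h m)
  simp only [kindP, kindN, prof, hpos, and_true]

namespace Graph

variable {V E I : Type} {H : Graph V E} {t : V → I} {Col : Type} {S : Setup H t Col}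
  {Ch Cv : Type} [Finite Ch] [Finite Cv] {p q : ℕ} (Y : Univ H t)
  (g : Kind → Gadget S (TPort Ch Cv) tsg) (jv : V → Fin p) (je : E → Fin q)

/-- The vertices of the gadgets. -/
private abbrev UU : Type := Σ k, (g k).U

/-- Darts inside of a gadget. -/
private def loc (w w' : UU g) (Q : H.Dart → H.Dart → Set E → Prop) : Prop :=
  ∃ k, ∃ d : (g k).D, (⟨k, (g k).pos d⟩ : UU g) = w ∧ (⟨k, (g k).pos ((g k).rev d)⟩ : UU g) = w' ∧
    Q ((g k).slot d) ((g k).slot ((g k).rev d)) ((g k).Le d)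

/-- Horizontal wires. -/
private def hor (w w' : UU g) (Q : H.Dart → H.Dart → Set E → Prop) : Prop :=
  ∃ c : Ch, (g w.1).pu (Sum.inl (Sum.inr c)) = w.2 ∧ (g w'.1).pu (Sum.inl (Sum.inl c)) = w'.2 ∧
    Q ((g w.1).ps (Sum.inl (Sum.inr c))) ((g w'.1).ps (Sum.inl (Sum.inl c)))
      {e | ∃ c' ∈ (g w.1).LP (Sum.inl (Sum.inr c)), c' ∈ (g w'.1).LP (Sum.inl (Sum.inl c)) ∧
        S.ec c' = e}

/-- Vertical wires. -/
private def ver (w w' : UU g) (Q : H.Dart → H.Dart → Set E → Prop) : Prop :=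
  ∃ c : Cv, (g w.1).pu (Sum.inr (Sum.inr c)) = w.2 ∧ (g w'.1).pu (Sum.inr (Sum.inl c)) = w'.2 ∧
    Q ((g w.1).ps (Sum.inr (Sum.inr c))) ((g w'.1).ps (Sum.inr (Sum.inl c)))
      {e | ∃ c' ∈ (g w.1).LP (Sum.inr (Sum.inr c)), c' ∈ (g w'.1).LP (Sum.inr (Sum.inl c)) ∧
        S.ec c' = e}

/-- Darts of the glued gadget. -/
private def dartR (π : Pat) (w w' : UU g) (Q : H.Dart → H.Dart → Set E → Prop) : Prop :=
  (π.er ∧ π.ec ∧ loc g w w' Q) ∨ (π.er ∧ π.h12 ∧ hor g w w' Q) ∨
    (π.er ∧ π.h21 ∧ hor g w' w (fun s s' L => Q s' s L)) ∨ (π.ec ∧ π.v12 ∧ ver g w w' Q) ∨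
    (π.ec ∧ π.v21 ∧ ver g w' w (fun s s' L => Q s' s L))

/-- Slots at a vertex. -/
private def slotOf (w : UU g) (s : H.Dart) : Prop :=
  (∃ d, (g w.1).pos d = w.2 ∧ (g w.1).slot d = s) ∨ ∃ c, (g w.1).pu c = w.2 ∧ (g w.1).ps c = s

/-- The vertex without its position. -/
private def uu {Z : List ZSym} (A : (tg g Z).U) : UU g := ⟨kindZ Z A.1, A.2⟩

private def pat {Z : List ZSym} (A B : (tg g Z).U) : Pat :=
  patN Z.length A.1.1 A.1.2 B.1.1 B.1.2

private theorem eq_iff {Z : List ZSym} (A B : (tg g Z).U) :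
    A = B ↔ (pat g A B).er ∧ (pat g A B).ec ∧ uu g A = uu g B := by
  constructor
  · rintro rfl
    exact ⟨rfl, rfl, rfl⟩
  · obtain ⟨⟨i, j⟩, u⟩ := A
    obtain ⟨⟨i', j'⟩, u'⟩ := B
    rintro ⟨h1, h2, h3⟩
    have h1' : i = i' := Fin.ext h1
    have h2' : j = j' := Fin.ext h2
    subst h1' h2'
    have h4 := eq_of_heq (Sigma.mk.inj_iff.1 h3).2
    exact Sigma.ext rfl (heq_of_eq h4)

private theorem dart_iff {Z : List ZSym} (A B : (tg g Z).U)
    (Q : H.Dart → H.Dart → Set E → Prop) :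
    (∃ D, (tg g Z).pos D = A ∧ (tg g Z).pos ((tg g Z).rev D) = B ∧
      Q ((tg g Z).slot D) ((tg g Z).slot ((tg g Z).rev D)) ((tg g Z).Le D)) ↔
    dartR g (pat g A B) (uu g A) (uu g B) Q := by
  constructor
  · rintro ⟨⟨a, d⟩ | ⟨⟨⟨i, j⟩, c | c⟩, b⟩, h1, h2, h3⟩
    · subst h1 h2
      exact Or.inl ⟨rfl, rfl, kindZ Z a, d, rfl, rfl, h3⟩
    · cases b
      · subst h1 h2
        exact Or.inr (Or.inr (Or.inl ⟨rfl, (nxR_iff _ _).2 rfl, c, rfl, rfl, h3⟩))
      · subst h1 h2
        exact Or.inr (Or.inl ⟨rfl, (nxR_iff _ _).2 rfl, c, rfl, rfl, h3⟩)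
    · cases b
      · subst h1 h2
        exact Or.inr (Or.inr (Or.inr (Or.inr ⟨rfl, (nxR_iff _ _).2 rfl, c, rfl, rfl, h3⟩)))
      · subst h1 h2
        exact Or.inr (Or.inr (Or.inr (Or.inl ⟨rfl, (nxR_iff _ _).2 rfl, c, rfl, rfl, h3⟩)))
  · obtain ⟨⟨i, j⟩, u⟩ := A
    obtain ⟨⟨i', j'⟩, u'⟩ := B
    rintro (⟨h1, h2, k, d, h3, h4, h5⟩ | ⟨h1, h2, c, h3, h4, h5⟩ | ⟨h1, h2, c, h3, h4, h5⟩ |
      ⟨h1, h2, c, h3, h4, h5⟩ | ⟨h1, h2, c, h3, h4, h5⟩)
    · have h1' : i = i' := Fin.ext h1
      have h2' : j = j' := Fin.ext h2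
      subst h1' h2'
      obtain rfl : k = kindZ Z (i, j) := congrArg Sigma.fst h3
      have h3' := eq_of_heq (Sigma.mk.inj_iff.1 h3).2
      have h4' := eq_of_heq (Sigma.mk.inj_iff.1 h4).2
      refine ⟨Sum.inl ⟨(i, j), d⟩, ?_, ?_, h5⟩
      · exact Sigma.ext rfl (heq_of_eq h3')
      · exact Sigma.ext rfl (heq_of_eq h4')
    · have h1' : i = i' := Fin.ext h1
      have h2' : j' = nx j := (nxR_iff _ _).1 h2
      subst h1' h2'
      refine ⟨Sum.inr (((i, j), Sum.inl c), true), ?_, ?_, h5⟩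
      · exact Sigma.ext rfl (heq_of_eq h3)
      · exact Sigma.ext rfl (heq_of_eq h4)
    · have h1' : i = i' := Fin.ext h1
      have h2' : j = nx j' := (nxR_iff _ _).1 h2
      subst h1' h2'
      refine ⟨Sum.inr (((i, j'), Sum.inl c), false), ?_, ?_, h5⟩
      · exact Sigma.ext rfl (heq_of_eq h4)
      · exact Sigma.ext rfl (heq_of_eq h3)
    · have h1' : j = j' := Fin.ext h1
      have h2' : i' = nx i := (nxR_iff _ _).1 h2
      subst h1' h2'
      refine ⟨Sum.inr (((i, j), Sum.inr c), true), ?_, ?_, h5⟩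
      · exact Sigma.ext rfl (heq_of_eq h3)
      · exact Sigma.ext rfl (heq_of_eq h4)
    · have h1' : j = j' := Fin.ext h1
      have h2' : i = nx i' := (nxR_iff _ _).1 h2
      subst h1' h2'
      refine ⟨Sum.inr (((i', j), Sum.inr c), false), ?_, ?_, h5⟩
      · exact Sigma.ext rfl (heq_of_eq h4)
      · exact Sigma.ext rfl (heq_of_eq h3)

private theorem slot_iff {Z : List ZSym} (A : (tg g Z).U) (R : H.Dart → Prop) :
    (∀ D, (tg g Z).pos D = A → R ((tg g Z).slot D)) ↔ ∀ s, slotOf g (uu g A) s → R s := by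
  constructor
  · rintro h s (⟨d, h1, rfl⟩ | ⟨c, h1, rfl⟩)
    · exact h (Sum.inl ⟨A.1, d⟩) (Sigma.ext rfl (heq_of_eq h1))
    · obtain ⟨x, hx⟩ := (torusGlue Ch Cv Z.length).surj ⟨A.1, c⟩
      have hA : A = ⟨A.1, (g (kindZ Z A.1)).pu c⟩ := Sigma.ext rfl (heq_of_eq h1.symm)
      rcases x with w | w | w
      · have hx' : (torusGlue Ch Cv Z.length).wp w = ⟨A.1, c⟩ := hx
        have := h (Sum.inr (w, true)) ?_
        · have e : (tg g Z).slot (Sum.inr (w, true)) =
            (fun s : Σ _ : Fin Z.length × Fin Z.length, TPort Ch Cv => (g (kindZ Z s.1)).ps s.2)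
              ((torusGlue Ch Cv Z.length).wp w) := rfl
          rw [e, hx'] at this
          exact this
        · have e : (tg g Z).pos (Sum.inr (w, true)) =
            (fun s : Σ _ : Fin Z.length × Fin Z.length, TPort Ch Cv =>
              (⟨s.1, (g (kindZ Z s.1)).pu s.2⟩ : (tg g Z).U))
              ((torusGlue Ch Cv Z.length).wp w) := rfl
          rw [e, hx']
          exact hA.symm
      · have hx' : (torusGlue Ch Cv Z.length).wn w = ⟨A.1, c⟩ := hx
        have := h (Sum.inr (w, false)) ?_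
        · have e : (tg g Z).slot (Sum.inr (w, false)) =
            (fun s : Σ _ : Fin Z.length × Fin Z.length, TPort Ch Cv => (g (kindZ Z s.1)).ps s.2)
              ((torusGlue Ch Cv Z.length).wn w) := rfl
          rw [e, hx'] at this
          exact this
        · have e : (tg g Z).pos (Sum.inr (w, false)) =
            (fun s : Σ _ : Fin Z.length × Fin Z.length, TPort Ch Cv =>
              (⟨s.1, (g (kindZ Z s.1)).pu s.2⟩ : (tg g Z).U))
              ((torusGlue Ch Cv Z.length).wn w) := rfl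
          rw [e, hx']
          exact hA.symm
      · exact w.elim
  · rintro h (⟨a, d⟩ | ⟨w, b⟩) h1
    · subst h1
      exact h _ (Or.inl ⟨d, rfl, rfl⟩)
    · cases b
      · subst h1
        exact h _ (Or.inr ⟨_, rfl, rfl⟩)
      · subst h1
        exact h _ (Or.inr ⟨_, rfl, rfl⟩)

/-- Adjacency in terms of the relative positions. -/
private def adjP (π : Pat) (w w' : UU g × Y.X) : Prop :=
  (π.er ∧ π.ec ∧ w.1 = w'.1 ∧ Y.G.Adj w.2 w'.2 ∧ ∀ s, slotOf g w.1 s →
    ¬ (w.2 = Y.r ((g w.1.1).mv w.1.2) ∧ w'.2 = Y.nb s) ∧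
      ¬ (w'.2 = Y.r ((g w.1.1).mv w.1.2) ∧ w.2 = Y.nb s)) ∨
  dartR g π w.1 w'.1 (fun s s' _ =>
    (w.2 = Y.r ((g w.1.1).mv w.1.2) ∧ w'.2 = Y.r ((g w'.1.1).mv w'.1.2)) ∨
      (w.2 = Y.nb s ∧ w'.2 = Y.nb s'))

/-- Edge lists in terms of the relative positions. -/
private def leP (π : Pat) (w w' : UU g × Y.X) (e : E) : Prop :=
  ¬ dartR g π w.1 w'.1 (fun _ _ L => w.2 = Y.r ((g w.1.1).mv w.1.2) ∧
    w'.2 = Y.r ((g w'.1.1).mv w'.1.2) ∧ e ∉ L)

/-- Vertex lists. -/
private def lvP (w : UU g × Y.X) (v : V) : Prop :=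
  t v = Y.τ w.2 ∧ (w.2 = Y.r ((g w.1.1).mv w.1.2) → v ∈ (g w.1.1).Lv w.1.2)

private def ww {Z : List ZSym} (v : (tg g Z).U × Y.X) : UU g × Y.X := (uu g v.1, v.2)

private theorem adj_iff {Z : List ZSym} (v v' : (tg g Z).U × Y.X) :
    (fullGraph Y (tg g Z)).Adj v v' ↔ adjP Y g (pat g v.1 v'.1) (ww Y g v) (ww Y g v') := by
  show fullAdj Y (tg g Z) v v' ↔ _
  unfold fullAdj adjP
  refine or_congr ?_ ?_
  · rw [eq_iff, and_assoc, and_assoc]
    refine and_congr Iff.rfl (and_congr Iff.rfl (and_congr Iff.rfl (and_congr Iff.rfl ?_)))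
    exact slot_iff g v.1 (fun s =>
      ¬ (v.2 = Y.r ((tg g Z).mv v.1) ∧ v'.2 = Y.nb s) ∧
        ¬ (v'.2 = Y.r ((tg g Z).mv v.1) ∧ v.2 = Y.nb s))
  · exact dart_iff g v.1 v'.1 (fun s s' _ =>
      (v.2 = Y.r ((tg g Z).mv v.1) ∧ v'.2 = Y.r ((tg g Z).mv v'.1)) ∨
        (v.2 = Y.nb s ∧ v'.2 = Y.nb s'))

private theorem le_iff {Z : List ZSym} (v v' : (tg g Z).U × Y.X) (e : E) :
    e ∈ fullLe Y (tg g Z) v v' ↔ leP Y g (pat g v.1 v'.1) (ww Y g v) (ww Y g v') e := by
  have h := dart_iff g v.1 v'.1 (fun _ _ L => v.2 = Y.r ((tg g Z).mv v.1) ∧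
    v'.2 = Y.r ((tg g Z).mv v'.1) ∧ e ∉ L)
  rw [leP]
  refine Iff.trans ?_ (not_congr h)
  unfold fullLe
  rw [Set.mem_ofPred_eq]
  constructor
  · rintro h1 ⟨D, h2, h3, h4, h5, h6⟩
    exact h6 (h1 D h2 h3 h4 h5)
  · intro h1 D h2 h3 h4 h5
    by_contra h6
    exact h1 ⟨D, h2, h3, h4, h5, h6⟩

open scoped Classical in
/-- The bits of a vertex list. -/
private noncomputable def lvB (w : UU g × Y.X) : List Bool :=
  List.ofFn fun x : Fin p => decide (x ∈ jv '' {v | lvP Y g w v})

open scoped Classical in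
/-- The entry of the matrix. -/
private noncomputable def entB (π : Pat) (w w' : UU g × Y.X) : List Bool :=
  if adjP Y g π w w' then
    true :: List.ofFn fun x : Fin q => decide (∃ e, je e = x ∧ leP Y g π w w' e)
  else [false]

private theorem encode_eq (Z : List ZSym) : encodeInst (outInst Y g jv je Z) =
    (vlist Y g Z).flatMap (fun v => blk (lvB Y g jv (ww Y g v)) ++
      (vlist Y g Z).flatMap (fun v' => blk (entB Y g je (pat g v.1 v'.1) (ww Y g v) (ww Y g v'))) ++
        [false]) := by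
  classical
  have hLv : ∀ i, bitsOf ((outInst Y g jv je Z).Lv i) = lvB Y g jv (ww Y g ((vlist Y g Z).get i)) := by
    intro i
    unfold bitsOf lvB
    congr 1
    funext x
    rw [Bool.eq_iff_iff, decide_eq_true_iff, decide_eq_true_iff]
    simp only [outInst, Finset.mem_filter, Finset.mem_univ, true_and]
    rfl
  have hLe : ∀ i j, bitsOf ((outInst Y g jv je Z).Le s(i, j)) =
      List.ofFn fun x : Fin q => decide (∃ e, je e = x ∧
        leP Y g (pat g ((vlist Y g Z).get i).1 ((vlist Y g Z).get j).1)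
          (ww Y g ((vlist Y g Z).get i)) (ww Y g ((vlist Y g Z).get j)) e) := by
    intro i j
    unfold bitsOf
    congr 1
    funext x
    rw [Bool.eq_iff_iff, decide_eq_true_iff, decide_eq_true_iff]
    simp only [outInst, Finset.mem_filter, Finset.mem_univ, true_and]
    refine exists_congr fun e => and_congr Iff.rfl ?_
    rw [← le_iff]
    constructor
    · intro h
      exact h i j rfl
    · intro h i' j' hij
      rcases Sym2.eq_iff.1 hij with ⟨h3, h4⟩ | ⟨h3, h4⟩
      · rw [← h3, ← h4]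
        exact h
      · rw [← h3, ← h4, fullLe_comm]
        exact h
  have hrows : (List.ofFn fun i : Fin (outInst Y g jv je Z).n =>
      bitsOf ((outInst Y g jv je Z).Lv i) :: List.ofFn fun j : Fin (outInst Y g jv je Z).n =>
        @ite _ ((outInst Y g jv je Z).G.Adj i j) (Classical.propDecidable _)
          (true :: bitsOf ((outInst Y g jv je Z).Le s(i, j))) [false]) =
      (vlist Y g Z).map (fun v => lvB Y g jv (ww Y g v) ::
        (vlist Y g Z).map (fun v' => entB Y g je (pat g v.1 v'.1) (ww Y g v) (ww Y g v'))) := by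
    rw [← ofFn_get]
    congr 1
    funext i
    rw [hLv i, ← ofFn_get]
    congr 2
    funext j
    rw [hLe i j]
    unfold entB
    exact if_congr (adj_iff Y g _ _) rfl rfl
  unfold encodeInst
  rw [hrows, bitEncode_rows, List.flatMap_map]
  congr 1
  funext v
  rw [List.flatMap_cons, List.flatMap_map]

/-- The vertices of the gadget of kind `k`. -/
private noncomputable def namesW (k : Kind) : List (UU g × Y.X) :=
  (names Y g k).map fun ux => (⟨k, ux.1⟩, ux.2)

/-- A row of the output. -/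
private noncomputable def rowL (Z : List ZSym) (a b : ℕ) (w : UU g × Y.X) : List Bool :=
  blk (lvB Y g jv w) ++ ((List.range Z.length).flatMap fun c => (List.range Z.length).flatMap fun d =>
    (namesW Y g (kindN Z c d)).flatMap fun w' => blk (entB Y g je (patN Z.length a b c d) w w')) ++
      [false]

/-- The whole output. -/
private noncomputable def outL (Z : List ZSym) : List Bool :=
  (List.range Z.length).flatMap fun a => (List.range Z.length).flatMap fun b =>
    (namesW Y g (kindN Z a b)).flatMap fun w => rowL Y g jv je Z a b w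

private theorem vlist_flatMap (Z : List ZSym) {B : Type} (F : ℕ → ℕ → UU g × Y.X → List B) :
    (vlist Y g Z).flatMap (fun v => F v.1.1.1 v.1.1.2 (ww Y g v)) =
      (List.range Z.length).flatMap fun a => (List.range Z.length).flatMap fun b =>
        (namesW Y g (kindN Z a b)).flatMap fun w => F a b w := by
  unfold vlist
  rw [List.flatMap_assoc, ← finRange_flatMap]
  congr 1
  funext a
  rw [List.flatMap_assoc, ← finRange_flatMap]
  congr 1
  funext b
  unfold namesW
  rw [List.flatMap_map, List.flatMap_map]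
  rfl

private theorem encode_eq_outL (Z : List ZSym) :
    encodeInst (outInst Y g jv je Z) = outL Y g jv je Z := by
  rw [encode_eq]
  refine Eq.trans ?_ (vlist_flatMap Y g Z (fun a b w => rowL Y g jv je Z a b w))
  congr 1
  funext v
  unfold rowL
  congr 2
  exact vlist_flatMap Y g Z (fun c d w' =>
    blk (entB Y g je (patN Z.length v.1.1.1 v.1.1.2 c d) (ww Y g v) w'))

omit [Finite Ch] [Finite Cv] in
private theorem loop_ent (w : UU g × Y.X) :
    LoopPoly (A := ZSym) 4 (fun _ => True) (fun Z idx =>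
      (namesW Y g (kindN Z (idx 2) (idx 3))).flatMap fun w' =>
        blk (entB Y g je (patN Z.length (idx 0) (idx 1) (idx 2) (idx 3)) w w')) := by
  refine (LoopPoly.out (fun r : Prof ZSym 4 =>
    (namesW Y g (kindP r 2 3)).flatMap fun w' => blk (entB Y g je (patP r) w w'))).congr ?_
  intro Z idx _ h
  rw [kindP_prof Z idx h, patP_prof Z idx h]

omit [Finite Ch] [Finite Cv] in
private theorem loop_row (w : UU g × Y.X) :
    LoopPoly (A := ZSym) 2 (fun _ => True) (fun Z idx =>
      rowL Y g jv je Z (idx 0) (idx 1) w) := by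
  refine LoopPoly.append (LoopPoly.append (LoopPoly.const _) ?_) (LoopPoly.const [false])
  exact ((loop_ent Y g je w).loop).loop

omit [Finite Ch] [Finite Cv] in
private theorem loop_vert :
    LoopPoly (A := ZSym) 2 (fun _ => True) (fun Z idx =>
      (namesW Y g (kindN Z (idx 0) (idx 1))).flatMap fun w =>
        rowL Y g jv je Z (idx 0) (idx 1) w) := by
  refine (LoopPoly.cases (G := fun (r : Prof ZSym 2) Z idx =>
    (namesW Y g (kindP r 0 1)).flatMap fun w => rowL Y g jv je Z (idx 0) (idx 1) w)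
      (fun r => LoopPoly.listFlatMap _ (fun w => loop_row Y g jv je w))).congr ?_
  intro Z idx _ h
  rw [kindP_prof Z idx h]

/-- The encoding of the instance of a template is computable in polynomial time. -/
theorem isPoly_outInst : IsPoly (fun _ : List ZSym => True) (fun Z => Z)
    (fun Z => encodeInst (outInst Y g jv je Z)) := by
  have h : LoopPoly (A := ZSym) 0 (fun _ => True) (fun Z _ => outL Y g jv je Z) :=
    ((loop_vert Y g jv je).loop).loop
  exact (h.toIsPoly (fun m => m.elim0)).congr (fun Z _ => (encode_eq_outL Y g jv je Z).symm)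

end Graph

end Pool.Agent.Lib.MP_9c5086_lc
end

section

/-!
Equality gadgets.
-/

namespace Pool.Agent.Lib.MP_9c5086_lc

namespace Graph

variable {V E I : Type} {H : Graph V E} {t : V → I}

namespace Thin

variable {Θ : Thin H t}

/-- Equality of as many negative ports as there are indices, from an injection of the indices into
the three nodes. -/
private theorem beq_aux [Finite E] [Nonempty E] (e₀ : Node Θ (Fin 3))
    (h : ∀ a b, a ≠ b → ∃ e : Node Θ (Fin 3), Reach e₀ e ∧ HasType e a b)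
    (e : Node Θ (Fin 3)) (he : Reach e₀ e) (P : Port Θ) (hP : P.n = e.pair 0 1 (by decide))
    (Q : Type) [Finite Q] (hq : Nonempty Q) (f : Q → Fin 3) (hf : ∀ q q', q ≠ q' → f q ≠ f q') :
    Real P.setup Q (fun _ => false) (fun c => ∃ k : Bool, ∀ q, c q = k) := by
  obtain ⟨e1, hr1, ht1⟩ := h 0 1 (by decide)
  obtain ⟨a, ha, had⟩ := exists_three ht1
  have hne : (e1.d 2).src ≠ (e1.d 0).src := ht1.2.2 2 (by decide) (by decide)
  refine real_eq_of_nodes P Q (fun q => a (f q)) ?_
    (fun b => if b = true then (e1.d 2).src else (e1.d 0).src) ?_ ?_ hq ?_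
  · intro q
    rw [hP]
    exact (reach_above e₀ h hr1 he (by decide) (by decide) ht1 (by decide) (by decide) (a (f q))
      (ha (f q)).1 (ha (f q)).2).2
  · simpa using hne.symm
  · intro q b
    cases b
    · simpa using (ha (f q)).1
    · simpa using (ha (f q)).2
  · intro q q' hqq b
    exact had (f q) (f q') (hf q q' hqq) b

/-- Equality of three negative ports. -/
theorem real_eq3 [Finite E] [Nonempty E] (e₀ : Node Θ (Fin 3))
    (h : ∀ a b, a ≠ b → ∃ e : Node Θ (Fin 3), Reach e₀ e ∧ HasType e a b)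
    (e : Node Θ (Fin 3)) (he : Reach e₀ e) (P : Port Θ) (hP : P.n = e.pair 0 1 (by decide)) :
    Real P.setup (Fin 3) (fun _ => false) (fun c => ∃ k : Bool, ∀ q, c q = k) :=
  beq_aux e₀ h e he P hP (Fin 3) ⟨0⟩ id fun _ _ h => h

/-- Equality of two negative ports. -/
theorem real_eq2 [Finite E] [Nonempty E] (e₀ : Node Θ (Fin 3))
    (h : ∀ a b, a ≠ b → ∃ e : Node Θ (Fin 3), Reach e₀ e ∧ HasType e a b)
    (e : Node Θ (Fin 3)) (he : Reach e₀ e) (P : Port Θ) (hP : P.n = e.pair 0 1 (by decide)) :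
    Real P.setup Bool (fun _ => false) (fun c => ∃ k : Bool, ∀ q, c q = k) :=
  beq_aux e₀ h e he P hP Bool ⟨false⟩ (fun b => if b = true then 1 else 0) (by decide)

end Thin

end Graph

end Pool.Agent.Lib.MP_9c5086_lc
end

section

/-!
Covering projections of simple instances in the two formulations.
-/

namespace Pool.Agent.Lib.MP_9c5086_lc

private theorem gcc_src_ne_tgt {W F : Type} {G : Graph W F} (hs : G.Simple) {f : F} {v w : W}
    (h : G.Joins f v w) : v ≠ w := by
  obtain ⟨y, h1, h2⟩ := hs.1 f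
  rcases h with ⟨h3, h4⟩ | ⟨h3, h4⟩
  · rw [h1, Option.getD_some] at h4
    rw [h3, h4]
    exact fun h5 => h2 h5.symm
  · rw [h1, Option.getD_some] at h4
    rw [h3, h4]
    exact h2

private theorem gcc_count {V E W F : Type} {H : Graph V E} {G : Graph W F} (hs : G.Simple)
    {S : SimpleGraph W} (ha : ∀ v w, S.Adj v w ↔ ∃ f, G.Joins f v w)
    {fe : Sym2 W → E} {fe' : F → E} (h : ∀ f v w, G.Joins f v w → fe s(v, w) = fe' f) (u : W)
    (e : E) : {d : G.Dart | d.src = u ∧ fe' d.edge = e}.ncard =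
      {v | S.Adj u v ∧ fe s(u, v) = e}.ncard := by
  refine Set.ncard_congr (fun d _ => d.tgt) ?_ ?_ ?_
  · rintro d ⟨h1, h2⟩
    have h3 := d.joins
    rw [h1] at h3
    exact ⟨(ha _ _).2 ⟨_, h3⟩, by rw [h _ _ _ h3, h2]⟩
  · rintro d d' ⟨h1, h2⟩ ⟨h3, h4⟩ h5
    have h6 := d.joins
    have h7 := d'.joins
    rw [h1] at h6
    rw [h3, ← h5] at h7
    have h8 : d.edge = d'.edge := hs.2 _ _ _ _ h6 h7
    rcases Graph.Dart.eq_or_inv h8 with h9 | h9
    · exact h9.symm
    · exfalso
      rw [h9, Graph.Dart.src_inv] at h3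
      exact gcc_src_ne_tgt hs h6 h3.symm
  · rintro v ⟨h1, h2⟩
    obtain ⟨f, hf⟩ := (ha _ _).1 h1
    obtain ⟨d, h3, h4, h5⟩ := hf.exists_dart
    refine ⟨d, ⟨h4, ?_⟩, h5⟩
    rw [h3, ← h _ _ _ hf, h2]

/-- The two definitions of covering projections agree for simple graphs. -/
theorem Graph.isCover_iff_G {V E W F : Type} {H : Graph V E} {G : Graph W F} (hs : G.Simple)
    {S : SimpleGraph W} (ha : ∀ v w, S.Adj v w ↔ ∃ f, G.Joins f v w) {fv : W → V}
    {fe : Sym2 W → E} {fe' : F → E} (h : ∀ f v w, G.Joins f v w → fe s(v, w) = fe' f) :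
    H.IsCover S fv fe ↔ H.IsCoverG G fv fe' := by
  have hc := gcc_count (H := H) hs ha h
  constructor
  · intro hC
    refine ⟨fun f => ?_, fun f hf => ?_, ?_, ?_, ?_⟩
    · have h1 : G.Joins f (G.a f) ((G.b f).getD (G.a f)) := Or.inl ⟨rfl, rfl⟩
      have h2 := hC.joins _ _ ((ha _ _).2 ⟨f, h1⟩)
      rwa [h _ _ _ h1] at h2
    · obtain ⟨w, h1, -⟩ := hs.1 f
      rw [hf] at h1
      exact absurd h1 (by simp)
    · intro e x y h1 h2 h3 u h4
      rw [hc]
      exact hC.ordinary e x y h1 h2 h3 u h4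
    · intro e x h1 h2 u h3
      rw [hc]
      exact hC.loop e x h1 h2 u h3
    · intro e x h1 h2 u h3
      rw [hc]
      exact hC.semi e x h1 h2 u h3
  · intro hC
    refine ⟨fun u v huv => ?_, ?_, ?_, ?_⟩
    · obtain ⟨f, hf⟩ := (ha _ _).1 huv
      rw [h _ _ _ hf]
      have h1 := hC.joins f
      rcases hf with ⟨h2, h3⟩ | ⟨h2, h3⟩
      · rw [h2, h3]
        exact h1
      · rw [h2, h3]
        exact h1.symm
    · intro e x y h1 h2 h3 u h4
      rw [← hc]
      exact hC.ordinary e x y h1 h2 h3 u h4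
    · intro e x h1 h2 u h3
      rw [← hc]
      exact hC.loop e x h1 h2 u h3
    · intro e x h1 h2 u h3
      rw [← hc]
      exact hC.semi e x h1 h2 u h3

private theorem gcc_mem_edges {p q : ℕ} {I : Inst p q} {x : Fin I.n × Fin I.n} :
    x ∈ I.edges ↔ x.1 < x.2 ∧ I.G.Adj x.1 x.2 := by
  classical
  obtain ⟨i, j⟩ := x
  unfold Inst.edges
  simp only [List.mem_flatMap, List.mem_finRange, true_and, List.mem_map, List.mem_filter,
    decide_eq_true_eq, Prod.mk.injEq]
  constructor
  · rintro ⟨a, b, h, rfl, rfl⟩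
    exact h
  · intro h
    exact ⟨i, j, h, rfl, rfl⟩

private theorem gcc_nodup {p q : ℕ} (I : Inst p q) : I.edges.Nodup := by
  classical
  unfold Inst.edges
  rw [List.nodup_flatMap]
  refine ⟨fun i _ => ?_, ?_⟩
  · refine List.Nodup.map (fun a b h => (Prod.mk.injEq _ _ _ _ ▸ h).2) ?_
    exact (List.nodup_finRange _).filter _
  · refine (List.nodup_finRange I.n).imp ?_
    intro a b hab x hx hy
    simp only [List.mem_map] at hx hy
    obtain ⟨c, -, rfl⟩ := hx
    obtain ⟨d, -, h⟩ := hy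
    exact hab (Prod.ext_iff.1 h).1.symm

private theorem gcc_sym {W F : Type} {G : Graph W F} {f : F} {v w : W} (h : G.Joins f v w) :
    s(v, w) = s(G.a f, (G.b f).getD (G.a f)) := by
  rcases h with ⟨h1, h2⟩ | ⟨h1, h2⟩
  · rw [← h2, ← h1]
  · rw [← h2, ← h1, Sym2.eq_swap]

private theorem gcc_exists_fe {W F : Type} {G : Graph W F} (hs : G.Simple) {q : ℕ} [NeZero q]
    (fe' : F → Fin q) :
    ∃ fe : Sym2 W → Fin q, ∀ f v w, G.Joins f v w → fe s(v, w) = fe' f := by
  classical
  refine ⟨fun e => if h : ∃ f v w, e = s(v, w) ∧ G.Joins f v w then fe' h.choose else 0, ?_⟩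
  intro f v w hf
  have h : ∃ f' v' w', s(v, w) = s(v', w') ∧ G.Joins f' v' w' := ⟨f, v, w, rfl, hf⟩
  show (if h : ∃ f' v' w', s(v, w) = s(v', w') ∧ G.Joins f' v' w' then fe' h.choose else 0) = _
  rw [dif_pos h]
  obtain ⟨v', w', h1, h2⟩ := h.choose_spec
  congr 1
  generalize h.choose = g at h2 ⊢
  have h3 : G.Joins g v w := by
    rcases Sym2.eq_iff.1 h1 with ⟨h6, h7⟩ | ⟨h6, h7⟩
    · rw [h6, h7]
      exact h2
    · rw [h6, h7]
      exact h2.symm
  exact hs.2 _ _ _ _ h3 hf

theorem Inst.toG_simple {p q : ℕ} (I : Inst p q) : I.toG.G.Simple := by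
  have hlt : ∀ f, (I.edges.get f).1 < (I.edges.get f).2 ∧
      I.G.Adj (I.edges.get f).1 (I.edges.get f).2 := fun f =>
    gcc_mem_edges.1 (I.edges.get_mem f)
  refine ⟨fun f => ⟨(I.edges.get f).2, rfl, (hlt f).1.ne'⟩, ?_⟩
  intro f f' v w h1 h2
  apply List.nodup_iff_injective_get.1 (gcc_nodup I)
  have e1 : (v = (I.edges.get f).1 ∧ w = (I.edges.get f).2) ∨
      (w = (I.edges.get f).1 ∧ v = (I.edges.get f).2) := h1
  have e2 : (v = (I.edges.get f').1 ∧ w = (I.edges.get f').2) ∨
      (w = (I.edges.get f').1 ∧ v = (I.edges.get f').2) := h2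
  have l1 := (hlt f).1
  have l2 := (hlt f').1
  rcases e1 with ⟨a1, a2⟩ | ⟨a1, a2⟩ <;> rcases e2 with ⟨b1, b2⟩ | ⟨b1, b2⟩
  · exact Prod.ext (a1.symm.trans b1) (a2.symm.trans b2)
  · exfalso
    rw [← a1, ← a2] at l1
    rw [← b1, ← b2] at l2
    exact lt_asymm l1 l2
  · exfalso
    rw [← a1, ← a2] at l1
    rw [← b1, ← b2] at l2
    exact lt_asymm l1 l2
  · exact Prod.ext (a1.symm.trans b1) (a2.symm.trans b2)

theorem Inst.toG_joins {p q : ℕ} (I : Inst p q) (v w : Fin I.n) :
    I.G.Adj v w ↔ ∃ f, I.toG.G.Joins f v w := by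
  constructor
  · intro h
    rcases lt_or_gt_of_ne h.ne with h1 | h1
    · obtain ⟨f, hf⟩ := List.mem_iff_get.1
        ((gcc_mem_edges (I := I) (x := (v, w))).2 ⟨h1, h⟩)
      refine ⟨f, Or.inl ⟨?_, ?_⟩⟩
      · show v = (I.edges.get f).1
        rw [hf]
      · show w = (I.edges.get f).2
        rw [hf]
    · obtain ⟨f, hf⟩ := List.mem_iff_get.1
        ((gcc_mem_edges (I := I) (x := (w, v))).2 ⟨h1, h.symm⟩)
      refine ⟨f, Or.inr ⟨?_, ?_⟩⟩
      · show w = (I.edges.get f).1
        rw [hf]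
      · show v = (I.edges.get f).2
        rw [hf]
  · rintro ⟨f, hf⟩
    have h1 := (gcc_mem_edges.1 (I.edges.get_mem f)).2
    have e1 : (v = (I.edges.get f).1 ∧ w = (I.edges.get f).2) ∨
      (w = (I.edges.get f).1 ∧ v = (I.edges.get f).2) := hf
    rcases e1 with ⟨a1, a2⟩ | ⟨a1, a2⟩
    · rw [a1, a2]
      exact h1
    · rw [a1, a2]
      exact h1.symm

theorem Inst.hasListCover_toG {p q : ℕ} [NeZero q] (H : Graph (Fin p) (Fin q)) (I : Inst p q) :
    H.HasListCoverG I.toG ↔ H.HasListCover I := by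
  constructor
  · rintro ⟨fv, fe', h1, h2, h3⟩
    obtain ⟨fe, hfe⟩ := gcc_exists_fe I.toG_simple fe'
    refine ⟨fv, fe, (Graph.isCover_iff_G I.toG_simple I.toG_joins hfe).2 h1, h2, ?_⟩
    intro u v huv
    obtain ⟨f, hf⟩ := (I.toG_joins u v).1 huv
    have e1 : I.Le s(u, v) = I.toG.Le f := congrArg I.Le (gcc_sym hf)
    have h5 : fe' f ∈ I.Le s(u, v) := by
      rw [e1]
      exact h3 f
    exact (congrArg (fun c => c ∈ I.Le s(u, v)) (hfe f u v hf)).mpr h5
  · rintro ⟨fv, fe, h1, h2, h3⟩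
    have hfe : ∀ (f : Fin I.toG.m) (v w : Fin I.toG.n), I.toG.G.Joins f v w →
        fe s(v, w) = fe s(I.toG.G.a f, (I.toG.G.b f).getD (I.toG.G.a f)) := by
      intro f v w hf
      exact congrArg fe (gcc_sym hf)
    refine ⟨fv, fun f => fe s(I.toG.G.a f, (I.toG.G.b f).getD (I.toG.G.a f)),
      (Graph.isCover_iff_G I.toG_simple I.toG_joins hfe).1 h1, h2, ?_⟩
    intro f
    have h4 : I.G.Adj (I.toG.G.a f) ((I.toG.G.b f).getD (I.toG.G.a f)) :=
      (I.toG_joins _ _).2 ⟨f, Or.inl ⟨rfl, rfl⟩⟩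
    exact h3 _ _ h4

theorem GInst.hasListCover_toS {p q : ℕ} [NeZero q] (H : Graph (Fin p) (Fin q)) (J : GInst p q)
    (hJ : J.G.Simple) : H.HasListCover J.toS ↔ H.HasListCoverG J := by
  have ha : ∀ v w, J.toS.G.Adj v w ↔ ∃ f, J.G.Joins f v w := by
    intro v w
    have h1 : J.toS.G.Adj v w ↔ v ≠ w ∧ ((∃ f, J.G.Joins f v w) ∨ ∃ f, J.G.Joins f w v) :=
      SimpleGraph.fromRel_adj _ _ _
    rw [h1]
    constructor
    · rintro ⟨-, h | ⟨f, hf⟩⟩
      · exact h
      · exact ⟨f, hf.symm⟩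
    · rintro ⟨f, hf⟩
      exact ⟨gcc_src_ne_tgt hJ hf, Or.inl ⟨f, hf⟩⟩
  have hL : ∀ f v w, J.G.Joins f v w → ∀ c, c ∈ J.toS.Le s(v, w) ↔ c ∈ J.Le f := by
    intro f v w hf c
    have h1 : c ∈ J.toS.Le s(v, w) ↔
        ∃ f' v' w', J.G.Joins f' v' w' ∧ s(v, w) = s(v', w') ∧ c ∈ J.Le f' := by
      unfold GInst.toS
      simp only [Finset.mem_filter, Finset.mem_univ, true_and]
    rw [h1]
    constructor
    · rintro ⟨f', v', w', h2, h3, h4⟩
      have h5 : J.G.Joins f' v w := by
        rcases Sym2.eq_iff.1 h3 with ⟨h6, h7⟩ | ⟨h6, h7⟩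
        · rw [h6, h7]
          exact h2
        · rw [h6, h7]
          exact h2.symm
      rw [hJ.2 f f' v w hf h5]
      exact h4
    · intro h2
      exact ⟨f, v, w, hf, rfl, h2⟩
  constructor
  · rintro ⟨fv, fe, h1, h2, h3⟩
    have hfe : ∀ (f : Fin J.m) (v w : Fin J.n), J.G.Joins f v w →
        fe s(v, w) = fe s(J.G.a f, (J.G.b f).getD (J.G.a f)) := by
      intro f v w hf
      exact congrArg fe (gcc_sym hf)
    refine ⟨fv, fun f => fe s(J.G.a f, (J.G.b f).getD (J.G.a f)),
      (Graph.isCover_iff_G hJ ha hfe).1 h1, h2, ?_⟩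
    intro f
    have h4 : J.G.Joins f (J.G.a f) ((J.G.b f).getD (J.G.a f)) := Or.inl ⟨rfl, rfl⟩
    exact (hL _ _ _ h4 _).1 (h3 _ _ ((ha _ _).2 ⟨f, h4⟩))
  · rintro ⟨fv, fe', h1, h2, h3⟩
    obtain ⟨fe, hfe⟩ := gcc_exists_fe hJ fe'
    refine ⟨fv, fe, (Graph.isCover_iff_G hJ ha hfe).2 h1, h2, ?_⟩
    intro u v huv
    obtain ⟨f, hf⟩ := (ha u v).1 huv
    have h5 : fe' f ∈ J.toS.Le s(u, v) := (hL f u v hf (fe' f)).2 (h3 f)
    exact (congrArg (fun c => c ∈ J.toS.Le s(u, v)) (hfe f u v hf)).mpr h5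

end Pool.Agent.Lib.MP_9c5086_lc
end

section

/-!
The exactly-one gadget.
-/

namespace Pool.Agent.Lib.MP_9c5086_lc

namespace Graph

variable {V E I : Type} {H : Graph V E} {t : V → I}

namespace Thin

variable {Θ : Thin H t}

/-- The two other indices. -/
private theorem others (q : Fin 3) : ∃ a b : Fin 3, a ≠ b ∧ q ≠ a ∧ q ≠ b ∧
    ∀ k, k ≠ q → k = a ∨ k = b := by
  fin_cases q
  · exact ⟨1, 2, by decide, by decide, by decide, by decide⟩
  · exact ⟨0, 2, by decide, by decide, by decide, by decide⟩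
  · exact ⟨0, 1, by decide, by decide, by decide, by decide⟩

/-- Exactly one of three negative ports. -/
theorem real_one3 [Finite E] [Nonempty E] (e₀ : Node Θ (Fin 3))
    (h : ∀ a b, a ≠ b → ∃ e : Node Θ (Fin 3), Reach e₀ e ∧ HasType e a b)
    (e : Node Θ (Fin 3)) (he : Reach e₀ e) (P : Port Θ) (hP : P.n = e.pair 0 1 (by decide)) :
    Real P.setup (Fin 3) (fun _ => false) (fun c => ∃ k : Fin 3, ∀ q, c q = decide (q = k)) := by
  obtain ⟨N, hN⟩ := Θ.exists_period
  obtain ⟨p, hpr, hpt⟩ := exists_gpath3 hN e₀ h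
  obtain ⟨B, hBn, hB, -⟩ := exists_body (by simp) hN p
  -- the data of the legs
  have hleg : ∀ q : Fin 3, ∃ (r : ℕ) (L : Leg P.setup), r + 1 < p.n ∧
      Slide (p.ν r) (p.ν (r + 1)) ∧
      (∀ k, k ≠ q → ((p.ν (r + 1)).d k).src ≠ ((p.ν (r + 1)).d q).src) ∧
      (∀ k k', k ≠ q → k' ≠ q → ((p.ν (r + 1)).d k).src = ((p.ν (r + 1)).d k').src) ∧
      (∀ k, k ≠ q → (L.β 0 false).src = ((p.ν (r + 1)).d k).src) ∧
      (L.β 0 true).src = ((p.ν (r + 1)).d q).src ∧
      ∀ c k, t (L.β 0 c).tgt ≠ t ((p.ν (r + 1)).d k).tgt := by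
    intro q
    obtain ⟨a, b, hab, hqa, hqb, hk⟩ := others q
    obtain ⟨r, hr, hsl, hty⟩ := hpt a b hab
    obtain ⟨n, hn1, hn2, hn3⟩ := exists_out hab hqa hqb hty
    have hre := (reach_above e₀ h (hpr (r + 1) hr) he hab (by decide : (0 : Fin 3) ≠ 1) hty hqa hqb n
      hn1 hn2).2
    rw [← hP] at hre
    obtain ⟨L, hL⟩ := exists_leg P n hre
    have hsrc : ∀ k, k ≠ q → ((p.ν (r + 1)).d k).src = ((p.ν (r + 1)).d a).src := by
      intro k hkq
      rcases hk k hkq with rfl | rfl
      · rfl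
      · exact hty.2.1.symm
    refine ⟨r, L, hr, hsl, ?_, ?_, ?_, ?_, ?_⟩
    · intro k hkq
      rw [hsrc k hkq]
      exact (hty.2.2 q hqa hqb).symm
    · intro k k' hkq hkq'
      rw [hsrc k hkq, hsrc k' hkq']
    · intro k hkq
      rw [hL, hn1, hsrc k hkq]
    · rw [hL, hn2]
    · intro c k
      rw [hL]
      exact hn3 c k
  choose r L hr hsl hne hsame hf ht hcl using hleg
  have hpos : ∀ q q' : Fin 3, q ≠ q' → r q ≠ r q' := by
    intro q q' hqq' hrr
    -- the third index
    obtain ⟨w, hwq, hwq'⟩ : ∃ w : Fin 3, w ≠ q ∧ w ≠ q' := by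
      clear hrr hqq'
      revert q q'
      decide
    have h1 := hsame q w q' hwq hqq'.symm
    have h2 := hsame q' w q hwq' hqq'
    rw [← hrr] at h2
    exact hne q q' hqq'.symm (h1.symm.trans h2)
  let A : Spider P.setup (Fin 3) (Fin 3) :=
    { k₀ := 0
      body := B
      pos := fun q => r q + 1
      pos_le := fun q => by
        rw [hBn]
        exact (hr q).le
      val := fun q k => decide (q = k)
      leg := L
      start := fun q k => by
        rw [(hB (r q + 1) (hr q)).2]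
        by_cases hqk : q = k
        · subst hqk
          simp only [decide_true]
          exact ht q
        · simp only [hqk, decide_false]
          exact hf q k (fun h => hqk h.symm)
      start_ne := fun q => by
        obtain ⟨a, b, hab, hqa, hqb, hk⟩ := others q
        rw [hf q a hqa.symm, ht q]
        exact hne q a hqa.symm
      dis_leg := fun q q' k hqq' hpp => absurd (Nat.succ_injective hpp) (hpos q q' hqq')
      dis_out := fun q k _ heq => by
        rw [(hB (r q + 1) (hr q)).1] at heq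
        exact hcl q _ k (by rw [heq])
      dis_in := fun q k s hs _ heq => by
        have hs' : s = r q := (Nat.succ_injective hs).symm
        subst hs'
        rw [(hB (r q) (by have := hr q; omega)).1] at heq
        apply hcl q (decide (q = k)) k
        rw [heq, Dart.tgt_inv, (hsl q).1 k, Θ.ty_phi ((p.ν (r q)).mem k)]
      tgt_ne := P.tgt_ne }
  exact A.real

end Thin

end Graph

end Pool.Agent.Lib.MP_9c5086_lc
end
end

section

section

/-!
Triangles.
-/

namespace Pool.Agent.Lib.MP_9c5086_lc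

namespace Graph

variable {V E I : Type} {H : Graph V E} {t : V → I}

namespace Thin

variable (Θ : Thin H t)

/-- A block where a double class starts and which is not ignored allows U-turns. -/
private theorem uok_of_ni {c : H.Dart} (hc : c ∈ Θ.sel) (hN : Θ.NI (t c.src))
    (hd : Θ.dbl (t c.src) (t c.tgt)) : Θ.UOk (t c.src) := by
  obtain ⟨d1, hd1, d2, hd2, h1, h2, h3⟩ := hN
  obtain ⟨f, hf, hf1, hf2⟩ := Θ.ex c hc d1.src h1
  have hdf : Θ.dbl (t f.src) (t f.tgt) := by
    rw [hf1, hf2, h1]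
    exact hd
  by_cases h4 : t d1.tgt = t f.tgt
  · refine ⟨f, hf, d2, hd2, by rw [hf1]; exact h1, by rw [hf1]; exact h2, ?_, Or.inl hdf⟩
    rw [← h4]
    exact h3
  · exact ⟨f, hf, d1, hd1, by rw [hf1]; exact h1, hf1.symm, h4, Or.inl hdf⟩

/-- A triangle in a block which is not ignored yields nodes of all three types. -/
theorem dyn_of_triangle [Finite E] {d : H.Dart} (hd : d ∈ Θ.sel) (hN : Θ.NI (t d.src))
    (h3 : Θ.phi (Θ.phi (Θ.phi d)) = d) (h1 : Θ.phi d ≠ d) : Θ.Dyn := by
  classical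
  obtain ⟨c1, hc1⟩ : ∃ c1, Θ.phi d = c1 := ⟨_, rfl⟩
  rw [hc1] at h3 h1
  obtain ⟨c2, hc2⟩ : ∃ c2, Θ.phi c1 = c2 := ⟨_, rfl⟩
  rw [hc2] at h3
  have m1 : c1 ∈ Θ.sel := hc1 ▸ Θ.phi_mem hd
  have m2 : c2 ∈ Θ.sel := hc2 ▸ Θ.phi_mem m1
  -- sources and targets
  have s1 : c1.src = d.tgt := hc1 ▸ Θ.src_phi hd
  have s2 : c2.src = c1.tgt := hc2 ▸ Θ.src_phi m1
  have s0 : d.src = c2.tgt := by
    have := Θ.src_phi m2
    rwa [h3] at this
  have y1 : t c1.tgt = t d.src := hc1 ▸ Θ.ty_phi hd
  have y2 : t c2.tgt = t c1.src := hc2 ▸ Θ.ty_phi m1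
  have i0 : t d.tgt = t d.src := by rw [← s1, ← y2, ← s0]
  have i1s : t c1.src = t d.src := by rw [s1, i0]
  have i1t : t c1.tgt = t d.src := y1
  have i2s : t c2.src = t d.src := by rw [s2, y1]
  have i2t : t c2.tgt = t d.src := by rw [← s0]
  -- the class is double
  have hdbl : Θ.dbl (t d.src) (t d.src) := by
    by_contra hnd
    have e1 : Θ.tau d.inv = d.inv := by
      rw [Θ.tau_eq_iff (Θ.inv_mem _ hd), Dart.src_inv, Dart.tgt_inv, i0]
      exact hnd
    have e2 : c1 = d.inv := by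
      rw [← hc1]
      exact e1
    have e3 : Θ.tau d = d := by
      rw [Θ.tau_eq_iff hd, i0]
      exact hnd
    have e4 : c2 = d := by
      rw [← hc2, e2, Θ.phi_inv]
      exact e3
    apply h1
    rw [← hc1, ← e4, h3, e4]
  have fp : ∀ c ∈ Θ.sel, t c.src = t d.src → t c.tgt = t d.src → Θ.tau c ≠ c := by
    intro c hc ha hb
    rw [Θ.tau_ne c hc, ha, hb]
    exact hdbl
  -- tau
  have b1 : Θ.tau c1 = d.inv := by
    rw [← hc1]
    exact Θ.tau_tau _ (Θ.inv_mem _ hd)
  have b2 : Θ.tau c2 = c1.inv := by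
    rw [← hc2]
    exact Θ.tau_tau _ (Θ.inv_mem _ m1)
  have b0 : Θ.tau d = c2.inv := by
    have := Θ.tau_tau _ (Θ.inv_mem _ m2)
    have e : Θ.tau c2.inv = d := h3
    rwa [e] at this
  have p1 : Θ.phi (Θ.tau c1) = Θ.tau d := by
    rw [b1, Θ.phi_inv]
  have p2 : Θ.phi (Θ.tau c2) = Θ.tau c1 := by
    rw [b2, Θ.phi_inv]
  have p0 : Θ.phi (Θ.tau d) = Θ.tau c2 := by
    rw [b0, Θ.phi_inv]
  -- the darts are different
  have n01 : d ≠ c1 := fun h => h1 h.symm
  have n12 : c1 ≠ c2 := by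
    intro h
    apply n01
    apply Θ.phi_inj hd m1
    rw [hc1, hc2, h]
  have n20 : c2 ≠ d := by
    intro h
    apply n12
    rw [h] at h3
    rw [h, ← hc1]
    exact h3
  -- tau does not exchange two of them
  have q : ∀ a b c : H.Dart, a ∈ Θ.sel → b ∈ Θ.sel → c ∈ Θ.sel → t c.src = t d.src →
      t c.tgt = t d.src → Θ.phi a = b → Θ.phi b = c → Θ.phi c = a → Θ.tau a ≠ b := by
    intro a b c ha hb hc hcs hct hab hbc hca h
    have e0 : a.inv = a := by
      have e1 := Θ.tau_tau _ (Θ.inv_mem _ ha)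
      have e2 : Θ.tau a.inv = b := hab
      rw [e2, ← h, Θ.tau_tau _ ha] at e1
      exact e1.symm
    have e3 : c.inv = b := by
      have e1 := Θ.tau_tau _ (Θ.inv_mem _ hc)
      have e2 : Θ.tau c.inv = a := hca
      rw [e2, h] at e1
      exact e1.symm
    have e4 : Θ.tau b.inv = c := hbc
    rw [← e3, Dart.inv_inv] at e4
    exact fp c hc hcs hct e4
  -- the sources are different
  have x01 : d.src ≠ c1.src := by
    intro h
    rcases Θ.only d hd c1 m1 h.symm (by rw [i1t, i0]) with h5 | h5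
    · exact n01 h5.symm
    · exact q d c1 c2 hd m1 m2 i2s i2t hc1 hc2 h3 h5.symm
  have x12 : c1.src ≠ c2.src := by
    intro h
    rcases Θ.only c1 m1 c2 m2 h.symm (by rw [i1t, i2t]) with h5 | h5
    · exact n12 h5.symm
    · exact q c1 c2 d m1 m2 hd rfl i0 hc2 h3 hc1 h5.symm
  have x20 : c2.src ≠ d.src := by
    intro h
    rcases Θ.only c2 m2 d hd h.symm (by rw [i0, i2t]) with h5 | h5
    · exact n20 h5.symm
    · exact q c2 d c1 m2 hd m1 i1s i1t h3 hc1 hc2 h5.symm
  have t1 : (Θ.tau c1).src = c1.src := Θ.tau_src _ m1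
  have t2 : (Θ.tau c2).src = c2.src := Θ.tau_src _ m2
  have t0 : (Θ.tau d).src = d.src := Θ.tau_src _ hd
  have u1 : t (Θ.tau c1).tgt = t d.src := by rw [Θ.tau_ty _ m1, i1t]
  have u2 : t (Θ.tau c2).tgt = t d.src := by rw [Θ.tau_ty _ m2, i2t]
  -- the nodes
  let A : Node Θ (Fin 3) :=
    { d := ![d, c1, Θ.tau c2]
      mem := by
        intro k
        fin_cases k
        · exact hd
        · exact m1
        · exact Θ.tau_mem _ m2
      inj := by
        have hs : Function.Injective (fun k : Fin 3 => (![d, c1, Θ.tau c2] k).src) := by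
          intro k k' h
          fin_cases k <;> fin_cases k' <;> simp at h ⊢
          · exact x01 h
          · exact x20 (t2.symm.trans h.symm)
          · exact x01 h.symm
          · exact x12 (h.trans t2)
          · exact x20 (t2.symm.trans h)
          · exact x12 (h.symm.trans t2)
        intro k k' h
        exact hs (congrArg Dart.src h)
      src_ty := by
        have hs : ∀ k : Fin 3, t (![d, c1, Θ.tau c2] k).src = t d.src := by
          intro k
          fin_cases k
          · rfl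
          · exact i1s
          · change t (Θ.tau c2).src = _
            rw [t2, i2s]
        intro k k'
        rw [hs k, hs k']
      tgt_ty := by
        have hs : ∀ k : Fin 3, t (![d, c1, Θ.tau c2] k).tgt = t d.src := by
          intro k
          fin_cases k
          · exact i0
          · exact i1t
          · exact u2
        intro k k'
        rw [hs k, hs k']
      nex := by
        rintro ⟨-, h⟩
        obtain ⟨k', hk', h⟩ := h 1
        fin_cases k'
        · have h6 : Θ.phi c1 = d := h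
          exact n20 (hc2.symm.trans h6)
        · exact hk' rfl
        · have h6 : Θ.phi c1 = Θ.tau c2 := h
          rw [hc2] at h6
          exact fp c2 m2 i2s i2t h6.symm }
  let B : Node Θ (Fin 3) :=
    { d := ![d, Θ.tau c1, Θ.tau c2]
      mem := by
        intro k
        fin_cases k
        · exact hd
        · exact Θ.tau_mem _ m1
        · exact Θ.tau_mem _ m2
      inj := by
        have hs : Function.Injective (fun k : Fin 3 => (![d, Θ.tau c1, Θ.tau c2] k).src) := by
          intro k k' h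
          fin_cases k <;> fin_cases k' <;> simp at h ⊢
          · exact x01 (h.trans t1)
          · exact x20 (t2.symm.trans h.symm)
          · exact x01 (h.symm.trans t1)
          · exact x12 (t1.symm.trans (h.trans t2))
          · exact x20 (t2.symm.trans h)
          · exact x12 (t1.symm.trans (h.symm.trans t2))
        intro k k' h
        exact hs (congrArg Dart.src h)
      src_ty := by
        have hs : ∀ k : Fin 3, t (![d, Θ.tau c1, Θ.tau c2] k).src = t d.src := by
          intro k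
          fin_cases k
          · rfl
          · change t (Θ.tau c1).src = _
            rw [t1, i1s]
          · change t (Θ.tau c2).src = _
            rw [t2, i2s]
        intro k k'
        rw [hs k, hs k']
      tgt_ty := by
        have hs : ∀ k : Fin 3, t (![d, Θ.tau c1, Θ.tau c2] k).tgt = t d.src := by
          intro k
          fin_cases k
          · exact i0
          · exact u1
          · exact u2
        intro k k'
        rw [hs k, hs k']
      nex := by
        rintro ⟨-, h⟩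
        obtain ⟨k', hk', h⟩ := h 0
        fin_cases k'
        · exact hk' rfl
        · have h6 : Θ.phi d = Θ.tau c1 := h
          rw [hc1] at h6
          exact fp c1 m1 i1s i1t h6.symm
        · have h6 : Θ.phi d = Θ.tau c2 := h
          rw [hc1] at h6
          have h7 := congrArg Dart.src h6
          rw [t2] at h7
          exact x12 h7 }
  have hAs : Function.Injective A.srcs := by
    intro k k' h
    fin_cases k <;> fin_cases k' <;> first | rfl | skip
    · exact absurd (show d.src = c1.src from h) x01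
    · exact absurd (t2.symm.trans (show (Θ.tau c2).src = d.src from h.symm)) x20
    · exact absurd (show d.src = c1.src from h.symm) x01
    · exact absurd ((show c1.src = (Θ.tau c2).src from h).trans t2) x12
    · exact absurd (t2.symm.trans (show (Θ.tau c2).src = d.src from h)) x20
    · exact absurd ((show c1.src = (Θ.tau c2).src from h.symm).trans t2) x12
  have hBA : B.srcs = A.srcs := by
    funext k
    fin_cases k
    · rfl
    · exact t1
    · rfl
  have hU : Θ.UOk (t (A.d 0).src) := by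
    refine Θ.uok_of_ni (c := d) hd hN ?_
    rw [i0]
    exact hdbl
  have rAB : Reach A B := (reach_uturn (by simp) A B hBA hAs 0 hU).1
  have hiA : ∀ k, t (A.d k).src = t d.src := fun k => A.src_ty k 0
  have htA : ∀ k, t (A.d k).tgt = t d.src := fun k => (A.tgt_ty k 0).trans i0
  have hiB : ∀ k, t (B.d k).src = t d.src := fun k => B.src_ty k 0
  have htB : ∀ k, t (B.d k).tgt = t d.src := fun k => (B.tgt_ty k 0).trans i0
  have sA : Step A A.sl := step_sl A fun k => by
    rw [hiA, htA]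
    exact hdbl
  have sB : Step B B.sl := step_sl B fun k => by
    rw [hiB, htB]
    exact hdbl
  have hslA : ∀ k, t (A.sl.d k).src = t d.src ∧ t (A.sl.d k).tgt = t d.src := fun k =>
    ⟨by
      change t (Θ.phi (A.d k)).src = _
      rw [Θ.src_phi (A.mem k), htA], by
      change t (Θ.phi (A.d k)).tgt = _
      rw [Θ.ty_phi (A.mem k), hiA]⟩
  have hslB : ∀ k, t (B.sl.d k).src = t d.src ∧ t (B.sl.d k).tgt = t d.src := fun k =>
    ⟨by
      change t (Θ.phi (B.d k)).src = _
      rw [Θ.src_phi (B.mem k), htB], by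
      change t (Θ.phi (B.d k)).tgt = _
      rw [Θ.ty_phi (B.mem k), hiB]⟩
  have sA2 : Step A.sl A.sl.sl := step_sl A.sl fun k => by
    rw [(hslA k).1, (hslA k).2]
    exact hdbl
  have sB2 : Step B.sl B.sl.sl := step_sl B.sl fun k => by
    rw [(hslB k).1, (hslB k).2]
    exact hdbl
  -- the types
  have a0 : A.sl.d 0 = c1 := hc1
  have a1 : A.sl.d 1 = c2 := hc2
  have a2 : A.sl.d 2 = Θ.tau c1 := p2
  have aa0 : A.sl.sl.d 0 = c2 := by
    change Θ.phi (A.sl.d 0) = c2
    rw [a0, hc2]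
  have aa1 : A.sl.sl.d 1 = d := by
    change Θ.phi (A.sl.d 1) = d
    rw [a1, h3]
  have aa2 : A.sl.sl.d 2 = Θ.tau d := by
    change Θ.phi (A.sl.d 2) = Θ.tau d
    rw [a2, p1]
  have bb0 : B.sl.sl.d 0 = c2 := by
    change Θ.phi (Θ.phi d) = c2
    rw [hc1, hc2]
  have bb1 : B.sl.sl.d 1 = Θ.tau c2 := by
    change Θ.phi (Θ.phi (Θ.tau c1)) = Θ.tau c2
    rw [p1, p0]
  have bb2 : B.sl.sl.d 2 = Θ.tau d := by
    change Θ.phi (Θ.phi (Θ.tau c2)) = Θ.tau d
    rw [p2, p1]
  have T02 : HasType A.sl 0 2 := by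
    refine ⟨?_, ?_, ?_⟩
    · rw [(hslA 0).1]
      exact hN
    · rw [a0, a2, t1]
    · intro c hc0 hc2'
      fin_cases c
      · exact absurd rfl hc0
      · change (A.sl.d 1).src ≠ (A.sl.d 0).src
        rw [a0, a1]
        exact x12.symm
      · exact absurd rfl hc2'
  have T12 : HasType A.sl.sl 1 2 := by
    refine ⟨?_, ?_, ?_⟩
    · rw [aa1]
      exact hN
    · rw [aa1, aa2, t0]
    · intro c hc0 hc2'
      fin_cases c
      · change (A.sl.sl.d 0).src ≠ (A.sl.sl.d 1).src
        rw [aa0, aa1]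
        exact x20
      · exact absurd rfl hc0
      · exact absurd rfl hc2'
  have T01 : HasType B.sl.sl 0 1 := by
    refine ⟨?_, ?_, ?_⟩
    · rw [bb0, i2s]
      exact hN
    · rw [bb0, bb1, t2]
    · intro c hc0 hc2'
      fin_cases c
      · exact absurd rfl hc0
      · exact absurd rfl hc2'
      · change (B.sl.sl.d 2).src ≠ (B.sl.sl.d 0).src
        rw [bb0, bb2, t0]
        exact x20.symm
  have symm : ∀ (e : Node Θ (Fin 3)) (a b : Fin 3), HasType e a b → HasType e b a := by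
    intro e a b h
    obtain ⟨h5, h6, h7⟩ := h
    refine ⟨?_, h6.symm, ?_⟩
    · rw [← h6]
      exact h5
    · intro c hcb hca
      rw [← h6]
      exact h7 c hca hcb
  have r1 : Reach A A.sl := Relation.ReflTransGen.single sA
  have r2 : Reach A A.sl.sl := Relation.ReflTransGen.tail r1 sA2
  have r3 : Reach A B.sl.sl :=
    Relation.ReflTransGen.tail (Relation.ReflTransGen.tail rAB sB) sB2
  refine ⟨A, ?_⟩
  intro a b hab
  fin_cases a <;> fin_cases b
  · exact absurd rfl hab
  · exact ⟨_, r3, T01⟩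
  · exact ⟨_, r1, T02⟩
  · exact ⟨_, r3, symm _ _ _ T01⟩
  · exact absurd rfl hab
  · exact ⟨_, r2, T12⟩
  · exact ⟨_, r1, symm _ _ _ T02⟩
  · exact ⟨_, r2, symm _ _ _ T12⟩
  · exact absurd rfl hab

end Thin

end Graph

end Pool.Agent.Lib.MP_9c5086_lc
end

section

/-!
The static form of badness implies the dynamic one.
-/

namespace Pool.Agent.Lib.MP_9c5086_lc

namespace Graph

variable {V E I : Type} {H : Graph V E} {t : V → I}

private theorem fl_inv {a b : H.Dart} (h : a.fl = b.fl) : a.inv.fl = b.inv.fl := by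
  have he : a.edge = b.edge := congrArg (fun p : E × V => p.1) h
  have hs : a.src = b.src := congrArg (fun p : E × V => p.2) h
  have ht : a.tgt = b.tgt := by
    rcases Dart.eq_or_inv he with h1 | h1
    · rw [h1]
    · rw [h1, Dart.src_inv] at hs
      rw [h1, Dart.tgt_inv]
      exact hs.symm
  unfold Dart.fl
  rw [Dart.edge_inv, Dart.edge_inv, Dart.src_inv, Dart.src_inv, he, ht]

namespace Thin

variable (Θ : Thin H t)

private theorem fl_tau {a b : H.Dart} (ha : a ∈ Θ.sel) (hb : b ∈ Θ.sel) (h : a.fl = b.fl) :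
    (Θ.tau a).fl = (Θ.tau b).fl := by
  have he : a.edge = b.edge := congrArg (fun p : E × V => p.1) h
  have hs : a.src = b.src := congrArg (fun p : E × V => p.2) h
  rcases Dart.eq_or_inv he with h1 | h1
  · rw [h1]
  · have h2 : b.tgt = a.tgt := by
      rw [h1, Dart.src_inv] at hs
      rw [h1, Dart.tgt_inv]
      exact hs
    rcases Θ.only a ha b hb hs.symm (by rw [h2]) with h3 | h3
    · rw [h3]
    · have h4 : Θ.tau b = a := by rw [h3]; exact Θ.tau_tau a ha
      rw [h4, ← h3]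
      exact h.symm

private theorem cyc3 : ∀ σ : Fin 3 → Fin 3, (∀ k, σ k ≠ k) → (∀ k k', σ k = σ k' → k = k') →
    ∀ k, σ (σ (σ k)) = k := by
  decide

variable {Θ}

private theorem exists_node
    (hno : ∀ d ∈ Θ.sel, Θ.NI (t d.src) → Θ.phi (Θ.phi (Θ.phi d)) = d → Θ.phi d = d)
    (d : Fin 3 → H.Dart) (hd : Θ.Good3 d) (hN : Θ.NI (t (d 0).src)) :
    ∃ e : Node Θ (Fin 3), e.d = d := by
  refine ⟨⟨d, hd.mem, fun k k' h => hd.inj (congrArg Dart.fl h), hd.src_ty, hd.tgt_ty, ?_⟩, rfl⟩
  rintro ⟨-, h⟩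
  choose σ h1 h2 using h
  have h3 : ∀ k k', σ k = σ k' → k = k' := by
    intro k k' hk
    apply hd.inj
    have h4 : Θ.phi (d k) = Θ.phi (d k') := by rw [h2, h2, hk]
    exact congrArg Dart.fl (Θ.phi_inj (hd.mem k) (hd.mem k') h4)
  have h5 := cyc3 σ h1 h3 0
  have h6 : Θ.phi (Θ.phi (Θ.phi (d 0))) = d 0 := by rw [h2, h2, h2, h5]
  have h7 := hno (d 0) (hd.mem 0) hN h6
  apply h1 0
  apply hd.inj
  change (d (σ 0)).fl = (d 0).fl
  rw [← h2, h7]

/-- the nodes which are reachable from `D`, and their inverses -/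
private def PP (D : Node Θ (Fin 3)) : Set (Node Θ (Fin 3)) := {e | Reach D e ∨ Reach D e.inv}

private theorem reach_back [Finite E] {D a b : Node Θ (Fin 3)} (h : Reach D b) (hab : Step a b) :
    Reach D a :=
  closed_back (K := Fin 3) (by simp) {e | Reach D e} (fun _ ha _ hs => Relation.ReflTransGen.tail ha hs)
    a b hab h

private theorem PP_inv {D e : Node Θ (Fin 3)} (h : e ∈ PP D) : e.inv ∈ PP D := by
  rcases h with h | h
  · right
    rw [Node.inv_inv]
    exact h
  · left
    exact h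

private theorem PP_step [Finite E] {D a b : Node Θ (Fin 3)} (h : a ∈ PP D) (hab : Step a b) :
    b ∈ PP D := by
  rcases h with h | h
  · left
    exact Relation.ReflTransGen.tail h hab
  · right
    exact reach_back h hab.inv

private theorem PP_ta [Finite E] {D e : Node Θ (Fin 3)} (h : e ∈ PP D) : e.ta ∈ PP D := by
  by_cases hd : Θ.dbl (t (e.d 0).src) (t (e.d 0).tgt)
  · refine PP_step (PP_inv h) (step_inv_ta e fun k => ?_)
    rw [e.src_ty k 0, e.tgt_ty k 0]
    exact hd
  · have h1 : e.ta = e := by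
      refine Node.ext fun k => ?_
      refine (Θ.tau_eq_iff (e.mem k)).2 ?_
      rw [e.src_ty k 0, e.tgt_ty k 0]
      exact hd
    rw [h1]
    exact h

private theorem PP_turn [Finite E] {D a b : Node Θ (Fin 3)} (h : a ∈ PP D) (hab : b.srcs = a.srcs)
    (hi : Function.Injective a.srcs) (ht : t (b.d 0).tgt ≠ t (a.d 0).tgt) : b ∈ PP D := by
  refine PP_step (PP_inv h) (Or.inr ⟨fun k => ?_, ?_, fun k => ?_⟩)
  · have h1 := congrFun hab k
    change (b.d k).src = ((a.d k).inv).tgt
    rw [Dart.tgt_inv]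
    exact h1
  · intro k k' hk
    apply hi
    change ((a.d k).inv).tgt = ((a.d k').inv).tgt at hk
    rw [Dart.tgt_inv, Dart.tgt_inv] at hk
    exact hk
  · change t (b.d k).tgt ≠ t ((a.d k).inv).src
    rw [Dart.src_inv, b.tgt_ty k 0, a.tgt_ty k 0]
    exact ht

private theorem PP_above [Finite E] {D a b : Node Θ (Fin 3)} (h : a ∈ PP D) (hab : b.srcs = a.srcs)
    (hi : Function.Injective a.srcs) (hN : Θ.NI (t (a.d 0).src)) : b ∈ PP D := by
  by_cases ht : t (b.d 0).tgt = t (a.d 0).tgt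
  · obtain ⟨d, hd, d', hd', h1, h2, h3⟩ := hN
    have h4 : ∃ d'' ∈ Θ.sel, t d''.src = t (a.d 0).src ∧ t d''.tgt ≠ t (a.d 0).tgt := by
      by_cases h5 : t d.tgt = t (a.d 0).tgt
      · exact ⟨d', hd', by rw [h2, h1], by rw [← h5]; exact h3⟩
      · exact ⟨d, hd, h1, h5⟩
    obtain ⟨d'', hd'', h6, h7⟩ := h4
    obtain ⟨c, hc, hc', -⟩ := exists_above (K := Fin 3) (by simp) a hi d'' hd'' 0 h6
    have h8 : c ∈ PP D := PP_turn h hc hi (by rw [hc' 0]; exact h7)
    refine PP_turn h8 (hab.trans hc.symm) (by rw [hc]; exact hi) ?_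
    rw [hc' 0, ht]
    exact h7.symm
  · exact PP_turn h hab hi ht

/-- the invariant of the triples -/
private def Iv (D : Node Θ (Fin 3)) (n : Fin 3 → V ⊕ (E × V)) : Prop :=
  (∃ e ∈ PP D, n = trF e.d) ∨
    ∃ e ∈ PP D, Θ.NI (t (e.d 0).src) ∧ Function.Injective e.srcs ∧ n = trV e.d

private theorem trF_ne_trV (d d' : Fin 3 → H.Dart) : trF d ≠ trV d' := fun h => by
  have := congrFun h 0
  simp [trF, trV] at this

private theorem trF_eq {d d' : Fin 3 → H.Dart} : trF d = trF d' ↔ ∀ k, (d k).fl = (d' k).fl := by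
  constructor
  · intro h k
    have := congrFun h k
    simpa [trF] using this
  · intro h
    funext k
    simp [trF, h k]

private theorem Iv_trF (D : Node Θ (Fin 3)) (d : Fin 3 → H.Dart) :
    Iv D (trF d) ↔ ∃ e ∈ PP D, ∀ k, (d k).fl = (e.d k).fl := by
  constructor
  · rintro (⟨e, he, h⟩ | ⟨e, he, -, -, h⟩)
    · exact ⟨e, he, trF_eq.1 h⟩
    · exact (trF_ne_trV _ _ h).elim
  · rintro ⟨e, he, h⟩
    exact Or.inl ⟨e, he, trF_eq.2 h⟩

private theorem Iv_lk [Finite E]
    (hno : ∀ d ∈ Θ.sel, Θ.NI (t d.src) → Θ.phi (Θ.phi (Θ.phi d)) = d → Θ.phi d = d)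
    (D : Node Θ (Fin 3)) {n n' : Fin 3 → V ⊕ (E × V)} (h : Θ.Lk n n') : Iv D n ↔ Iv D n' := by
  cases h with
  | inv d h =>
    rw [Iv_trF, Iv_trF]
    constructor
    · rintro ⟨e, he, h1⟩
      exact ⟨e.inv, PP_inv he, fun k => fl_inv (h1 k)⟩
    · rintro ⟨e, he, h1⟩
      refine ⟨e.inv, PP_inv he, fun k => ?_⟩
      have h2 := fl_inv (h1 k)
      rw [Dart.inv_inv] at h2
      exact h2
  | tau d h =>
    rw [Iv_trF, Iv_trF]
    constructor
    · rintro ⟨e, he, h1⟩
      exact ⟨e.ta, PP_ta he, fun k => Θ.fl_tau (h.mem k) (e.mem k) (h1 k)⟩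
    · rintro ⟨e, he, h1⟩
      refine ⟨e.ta, PP_ta he, fun k => ?_⟩
      have h2 := Θ.fl_tau (Θ.tau_mem _ (h.mem k)) (e.mem k) (h1 k)
      rw [Θ.tau_tau _ (h.mem k)] at h2
      exact h2
  | src d h hN hi =>
    rw [Iv_trF]
    constructor
    · rintro ⟨e, he, h1⟩
      have h2 : ∀ k, (d k).src = (e.d k).src := fun k => congrArg (fun p : E × V => p.2) (h1 k)
      refine Or.inr ⟨e, he, by rw [← h2]; exact hN, ?_, ?_⟩
      · intro k k' hk
        apply hi
        change (e.d k).src = (e.d k').src at hk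
        change (d k).src = (d k').src
        rw [h2, h2, hk]
      · funext k
        simp only [trV, h2]
    · rintro (⟨e, he, h1⟩ | ⟨e, he, hN', hi', h1⟩)
      · exact (trF_ne_trV _ _ h1.symm).elim
      · obtain ⟨b, rfl⟩ := exists_node hno d h hN
        refine ⟨b, PP_above he ?_ hi' hN', fun _ => rfl⟩
        funext k
        have h2 : (b.d k).src = (e.d k).src := by
          have := congrFun h1 k
          simpa [trV] using this
        exact h2

private theorem Iv_eqv [Finite E]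
    (hno : ∀ d ∈ Θ.sel, Θ.NI (t d.src) → Θ.phi (Θ.phi (Θ.phi d)) = d → Θ.phi d = d)
    (D : Node Θ (Fin 3)) {n n' : Fin 3 → V ⊕ (E × V)} (h : Relation.EqvGen Θ.Lk n n') :
    Iv D n ↔ Iv D n' := by
  induction h with
  | rel _ _ h => exact Iv_lk hno D h
  | refl _ => exact Iff.rfl
  | symm _ _ _ ih => exact ih.symm
  | trans _ _ _ _ _ ih1 ih2 => exact ih1.trans ih2

variable (Θ)

/-- The static form of badness implies the dynamic one. -/
theorem dyn_of_static [Finite E] (h : Θ.Static) : Θ.Dyn := by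
  by_cases htri : ∃ d ∈ Θ.sel, Θ.NI (t d.src) ∧ Θ.phi (Θ.phi (Θ.phi d)) = d ∧ Θ.phi d ≠ d
  · obtain ⟨d, hd, hN, h3, h1⟩ := htri
    exact Θ.dyn_of_triangle hd hN h3 h1
  have hno : ∀ d ∈ Θ.sel, Θ.NI (t d.src) → Θ.phi (Θ.phi (Θ.phi d)) = d → Θ.phi d = d := by
    intro d hd hN h3
    by_contra h1
    exact htri ⟨d, hd, hN, h3, h1⟩
  obtain ⟨n₀, hn⟩ := h
  obtain ⟨d₀, hg₀, hN₀, -, -, h₀⟩ := hn 0 1 (by decide)
  obtain ⟨D, hD⟩ := exists_node hno d₀ hg₀ hN₀
  have hI₀ : Iv D n₀ := by
    rw [Iv_eqv hno D h₀, Iv_trF]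
    exact ⟨D, Or.inl Relation.ReflTransGen.refl, fun k => by rw [hD]⟩
  refine ⟨D, fun a b hab => ?_⟩
  obtain ⟨d, hg, hN, hs, hc, h1⟩ := hn a b hab
  have hI : Iv D (trF d) := (Iv_eqv hno D h1).1 hI₀
  rw [Iv_trF] at hI
  obtain ⟨e, he, h2⟩ := hI
  have h3 : ∀ k, (d k).src = (e.d k).src := fun k => congrArg (fun p : E × V => p.2) (h2 k)
  have hT : HasType e a b := by
    refine ⟨?_, ?_, fun c hca hcb => ?_⟩
    · rw [← h3, hg.src_ty a 0]
      exact hN
    · rw [← h3, ← h3, hs]
    · rw [← h3, ← h3]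
      exact hc c hca hcb
  rcases he with he | he
  · exact ⟨e, he, hT⟩
  · have hni : ¬ Function.Injective e.srcs := fun hi => hab (hi hT.2.1)
    have h4 := step_inv_ta e fun k => dbl_of_not_injective e hni k
    refine ⟨e.ta, Relation.ReflTransGen.tail he h4, ?_⟩
    have h5 : ∀ k, (e.ta.d k).src = (e.d k).src := fun k => Θ.tau_src _ (e.mem k)
    refine ⟨?_, ?_, fun c hca hcb => ?_⟩
    · rw [h5]
      exact hT.1
    · rw [h5, h5]
      exact hT.2.1
    · rw [h5, h5]
      exact hT.2.2 c hca hcb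

end Thin

end Graph

end Pool.Agent.Lib.MP_9c5086_lc
end
end
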