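import Pool.Agent.Lib.MP_9c5086_lc.Basic

/-!
Thin systems of darts, nodes (tuples of darts) and steps: definitions.
-/

namespace Pool.Agent.Lib.MP_9c5086_lc

namespace Graph

variable {V E I : Type}

/-- A thin system of darts: at every vertex at most two selected darts of each class, where the
class of a dart is the pair of the blocks of its source and its target. -/
structure Thin (H : Graph V E) (t : V → I) where
  /-- the selected darts -/
  sel : Set H.Dart
  /-- the other selected dart of the same source and class, or the dart itself -/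
  tau : H.Dart → H.Dart
  /-- the classes with two selected darts at each vertex -/
  dbl : I → I → Prop
  inv_mem : ∀ d ∈ sel, d.inv ∈ sel
  tau_mem : ∀ d ∈ sel, tau d ∈ sel
  tau_src : ∀ d ∈ sel, (tau d).src = d.src
  tau_ty : ∀ d ∈ sel, t (tau d).tgt = t d.tgt
  tau_tau : ∀ d ∈ sel, tau (tau d) = d
  tau_ne : ∀ d ∈ sel, (tau d ≠ d ↔ dbl (t d.src) (t d.tgt))
  only : ∀ d ∈ sel, ∀ d' ∈ sel, d'.src = d.src → t d'.tgt = t d.tgt → d' = d ∨ d' = tau d
  ex : ∀ d ∈ sel, ∀ x, t x = t d.src → ∃ d' ∈ sel, d'.src = x ∧ t d'.tgt = t d.tgt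
  kind : ∀ d ∈ sel, (∀ d' : H.Dart, t d'.src = t d.src → t d'.tgt = t d.tgt → d' ∈ sel) ∨
    (dbl (t d.src) (t d.tgt) ∧ ∀ d' ∈ sel, t d'.src = t d.src → t d'.tgt = t d.tgt →
      tau d' = d'.inv ∧ d'.tgt = d'.src)
  deg : ∀ d ∈ sel, dbl (t d.src) (t d.tgt) ∨ ∃ d' ∈ sel, d'.src = d.src ∧ t d'.tgt ≠ t d.tgt

namespace Thin

variable {H : Graph V E} {t : V → I} (Θ : Thin H t)

/-- The next dart in the same strand. -/
def phi (d : H.Dart) : H.Dart := Θ.tau d.inv

/-- The class of the dart is selected completely. -/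
def Full (d : H.Dart) : Prop :=
  ∀ d' : H.Dart, t d'.src = t d.src → t d'.tgt = t d.tgt → d' ∈ Θ.sel

/-- Selected darts of at least two classes start in the block `i`. -/
def NI (i : I) : Prop :=
  ∃ d ∈ Θ.sel, ∃ d' ∈ Θ.sel, t d.src = i ∧ d'.src = d.src ∧ t d'.tgt ≠ t d.tgt

/-- Selected darts of at least two classes start in the block `i`, and one of the classes is
double, or there are at least three classes. -/
def UOk (i : I) : Prop :=
  ∃ d ∈ Θ.sel, ∃ d' ∈ Θ.sel, t d.src = i ∧ d'.src = d.src ∧ t d'.tgt ≠ t d.tgt ∧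
    (Θ.dbl (t d.src) (t d.tgt) ∨
      ∃ d'' ∈ Θ.sel, d''.src = d.src ∧ t d''.tgt ≠ t d.tgt ∧ t d''.tgt ≠ t d'.tgt)

/-- A node: a tuple of different selected darts of the same class, not forming an orbit of `phi`
of length three. -/
structure Node (K : Type) [Fintype K] where
  d : K → H.Dart
  mem : ∀ k, d k ∈ Θ.sel
  inj : Function.Injective d
  src_ty : ∀ k k', t (d k).src = t (d k').src
  tgt_ty : ∀ k k', t (d k).tgt = t (d k').tgt
  nex : ¬ (Fintype.card K = 3 ∧ ∀ k, ∃ k', k' ≠ k ∧ Θ.phi (d k) = d k')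

variable {Θ} {K : Type} [Fintype K]

@[ext] theorem Node.ext {a b : Node Θ K} (h : ∀ k, a.d k = b.d k) : a = b := by
  cases a
  cases b
  congr
  exact funext h

/-- `b` is the slide of `a`. -/
def Slide (a b : Node Θ K) : Prop :=
  (∀ k, b.d k = Θ.phi (a.d k)) ∧ ∀ k, Θ.dbl (t (a.d k).tgt) (t (a.d k).src)

/-- `b` leaves the end of `a` in another class, and the ends of `a` are different. -/
def Turn (a b : Node Θ K) : Prop :=
  (∀ k, (b.d k).src = (a.d k).tgt) ∧ Function.Injective (fun k => (a.d k).tgt) ∧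
    ∀ k, t (b.d k).tgt ≠ t (a.d k).src

/-- One step. -/
def Step (a b : Node Θ K) : Prop := Slide a b ∨ Turn a b

/-- Reachability. -/
def Reach : Node Θ K → Node Θ K → Prop := Relation.ReflTransGen Step

/-- A set of nodes closed under steps. -/
def Closed (S : Set (Node Θ K)) : Prop := ∀ a ∈ S, ∀ b, Step a b → b ∈ S

/-- The node is of the type `{a, b}`: the darts `a` and `b` have the same source, the third dart
has a different one, and the block of the sources is not ignored. -/
def HasType (e : Node Θ (Fin 3)) (a b : Fin 3) : Prop :=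
  Θ.NI (t (e.d a).src) ∧ (e.d a).src = (e.d b).src ∧
    ∀ c, c ≠ a → c ≠ b → (e.d c).src ≠ (e.d a).src

variable (Θ)

/-- A component of nodes with three states containing nodes of all three types. -/
def Dyn : Prop :=
  ∃ e₀ : Node Θ (Fin 3), ∀ a b, a ≠ b → ∃ e : Node Θ (Fin 3), Reach e₀ e ∧ HasType e a b

end Thin

/-- The flag of a dart: its edge and its source. -/
def Dart.fl {H : Graph V E} (d : H.Dart) : E × V := (d.edge, d.src)

namespace Thin

variable {H : Graph V E} {t : V → I} (Θ : Thin H t)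

/-- A triple of selected darts of one completely selected class with different flags. -/
structure Good3 (d : Fin 3 → H.Dart) : Prop where
  mem : ∀ k, d k ∈ Θ.sel
  full : ∀ k, Θ.Full (d k)
  src_ty : ∀ k k', t (d k).src = t (d k').src
  tgt_ty : ∀ k k', t (d k).tgt = t (d k').tgt
  inj : Function.Injective fun k => (d k).fl

/-- The triple of the flags. -/
def trF (d : Fin 3 → H.Dart) : Fin 3 → V ⊕ (E × V) := fun k => Sum.inr (d k).fl

/-- The triple of the sources. -/
def trV (d : Fin 3 → H.Dart) : Fin 3 → V ⊕ (E × V) := fun k => Sum.inl (d k).src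

/-- Links between triples of flags or vertices. -/
inductive Lk : (Fin 3 → V ⊕ (E × V)) → (Fin 3 → V ⊕ (E × V)) → Prop
  | inv (d : Fin 3 → H.Dart) (h : Θ.Good3 d) : Lk (trF d) (trF fun k => (d k).inv)
  | tau (d : Fin 3 → H.Dart) (h : Θ.Good3 d) : Lk (trF d) (trF fun k => Θ.tau (d k))
  | src (d : Fin 3 → H.Dart) (h : Θ.Good3 d) (hN : Θ.NI (t (d 0).src))
      (hi : Function.Injective fun k => (d k).src) : Lk (trF d) (trV d)

/-- Some component of triples contains triples of all three types. -/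
def Static : Prop :=
  ∃ n₀ : Fin 3 → V ⊕ (E × V), ∀ a b : Fin 3, a ≠ b → ∃ d : Fin 3 → H.Dart, Θ.Good3 d ∧
    Θ.NI (t (d 0).src) ∧ (d a).src = (d b).src ∧ (∀ c, c ≠ a → c ≠ b → (d c).src ≠ (d a).src) ∧
    Relation.EqvGen Θ.Lk n₀ (trF d)

end Thin

end Graph

end Pool.Agent.Lib.MP_9c5086_lc
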