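import Pool.Agent.Lib.MP_9c5086_lc.Glue

/-!
Gadgets given by rooted trees with intended states and negative ports.
-/

namespace Pool.Agent.Lib.MP_9c5086_lc

namespace Graph

variable {V E I : Type} {H : Graph V E} {t : V → I}

/-- A rooted tree with states `K`: `σ u k` is the vertex of `u`, and `D u k` is the dart from the
parent of `u` to `u` in the state `k`; `π p k` is the dart of the port `p`. -/
structure TreeData (S : Setup H t Bool) (K P : Type) where
  U : Type
  finU : Finite U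
  root : U
  par : U → U
  dep : U → ℕ
  dep_par : ∀ u, u ≠ root → dep (par u) < dep u
  k₀ : K
  σ : U → K → V
  D : U → K → H.Dart
  pu : P → U
  π : P → K → H.Dart
  src_D : ∀ u, u ≠ root → ∀ k, (D u k).src = σ (par u) k
  tgt_D : ∀ u, u ≠ root → ∀ k, (D u k).tgt = σ u k
  src_π : ∀ p k, (π p k).src = σ (pu p) k
  ty : ∀ u k k', t (σ u k) = t (σ u k')
  dis_up : ∀ u u', u ≠ root → u' ≠ root → par u' = u → ∀ k, D u' k ≠ (D u k).inv
  dis_sib : ∀ u u', u ≠ root → u' ≠ root → par u = par u' → u ≠ u' → ∀ k, D u k ≠ D u' k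
  dis_pu : ∀ p, pu p ≠ root → ∀ k, π p k ≠ (D (pu p) k).inv
  dis_ps : ∀ p u, u ≠ root → par u = pu p → ∀ k, π p k ≠ D u k
  pu_inj : Function.Injective pu
  ty_pu : ∀ p k, t (σ (pu p) k) = S.j
  ty_π : ∀ p k, t (π p k).tgt = t S.x

namespace TreeData

variable {S : Setup H t Bool} {K P : Type} (A : TreeData S K P)

theorem par_ne {u : A.U} (h : u ≠ A.root) : A.par u ≠ u := fun e => by
  have := A.dep_par u h
  rw [e] at this
  exact lt_irrefl _ this

theorem not_both {u u' : A.U} (h : u' ≠ A.root ∧ A.par u' = u) (h' : u ≠ A.root ∧ A.par u = u') :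
    False := by
  have h1 := A.dep_par u' h.1
  have h2 := A.dep_par u h'.1
  rw [h.2] at h1
  rw [h'.2] at h2
  omega

/-- The tree. -/
def T : SimpleGraph A.U where
  Adj u u' := (u' ≠ A.root ∧ A.par u' = u) ∨ (u ≠ A.root ∧ A.par u = u')
  symm := ⟨fun _ _ h => h.symm⟩
  loopless := ⟨fun u h => by
    rcases h with h | h <;> exact A.par_ne h.1 h.2⟩

open scoped Classical in
/-- The dart from `u` to `u'` in the state `k`. -/
noncomputable def δ (k : K) (u u' : A.U) : H.Dart :=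
  if u' ≠ A.root ∧ A.par u' = u then A.D u' k else (A.D u k).inv

theorem δ_down {k : K} {u u' : A.U} (h : u' ≠ A.root ∧ A.par u' = u) : A.δ k u u' = A.D u' k := by
  unfold δ
  rw [if_pos h]

theorem δ_up {k : K} {u u' : A.U} (h : u ≠ A.root ∧ A.par u = u') :
    A.δ k u u' = (A.D u k).inv := by
  unfold δ
  rw [if_neg fun h' => A.not_both h' h]

theorem src_δ {k : K} {u u' : A.U} (h : A.T.Adj u u') : (A.δ k u u').src = A.σ u k := by
  rcases h with h | h
  · rw [A.δ_down h, A.src_D _ h.1, h.2]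
  · rw [A.δ_up h, Dart.src_inv, A.tgt_D _ h.1]

theorem inv_δ {k : K} {u u' : A.U} (h : A.T.Adj u u') : A.δ k u' u = (A.δ k u u').inv := by
  rcases h with h | h
  · rw [A.δ_down h, A.δ_up h]
  · rw [A.δ_up h, A.δ_down h, Dart.inv_inv]

theorem inj_δ {k : K} {u u' u'' : A.U} (h : A.T.Adj u u') (h' : A.T.Adj u u'')
    (he : A.δ k u u' = A.δ k u u'') : u' = u'' := by
  by_contra hne
  rcases h with h | h <;> rcases h' with h' | h'
  · rw [A.δ_down h, A.δ_down h'] at he
    exact A.dis_sib u' u'' h.1 h'.1 (h.2.trans h'.2.symm) hne k he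
  · rw [A.δ_down h, A.δ_up h'] at he
    exact A.dis_up u u' h'.1 h.1 h.2 k he
  · rw [A.δ_up h, A.δ_down h'] at he
    exact A.dis_up u u'' h.1 h'.1 h'.2 k he.symm
  · exact hne (h.2.symm.trans h'.2)

theorem disj_δ {k : K} {p : P} {u : A.U} (h : A.T.Adj (A.pu p) u) : A.δ k (A.pu p) u ≠ A.π p k := by
  rcases h with h | h
  · rw [A.δ_down h]
    exact (A.dis_ps p u h.1 h.2 k).symm
  · rw [A.δ_up h]
    exact (A.dis_pu p h.1 k).symm

/-- The gadget. -/
noncomputable def proto : Proto S P (fun _ => false) where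
  U := A.U
  finU := A.finU
  T := A.T
  mv u := A.σ u A.k₀
  slot := A.δ A.k₀
  pu := A.pu
  ps p := A.π p A.k₀
  Lv u := {v | ∃ k, v = A.σ u k}
  Le u u' := {e | ∃ k, e = (A.δ k u u').edge}
  LP _ := Set.univ
  src_slot _ _ h := A.src_δ h
  src_ps p := A.src_π p _
  inj_slot _ _ _ h h' he := A.inj_δ h h' he
  inj_ps _ _ h _ := A.pu_inj h
  disj _ _ h := A.disj_δ h
  ty_slot u u' h := by
    have h1 : (A.δ A.k₀ u u').tgt = A.σ u' A.k₀ := by
      rw [← Dart.src_inv, ← A.inv_δ h, A.src_δ h.symm]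
    rw [h1]
  Le_comm u u' h := by
    have h1 : ∀ k, (A.δ k u' u).edge = (A.δ k u u').edge := fun k => by
      rw [A.inv_δ h, Dart.edge_inv]
    simp only [h1]
  ty_pos p h := by simp at h
  ty_neg p _ := ⟨A.ty_pu p _, A.ty_π p _⟩
  neg_inj _ _ _ _ h := A.pu_inj h
  neg_pos _ _ _ h := by simp at h
  neg_adj _ _ _ h := by simp at h

/-- Every state is a solution. -/
theorem exists_sol [Finite E] (k : K) (c : P → Bool) (he : ∀ p, (A.π p k).edge = S.ec (c p))
    (ht : ∀ p, (A.π p k).tgt = S.x) : ∃ fv fe, A.proto.Sol c fv fe :=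
  ⟨fun u => A.σ u k, fun u u' => (A.δ k u u').edge,
    Proto.Sol.of_darts (A := A.proto) c (fun u => A.σ u k) (A.δ k) (fun p => A.π p k)
      (fun _ _ h => A.src_δ h) (fun _ _ h => A.inv_δ h) (fun _ _ _ h h' e => A.inj_δ h h' e)
      (fun p => A.src_π p k) he (fun _ _ h _ => A.pu_inj h) (fun _ _ h => A.disj_δ h)
      (fun u => A.ty u _ _) (fun p _ => ht p) (fun _ => ⟨k, rfl⟩) (fun _ _ _ => ⟨k, rfl⟩)
      (fun _ => Set.mem_univ _)⟩

/-- Properties of solutions. -/
theorem sol_prop [Finite E] {c : P → Bool} {fv : A.U → V} {fe : A.U → A.U → E}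
    (h : A.proto.Sol c fv fe) :
    (∀ u, ∃ k, fv u = A.σ u k) ∧
    (∀ u, u ≠ A.root → H.Joins (fe (A.par u) u) (fv (A.par u)) (fv u) ∧
      ∃ k, fe (A.par u) u = (A.D u k).edge) ∧
    (∀ u u', u ≠ A.root → u' ≠ A.root → A.par u' = u → fe (A.par u) u = fe u u' →
      2 ≤ H.inc (fe (A.par u) u) (fv u)) ∧
    ∀ p, fv (A.pu p) = (S.dc (c p)).tgt := by
  have hadj : ∀ u, u ≠ A.root → A.T.Adj (A.par u) u := fun u hu => Or.inl ⟨hu, rfl⟩
  refine ⟨fun u => h.lv u, fun u hu => ⟨h.joins _ _ (hadj u hu), ?_⟩, ?_, fun p => ?_⟩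
  · obtain ⟨k, hk⟩ := h.le _ _ (hadj u hu)
    refine ⟨k, ?_⟩
    rw [hk, A.δ_down ⟨hu, rfl⟩]
  · intro u u' hu hu' hp he
    have hfin := A.finU
    have h1 := h.count u (fe (A.par u) u)
    have hne : A.par u ≠ u' := by
      intro e
      have h2 := A.dep_par u hu
      have h3 := A.dep_par u' hu'
      rw [hp] at h3
      rw [e] at h2
      omega
    have h2 : ({A.par u, u'} : Set A.U).ncard ≤
        {w | A.proto.T.Adj u w ∧ fe u w = fe (A.par u) u}.ncard := by
      refine Set.ncard_le_ncard ?_ (Set.toFinite _)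
      rintro w (rfl | rfl)
      · exact ⟨(hadj u hu).symm, (h.comm _ _ (hadj u hu)).symm⟩
      · refine ⟨?_, he.symm⟩
        have h3 := hadj w hu'
        rw [hp] at h3
        exact h3
    rw [Set.ncard_pair hne] at h2
    omega
  · exact S.eq_tgt (h.neg p rfl)

end TreeData

end Graph

end Pool.Agent.Lib.MP_9c5086_lc
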