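import Mathlib
import Pool.Agent.Lib.MP_9c5086_lc.PMDisj
import Pool.Agent.Lib.MP_9c5086_lc.FewBad
import Pool.Agent.Lib.MP_9c5086_lc.CAlg

section

/-!
Covering projections and local maps.
-/

namespace Pool.Agent.Lib.MP_9c5086_lc

namespace Graph

variable {W D V E : Type} [DecidableEq V] {H : Graph V E} {G : LG W D V E}

/-- A compatible family of local maps gives a covering projection. -/
theorem IsCov.of_flags [Finite E] [Finite V] (hG : G.Ok) {fv : W → V} {ψ : D → E × V}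
    (hv : ∀ u ∈ G.Vs, G.Lv u (fv u) = true) (hs : ∀ u ∈ G.Vs, H.StarOk G (H.Rm G) u (fv u) ψ)
    (hinv : ∀ d ∈ G.Ds, ψ (G.inv d) = H.opp (ψ d)) :
    H.IsCov G fv fun d => (ψ d).1 := by
  have hrel : ∀ d ∈ G.Ds, H.Rm G d (ψ d) := fun d hd =>
    (hs _ (hG.src_mem d hd)).rel d ⟨hd, rfl⟩
  have hsrc : ∀ d ∈ G.Ds, (ψ d).2 = fv (G.src d) := fun d hd =>
    (hs _ (hG.src_mem d hd)).src d ⟨hd, rfl⟩
  refine ⟨hv, ?_, ?_, ?_, ?_, ?_⟩
  · intro d hd
    exact (cons_Rm d _ (hrel d hd)).2.1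
  · intro d hd
    change (ψ (G.inv d)).1 = (ψ d).1
    rw [hinv d hd]
    rfl
  · intro d hd
    obtain ⟨e, he⟩ := (hrel d hd).exists_dart
    have h1 : e.edge = (ψ d).1 := congrArg Prod.fst he
    have h2 : e.src = (ψ d).2 := congrArg Prod.snd he
    have h3 : e.tgt = (ψ (G.inv d)).2 := by
      rw [hinv d hd, ← he]
      exact (other_fl e).symm
    have h4 := e.joins
    rw [h1, h2, h3, hsrc d hd, hsrc _ (hG.inv_mem d hd)] at h4
    exact h4
  · intro d hd hi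
    exact (cons_Rm d _ (hrel d hd)).2.2.2.1 hi
  · intro u hu e
    have h1 := (hs u hu).count (e, fv u) rfl
    rw [mult_eq_inc] at h1
    rw [← h1]
    congr 1
    ext d
    constructor
    · rintro ⟨h2, h3⟩
      exact ⟨h2, Prod.ext h3 ((hs u hu).src d h2)⟩
    · rintro ⟨h2, h3⟩
      exact ⟨h2, congrArg Prod.fst h3⟩

/-- The local maps given by a covering projection. -/
theorem IsCov.starOk [Finite E] (hG : G.Ok) {fv : W → V} {fe : D → E} (h : H.IsCov G fv fe) {u : W}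
    (hu : u ∈ G.Vs) :
    H.StarOk G (fun d φ => d ∈ G.Ds ∧ φ = (fe d, fv (G.src d))) u (fv u)
      fun d => (fe d, fv (G.src d)) := by
  have _ := hG
  refine ⟨fun d hd => ⟨hd.1, rfl⟩, fun d hd => by rw [hd.2], ?_⟩
  intro φ hφ
  rw [mult_eq_inc, hφ, ← h.count u hu φ.1]
  congr 1
  ext d
  constructor
  · rintro ⟨h2, h3⟩
    exact ⟨h2, congrArg Prod.fst h3⟩
  · rintro ⟨h2, h3⟩
    refine ⟨h2, Prod.ext h3 ?_⟩
    change fv (G.src d) = φ.2
    rw [h2.2, hφ]

/-- A covering projection is contained in the greatest consistent relation. -/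
theorem IsCov.rm [Finite E] (hG : G.Ok) {fv : W → V} {fe : D → E} (h : H.IsCov G fv fe) {d : D}
    (hd : d ∈ G.Ds) : H.Rm G d (fe d, fv (G.src d)) := by
  refine ⟨fun d φ => d ∈ G.Ds ∧ φ = (fe d, fv (G.src d)), ?_, hd, rfl⟩
  rintro d φ ⟨hd, rfl⟩
  refine ⟨hd, h.le d hd, h.lv _ (hG.src_mem d hd), fun hi => h.semi d hd hi,
    ⟨hG.inv_mem d hd, ?_⟩, fun d => (fe d, fv (G.src d)), h.starOk hG (hG.src_mem d hd), rfl⟩
  obtain ⟨e, h1, h2, h3⟩ := (h.joins d hd).exists_dart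
  have h4 : (fe d, fv (G.src d)) = e.fl := by
    rw [← h1, ← h2]
    rfl
  rw [h4, opp_fl]
  unfold Dart.fl
  rw [Dart.edge_inv, Dart.src_inv, h1, h3, h.inv d hd]

theorem IsCov.sm [Finite E] (hG : G.Ok) {fv : W → V} {fe : D → E} (h : H.IsCov G fv fe) {u : W}
    (hu : u ∈ G.Vs) : H.Sm G u (fv u) := by
  refine ⟨hu, h.lv u hu, fun d => (fe d, fv (G.src d)), ?_⟩
  refine StarOk.mono ?_ (h.starOk hG hu)
  rintro d φ ⟨hd, rfl⟩
  exact h.rm hG hd

end Graph

end Pool.Agent.Lib.MP_9c5086_lc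
end

section

/-!
Extension of partial solutions.
-/

namespace Pool.Agent.Lib.MP_9c5086_lc

namespace Graph

variable {W D V E : Type} [DecidableEq V] {H : Graph V E} {G : LG W D V E}

/-- A partial solution on the vertices in `A`. -/
structure Part (H : Graph V E) (G : LG W D V E) (A : Set W) (x : W → V) (ψ : D → E × V) :
    Prop where
  sub : ∀ u ∈ A, u ∈ G.Vs
  lv : ∀ u ∈ A, G.Lv u (x u) = true
  star : ∀ u ∈ A, H.StarOk G (H.Rm G) u (x u) ψ
  comp : ∀ d ∈ G.Ds, G.src d ∈ A → G.src (G.inv d) ∈ A → ψ (G.inv d) = H.opp (ψ d)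
  up : ∀ d ∈ G.Ds, G.src d ∈ A → H.GUp G d → ¬ H.GUp G (G.inv d) → G.src (G.inv d) ∈ A

private theorem ce_congr {R : D → E × V → Prop} {u : W} {x : V} {ψ ψ' : D → E × V}
    (h : H.StarOk G R u x ψ) (he : ∀ d ∈ G.star u, ψ' d = ψ d) : H.StarOk G R u x ψ' := by
  refine ⟨fun d hd => ?_, fun d hd => ?_, fun φ hφ => ?_⟩
  · rw [he d hd]
    exact h.rel d hd
  · rw [he d hd]
    exact h.src d hd
  · rw [← h.count φ hφ]
    congr 1
    apply Set.ext
    intro d
    constructor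
    · rintro ⟨h1, h2⟩
      exact ⟨h1, by rw [← he d h1]; exact h2⟩
    · rintro ⟨h1, h2⟩
      exact ⟨h1, by rw [he d h1]; exact h2⟩

private theorem ce_opp_opp [Finite E] {d : D} {φ : E × V} (h : H.Rm G d φ) :
    H.opp (H.opp φ) = φ := by
  obtain ⟨e, rfl⟩ := h.exists_dart
  exact opp_opp_fl e

private theorem ce_opp_semi [Finite E] {d : D} {φ : E × V} (h : H.Rm G d φ) (hd : G.inv d = d) :
    H.opp φ = φ := by
  have hb := (cons_Rm d φ h).2.2.2.1 hd
  obtain ⟨e, rfl⟩ := h.exists_dart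
  rw [opp_fl]
  have h1 : e.inv = e := by
    unfold Dart.inv
    rw [dif_neg]
    intro h2
    have h3 : H.b e.1.1 = none := hb
    rw [h3] at h2
    exact absurd h2 (by simp)
  rw [h1]

/-- The general step. -/
private theorem ce_insert [Finite E] (hG : G.Ok) {A : Set W} {x : W → V} {ψ : D → E × V}
    (h : H.Part G A x ψ) {u : W} (hu : u ∈ G.Vs) (huA : u ∉ A) {y : V} {ψu : D → E × V}
    (hlv : G.Lv u y = true) (hst : H.StarOk G (H.Rm G) u y ψu)
    (hc1 : ∀ d ∈ G.Ds, G.src d = u → G.src (G.inv d) ∈ A → ψ (G.inv d) = H.opp (ψu d))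
    (hc2 : ∀ d ∈ G.Ds, G.src d = u → G.src (G.inv d) = u → ψu (G.inv d) = H.opp (ψu d))
    (hup : ∀ d ∈ G.Ds, G.src d = u → H.GUp G d → ¬ H.GUp G (G.inv d) → G.src (G.inv d) ∈ A) :
    ∃ x' ψ', H.Part G (insert u A) x' ψ' := by
  classical
  have hne : ∀ v ∈ A, v ≠ u := fun v hv h1 => huA (h1 ▸ hv)
  refine ⟨Function.update x u y, fun d => if G.src d = u then ψu d else ψ d, ?_, ?_, ?_, ?_, ?_⟩
  · rintro v (rfl | hv)
    · exact hu
    · exact h.sub v hv
  · rintro v (rfl | hv)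
    · rw [Function.update_self]
      exact hlv
    · rw [Function.update_of_ne (hne v hv)]
      exact h.lv v hv
  · rintro v (rfl | hv)
    · rw [Function.update_self]
      refine ce_congr hst fun d hd => ?_
      exact if_pos hd.2
    · rw [Function.update_of_ne (hne v hv)]
      refine ce_congr (h.star v hv) fun d hd => ?_
      refine if_neg ?_
      rw [hd.2]
      exact hne v hv
  · intro d hd h1 h2
    by_cases h3 : G.src d = u
    · by_cases h4 : G.src (G.inv d) = u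
      · simp only [h3, h4, if_true]
        exact hc2 d hd h3 h4
      · simp only [h3, h4, if_true, if_false]
        rcases h2 with h2 | h2
        · exact absurd h2 h4
        · exact hc1 d hd h3 h2
    · rcases h1 with h1 | h1
      · exact absurd h1 h3
      by_cases h4 : G.src (G.inv d) = u
      · simp only [h3, h4, if_true, if_false]
        have h5 := hc1 (G.inv d) (hG.inv_mem d hd) h4 (by rw [hG.inv_inv d hd]; exact h1)
        rw [hG.inv_inv d hd] at h5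
        rw [h5]
        exact (ce_opp_opp (hst.rel _ ⟨hG.inv_mem d hd, h4⟩)).symm
      · simp only [h3, h4, if_false]
        rcases h2 with h2 | h2
        · exact absurd h2 h4
        · exact h.comp d hd h1 h2
  · rintro d hd (h1 | h1) h2 h3
    · exact Or.inr (hup d hd h1 h2 h3)
    · exact Or.inr (h.up d hd h1 h2 h3)

section

variable [Finite V] [Finite E] (hG : G.Ok) (hS : ∀ u ∈ G.Vs, ∃ x, H.Sm G u x)

include hG hS

private theorem ce_noup {A : Set W} {x : W → V} {ψ : D → E × V} (h : H.Part G A x ψ)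
    (hc : ∀ d ∈ G.Ds, H.GCore G d → G.src d ∈ A) {u : W} (hu : u ∈ G.Vs) (huA : u ∉ A)
    (hno : ∀ d ∈ G.Ds, G.src d = u → ¬ H.GUp G d) :
    ∃ x' ψ', H.Part G (insert u A) x' ψ' := by
  obtain ⟨y, -, hlv, ψu, hst⟩ := hS u hu
  have hinv : ∀ d ∈ G.Ds, G.src d = u → H.GUp G (G.inv d) := by
    intro d hd hs
    refine gup_inv_of_no_up hG hS hd (fun d' hd' hs' => hno d' hd' (hs'.trans hs)) ?_
    intro hcore
    exact huA (hs ▸ hc d hd hcore)
  refine ce_insert hG h hu huA hlv hst ?_ ?_ ?_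
  · intro d hd hs hA
    exfalso
    have h1 := h.up (G.inv d) (hG.inv_mem d hd) hA (hinv d hd hs)
      (by rw [hG.inv_inv d hd]; exact hno d hd hs)
    rw [hG.inv_inv d hd, hs] at h1
    exact huA h1
  · intro d hd hs hs'
    exact absurd (hinv d hd hs) (hno _ (hG.inv_mem d hd) hs')
  · intro d hd hs hup
    exact absurd hup (hno d hd hs)

private theorem ce_up {A : Set W} {x : W → V} {ψ : D → E × V} (h : H.Part G A x ψ)
    {u : W} (hu : u ∈ G.Vs) (huA : u ∉ A) {d₀ : D} (hd₀ : d₀ ∈ G.Ds) (hs₀ : G.src d₀ = u)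
    (hup₀ : H.GUp G d₀) (hQ : H.GUp G (G.inv d₀) ∨ G.src (G.inv d₀) ∈ A) :
    ∃ x' ψ', H.Part G (insert u A) x' ψ' := by
  have hne : ∀ d ∈ G.Ds, G.src d = u → d ≠ d₀ → H.GUp G (G.inv d) ∧ ¬ H.GUp G d := by
    intro d hd hs hne
    refine ⟨GUp.inv_of_ne hG hS hd₀ hd hup₀ (hs.trans hs₀.symm) hne, fun hup => ?_⟩
    exact hne (GUp.unique hG hS hd hd₀ hup hup₀ (hs.trans hs₀.symm))
  have hneA : ∀ d ∈ G.Ds, G.src d = u → d ≠ d₀ → G.src (G.inv d) ∉ A := by
    intro d hd hs hn hA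
    obtain ⟨h1, h2⟩ := hne d hd hs hn
    have h3 := h.up (G.inv d) (hG.inv_mem d hd) hA h1 (by rw [hG.inv_inv d hd]; exact h2)
    rw [hG.inv_inv d hd, hs] at h3
    exact huA h3
  have hneu : ∀ d ∈ G.Ds, G.src d = u → d ≠ d₀ → G.src (G.inv d) ≠ u := by
    intro d hd hs hn hu'
    obtain ⟨h1, h2⟩ := hne d hd hs hn
    have h3 : G.inv d = d₀ := GUp.unique hG hS (hG.inv_mem d hd) hd₀ h1 hup₀ (hu'.trans hs₀.symm)
    have h4 : G.inv d₀ = d := by rw [← h3, hG.inv_inv d hd]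
    rcases hQ with hQ | hQ
    · rw [h4] at hQ
      exact h2 hQ
    · rw [h4, hs] at hQ
      exact huA hQ
  have key : ∃ (y : V) (ψu : D → E × V), G.Lv u y = true ∧ H.StarOk G (H.Rm G) u y ψu ∧
      (G.src (G.inv d₀) ∈ A → ψ (G.inv d₀) = H.opp (ψu d₀)) := by
    by_cases hA : G.src (G.inv d₀) ∈ A
    · have h1 : H.Rm G (G.inv d₀) (ψ (G.inv d₀)) :=
        (h.star _ hA).rel _ ⟨hG.inv_mem _ hd₀, rfl⟩
      have h2 := (cons_Rm _ _ h1).2.2.2.2.1
      rw [hG.inv_inv d₀ hd₀] at h2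
      obtain ⟨-, -, h3, -, -, ψu, h4, h5⟩ := cons_Rm _ _ h2
      rw [hs₀] at h3 h4
      refine ⟨_, ψu, h3, h4, fun _ => ?_⟩
      rw [h5]
      exact (ce_opp_opp h1).symm
    · obtain ⟨y, -, hlv, ψu, hst⟩ := hS u hu
      exact ⟨y, ψu, hlv, hst, fun h1 => absurd h1 hA⟩
  obtain ⟨y, ψu, hlv, hst, hk⟩ := key
  refine ce_insert hG h hu huA hlv hst ?_ ?_ ?_
  · intro d hd hs hA
    by_cases hd0 : d = d₀
    · subst hd0
      exact hk hA
    · exact absurd hA (hneA d hd hs hd0)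
  · intro d hd hs hu'
    by_cases hd0 : d = d₀
    · subst hd0
      have h1 : H.GUp G (G.inv d) := by
        rcases hQ with hQ | hQ
        · exact hQ
        · rw [hu'] at hQ
          exact absurd hQ huA
      have h2 : G.inv d = d :=
        GUp.unique hG hS (hG.inv_mem d hd) hd h1 hup₀ (hu'.trans hs.symm)
      have h3 := ce_opp_semi (hst.rel d ⟨hd, hs⟩) h2
      rw [h2, h3]
    · exact absurd hu' (hneu d hd hs hd0)
  · intro d hd hs hup hnup
    by_cases hd0 : d = d₀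
    · subst hd0
      rcases hQ with hQ | hQ
      · exact absurd hQ hnup
      · exact hQ
    · exact absurd hup (hne d hd hs hd0).2

/-- A partial solution containing all vertices with core darts can be extended by one vertex. -/
theorem Part.extend_one {A : Set W} {x : W → V} {ψ : D → E × V} (h : H.Part G A x ψ)
    (hc : ∀ d ∈ G.Ds, H.GCore G d → G.src d ∈ A) (hA : ∃ u ∈ G.Vs, u ∉ A) :
    ∃ u ∈ G.Vs, u ∉ A ∧ ∃ x' ψ', H.Part G (insert u A) x' ψ' := by
  classical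
  by_cases hno : ∃ u ∈ G.Vs, u ∉ A ∧ ∀ d ∈ G.Ds, G.src d = u → ¬ H.GUp G d
  · obtain ⟨u, hu, huA, hno⟩ := hno
    exact ⟨u, hu, huA, ce_noup hG hS h hc hu huA hno⟩
  push Not at hno
  obtain ⟨lv, hlv⟩ := exists_level hG hS
  have hch : ∀ u : W, ∃ n : ℕ, u ∈ G.Vs → u ∉ A → ∃ d ∈ G.Ds, G.src d = u ∧ H.GUp G d ∧
      lv d = n := by
    intro u
    by_cases hu : u ∈ G.Vs ∧ u ∉ A
    · obtain ⟨d, hd, hs, hup⟩ := hno u hu.1 hu.2
      exact ⟨lv d, fun _ _ => ⟨d, hd, hs, hup, rfl⟩⟩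
    · exact ⟨0, fun h1 h2 => absurd ⟨h1, h2⟩ hu⟩
  choose N hN using hch
  obtain ⟨w, hw, hwA⟩ := hA
  obtain ⟨u, hu, hmax⟩ := (G.Vs.toFinset.filter (fun v => v ∉ A)).exists_max_image N
    ⟨w, by simp [hw, hwA]⟩
  simp only [Finset.mem_filter, List.mem_toFinset] at hu hmax
  obtain ⟨hu, huA⟩ := hu
  obtain ⟨d₀, hd₀, hs₀, hup₀, hl₀⟩ := hN u hu huA
  refine ⟨u, hu, huA, ce_up hG hS h hu huA hd₀ hs₀ hup₀ ?_⟩
  by_contra hcon
  push Not at hcon
  obtain ⟨hc1, hc2⟩ := hcon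
  have hv : G.src (G.inv d₀) ∈ G.Vs := hG.src_mem _ (hG.inv_mem _ hd₀)
  obtain ⟨d', hd', hs', hup', hl'⟩ := hN _ hv hc2
  have h1 := hlv d₀ hd₀ d' hd' hup₀ hup' hs' (fun h2 => hc1 (h2 ▸ hup'))
  have h2 := hmax _ ⟨hv, hc2⟩
  omega

/-- A partial solution containing all vertices with core darts gives a covering projection. -/
theorem Part.exists_cov {A : Set W} {x : W → V} {ψ : D → E × V} (h : H.Part G A x ψ)
    (hc : ∀ d ∈ G.Ds, H.GCore G d → G.src d ∈ A) : ∃ fv fe, H.IsCov G fv fe := by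
  classical
  obtain ⟨n, hn⟩ : ∃ n : ℕ, (G.Vs.toFinset.filter (fun v => v ∉ A)).card = n := ⟨_, rfl⟩
  induction n using Nat.strong_induction_on generalizing A x ψ with
  | _ n ih =>
    by_cases hA : ∃ u ∈ G.Vs, u ∉ A
    · obtain ⟨u, hu, huA, x', ψ', h'⟩ := h.extend_one hG hS hc hA
      refine ih _ ?_ h' (fun d hd hcore => Or.inr (hc d hd hcore)) rfl
      rw [← hn]
      apply Finset.card_lt_card
      rw [Finset.ssubset_iff_of_subset]
      · exact ⟨u, by simp [hu, huA], by simp⟩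
      · intro v hv
        simp only [Finset.mem_filter, List.mem_toFinset, Set.mem_insert_iff, not_or] at hv ⊢
        exact ⟨hv.1, hv.2.2⟩
    · push Not at hA
      refine ⟨x, _, IsCov.of_flags hG (fun u hu => h.lv u (hA u hu))
        (fun u hu => h.star u (hA u hu)) fun d hd => ?_⟩
      exact h.comp d hd (hA _ (hG.src_mem d hd)) (hA _ (hG.src_mem _ (hG.inv_mem d hd)))

end

end Graph

end Pool.Agent.Lib.MP_9c5086_lc
end

section

section

/-!
Path consistency and majority operations.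
-/

namespace Pool.Agent.Lib.MP_9c5086_lc

/-- A family of sets pairwise intersecting in the domain and absorbing under a majority operation
has a common element. -/
theorem exists_common {X A : Type} (m : A → A → A → A) (S : Finset X) (hS : S.Nonempty)
    (Q : X → A → Prop) (Dom : A → Prop) (hD : ∀ i ∈ S, ∀ c, Q i c → Dom c)
    (hpair : ∀ i ∈ S, ∀ j ∈ S, ∃ c, Q i c ∧ Q j c)
    (habs : ∀ i ∈ S, ∀ c₁ c₂ c₃, Dom c₁ → Dom c₂ → Dom c₃ →
      (Q i c₁ ∧ Q i c₂) ∨ (Q i c₁ ∧ Q i c₃) ∨ (Q i c₂ ∧ Q i c₃) → Q i (m c₁ c₂ c₃)) :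
    ∃ c, ∀ i ∈ S, Q i c := by
  classical
  have key : ∀ n : ℕ, ∀ T : Finset X, T.card = n → T ⊆ S → T.Nonempty →
      ∃ c, ∀ i ∈ T, Q i c := by
    intro n
    induction n using Nat.strong_induction_on with
    | _ n ih =>
      intro T hT hTS hTn
      by_cases h2 : 2 < T.card
      · obtain ⟨i, j, k, hi, hj, hk, hij, hik, hjk⟩ := Finset.two_lt_card_iff.mp h2
        have hcard : ∀ l ∈ T, (T.erase l).card < n := by
          intro l hl
          rw [Finset.card_erase_of_mem hl]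
          omega
        obtain ⟨c1, h1⟩ := ih _ (hcard i hi) (T.erase i) rfl
          ((Finset.erase_subset _ _).trans hTS) ⟨j, Finset.mem_erase.mpr ⟨Ne.symm hij, hj⟩⟩
        obtain ⟨c2, h2⟩ := ih _ (hcard j hj) (T.erase j) rfl
          ((Finset.erase_subset _ _).trans hTS) ⟨i, Finset.mem_erase.mpr ⟨hij, hi⟩⟩
        obtain ⟨c3, h3⟩ := ih _ (hcard k hk) (T.erase k) rfl
          ((Finset.erase_subset _ _).trans hTS) ⟨i, Finset.mem_erase.mpr ⟨hik, hi⟩⟩
        have hd1 : Dom c1 := hD j (hTS hj) c1 (h1 j (Finset.mem_erase.mpr ⟨Ne.symm hij, hj⟩))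
        have hd2 : Dom c2 := hD i (hTS hi) c2 (h2 i (Finset.mem_erase.mpr ⟨hij, hi⟩))
        have hd3 : Dom c3 := hD i (hTS hi) c3 (h3 i (Finset.mem_erase.mpr ⟨hik, hi⟩))
        refine ⟨m c1 c2 c3, fun l hl => habs l (hTS hl) c1 c2 c3 hd1 hd2 hd3 ?_⟩
        by_cases hli : l = i
        · subst hli
          exact Or.inr (Or.inr ⟨h2 l (Finset.mem_erase.mpr ⟨hij, hl⟩),
            h3 l (Finset.mem_erase.mpr ⟨hik, hl⟩)⟩)
        · have hc1 : Q l c1 := h1 l (Finset.mem_erase.mpr ⟨hli, hl⟩)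
          by_cases hlj : l = j
          · subst hlj
            exact Or.inr (Or.inl ⟨hc1, h3 l (Finset.mem_erase.mpr ⟨hjk, hl⟩)⟩)
          · exact Or.inl ⟨hc1, h2 l (Finset.mem_erase.mpr ⟨hlj, hl⟩)⟩
      · obtain ⟨i, hi⟩ := hTn
        by_cases h1 : (T.erase i).Nonempty
        · obtain ⟨j, hj⟩ := h1
          obtain ⟨hji, hjT⟩ := Finset.mem_erase.mp hj
          obtain ⟨c, hc1, hc2⟩ := hpair i (hTS hi) j (hTS hjT)
          refine ⟨c, fun l hl => ?_⟩
          by_cases hli : l = i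
          · rw [hli]; exact hc1
          · by_cases hlj : l = j
            · rw [hlj]; exact hc2
            · exfalso
              apply h2
              exact Finset.two_lt_card_iff.mpr ⟨i, j, l, hi, hjT, hl, Ne.symm hji, Ne.symm hli,
                Ne.symm hlj⟩
        · obtain ⟨c, hc1, -⟩ := hpair i (hTS hi) i (hTS hi)
          refine ⟨c, fun l hl => ?_⟩
          by_cases hli : l = i
          · rw [hli]; exact hc1
          · exact absurd ⟨l, Finset.mem_erase.mpr ⟨hli, hl⟩⟩ h1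
  exact key _ S rfl subset_rfl hS

/-- A family of pairs that is path consistent and closed under a majority operation contains a
solution. -/
theorem exists_of_path {X A : Type} [Nonempty A] (Xs : Set X) (hX : Xs.Finite)
    (P : X → X → A → A → Prop)
    (m : A → A → A → A) (hl : ∀ a b, m a a b = a) (hm : ∀ a b, m a b a = a)
    (hr : ∀ a b, m b a a = a)
    (hP : ∀ v w a₁ b₁ a₂ b₂ a₃ b₃, P v w a₁ b₁ → P v w a₂ b₂ → P v w a₃ b₃ →
      P v w (m a₁ a₂ a₃) (m b₁ b₂ b₃))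
    (hsym : ∀ v w a b, P v w a b → P w v b a) (hdiag : ∀ v a b, P v v a b → a = b)
    (hpath : ∀ v w a b, P v w a b → ∀ u ∈ Xs, ∃ c, P v u a c ∧ P u w c b)
    (hne : ∀ v ∈ Xs, ∃ a, P v v a a) :
    ∃ s : X → A, ∀ v ∈ Xs, ∀ w ∈ Xs, P v w (s v) (s w) := by
  classical
  suffices h : ∀ T : Finset X, (∀ v ∈ T, v ∈ Xs) →
      ∃ s : X → A, ∀ v ∈ T, ∀ w ∈ T, P v w (s v) (s w) by
    obtain ⟨s, hs⟩ := h hX.toFinset (fun v hv => hX.mem_toFinset.mp hv)
    exact ⟨s, fun v hv w hw => hs v (hX.mem_toFinset.mpr hv) w (hX.mem_toFinset.mpr hw)⟩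
  -- the projection of a pair
  have hproj : ∀ v ∈ Xs, ∀ u a c, P v u a c → u ∈ Xs → P u u c c := by
    intro v hv u a c h hu
    obtain ⟨c', hc', -⟩ := hpath u v c a (hsym _ _ _ _ h) u hu
    have := hdiag u c c' hc'
    rw [← this] at hc'
    exact hc'
  intro T
  induction T using Finset.induction_on with
  | empty =>
    intro _
    exact ⟨fun _ => Classical.arbitrary A, fun v hv => absurd hv (Finset.notMem_empty v)⟩
  | insert u T huT ih =>
    intro hT
    have hu : u ∈ Xs := hT u (Finset.mem_insert_self u T)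
    have hT' : ∀ v ∈ T, v ∈ Xs := fun v hv => hT v (Finset.mem_insert_of_mem hv)
    obtain ⟨s, hs⟩ := ih hT'
    obtain ⟨c, hcc, hcT⟩ : ∃ c, P u u c c ∧ ∀ v ∈ T, P v u (s v) c := by
      rcases T.eq_empty_or_nonempty with hTe | hTn
      · obtain ⟨a, ha⟩ := hne u hu
        exact ⟨a, ha, fun v hv => by rw [hTe] at hv; exact absurd hv (Finset.notMem_empty v)⟩
      · obtain ⟨c, hc⟩ := exists_common m T hTn (fun v c => P v u (s v) c) (fun c => P u u c c)
          (fun v hv c h => hproj v (hT' v hv) u (s v) c h hu)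
          (fun v hv w hw => by
            obtain ⟨c, h1, h2⟩ := hpath v w (s v) (s w) (hs v hv w hw) u hu
            exact ⟨c, h1, hsym _ _ _ _ h2⟩)
          (fun v hv c₁ c₂ c₃ d₁ d₂ d₃ h => by
            have ext : ∀ c, P u u c c → ∃ a', P v u a' c := by
              intro c hc
              obtain ⟨a', -, h'⟩ := hpath u u c c hc v (hT' v hv)
              exact ⟨a', h'⟩
            rcases h with ⟨h1, h2⟩ | ⟨h1, h2⟩ | ⟨h1, h2⟩
            · obtain ⟨a', ha'⟩ := ext c₃ d₃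
              have := hP v u _ _ _ _ _ _ h1 h2 ha'
              rw [hl] at this
              exact this
            · obtain ⟨a', ha'⟩ := ext c₂ d₂
              have := hP v u _ _ _ _ _ _ h1 ha' h2
              rw [hm] at this
              exact this
            · obtain ⟨a', ha'⟩ := ext c₁ d₁
              have := hP v u _ _ _ _ _ _ ha' h1 h2
              rw [hr] at this
              exact this)
        obtain ⟨v, hv⟩ := hTn
        exact ⟨c, hproj v (hT' v hv) u (s v) c (hc v hv) hu, hc⟩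
    refine ⟨Function.update s u c, fun v hv w hw => ?_⟩
    have hne' : ∀ v ∈ T, v ≠ u := fun v hv h => huT (h ▸ hv)
    rcases Finset.mem_insert.mp hv with hvu | hvT
    · rcases Finset.mem_insert.mp hw with hwu | hwT
      · rw [hvu, hwu, Function.update_self]; exact hcc
      · rw [hvu, Function.update_self, Function.update_of_ne (hne' w hwT)]
        exact hsym _ _ _ _ (hcT w hwT)
    · rcases Finset.mem_insert.mp hw with hwu | hwT
      · rw [hwu, Function.update_self, Function.update_of_ne (hne' v hvT)]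
        exact hcT v hvT
      · rw [Function.update_of_ne (hne' v hvT), Function.update_of_ne (hne' w hwT)]
        exact hs v hvT w hwT

end Pool.Agent.Lib.MP_9c5086_lc
end

section

/-!
The data on the core given by a solution of the constraint satisfaction problem.
-/

namespace Pool.Agent.Lib.MP_9c5086_lc

namespace Graph

variable {W D V E : Type} [DecidableEq V] {H : Graph V E}

/-- Images of the vertices, of the thin core darts, and factors in the gamma blocks. -/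
structure CoreData (G : LG W D V E) (Θ : Thin H H.ty) (ga gb : V → E) (x : W → V)
    (sd : D → H.Dart) (B : W → Set D) : Prop where
  sm : ∀ u ∈ G.Vs, H.Sm G u (x u)
  rm : ∀ d ∈ G.Ds, H.Rm G d (sd d).fl
  src : ∀ d ∈ G.Ds, (sd d).ThinCore H.ty → (sd d).src = x (G.src d)
  inv : ∀ d ∈ G.Ds, (sd d).ThinCore H.ty → (sd (G.inv d)).fl = (sd d).inv.fl
  tau : ∀ d ∈ G.Ds, ∀ d' ∈ G.Ds, d ≠ d' → G.src d = G.src d' → (sd d).ThinCore H.ty →
    H.ty (sd d).src = H.ty (sd d').src → H.ty (sd d).tgt = H.ty (sd d').tgt →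
    (sd d').fl = (Θ.tau (sd d)).fl
  xg : ∀ d ∈ G.Ds, H.Gam H.ty (H.ty (x (G.src d))) →
    H.ty (x (G.src (G.inv d))) = H.ty (x (G.src d)) → x (G.src (G.inv d)) = x (G.src d)
  finv : ∀ d ∈ G.Ds, H.Gam H.ty (H.ty (x (G.src d))) → H.GD G ga gb (x (G.src d)) d →
    (G.inv d ∈ B (G.src (G.inv d)) ↔ d ∈ B (G.src d))
  fmem : ∀ d ∈ G.Ds, H.Gam H.ty (H.ty (x (G.src d))) → H.GD G ga gb (x (G.src d)) d →
    d ∈ B (G.src d) → H.Rm G d (gb (x (G.src d)), x (G.src d))
  fnot : ∀ d ∈ G.Ds, H.Gam H.ty (H.ty (x (G.src d))) → H.GD G ga gb (x (G.src d)) d →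
    d ∉ B (G.src d) → H.Rm G d (ga (x (G.src d)), x (G.src d))
  fcount : ∀ u ∈ G.Vs, H.Gam H.ty (H.ty (x u)) →
    {d | d ∈ G.star u ∧ H.GD G ga gb (x u) d ∧ d ∈ B u}.ncard = H.mult (gb (x u), x u)

variable {G : LG W D V E} {Θ : Thin H H.ty} {ga gb : V → E}

/-- The factor chosen for a set of vertices and an image. -/
private noncomputable def facB (H : Graph V E) (G : LG W D V E) (ga gb : V → E) (C : Set W) (y : V) :
    Set D :=
  open scoped Classical in
  if h : ∃ B, H.Factor G ga gb C y B then h.choose else ∅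

private theorem facB_spec {C : Set W} {y : V} (h : ∃ B, H.Factor G ga gb C y B) :
    H.Factor G ga gb C y (facB H G ga gb C y) := by
  unfold facB
  rw [dif_pos h]
  exact h.choose_spec

/-- The image of a vertex. -/
private noncomputable def corX (H : Graph V E) (G : LG W D V E) (sv : W → V) (sd : D → H.Dart)
    (u : W) : V :=
  open scoped Classical in
  if h : ∃ d ∈ G.Ds, G.src d = u ∧ (sd d).ThinCore H.ty then (sd h.choose).src else sv u

private theorem corX_cases (sv : W → V) (sd : D → H.Dart) (u : W) :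
    (∃ d ∈ G.Ds, G.src d = u ∧ (sd d).ThinCore H.ty ∧ corX H G sv sd u = (sd d).src) ∨
      ((¬ ∃ d ∈ G.Ds, G.src d = u ∧ (sd d).ThinCore H.ty) ∧ corX H G sv sd u = sv u) := by
  unfold corX
  by_cases h : ∃ d ∈ G.Ds, G.src d = u ∧ (sd d).ThinCore H.ty
  · left
    rw [dif_pos h]
    exact ⟨h.choose, h.choose_spec.1, h.choose_spec.2.1, h.choose_spec.2.2, rfl⟩
  · right
    rw [dif_neg h]
    exact ⟨h, rfl⟩

private theorem exists_loop_dart [Finite E] (hE : H.GEdges ga gb) {x : V}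
    (hx : H.Gam H.ty (H.ty x)) : ∃ f : H.Dart, f.src = x ∧ f.tgt = x := by
  obtain ⟨-, h1, h2, -⟩ := hE x hx
  refine ⟨⟨(ga x, false), fun h => by simp at h⟩, ?_, ?_⟩
  · simp [Dart.src, h1]
  · simp [Dart.tgt, h2]

/-- A solution gives data on the core. -/
theorem Sol.exists_coreData [Finite V] [Finite E] (hG : G.Ok) (hT : H.Tame H.ty) (hΘ : Θ.Covers)
    (hE : H.GEdges ga gb) {s : W ⊕ D → V ⊕ (E × V)} (h : Sol G Θ ga gb s) :
    ∃ x sd B, CoreData G Θ ga gb x sd B := by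
  classical
  have hEq : H.Equitable H.ty := equitable_ty
  have hsv : ∃ sv : W → V, ∀ u ∈ G.Vs, s (.inl u) = .inl (sv u) ∧ H.Sm G u (sv u) ∧
      (H.Gam H.ty (H.ty (sv u)) → H.Feas G ga gb u (sv u)) := by
    have h1 : ∀ u : W, ∃ y : V, u ∈ G.Vs → s (.inl u) = .inl y ∧ H.Sm G u y ∧
        (H.Gam H.ty (H.ty y) → H.Feas G ga gb u y) := by
      intro u
      by_cases hu : u ∈ G.Vs
      · rcases h.un (.inl u) (Or.inl ⟨u, hu, rfl⟩) with ⟨u', y, e1, e2, e3, e4⟩ | ⟨d, φ, e1, -⟩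
        · obtain rfl : u = u' := Sum.inl.inj e1
          exact ⟨y, fun _ => ⟨e2, e3, e4⟩⟩
        · exact absurd e1 (by simp)
      · rcases s (.inl u) with y | φ
        · exact ⟨y, fun h => absurd h hu⟩
        · exact ⟨φ.2, fun h => absurd h hu⟩
    choose sv hsv using h1
    exact ⟨sv, hsv⟩
  have hsd : ∃ sd : D → H.Dart, ∀ d ∈ G.Ds, s (.inr d) = .inr (sd d).fl ∧ H.Rm G d (sd d).fl := by
    have h1 : ∀ d : D, ∃ f : H.Dart, d ∈ G.Ds → s (.inr d) = .inr f.fl ∧ H.Rm G d f.fl := by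
      intro d
      by_cases hd : d ∈ G.Ds
      · rcases h.un (.inr d) (Or.inr ⟨d, hd, rfl⟩) with ⟨u, y, e1, -⟩ | ⟨d', φ, e1, e2, e3⟩
        · exact absurd e1 (by simp)
        · obtain rfl : d = d' := Sum.inr.inj e1
          obtain ⟨f, rfl⟩ := Rm.exists_dart e3
          exact ⟨f, fun _ => ⟨e2, e3⟩⟩
      · have v : V := by
          rcases s (.inr d) with y | φ
          · exact y
          · exact φ.2
        exact ⟨⟨(ga v, false), fun h => by simp at h⟩, fun h => absurd h hd⟩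
    choose sd hsd using h1
    exact ⟨sd, hsd⟩
  obtain ⟨sv, hsv⟩ := hsv
  obtain ⟨sd, hsd⟩ := hsd
  have hvd : ∀ d ∈ G.Ds, (.inr d : W ⊕ D) ∈ Vars G := fun d hd => Or.inr ⟨d, hd, rfl⟩
  have hvv : ∀ u ∈ G.Vs, (.inl u : W ⊕ D) ∈ Vars G := fun u hu => Or.inl ⟨u, hu, rfl⟩
  have hsrc : ∀ d ∈ G.Ds, H.Sm G (G.src d) (sd d).src := fun d hd => Rm.src hG (hsd d hd).2
  -- the constraints
  have c2 : ∀ d ∈ G.Ds, ∀ d' ∈ G.Ds, d ≠ d' → G.src d = G.src d' → (sd d).ThinCore H.ty →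
      H.ty (sd d).src = H.ty (sd d').src → H.ty (sd d).tgt = H.ty (sd d').tgt →
      (sd d').fl = (Θ.tau (sd d)).fl := fun d hd d' hd' hne hs ht h1 h2 =>
    (h.bin _ (hvd d hd) _ (hvd d' hd')).c2 d d' (sd d) (sd d') rfl rfl hne hs (hsd d hd).1
      (hsd d' hd').1 ht h1 h2
  have c3 : ∀ d ∈ G.Ds, (sd d).ThinCore H.ty → Θ.NI (H.ty (sd d).src) →
      sv (G.src d) = (sd d).src := fun d hd ht hN =>
    (h.bin _ (hvv _ (hG.src_mem d hd)) _ (hvd d hd)).c3 d (sv (G.src d)) (sd d) rfl rfl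
      (hsv _ (hG.src_mem d hd)).1 (hsd d hd).1 ht hN
  -- thin core darts at the same vertex have the same source
  have hss : ∀ d ∈ G.Ds, ∀ d₀ ∈ G.Ds, G.src d₀ = G.src d → (sd d).ThinCore H.ty →
      (sd d₀).ThinCore H.ty → (sd d₀).src = (sd d).src := by
    intro d hd d₀ hd₀ hs ht ht₀
    by_cases hne : d = d₀
    · rw [hne]
    have hty : H.ty (sd d).src = H.ty (sd d₀).src :=
      Sm.ty_eq hG (hsrc d hd) (hs ▸ hsrc d₀ hd₀)
    by_cases hN : Θ.NI (H.ty (sd d).src)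
    · rw [← c3 d hd ht hN, ← c3 d₀ hd₀ ht₀ (hty ▸ hN), hs]
    · obtain ⟨-, hN2⟩ := hΘ.of_not_ni hEq ht hN
      obtain ⟨-, -, ψ, hψ⟩ := hsrc d hd
      obtain ⟨β, hβ, hβψ⟩ := hψ.exists_bij
      have hst : d₀ ∈ G.star (G.src d) := ⟨hd₀, hs⟩
      have hf0 : (β d₀).src = (sd d).src := hβ.mapsTo hst
      have hR : H.Rm G d₀ (β d₀).fl := by
        rw [hβψ d₀ hst]
        exact hψ.rel d₀ hst
      obtain ⟨t1, t2⟩ := Rm.cls_eq hG hR (hsd d₀ hd₀).2
      have hthin : (β d₀).ThinCore H.ty := ht₀.class_eq hEq t1.symm t2.symm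
      have htg : H.ty (β d₀).tgt = H.ty (sd d).tgt := by
        rcases hN2 (β d₀) hthin.1 hf0 with e | e
        · rw [e]
        · rw [e]
          exact Θ.tau_ty _ (hΘ.thin _ ht)
      have := c2 d hd d₀ hd₀ hne hs.symm ht hty (htg.symm.trans t2)
      rw [show (sd d₀).src = ((sd d₀).fl).2 from rfl, this]
      exact Θ.tau_src _ (hΘ.thin _ ht)
  set x : W → V := corX H G sv sd with hxdef
  have hxsrc : ∀ d ∈ G.Ds, (sd d).ThinCore H.ty → (sd d).src = x (G.src d) := by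
    intro d hd ht
    rcases corX_cases (G := G) sv sd (G.src d) with ⟨d₀, hd₀, h1, h2, h3⟩ | ⟨h1, -⟩
    · rw [hxdef, h3]
      exact (hss d hd d₀ hd₀ h1 ht h2).symm
    · exact absurd ⟨d, hd, rfl, ht⟩ h1
  have hxsm : ∀ u ∈ G.Vs, H.Sm G u (x u) := by
    intro u hu
    rcases corX_cases (G := G) sv sd u with ⟨d₀, hd₀, h1, h2, h3⟩ | ⟨-, h2⟩
    · rw [hxdef, h3, ← h1]
      exact hsrc d₀ hd₀
    · rw [hxdef, h2]
      exact (hsv u hu).2.1
  have hxg : ∀ u ∈ G.Vs, H.Gam H.ty (H.ty (x u)) → x u = sv u := by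
    intro u hu hg
    rcases corX_cases (G := G) sv sd u with ⟨d₀, hd₀, h1, h2, h3⟩ | ⟨-, h2⟩
    · have h3' : x u = (sd d₀).src := h3
      obtain ⟨f, hf1, hf2⟩ := exists_loop_dart hE hg
      have hf3 : H.Gam H.ty (H.ty f.src) := by rw [hf1]; exact hg
      obtain ⟨k1, -, k2⟩ := hT.gam_dart hEq hf3 (by rw [hf1, hf2])
      have hne : H.ty f.tgt ≠ H.ty (sd d₀).tgt := by
        intro he
        have h4 := h2.2
        rw [← he, ← h3', ← hf1] at h4
        omega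
      have hN : Θ.NI (H.ty (sd d₀).src) := hΘ.ni_of_two h2.1 k1 (by rw [hf1, h3']) hne
      rw [h3', ← c3 d₀ hd₀ h2 hN, h1]
    · exact h2
  have hxg2 : ∀ d ∈ G.Ds, H.Gam H.ty (H.ty (x (G.src d))) →
      H.ty (x (G.src (G.inv d))) = H.ty (x (G.src d)) → x (G.src (G.inv d)) = x (G.src d) := by
    intro d hd hg ht
    have hu : G.src d ∈ G.Vs := hG.src_mem d hd
    have hu' : G.src (G.inv d) ∈ G.Vs := hG.src_mem _ (hG.inv_mem d hd)
    have hg' : H.Gam H.ty (H.ty (x (G.src (G.inv d)))) := by rw [ht]; exact hg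
    have e1 := hxg _ hu hg
    have e2 := hxg _ hu' hg'
    have := (h.bin _ (hvv _ hu) _ (hvv _ hu')).c4 d (sv (G.src d)) (sv (G.src (G.inv d))) hd rfl rfl
      (hsv _ hu).1 (hsv _ hu').1 (by rw [← e1]; exact hg) (by rw [← e1, ← e2]; exact ht)
    rw [e1, e2, this]
  set B : W → Set D := fun u => facB H G ga gb {v | H.GConn G ga gb (x u) u v} (x u) with hBdef
  have hB : ∀ u ∈ G.Vs, H.Gam H.ty (H.ty (x u)) →
      H.Factor G ga gb {v | H.GConn G ga gb (x u) u v} (x u) (B u) := by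
    intro u hu hg
    apply facB_spec
    have e := hxg u hu hg
    have := (hsv u hu).2.2 (by rw [← e]; exact hg)
    rw [← e] at this
    exact this
  refine ⟨x, sd, B, hxsm, fun d hd => (hsd d hd).2, hxsrc, ?_, c2, hxg2, ?_, ?_, ?_, ?_⟩
  · intro d hd ht
    exact (h.bin _ (hvd d hd) _ (hvd _ (hG.inv_mem d hd))).c1 d (sd d) _ rfl rfl (hsd d hd).1
      (hsd _ (hG.inv_mem d hd)).1 ht
  · intro d hd hg hgd
    have hu : G.src d ∈ G.Vs := hG.src_mem d hd
    have hu' : G.src (G.inv d) ∈ G.Vs := hG.src_mem _ (hG.inv_mem d hd)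
    have hc : H.GConn G ga gb (x (G.src d)) (G.src d) (G.src (G.inv d)) :=
      Relation.ReflTransGen.single ⟨d, hd, rfl, rfl, hgd⟩
    have hsm : H.Sm G (G.src (G.inv d)) (x (G.src d)) := GConn.sm hG hE hg (hxsm _ hu) hc
    have hx' : x (G.src (G.inv d)) = x (G.src d) :=
      hxg2 d hd hg (Sm.ty_eq hG (hxsm _ hu') hsm)
    have hc' := GConn.symm hG hE hg hc
    have hBB : B (G.src (G.inv d)) = B (G.src d) := by
      simp only [hBdef]
      rw [hx']
      congr 1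
      ext v
      exact ⟨fun k => Relation.ReflTransGen.trans hc k, fun k => Relation.ReflTransGen.trans hc' k⟩
    rw [hBB]
    exact (hB _ hu hg).inv d hd Relation.ReflTransGen.refl hgd
  · intro d hd hg hgd hm
    exact (hB _ (hG.src_mem d hd) hg).mem d hd Relation.ReflTransGen.refl hgd hm
  · intro d hd hg hgd hm
    exact (hB _ (hG.src_mem d hd) hg).not_mem d hd Relation.ReflTransGen.refl hgd hm
  · intro u hu hg
    exact (hB u hu hg).count u Relation.ReflTransGen.refl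

end Graph

end Pool.Agent.Lib.MP_9c5086_lc
end

section

/-!
Solving the constraint satisfaction problem by path consistency.
-/

namespace Pool.Agent.Lib.MP_9c5086_lc

namespace Graph

variable {W D V E : Type} [DecidableEq V] {H : Graph V E} {G : LG W D V E}
  {Θ : Thin H H.ty} {ga gb : V → E}

/-- The majority operation preserves the unary constraints. -/
theorem UC.maj {m : V ⊕ (E × V) → V ⊕ (E × V) → V ⊕ (E × V) → V ⊕ (E × V)} (hm : IsMaj m)
    {v : W ⊕ D} {a₁ a₂ a₃ : V ⊕ (E × V)} (h₁ : H.UC G ga gb v a₁) (h₂ : H.UC G ga gb v a₂)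
    (h₃ : H.UC G ga gb v a₃) : H.UC G ga gb v (m a₁ a₂ a₃) := by
  rcases hm.cons a₁ a₂ a₃ with h | h | h
  · rw [h]
    exact h₁
  · rw [h]
    exact h₂
  · rw [h]
    exact h₃

/-- The majority operation preserves the binary constraints. -/
theorem BC.maj [Finite V] [Finite E] (hG : G.Ok) (hΘ : Θ.Covers)
    {m : V ⊕ (E × V) → V ⊕ (E × V) → V ⊕ (E × V) → V ⊕ (E × V)} (hm : Θ.Compat m)
    {v w : W ⊕ D} {a₁ a₂ a₃ b₁ b₂ b₃ : V ⊕ (E × V)} (h₁ : H.UC G ga gb v a₁)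
    (h₂ : H.UC G ga gb v a₂) (h₃ : H.UC G ga gb v a₃) (k₁ : H.UC G ga gb w b₁)
    (k₂ : H.UC G ga gb w b₂) (k₃ : H.UC G ga gb w b₃) (c₁ : BC G Θ v w a₁ b₁)
    (c₂ : BC G Θ v w a₂ b₂) (c₃ : BC G Θ v w a₃ b₃) :
    BC G Θ v w (m a₁ a₂ a₃) (m b₁ b₂ b₃) := by
  have ht : H.Equitable H.ty := equitable_ty
  have hmaj := hm.maj
  -- values of darts
  have hdart : ∀ {z : W ⊕ D} {a : V ⊕ (E × V)} {d : D}, H.UC G ga gb z a → z = .inr d →
      ∃ e : H.Dart, a = .inr e.fl ∧ H.Rm G d e.fl := by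
    intro z a d hz hd
    rcases hz with ⟨u, x, h, -⟩ | ⟨d', φ, h, ha, hr⟩
    · rw [hd] at h
      cases h
    · rw [hd] at h
      cases h
      obtain ⟨e, he⟩ := hr.exists_dart
      refine ⟨e, ?_, ?_⟩
      · rw [he]
        exact ha
      · rw [he]
        exact hr
  have hvert : ∀ {z : W ⊕ D} {a : V ⊕ (E × V)} {u : W}, H.UC G ga gb z a → z = .inl u →
      ∃ x : V, a = .inl x ∧ H.Sm G u x := by
    intro z a u hz hu
    rcases hz with ⟨u', x, h, ha, hs, -⟩ | ⟨d', φ, h, -⟩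
    · rw [hu] at h
      cases h
      exact ⟨x, ha, hs⟩
    · rw [hu] at h
      cases h
  have hrm : ∀ {d : D} {e e₁ e₂ e₃ : H.Dart}, H.Rm G d e₁.fl → H.Rm G d e₂.fl → H.Rm G d e₃.fl →
      m (.inr e₁.fl) (.inr e₂.fl) (.inr e₃.fl) = .inr e.fl → H.Rm G d e.fl := by
    intro d e e₁ e₂ e₃ r₁ r₂ r₃ h
    rcases hmaj.cons (.inr e₁.fl) (.inr e₂.fl) (.inr e₃.fl) with h' | h' | h'
    · rw [h'] at h
      rw [← Sum.inr.inj h]
      exact r₁
    · rw [h'] at h
      rw [← Sum.inr.inj h]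
      exact r₂
    · rw [h'] at h
      rw [← Sum.inr.inj h]
      exact r₃
  -- the compatibility
  have hcompat : ∀ {d : D} {e e₁ e₂ e₃ : H.Dart}, H.Rm G d e₁.fl → H.Rm G d e₂.fl →
      H.Rm G d e₃.fl → m (.inr e₁.fl) (.inr e₂.fl) (.inr e₃.fl) = .inr e.fl → e.ThinCore H.ty →
      e₁.ThinCore H.ty ∧ e₂.ThinCore H.ty ∧ e₃.ThinCore H.ty ∧
      H.ty e₁.src = H.ty e.src ∧ H.ty e₂.src = H.ty e.src ∧ H.ty e₃.src = H.ty e.src ∧
      H.ty e₁.tgt = H.ty e.tgt ∧ H.ty e₂.tgt = H.ty e.tgt ∧ H.ty e₃.tgt = H.ty e.tgt ∧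
      m (.inr e₁.inv.fl) (.inr e₂.inv.fl) (.inr e₃.inv.fl) = .inr e.inv.fl ∧
      m (.inr (Θ.tau e₁).fl) (.inr (Θ.tau e₂).fl) (.inr (Θ.tau e₃).fl) = .inr (Θ.tau e).fl ∧
      (Θ.NI (H.ty e.src) → m (.inl e₁.src) (.inl e₂.src) (.inl e₃.src) = .inl e.src) := by
    intro d e e₁ e₂ e₃ r₁ r₂ r₃ h hthin
    have r := hrm r₁ r₂ r₃ h
    have q₁ := Rm.cls_eq hG r₁ r
    have q₂ := Rm.cls_eq hG r₂ r
    have q₃ := Rm.cls_eq hG r₃ r
    have t₁ : e₁.ThinCore H.ty := hthin.class_eq ht q₁.1.symm q₁.2.symm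
    have t₂ : e₂.ThinCore H.ty := hthin.class_eq ht q₂.1.symm q₂.2.symm
    have t₃ : e₃.ThinCore H.ty := hthin.class_eq ht q₃.1.symm q₃.2.symm
    have key := hm.compat ![e₁, e₂, e₃] (by
        intro k
        fin_cases k
        · exact hΘ.thin _ t₁
        · exact hΘ.thin _ t₂
        · exact hΘ.thin _ t₃) (by
        intro k
        fin_cases k
        · exact hΘ.full ht t₁
        · exact hΘ.full ht t₂
        · exact hΘ.full ht t₃) (by
        have : ∀ k, H.ty (![e₁, e₂, e₃] k).src = H.ty e.src := by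
          intro k
          fin_cases k
          · exact q₁.1
          · exact q₂.1
          · exact q₃.1
        intro k k'
        rw [this k, this k']) (by
        have : ∀ k, H.ty (![e₁, e₂, e₃] k).tgt = H.ty e.tgt := by
          intro k
          fin_cases k
          · exact q₁.2
          · exact q₂.2
          · exact q₃.2
        intro k k'
        rw [this k, this k'])
    obtain ⟨k, k1, k2, k3, k4⟩ := key
    have e0 : (![e₁, e₂, e₃] : Fin 3 → H.Dart) 0 = e₁ := rfl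
    have e1 : (![e₁, e₂, e₃] : Fin 3 → H.Dart) 1 = e₂ := rfl
    have e2 : (![e₁, e₂, e₃] : Fin 3 → H.Dart) 2 = e₃ := rfl
    rw [e0, e1, e2] at k1 k2 k3 k4
    rw [h] at k1
    have hfl : e.fl = (![e₁, e₂, e₃] k).fl := Sum.inr.inj k1
    have f1 := fl_facts hfl
    have f2 := (Thin.flag_facts hΘ ht hthin hfl).2
    refine ⟨t₁, t₂, t₃, q₁.1, q₂.1, q₃.1, q₁.2, q₂.2, q₃.2, ?_, ?_, ?_⟩
    · rw [k2, f1.2.2.2]
    · rw [k3, f2]
    · intro hN
      rw [k4 (by rw [q₁.1]; exact hN), f1.1]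
  constructor
  · intro d e φ hv hw ha hb hthin
    obtain ⟨e₁, ha₁, r₁⟩ := hdart h₁ hv
    obtain ⟨e₂, ha₂, r₂⟩ := hdart h₂ hv
    obtain ⟨e₃, ha₃, r₃⟩ := hdart h₃ hv
    obtain ⟨f₁, hb₁, -⟩ := hdart k₁ hw
    obtain ⟨f₂, hb₂, -⟩ := hdart k₂ hw
    obtain ⟨f₃, hb₃, -⟩ := hdart k₃ hw
    rw [ha₁, ha₂, ha₃] at ha
    obtain ⟨t₁, t₂, t₃, -, -, -, -, -, -, q, -, -⟩ := hcompat r₁ r₂ r₃ ha hthin
    have p₁ := c₁.c1 d e₁ f₁.fl hv hw ha₁ hb₁ t₁
    have p₂ := c₂.c1 d e₂ f₂.fl hv hw ha₂ hb₂ t₂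
    have p₃ := c₃.c1 d e₃ f₃.fl hv hw ha₃ hb₃ t₃
    rw [hb₁, hb₂, hb₃, p₁, p₂, p₃, q] at hb
    exact (Sum.inr.inj hb).symm
  · intro d d' e e' hv hw hne hs ha hb hthin hts htt
    obtain ⟨e₁, ha₁, r₁⟩ := hdart h₁ hv
    obtain ⟨e₂, ha₂, r₂⟩ := hdart h₂ hv
    obtain ⟨e₃, ha₃, r₃⟩ := hdart h₃ hv
    obtain ⟨f₁, hb₁, s₁⟩ := hdart k₁ hw
    obtain ⟨f₂, hb₂, s₂⟩ := hdart k₂ hw
    obtain ⟨f₃, hb₃, s₃⟩ := hdart k₃ hw
    rw [ha₁, ha₂, ha₃] at ha
    rw [hb₁, hb₂, hb₃] at hb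
    obtain ⟨t₁, t₂, t₃, u₁, u₂, u₃, v₁, v₂, v₃, -, q, -⟩ := hcompat r₁ r₂ r₃ ha hthin
    have s := hrm s₁ s₂ s₃ hb
    have w₁ := Rm.cls_eq hG s₁ s
    have w₂ := Rm.cls_eq hG s₂ s
    have w₃ := Rm.cls_eq hG s₃ s
    have p₁ := c₁.c2 d d' e₁ f₁ hv hw hne hs ha₁ hb₁ t₁ (by rw [u₁, w₁.1, hts])
      (by rw [v₁, w₁.2, htt])
    have p₂ := c₂.c2 d d' e₂ f₂ hv hw hne hs ha₂ hb₂ t₂ (by rw [u₂, w₂.1, hts])
      (by rw [v₂, w₂.2, htt])
    have p₃ := c₃.c2 d d' e₃ f₃ hv hw hne hs ha₃ hb₃ t₃ (by rw [u₃, w₃.1, hts])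
      (by rw [v₃, w₃.2, htt])
    rw [p₁, p₂, p₃, q] at hb
    exact (Sum.inr.inj hb).symm
  · intro d x e hv hw ha hb hthin hN
    obtain ⟨x₁, ha₁, -⟩ := hvert h₁ hv
    obtain ⟨x₂, ha₂, -⟩ := hvert h₂ hv
    obtain ⟨x₃, ha₃, -⟩ := hvert h₃ hv
    obtain ⟨e₁, hb₁, r₁⟩ := hdart k₁ hw
    obtain ⟨e₂, hb₂, r₂⟩ := hdart k₂ hw
    obtain ⟨e₃, hb₃, r₃⟩ := hdart k₃ hw
    rw [hb₁, hb₂, hb₃] at hb
    obtain ⟨t₁, t₂, t₃, u₁, u₂, u₃, -, -, -, -, -, q⟩ := hcompat r₁ r₂ r₃ hb hthin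
    have p₁ := c₁.c3 d x₁ e₁ hv hw ha₁ hb₁ t₁ (by rw [u₁]; exact hN)
    have p₂ := c₂.c3 d x₂ e₂ hv hw ha₂ hb₂ t₂ (by rw [u₂]; exact hN)
    have p₃ := c₃.c3 d x₃ e₃ hv hw ha₃ hb₃ t₃ (by rw [u₃]; exact hN)
    rw [ha₁, ha₂, ha₃, p₁, p₂, p₃, q hN] at ha
    exact (Sum.inl.inj ha).symm
  · intro d x x' hd hv hw ha hb hgam hty
    obtain ⟨x₁, ha₁, r₁⟩ := hvert h₁ hv
    obtain ⟨x₂, ha₂, r₂⟩ := hvert h₂ hv
    obtain ⟨x₃, ha₃, r₃⟩ := hvert h₃ hv
    obtain ⟨y₁, hb₁, s₁⟩ := hvert k₁ hw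
    obtain ⟨y₂, hb₂, s₂⟩ := hvert k₂ hw
    obtain ⟨y₃, hb₃, s₃⟩ := hvert k₃ hw
    rw [ha₁, ha₂, ha₃] at ha
    rw [hb₁, hb₂, hb₃] at hb
    have hx : H.Sm G (G.src d) x := by
      rcases hmaj.cons (.inl x₁) (.inl x₂) (.inl x₃) with h' | h' | h'
      · rw [h'] at ha
        rw [← Sum.inl.inj ha]
        exact r₁
      · rw [h'] at ha
        rw [← Sum.inl.inj ha]
        exact r₂
      · rw [h'] at ha
        rw [← Sum.inl.inj ha]
        exact r₃
    have hy : H.Sm G (G.src (G.inv d)) x' := by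
      rcases hmaj.cons (.inl y₁) (.inl y₂) (.inl y₃) with h' | h' | h'
      · rw [h'] at hb
        rw [← Sum.inl.inj hb]
        exact s₁
      · rw [h'] at hb
        rw [← Sum.inl.inj hb]
        exact s₂
      · rw [h'] at hb
        rw [← Sum.inl.inj hb]
        exact s₃
    have p₁ := c₁.c4 d x₁ y₁ hd hv hw ha₁ hb₁ (by rw [Sm.ty_eq hG r₁ hx]; exact hgam)
      (by rw [Sm.ty_eq hG s₁ hy, Sm.ty_eq hG r₁ hx, hty])
    have p₂ := c₂.c4 d x₂ y₂ hd hv hw ha₂ hb₂ (by rw [Sm.ty_eq hG r₂ hx]; exact hgam)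
      (by rw [Sm.ty_eq hG s₂ hy, Sm.ty_eq hG r₂ hx, hty])
    have p₃ := c₃.c4 d x₃ y₃ hd hv hw ha₃ hb₃ (by rw [Sm.ty_eq hG r₃ hx]; exact hgam)
      (by rw [Sm.ty_eq hG s₃ hy, Sm.ty_eq hG r₃ hx, hty])
    rw [← p₁, ← p₂, ← p₃, ha] at hb
    exact Sum.inl.inj hb

/-- A path consistent family gives a solution. -/
theorem exists_sol [Finite V] [Nonempty V] [Finite E] (hG : G.Ok) (hΘ : Θ.Covers) (hm : ∃ m, Θ.Compat m)
    (h : ∃ P, Pc G Θ ga gb P ∧ ∀ v ∈ Vars G, ∃ a, P v v a a) : ∃ s, Sol G Θ ga gb s := by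
  obtain ⟨m, hm⟩ := hm
  obtain ⟨P₀, hP₀, hne⟩ := h
  let Q : W ⊕ D → W ⊕ D → V ⊕ (E × V) → V ⊕ (E × V) → Prop :=
    fun v w a b => ∃ P, Pc G Θ ga gb P ∧ P v w a b
  have hQ : Pc G Θ ga gb Q := by
    rintro v w a b ⟨P, hP, hab⟩
    obtain ⟨h1, h2, h3, h4, h5, h6, h7, h8⟩ := hP v w a b hab
    refine ⟨h1, h2, h3, h4, h5, ⟨P, hP, h6⟩, h7, ?_⟩
    intro u hu
    obtain ⟨c, hc1, hc2⟩ := h8 u hu
    exact ⟨c, ⟨P, hP, hc1⟩, ⟨P, hP, hc2⟩⟩
  have hQm : ∀ v w a₁ b₁ a₂ b₂ a₃ b₃, Q v w a₁ b₁ → Q v w a₂ b₂ → Q v w a₃ b₃ →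
      Q v w (m a₁ a₂ a₃) (m b₁ b₂ b₃) := by
    intro v w a₁ b₁ a₂ b₂ a₃ b₃ q₁ q₂ q₃
    refine ⟨fun v w a b => ∃ a₁ b₁ a₂ b₂ a₃ b₃, Q v w a₁ b₁ ∧ Q v w a₂ b₂ ∧ Q v w a₃ b₃ ∧
      a = m a₁ a₂ a₃ ∧ b = m b₁ b₂ b₃, ?_, a₁, b₁, a₂, b₂, a₃, b₃, q₁, q₂, q₃, rfl, rfl⟩
    rintro v w a b ⟨a₁, b₁, a₂, b₂, a₃, b₃, q₁, q₂, q₃, rfl, rfl⟩
    obtain ⟨h1, h2, h3, h4, h5, h6, h7, h8⟩ := hQ v w a₁ b₁ q₁
    obtain ⟨-, -, i3, i4, i5, i6, i7, i8⟩ := hQ v w a₂ b₂ q₂
    obtain ⟨-, -, j3, j4, j5, j6, j7, j8⟩ := hQ v w a₃ b₃ q₃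
    refine ⟨h1, h2, UC.maj hm.maj h3 i3 j3, UC.maj hm.maj h4 i4 j4,
      BC.maj hG hΘ hm h3 i3 j3 h4 i4 j4 h5 i5 j5, ⟨b₁, a₁, b₂, a₂, b₃, a₃, h6, i6, j6, rfl, rfl⟩,
      ?_, ?_⟩
    · intro hvw
      rw [h7 hvw, i7 hvw, j7 hvw]
    · intro u hu
      obtain ⟨x₁, y₁, z₁⟩ := h8 u hu
      obtain ⟨x₂, y₂, z₂⟩ := i8 u hu
      obtain ⟨x₃, y₃, z₃⟩ := j8 u hu
      exact ⟨m x₁ x₂ x₃, ⟨a₁, x₁, a₂, x₂, a₃, x₃, y₁, y₂, y₃, rfl, rfl⟩,
        ⟨x₁, b₁, x₂, b₂, x₃, b₃, z₁, z₂, z₃, rfl, rfl⟩⟩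
  have hfin : (Vars G).Finite := by
    have h1 : Vars G = Sum.inl '' {u | u ∈ G.Vs} ∪ Sum.inr '' {d | d ∈ G.Ds} := by
      ext z
      constructor
      · rintro (⟨u, hu, rfl⟩ | ⟨d, hd, rfl⟩)
        · exact Or.inl ⟨u, hu, rfl⟩
        · exact Or.inr ⟨d, hd, rfl⟩
      · rintro (⟨u, hu, rfl⟩ | ⟨d, hd, rfl⟩)
        · exact Or.inl ⟨u, hu, rfl⟩
        · exact Or.inr ⟨d, hd, rfl⟩
    rw [h1]
    exact ((List.finite_toSet G.Vs).image _).union ((List.finite_toSet G.Ds).image _)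
  obtain ⟨s, hs⟩ := exists_of_path (Vars G) hfin Q m hm.maj.left hm.maj.mid hm.maj.right hQm
    (fun v w a b hab => (hQ v w a b hab).2.2.2.2.2.1)
    (fun v a b hab => (hQ v v a b hab).2.2.2.2.2.2.1 rfl)
    (fun v w a b hab => (hQ v w a b hab).2.2.2.2.2.2.2)
    (fun v hv => by
      obtain ⟨a, ha⟩ := hne v hv
      exact ⟨a, P₀, hP₀, ha⟩)
  exact ⟨s, fun v hv => (hQ v v _ _ (hs v hv v hv)).2.2.1,
    fun v hv w hw => (hQ v w _ _ (hs v hv w hw)).2.2.2.2.1⟩

/-- A solution gives a path consistent family. -/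
theorem Sol.exists_pc {s : W ⊕ D → V ⊕ (E × V)} (h : Sol G Θ ga gb s) :
    ∃ P, Pc G Θ ga gb P ∧ ∀ v ∈ Vars G, ∃ a, P v v a a := by
  refine ⟨fun v w a b => v ∈ Vars G ∧ w ∈ Vars G ∧ a = s v ∧ b = s w, ?_,
    fun v hv => ⟨s v, hv, hv, rfl, rfl⟩⟩
  rintro v w a b ⟨hv, hw, rfl, rfl⟩
  refine ⟨hv, hw, h.un v hv, h.un w hw, h.bin v hv w hw, ⟨hw, hv, rfl, rfl⟩, ?_, ?_⟩
  · intro hvw
    rw [hvw]
  · intro u hu
    exact ⟨s u, ⟨hv, hu, rfl, rfl⟩, ⟨hu, hw, rfl, rfl⟩⟩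

end Graph

end Pool.Agent.Lib.MP_9c5086_lc
end

section

/-!
A covering projection gives a solution of the constraint satisfaction problem.
-/

namespace Pool.Agent.Lib.MP_9c5086_lc

namespace Graph

variable {W D V E : Type} [DecidableEq V] {H : Graph V E} {G : LG W D V E}
  {Θ : Thin H H.ty} {ga gb : V → E}

/-- The dart of `H` with the flag given by a covering projection. -/
private theorem IsCov.dart [Finite V] [Finite E] (hG : G.Ok) {fv : W → V} {fe : D → E}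
    (h : H.IsCov G fv fe) {d : D} (hd : d ∈ G.Ds) :
    ∃ e : H.Dart, e.fl = (fe d, fv (G.src d)) ∧ e.edge = fe d ∧ e.src = fv (G.src d) ∧
      e.tgt = fv (G.src (G.inv d)) := by
  obtain ⟨e, he⟩ := (h.rm hG hd).exists_dart
  have h1 : e.edge = fe d := congrArg Prod.fst he
  have h2 : e.src = fv (G.src d) := congrArg Prod.snd he
  refine ⟨e, he, h1, h2, ?_⟩
  have h3 := e.joins
  rw [h1, h2] at h3
  exact h3.unique (h.joins d hd)

private theorem IsCov.tgt_eq {fv : W → V} {fe : D → E} (h : H.IsCov G fv fe) {d : D}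
    (hd : d ∈ G.Ds) {e : H.Dart} (he : e.fl = (fe d, fv (G.src d))) :
    e.tgt = fv (G.src (G.inv d)) := by
  have h1 : e.edge = fe d := congrArg Prod.fst he
  have h2 : e.src = fv (G.src d) := congrArg Prod.snd he
  have h3 := e.joins
  rw [h1, h2] at h3
  exact h3.unique (h.joins d hd)

/-- The darts mapped to the edges `gb x` form a factor. -/
theorem IsCov.feas [Finite V] [Finite E] (hG : G.Ok) (hT : H.Tame H.ty) (hE : H.GEdges ga gb)
    {fv : W → V} {fe : D → E} (h : H.IsCov G fv fe) {u : W} (hu : u ∈ G.Vs)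
    (hx : H.Gam H.ty (H.ty (fv u))) : H.Feas G ga gb u (fv u) := by
  -- gamma darts at vertices with value `fv u`
  have key : ∀ d ∈ G.Ds, fv (G.src d) = fv u → H.GD G ga gb (fv u) d →
      ∃ e : H.Dart, e.edge = fe d ∧ e.src = fv u ∧ e.tgt = fv (G.src (G.inv d)) ∧
        e.tgt = fv u ∧ H.ty e.tgt = H.ty (fv u) := by
    intro d hd hdu hgd
    obtain ⟨e, he, h1, h2, h3⟩ := h.dart hG hd
    have hrm := h.rm hG hd
    rw [← he] at hrm
    have hsm := h.sm hG (hG.src_mem d hd)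
    rw [hdu] at hsm
    have h4 := (gd_iff hG hE hx hsm hrm).1 hgd
    have h5 : H.Gam H.ty (H.ty e.src) := by
      rw [h2, hdu]
      exact hx
    have h6 := (hT.gam_dart equitable_ty h5 (by rw [h4, h2, hdu])).2.1
    exact ⟨e, h1, by rw [h2, hdu], h3, by rw [h6, h2, hdu], h4⟩
  have hC : ∀ v, H.GConn G ga gb (fv u) u v → v ∈ G.Vs ∧ fv v = fv u := by
    intro v hv
    unfold GConn at hv
    induction hv with
    | refl => exact ⟨hu, rfl⟩
    | tail _ hw ih =>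
      obtain ⟨d, hd, hd1, hd2, hgd⟩ := hw
      have h1 : fv (G.src d) = fv u := by
        rw [hd1]
        exact ih.2
      obtain ⟨e, _, _, h3, h4, _⟩ := key d hd h1 hgd
      constructor
      · rw [← hd2]
        exact hG.src_mem _ (hG.inv_mem d hd)
      · rw [← hd2, ← h3, h4]
  refine ⟨{d | fe d = gb (fv u)}, ⟨?_, ?_, ?_, ?_⟩⟩
  · intro d hd _ _
    change fe (G.inv d) = gb (fv u) ↔ fe d = gb (fv u)
    rw [h.inv d hd]
  · intro d hd hdC _ hdB
    have hdB' : fe d = gb (fv u) := hdB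
    have h1 := h.rm hG hd
    rw [(hC _ hdC).2, hdB'] at h1
    exact h1
  · intro d hd hdC hgd hdB
    have hdB' : fe d ≠ gb (fv u) := hdB
    have h1 := h.rm hG hd
    obtain ⟨e, h2, h3, _, _, h4⟩ := key d hd (hC _ hdC).2 hgd
    rcases (hE _ hx).2.2.2.2.2 e h3 h4 with h5 | h5
    · rw [(hC _ hdC).2, ← h2, h5] at h1
      exact h1
    · exact absurd (h2.symm.trans h5) hdB'
  · intro v hv
    obtain ⟨hvV, hvx⟩ := hC v hv
    have h1 := h.count v hvV (gb (fv u))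
    rw [mult_eq_inc]
    change _ = H.inc (gb (fv u)) (fv u)
    rw [hvx] at h1
    rw [← h1]
    congr 1
    ext d
    constructor
    · rintro ⟨hd1, _, hd2⟩
      exact ⟨hd1, hd2⟩
    · rintro ⟨hd1, hd2⟩
      refine ⟨hd1, ?_, hd2⟩
      right
      have h3 := h.rm hG hd1.1
      rw [hd1.2, hvx, hd2] at h3
      exact h3

/-- A covering projection gives a solution of the constraint satisfaction problem. -/
theorem IsCov.exists_sol [Finite V] [Finite E] (hG : G.Ok) (hT : H.Tame H.ty) (hΘ : Θ.Covers)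
    (hE : H.GEdges ga gb) {fv : W → V} {fe : D → E} (h : H.IsCov G fv fe) :
    ∃ s, Sol G Θ ga gb s := by
  let s : W ⊕ D → V ⊕ (E × V) := fun v =>
    match v with
    | .inl u => .inl (fv u)
    | .inr d => .inr (fe d, fv (G.src d))
  have hs1 : ∀ u, s (.inl u) = .inl (fv u) := fun _ => rfl
  have hs2 : ∀ d, s (.inr d) = .inr (fe d, fv (G.src d)) := fun _ => rfl
  have hmem : ∀ {d : D}, (Sum.inr d : W ⊕ D) ∈ Vars G → d ∈ G.Ds := by
    intro d hd
    rcases hd with ⟨u, _, hu⟩ | ⟨d', hd', hd⟩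
    · cases hu
    · cases hd
      exact hd'
  refine ⟨s, ⟨?_, ?_⟩⟩
  · intro v hv
    rcases hv with ⟨u, hu, rfl⟩ | ⟨d, hd, rfl⟩
    · left
      exact ⟨u, fv u, rfl, hs1 u, h.sm hG hu, fun hx => h.feas hG hT hE hu hx⟩
    · right
      exact ⟨d, (fe d, fv (G.src d)), rfl, hs2 d, h.rm hG hd⟩
  · intro v hv w hw
    refine ⟨?_, ?_, ?_, ?_⟩
    · rintro d e φ rfl rfl ha hb _
      have hd := hmem hv
      rw [hs2] at ha hb
      have he : e.fl = (fe d, fv (G.src d)) := (Sum.inr.inj ha).symm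
      have hφ : φ = (fe (G.inv d), fv (G.src (G.inv d))) := (Sum.inr.inj hb).symm
      have h1 : e.inv.fl = (e.edge, e.tgt) := by
        unfold Dart.fl
        rw [Dart.edge_inv, Dart.src_inv]
      have h2 : e.edge = fe d := congrArg Prod.fst he
      rw [h1, hφ, h.tgt_eq hd he, h.inv d hd, h2]
    · rintro d d' e e' rfl rfl hne hsrc ha hb hth _ htgt
      have hd := hmem hv
      have hd' := hmem hw
      rw [hs2] at ha hb
      have he : e.fl = (fe d, fv (G.src d)) := (Sum.inr.inj ha).symm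
      have he' : e'.fl = (fe d', fv (G.src d')) := (Sum.inr.inj hb).symm
      have h1 : e.src = fv (G.src d) := congrArg Prod.snd he
      have h2 : e'.src = fv (G.src d') := congrArg Prod.snd he'
      have h3 : e'.src = e.src := by rw [h1, h2, hsrc]
      rcases hΘ.only_tau equitable_ty hth h3 htgt.symm with h4 | h4
      · by_contra hcon
        rw [h4] at hcon
        have hm : H.mult e.fl = 1 := by
          unfold mult
          rw [Set.ncard_eq_one]
          refine ⟨e, ?_⟩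
          ext f
          constructor
          · intro hf
            obtain ⟨g1, g2, _, _⟩ := fl_facts (show f.fl = e.fl from hf)
            rcases hΘ.only_tau equitable_ty hth g1 (by rw [g2]) with g3 | g3
            · exact g3
            · exfalso
              apply hcon
              rw [← g3]
              exact (show f.fl = e.fl from hf).symm
          · intro hf
            rw [Set.mem_singleton_iff] at hf
            rw [hf]
            rfl
        have hfe : fe d' = fe d := by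
          rw [h4] at he'
          have g1 := he'.symm.trans he
          exact congrArg Prod.fst g1
        have hc := h.count (G.src d) (hG.src_mem d hd) (fe d)
        rw [mult_eq_inc, he] at hm
        change H.inc (fe d) (fv (G.src d)) = 1 at hm
        rw [hm, Set.ncard_eq_one] at hc
        obtain ⟨c, hc⟩ := hc
        have g1 : d ∈ ({c} : Set D) := by
          rw [← hc]
          exact ⟨⟨hd, rfl⟩, rfl⟩
        have g2 : d' ∈ ({c} : Set D) := by
          rw [← hc]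
          exact ⟨⟨hd', hsrc.symm⟩, hfe⟩
        rw [Set.mem_singleton_iff] at g1 g2
        exact hne (g1.trans g2.symm)
      · rw [h4]
    · rintro d x e rfl rfl ha hb _ _
      rw [hs1] at ha
      rw [hs2] at hb
      have he : e.fl = (fe d, fv (G.src d)) := (Sum.inr.inj hb).symm
      have h1 : e.src = fv (G.src d) := congrArg Prod.snd he
      rw [h1]
      exact (Sum.inl.inj ha).symm
    · rintro d x x' hd rfl rfl ha hb hx hty
      rw [hs1] at ha hb
      have h1 : fv (G.src d) = x := Sum.inl.inj ha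
      have h2 : fv (G.src (G.inv d)) = x' := Sum.inl.inj hb
      obtain ⟨e, _, _, h4, h5⟩ := h.dart hG hd
      have h6 : H.Gam H.ty (H.ty e.src) := by
        rw [h4, h1]
        exact hx
      have h7 := (hT.gam_dart equitable_ty h6 (by rw [h4, h5, h1, h2, hty])).2.1
      rw [h4, h5, h1, h2] at h7
      exact h7.symm

end Graph

end Pool.Agent.Lib.MP_9c5086_lc
end

section

/-!
Local maps at the vertices of the core.
-/

namespace Pool.Agent.Lib.MP_9c5086_lc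

namespace Graph

variable {W D V E : Type} [DecidableEq V] {H : Graph V E} {G : LG W D V E}
  {Θ : Thin H H.ty} {ga gb : V → E}

/-- The flags of the darts with core data; `ψ'` is the local map at the source. -/
noncomputable def coreMap (G : LG W D V E) (ga gb : V → E) (x : W → V) (sd : D → H.Dart)
    (B : W → Set D) (ψ' : W → D → E × V) (d : D) : E × V :=
  open scoped Classical in
  if (sd d).ThinCore H.ty then (sd d).fl
  else if H.Gam H.ty (H.ty (x (G.src d))) ∧ H.GD G ga gb (x (G.src d)) d then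
    (if d ∈ B (G.src d) then (gb (x (G.src d)), x (G.src d)) else (ga (x (G.src d)), x (G.src d)))
  else ψ' (G.src d) d

private theorem coreMap_thin {x : W → V} {sd : D → H.Dart} {B : W → Set D}
    {ψ' : W → D → E × V} {d : D} (h : (sd d).ThinCore H.ty) :
    coreMap G ga gb x sd B ψ' d = (sd d).fl := by
  unfold coreMap
  rw [if_pos h]

private theorem coreMap_gb {x : W → V} {sd : D → H.Dart} {B : W → Set D}
    {ψ' : W → D → E × V} {d : D} (h : ¬ (sd d).ThinCore H.ty)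
    (h1 : H.Gam H.ty (H.ty (x (G.src d))) ∧ H.GD G ga gb (x (G.src d)) d)
    (h2 : d ∈ B (G.src d)) :
    coreMap G ga gb x sd B ψ' d = (gb (x (G.src d)), x (G.src d)) := by
  unfold coreMap
  rw [if_neg h, if_pos h1, if_pos h2]

private theorem coreMap_ga {x : W → V} {sd : D → H.Dart} {B : W → Set D}
    {ψ' : W → D → E × V} {d : D} (h : ¬ (sd d).ThinCore H.ty)
    (h1 : H.Gam H.ty (H.ty (x (G.src d))) ∧ H.GD G ga gb (x (G.src d)) d)
    (h2 : d ∉ B (G.src d)) :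
    coreMap G ga gb x sd B ψ' d = (ga (x (G.src d)), x (G.src d)) := by
  unfold coreMap
  rw [if_neg h, if_pos h1, if_neg h2]

private theorem coreMap_other {x : W → V} {sd : D → H.Dart} {B : W → Set D}
    {ψ' : W → D → E × V} {d : D} (h : ¬ (sd d).ThinCore H.ty)
    (h1 : ¬ (H.Gam H.ty (H.ty (x (G.src d))) ∧ H.GD G ga gb (x (G.src d)) d)) :
    coreMap G ga gb x sd B ψ' d = ψ' (G.src d) d := by
  unfold coreMap
  rw [if_neg h, if_neg h1]

/-- The classes of the chosen flags. -/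
private theorem cls_sd [Finite V] [Finite E] (hG : G.Ok) {x : W → V} {sd : D → H.Dart}
    {B : W → Set D} (h : CoreData G Θ ga gb x sd B) {d : D} {e : H.Dart} (hd : d ∈ G.Ds)
    (he : H.Rm G d e.fl) : H.ty (sd d).src = H.ty e.src ∧ H.ty (sd d).tgt = H.ty e.tgt :=
  Rm.cls_eq hG (h.rm d hd) he

/-- The kind of a dart is the kind of its flag. -/
private theorem not_thin_of_flag [Finite V] [Finite E] (hG : G.Ok) (hE : H.GEdges ga gb) {x : W → V} {sd : D → H.Dart} {B : W → Set D}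
    (h : CoreData G Θ ga gb x sd B) {ψ' : W → D → E × V} {u : W}
    (hψ : H.StarOk G (H.Rm G) u (x u) (ψ' u)) {f : H.Dart}
    {d : D} (hd : d ∈ G.star u) (hc : coreMap G ga gb x sd B ψ' d = f.fl) :
    ((sd d).ThinCore H.ty ↔ f.ThinCore H.ty) ∧
    ((H.Gam H.ty (H.ty (x u)) ∧ H.GD G ga gb (x u) d) ↔
      (H.Gam H.ty (H.ty (x u)) ∧ H.ty f.tgt = H.ty (x u))) := by
  have ht : H.Equitable H.ty := equitable_ty
  obtain ⟨hd1, hd2⟩ := hd
  subst hd2
  have hrm : H.Rm G d f.fl := by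
    by_cases h1 : (sd d).ThinCore H.ty
    · rw [coreMap_thin h1] at hc
      rw [← hc]
      exact h.rm d hd1
    · by_cases h2 : H.Gam H.ty (H.ty (x (G.src d))) ∧ H.GD G ga gb (x (G.src d)) d
      · by_cases h3 : d ∈ B (G.src d)
        · rw [coreMap_gb h1 h2 h3] at hc
          rw [← hc]
          exact h.fmem d hd1 h2.1 h2.2 h3
        · rw [coreMap_ga h1 h2 h3] at hc
          rw [← hc]
          exact h.fnot d hd1 h2.1 h2.2 h3
      · rw [coreMap_other h1 h2] at hc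
        rw [← hc]
        exact hψ.rel d ⟨hd1, rfl⟩
  obtain ⟨hc1, hc2⟩ := cls_sd hG h hd1 hrm
  refine ⟨⟨fun h1 => h1.class_eq ht hc1 hc2, fun h1 => h1.class_eq ht hc1.symm hc2.symm⟩, ?_⟩
  refine and_congr_right fun hg => ?_
  exact gd_iff hG hE hg (h.sm _ (hG.src_mem d hd1)) hrm

private theorem rm_coreMap [Finite V] [Finite E] {x : W → V} {sd : D → H.Dart}
    {B : W → Set D} (h : CoreData G Θ ga gb x sd B) {ψ' : W → D → E × V} {u : W}
    (hψ : H.StarOk G (H.Rm G) u (x u) (ψ' u)) {d : D} (hd : d ∈ G.star u) :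
    H.Rm G d (coreMap G ga gb x sd B ψ' d) ∧ (coreMap G ga gb x sd B ψ' d).2 = x u := by
  obtain ⟨hd1, hd2⟩ := hd
  subst hd2
  by_cases h1 : (sd d).ThinCore H.ty
  · rw [coreMap_thin h1]
    exact ⟨h.rm d hd1, h.src d hd1 h1⟩
  · by_cases h2 : H.Gam H.ty (H.ty (x (G.src d))) ∧ H.GD G ga gb (x (G.src d)) d
    · by_cases h3 : d ∈ B (G.src d)
      · rw [coreMap_gb h1 h2 h3]
        exact ⟨h.fmem d hd1 h2.1 h2.2 h3, rfl⟩
      · rw [coreMap_ga h1 h2 h3]
        exact ⟨h.fnot d hd1 h2.1 h2.2 h3, rfl⟩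
    · rw [coreMap_other h1 h2]
      exact ⟨hψ.rel d ⟨hd1, rfl⟩, hψ.src d ⟨hd1, rfl⟩⟩

private theorem mult_ga (hE : H.GEdges ga gb) {y : V} (hy : H.Gam H.ty (H.ty y)) :
    H.mult (ga y, y) = 2 := by
  obtain ⟨-, h1, h2, -⟩ := hE y hy
  have hs : (H.b (ga y)).isSome = true := by rw [h2]; rfl
  obtain ⟨d₁, hd₁, hd₁'⟩ : ∃ d : H.Dart, d.edge = ga y ∧ d.1.2 = false :=
    ⟨⟨(ga y, false), fun h => by simp at h⟩, rfl, rfl⟩
  obtain ⟨d₂, hd₂, hd₂'⟩ : ∃ d : H.Dart, d.edge = ga y ∧ d.1.2 = true :=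
    ⟨⟨(ga y, true), fun _ => hs⟩, rfl, rfl⟩
  have e1 : d₁.1.1 = ga y := hd₁
  have e2 : d₂.1.1 = ga y := hd₂
  have s1 : d₁.src = y := by
    unfold Dart.src
    rw [hd₁', e1]
    simpa using h1
  have s2 : d₂.src = y := by
    unfold Dart.src
    rw [hd₂', e2, h2]
    simp
  have hne : d₁ ≠ d₂ := by
    intro hh
    rw [hh, hd₂'] at hd₁'
    exact absurd hd₁' (by decide)
  have hset : {d : H.Dart | d.fl = (ga y, y)} = {d₁, d₂} := by
    apply Set.Subset.antisymm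
    · intro d hd
      have he : d.edge = ga y := congrArg Prod.fst hd
      change d = d₁ ∨ d = d₂
      cases hk : d.1.2
      · left
        apply Dart.ext_iff'.2
        apply Prod.ext
        · rw [e1]; exact he
        · rw [hk, hd₁']
      · right
        apply Dart.ext_iff'.2
        apply Prod.ext
        · rw [e2]; exact he
        · rw [hk, hd₂']
    · rintro d (hd | hd)
      · rw [hd]
        change (d₁.edge, d₁.src) = (ga y, y)
        rw [hd₁, s1]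
      · rw [Set.mem_singleton_iff.1 hd]
        change (d₂.edge, d₂.src) = (ga y, y)
        rw [hd₂, s2]
  unfold mult
  rw [hset, Set.ncard_pair hne]

/-- The flags of thin core darts are taken the right number of times. -/
theorem CoreData.count_thin [Finite V] [Finite E] (hG : G.Ok) (hT : H.Tame H.ty)
    (hΘ : Θ.Covers) (hE : H.GEdges ga gb) {x : W → V} {sd : D → H.Dart} {B : W → Set D}
    (h : CoreData G Θ ga gb x sd B) {ψ' : W → D → E × V} {u : W} (hu : u ∈ G.Vs)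
    (hψ : H.StarOk G (H.Rm G) u (x u) (ψ' u)) {f : H.Dart} (hf : f.ThinCore H.ty)
    (hs : f.src = x u) :
    {d | d ∈ G.star u ∧ coreMap G ga gb x sd B ψ' d = f.fl}.ncard = H.mult f.fl := by
  classical
  have ht : H.Equitable H.ty := equitable_ty
  have hfs : f ∈ Θ.sel := hΘ.thin f hf
  obtain ⟨β, hβ, hβ'⟩ := hψ.exists_bij
  -- the darts of the class of `f` at `u`
  have hcls : ∀ d ∈ G.star u, H.ty (β d).tgt = H.ty f.tgt →
      (sd d).ThinCore H.ty ∧ (sd d = f ∨ sd d = Θ.tau f) := by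
    intro d hd hc
    have hrm : H.Rm G d (β d).fl := by rw [hβ' d hd]; exact hψ.rel d hd
    have hb : (β d).src = x u := hβ.mapsTo hd
    obtain ⟨h1, h2⟩ := cls_sd hG h hd.1 hrm
    have h3 : (sd d).ThinCore H.ty :=
      hf.class_eq ht (by rw [h1, hb, hs]) (by rw [h2, hc])
    refine ⟨h3, hΘ.only_tau ht hf ?_ (by rw [h2, hc])⟩
    rw [h.src d hd.1 h3, hd.2, hs]
  have hT' : {d | d ∈ G.star u ∧ coreMap G ga gb x sd B ψ' d = f.fl} =
      {d | d ∈ G.star u ∧ H.ty (β d).tgt = H.ty f.tgt ∧ (sd d).fl = f.fl} := by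
    ext d
    simp only [Set.mem_ofPred_eq]
    refine and_congr_right fun hd => ?_
    constructor
    · intro hc
      obtain ⟨h1, -⟩ := not_thin_of_flag hG hE h hψ hd hc
      have h2 := h1.2 hf
      rw [coreMap_thin h2] at hc
      refine ⟨?_, hc⟩
      have hrm : H.Rm G d (β d).fl := by rw [hβ' d hd]; exact hψ.rel d hd
      obtain ⟨-, h4⟩ := cls_sd hG h hd.1 hrm
      rw [← h4, (fl_facts hc).2.1]
    · rintro ⟨h1, h2⟩
      rw [coreMap_thin (hcls d hd h1).1, h2]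
  rw [hT']
  obtain ⟨d0, hd0, hb0⟩ := hβ.surjOn (show f ∈ {e : H.Dart | e.src = x u} from hs)
  have hM : H.mult f.fl = {e : H.Dart | (e = f ∨ e = Θ.tau f) ∧ e.fl = f.fl}.ncard := by
    unfold mult
    congr 1
    ext e
    simp only [Set.mem_ofPred_eq]
    refine ⟨fun he => ⟨?_, he⟩, fun he => he.2⟩
    obtain ⟨h1, h2, -⟩ := fl_facts he
    exact hΘ.only_tau ht hf h1 (by rw [h2])
  rw [hM]
  by_cases hne : Θ.tau f = f
  · -- a single dart
    have h1 : {d | d ∈ G.star u ∧ H.ty (β d).tgt = H.ty f.tgt ∧ (sd d).fl = f.fl} = {d0} := by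
      ext d
      simp only [Set.mem_ofPred_eq, Set.mem_singleton_iff]
      constructor
      · rintro ⟨h1, h2, -⟩
        rcases hΘ.only_tau ht hf (show (β d).src = f.src by rw [hs]; exact hβ.mapsTo h1) h2
          with h3 | h3
        · exact hβ.injOn h1 hd0 (by rw [h3, hb0])
        · exact hβ.injOn h1 hd0 (by rw [h3, hb0, hne])
      · rintro rfl
        have h2 : H.ty (β d).tgt = H.ty f.tgt := by rw [hb0]
        refine ⟨hd0, h2, ?_⟩
        rcases (hcls d hd0 h2).2 with h3 | h3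
        · rw [h3]
        · rw [h3, hne]
    have h2 : {e : H.Dart | (e = f ∨ e = Θ.tau f) ∧ e.fl = f.fl} = {f} := by
      ext e
      simp only [Set.mem_ofPred_eq, Set.mem_singleton_iff, hne, or_self]
      exact ⟨fun he => he.1, fun he => ⟨he, by rw [he]⟩⟩
    rw [h1, h2, Set.ncard_singleton, Set.ncard_singleton]
  · -- two darts
    have hts : (Θ.tau f).src = x u := by rw [Θ.tau_src f hfs, hs]
    have htt : H.ty (Θ.tau f).tgt = H.ty f.tgt := Θ.tau_ty f hfs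
    obtain ⟨d1, hd1, hb1⟩ := hβ.surjOn (show Θ.tau f ∈ {e : H.Dart | e.src = x u} from hts)
    have hd01 : d0 ≠ d1 := by
      intro hh
      apply hne
      rw [← hb1, ← hb0, hh]
    have hc0 := hcls d0 hd0 (by rw [hb0])
    have hc1 := hcls d1 hd1 (by rw [hb1, htt])
    have hmem : ∀ d, (d ∈ G.star u ∧ H.ty (β d).tgt = H.ty f.tgt) ↔ (d = d0 ∨ d = d1) := by
      intro d
      constructor
      · rintro ⟨h1, h2⟩
        rcases hΘ.only_tau ht hf (show (β d).src = f.src by rw [hs]; exact hβ.mapsTo h1) h2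
          with h3 | h3
        · exact Or.inl (hβ.injOn h1 hd0 (by rw [h3, hb0]))
        · exact Or.inr (hβ.injOn h1 hd1 (by rw [h3, hb1]))
      · rintro (rfl | rfl)
        · exact ⟨hd0, by rw [hb0]⟩
        · exact ⟨hd1, by rw [hb1, htt]⟩
    have hss : H.ty (sd d0).src = H.ty (sd d1).src := by
      rw [h.src d0 hd0.1 hc0.1, h.src d1 hd1.1 hc1.1, hd0.2, hd1.2]
    have htg : H.ty (sd d0).tgt = H.ty (sd d1).tgt := by
      have a0 : H.ty (sd d0).tgt = H.ty f.tgt := by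
        rcases hc0.2 with h3 | h3
        · rw [h3]
        · rw [h3, htt]
      have a1 : H.ty (sd d1).tgt = H.ty f.tgt := by
        rcases hc1.2 with h3 | h3
        · rw [h3]
        · rw [h3, htt]
      rw [a0, a1]
    have htau : (sd d1).fl = (Θ.tau (sd d0)).fl :=
      h.tau d0 hd0.1 d1 hd1.1 hd01 (by rw [hd0.2, hd1.2]) hc0.1 hss htg
    have hset : {d | d ∈ G.star u ∧ H.ty (β d).tgt = H.ty f.tgt ∧ (sd d).fl = f.fl} =
        {d | (d = d0 ∨ d = d1) ∧ (sd d).fl = f.fl} := by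
      ext d
      simp only [Set.mem_ofPred_eq, ← hmem d, and_assoc]
    rw [hset]
    rcases hc0.2 with h3 | h3
    · -- `sd d0 = f`
      rw [h3] at htau
      refine Set.ncard_congr (fun d _ => if d = d0 then f else Θ.tau f) ?_ ?_ ?_
      · rintro d ⟨h1, h2⟩
        simp only [Set.mem_ofPred_eq]
        split_ifs with h4
        · exact ⟨Or.inl rfl, rfl⟩
        · refine ⟨Or.inr rfl, ?_⟩
          rw [← htau, ← h2, h1.resolve_left h4]
      · rintro d d' ⟨h1, -⟩ ⟨h2, -⟩ h5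
        split_ifs at h5 with h6 h7 h7
        · rw [h6, h7]
        · exact absurd h5.symm hne
        · exact absurd h5 hne
        · rw [h1.resolve_left h6, h2.resolve_left h7]
      · rintro e ⟨h1, h2⟩
        rcases h1 with h1 | h1
        · exact ⟨d0, ⟨Or.inl rfl, by rw [h3]⟩, by simp [h1]⟩
        · refine ⟨d1, ⟨Or.inr rfl, by rw [htau, ← h1, h2]⟩, ?_⟩
          simp [hd01.symm, h1]
    · -- `sd d0 = tau f`
      rw [h3, Θ.tau_tau f hfs] at htau
      refine Set.ncard_congr (fun d _ => if d = d1 then f else Θ.tau f) ?_ ?_ ?_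
      · rintro d ⟨h1, h2⟩
        simp only [Set.mem_ofPred_eq]
        split_ifs with h4
        · exact ⟨Or.inl rfl, rfl⟩
        · refine ⟨Or.inr rfl, ?_⟩
          rw [← h3, ← h2, h1.resolve_right h4]
      · rintro d d' ⟨h1, -⟩ ⟨h2, -⟩ h5
        split_ifs at h5 with h6 h7 h7
        · rw [h6, h7]
        · exact absurd h5.symm hne
        · exact absurd h5 hne
        · rw [h1.resolve_right h6, h2.resolve_right h7]
      · rintro e ⟨h1, h2⟩
        rcases h1 with h1 | h1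
        · exact ⟨d1, ⟨Or.inr rfl, htau⟩, by simp [h1]⟩
        · refine ⟨d0, ⟨Or.inl rfl, by rw [h3, ← h1, h2]⟩, ?_⟩
          simp [hd01, h1]

/-- The flags of the gamma blocks are taken the right number of times. -/
theorem CoreData.count_gam [Finite V] [Finite E] (hG : G.Ok) (hT : H.Tame H.ty)
    (hΘ : Θ.Covers) (hE : H.GEdges ga gb) {x : W → V} {sd : D → H.Dart} {B : W → Set D}
    (h : CoreData G Θ ga gb x sd B) {ψ' : W → D → E × V} {u : W} (hu : u ∈ G.Vs)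
    (hψ : H.StarOk G (H.Rm G) u (x u) (ψ' u)) {f : H.Dart} (hf : H.Gam H.ty (H.ty (x u)))
    (hg : H.ty f.tgt = H.ty (x u)) (hs : f.src = x u) :
    {d | d ∈ G.star u ∧ coreMap G ga gb x sd B ψ' d = f.fl}.ncard = H.mult f.fl := by
  have ht : H.Equitable H.ty := equitable_ty
  have hGE := hE (x u) hf
  obtain ⟨hab, -⟩ := hGE
  have hthree : 3 ≤ H.classSize H.ty f.src (H.ty f.tgt) :=
    (hT.gam_dart ht (d := f) (by rw [hs]; exact hf) (by rw [hs]; exact hg)).2.2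
  have hnt : ¬ f.ThinCore H.ty := fun h1 => by
    have := h1.2
    omega
  -- gamma darts at `u`
  have hgd : ∀ d ∈ G.star u, H.GD G ga gb (x u) d → ¬ (sd d).ThinCore H.ty := by
    intro d hd hd' h1
    have h2 := (gd_iff hG hE hf (by rw [hd.2]; exact h.sm u hu) (h.rm d hd.1)).1 hd'
    have h3 := h.src d hd.1 h1
    rw [hd.2] at h3
    have h4 := (hT.gam_dart ht (d := sd d) (by rw [h3]; exact hf) (by rw [h3]; exact h2)).2.2
    have := h1.2
    omega
  have key : ∀ d ∈ G.star u, (coreMap G ga gb x sd B ψ' d = f.fl ↔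
      H.GD G ga gb (x u) d ∧ ((d ∈ B u ∧ (gb (x u), x u) = f.fl) ∨
        (d ∉ B u ∧ (ga (x u), x u) = f.fl))) := by
    intro d hd
    have hsrc : G.src d = u := hd.2
    constructor
    · intro hc
      obtain ⟨h1, h2⟩ := not_thin_of_flag hG hE h hψ hd hc
      have h3 := h2.2 ⟨hf, hg⟩
      have h4 : ¬ (sd d).ThinCore H.ty := fun h5 => hnt (h1.1 h5)
      refine ⟨h3.2, ?_⟩
      by_cases h5 : d ∈ B u
      · left
        rw [coreMap_gb h4 (by rw [hsrc]; exact h3) (by rw [hsrc]; exact h5), hsrc] at hc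
        exact ⟨h5, hc⟩
      · right
        rw [coreMap_ga h4 (by rw [hsrc]; exact h3) (by rw [hsrc]; exact h5), hsrc] at hc
        exact ⟨h5, hc⟩
    · rintro ⟨h1, h2⟩
      have h4 := hgd d hd h1
      rcases h2 with ⟨h5, h6⟩ | ⟨h5, h6⟩
      · rw [coreMap_gb h4 (by rw [hsrc]; exact ⟨hf, h1⟩) (by rw [hsrc]; exact h5), hsrc]
        exact h6
      · rw [coreMap_ga h4 (by rw [hsrc]; exact ⟨hf, h1⟩) (by rw [hsrc]; exact h5), hsrc]
        exact h6
  have hset : {d | d ∈ G.star u ∧ coreMap G ga gb x sd B ψ' d = f.fl} =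
      {d | d ∈ G.star u ∧ H.GD G ga gb (x u) d ∧ ((d ∈ B u ∧ (gb (x u), x u) = f.fl) ∨
        (d ∉ B u ∧ (ga (x u), x u) = f.fl))} := by
    ext d
    simp only [Set.mem_ofPred_eq]
    exact and_congr_right fun hd => key d hd
  rw [hset]
  have hfin : {d | d ∈ G.star u ∧ H.GD G ga gb (x u) d}.Finite := by
    refine Set.Finite.subset (List.finite_toSet G.Ds) ?_
    rintro d ⟨hd, -⟩
    exact hd.1
  have hcount := gd_count hG hE hf (h.sm u hu)
  have hfc := h.fcount u hu hf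
  rcases (hE (x u) hf).2.2.2.2.2 f hs hg with he | he
  · have hfl : f.fl = (ga (x u), x u) := by unfold Dart.fl; rw [he, hs]
    have h1 : {d | d ∈ G.star u ∧ H.GD G ga gb (x u) d ∧ ((d ∈ B u ∧ (gb (x u), x u) = f.fl) ∨
        (d ∉ B u ∧ (ga (x u), x u) = f.fl))} =
        {d | d ∈ G.star u ∧ H.GD G ga gb (x u) d} \
          {d | d ∈ G.star u ∧ H.GD G ga gb (x u) d ∧ d ∈ B u} := by
      ext d
      simp only [Set.mem_ofPred_eq, Set.mem_sdiff, hfl, Prod.mk.injEq, and_true, hab.symm,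
        and_false, false_or]
      tauto
    have hsub : {d | d ∈ G.star u ∧ H.GD G ga gb (x u) d ∧ d ∈ B u} ⊆
        {d | d ∈ G.star u ∧ H.GD G ga gb (x u) d} := fun d hd => ⟨hd.1, hd.2.1⟩
    rw [h1, Set.ncard_sdiff hsub (hfin.subset hsub), hcount, hfc, hfl, mult_ga hE hf]
    omega
  · have hfl : f.fl = (gb (x u), x u) := by unfold Dart.fl; rw [he, hs]
    have h1 : {d | d ∈ G.star u ∧ H.GD G ga gb (x u) d ∧ ((d ∈ B u ∧ (gb (x u), x u) = f.fl) ∨
        (d ∉ B u ∧ (ga (x u), x u) = f.fl))} =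
          {d | d ∈ G.star u ∧ H.GD G ga gb (x u) d ∧ d ∈ B u} := by
      ext d
      simp only [Set.mem_ofPred_eq, hfl, Prod.mk.injEq, and_true, hab, and_false, or_false]
    rw [h1, hfc, hfl]

/-- The other flags are taken the right number of times. -/
theorem CoreData.count_other [Finite V] [Finite E] (hG : G.Ok) (hT : H.Tame H.ty)
    (hΘ : Θ.Covers) (hE : H.GEdges ga gb) {x : W → V} {sd : D → H.Dart} {B : W → Set D}
    (h : CoreData G Θ ga gb x sd B) {ψ' : W → D → E × V} {u : W} (hu : u ∈ G.Vs)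
    (hψ : H.StarOk G (H.Rm G) u (x u) (ψ' u)) {f : H.Dart} (hf : ¬ f.ThinCore H.ty)
    (hg : ¬ (H.Gam H.ty (H.ty (x u)) ∧ H.ty f.tgt = H.ty (x u))) (hs : f.src = x u) :
    {d | d ∈ G.star u ∧ coreMap G ga gb x sd B ψ' d = f.fl}.ncard = H.mult f.fl := by
  have ht : H.Equitable H.ty := equitable_ty
  rw [← hψ.count f.fl hs]
  congr 1
  ext d
  simp only [Set.mem_ofPred_eq]
  refine and_congr_right fun hd => ?_
  have hsrc : G.src d = u := hd.2
  constructor
  · intro hc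
    obtain ⟨h1, h2⟩ := not_thin_of_flag hG hE h hψ hd hc
    have h3 : ¬ (sd d).ThinCore H.ty := fun h4 => hf (h1.1 h4)
    have h4 : ¬ (H.Gam H.ty (H.ty (x u)) ∧ H.GD G ga gb (x u) d) := fun h5 => hg (h2.1 h5)
    rw [coreMap_other h3 (by rw [hsrc]; exact h4), hsrc] at hc
    exact hc
  · intro hc
    have hrm : H.Rm G d f.fl := by rw [← hc]; exact hψ.rel d hd
    obtain ⟨hc1, hc2⟩ := cls_sd hG h hd.1 hrm
    have h3 : ¬ (sd d).ThinCore H.ty := fun h4 => hf (h4.class_eq ht hc1 hc2)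
    have h4 : ¬ (H.Gam H.ty (H.ty (x u)) ∧ H.GD G ga gb (x u) d) := by
      rintro ⟨h5, h6⟩
      exact hg ⟨h5, (gd_iff hG hE h5 (by rw [hsrc]; exact h.sm u hu) hrm).1 h6⟩
    rw [coreMap_other h3 (by rw [hsrc]; exact h4), hsrc]
    exact hc

/-- The map on the core is a local map at each vertex. -/
theorem CoreData.starOk [Finite V] [Finite E] (hG : G.Ok) (hT : H.Tame H.ty)
    (hΘ : Θ.Covers) (hE : H.GEdges ga gb) {x : W → V} {sd : D → H.Dart} {B : W → Set D}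
    (h : CoreData G Θ ga gb x sd B) {ψ' : W → D → E × V} {u : W} (hu : u ∈ G.Vs)
    (hψ : H.StarOk G (H.Rm G) u (x u) (ψ' u)) :
    H.StarOk G (H.Rm G) u (x u) (coreMap G ga gb x sd B ψ') := by
  refine ⟨fun d hd => (rm_coreMap h hψ hd).1, fun d hd => (rm_coreMap h hψ hd).2, ?_⟩
  intro φ hφ
  by_cases hex : ∃ f : H.Dart, f.fl = φ
  · obtain ⟨f, rfl⟩ := hex
    have hs : f.src = x u := hφ
    by_cases h1 : f.ThinCore H.ty
    · exact h.count_thin hG hT hΘ hE hu hψ h1 hs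
    · by_cases h2 : H.Gam H.ty (H.ty (x u)) ∧ H.ty f.tgt = H.ty (x u)
      · exact h.count_gam hG hT hΘ hE hu hψ h2.1 h2.2 hs
      · exact h.count_other hG hT hΘ hE hu hψ h1 h2 hs
  · have h0 : H.mult φ = 0 := by
      rcases Nat.eq_zero_or_pos (H.mult φ) with h0 | h0
      · exact h0
      · exact absurd ((mult_pos_iff φ).1 h0) hex
    rw [h0]
    have : {d | d ∈ G.star u ∧ coreMap G ga gb x sd B ψ' d = φ} = ∅ := by
      ext d
      simp only [Set.mem_ofPred_eq, Set.mem_empty_iff_false, iff_false]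
      rintro ⟨hd, hc⟩
      have hr := (rm_coreMap h hψ hd).1
      rw [hc] at hr
      exact hex hr.exists_dart
    rw [this, Set.ncard_empty]

end Graph

end Pool.Agent.Lib.MP_9c5086_lc
end

section

/-!
The solution on the core of an instance.
-/

namespace Pool.Agent.Lib.MP_9c5086_lc

namespace Graph

variable {W D V E : Type} [DecidableEq V] {H : Graph V E} {G : LG W D V E}
  {Θ : Thin H H.ty} {ga gb : V → E}

/-- The map on the core is compatible with inversion. -/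
private theorem CoreData.comp_core [Finite V] [Finite E] (hG : G.Ok) (hT : H.Tame H.ty)
    (hE : H.GEdges ga gb) {x : W → V} {sd : D → H.Dart} {B : W → Set D}
    (h : CoreData G Θ ga gb x sd B) (ψ' : W → D → E × V) {d : D} (hd : d ∈ G.Ds)
    (hc : H.GCore G d) :
    coreMap G ga gb x sd B ψ' (G.inv d) = H.opp (coreMap G ga gb x sd B ψ' d) := by
  have ht : H.Equitable H.ty := equitable_ty
  have hd' := hG.inv_mem d hd
  have hr := h.rm d hd
  have hcore : (sd d).Core := (gcore_iff hG hr).1 hc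
  by_cases hthin : (sd d).ThinCore H.ty
  · have hi := h.inv d hd hthin
    have hthin' : (sd (G.inv d)).ThinCore H.ty := by
      obtain ⟨h1, h2, -, -⟩ := fl_facts hi
      exact (hthin.inv hT ht).class_eq ht (by rw [h1]) (by rw [h2])
    rw [coreMap, coreMap, if_pos hthin, if_pos hthin', opp_fl, hi]
  · have h3 : 3 ≤ H.classSize H.ty (sd d).src (H.ty (sd d).tgt) := by
      by_contra h4
      exact hthin ⟨hcore, by omega⟩
    obtain ⟨hgam, htgt⟩ := hT.gam_of_core hcore h3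
    have hu := hG.src_mem d hd
    have hu' := hG.src_mem _ hd'
    have hty : H.ty (sd d).src = H.ty (x (G.src d)) := Sm.ty_eq hG (Rm.src hG hr) (h.sm _ hu)
    have hx : H.Gam H.ty (H.ty (x (G.src d))) := hty ▸ hgam
    have hgd : H.GD G ga gb (x (G.src d)) d :=
      (gd_iff hG hE hx (h.sm _ hu) hr).2 (by rw [htgt, hty])
    have hty' : H.ty (x (G.src (G.inv d))) = H.ty (x (G.src d)) := by
      have h5 := Rm.tgt hG hr
      rw [other_fl] at h5
      rw [← hty, ← htgt]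
      exact Sm.ty_eq hG (h.sm _ hu') h5
    have hxx := h.xg d hd hx hty'
    have hgd' : H.GD G ga gb (x (G.src d)) (G.inv d) := GD.inv hE hx hgd
    have hthin' : ¬ (sd (G.inv d)).ThinCore H.ty := by
      intro h5
      apply hthin
      obtain ⟨h6, h7⟩ := Rm.cls_eq hG (h.rm _ hd') (Rm.inv_fl hr)
      have h8 := (h5.class_eq ht h6 h7).inv hT ht
      rwa [Dart.inv_inv] at h8
    have hf := h.finv d hd hx hgd
    have hq : H.Gam H.ty (H.ty (x (G.src (G.inv d)))) ∧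
        H.GD G ga gb (x (G.src (G.inv d))) (G.inv d) := by
      rw [hxx]
      exact ⟨hx, hgd'⟩
    have hp : H.Gam H.ty (H.ty (x (G.src d))) ∧ H.GD G ga gb (x (G.src d)) d := ⟨hx, hgd⟩
    rw [coreMap, coreMap, if_neg hthin, if_neg hthin', if_pos hp, if_pos hq, hxx]
    by_cases hB : d ∈ B (G.src d)
    · rw [if_pos hB, if_pos (hf.2 hB), opp_gb hE hx]
    · rw [if_neg hB, if_neg (fun h5 => hB (hf.1 h5)), opp_ga hE hx]

/-- Data on the core give a covering projection. -/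
theorem CoreData.exists_cov [Finite V] [Finite E] (hG : G.Ok) (hT : H.Tame H.ty)
    (hΘ : Θ.Covers) (hE : H.GEdges ga gb) {x : W → V} {sd : D → H.Dart} {B : W → Set D}
    (h : CoreData G Θ ga gb x sd B) : ∃ fv fe, H.IsCov G fv fe := by
  have hS : ∀ u ∈ G.Vs, ∃ y, H.Sm G u y := fun u hu => ⟨x u, h.sm u hu⟩
  have hex : ∀ u, ∃ ψ : D → E × V, u ∈ G.Vs → H.StarOk G (H.Rm G) u (x u) ψ := by
    intro u
    by_cases hu : u ∈ G.Vs
    · obtain ⟨-, -, ψ, hψ⟩ := h.sm u hu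
      exact ⟨ψ, fun _ => hψ⟩
    · exact ⟨fun d => (sd d).fl, fun h1 => absurd h1 hu⟩
  choose ψ' hψ' using hex
  have hno : ∀ u, (∃ d ∈ G.Ds, G.src d = u ∧ H.GCore G d) → ∀ d' ∈ G.Ds, G.src d' = u →
      ¬ H.GUp G d' := by
    rintro u ⟨d, hd, hdu, hcd⟩ d' hd' hd'u
    exact GCore.no_up hG hS hd hd' hcd (by rw [hd'u, hdu])
  have hpart : H.Part G {u | ∃ d ∈ G.Ds, G.src d = u ∧ H.GCore G d} x
      (coreMap G ga gb x sd B ψ') := by
    refine ⟨?_, ?_, ?_, ?_, ?_⟩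
    · rintro u ⟨d, hd, rfl, -⟩
      exact hG.src_mem d hd
    · rintro u ⟨d, hd, rfl, -⟩
      exact (h.sm _ (hG.src_mem d hd)).2.1
    · rintro u ⟨d, hd, rfl, -⟩
      exact h.starOk hG hT hΘ hE (hG.src_mem d hd) (hψ' _ (hG.src_mem d hd))
    · intro d hd h1 h2
      refine h.comp_core hG hT hE ψ' hd ?_
      by_contra hc
      have h3 := gup_inv_of_no_up hG hS hd (fun d' hd' hs => hno _ h1 d' hd' hs) hc
      exact hno _ h2 _ (hG.inv_mem d hd) rfl h3
    · intro d hd h1 h2 _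
      exact absurd h2 (hno _ h1 d hd rfl)
  exact hpart.exists_cov hG hS fun d hd hc => ⟨d, hd, rfl, hc⟩

end Graph

end Pool.Agent.Lib.MP_9c5086_lc
end

section

/-!
Covering projections exist if and only if some path consistent family is nonempty.
-/

namespace Pool.Agent.Lib.MP_9c5086_lc

namespace Graph

variable {W D V E : Type} [DecidableEq V] {H : Graph V E} {G : LG W D V E}
  {Θ : Thin H H.ty} {ga gb : V → E}

theorem cov_iff [Finite V] [Finite E] [Nonempty V] (hG : G.Ok) (hT : H.Tame H.ty) (hΘ : Θ.Covers)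
    (hE : H.GEdges ga gb) (hs : ¬ Θ.Static) :
    (∃ fv fe, H.IsCov G fv fe) ↔ ∃ P, Pc G Θ ga gb P ∧ ∀ v ∈ Vars G, ∃ a, P v v a a := by
  constructor
  · rintro ⟨fv, fe, h⟩
    obtain ⟨s, h⟩ := h.exists_sol hG hT hΘ hE
    exact h.exists_pc
  · intro h
    obtain ⟨s, h⟩ := exists_sol hG hΘ (Θ.exists_maj hs) h
    obtain ⟨x, sd, B, h⟩ := h.exists_coreData hG hT hΘ hE
    exact h.exists_cov hG hT hΘ hE

end Graph

end Pool.Agent.Lib.MP_9c5086_lc
end
end
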