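import Pool.Agent.Lib.MP_9c5086_lc.Basic

/-!
The counting form of the definition of covers.
-/

namespace Pool.Agent.Lib.MP_9c5086_lc

namespace Graph

variable {V E : Type} {H : Graph V E}

theorem inc_ordinary {e : E} {y : V} (hb : H.b e = some y) (hne : H.a e ≠ y) {v : V}
    (hv : v = H.a e ∨ v = y) : H.inc e v = 1 := by
  unfold inc
  rw [Set.ncard_eq_one]
  have hs : (H.b e).isSome = true := by rw [hb]; rfl
  rcases hv with rfl | rfl
  · refine ⟨⟨(e, false), fun h => by simp at h⟩, ?_⟩
    ext ⟨⟨e', k⟩, hd⟩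
    simp only [Set.mem_ofPred_eq, Set.mem_singleton_iff]
    constructor
    · rintro ⟨h1, h2⟩
      obtain rfl : e' = e := h1
      cases k
      · rfl
      · exfalso
        simp only [Dart.src, if_true, hb, Option.getD_some] at h2
        exact hne h2.symm
    · intro h
      rw [h]
      exact ⟨rfl, rfl⟩
  · refine ⟨⟨(e, true), fun _ => hs⟩, ?_⟩
    ext ⟨⟨e', k⟩, hd⟩
    simp only [Set.mem_ofPred_eq, Set.mem_singleton_iff]
    constructor
    · rintro ⟨h1, h2⟩
      obtain rfl : e' = e := h1
      cases k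
      · exfalso
        exact hne h2
      · rfl
    · intro h
      rw [h]
      refine ⟨rfl, ?_⟩
      simp [Dart.src, hb]

theorem inc_loop {e : E} (hb : H.b e = some (H.a e)) : H.inc e (H.a e) = 2 := by
  unfold inc
  have hs : (H.b e).isSome = true := by rw [hb]; rfl
  rw [Set.ncard_eq_two]
  refine ⟨⟨(e, false), fun h => by simp at h⟩, ⟨(e, true), fun _ => hs⟩, ?_, ?_⟩
  · intro h
    have := (Prod.ext_iff.1 (Subtype.ext_iff.1 h)).2
    simp at this
  · ext ⟨⟨e', k⟩, hd⟩
    simp only [Set.mem_ofPred_eq, Set.mem_insert_iff, Set.mem_singleton_iff]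
    constructor
    · rintro ⟨h1, -⟩
      obtain rfl : e' = e := h1
      cases k
      · exact Or.inl rfl
      · exact Or.inr rfl
    · rintro (h | h)
      · rw [h]
        exact ⟨rfl, rfl⟩
      · rw [h]
        refine ⟨rfl, ?_⟩
        simp [Dart.src, hb]

theorem inc_semi {e : E} (hb : H.b e = none) : H.inc e (H.a e) = 1 := by
  unfold inc
  rw [Set.ncard_eq_one]
  refine ⟨⟨(e, false), fun h => by simp at h⟩, ?_⟩
  ext ⟨⟨e', k⟩, hd⟩
  simp only [Set.mem_ofPred_eq, Set.mem_singleton_iff]
  constructor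
  · rintro ⟨h1, h2⟩
    obtain rfl : e' = e := h1
    cases k
    · rfl
    · exfalso
      have := hd rfl
      simp [hb] at this
  · intro h
    rw [h]
    exact ⟨rfl, rfl⟩

/-- The counting form of the definition of a cover. -/
theorem isCover_iff [Finite E] {W : Type} {G : SimpleGraph W} {fv : W → V} {fe : Sym2 W → E} :
    H.IsCover G fv fe ↔ (∀ u v, G.Adj u v → H.Joins (fe s(u, v)) (fv u) (fv v)) ∧
      ∀ u e, {v | G.Adj u v ∧ fe s(u, v) = e}.ncard = H.inc e (fv u) := by
  constructor
  · intro h
    refine ⟨h.joins, fun u e => ?_⟩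
    by_cases hj : ∃ w, H.Joins e (fv u) w
    · obtain ⟨w, hw⟩ := hj
      cases hb : H.b e with
      | none =>
        have hu : fv u = H.a e := by
          rcases hw with ⟨h1, -⟩ | ⟨-, h2⟩
          · exact h1
          · rw [h2, hb]; rfl
        rw [h.semi e (H.a e) rfl hb u hu, hu, inc_semi hb]
      | some y =>
        have hu : fv u = H.a e ∨ fv u = y := by
          rcases hw with ⟨h1, -⟩ | ⟨-, h2⟩
          · exact Or.inl h1
          · right; rw [h2, hb]; rfl
        by_cases hy : H.a e = y
        · subst hy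
          have hu' : fv u = H.a e := by
            rcases hu with h | h <;> exact h
          rw [h.loop e (H.a e) rfl hb u hu', hu', inc_loop hb]
        · rw [h.ordinary e (H.a e) y rfl hb hy u hu, inc_ordinary hb hy hu]
    · have h1 : H.inc e (fv u) = 0 := by
        by_contra h2
        exact hj (inc_pos_iff.1 (Nat.pos_of_ne_zero h2))
      have h2 : {v | G.Adj u v ∧ fe s(u, v) = e} = ∅ := by
        ext v
        simp only [Set.mem_ofPred_eq, Set.mem_empty_iff_false, iff_false]
        rintro ⟨h3, rfl⟩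
        exact hj ⟨_, h.joins u v h3⟩
      rw [h1, h2, Set.ncard_empty]
  · rintro ⟨h1, h2⟩
    refine ⟨h1, ?_, ?_, ?_⟩
    · intro e x y ha hb hxy u hu
      subst ha
      rw [h2, inc_ordinary hb hxy hu]
    · intro e x ha hb u hu
      subst ha
      rw [h2, hu, inc_loop hb]
    · intro e x ha hb u hu
      subst ha
      rw [h2, hu, inc_semi hb]

end Graph

end Pool.Agent.Lib.MP_9c5086_lc
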