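import Pool.Agent.Lib.MP_9c5086_lc.EmbDefs
import Pool.Agent.Lib.MP_9c5086_lc.CoverIff
import Pool.Agent.Lib.MP_9c5086_lc.PMSplit
import Pool.Agent.Lib.MP_9c5086_lc.CAlgP
import Pool.Agent.Lib.PLib.Lists
import Pool.Agent.Lib.PLib.Parse
import Pool.Agent.Lib.MP_9c5086_lc.CAlg
import Pool.Agent.Lib.MP_9c5086_lc.PMDefs

section

/-!
Covers with values in a union of components.
-/

namespace Pool.Agent.Lib.MP_9c5086_lc

namespace Graph

variable {V E V₀ E₀ I : Type}

private theorem Emb.getD_eq {H₀ : Graph V₀ E₀} {H : Graph V E} (j : Emb H₀ H) (e : E₀) :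
    (H.b (j.je e)).getD (H.a (j.je e)) = j.jv ((H₀.b e).getD (H₀.a e)) := by
  rw [j.a_je, j.b_je]
  cases H₀.b e <;> rfl

private theorem Emb.joins_iff {H₀ : Graph V₀ E₀} {H : Graph V E} (j : Emb H₀ H) (e : E₀)
    (v w : V₀) : H.Joins (j.je e) (j.jv v) (j.jv w) ↔ H₀.Joins e v w := by
  unfold Joins
  rw [j.getD_eq, j.a_je]
  simp only [j.jv_inj.eq_iff]

/-- Covers of `H` with values in `H₀` are covers of `H₀`. -/
theorem Emb.cover_iff [Nonempty E₀] {H₀ : Graph V₀ E₀} {H : Graph V E} (j : Emb H₀ H) {W : Type}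
    (G : SimpleGraph W) (Lv : W → Set V₀) (Le : W → W → Set E₀) :
    (∃ fv fe, H₀.IsCover G fv fe ∧ (∀ a, fv a ∈ Lv a) ∧
      ∀ a b, G.Adj a b → fe s(a, b) ∈ Le a b) ↔
    ∃ fv fe, H.IsCover G fv fe ∧ (∀ a, fv a ∈ j.jv '' Lv a) ∧
      ∀ a b, G.Adj a b → fe s(a, b) ∈ j.je '' Le a b := by
  classical
  constructor
  · rintro ⟨fv, fe, hc, hLv, hLe⟩
    refine ⟨fun u => j.jv (fv u), fun z => j.je (fe z), ?_, fun a => ⟨fv a, hLv a, rfl⟩,
      fun a b hab => ⟨_, hLe a b hab, rfl⟩⟩
    have hset : ∀ (u : W) (e₀ : E₀), {v | G.Adj u v ∧ j.je (fe s(u, v)) = j.je e₀}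
        = {v | G.Adj u v ∧ fe s(u, v) = e₀} := by
      intro u e₀
      ext v
      simp only [Set.mem_ofPred_eq, j.je_inj.eq_iff]
    refine ⟨?_, ?_, ?_, ?_⟩
    · intro u v huv
      rw [j.joins_iff]
      exact hc.joins u v huv
    · intro e x y hx hy hxy u hu
      have hex : ∃ e₀, j.je e₀ = e := by
        rcases hu with hu | hu
        · exact j.closed e (fv u) ((H.b e).getD (H.a e)) (Or.inl ⟨hu.trans hx.symm, rfl⟩)
        · exact j.closed e (fv u) (H.a e) (Or.inr ⟨rfl, by rw [hy]; exact hu⟩)
      obtain ⟨e₀, rfl⟩ := hex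
      rw [j.b_je] at hy
      obtain ⟨y₀, hy₀, hy₁⟩ := Option.map_eq_some_iff.mp hy
      rw [j.a_je] at hx
      have hxy₀ : H₀.a e₀ ≠ y₀ := by
        intro hh
        apply hxy
        rw [← hx, ← hy₁, hh]
      have hu₀ : fv u = H₀.a e₀ ∨ fv u = y₀ := by
        rcases hu with hu | hu
        · left
          exact j.jv_inj (hu.trans hx.symm)
        · right
          exact j.jv_inj (hu.trans hy₁.symm)
      rw [hset]
      exact hc.ordinary e₀ _ _ rfl hy₀ hxy₀ u hu₀
    · intro e x hx hy u hu
      have hex : ∃ e₀, j.je e₀ = e :=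
        j.closed e (fv u) ((H.b e).getD (H.a e)) (Or.inl ⟨hu.trans hx.symm, rfl⟩)
      obtain ⟨e₀, rfl⟩ := hex
      rw [j.b_je] at hy
      obtain ⟨y₀, hy₀, hy₁⟩ := Option.map_eq_some_iff.mp hy
      rw [j.a_je] at hx
      have h1 : y₀ = H₀.a e₀ := j.jv_inj (hy₁.trans hx.symm)
      have h2 : fv u = H₀.a e₀ := j.jv_inj (hu.trans hx.symm)
      rw [hset]
      exact hc.loop e₀ _ rfl (by rw [hy₀, h1]) u h2
    · intro e x hx hy u hu
      have hex : ∃ e₀, j.je e₀ = e :=
        j.closed e (fv u) ((H.b e).getD (H.a e)) (Or.inl ⟨hu.trans hx.symm, rfl⟩)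
      obtain ⟨e₀, rfl⟩ := hex
      rw [j.b_je] at hy
      have hy₀ : H₀.b e₀ = none := Option.map_eq_none_iff.mp hy
      rw [j.a_je] at hx
      have h2 : fv u = H₀.a e₀ := j.jv_inj (hu.trans hx.symm)
      rw [hset]
      exact hc.semi e₀ _ rfl hy₀ u h2
  · rintro ⟨fv, fe, hc, hLv, hLe⟩
    choose fv₀ hfv₀ hfv₁ using hLv
    let fe₀ : Sym2 W → E₀ := fun z =>
      if h : ∃ e₀, j.je e₀ = fe z then h.choose else Classical.arbitrary E₀
    have hfe₀ : ∀ a b, G.Adj a b → j.je (fe₀ s(a, b)) = fe s(a, b) := by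
      intro a b hab
      obtain ⟨e', _, he'⟩ := hLe a b hab
      have h : ∃ e₀, j.je e₀ = fe s(a, b) := ⟨e', he'⟩
      change j.je (if h : ∃ e₀, j.je e₀ = fe s(a, b) then h.choose else Classical.arbitrary E₀) = _
      rw [dif_pos h]
      exact h.choose_spec
    have hset : ∀ (u : W) (e₀ : E₀), {v | G.Adj u v ∧ fe₀ s(u, v) = e₀}
        = {v | G.Adj u v ∧ fe s(u, v) = j.je e₀} := by
      intro u e₀
      ext v
      simp only [Set.mem_ofPred_eq]
      constructor
      · rintro ⟨h1, h2⟩
        exact ⟨h1, by rw [← hfe₀ u v h1, h2]⟩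
      · rintro ⟨h1, h2⟩
        exact ⟨h1, j.je_inj (by rw [hfe₀ u v h1, h2])⟩
    refine ⟨fv₀, fe₀, ⟨?_, ?_, ?_, ?_⟩, hfv₀, ?_⟩
    · intro u v huv
      rw [← j.joins_iff, hfe₀ u v huv, hfv₁, hfv₁]
      exact hc.joins u v huv
    · intro e₀ x y hx hy hxy u hu
      rw [hset]
      refine hc.ordinary (j.je e₀) (j.jv x) (j.jv y) (by rw [j.a_je, hx]) (by rw [j.b_je, hy]; rfl)
        (fun hh => hxy (j.jv_inj hh)) u ?_
      rw [← hfv₁ u]
      rcases hu with hu | hu
      · left; rw [hu]
      · right; rw [hu]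
    · intro e₀ x hx hy u hu
      rw [hset]
      refine hc.loop (j.je e₀) (j.jv x) (by rw [j.a_je, hx]) (by rw [j.b_je, hy]; rfl) u ?_
      rw [← hfv₁ u, hu]
    · intro e₀ x hx hy u hu
      rw [hset]
      refine hc.semi (j.je e₀) (j.jv x) (by rw [j.a_je, hx]) (by rw [j.b_je, hy]; rfl) u ?_
      rw [← hfv₁ u, hu]
    · intro a b hab
      obtain ⟨e', he1, he2⟩ := hLe a b hab
      have h1 : fe₀ s(a, b) = e' := j.je_inj (by rw [hfe₀ a b hab, he2])
      rw [h1]
      exact he1

end Graph

end Pool.Agent.Lib.MP_9c5086_lc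
end

section

/-!
Extension of partial modes.
-/

namespace Pool.Agent.Lib.MP_9c5086_lc

namespace Graph

variable {V E I : Type}

/-- A partial mode with given edges extends to a mode: if the darts in `A` (all at `m`) have been
assigned edges `e`, such that no edge is used more often than possible at `y`, then some mode maps
the darts in `A` to darts with these edges. -/
theorem exists_mode_extend [Finite V] [Finite E] (H : Graph V E) (t : V → I) (ht : H.Equitable t)
    (m y : V) (hmy : t y = t m) (A : Set H.Dart) (hA : ∀ s ∈ A, s.src = m) (e : H.Dart → E)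
    (w : H.Dart → V) (hw : ∀ s ∈ A, H.Joins (e s) y (w s) ∧ t (w s) = t s.tgt)
    (hc : ∀ e', {s ∈ A | e s = e'}.ncard ≤ H.inc e' y) :
    ∃ μ : Mode H t m y, ∀ s (hs : s ∈ A), (μ.π ⟨s, hA s hs⟩).1.edge = e s := by
  classical
  have key : ∀ e' : E, ∃ φ : H.Dart → H.Dart,
      (∀ s, s ∈ A → e s = e' → (φ s).edge = e' ∧ (φ s).src = y) ∧
      ∀ s s', s ∈ A → e s = e' → s' ∈ A → e s' = e' → φ s = φ s' → s = s' := by
    intro e'
    have h1 := hc e'
    unfold inc at h1
    rw [← Nat.card_coe_set_eq, ← Nat.card_coe_set_eq] at h1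
    have f1 := Finite.equivFin {s ∈ A | e s = e'}
    have f2 := Finite.equivFin {d : H.Dart | d.edge = e' ∧ d.src = y}
    let f : {s ∈ A | e s = e'} → {d : H.Dart | d.edge = e' ∧ d.src = y} :=
      fun s => f2.symm (Fin.castLE h1 (f1 s))
    have hf : Function.Injective f := by
      intro s s' h
      exact f1.injective (Fin.castLE_injective h1 (f2.symm.injective h))
    refine ⟨fun s => if h : s ∈ A ∧ e s = e' then (f ⟨s, h⟩).1 else s, ?_, ?_⟩
    · intro s hs he
      simp only [dif_pos (And.intro hs he)]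
      exact (f ⟨s, hs, he⟩).2
    · intro s s' hs he hs' he' h
      simp only [dif_pos (And.intro hs he), dif_pos (And.intro hs' he')] at h
      have := hf (Subtype.ext h)
      exact congrArg Subtype.val this
  choose φ hφ1 hφ2 using key
  obtain ⟨μ, hμ⟩ := exists_mode_of_injOn H t ht m y hmy A hA (fun s => φ (e s) s) (by
    intro s hs
    obtain ⟨h1, h2⟩ := hφ1 (e s) s hs rfl
    refine ⟨h2, ?_⟩
    obtain ⟨h3, h4⟩ := hw s hs
    have h5 := (φ (e s) s).joins
    rw [h1, h2] at h5
    rw [h5.unique h3, h4]) (by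
    intro s hs s' hs' h
    have h' : φ (e s) s = φ (e s') s' := h
    have h1 := (hφ1 (e s) s hs rfl).1
    have h2 := (hφ1 (e s') s' hs' rfl).1
    have h3 : e s = e s' := by rw [← h1, h', h2]
    rw [h3] at h'
    exact hφ2 (e s') s s' hs h3 hs' rfl h')
  refine ⟨μ, fun s hs => ?_⟩
  rw [hμ s hs]
  exact (hφ1 (e s) s hs rfl).1

end Graph

end Pool.Agent.Lib.MP_9c5086_lc
end

section

/-!
A list cover of the completion gives a solution of the gadget.
-/

namespace Pool.Agent.Lib.MP_9c5086_lc

namespace Graph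

variable {V E I : Type} {H : Graph V E} {t : V → I} {Col : Type} {S : Setup H t Col}
  {sg : Empty → Bool}

/-- A list cover of the completion gives a solution of the gadget. -/
theorem full_mp [Finite V] [Finite E] (Y : Univ H t)
    (g : Gadget S Empty sg) (c : Empty → Col) (fv : g.U × Y.X → V) (fe : Sym2 (g.U × Y.X) → E)
    (h : H.IsCover (fullGraph Y g) fv fe) (hv : ∀ a, fv a ∈ fullLv Y g a)
    (he : ∀ a b, (fullGraph Y g).Adj a b → fe s(a, b) ∈ fullLe Y g a b) : g.Sat c := by
  obtain ⟨hj, hc⟩ := isCover_iff.1 h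
  have hfinU := g.finU
  have hfinX := Y.fin
  let R : g.U → g.U × Y.X := fun u => (u, Y.r (g.mv u))
  have hadj : ∀ d, (fullGraph Y g).Adj (R (g.pos d)) (R (g.pos (g.rev d))) := fun d =>
    Or.inr ⟨d, rfl, rfl, Or.inl ⟨rfl, rfl⟩⟩
  refine ⟨fun u => fv (R u), fun d => fe s(R (g.pos d), R (g.pos (g.rev d))), ?_, ?_, ?_, ?_, ?_,
    ?_, ?_, ?_⟩
  · intro d
    rw [g.rev_rev, Sym2.eq_swap]
  · intro u
    rw [(hv (R u)).1]
    exact Y.τ_r _
  · intro d
    exact hj _ _ (hadj d)
  · exact fun p => p.elim
  · intro u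
    exact (hv (R u)).2 rfl
  · intro d
    exact he _ _ (hadj d) d rfl rfl rfl rfl
  · exact fun p => p.elim
  · intro u e
    have h0 : {p : Empty | g.pu p = u ∧ S.ec (c p) = e}.ncard = 0 := by
      rw [Set.ncard_eq_zero (Set.toFinite _)]
      ext p
      exact p.elim
    rw [h0, add_zero, ← hc (R u) e]
    refine Set.ncard_le_ncard_of_injOn (fun d => R (g.pos (g.rev d))) ?_ ?_ (Set.toFinite _)
    · rintro d ⟨rfl, h2⟩
      exact ⟨hadj d, h2⟩
    · rintro d ⟨h1, -⟩ d' ⟨h2, -⟩ h3
      exact g.simple d d' (h1.trans h2.symm) (Prod.ext_iff.1 h3).1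

end Graph

end Pool.Agent.Lib.MP_9c5086_lc
end

section

/-!
A solution of the gadget gives a list cover of the completion.
-/

namespace Pool.Agent.Lib.MP_9c5086_lc

namespace Graph

variable {V E I : Type} {H : Graph V E} {t : V → I} {Col : Type} {S : Setup H t Col}
  {sg : Empty → Bool}

/-- The counting property of covers on the level of darts. -/
theorem DCover.ncard_eq {X : Type} {G : SimpleGraph X} (f : DCover G H) (n : X) (e : E) :
    {n' | G.Adj n n' ∧ (f.fd n n').edge = e}.ncard = H.inc e (f.fv n) := by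
  unfold inc
  refine Set.ncard_congr (fun n' _ => f.fd n n') ?_ ?_ ?_
  · rintro n' ⟨h1, h2⟩
    exact ⟨h2, f.src_fd h1⟩
  · rintro n' n'' ⟨h1, -⟩ ⟨h2, -⟩ h
    exact f.inj_fd h1 h2 h
  · rintro d ⟨h1, h2⟩
    obtain ⟨n', h3, h4⟩ := f.surj_fd n d h2
    exact ⟨n', ⟨h3, by rw [h4, h1]⟩, h4⟩

/-- For every vertex of the gadget there is a cover of the universal graph fitting to the
solution. -/
theorem exists_cover_of_sol [Finite V] [Finite E] [Nonempty E] (ht : H.Equitable t) (Y : Univ H t)
    (g : Gadget S Empty sg) (c : Empty → Col) (fv0 : g.U → V) (fe0 : g.D → E)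
    (hs : g.IsSol c fv0 fe0) (u : g.U) :
    ∃ f : DCover Y.G H, (∀ n, t (f.fv n) = Y.τ n) ∧ f.fv (Y.r (g.mv u)) = fv0 u ∧
      (∀ d, g.pos d = u → (f.fd (Y.r (g.mv u)) (Y.nb (g.slot d))).edge = fe0 d) ∧
      ∀ d, g.pos d = u → f.fv (Y.nb (g.slot d)) = fv0 (g.pos (g.rev d)) := by
  classical
  have hfinD := g.finD
  let e : H.Dart → E := fun s => if h : ∃ d, g.pos d = u ∧ g.slot d = s then
    fe0 (Classical.choose h) else Classical.arbitrary E
  let w : H.Dart → V := fun s => if h : ∃ d, g.pos d = u ∧ g.slot d = s then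
    fv0 (g.pos (g.rev (Classical.choose h))) else fv0 u
  have he : ∀ d, g.pos d = u → e (g.slot d) = fe0 d := by
    intro d hd
    have h : ∃ d', g.pos d' = u ∧ g.slot d' = g.slot d := ⟨d, hd, rfl⟩
    have h1 := Classical.choose_spec h
    have h2 : Classical.choose h = d := g.inj_slot _ _ (h1.1.trans hd.symm) h1.2
    simp only [e]
    rw [dif_pos h, h2]
  have hw : ∀ d, g.pos d = u → w (g.slot d) = fv0 (g.pos (g.rev d)) := by
    intro d hd
    have h : ∃ d', g.pos d' = u ∧ g.slot d' = g.slot d := ⟨d, hd, rfl⟩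
    have h1 := Classical.choose_spec h
    have h2 : Classical.choose h = d := g.inj_slot _ _ (h1.1.trans hd.symm) h1.2
    simp only [w]
    rw [dif_pos h, h2]
  obtain ⟨μ, hμ⟩ := exists_mode_extend H t ht (g.mv u) (fv0 u) (hs.ty u)
    {s | ∃ d, g.pos d = u ∧ g.slot d = s} (by
      rintro s ⟨d, rfl, rfl⟩
      exact g.src_slot d) e w (by
      rintro s ⟨d, hd, rfl⟩
      rw [he d hd, hw d hd]
      refine ⟨hd ▸ hs.joins d, ?_⟩
      rw [hs.ty, g.ty_slot]) (by
      intro e'
      refine le_trans ?_ (le_trans (Nat.le_add_right _ _) (hs.count u e'))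
      have : {s ∈ {s | ∃ d, g.pos d = u ∧ g.slot d = s} | e s = e'} ⊆
          g.slot '' {d | g.pos d = u ∧ fe0 d = e'} := by
        rintro s ⟨⟨d, hd, rfl⟩, h2⟩
        exact ⟨d, ⟨hd, by rw [← he d hd]; exact h2⟩, rfl⟩
      exact (Set.ncard_le_ncard this (Set.toFinite _)).trans
        (Set.ncard_image_le (Set.toFinite _)))
  obtain ⟨f, h1, h2, h3⟩ := Y.mode _ _ μ
  have h4 : ∀ d, g.pos d = u → (f.fd (Y.r (g.mv u)) (Y.nb (g.slot d))).edge = fe0 d := by
    intro d hd
    have hsrc : (g.slot d).src = g.mv u := hd ▸ g.src_slot d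
    have h5 := h3 ⟨g.slot d, hsrc⟩
    have h6 := hμ (g.slot d) ⟨d, hd, rfl⟩
    rw [he d hd] at h6
    dsimp only at h5
    rw [h5]
    exact h6
  refine ⟨f, h1, h2, h4, fun d hd => ?_⟩
  have hsrc : (g.slot d).src = g.mv u := hd ▸ g.src_slot d
  have hadj : Y.G.Adj (Y.r (g.mv u)) (Y.nb (g.slot d)) := by
    have := Y.adj_nb (g.slot d)
    rwa [hsrc] at this
  have h5 := (f.fd (Y.r (g.mv u)) (Y.nb (g.slot d))).joins
  rw [h4 d hd, f.src_fd hadj, f.tgt_fd hadj, h2] at h5
  have h6 := hs.joins d
  rw [hd] at h6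
  exact h5.unique h6

/-- A solution of the gadget gives a list cover of the completion. -/
theorem full_mpr [Finite V] [Finite E] [Nonempty E] (ht : H.Equitable t) (Y : Univ H t)
    (g : Gadget S Empty sg) (c : Empty → Col) (h : g.Sat c) :
    ∃ fv fe, H.IsCover (fullGraph Y g) fv fe ∧ (∀ a, fv a ∈ fullLv Y g a) ∧
      ∀ a b, (fullGraph Y g).Adj a b → fe s(a, b) ∈ fullLe Y g a b := by
  classical
  obtain ⟨fv0, fe0, hs⟩ := h
  choose F hFt hFr hFe hFn using exists_cover_of_sol ht Y g c fv0 fe0 hs
  -- the values of the edges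
  let val : g.U × Y.X → g.U × Y.X → E := fun a b =>
    if a.1 = b.1 then ((F a.1).fd a.2 b.2).edge else
      if h : ∃ d, g.pos d = a.1 ∧ g.pos (g.rev d) = b.1 then fe0 (Classical.choose h)
      else Classical.arbitrary E
  have val_int : ∀ a b, a.1 = b.1 → val a b = ((F a.1).fd a.2 b.2).edge := fun a b h => by
    simp only [val]
    rw [if_pos h]
  have val_int' : ∀ u n n', val (u, n) (u, n') = ((F u).fd n n').edge := fun u n n' =>
    val_int (u, n) (u, n') rfl
  have val_ext : ∀ a b : g.U × Y.X, ∀ d, g.pos d = a.1 → g.pos (g.rev d) = b.1 →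
      val a b = fe0 d := by
    intro a b d h1 h2
    have hne : a.1 ≠ b.1 := fun h => g.ne_pos d (by rw [h1, h2, h])
    have hex : ∃ d, g.pos d = a.1 ∧ g.pos (g.rev d) = b.1 := ⟨d, h1, h2⟩
    have h3 := Classical.choose_spec hex
    have h4 : Classical.choose hex = d :=
      g.simple _ _ (h3.1.trans h1.symm) (h3.2.trans h2.symm)
    simp only [val]
    rw [if_neg hne, dif_pos hex, h4]
  have val_symm : ∀ a b, fullAdj Y g a b → val b a = val a b := by
    rintro a b (⟨h1, h2, -⟩ | ⟨d, h1, h2, -⟩)
    · rw [val_int a b h1, val_int b a h1.symm, ← h1, (F a.1).inv_fd h2, Dart.edge_inv]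
    · rw [val_ext a b d h1 h2, val_ext b a (g.rev d) h2 (by rw [g.rev_rev]; exact h1), hs.rev]
  let fe : Sym2 (g.U × Y.X) → E := fun z =>
    if h : ∃ p : (g.U × Y.X) × (g.U × Y.X), z = s(p.1, p.2) ∧ fullAdj Y g p.1 p.2 then
      val (Classical.choose h).1 (Classical.choose h).2 else Classical.arbitrary E
  have fe_eq : ∀ a b, fullAdj Y g a b → fe s(a, b) = val a b := by
    intro a b hab
    have hex : ∃ p : (g.U × Y.X) × (g.U × Y.X), s(a, b) = s(p.1, p.2) ∧
        fullAdj Y g p.1 p.2 := ⟨(a, b), rfl, hab⟩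
    have h1 := Classical.choose_spec hex
    simp only [fe]
    rw [dif_pos hex]
    rcases Sym2.eq_iff.1 h1.1 with ⟨h2, h3⟩ | ⟨h2, h3⟩
    · rw [← h2, ← h3]
    · rw [← h2, ← h3]
      exact val_symm a b hab
  let fv : g.U × Y.X → V := fun a => (F a.1).fv a.2
  have hrn : ∀ d, Y.nb (g.slot d) ≠ Y.r (g.mv (g.pos d)) := by
    intro d h
    have h1 := Y.adj_nb (g.slot d)
    rw [g.src_slot, h] at h1
    exact Y.G.irrefl h1
  have hinj : ∀ d d', g.pos d = g.pos d' → Y.nb (g.slot d) = Y.nb (g.slot d') → d = d' := by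
    intro d d' h1 h2
    refine g.inj_slot d d' h1 (Y.nb_inj _ _ ?_ h2)
    rw [g.src_slot, g.src_slot, h1]
  have hadj : ∀ d, Y.G.Adj (Y.r (g.mv (g.pos d))) (Y.nb (g.slot d)) := by
    intro d
    have h1 := Y.adj_nb (g.slot d)
    rwa [g.src_slot] at h1
  -- the counts
  have key : ∀ a e, {b | fullAdj Y g a b ∧ val a b = e}.ncard =
      {n' | Y.G.Adj a.2 n' ∧ ((F a.1).fd a.2 n').edge = e}.ncard := by
    rintro ⟨u, n⟩ e
    dsimp only
    symm
    by_cases hA : n = Y.r (g.mv u)
    · subst hA
      refine Set.ncard_congr (fun n' _ => if h : ∃ d, g.pos d = u ∧ n' = Y.nb (g.slot d) then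
        (g.pos (g.rev (Classical.choose h)), Y.r (g.mv (g.pos (g.rev (Classical.choose h)))))
        else (u, n')) ?_ ?_ ?_
      · rintro n' ⟨h1, h2⟩
        by_cases h : ∃ d, g.pos d = u ∧ n' = Y.nb (g.slot d)
        · rw [dif_pos h]
          have h3 := Classical.choose_spec h
          generalize Classical.choose h = d at h3
          obtain ⟨rfl, rfl⟩ := h3
          refine ⟨Or.inr ⟨d, rfl, rfl, Or.inl ⟨rfl, rfl⟩⟩, ?_⟩
          rw [val_ext _ _ d rfl rfl, ← h2, hFe _ d rfl]
        · rw [dif_neg h]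
          refine ⟨Or.inl ⟨rfl, h1, fun d hd => ⟨fun h3 => h ⟨d, hd, h3.2⟩, fun h3 => ?_⟩⟩, ?_⟩
          · subst hd
            exact hrn d h3.2.symm
          · rw [val_int']
            exact h2
      · rintro n' n'' ⟨h1, -⟩ ⟨h2, -⟩ h3
        by_cases h : ∃ d, g.pos d = u ∧ n' = Y.nb (g.slot d)
        · have h4 := Classical.choose_spec h
          by_cases h' : ∃ d, g.pos d = u ∧ n'' = Y.nb (g.slot d)
          · have h5 := Classical.choose_spec h'
            rw [dif_pos h, dif_pos h'] at h3
            have h6 := (Prod.ext_iff.1 h3).1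
            dsimp only at h6
            have h7 := g.simple _ _ (h4.1.trans h5.1.symm) h6
            rw [h4.2, h5.2, h7]
          · rw [dif_pos h, dif_neg h'] at h3
            have h6 := (Prod.ext_iff.1 h3).1
            dsimp only at h6
            exact absurd (h6.trans h4.1.symm) (g.ne_pos _)
        · by_cases h' : ∃ d, g.pos d = u ∧ n'' = Y.nb (g.slot d)
          · have h5 := Classical.choose_spec h'
            rw [dif_neg h, dif_pos h'] at h3
            have h6 := (Prod.ext_iff.1 h3).1
            dsimp only at h6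
            exact absurd (h6.symm.trans h5.1.symm) (g.ne_pos _)
          · rw [dif_neg h, dif_neg h'] at h3
            exact (Prod.ext_iff.1 h3).2
      · rintro ⟨u', n'⟩ ⟨h1, h2⟩
        rcases h1 with ⟨h3, h4, h5⟩ | ⟨d, h3, h4, ⟨h5, h6⟩ | ⟨h5, h6⟩⟩
        · obtain rfl : u = u' := h3
          dsimp only at h4 h5
          have h : ¬ ∃ d, g.pos d = u ∧ n' = Y.nb (g.slot d) := fun ⟨d, h6, h7⟩ =>
            (h5 d h6).1 ⟨rfl, h7⟩
          refine ⟨n', ⟨h4, ?_⟩, ?_⟩
          · rw [val_int'] at h2
            exact h2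
          · rw [dif_neg h]
        · dsimp only at h3 h4 h6
          subst h3
          have h : ∃ d', g.pos d' = g.pos d ∧ Y.nb (g.slot d) = Y.nb (g.slot d') :=
            ⟨d, rfl, rfl⟩
          refine ⟨Y.nb (g.slot d), ⟨hadj d, ?_⟩, ?_⟩
          · rw [hFe _ d rfl, ← h2, val_ext _ _ d rfl h4]
          · rw [dif_pos h]
            have h7 := Classical.choose_spec h
            have h8 := hinj _ _ h7.1.symm h7.2
            rw [← h8, h6, h4]
        · dsimp only at h3 h5
          subst h3
          exact absurd h5.symm (hrn d)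
    · by_cases hB : ∃ d, g.pos d = u ∧ n = Y.nb (g.slot d)
      · obtain ⟨d, rfl, rfl⟩ := hB
        refine Set.ncard_congr (fun n' _ => if n' = Y.r (g.mv (g.pos d)) then
          (g.pos (g.rev d), Y.nb (g.slot (g.rev d))) else (g.pos d, n')) ?_ ?_ ?_
        · rintro n' ⟨h1, h2⟩
          by_cases h : n' = Y.r (g.mv (g.pos d))
          · rw [if_pos h]
            refine ⟨Or.inr ⟨d, rfl, rfl, Or.inr ⟨rfl, rfl⟩⟩, ?_⟩
            rw [val_ext _ _ d rfl rfl, ← h2, h, (F _).inv_fd (hadj d), Dart.edge_inv, hFe _ d rfl]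
          · rw [if_neg h]
            refine ⟨Or.inl ⟨rfl, h1, fun d' hd' => ⟨fun h3 => hA h3.1, fun h3 => h h3.1⟩⟩, ?_⟩
            rw [val_int']
            exact h2
        · rintro n' n'' ⟨h1, -⟩ ⟨h2, -⟩ h3
          by_cases h : n' = Y.r (g.mv (g.pos d))
          · by_cases h' : n'' = Y.r (g.mv (g.pos d))
            · rw [h, h']
            · rw [if_pos h, if_neg h'] at h3
              exact absurd (Prod.ext_iff.1 h3).1 (g.ne_pos d)
          · by_cases h' : n'' = Y.r (g.mv (g.pos d))
            · rw [if_neg h, if_pos h'] at h3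
              exact absurd (Prod.ext_iff.1 h3).1.symm (g.ne_pos d)
            · rw [if_neg h, if_neg h'] at h3
              exact (Prod.ext_iff.1 h3).2
        · rintro ⟨u', n'⟩ ⟨h1, h2⟩
          rcases h1 with ⟨h3, h4, h5⟩ | ⟨d', h3, h4, ⟨h5, h6⟩ | ⟨h5, h6⟩⟩
          · obtain rfl : g.pos d = u' := h3
            dsimp only at h4 h5
            have h : n' ≠ Y.r (g.mv (g.pos d)) := fun h6 => (h5 d rfl).2 ⟨h6, rfl⟩
            refine ⟨n', ⟨h4, ?_⟩, ?_⟩
            · rw [val_int'] at h2
              exact h2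
            · rw [if_neg h]
          · dsimp only at h3 h5
            exact absurd h5 hA
          · dsimp only at h3 h4 h5 h6
            have h7 := hinj _ _ h3.symm h5
            subst h7
            refine ⟨Y.r (g.mv (g.pos d)), ⟨(hadj d).symm, ?_⟩, ?_⟩
            · rw [(F _).inv_fd (hadj d), Dart.edge_inv, hFe _ d rfl, ← h2, val_ext _ _ d rfl h4]
            · rw [if_pos rfl, h6, h4]
      · refine Set.ncard_congr (fun n' _ => (u, n')) ?_ ?_ ?_
        · rintro n' ⟨h1, h2⟩
          refine ⟨Or.inl ⟨rfl, h1, fun d hd => ⟨fun h3 => hA h3.1, fun h3 => hB ⟨d, hd, h3.2⟩⟩⟩, ?_⟩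
          rw [val_int']
          exact h2
        · rintro n' n'' _ _ h3
          exact (Prod.ext_iff.1 h3).2
        · rintro ⟨u', n'⟩ ⟨h1, h2⟩
          rcases h1 with ⟨h3, h4, h5⟩ | ⟨d', h3, h4, ⟨h5, h6⟩ | ⟨h5, h6⟩⟩
          · obtain rfl : u = u' := h3
            refine ⟨n', ⟨h4, ?_⟩, rfl⟩
            rw [val_int'] at h2
            exact h2
          · exact absurd h5 hA
          · exact absurd ⟨d', h3, h5⟩ hB
  refine ⟨fv, fe, isCover_iff.2 ⟨?_, ?_⟩, ?_, ?_⟩
  · intro a b hab
    rw [fe_eq a b hab]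
    rcases hab with ⟨h1, h2, -⟩ | ⟨d, h1, h2, ⟨h3, h4⟩ | ⟨h3, h4⟩⟩
    · rw [val_int a b h1]
      have h5 := ((F a.1).fd a.2 b.2).joins
      rw [(F a.1).src_fd h2, (F a.1).tgt_fd h2] at h5
      simp only [fv]
      rw [← h1]
      exact h5
    · rw [val_ext a b d h1 h2]
      simp only [fv]
      rw [h3, h4, hFr, hFr, ← h1, ← h2]
      exact hs.joins d
    · rw [val_ext a b d h1 h2]
      simp only [fv]
      rw [h3, h4, hFn _ d h1, hFn _ (g.rev d) h2, g.rev_rev]
      exact (hs.joins d).symm
  · intro a e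
    rw [← (F a.1).ncard_eq a.2 e, ← key a e]
    congr 1
    ext b
    constructor
    · rintro ⟨h1, h2⟩
      exact ⟨h1, by rw [← fe_eq a b h1]; exact h2⟩
    · rintro ⟨h1, h2⟩
      exact ⟨h1, by rw [fe_eq a b h1]; exact h2⟩
  · intro a
    refine ⟨hFt _ _, fun h => ?_⟩
    simp only [fv]
    rw [h, hFr]
    exact hs.lv _
  · intro a b hab d h1 h2 h3 h4
    rw [fe_eq a b hab, val_ext a b d h1 h2]
    exact hs.le d

end Graph

end Pool.Agent.Lib.MP_9c5086_lc
end

section

/-!
The completion has a list cover iff the gadget has a solution.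
-/

namespace Pool.Agent.Lib.MP_9c5086_lc

namespace Graph

variable {V E I : Type} {H : Graph V E} {t : V → I} {Col : Type} {S : Setup H t Col}
  {sg : Empty → Bool}

theorem full_iff [Finite V] [Finite E] [Nonempty E] (ht : H.Equitable t) (Y : Univ H t)
    (g : Gadget S Empty sg) (c : Empty → Col) :
    (∃ fv fe, H.IsCover (fullGraph Y g) fv fe ∧ (∀ a, fv a ∈ fullLv Y g a) ∧
      ∀ a b, (fullGraph Y g).Adj a b → fe s(a, b) ∈ fullLe Y g a b) ↔ g.Sat c :=
  ⟨fun ⟨fv, fe, h, hv, he⟩ => full_mp Y g c fv fe h hv he, fun h => full_mpr ht Y g c h⟩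

end Graph

end Pool.Agent.Lib.MP_9c5086_lc
end

section

/-!
Greatest fixed points by iterated filtering, and sum types, for typed polynomial time functions.
-/

set_option autoImplicit false
set_option linter.unusedSimpArgs false
set_option linter.unusedVariables false
set_option linter.unusedSectionVars false

namespace Pool.Agent.Lib.PLib

open Pool.Agent.Lib.MP_20e1d9_lc (PT PT.of_eq PT.of_word PT.size PT.comp)
open Pool.Agent.Lib.MP_20e1d9_lc.PL
open Pool.Agent.Lib.MP_9c2350_lc

/-! ### Greatest fixed points -/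

/-- Delete the elements which do not satisfy the condition `c` (which may depend on the current
list), until nothing changes. -/
def gfp {γ : Type} (c : List γ → γ → Bool) (l : List γ) : List γ :=
  (fun m => m.filter (c m))^[l.length] l

section

variable {γ : Type} {c : List γ → γ → Bool} {l : List γ}

theorem gfp_subset : ∀ a ∈ gfp c l, a ∈ l := by
  have h : ∀ k, ∀ a ∈ (fun m => m.filter (c m))^[k] l, a ∈ l := by
    intro k
    induction k with
    | zero => intro a ha; exact ha
    | succ k ih =>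
      intro a ha
      rw [Function.iterate_succ_apply'] at ha
      exact ih a (List.mem_filter.1 ha).1
  exact h _

theorem gfp_stable : ∀ a ∈ gfp c l, c (gfp c l) a = true := by
  have h : ∀ k, (∀ a ∈ (fun m => m.filter (c m))^[k] l,
      c ((fun m => m.filter (c m))^[k] l) a = true) ∨
      ((fun m => m.filter (c m))^[k] l).length + k ≤ l.length := by
    intro k
    induction k with
    | zero => right; exact le_refl _
    | succ k ih =>
      rw [Function.iterate_succ_apply']
      generalize (fun m => m.filter (c m))^[k] l = m at ih ⊢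
      rcases ih with ih | ih
      · left
        have e : m.filter (c m) = m := List.filter_eq_self.2 ih
        rw [e]
        exact ih
      · by_cases hs : ∀ a ∈ m, c m a = true
        · left
          have e : m.filter (c m) = m := List.filter_eq_self.2 hs
          rw [e]
          exact hs
        · right
          have h1 := List.length_filter_lt_length_iff_exists.2 (by
            by_contra hne
            apply hs
            intro a ha
            by_contra hca
            exact hne ⟨a, ha, hca⟩ : ∃ x ∈ m, ¬ c m x = true)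
          show (m.filter (c m)).length + (k + 1) ≤ l.length
          omega
  rcases h l.length with h | h
  · exact h
  · intro a ha
    have h1 : ((fun m => m.filter (c m))^[l.length] l).length = 0 := by omega
    rw [List.length_eq_zero_iff] at h1
    unfold gfp at ha
    rw [h1] at ha
    simp at ha

theorem gfp_greatest (S : γ → Prop) (h0 : ∀ a, S a → a ∈ l)
    (h1 : ∀ m : List γ, (∀ a, S a → a ∈ m) → ∀ a, S a → c m a = true) :
    ∀ a, S a → a ∈ gfp c l := by
  have h : ∀ k, ∀ a, S a → a ∈ (fun m => m.filter (c m))^[k] l := by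
    intro k
    induction k with
    | zero => exact h0
    | succ k ih =>
      intro a ha
      rw [Function.iterate_succ_apply']
      exact List.mem_filter.2 ⟨ih a ha, h1 _ ih a ha⟩
  exact h _

end

variable {α β γ σ δ : Type} [Enc α] [Enc β] [Enc γ] [Enc σ] [Enc δ]

theorem sz_filter_le (l : List γ) (f : γ → Bool) : sz (l.filter f) ≤ sz l := by
  induction l with
  | nil => exact le_refl _
  | cons a l ih =>
    rw [List.filter_cons]
    split_ifs
    · rw [sz_cons, sz_cons]; omega
    · rw [sz_cons]; omega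

@[fun_prop]
theorem gfpPT {c : α → List γ → γ → Bool} {l : α → List γ} (hl : PT l)
    (hc : PT fun y : α × List γ × γ => c y.1 y.2.1 y.2.2) : PT (fun x => gfp (c x) (l x)) := by
  have hc' : PT fun y : (α × List γ) × γ => c y.1.1 y.1.2 y.2 :=
    PT.comp (f := fun y : α × List γ × γ => c y.1 y.2.1 y.2.2)
      (g := fun y : (α × List γ) × γ => (y.1.1, y.1.2, y.2)) hc (by fun_prop)
  have hf : PT fun y : α × List γ => y.2.filter (c y.1 y.2) :=
    filter (p := fun (y : α × List γ) (b : γ) => c y.1 y.2 b) (by fun_prop) hc'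
  exact iterateA (n := fun x => (l x).length) (s0 := l) (f := fun x m => m.filter (c x m))
    (by fun_prop) hl hf (PB.const 0) (fun x s => sz_filter_le _ _)

/-! ### Sum types -/

instance : Enc (α ⊕ β) := ⟨fun s => match s with
  | .inl a => Enc.enc (false, a)
  | .inr b => Enc.enc (true, b)⟩

instance [EncI α] [EncI β] : EncI (α ⊕ β) := ⟨fun s t h => by
  rcases s with a | a <;> rcases t with b | b
  · have h' : (Enc.enc (false, a) : Dat) = Enc.enc (false, b) := h
    have := EncI.inj h'
    simp only [Prod.mk.injEq, true_and] at this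
    rw [this]
  · have h' : Dat.cons (Enc.enc false) (Enc.enc a) = Dat.cons (Enc.enc true) (Enc.enc b) := h
    rw [Dat.cons.injEq] at h'
    exact absurd (EncI.inj h'.1) (by decide)
  · have h' : Dat.cons (Enc.enc true) (Enc.enc a) = Dat.cons (Enc.enc false) (Enc.enc b) := h
    rw [Dat.cons.injEq] at h'
    exact absurd (EncI.inj h'.1) (by decide)
  · have h' : (Enc.enc (true, a) : Dat) = Enc.enc (true, b) := h
    have := EncI.inj h'
    simp only [Prod.mk.injEq, true_and] at this
    rw [this]⟩

@[fun_prop]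
theorem inlPT {f : α → γ} (hf : PT f) : PT (fun x => (Sum.inl (f x) : γ ⊕ δ)) :=
  PT.of_word (g := fun x => (false, f x)) (by fun_prop) (fun x => x) (fun _ => rfl) (fun _ => rfl)

@[fun_prop]
theorem inrPT {f : α → γ} (hf : PT f) : PT (fun x => (Sum.inr (f x) : δ ⊕ γ)) :=
  PT.of_word (g := fun x => (true, f x)) (by fun_prop) (fun x => x) (fun _ => rfl) (fun _ => rfl)

theorem isNilD {f : α → Dat} [∀ x, Decidable (f x = Dat.nil)] (hf : PT f) :
    PT (fun x => decide (f x = Dat.nil)) :=
  eq hf (const _)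

@[fun_prop]
theorem getLeft? {s : α → γ ⊕ δ} (hs : PT s) : PT (fun x => (s x).getLeft?) := by
  classical
  have h : PT fun d : Dat => if Dat.car d = Dat.nil then [Dat.cdr d] else [] :=
    ite (isNilD MP_9c2350_lc.Poly.car)
      (cons MP_9c2350_lc.Poly.cdr (const _)) (const _)
  have h2 : PT fun s : γ ⊕ δ => s.getLeft? := by
    refine h.of_word (fun s => Enc.enc s) (fun _ => rfl) (fun s => ?_)
    rcases s with a | a
    · have : Dat.car (Enc.enc (Sum.inl a : γ ⊕ δ)) = Dat.nil := rfl
      rw [if_pos this]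
      rfl
    · have : Dat.car (Enc.enc (Sum.inr a : γ ⊕ δ)) ≠ Dat.nil := by
        intro h
        exact absurd h (by intro h; cases h)
      rw [if_neg this]
      rfl
  exact h2.comp hs

@[fun_prop]
theorem getRight? {s : α → γ ⊕ δ} (hs : PT s) : PT (fun x => (s x).getRight?) := by
  classical
  have h : PT fun d : Dat => if Dat.car d = Dat.nil then [] else [Dat.cdr d] :=
    ite (isNilD MP_9c2350_lc.Poly.car)
      (const _) (cons MP_9c2350_lc.Poly.cdr (const _))
  have h2 : PT fun s : γ ⊕ δ => s.getRight? := by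
    refine h.of_word (fun s => Enc.enc s) (fun _ => rfl) (fun s => ?_)
    rcases s with a | a
    · have : Dat.car (Enc.enc (Sum.inl a : γ ⊕ δ)) = Dat.nil := rfl
      rw [if_pos this]
      rfl
    · have : Dat.car (Enc.enc (Sum.inr a : γ ⊕ δ)) ≠ Dat.nil := by
        intro h
        exact absurd h (by intro h; cases h)
      rw [if_neg this]
      rfl
  exact h2.comp hs

end Pool.Agent.Lib.PLib
end

section

/-!
The instance of a template has a list cover iff the gadget has a solution.
-/

namespace Pool.Agent.Lib.MP_9c5086_lc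

open Pool.Agent.Lib.PolyTime

namespace Graph

variable {V E I : Type} {H : Graph V E} {t : V → I} {Col : Type} {S : Setup H t Col}
  {Ch Cv : Type} [Finite Ch] [Finite Cv] {p q : ℕ} (Y : Univ H t)
  (g : Kind → Gadget S (TPort Ch Cv) tsg) (jv : V → Fin p) (je : E → Fin q)

theorem nodup_vlist (Z : List ZSym) : (vlist Y g Z).Nodup := by
  unfold vlist
  rw [List.nodup_flatMap]
  refine ⟨fun a _ => ?_, ?_⟩
  · rw [List.nodup_flatMap]
    refine ⟨fun b _ => ?_, ?_⟩
    · refine List.Nodup.map ?_ (Finset.nodup_toList _)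
      rintro ⟨u, x⟩ ⟨u', x'⟩ h
      have h1 := congrArg Prod.fst h
      have h2 : x = x' := congrArg Prod.snd h
      have h3 : u = u' := eq_of_heq (Sigma.mk.inj h1).2
      rw [h2, h3]
    · refine (List.nodup_finRange _).imp ?_
      intro b b' hb z hz hz'
      obtain ⟨ux, -, rfl⟩ := List.mem_map.1 hz
      obtain ⟨ux', -, h⟩ := List.mem_map.1 hz'
      have h1 := congrArg Prod.fst h
      have h2 := (Sigma.mk.inj h1).1
      exact hb (congrArg Prod.snd h2).symm
  · refine (List.nodup_finRange _).imp ?_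
    intro a a' ha z hz hz'
    obtain ⟨b, -, hz⟩ := List.mem_flatMap.1 hz
    obtain ⟨b', -, hz'⟩ := List.mem_flatMap.1 hz'
    obtain ⟨ux, -, rfl⟩ := List.mem_map.1 hz
    obtain ⟨ux', -, h⟩ := List.mem_map.1 hz'
    have h1 := congrArg Prod.fst h
    have h2 := (Sigma.mk.inj h1).1
    exact ha (congrArg Prod.fst h2).symm

theorem mem_vlist (Z : List ZSym) (v : (tg g Z).U × Y.X) : v ∈ vlist Y g Z := by
  obtain ⟨⟨⟨a, b⟩, u⟩, x⟩ := v
  unfold vlist
  refine List.mem_flatMap.2 ⟨a, List.mem_finRange a, ?_⟩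
  refine List.mem_flatMap.2 ⟨b, List.mem_finRange b, ?_⟩
  refine List.mem_map.2 ⟨(u, x), ?_, rfl⟩
  unfold names
  simp

private theorem isCover_comap {V' E' W W' : Type} {H' : Graph V' E'} {G : SimpleGraph W}
    (e : W' ≃ W) {fv : W → V'} {fe : Sym2 W → E'} (h : H'.IsCover G fv fe) :
    H'.IsCover (G.comap e) (fun u => fv (e u)) (fun z => fe (z.map e)) := by
  have key : ∀ (u : W') (x : E'),
      {v | (G.comap e).Adj u v ∧ fe (Sym2.map e s(u, v)) = x}.ncard =
        {v | G.Adj (e u) v ∧ fe s(e u, v) = x}.ncard := by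
    intro u x
    rw [← Set.ncard_image_of_injective _ e.injective]
    congr 1
    ext w
    constructor
    · rintro ⟨v, ⟨h1, h2⟩, rfl⟩
      exact ⟨h1, h2⟩
    · rintro ⟨h1, h2⟩
      refine ⟨e.symm w, ⟨?_, ?_⟩, e.apply_symm_apply w⟩
      · show G.Adj (e u) (e (e.symm w))
        rw [e.apply_symm_apply]
        exact h1
      · show fe s(e u, e (e.symm w)) = x
        rw [e.apply_symm_apply]
        exact h2
  refine ⟨fun u v huv => h.joins _ _ huv, ?_, ?_, ?_⟩
  · intro x a b ha hb hab u hu
    exact (key u x).trans (h.ordinary x a b ha hb hab (e u) hu)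
  · intro x a ha hb u hu
    exact (key u x).trans (h.loop x a ha hb (e u) hu)
  · intro x a ha hb u hu
    exact (key u x).trans (h.semi x a ha hb (e u) hu)

/-- The instance of a template has a list cover iff the gadget has a solution. -/
theorem outInst_cover [Finite V] [Finite E] [Nonempty E] (ht : H.Equitable t)
    (H' : Graph (Fin p) (Fin q)) (em : Emb H H') (Z : List ZSym) (c : Empty → Col) :
    H'.HasListCover (outInst Y g em.jv em.je Z) ↔ (tg g Z).Sat c := by
  classical
  rw [← full_iff ht Y (tg g Z) c, em.cover_iff]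
  let e : Fin (vlist Y g Z).length ≃ (tg g Z).U × Y.X :=
    List.Nodup.getEquivOfForallMemList (vlist Y g Z) (nodup_vlist Y g Z) (mem_vlist Y g Z)
  have hget : ∀ i, (vlist Y g Z).get i = e i := fun i => rfl
  have hLv : ∀ i x, x ∈ (outInst Y g em.jv em.je Z).Lv i ↔
      x ∈ em.jv '' fullLv Y (tg g Z) (e i) := by
    intro i x
    simp only [outInst, Finset.mem_filter, Finset.mem_univ, true_and, hget]
  have hLe : ∀ i j x, x ∈ (outInst Y g em.jv em.je Z).Le s(i, j) ↔
      x ∈ em.je '' fullLe Y (tg g Z) (e i) (e j) := by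
    intro i j x
    simp only [outInst, Finset.mem_filter, Finset.mem_univ, true_and, hget, Set.mem_image]
    constructor
    · rintro ⟨e₀, h1, h2⟩
      exact ⟨e₀, h2 i j rfl, h1⟩
    · rintro ⟨e₀, h1, h2⟩
      refine ⟨e₀, h2, ?_⟩
      intro i' j' hij
      rcases Sym2.eq_iff.1 hij with ⟨h3, h4⟩ | ⟨h3, h4⟩
      · rw [← h3, ← h4]
        exact h1
      · rw [← h3, ← h4, fullLe_comm]
        exact h1
  constructor
  · rintro ⟨fv, fe, hc, hv, he⟩
    have hc' := isCover_comap (G := (fullGraph Y (tg g Z)).comap e) e.symm hc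
    have hG : ((fullGraph Y (tg g Z)).comap e).comap e.symm = fullGraph Y (tg g Z) := by
      ext a b
      show (fullGraph Y (tg g Z)).Adj (e (e.symm a)) (e (e.symm b)) ↔ _
      rw [e.apply_symm_apply, e.apply_symm_apply]
    rw [hG] at hc'
    refine ⟨_, _, hc', ?_, ?_⟩
    · intro a
      have h1 := (hLv (e.symm a) _).1 (hv (e.symm a))
      rwa [e.apply_symm_apply] at h1
    · intro a b hab
      have h2 : (outInst Y g em.jv em.je Z).G.Adj (e.symm a) (e.symm b) := by
        show (fullGraph Y (tg g Z)).Adj (e (e.symm a)) (e (e.symm b))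
        rw [e.apply_symm_apply, e.apply_symm_apply]
        exact hab
      have h1 := (hLe (e.symm a) (e.symm b) _).1 (he _ _ h2)
      rw [e.apply_symm_apply, e.apply_symm_apply] at h1
      exact h1
  · rintro ⟨fv, fe, hc, hv, he⟩
    refine ⟨_, _, isCover_comap e hc, ?_, ?_⟩
    · intro i
      exact (hLv i _).2 (hv (e i))
    · intro i j hij
      exact (hLe i j _).2 (he _ _ hij)

end Graph

end Pool.Agent.Lib.MP_9c5086_lc
end

section

/-!
Polynomial time: sums, finite case distinctions, greatest fixed points. The encodings of sums are in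
`PLib/Gfp.lean`.
-/

set_option linter.unusedSectionVars false

namespace Pool.Agent.Lib.MP_9c5086_lc

open Pool.Agent.Lib.MP_9c2350_lc (Enc)
open Pool.Agent.Lib.MP_20e1d9_lc Pool.Agent.Lib.PLib

variable {α β γ δ κ : Type} [Enc α] [Enc β] [Enc γ] [Enc δ] [Enc κ]

namespace PTX

@[fun_prop]
theorem inl {f : α → β} (hf : PT f) : PT (fun x => (Sum.inl (f x) : β ⊕ γ)) := inlPT hf

@[fun_prop]
theorem inr {f : α → γ} (hf : PT f) : PT (fun x => (Sum.inr (f x) : β ⊕ γ)) := inrPT hf

private theorem fin_list [EncI κ] [DecidableEq κ] {F : κ → α → β} (hF : ∀ k, PT (F k)) {g : α → κ}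
    (hg : PT g) (k0 : κ) (l : List κ) :
    PT fun x => if g x ∈ l then F (g x) x else F k0 x := by
  induction l with
  | nil => exact (hF k0).of_eq fun x => by simp
  | cons a l ih =>
    have h1 : PT fun x => if g x = a then F a x else (if g x ∈ l then F (g x) x else F k0 x) :=
      PL.ite (PLib.eq hg (PL.const a)) (hF a) ih
    refine h1.of_eq fun x => ?_
    by_cases hxa : g x = a
    · rw [if_pos hxa, if_pos (by rw [hxa]; exact List.mem_cons_self), hxa]
    · rw [if_neg hxa]
      by_cases hl : g x ∈ l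
      · rw [if_pos hl, if_pos (List.mem_cons_of_mem _ hl)]
      · rw [if_neg hl, if_neg]
        intro h
        rcases List.mem_cons.1 h with h | h
        · exact hxa h
        · exact hl h

/-- Finite case distinctions. -/
theorem fin_cases [Finite κ] [EncI κ] {F : κ → α → β} (hF : ∀ k, PT (F k)) {g : α → κ}
    (hg : PT g) : PT fun x => F (g x) x := by
  classical
  have : Fintype κ := Fintype.ofFinite κ
  rcases isEmpty_or_nonempty κ with h | h
  · refine ⟨.skip, fun _ => 1, MP_9c2350_lc.PB.const 1, fun x => (h.false (g x)).elim⟩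
  · refine (fin_list hF hg (Classical.arbitrary κ) Finset.univ.toList).of_eq fun x => ?_
    rw [if_pos (Finset.mem_toList.2 (Finset.mem_univ _))]

@[fun_prop]
theorem memB [EncI γ] [DecidableEq γ] {f : α → γ} {l : α → List γ} (hf : PT f) (hl : PT l) :
    PT (fun x => Alg.memB (f x) (l x)) :=
  PLib.mem hf hl

theorem gfp {p : α → List γ → γ → Bool} {L : α → List γ}
    (hp : PT fun q : α × (List γ × γ) => p q.1 q.2.1 q.2.2) (hL : PT L) :
    PT fun x => Alg.gfp (p x) (L x) :=
  gfpPT hL hp

private theorem sup_aux {D V E : Type} [Enc D] [Enc V] [Enc E] [EncI D] [DecidableEq D]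
    (fs : List (E × V)) : ∀ {α : Type} [Enc α] {r : α → D → E × V → Bool}
    (_ : PT fun q : α × (D × (E × V)) => r q.1 q.2.1 q.2.2) {l : α → List D} (_ : PT l),
    PT fun x => Alg.sup (r x) fs (l x) := by
  induction fs with
  | nil =>
    intro α _ r hr l hl
    exact (PLib.eq hl (PL.const [])).of_eq fun x => rfl
  | cons φ φs ih =>
    intro α _ r hr l hl
    have hl' : PT fun y : α × D => (l y.1).filter fun d' => !decide (d' = y.2) := by fun_prop
    have hr' : PT fun q : (α × D) × (D × (E × V)) => r q.1.1 q.2.1 q.2.2 :=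
      PT.comp (f := fun q : α × (D × (E × V)) => r q.1 q.2.1 q.2.2)
        (g := fun q : (α × D) × (D × (E × V)) => (q.1.1, q.2)) hr (by fun_prop)
    have h1 := ih (r := fun y : α × D => r y.1) hr' hl'
    have h2 : PT fun y : α × D => r y.1 y.2 φ :=
      PT.comp (f := fun q : α × (D × (E × V)) => r q.1 q.2.1 q.2.2)
        (g := fun y : α × D => (y.1, (y.2, φ))) hr (by fun_prop)
    have h3 : PT fun y : α × D => r y.1 y.2 φ &&
        Alg.sup (r y.1) φs ((l y.1).filter fun d' => !decide (d' = y.2)) := by fun_prop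
    have h4 : PT fun x => (l x).any fun d => r x d φ &&
        Alg.sup (r x) φs ((l x).filter fun d' => !decide (d' = d)) := by fun_prop
    exact h4

/-- The test for bijections to a fixed list of flags. -/
theorem sup {D V E : Type} [Enc D] [Enc V] [Enc E] [EncI D] [DecidableEq D] (fs : List (E × V))
    {r : α → D → E × V → Bool} (hr : PT fun q : α × (D × (E × V)) => r q.1 q.2.1 q.2.2)
    {l : α → List D} (hl : PT l) : PT fun x => Alg.sup (r x) fs (l x) :=
  sup_aux fs hr hl

end PTX

end Pool.Agent.Lib.MP_9c5086_lc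
end

section

/-!
Polynomial time: the forest of alternating paths.
-/

set_option linter.unusedSectionVars false

namespace Pool.Agent.Lib.MP_9c5086_lc

open Pool.Agent.Lib.MP_9c2350_lc (Enc)
open Pool.Agent.Lib.MP_20e1d9_lc Pool.Agent.Lib.PLib

namespace PM

variable {α γ : Type} [Enc α] [Enc γ] [EncI γ] [DecidableEq γ]

@[fun_prop]
theorem PT_ends {M : α → List (γ × γ)} (hM : PT M) : PT fun x => ends (M x) := by
  have h : PT fun x => (M x).flatMap fun e => [e.1, e.2] := by fun_prop
  exact h

@[fun_prop]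
theorem PT_adj {E : α → List (γ × γ)} {a b : α → γ} (hE : PT E) (ha : PT a) (hb : PT b) :
    PT fun x => decide (Adj (E x) (a x) (b x)) := by
  have h : PT fun x => !(decide (a x = b x)) &&
      (decide ((a x, b x) ∈ E x) || decide ((b x, a x) ∈ E x)) := by fun_prop
  refine h.of_eq fun x => ?_
  rw [Bool.eq_iff_iff]
  simp [Adj]

@[fun_prop]
theorem PT_untouched {M : α → List (γ × γ)} {c : α → List γ} (hM : PT M) (hc : PT c) :
    PT fun x => untouched (M x) (c x) := by
  have h : PT fun x => (M x).filter fun e => !(decide (e.1 ∈ c x)) && !(decide (e.2 ∈ c x)) := by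
    fun_prop
  refine h.of_eq fun x => ?_
  unfold untouched
  congr 1
  funext e
  simp

private theorem PT_mate {M : α → List (γ × γ)} {a : α → γ} (hM : PT M) (ha : PT a) :
    PT fun x => mate (M x) (a x) := by
  have h : PT fun x => (M x).flatMap fun e =>
      if e.1 = a x then [e.2] else if e.2 = a x then [e.1] else [] := by fun_prop
  exact h

private theorem PT_roots {V : α → List γ} {M : α → List (γ × γ)} (hV : PT V) (hM : PT M) :
    PT fun x => roots (V x) (M x) := by
  have h : PT fun x => ((V x).filter fun v => !(decide (v ∈ ends (M x)))).map fun v => [v] := by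
    fun_prop
  refine h.of_eq fun x => ?_
  unfold roots
  congr 2
  funext v
  simp

private theorem ext_eq (V : List γ) (E M : List (γ × γ)) (F : List (List γ)) (p : List γ) :
    ext V E M F p = (p.head?.toList).flatMap fun h => V.flatMap fun y =>
      if Adj E h y ∧ y ∉ F.flatten then (mate M y).map fun z => z :: y :: p else [] := by
  cases p with
  | nil => rfl
  | cons h t => simp [ext]

private theorem addStep_eq (V : List γ) (E M : List (γ × γ)) (F : List (List γ)) :
    addStep V E M F = ((F.flatMap (ext V E M F)).head?.toList) ++ F := by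
  unfold addStep
  cases F.flatMap (ext V E M F) <;> rfl

private theorem PT_ext {V : α → List γ} {E M : α → List (γ × γ)} {F : α → List (List γ)}
    {p : α → List γ} (hV : PT V) (hE : PT E) (hM : PT M) (hF : PT F) (hp : PT p) :
    PT fun x => ext (V x) (E x) (M x) (F x) (p x) := by
  have h : PT fun x => ((p x).head?.toList).flatMap fun h => (V x).flatMap fun y =>
      if (decide (Adj (E x) h y) && !(decide (y ∈ (F x).flatten))) = true
      then (mate (M x) y).map fun z => z :: y :: p x else [] := by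
    have h1 : PT fun q : (α × γ) × γ => (mate (M q.1.1) q.2).map fun z => z :: q.2 :: p q.1.1 := by
      have h2 : PT fun q : (α × γ) × γ => mate (M q.1.1) q.2 := PT_mate (by fun_prop) (by fun_prop)
      fun_prop
    fun_prop
  refine h.of_eq fun x => ?_
  rw [ext_eq]
  simp

@[fun_prop]
theorem PT_addStep {V : α → List γ} {E M : α → List (γ × γ)} {F : α → List (List γ)} (hV : PT V)
    (hE : PT E) (hM : PT M) (hF : PT F) : PT fun x => addStep (V x) (E x) (M x) (F x) := by
  have h1 : PT fun q : α × List γ => ext (V q.1) (E q.1) (M q.1) (F q.1) q.2 :=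
    PT_ext (by fun_prop) (by fun_prop) (by fun_prop) (by fun_prop) (by fun_prop)
  have h : PT fun x => (((F x).flatMap fun p => ext (V x) (E x) (M x) (F x) p).head?.toList) ++
      F x := by fun_prop
  refine h.of_eq fun x => ?_
  rw [addStep_eq]

private theorem mate_sz {M : List (γ × γ)} {y z : γ} (h : z ∈ mate M y) :
    Pool.Agent.Lib.MP_9c2350_lc.sz z ≤ Pool.Agent.Lib.MP_9c2350_lc.sz M := by
  unfold mate at h
  rw [List.mem_flatMap] at h
  obtain ⟨e, he, hz⟩ := h
  have h1 := Pool.Agent.Lib.MP_9c2350_lc.sz_le_of_mem he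
  have h2 := Pool.Agent.Lib.MP_9c2350_lc.sz_pair e.1 e.2
  have h3 : Pool.Agent.Lib.MP_9c2350_lc.sz e = Pool.Agent.Lib.MP_9c2350_lc.sz (e.1, e.2) := rfl
  split_ifs at hz
  · rw [List.mem_singleton] at hz
    subst hz
    omega
  · rw [List.mem_singleton] at hz
    subst hz
    omega
  · exact absurd hz (by simp)

private theorem forest_inv (V : List γ) (E M : List (γ × γ)) (B : ℕ)
    (hV : Pool.Agent.Lib.MP_9c2350_lc.sz V ≤ B) (hM : Pool.Agent.Lib.MP_9c2350_lc.sz M ≤ B)
    (k : ℕ) : ((addStep V E M)^[k] (roots V M)).length ≤ V.length + k ∧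
      ∀ p ∈ (addStep V E M)^[k] (roots V M), p.length ≤ 2 * k + 1 ∧
        ∀ z ∈ p, Pool.Agent.Lib.MP_9c2350_lc.sz z ≤ B := by
  induction k with
  | zero =>
    simp only [Function.iterate_zero, id]
    refine ⟨?_, ?_⟩
    · unfold roots
      rw [List.length_map]
      exact List.length_filter_le _ _
    · intro p hp
      unfold roots at hp
      rw [List.mem_map] at hp
      obtain ⟨v, hv, rfl⟩ := hp
      refine ⟨by simp, fun z hz => ?_⟩
      rw [List.mem_singleton] at hz
      subst hz
      exact (Pool.Agent.Lib.MP_9c2350_lc.sz_le_of_mem (List.mem_filter.1 hv).1).le.trans hV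
  | succ k ih =>
    rw [Function.iterate_succ_apply']
    generalize (addStep V E M)^[k] (roots V M) = F at ih
    obtain ⟨i1, i2⟩ := ih
    rw [addStep_eq]
    constructor
    · rw [List.length_append]
      have : (F.flatMap (ext V E M F)).head?.toList.length ≤ 1 := by
        cases (F.flatMap (ext V E M F)).head? <;> simp
      omega
    · intro p hp
      rw [List.mem_append] at hp
      rcases hp with hp | hp
      · rw [Option.mem_toList] at hp
        have h1 : p ∈ F.flatMap (ext V E M F) := List.mem_of_mem_head? hp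
        rw [List.mem_flatMap] at h1
        obtain ⟨p₀, h0, h2⟩ := h1
        cases p₀ with
        | nil => exact absurd h2 (by simp [ext])
        | cons h t =>
          obtain ⟨j1, j2⟩ := i2 _ h0
          unfold ext at h2
          rw [List.mem_flatMap] at h2
          obtain ⟨y, hy, h3⟩ := h2
          split_ifs at h3
          · rw [List.mem_map] at h3
            obtain ⟨z, hz, rfl⟩ := h3
            constructor
            · simp only [List.length_cons] at j1 ⊢
              omega
            · intro w hw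
              rw [List.mem_cons, List.mem_cons] at hw
              rcases hw with rfl | rfl | hw
              · exact (mate_sz hz).trans hM
              · exact (Pool.Agent.Lib.MP_9c2350_lc.sz_le_of_mem hy).le.trans hV
              · exact j2 w hw
          · exact absurd h3 (by simp)
      · obtain ⟨j1, j2⟩ := i2 p hp
        exact ⟨by omega, j2⟩

@[fun_prop]
theorem PT_forest {V : α → List γ} {E M : α → List (γ × γ)} (hV : PT V) (hE : PT E)
    (hM : PT M) : PT fun x => forest (V x) (E x) (M x) := by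
  obtain ⟨qv, hqv, Hv⟩ := hV.size
  obtain ⟨qm, hqm, Hm⟩ := hM.size
  have hf : PT fun y : α × List (List γ) => addStep (V y.1) (E y.1) (M y.1) y.2 := by fun_prop
  have h0 : PT fun x => roots (V x) (M x) := PT_roots hV hM
  have hn : PT fun x => (V x).length := by fun_prop
  refine Pool.Agent.Lib.PLib.iterateB (n := fun x => (V x).length)
    (s0 := fun x => roots (V x) (M x)) (f := fun x F => addStep (V x) (E x) (M x) F) hn h0 hf
    (q := fun n => (qv n + qv n) * (((qv n + qv n + 1) * (qv n + qm n + 1) + 1) + 1) + 1) ?_ ?_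
  · have c1 := Pool.Agent.Lib.MP_9c2350_lc.PB.const 1
    exact ((hqv.add hqv).mul (((((hqv.add hqv).add c1).mul ((hqv.add hqm).add c1)).add c1).add
      c1)).add c1
  · intro x k hk
    have a1 := Hv x
    have a2 := Hm x
    have a3 := Pool.Agent.Lib.MP_9c2350_lc.length_le_sz (V x)
    obtain ⟨h1, h2⟩ := forest_inv (V x) (E x) (M x)
      (qv (Pool.Agent.Lib.MP_9c2350_lc.sz x) + qm (Pool.Agent.Lib.MP_9c2350_lc.sz x))
      (by omega) (by omega) k
    generalize (addStep (V x) (E x) (M x))^[k] (roots (V x) (M x)) = F at h1 h2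
    generalize qv (Pool.Agent.Lib.MP_9c2350_lc.sz x) = v at *
    generalize qm (Pool.Agent.Lib.MP_9c2350_lc.sz x) = m at *
    refine (Pool.Agent.Lib.MP_9c2350_lc.sz_list_le F ((v + v + 1) * (v + m + 1) + 1) ?_).trans ?_
    · intro p hp
      obtain ⟨j1, j2⟩ := h2 p hp
      refine (Pool.Agent.Lib.MP_9c2350_lc.sz_list_le p (v + m) j2).trans ?_
      have : p.length * (v + m + 1) ≤ (v + v + 1) * (v + m + 1) :=
        Nat.mul_le_mul_right _ (by omega)
      omega
    · have : F.length * ((v + v + 1) * (v + m + 1) + 1 + 1) ≤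
          (v + v) * ((v + v + 1) * (v + m + 1) + 1 + 1) := Nat.mul_le_mul_right _ (by omega)
      omega

end PM

end Pool.Agent.Lib.MP_9c5086_lc
end

section

/-!
Polynomial time: one step of the search for larger matchings.
-/

set_option linter.unusedSectionVars false

namespace Pool.Agent.Lib.MP_9c5086_lc

open Pool.Agent.Lib.MP_9c2350_lc (Enc)
open Pool.Agent.Lib.MP_20e1d9_lc Pool.Agent.Lib.PLib

namespace PM

variable {α γ : Type} [Enc α] [Enc γ] [EncI γ] [DecidableEq γ]

/-- The pair of consecutive elements with the given index. -/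
private def pairAt (l : List γ) (i : ℕ) : Option (γ × γ) :=
  (l[i + i]?).bind fun a => (l[i + i + 1]?).map fun b => (a, b)

private theorem pairs_eq (l : List γ) : ∀ k, l.length ≤ 2 * k →
    (List.range k).filterMap (pairAt l) = pairs l := by
  induction l using pairs.induct with
  | case1 a b l ih =>
    intro k hk
    obtain ⟨k, rfl⟩ : ∃ k', k = k' + 1 := ⟨k - 1, by simp at hk; omega⟩
    have h0 : pairAt (a :: b :: l) 0 = some (a, b) := by simp [pairAt]
    rw [List.range_succ_eq_map, List.filterMap_cons, h0, List.filterMap_map]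
    have h1 : (pairAt (a :: b :: l) ∘ Nat.succ) = pairAt l := by
      funext i
      have e1 : i + 1 + (i + 1) = i + i + 1 + 1 := by omega
      simp only [Function.comp, pairAt, Nat.succ_eq_add_one, e1]
      simp only [List.getElem?_cons_succ]
    rw [h1, ih k (by simp at hk; omega)]
    simp [pairs]
  | case2 l h =>
    intro k hk
    have hl : l.length ≤ 1 := by
      rcases l with _ | ⟨a, _ | ⟨b, l⟩⟩
      · simp
      · simp
      · exact (h a b l rfl).elim
    have h2 : pairs l = [] := by
      rcases l with _ | ⟨a, _ | ⟨b, l⟩⟩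
      · rfl
      · rfl
      · exact (h a b l rfl).elim
    rw [h2, List.filterMap_eq_nil_iff]
    intro i _
    have h3 : l[i + i + 1]? = none := by
      rw [List.getElem?_eq_none_iff]
      omega
    simp [pairAt, h3]

@[fun_prop]
theorem PT_pairs {l : α → List γ} (hl : PT l) : PT fun x => pairs (l x) := by
  have h : PT fun x => (List.range (l x).length).filterMap fun i =>
      ((l x)[i + i]?).bind fun a => ((l x)[i + i + 1]?).map fun b => (a, b) := by
    fun_prop
  exact h.of_eq fun x => pairs_eq (l x) _ (by omega)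

@[fun_prop]
theorem PT_found {E : α → List (γ × γ)} {F : α → List (List γ)} (hE : PT E) (hF : PT F) :
    PT fun x => found (E x) (F x) := by
  have h : PT fun x => (F x).flatMap fun p => (F x).flatMap fun q =>
      (p.head?).elim [] fun a => (q.head?).elim [] fun b =>
        if Adj (E x) a b then [(p, q)] else [] := by
    fun_prop
  refine h.of_eq fun x => ?_
  unfold found
  congr 1
  funext p
  congr 1
  funext q
  rcases p with _ | ⟨a, p⟩
  · rfl
  · rcases q with _ | ⟨b, q⟩
    · rfl
    · rfl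

private theorem augStep_eq (s : State γ) : augStep s =
    match s.2.2.2 with
    | [] =>
      match found s.2.1 (forest s.1 s.2.1 s.2.2.1) with
      | [] => (s.1, s.2.1, s.2.2.1, [false])
      | pq :: _ =>
        match pq.1.filter fun x => decide (x ∈ pq.2) with
        | [] => (s.1, s.2.1, s.2.2.1, [true])
        | b :: t => contract s.1 s.2.1 (flip s.2.2.1 (b :: t)) b
            ((pq.1.filter fun x => decide (x ∉ pq.2)).reverse ++
              pq.2.filter fun x => decide (x ∉ pq.1))
    | _ :: _ => s := by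
  obtain ⟨V, E, M, r⟩ := s
  rcases r with _ | ⟨c, r⟩
  · simp only [augStep]
    rcases found E (forest V E M) with _ | ⟨⟨p, q⟩, l⟩
    · rfl
    · simp only
      rcases p.filter fun x => decide (x ∈ q) with _ | ⟨b, t⟩
      · rfl
      · rfl
  · rfl

@[fun_prop]
private theorem PT_flip {M : α → List (γ × γ)} {s : α → List γ} (hM : PT M) (hs : PT s) :
    PT fun x => flip (M x) (s x) := by
  simp only [flip]
  fun_prop

@[fun_prop]
private theorem PT_rn {b : α → γ} {c : α → List γ} {z : α → γ} (hb : PT b) (hc : PT c)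
    (hz : PT z) : PT fun x => rn (b x) (c x) (z x) := by
  simp only [rn]
  fun_prop

@[fun_prop]
private theorem PT_contract {V : α → List γ} {E M : α → List (γ × γ)} {b : α → γ}
    {c : α → List γ} (hV : PT V) (hE : PT E) (hM : PT M) (hb : PT b) (hc : PT c) :
    PT fun x => contract (V x) (E x) (M x) (b x) (c x) := by
  simp only [contract]
  fun_prop

private theorem PT_in {p : α → List γ × List γ} (hp : PT p) :
    PT fun x => (p x).1.filter fun y => decide (y ∈ (p x).2) := by
  fun_prop

private theorem PT_out {p : α → List γ × List γ} (hp : PT p) :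
    PT fun x => ((p x).1.filter fun y => decide (y ∉ (p x).2)).reverse ++
      (p x).2.filter fun y => decide (y ∉ (p x).1) := by
  fun_prop

private theorem PT_three {s : α → State γ} {p : α → List γ × List γ} (hs : PT s) (hp : PT p) :
    PT fun x => match (p x).1.filter fun y => decide (y ∈ (p x).2) with
        | [] => (((s x).1, (s x).2.1, (s x).2.2.1, [true]) : State γ)
        | b :: t => contract (s x).1 (s x).2.1 (flip (s x).2.2.1 (b :: t)) b
            (((p x).1.filter fun y => decide (y ∉ (p x).2)).reverse ++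
              (p x).2.filter fun y => decide (y ∉ (p x).1)) := by
  refine listCase (f := fun x => (((s x).1, (s x).2.1, (s x).2.2.1, [true]) : State γ))
    (g := fun x b t => contract (s x).1 (s x).2.1 (flip (s x).2.2.1 (b :: t)) b
            (((p x).1.filter fun y => decide (y ∉ (p x).2)).reverse ++
              (p x).2.filter fun y => decide (y ∉ (p x).1))) (PT_in hp) (by fun_prop) ?_
  have h1 : PT fun y : α × γ × List γ => ((p y.1).1.filter fun z => decide (z ∉ (p y.1).2)).reverse
      ++ (p y.1).2.filter fun z => decide (z ∉ (p y.1).1) :=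
    (PT_out hp).comp (g := fun y : α × γ × List γ => y.1) (by fun_prop)
  have h2 : PT fun y : α × γ × List γ => y.2.1 :: y.2.2 := by fun_prop
  have h3 : PT fun y : α × γ × List γ => flip (s y.1).2.2.1 (y.2.1 :: y.2.2) := by fun_prop
  exact PT_contract (by fun_prop) (by fun_prop) h3 (by fun_prop) h1

@[fun_prop]
theorem PT_augStep {s : α → State γ} (hs : PT s) : PT fun x => augStep (s x) := by
  have h3 := PT_three (s := fun y : α × (List γ × List γ) × List (List γ × List γ) => s y.1)
      (p := fun y => y.2.1) (by fun_prop) (by fun_prop)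
  have h1 := listCase (l := fun x => found (s x).2.1 (forest (s x).1 (s x).2.1 (s x).2.2.1))
    (f := fun x => (((s x).1, (s x).2.1, (s x).2.2.1, [false]) : State γ))
    (g := fun x (pq : List γ × List γ) (_ : List (List γ × List γ)) =>
      match pq.1.filter fun y => decide (y ∈ pq.2) with
        | [] => ((s x).1, (s x).2.1, (s x).2.2.1, [true])
        | b :: t => contract (s x).1 (s x).2.1 (flip (s x).2.2.1 (b :: t)) b
            ((pq.1.filter fun y => decide (y ∉ pq.2)).reverse ++
              pq.2.filter fun y => decide (y ∉ pq.1))) (by fun_prop) (by fun_prop) h3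
  have h2 := listCase (l := fun x => (s x).2.2.2) (g := fun x (_ : Bool) (_ : List Bool) => s x)
    (by fun_prop) h1 (by fun_prop)
  refine h2.of_eq fun x => ?_
  rw [augStep_eq]
  rcases (s x).2.2.2 with _ | ⟨c, r⟩
  · rcases found (s x).2.1 (forest (s x).1 (s x).2.1 (s x).2.2.1) with _ | ⟨⟨p, q⟩, l⟩
    · rfl
    · rfl
  · rfl

end PM

end Pool.Agent.Lib.MP_9c5086_lc
end
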