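import Mathlib
import Pool.Prelude.Def_F_458e953d

/-!
List covering of graphs with multiple edges, loops and semi-edges: definitions.
-/

namespace Pool.Agent.Lib.MP_9c5086_lc

open N68a2faeb

/-- A graph with vertex set `V` and edge set `E`, possibly with multiple edges, loops and
semi-edges.  The edge `e` has the ends `a e` and `b e`.  If `b e = none`, then `e` is a semi-edge
at `a e`; if `b e = some (a e)`, then `e` is a loop; otherwise it is an ordinary edge. -/
structure Graph (V E : Type) where
  /-- the first end -/
  a : E → V
  /-- the second end, if there is one -/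
  b : E → Option V

namespace Graph

variable {V E : Type} (H : Graph V E)

/-- The vertices `v` and `w` are the ends of `e` (`v = w` for loops and semi-edges). -/
def Joins (e : E) (v w : V) : Prop :=
  (v = H.a e ∧ w = (H.b e).getD (H.a e)) ∨ (w = H.a e ∧ v = (H.b e).getD (H.a e))

/-- A covering projection from a simple graph `G` to `H`, given by its maps `fv` on vertices and
`fe` on edges.  It preserves incidences, the preimage of an ordinary edge `xy` is a perfect
matching between the preimages of `x` and `y`, the preimage of a loop at `x` is a disjoint union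
of cycles spanning the preimage of `x`, and the preimage of a semi-edge at `x` is a perfect
matching of the preimage of `x`. -/
structure IsCover {W : Type} (G : SimpleGraph W) (fv : W → V) (fe : Sym2 W → E) : Prop where
  joins : ∀ u v, G.Adj u v → H.Joins (fe s(u, v)) (fv u) (fv v)
  ordinary : ∀ e x y, H.a e = x → H.b e = some y → x ≠ y → ∀ u, fv u = x ∨ fv u = y →
    {v | G.Adj u v ∧ fe s(u, v) = e}.ncard = 1
  loop : ∀ e x, H.a e = x → H.b e = some x → ∀ u, fv u = x →
    {v | G.Adj u v ∧ fe s(u, v) = e}.ncard = 2
  semi : ∀ e x, H.a e = x → H.b e = none → ∀ u, fv u = x →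
    {v | G.Adj u v ∧ fe s(u, v) = e}.ncard = 1

/-- The darts of `H`: an ordinary edge or loop `e` has two darts `(e, false)` and `(e, true)`, a
semi-edge only the dart `(e, false)`. -/
def Dart : Type := {p : E × Bool // p.2 = true → (H.b p.1).isSome = true}

namespace Dart

variable {H}

/-- The edge of a dart. -/
def edge (d : H.Dart) : E := d.1.1

/-- The source of a dart. -/
def src (d : H.Dart) : V := if d.1.2 then (H.b d.1.1).getD (H.a d.1.1) else H.a d.1.1

/-- The target of a dart. -/
def tgt (d : H.Dart) : V := if d.1.2 then H.a d.1.1 else (H.b d.1.1).getD (H.a d.1.1)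

/-- The inverse of a dart; the dart of a semi-edge is its own inverse. -/
def inv (d : H.Dart) : H.Dart :=
  if h : (H.b d.1.1).isSome = true then ⟨(d.1.1, !d.1.2), fun _ => h⟩ else d

end Dart

/-- The number of ends of `e` at `v`. -/
noncomputable def inc (e : E) (v : V) : ℕ := {d : H.Dart | d.edge = e ∧ d.src = v}.ncard

/-- The degree of a vertex; loops count twice. -/
noncomputable def degree (v : V) : ℕ := {d : H.Dart | d.src = v}.ncard

/-- The class of the vertex `v` and the block `j` of the partition `t` has so many darts: the
darts from `v` to vertices in the block `j`. -/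
noncomputable def classSize {I : Type} (t : V → I) (v : V) (j : I) : ℕ :=
  {d : H.Dart | d.src = v ∧ t d.tgt = j}.ncard

/-- The partition of the vertices into the fibres of `t` is equitable.  The coarsest such
partition is the degree refinement. -/
def Equitable {I : Type} (t : V → I) : Prop :=
  ∀ v w, t v = t w → ∀ j, H.classSize t v j = H.classSize t w j

/-- Some infinite walk without backtracking starts with a dart from `x` to the block `j`. -/
def InfiniteClass {I : Type} (t : V → I) (x : V) (j : I) : Prop :=
  ∃ d : ℕ → H.Dart, (d 0).src = x ∧ t (d 0).tgt = j ∧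
    ∀ r, (d (r + 1)).src = (d r).tgt ∧ d (r + 1) ≠ (d r).inv

/-- Some ordinary edge leads from `x` to the block `j`, or at least three edges do. -/
def RichClass {I : Type} (t : V → I) (x : V) (j : I) : Prop :=
  (∃ d : H.Dart, d.src = x ∧ t d.tgt = j ∧ d.tgt ≠ x) ∨
    3 ≤ {e : E | ∃ d : H.Dart, d.edge = e ∧ d.src = x ∧ t d.tgt = j}.ncard

end Graph

/-- An instance of the list covering problem for graphs with vertex set `Fin p` and edge set
`Fin q`: a simple graph with a list for each vertex and each edge. -/
structure Inst (p q : ℕ) where
  /-- the number of vertices -/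
  n : ℕ
  /-- the graph -/
  G : SimpleGraph (Fin n)
  /-- the lists of the vertices -/
  Lv : Fin n → Finset (Fin p)
  /-- the lists of the edges -/
  Le : Sym2 (Fin n) → Finset (Fin q)

/-- The instance has a covering projection to `H` which respects the lists. -/
def Graph.HasListCover {p q : ℕ} (H : Graph (Fin p) (Fin q)) (I : Inst p q) : Prop :=
  ∃ (fv : Fin I.n → Fin p) (fe : Sym2 (Fin I.n) → Fin q), H.IsCover I.G fv fe ∧
    (∀ u, fv u ∈ I.Lv u) ∧ ∀ u v, I.G.Adj u v → fe s(u, v) ∈ I.Le s(u, v)

/-- The characteristic vector of a set. -/
def bitsOf {p : ℕ} (S : Finset (Fin p)) : List Bool := List.ofFn fun x => decide (x ∈ S)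

/-- The word encoding an instance: the code of the list of its rows; the row of the vertex `i`
consists of the characteristic vector of its list and of one entry for each vertex `j`, which is
`true` followed by the characteristic vector of the list of `ij` if `ij` is an edge, and `false`
otherwise. -/
noncomputable def encodeInst {p q : ℕ} (I : Inst p q) : List Bool :=
  open scoped Classical in
  N487b59b3.bitEncode (List.ofFn fun i : Fin I.n => bitsOf (I.Lv i) :: List.ofFn fun j : Fin I.n =>
    if I.G.Adj i j then true :: bitsOf (I.Le s(i, j)) else [false])

/-- The decision problem LIST-`H`-COVER, restricted to simple input graphs. -/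
noncomputable def LISTCOVER {p q : ℕ} (H : Graph (Fin p) (Fin q)) : DecisionProblem := fun s =>
  open scoped Classical in
  decide (∃ I : Inst p q, s = encodeInst I ∧ H.HasListCover I)

/-- NP-completeness under polynomial-time many-one reductions. -/
def NPComplete (L : DecisionProblem) : Prop := N793a5b8e.IsCompleteFor N68a2faeb.NP L

end Pool.Agent.Lib.MP_9c5086_lc
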