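import Pool.Agent.Lib.MP_9c5086_lc.Basic

/-!
Unions of components.
-/

namespace Pool.Agent.Lib.MP_9c5086_lc

namespace Graph

variable {V E V₀ E₀ I : Type}

/-- `H₀` is a union of components of `H`. -/
structure Emb (H₀ : Graph V₀ E₀) (H : Graph V E) where
  jv : V₀ → V
  je : E₀ → E
  jv_inj : Function.Injective jv
  je_inj : Function.Injective je
  a_je : ∀ e, H.a (je e) = jv (H₀.a e)
  b_je : ∀ e, H.b (je e) = (H₀.b e).map jv
  closed : ∀ e v w, H.Joins e (jv v) w → ∃ e₀, je e₀ = e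

end Graph

end Pool.Agent.Lib.MP_9c5086_lc
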