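import Pool.Agent.Lib.MP_9c5086_lc.Glue

/-!
Leaves and the leaf gadget.
-/

namespace Pool.Agent.Lib.MP_9c5086_lc

namespace Graph

variable {V E I : Type} {H : Graph V E} {t : V → I} (S : Setup H t Bool)

/-- The class of `x` consists of an ordinary edge (colour `true`) and a loop (`false`). -/
structure IsLeaf : Prop where
  j : S.j = t S.x
  loop : (S.dc false).tgt = S.x
  loop' : H.b (S.dc false).edge ≠ none
  ord : (S.dc true).tgt ≠ S.x
  card : H.classSize t S.x S.j = 3

/-- Two closed nonbacktracking walks from the neighbour `Y.nb (S.dc true)` of the root, which avoid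
the fibre of `x` and start with different edges. -/
structure LeafWalks (Y : Univ H t) (f : DCover Y.G H) where
  L : Bool → ℕ
  w : Bool → ℕ → Y.X
  two_le : ∀ b, 2 ≤ L b
  zero : ∀ b, w b 0 = Y.nb (S.dc true)
  last : ∀ b, w b (L b) = Y.nb (S.dc true)
  block : ∀ b r, r ≤ L b → Y.τ (w b r) = t S.x
  avoid : ∀ b r, r ≤ L b → f.fv (w b r) ≠ S.x
  adj : ∀ b r, r < L b → Y.G.Adj (w b r) (w b (r + 1))
  nb : ∀ b r, r + 2 ≤ L b → w b (r + 2) ≠ w b r
  ne : w true 1 ≠ w false 1

namespace LeafWalks

variable {S} {Y : Univ H t} {f : DCover Y.G H} (W : LeafWalks S Y f)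

/-- The lengths of the branches. -/
def m : Fin 3 → ℕ := ![W.L true, W.L false, W.L true + 1]

/-- The vertices of `Y` corresponding to the vertices of the branches. -/
def g (b : Fin 3) (r : ℕ) : Y.X := ![W.w true (r + 1), W.w false (r + 1), W.w true r] b

/-- The neighbours of `Y.nb (S.dc true)` corresponding to the slots of the centre. -/
def nxt : Fin 3 → Y.X := ![W.w true 1, W.w false 1, Y.r S.x]

/-- The neighbours of the first vertices of the branches corresponding to the slots leading to the
centre. -/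
def prv (_ : LeafWalks S Y f) : Fin 3 → Y.X := ![Y.nb (S.dc true), Y.nb (S.dc true), Y.r S.x]

/-- Adjacency in the leaf gadget: a centre and three paths. -/
def Adj : Option (Σ b : Fin 3, Fin (W.m b)) → Option (Σ b : Fin 3, Fin (W.m b)) → Prop
  | none, none => False
  | none, some u => u.2.1 = 0
  | some u, none => u.2.1 = 0
  | some u, some u' => u.1 = u'.1 ∧ (u.2.1 + 1 = u'.2.1 ∨ u'.2.1 + 1 = u.2.1)

/-- The model vertices of the leaf gadget. -/
def mv : Option (Σ b : Fin 3, Fin (W.m b)) → V
  | none => (S.dc true).tgt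
  | some u => f.fv (W.g u.1 u.2.1)

/-- The slots of the leaf gadget. -/
def slot : Option (Σ b : Fin 3, Fin (W.m b)) → Option (Σ b : Fin 3, Fin (W.m b)) → H.Dart
  | none, none => S.dc true
  | none, some u => f.fd (Y.nb (S.dc true)) (W.nxt u.1)
  | some u, none => f.fd (W.g u.1 0) (W.prv u.1)
  | some u, some u' => f.fd (W.g u.1 u.2.1) (W.g u'.1 u'.2.1)

/-- The lists of the edges of the leaf gadget. -/
def Le : Option (Σ b : Fin 3, Fin (W.m b)) → Option (Σ b : Fin 3, Fin (W.m b)) → Set E
  | none, none => ∅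
  | none, some u => if u.1 = 2 then {S.ec true} else
    {(f.fd (Y.nb (S.dc true)) (W.nxt u.1)).edge, S.ec false}
  | some u, none => if u.1 = 2 then {S.ec true} else
    {(f.fd (Y.nb (S.dc true)) (W.nxt u.1)).edge, S.ec false}
  | some u, some u' => {(f.fd (W.g u.1 u.2.1) (W.g u'.1 u'.2.1)).edge, S.ec false}

/-- The lists of the vertices of the leaf gadget. -/
def Lv : Option (Σ b : Fin 3, Fin (W.m b)) → Set V
  | none => {(S.dc true).tgt, S.x}
  | some u => {f.fv (W.g u.1 u.2.1), S.x}

theorem m_pos (b : Fin 3) : 0 < W.m b := by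
  have h1 := W.two_le true
  have h2 := W.two_le false
  fin_cases b <;> simp [m] <;> omega

private theorem m_two (b : Fin 3) : 2 ≤ W.m b := by
  have h1 := W.two_le true
  have h2 := W.two_le false
  fin_cases b <;> simp [m] <;> omega

private theorem adj_root : Y.G.Adj (Y.r S.x) (Y.nb (S.dc true)) := by
  have := Y.adj_nb (S.dc true)
  rwa [S.src_dc] at this

private theorem fv_n1 (hnb : ∀ s : H.Dart, s.src = S.x → f.fd (Y.r S.x) (Y.nb s) = s) :
    f.fv (Y.nb (S.dc true)) = (S.dc true).tgt := by
  rw [← f.tgt_fd (adj_root (S := S) (Y := Y)), hnb _ (S.src_dc true)]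

private theorem fd_n1 (hnb : ∀ s : H.Dart, s.src = S.x → f.fd (Y.r S.x) (Y.nb s) = s) :
    f.fd (Y.nb (S.dc true)) (Y.r S.x) = (S.dc true).inv := by
  rw [f.inv_fd (adj_root (S := S) (Y := Y)), hnb _ (S.src_dc true)]

include W in
private theorem adj_nxt (b : Fin 3) : Y.G.Adj (Y.nb (S.dc true)) (W.nxt b) := by
  have h1 := W.two_le true
  have h2 := W.two_le false
  have h3 := W.adj true 0 (by omega)
  have h4 := W.adj false 0 (by omega)
  rw [W.zero] at h3 h4
  fin_cases b
  · exact h3
  · exact h4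
  · exact (adj_root (S := S) (Y := Y)).symm

private theorem nxt_inj (hx : f.fv (Y.r S.x) = S.x) {b b' : Fin 3} (h : W.nxt b = W.nxt b') :
    b = b' := by
  have h1 := W.two_le true
  have h2 := W.two_le false
  have h3 := W.avoid true 1 (by omega)
  have h4 := W.avoid false 1 (by omega)
  have h5 := W.ne
  have h6 : W.w true 1 ≠ Y.r S.x := fun h => h3 (by rw [h, hx])
  have h7 : W.w false 1 ≠ Y.r S.x := fun h => h4 (by rw [h, hx])
  fin_cases b <;> fin_cases b' <;> simp_all [nxt]

private theorem adj_prv (b : Fin 3) : Y.G.Adj (W.g b 0) (W.prv b) := by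
  have h1 := W.two_le true
  have h2 := W.two_le false
  have h3 := W.adj true 0 (by omega)
  have h4 := W.adj false 0 (by omega)
  have h5 := (adj_root (S := S) (Y := Y)).symm
  rw [W.zero] at h3 h4
  fin_cases b
  · exact h3.symm
  · exact h4.symm
  · change Y.G.Adj (W.w true 0) (Y.r S.x)
    rw [W.zero]
    exact h5

private theorem adj_g (b : Fin 3) (r : ℕ) (h : r + 1 < W.m b) :
    Y.G.Adj (W.g b r) (W.g b (r + 1)) := by
  fin_cases b
  · exact W.adj true (r + 1) h
  · exact W.adj false (r + 1) h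
  · exact W.adj true r (Nat.lt_of_succ_lt_succ h)

private theorem g_ne (b : Fin 3) (r : ℕ) (h : r + 2 < W.m b) : W.g b (r + 2) ≠ W.g b r := by
  fin_cases b
  · exact W.nb true (r + 1) h
  · exact W.nb false (r + 1) h
  · exact W.nb true r (Nat.le_of_lt_succ h)

private theorem avoid_g (b : Fin 3) (r : ℕ) (h : r < W.m b) : f.fv (W.g b r) ≠ S.x := by
  fin_cases b
  · exact W.avoid true (r + 1) h
  · exact W.avoid false (r + 1) h
  · exact W.avoid true r (Nat.le_of_lt_succ h)

private theorem block_g (b : Fin 3) (r : ℕ) (h : r < W.m b) : Y.τ (W.g b r) = t S.x := by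
  fin_cases b
  · exact W.block true (r + 1) h
  · exact W.block false (r + 1) h
  · exact W.block true r (Nat.le_of_lt_succ h)

private theorem g_ne_root (hx : f.fv (Y.r S.x) = S.x) (b : Fin 3) (r : ℕ) (h : r < W.m b) :
    W.g b r ≠ Y.r S.x := fun h' => W.avoid_g b r h (by rw [h', hx])

private theorem prv_ne (hx : f.fv (Y.r S.x) = S.x) (b : Fin 3) : W.prv b ≠ W.g b 1 := by
  have h1 := W.two_le true
  have h2 := W.two_le false
  have h3 := W.nb true 0 (by omega)
  have h4 := W.nb false 0 (by omega)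
  rw [W.zero] at h3 h4
  fin_cases b
  · exact h3.symm
  · exact h4.symm
  · exact (W.g_ne_root hx 2 1 (W.m_two 2)).symm

private theorem g_last (b : Fin 3) : W.g b (W.m b - 1) = Y.nb (S.dc true) := by
  have h1 := W.two_le true
  have h2 := W.two_le false
  fin_cases b
  · change W.w true (W.L true - 1 + 1) = _
    rw [Nat.sub_add_cancel (by omega)]
    exact W.last true
  · change W.w false (W.L false - 1 + 1) = _
    rw [Nat.sub_add_cancel (by omega)]
    exact W.last false
  · exact W.last true

private theorem adj_some (u u' : Σ b : Fin 3, Fin (W.m b)) (h : W.Adj (some u) (some u')) :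
    Y.G.Adj (W.g u.1 u.2.1) (W.g u'.1 u'.2.1) := by
  obtain ⟨b, ⟨r, hr⟩⟩ := u
  obtain ⟨b', ⟨r', hr'⟩⟩ := u'
  obtain ⟨h1, h2⟩ := h
  dsimp only at h1 h2 ⊢
  subst h1
  rcases h2 with h2 | h2
  · subst h2
    exact W.adj_g b r hr'
  · subst h2
    exact (W.adj_g b r' hr).symm

include W in
private theorem τ_n1 : Y.τ (Y.nb (S.dc true)) = t S.x := by
  rw [← W.zero true]
  exact W.block true 0 (Nat.zero_le _)

private theorem τ_nxt (b : Fin 3) : Y.τ (W.nxt b) = t S.x := by
  have h1 := W.two_le true
  have h2 := W.two_le false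
  fin_cases b
  · exact W.block true 1 (by omega)
  · exact W.block false 1 (by omega)
  · exact Y.τ_r S.x

private theorem τ_prv (b : Fin 3) : Y.τ (W.prv b) = t S.x := by
  fin_cases b
  · exact W.τ_n1
  · exact W.τ_n1
  · exact Y.τ_r S.x

private theorem Adj_symm (u u' : Option (Σ b : Fin 3, Fin (W.m b))) (h : W.Adj u u') :
    W.Adj u' u := by
  match u, u', h with
  | none, none, h => exact h
  | none, some u, h => exact h
  | some u, none, h => exact h
  | some u, some u', h => exact ⟨h.1.symm, h.2.symm⟩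

private theorem Adj_irrefl (u : Option (Σ b : Fin 3, Fin (W.m b))) : ¬ W.Adj u u := by
  match u with
  | none => exact fun h => h
  | some u =>
    intro h
    rcases h.2 with h | h <;> omega

/-- The leaf gadget. -/
def proto (hL : IsLeaf S) (hf : ∀ n, t (f.fv n) = Y.τ n) (hx : f.fv (Y.r S.x) = S.x)
    (hnb : ∀ s : H.Dart, s.src = S.x → f.fd (Y.r S.x) (Y.nb s) = s) :
    Proto S (Fin 3) (fun _ => false) where
  U := Option (Σ b : Fin 3, Fin (W.m b))
  finU := inferInstance
  T := {
    Adj := W.Adj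
    symm := ⟨fun u u' h => W.Adj_symm u u' h⟩
    loopless := ⟨fun u h => W.Adj_irrefl u h⟩ }
  mv := W.mv
  slot := W.slot
  pu b := some ⟨b, ⟨W.m b - 1, Nat.sub_lt (W.m_pos b) Nat.one_pos⟩⟩
  ps _ := (S.dc true).inv
  Lv := W.Lv
  Le := W.Le
  LP _ := Set.univ
  src_slot := by
    intro u u' h
    match u, u', h with
    | none, none, h => exact absurd h id
    | none, some u, h =>
      change (f.fd (Y.nb (S.dc true)) (W.nxt u.1)).src = (S.dc true).tgt
      rw [f.src_fd (W.adj_nxt u.1), fv_n1 hnb]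
    | some u, none, h =>
      change (f.fd (W.g u.1 0) (W.prv u.1)).src = f.fv (W.g u.1 u.2.1)
      have h0 : u.2.1 = 0 := h
      rw [f.src_fd (W.adj_prv u.1), h0]
    | some u, some u', h => exact f.src_fd (W.adj_some u u' h)
  src_ps := by
    intro p
    change (S.dc true).inv.src = f.fv (W.g p (W.m p - 1))
    rw [Dart.src_inv, W.g_last, fv_n1 hnb]
  inj_slot := by
    intro u u' u'' h h' h''
    match u, u', u'', h, h', h'' with
    | none, none, _, h, _, _ => exact absurd h id
    | none, some _, none, _, h, _ => exact absurd h id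
    | none, some v, some v', h, h', h'' =>
      have h1 : W.nxt v.1 = W.nxt v'.1 := f.inj_fd (W.adj_nxt v.1) (W.adj_nxt v'.1) h''
      have h2 := W.nxt_inj hx h1
      obtain ⟨b, ⟨r, hr⟩⟩ := v
      obtain ⟨b', ⟨r', hr'⟩⟩ := v'
      have h3 : r = 0 := h
      have h4 : r' = 0 := h'
      have h5 : b = b' := h2
      subst h5 h3 h4
      rfl
    | some u, none, none, _, _, _ => rfl
    | some ⟨b, ⟨r, hr⟩⟩, none, some ⟨b', ⟨r', hr'⟩⟩, h, h', h'' =>
      exfalso
      have h1 : r = 0 := h
      subst h1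
      have h2 : b = b' := h'.1
      subst h2
      have h3 : 0 + 1 = r' ∨ r' + 1 = 0 := h'.2
      have h4 : r' = 1 := by omega
      subst h4
      exact W.prv_ne hx b (f.inj_fd (W.adj_prv b) (W.adj_g b 0 hr') h'')
    | some ⟨b, ⟨r, hr⟩⟩, some ⟨b', ⟨r', hr'⟩⟩, none, h', h, h'' =>
      exfalso
      have h1 : r = 0 := h
      subst h1
      have h2 : b = b' := h'.1
      subst h2
      have h3 : 0 + 1 = r' ∨ r' + 1 = 0 := h'.2
      have h4 : r' = 1 := by omega
      subst h4
      exact W.prv_ne hx b (f.inj_fd (W.adj_g b 0 hr') (W.adj_prv b) h'').symm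
    | some ⟨b, ⟨r, hr⟩⟩, some ⟨b', ⟨r', hr'⟩⟩, some ⟨b'', ⟨r'', hr''⟩⟩, h, h', h'' =>
      have h5 : W.g b' r' = W.g b'' r'' := f.inj_fd (W.adj_some _ _ h) (W.adj_some _ _ h') h''
      have h1 : b = b' := h.1
      have h2 : b = b'' := h'.1
      subst h1 h2
      have h3 : r + 1 = r' ∨ r' + 1 = r := h.2
      have h4 : r + 1 = r'' ∨ r'' + 1 = r := h'.2
      have h6 : r' = r'' := by
        rcases h3 with h3 | h3 <;> rcases h4 with h4 | h4
        · omega
        · exfalso
          subst h4
          subst h3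
          exact W.g_ne b r'' hr' h5
        · exfalso
          subst h3
          subst h4
          exact W.g_ne b r' hr'' h5.symm
        · omega
      subst h6
      rfl
  inj_ps := by
    intro p p' h _
    have h1 := Option.some.inj h
    exact (Sigma.mk.inj_iff.1 h1).1
  disj := by
    intro p u h
    match u, h with
    | none, h =>
      exfalso
      have h1 : W.m p - 1 = 0 := h
      have h2 := W.m_two p
      omega
    | some ⟨b, ⟨r, hr⟩⟩, h =>
      have h1 : p = b := h.1
      subst h1
      have h2 := W.adj_some _ _ h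
      change Y.G.Adj (W.g p (W.m p - 1)) (W.g p r) at h2
      change f.fd (W.g p (W.m p - 1)) (W.g p r) ≠ (S.dc true).inv
      rw [W.g_last] at h2 ⊢
      rw [← fd_n1 hnb]
      intro h3
      exact W.g_ne_root hx p r hr (f.inj_fd h2 (adj_root (S := S) (Y := Y)).symm h3)
  ty_slot := by
    intro u u' h
    match u, u', h with
    | none, none, h => exact absurd h id
    | none, some u, h =>
      change t (f.fd (Y.nb (S.dc true)) (W.nxt u.1)).tgt = t (f.fv (W.g u.1 u.2.1))
      rw [f.tgt_fd (W.adj_nxt u.1), hf, hf, W.τ_nxt, W.block_g _ _ u.2.2]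
    | some u, none, h =>
      change t (f.fd (W.g u.1 0) (W.prv u.1)).tgt = t (S.dc true).tgt
      rw [f.tgt_fd (W.adj_prv u.1), hf, W.τ_prv, S.ty_dc, hL.j]
    | some u, some u', h =>
      change t (f.fd (W.g u.1 u.2.1) (W.g u'.1 u'.2.1)).tgt = t (f.fv (W.g u'.1 u'.2.1))
      rw [f.tgt_fd (W.adj_some u u' h)]
  Le_comm := by
    intro u u' h
    match u, u', h with
    | none, none, h => rfl
    | none, some u, h => rfl
    | some u, none, h => rfl
    | some u, some u', h =>
      change ({(f.fd (W.g u.1 u.2.1) (W.g u'.1 u'.2.1)).edge, S.ec false} : Set E) =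
        {(f.fd (W.g u'.1 u'.2.1) (W.g u.1 u.2.1)).edge, S.ec false}
      rw [f.inv_fd (W.adj_some u u' h), Dart.edge_inv]
  ty_pos := fun _ h => absurd h (by simp)
  ty_neg := by
    intro p _
    have h1 := W.m_two p
    constructor
    · change t (f.fv (W.g p (W.m p - 1))) = S.j
      rw [hf, W.block_g _ _ (by omega), hL.j]
    · rw [Dart.tgt_inv, S.src_dc]
  neg_inj := by
    intro p p' _ _ h
    have h1 := Option.some.inj h
    exact (Sigma.mk.inj_iff.1 h1).1
  neg_pos := fun _ _ _ h => absurd h (by simp)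
  neg_adj := fun _ _ _ h => absurd h (by simp)

end LeafWalks

end Graph

end Pool.Agent.Lib.MP_9c5086_lc
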