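import Pool.Agent.Lib.MP_9c5086_lc.UnivDefs

/-!
Simple covers of dart graphs.
-/

namespace Pool.Agent.Lib.MP_9c5086_lc

namespace Graph

namespace ULiftAux

variable {X S : Type} (W : DartGraph X S)

open Classical in
/-- The voltages. -/
noncomputable def nu (s : S) : S → ZMod 4 :=
  if W.inv s = s then Pi.single s 2 else Pi.single s 1 - Pi.single (W.inv s) 1

theorem inv_ne {s : S} (h : W.inv s ≠ s) : W.inv (W.inv s) ≠ W.inv s := by
  rw [W.inv_inv]
  exact fun h' => h h'.symm

theorem nu_inv (s : S) : nu W (W.inv s) = - nu W s := by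
  classical
  unfold nu
  by_cases h : W.inv s = s
  · have h2 : (-2 : ZMod 4) = 2 := by decide
    rw [h, if_pos rfl, ← Pi.single_neg, if_pos h, h2]
  · rw [if_neg h, if_neg (inv_ne W h), W.inv_inv, neg_sub]

open Classical in
theorem nu_self (s : S) : nu W s s = if W.inv s = s then 2 else 1 := by
  unfold nu
  by_cases h : W.inv s = s
  · simp [h]
  · rw [if_neg h, if_neg h, Pi.sub_apply, Pi.single_eq_same,
      Pi.single_eq_of_ne (fun h' => h h'.symm), sub_zero]

theorem nu_self_inv (s : S) (h : W.inv s ≠ s) : nu W s (W.inv s) = 3 := by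
  classical
  unfold nu
  rw [if_neg h, Pi.sub_apply, Pi.single_eq_same, Pi.single_eq_of_ne h]
  decide

theorem nu_other (s t : S) (h1 : t ≠ s) (h2 : t ≠ W.inv s) : nu W s t = 0 := by
  classical
  unfold nu
  by_cases h : W.inv s = s
  · rw [if_pos h, Pi.single_eq_of_ne h1]
  · rw [if_neg h, Pi.sub_apply, Pi.single_eq_of_ne h1, Pi.single_eq_of_ne h2, sub_zero]

theorem nu_self_ne (s : S) : nu W s s ≠ 0 := by
  rw [nu_self]
  split_ifs <;> decide

theorem nu_ne (s : S) : nu W s ≠ 0 := fun h => nu_self_ne W s (by rw [h]; rfl)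

theorem nu_inj {s t : S} (h : nu W s = nu W t) : s = t := by
  by_contra hne
  have h1 : nu W s t = nu W t t := by rw [h]
  have h2 : nu W t s = nu W s s := by rw [h]
  by_cases hti : t = W.inv s
  · have hs : W.inv s ≠ s := fun h' => hne (by rw [hti, h'])
    rw [nu_self, hti, nu_self_inv W s hs, W.inv_inv] at h1
    rw [if_neg (fun h' => hs h'.symm)] at h1
    exact absurd h1 (by decide)
  · rw [nu_other W s t (fun h' => hne h'.symm) hti] at h1
    exact nu_self_ne W t h1.symm

/-- The simple cover. -/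
def G : SimpleGraph (X × (S → ZMod 4)) where
  Adj n n' := ∃ s, W.src s = n.1 ∧ W.src (W.inv s) = n'.1 ∧ n'.2 = n.2 + nu W s
  symm := ⟨fun n n' ⟨s, h1, h2, h3⟩ => ⟨W.inv s, h2, by rw [W.inv_inv, h1], by
    rw [h3, nu_inv, add_neg_cancel_right]⟩⟩
  loopless := ⟨fun n ⟨s, _, _, h3⟩ => nu_ne W s (by
    have := h3.symm
    rwa [add_eq_left] at this)⟩

open Classical in
/-- The dart of an edge of the cover. -/
noncomputable def pd [Nonempty S] (n n' : X × (S → ZMod 4)) : S :=
  if h : (G W).Adj n n' then Classical.choose h else Classical.arbitrary S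

theorem pd_spec [Nonempty S] {n n' : X × (S → ZMod 4)} (h : (G W).Adj n n') :
    W.src (pd W n n') = n.1 ∧ W.src (W.inv (pd W n n')) = n'.1 ∧
      n'.2 = n.2 + nu W (pd W n n') := by
  unfold pd
  rw [dif_pos h]
  exact Classical.choose_spec h

theorem pd_eq [Nonempty S] {n n' : X × (S → ZMod 4)} {s : S} (h1 : W.src s = n.1)
    (h2 : W.src (W.inv s) = n'.1) (h3 : n'.2 = n.2 + nu W s) : pd W n n' = s := by
  have hadj : (G W).Adj n n' := ⟨s, h1, h2, h3⟩
  obtain ⟨-, -, h4⟩ := pd_spec W hadj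
  apply nu_inj W
  rw [h3] at h4
  exact (add_left_cancel h4).symm

end ULiftAux

open ULiftAux in
/-- Every finite dart graph is covered by a finite simple graph. -/
theorem exists_lift {X S : Type} [Finite X] [Finite S] [Nonempty S] (W : DartGraph X S) :
    ∃ (Y : Type) (_ : Finite Y) (G : SimpleGraph Y) (pv : Y → X) (pd : Y → Y → S) (sec : X → Y),
      (∀ x, pv (sec x) = x) ∧
      (∀ n n', G.Adj n n' → W.src (pd n n') = pv n ∧ pd n' n = W.inv (pd n n')) ∧
      (∀ n n' n'', G.Adj n n' → G.Adj n n'' → pd n n' = pd n n'' → n' = n'') ∧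
      ∀ n s, W.src s = pv n → ∃ n', G.Adj n n' ∧ pd n n' = s := by
  refine ⟨X × (S → ZMod 4), inferInstance, ULiftAux.G W, Prod.fst, ULiftAux.pd W,
    fun x => (x, 0), fun x => rfl, ?_, ?_, ?_⟩
  · intro n n' h
    obtain ⟨h1, h2, h3⟩ := pd_spec W h
    refine ⟨h1, ?_⟩
    refine pd_eq W h2 (by rw [W.inv_inv, h1]) ?_
    rw [h3, nu_inv, add_neg_cancel_right]
  · intro n n' n'' h h' he
    obtain ⟨h1, h2, h3⟩ := pd_spec W h
    obtain ⟨h4, h5, h6⟩ := pd_spec W h'
    refine Prod.ext ?_ ?_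
    · rw [← h2, he, h5]
    · rw [h3, he, h6]
  · intro n s hs
    refine ⟨(W.src (W.inv s), n.2 + nu W s), ⟨s, hs, rfl, rfl⟩, ?_⟩
    exact pd_eq W hs rfl rfl

end Graph

end Pool.Agent.Lib.MP_9c5086_lc
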