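import Pool.Agent.Lib.MP_9c5086_lc.Gadget
import Pool.Agent.Lib.MP_9c5086_lc.UnivDefs
import Pool.Agent.Lib.MP_9c5086_lc.PMSplit
import Pool.Agent.Lib.MP_9c5086_lc.ULift
import Pool.Agent.Lib.MP_9c5086_lc.Glue

section

/-!
Good darts and the conservation laws of the antistar: definitions.
-/

namespace Pool.Agent.Lib.MP_9c5086_lc

namespace Graph

variable {V E I : Type} {H : Graph V E} {t : V → I}

/-- The component of `H - x` containing `v` meets `w`. -/
def Off (H : Graph V E) (x v w : V) : Prop := H.RConn {u | u ≠ x} v w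

/-- Good darts at `x`. -/
def Good (H : Graph V E) (t : V → I) (x : V) (d : H.Dart) : Prop :=
  d.tgt = x ∨
  (∃ d' : H.Dart, d'.src = x ∧ d' ≠ d ∧ d'.tgt ≠ x ∧ H.Off x d.tgt d'.tgt) ∨
  ((∀ v, H.Off x d.tgt v → t v ≠ t x) ∧
    ∃ z e, H.Off x d.tgt z ∧ z ≠ x ∧ H.a e = z ∧ H.b e = none)

/-- The laws satisfied by a solution of the antistar: `m v` is the surplus of vertices with image
`v`, and `q a + 1` is the number of ports with value `a`. -/
structure Laws [Fintype V] (S : Setup H t (Fin 3)) (m : V → ℤ) (q : Fin 3 → ℤ) : Prop where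
  l1 : ∀ v w e, H.Joins e v w → v ≠ S.x → w ≠ S.x → m v = m w
  l2 : ∀ a, (S.dc a).tgt ≠ S.x → m (S.dc a).tgt - m S.x = q a
  l2' : ∀ s : H.Dart, s.src = S.x → s.tgt ≠ S.x → (∀ a, s ≠ S.dc a) → m s.tgt = m S.x
  l3 : ∀ i, open scoped Classical in ∑ v ∈ Finset.univ.filter (fun v => t v = i), m v = 0
  l4 : ∀ a, H.b (S.dc a).edge = none → Even (q a - m S.x)
  l5 : ∀ a, (S.dc a).tgt = S.x → H.b (S.dc a).edge ≠ none → Even (q a)
  l6 : ∀ z e, z ≠ S.x → H.a e = z → H.b e = none → Even (m z)
  ge : ∀ a, -1 ≤ q a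
  sum : q 0 + q 1 + q 2 = 0

end Graph

end Pool.Agent.Lib.MP_9c5086_lc
end

section

section

/-!
The laws follow from the counts.
-/

namespace Pool.Agent.Lib.MP_9c5086_lc

namespace Graph

variable {V E I : Type} {H : Graph V E} {t : V → I}

private theorem inc_ne [Finite E] {d : H.Dart} (h : d.tgt ≠ d.src) : H.inc d.edge d.src = 1 := by
  unfold inc
  rw [Set.ncard_eq_one]
  refine ⟨d, ?_⟩
  ext d'
  simp only [Set.mem_ofPred_eq, Set.mem_singleton_iff]
  constructor
  · rintro ⟨h1, h2⟩
    rcases Dart.eq_or_inv (d := d) (d' := d') h1.symm with h3 | h3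
    · exact h3
    · exfalso
      rw [h3, Dart.src_inv] at h2
      exact h h2
  · rintro rfl
    exact ⟨rfl, rfl⟩

private theorem inc_semi' [Finite E] {d : H.Dart} (h : d.inv = d) : H.inc d.edge d.src = 1 := by
  unfold inc
  rw [Set.ncard_eq_one]
  refine ⟨d, ?_⟩
  ext d'
  simp only [Set.mem_ofPred_eq, Set.mem_singleton_iff]
  constructor
  · rintro ⟨h1, -⟩
    rcases Dart.eq_or_inv (d := d) (d' := d') h1.symm with h3 | h3
    · exact h3
    · rw [h3, h]
  · rintro rfl
    exact ⟨rfl, rfl⟩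

private theorem inc_two [Finite E] {d : H.Dart} (h : d.inv ≠ d) (h' : d.tgt = d.src) :
    H.inc d.edge d.src = 2 := by
  unfold inc
  rw [Set.ncard_eq_two]
  refine ⟨d, d.inv, fun h1 => h h1.symm, ?_⟩
  ext d'
  simp only [Set.mem_ofPred_eq, Set.mem_insert_iff, Set.mem_singleton_iff]
  constructor
  · rintro ⟨h1, -⟩
    exact Dart.eq_or_inv (d := d) (d' := d') h1.symm
  · rintro (rfl | rfl)
    · exact ⟨rfl, rfl⟩
    · exact ⟨Dart.edge_inv _, by rw [Dart.src_inv]; exact h'⟩

/-- One side of the counting. -/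
private theorem one_side [Finite E] (S : Setup H t (Fin 3)) (c : Fin 3 → Fin 3)
    (n : V → ℕ) (N : V → E → ℕ)
    (hs : ∀ v v' e, H.Joins e v v' → N v e = N v' e)
    (he : ∀ v e, H.Joins e v v → Even (N v e))
    (h : ∀ v e, n v * H.inc e v = N v e +
      {a | (S.dc (c a)).edge = e ∧ (S.dc (c a)).tgt = v}.ncard +
        {s : H.Dart | s.src = S.x ∧ (∀ a, s ≠ S.dc a) ∧ s.edge = e ∧ s.tgt = v}.ncard) :
    (∀ v w e, H.Joins e v w → v ≠ S.x → w ≠ S.x → n v = n w) ∧
    (∀ a, (S.dc a).tgt ≠ S.x → n (S.dc a).tgt = n S.x + (Finset.univ.filter fun p => c p = a).card) ∧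
    (∀ s : H.Dart, s.src = S.x → s.tgt ≠ S.x → (∀ a, s ≠ S.dc a) → n s.tgt = n S.x + 1) ∧
    (∀ a, H.b (S.dc a).edge = none →
      ∃ k, n S.x = 2 * k + (Finset.univ.filter fun p => c p = a).card) ∧
    (∀ a, (S.dc a).tgt = S.x → H.b (S.dc a).edge ≠ none →
      ∃ k, 2 * n S.x = 2 * k + (Finset.univ.filter fun p => c p = a).card + 1) ∧
    (∀ z e, z ≠ S.x → H.a e = z → H.b e = none → ∃ k, n z = 2 * k) := by
  -- the first extra set
  have hA : ∀ a, {a' | (S.dc (c a')).edge = (S.dc a).edge ∧ (S.dc (c a')).tgt = (S.dc a).tgt}.ncard =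
      (Finset.univ.filter fun p => c p = a).card := by
    intro a
    rw [← Set.ncard_coe_finset]
    congr 1
    ext p
    simp only [Set.mem_ofPred_eq, Finset.coe_filter, Finset.mem_univ, true_and]
    constructor
    · rintro ⟨h1, -⟩
      exact S.inj_dc _ _ h1
    · intro h1
      rw [h1]
      exact ⟨rfl, rfl⟩
  have hA0 : ∀ (v : V) (e : E), (∀ a, (S.dc a).edge = e → (S.dc a).tgt ≠ v) →
      {a' | (S.dc (c a')).edge = e ∧ (S.dc (c a')).tgt = v}.ncard = 0 := by
    intro v e hve
    rw [Set.ncard_eq_zero (Set.toFinite _)]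
    ext p
    simp only [Set.mem_ofPred_eq, Set.mem_empty_iff_false, iff_false]
    rintro ⟨h1, h2⟩
    exact hve _ h1 h2
  have hB0 : ∀ (v : V) (e : E), (∀ s : H.Dart, s.src = S.x → (∀ a, s ≠ S.dc a) → s.edge = e →
      s.tgt ≠ v) →
      {s : H.Dart | s.src = S.x ∧ (∀ a, s ≠ S.dc a) ∧ s.edge = e ∧ s.tgt = v}.ncard = 0 := by
    intro v e hve
    rw [Set.ncard_eq_zero (Set.toFinite _)]
    ext s
    simp only [Set.mem_ofPred_eq, Set.mem_empty_iff_false, iff_false]
    rintro ⟨h1, h2, h3, h4⟩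
    exact hve s h1 h2 h3 h4
  refine ⟨?_, ?_, ?_, ?_, ?_, ?_⟩
  · intro v w e hj hv hw
    by_cases hvw : v = w
    · rw [hvw]
    obtain ⟨d, rfl, rfl, rfl⟩ := hj.exists_dart
    have hno : ∀ s : H.Dart, s.edge = d.edge → s.src ≠ S.x := by
      intro s hs1 hs2
      rcases Dart.eq_or_inv (d := d) (d' := s) hs1.symm with h3 | h3
      · rw [h3] at hs2
        exact hv hs2
      · rw [h3, Dart.src_inv] at hs2
        exact hw hs2
    have h1 := h d.src d.edge
    have h2 := h d.tgt d.edge
    rw [hA0 _ _ fun a ha => absurd (S.src_dc a) (hno _ ha),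
      hB0 _ _ fun s hs1 _ hs2 => absurd hs1 (hno _ hs2)] at h1 h2
    rw [inc_ne (Ne.symm hvw), mul_one] at h1
    have h3 : H.inc d.edge d.tgt = 1 := by
      have := inc_ne (d := d.inv) (by rw [Dart.src_inv, Dart.tgt_inv]; exact hvw)
      rwa [Dart.edge_inv, Dart.src_inv] at this
    rw [h3, mul_one] at h2
    rw [h1, h2, hs _ _ _ hj]
  · intro a ha
    have hsrc := S.src_dc a
    have h1 := h S.x (S.dc a).edge
    have h2 := h (S.dc a).tgt (S.dc a).edge
    have hi1 : H.inc (S.dc a).edge S.x = 1 := by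
      have := inc_ne (d := S.dc a) (by rw [hsrc]; exact ha)
      rwa [hsrc] at this
    have hi2 : H.inc (S.dc a).edge (S.dc a).tgt = 1 := by
      have := inc_ne (d := (S.dc a).inv) (by rw [Dart.src_inv, Dart.tgt_inv, hsrc]; exact ha.symm)
      rwa [Dart.edge_inv, Dart.src_inv] at this
    have hno : ∀ s : H.Dart, s.src = S.x → (∀ a, s ≠ S.dc a) → s.edge ≠ (S.dc a).edge := by
      intro s hs1 hs2 hs3
      rcases Dart.eq_or_inv (d := S.dc a) (d' := s) hs3.symm with h3 | h3
      · exact hs2 a h3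
      · rw [h3, Dart.src_inv] at hs1
        exact ha hs1
    rw [hi1, mul_one, hA0 _ _ fun a' ha' => by rw [S.inj_dc _ _ ha']; exact ha,
      hB0 _ _ fun s hs1 hs2 hs3 => absurd hs3 (hno s hs1 hs2)] at h1
    rw [hi2, mul_one, hA, hB0 _ _ fun s hs1 hs2 hs3 => absurd hs3 (hno s hs1 hs2)] at h2
    have hj : H.Joins (S.dc a).edge S.x (S.dc a).tgt := by
      have := (S.dc a).joins
      rwa [hsrc] at this
    rw [h2, h1, hs _ _ _ hj, add_zero, add_zero, add_zero]
  · intro s hs1 hs2 hs3
    have h1 := h S.x s.edge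
    have h2 := h s.tgt s.edge
    have hi1 : H.inc s.edge S.x = 1 := by
      have := inc_ne (d := s) (by rw [hs1]; exact hs2)
      rwa [hs1] at this
    have hi2 : H.inc s.edge s.tgt = 1 := by
      have := inc_ne (d := s.inv) (by rw [Dart.src_inv, Dart.tgt_inv, hs1]; exact hs2.symm)
      rwa [Dart.edge_inv, Dart.src_inv] at this
    have hno : ∀ a, (S.dc a).edge ≠ s.edge := by
      intro a ha
      rcases Dart.eq_or_inv (d := s) (d' := S.dc a) ha.symm with h3 | h3
      · exact hs3 a h3.symm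
      · have := S.src_dc a
        rw [h3, Dart.src_inv] at this
        exact hs2 this
    have hu : ∀ s' : H.Dart, s'.src = S.x → s'.edge = s.edge → s' = s := by
      intro s' h3 h4
      rcases Dart.eq_or_inv (d := s) (d' := s') h4.symm with h5 | h5
      · exact h5
      · rw [h5, Dart.src_inv] at h3
        exact absurd h3 hs2
    have hB1 : {s' : H.Dart | s'.src = S.x ∧ (∀ a, s' ≠ S.dc a) ∧ s'.edge = s.edge ∧
        s'.tgt = s.tgt}.ncard = 1 := by
      rw [Set.ncard_eq_one]
      refine ⟨s, ?_⟩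
      ext s'
      simp only [Set.mem_ofPred_eq, Set.mem_singleton_iff]
      constructor
      · rintro ⟨h3, -, h4, -⟩
        exact hu s' h3 h4
      · rintro rfl
        exact ⟨hs1, hs3, rfl, rfl⟩
    rw [hi1, mul_one, hA0 _ _ fun a' ha' => absurd ha' (hno a'),
      hB0 _ _ fun s' h3 _ h4 => by rw [hu s' h3 h4]; exact hs2] at h1
    rw [hi2, mul_one, hA0 _ _ fun a' ha' => absurd ha' (hno a'), hB1] at h2
    have hj : H.Joins s.edge S.x s.tgt := by
      have := s.joins
      rwa [hs1] at this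
    rw [h2, h1, hs _ _ _ hj]
  · intro a ha
    have hsrc := S.src_dc a
    have hinv := (Dart.inv_eq_self_iff (S.dc a)).2 ha
    have htgt : (S.dc a).tgt = S.x := by
      rw [← Dart.src_inv, hinv, hsrc]
    have h1 := h S.x (S.dc a).edge
    have hi1 : H.inc (S.dc a).edge S.x = 1 := by
      have := inc_semi' hinv
      rwa [hsrc] at this
    have hA' := hA a
    rw [htgt] at hA'
    have hno : ∀ s : H.Dart, s.src = S.x → (∀ a, s ≠ S.dc a) → s.edge ≠ (S.dc a).edge := by
      intro s _ hs2 hs3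
      rcases Dart.eq_or_inv (d := S.dc a) (d' := s) hs3.symm with h3 | h3
      · exact hs2 a h3
      · rw [hinv] at h3
        exact hs2 a h3
    rw [hi1, mul_one, hA', hB0 _ _ fun s hs1 hs2 hs3 => absurd hs3 (hno s hs1 hs2)] at h1
    have hj : H.Joins (S.dc a).edge S.x S.x := by
      have := (S.dc a).joins
      rwa [hsrc, htgt] at this
    obtain ⟨k, hk⟩ := he _ _ hj
    exact ⟨k, by omega⟩
  · intro a ha hb
    have hsrc := S.src_dc a
    have hinv : (S.dc a).inv ≠ S.dc a := fun h3 => hb ((Dart.inv_eq_self_iff (S.dc a)).1 h3)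
    have h1 := h S.x (S.dc a).edge
    have hi1 : H.inc (S.dc a).edge S.x = 2 := by
      have := inc_two hinv (by rw [ha, hsrc])
      rwa [hsrc] at this
    have hA' := hA a
    rw [ha] at hA'
    have hB1 : {s' : H.Dart | s'.src = S.x ∧ (∀ a, s' ≠ S.dc a) ∧ s'.edge = (S.dc a).edge ∧
        s'.tgt = S.x}.ncard = 1 := by
      rw [Set.ncard_eq_one]
      refine ⟨(S.dc a).inv, ?_⟩
      ext s'
      simp only [Set.mem_ofPred_eq, Set.mem_singleton_iff]
      constructor
      · rintro ⟨-, h3, h4, -⟩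
        rcases Dart.eq_or_inv (d := S.dc a) (d' := s') h4.symm with h5 | h5
        · exact absurd h5 (h3 a)
        · exact h5
      · rintro rfl
        refine ⟨by rw [Dart.src_inv, ha], ?_, Dart.edge_inv _, by rw [Dart.tgt_inv, hsrc]⟩
        intro a' h3
        have h4 : (S.dc a').edge = (S.dc a).edge := by rw [← h3, Dart.edge_inv]
        rw [S.inj_dc _ _ h4] at h3
        exact hinv h3
    rw [hi1, hA', hB1] at h1
    have hj : H.Joins (S.dc a).edge S.x S.x := by
      have := (S.dc a).joins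
      rwa [hsrc, ha] at this
    obtain ⟨k, hk⟩ := he _ _ hj
    exact ⟨k, by omega⟩
  · intro z e hz ha hb
    have hj : H.Joins e z z := Or.inl ⟨ha.symm, by rw [hb]; exact ha.symm⟩
    obtain ⟨d, h1, h2, h3⟩ := hj.exists_dart
    have hinv : d.inv = d := (Dart.inv_eq_self_iff d).2 (by rw [h1]; exact hb)
    have hi : H.inc e z = 1 := by
      have := inc_semi' hinv
      rwa [h1, h2] at this
    have hno : ∀ s : H.Dart, s.edge = e → s.src ≠ S.x := by
      intro s hs1 hs2
      rcases Dart.eq_or_inv (d := d) (d' := s) (by rw [h1, hs1]) with h4 | h4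
      · rw [h4, h2] at hs2
        exact hz hs2
      · rw [h4, Dart.src_inv, h3] at hs2
        exact hz hs2
    have h4 := h z e
    rw [hi, mul_one, hA0 _ _ fun a ha => absurd (S.src_dc a) (hno _ ha),
      hB0 _ _ fun s hs1 _ hs2 => absurd hs1 (hno _ hs2)] at h4
    obtain ⟨k, hk⟩ := he _ _ hj
    exact ⟨k, by omega⟩

/-- The laws follow from the counts for the values `c` and for the reference values. -/
theorem laws_of_count [Fintype V] [Finite E] (S : Setup H t (Fin 3)) (c : Fin 3 → Fin 3)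
    (K : I → ℕ) (n n₀ : V → ℕ) (N N₀ : V → E → ℕ)
    (hK : ∀ i, open scoped Classical in ∑ v ∈ Finset.univ.filter (fun v => t v = i), n v = K i)
    (hK₀ : ∀ i, open scoped Classical in ∑ v ∈ Finset.univ.filter (fun v => t v = i), n₀ v = K i)
    (hs : ∀ v v' e, H.Joins e v v' → N v e = N v' e)
    (hs₀ : ∀ v v' e, H.Joins e v v' → N₀ v e = N₀ v' e)
    (he : ∀ v e, H.Joins e v v → Even (N v e)) (he₀ : ∀ v e, H.Joins e v v → Even (N₀ v e))
    (h : ∀ v e, n v * H.inc e v = N v e +
      {a | (S.dc (c a)).edge = e ∧ (S.dc (c a)).tgt = v}.ncard +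
        {s : H.Dart | s.src = S.x ∧ (∀ a, s ≠ S.dc a) ∧ s.edge = e ∧ s.tgt = v}.ncard)
    (h₀ : ∀ v e, n₀ v * H.inc e v = N₀ v e + {a | (S.dc a).edge = e ∧ (S.dc a).tgt = v}.ncard +
        {s : H.Dart | s.src = S.x ∧ (∀ a, s ≠ S.dc a) ∧ s.edge = e ∧ s.tgt = v}.ncard) :
    Laws S (fun v => (n v : ℤ) - n₀ v)
      (fun a => ((Finset.univ.filter fun p => c p = a).card : ℤ) - 1) := by
  obtain ⟨a1, a2, a3, a4, a5, a6⟩ := one_side S c n N hs he h
  obtain ⟨b1, b2, b3, b4, b5, b6⟩ := one_side S id n₀ N₀ hs₀ he₀ h₀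
  have hid : ∀ a : Fin 3, (Finset.univ.filter fun p => id p = a).card = 1 := by
    decide
  refine ⟨?_, ?_, ?_, ?_, ?_, ?_, ?_, ?_, ?_⟩
  · intro v w e hj hv hw
    show (n v : ℤ) - n₀ v = n w - n₀ w
    rw [a1 v w e hj hv hw, b1 v w e hj hv hw]
  · intro a ha
    have e1 := a2 a ha
    have e2 := b2 a ha
    rw [hid] at e2
    show ((n (S.dc a).tgt : ℤ) - n₀ (S.dc a).tgt) - ((n S.x : ℤ) - n₀ S.x) = _
    rw [e1, e2]
    push_cast
    ring
  · intro s h1 h2 h3
    show (n s.tgt : ℤ) - n₀ s.tgt = n S.x - n₀ S.x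
    rw [a3 s h1 h2 h3, b3 s h1 h2 h3]
    push_cast
    ring
  · intro i
    rw [Finset.sum_sub_distrib, ← Nat.cast_sum, ← Nat.cast_sum, hK i, hK₀ i, sub_self]
  · intro a ha
    obtain ⟨k, hk⟩ := a4 a ha
    obtain ⟨k0, hk0⟩ := b4 a ha
    rw [hid] at hk0
    refine ⟨(k0 : ℤ) - k, ?_⟩
    show ((Finset.univ.filter fun p => c p = a).card : ℤ) - 1 - ((n S.x : ℤ) - n₀ S.x) = _
    rw [hk, hk0]
    push_cast
    ring
  · intro a ha hb
    obtain ⟨k, hk⟩ := a5 a ha hb
    refine ⟨(n S.x : ℤ) - k - 1, ?_⟩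
    show ((Finset.univ.filter fun p => c p = a).card : ℤ) - 1 = _
    have : (2 * (n S.x : ℤ)) = 2 * k + ((Finset.univ.filter fun p => c p = a).card : ℤ) + 1 := by
      exact_mod_cast hk
    linarith
  · intro z e hz ha hb
    obtain ⟨k, hk⟩ := a6 z e hz ha hb
    obtain ⟨k0, hk0⟩ := b6 z e hz ha hb
    refine ⟨(k : ℤ) - k0, ?_⟩
    show (n z : ℤ) - n₀ z = _
    rw [hk, hk0]
    push_cast
    ring
  · intro a
    show (-1 : ℤ) ≤ _ - 1
    have : (0 : ℤ) ≤ ((Finset.univ.filter fun p => c p = a).card : ℤ) := Int.natCast_nonneg _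
    linarith
  · have key : ∀ c : Fin 3 → Fin 3, (Finset.univ.filter fun p => c p = 0).card +
        (Finset.univ.filter fun p => c p = 1).card +
        (Finset.univ.filter fun p => c p = 2).card = 3 := by
      decide
    have := key c
    show (((Finset.univ.filter fun p => c p = 0).card : ℤ) - 1) +
      (((Finset.univ.filter fun p => c p = 1).card : ℤ) - 1) +
      (((Finset.univ.filter fun p => c p = 2).card : ℤ) - 1) = 0
    omega

end Graph

end Pool.Agent.Lib.MP_9c5086_lc
end

section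

/-!
The consequences of the conservation laws.
-/

namespace Pool.Agent.Lib.MP_9c5086_lc

namespace Graph

variable {V E I : Type} {H : Graph V E} {t : V → I}

namespace LawsAux

theorem off_const [Fintype V] {S : Setup H t (Fin 3)} {m : V → ℤ} {q : Fin 3 → ℤ}
    (L : Laws S m q) {v w : V} (h : H.Off S.x v w) : m v = m w := by
  unfold Off RConn at h
  induction h with
  | refl => rfl
  | tail _ h2 ih =>
    obtain ⟨h3, h4, e, h5⟩ := h2
    rw [ih]
    exact L.l1 _ _ e h5 h3 h4

theorem exists_first (hH : H.Connected) (x v : V) :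
    v = x ∨ ∃ s : H.Dart, s.src = x ∧ s.tgt ≠ x ∧ H.Off x s.tgt v := by
  have h := hH x v
  unfold RConn at h
  induction h with
  | refl => exact Or.inl rfl
  | @tail u w _ h2 ih =>
    obtain ⟨-, -, e, he⟩ := h2
    by_cases hw : w = x
    · exact Or.inl hw
    · right
      by_cases hu : u = x
      · rw [hu] at he
        obtain ⟨s, -, h3, h4⟩ := he.exists_dart
        refine ⟨s, h3, by rw [h4]; exact hw, ?_⟩
        rw [h4]
        exact Relation.ReflTransGen.refl
      · rcases ih with h3 | ⟨s, h3, h4, h5⟩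
        · exact absurd h3 hu
        · exact ⟨s, h3, h4, Relation.ReflTransGen.tail h5 ⟨hu, hw, e, he⟩⟩

theorem term [Fintype V] {S : Setup H t (Fin 3)} (hH : H.Connected) {m : V → ℤ} {q : Fin 3 → ℤ}
    (L : Laws S m q) {a b c : Fin 3} (hcov : ∀ i, i = a ∨ i = b ∨ i = c) {v : V} (hv : v ≠ S.x)
    (hc : (S.dc c).tgt ≠ S.x → ¬ H.Off S.x (S.dc c).tgt v) :
    m v = m S.x ∨ m v = m S.x + q a ∨ m v = m S.x + q b := by
  rcases exists_first hH S.x v with h | ⟨s, h1, h2, h3⟩
  · exact absurd h hv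
  · have h4 := off_const L h3
    by_cases hs : ∃ i, s = S.dc i
    · obtain ⟨i, rfl⟩ := hs
      have h5 := L.l2 i h2
      rcases hcov i with rfl | rfl | rfl
      · right; left; linarith
      · right; right; linarith
      · exact absurd h3 (hc h2)
    · push Not at hs
      have h5 := L.l2' s h1 h2 hs
      left
      linarith

theorem zero [Fintype V] {S : Setup H t (Fin 3)} {m : V → ℤ} {q : Fin 3 → ℤ} (L : Laws S m q)
    (h : ∀ v, t v = t S.x → v ≠ S.x → -1 ≤ m v - m S.x ∧ m v - m S.x ≤ 1) : m S.x = 0 := by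
  classical
  have h3 := L.l3 (t S.x)
  set B := Finset.univ.filter (fun v => t v = t S.x) with hB
  have hx : S.x ∈ B := by simp [hB]
  rw [← Finset.add_sum_erase B m hx] at h3
  have h4 : ∑ v ∈ B.erase S.x, (m v - m S.x) =
      ∑ v ∈ B.erase S.x, m v - (B.erase S.x).card * m S.x := by
    rw [Finset.sum_sub_distrib, Finset.sum_const, nsmul_eq_mul]
  have h5 : ∑ v ∈ B.erase S.x, (m v - m S.x) ≤ (B.erase S.x).card := by
    have := Finset.sum_le_card_nsmul (B.erase S.x) (fun v => m v - m S.x) 1 (by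
      intro v hv
      obtain ⟨h6, h7⟩ := Finset.mem_erase.1 hv
      exact (h v (by simpa [hB] using h7) h6).2)
    simpa using this
  have h6 : -((B.erase S.x).card : ℤ) ≤ ∑ v ∈ B.erase S.x, (m v - m S.x) := by
    have := Finset.card_nsmul_le_sum (B.erase S.x) (fun v => m v - m S.x) (-1) (by
      intro v hv
      obtain ⟨h6, h7⟩ := Finset.mem_erase.1 hv
      exact (h v (by simpa [hB] using h7) h6).1)
    simpa using this
  set N : ℤ := ((B.erase S.x).card : ℤ) with hN
  have hN0 : 0 ≤ N := by positivity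
  set Z := ∑ v ∈ B.erase S.x, (m v - m S.x) with hZ
  have h7 : (N + 1) * m S.x = -Z := by linarith
  rcases lt_trichotomy (m S.x) 0 with h8 | h8 | h8
  · nlinarith
  · exact h8
  · nlinarith

theorem allzero [Fintype V] {S : Setup H t (Fin 3)} {m : V → ℤ} {q : Fin 3 → ℤ} (L : Laws S m q)
    (h : ∀ v, t v = t S.x → m v ≤ 0) (v : V) (hv : t v = t S.x) : m v = 0 := by
  classical
  have h3 := L.l3 (t S.x)
  rw [Finset.sum_eq_zero_iff_of_nonpos (by
    intro w hw
    exact h w (by simpa using hw))] at h3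
  exact h3 v (by simpa using hv)

theorem claim [Fintype V] {S : Setup H t (Fin 3)} (hH : H.Connected) {m : V → ℤ} {q : Fin 3 → ℤ}
    (L : Laws S m q) {a b c : Fin 3} (hcov : ∀ i, i = a ∨ i = b ∨ i = c) (hsum : q a + q b + q c = 0)
    (hnp : ∀ i i', i ≠ i' → (S.dc i).tgt ≠ S.x → (S.dc i').tgt ≠ S.x →
      ¬ H.Off S.x (S.dc i).tgt (S.dc i').tgt)
    (ha : Good H t S.x (S.dc a)) (hc : Good H t S.x (S.dc c)) (hq : q c ≠ 0) :
    (q a = 2 ∧ q b = -1 ∧ q c = -1) ∨ (q a = -1 ∧ q b = 2 ∧ q c = -1) := by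
  -- a companion of a dart of a colour
  have hG1 : ∀ i, (S.dc i).tgt ≠ S.x → (∃ d' : H.Dart, d'.src = S.x ∧ d' ≠ S.dc i ∧
      d'.tgt ≠ S.x ∧ H.Off S.x (S.dc i).tgt d'.tgt) → q i = 0 := by
    rintro i hi ⟨d', h1, h2, h3, h4⟩
    have h5 : ∀ k, d' ≠ S.dc k := by
      intro k hk
      subst hk
      have hik : i ≠ k := fun h => h2 (by rw [h])
      exact hnp i k hik hi h3 h4
    have h6 := L.l2' d' h1 h3 h5
    have h7 := off_const L h4
    have h8 := L.l2 i hi
    linarith
  have ga := L.ge a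
  have gb := L.ge b
  have gc := L.ge c
  by_contra hcon
  have hq1 : -1 ≤ q a ∧ q a ≤ 1 ∧ -1 ≤ q b ∧ q b ≤ 1 := by
    push Not at hcon
    obtain ⟨h1, h2⟩ := hcon
    refine ⟨ga, ?_, gb, ?_⟩
    · by_contra h
      have h3 : q a = 2 := by omega
      have h4 : q b = -1 := by omega
      exact h1 h3 h4 (by omega)
    · by_contra h
      have h3 : q b = 2 := by omega
      have h4 : q a = -1 := by omega
      exact h2 h4 h3 (by omega)
  -- the terms of the sum
  have hfin : ∀ (_ : ∀ v, t v = t S.x → (S.dc c).tgt ≠ S.x → ¬ H.Off S.x (S.dc c).tgt v)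
      (_ : m S.x = 0 → Even (q c))
      (_ : m S.x = 0 → q a = -1 → (∀ v, t v = t S.x → m v = 0) → False), False := by
    intro h1 h2 h3
    have hm : m S.x = 0 := by
      apply zero L
      intro v hv hvx
      rcases term hH L hcov hvx (h1 v hv) with h | h | h <;> constructor <;> omega
    have he := h2 hm
    have hv1 : q a = -1 ∧ q b = -1 := by
      obtain ⟨r, hr⟩ := he
      omega
    refine h3 hm hv1.1 (fun v hv => allzero L (fun w hw => ?_) v hv)
    by_cases hwx : w = S.x
    · rw [hwx, hm]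
    · rcases term hH L hcov hwx (h1 w hw) with h | h | h <;> omega
  -- a semi-edge or a loop
  have hcase : ∀ i, (S.dc i).tgt = S.x → m S.x = 0 → Even (q i) := by
    intro i hi hm
    by_cases hb : H.b (S.dc i).edge = none
    · have := L.l4 i hb
      rwa [hm, sub_zero] at this
    · exact L.l5 i hi hb
  rcases hc with hc | hc | ⟨hc1, z, e, hz1, hz2, hz3, hz4⟩
  · have hj : S.j = t S.x := by rw [← S.ty_dc c, hc]
    refine hfin (fun v _ h => absurd hc h) (hcase c hc) ?_
    intro hm hqa hall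
    by_cases hax : (S.dc a).tgt = S.x
    · obtain ⟨r, hr⟩ := hcase a hax hm
      omega
    · have h1 := hall (S.dc a).tgt (by rw [S.ty_dc a, hj])
      have h2 := L.l2 a hax
      omega
  · by_cases hcx : (S.dc c).tgt = S.x
    · have hj : S.j = t S.x := by rw [← S.ty_dc c, hcx]
      refine hfin (fun v _ h => absurd hcx h) (hcase c hcx) ?_
      intro hm hqa hall
      by_cases hax : (S.dc a).tgt = S.x
      · obtain ⟨r, hr⟩ := hcase a hax hm
        omega
      · have h1 := hall (S.dc a).tgt (by rw [S.ty_dc a, hj])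
        have h2 := L.l2 a hax
        omega
    · exact hq (hG1 c hcx hc)
  · have hj : S.j ≠ t S.x := by
      rw [← S.ty_dc c]
      exact hc1 _ Relation.ReflTransGen.refl
    have hne : ∀ i, (S.dc i).tgt ≠ S.x := by
      intro i hi
      apply hj
      rw [← S.ty_dc i, hi]
    refine hfin (fun v hv _ h => hc1 v h hv) ?_ ?_
    · intro hm
      have h1 := off_const L hz1
      have h2 := L.l2 c (hne c)
      have h3 := L.l6 z e hz2 hz3 hz4
      have h4 : m z = q c := by omega
      rwa [h4] at h3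
    · intro hm hqa _
      rcases ha with ha | ha | ⟨ha1, z', e', hz1', hz2', hz3', hz4'⟩
      · exact hne a ha
      · have := hG1 a (hne a) ha
        omega
      · have h1 := off_const L hz1'
        have h2 := L.l2 a (hne a)
        obtain ⟨r, hr⟩ := L.l6 z' e' hz2' hz3' hz4'
        omega

end LawsAux

open LawsAux in
/-- If two colours are good, then the surplus of the colours vanishes, or all ports have one
exceptional colour. -/
theorem Laws.main [Fintype V] [Finite E] (S : Setup H t (Fin 3)) (hH : H.Connected)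
    (h0 : Good H t S.x (S.dc 0)) (h2 : Good H t S.x (S.dc 2)) :
    ∃ a : Fin 3, ∀ m q, Laws S m q → (∀ b, q b = 0) ∨ (q a = 2 ∧ ∀ b, b ≠ a → q b = -1) := by
  by_cases hp : ∃ i i', i ≠ i' ∧ (S.dc i).tgt ≠ S.x ∧ (S.dc i').tgt ≠ S.x ∧
      H.Off S.x (S.dc i).tgt (S.dc i').tgt
  · obtain ⟨i, i', hne, hi, hi', hoff⟩ := hp
    obtain ⟨k, hki, hki', hcov⟩ : ∃ k : Fin 3, k ≠ i ∧ k ≠ i' ∧ ∀ l, l = i ∨ l = i' ∨ l = k := by
      have hd : ∀ i i' : Fin 3, i ≠ i' → ∃ k : Fin 3, k ≠ i ∧ k ≠ i' ∧
          ∀ l, l = i ∨ l = i' ∨ l = k := by decide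
      exact hd i i' hne
    refine ⟨k, fun m q L => ?_⟩
    have h1 := off_const L hoff
    have h3 := L.l2 i hi
    have h4 := L.l2 i' hi'
    have hqq : q i = q i' := by linarith
    have hsum : q i + q i' + q k = 0 := by
      have := L.sum
      revert hne hki hki'
      fin_cases i <;> fin_cases i' <;> fin_cases k <;> intro hne hki hki' <;>
        first
        | exact absurd rfl hne
        | exact absurd rfl hki
        | exact absurd rfl hki'
        | (simp only [Fin.zero_eta, Fin.mk_one, Fin.reduceFinMk] at *; linarith)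
    have g1 := L.ge i
    have g2 := L.ge k
    have hr : q i = 0 ∨ q i = -1 := by omega
    rcases hr with hr | hr
    · left
      intro l
      rcases hcov l with rfl | rfl | rfl
      · exact hr
      · omega
      · omega
    · right
      refine ⟨by omega, fun l hl => ?_⟩
      rcases hcov l with rfl | rfl | rfl
      · exact hr
      · omega
      · exact absurd rfl hl
  · have hnp : ∀ i i', i ≠ i' → (S.dc i).tgt ≠ S.x → (S.dc i').tgt ≠ S.x →
        ¬ H.Off S.x (S.dc i).tgt (S.dc i').tgt := by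
      intro i i' h1 h3 h4 h5
      exact hp ⟨i, i', h1, h3, h4, h5⟩
    refine ⟨1, fun m q L => ?_⟩
    have hs := L.sum
    have c1 := fun hq => claim hH L (a := 0) (b := 1) (c := 2) (by decide) hs hnp h0 h2 hq
    have c2 := fun hq => claim hH L (a := 2) (b := 1) (c := 0) (by decide) (by linarith)
      hnp h2 h0 hq
    by_cases hz : q 0 = 0 ∧ q 2 = 0
    · left
      obtain ⟨hz0, hz2⟩ := hz
      have hz1 : q 1 = 0 := by omega
      intro l
      fin_cases l
      · exact hz0
      · exact hz1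
      · exact hz2
    · right
      have h5 : q 0 = -1 ∧ q 1 = 2 ∧ q 2 = -1 := by
        by_cases hz2 : q 2 = 0
        · have hz0 : q 0 ≠ 0 := fun h => hz ⟨h, hz2⟩
          rcases c2 hz0 with ⟨h6, h7, h8⟩ | ⟨h6, h7, h8⟩ <;> omega
        · rcases c1 hz2 with ⟨h6, h7, h8⟩ | ⟨h6, h7, h8⟩
          · have hz0 : q 0 ≠ 0 := by omega
            rcases c2 hz0 with ⟨h9, h10, h11⟩ | ⟨h9, h10, h11⟩ <;> omega
          · exact ⟨h6, h7, h8⟩
      refine ⟨h5.2.1, fun l hl => ?_⟩
      fin_cases l
      · exact h5.1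
      · exact absurd rfl hl
      · exact h5.2.2

end Graph

end Pool.Agent.Lib.MP_9c5086_lc
end
end

section

section

/-!
Involutions.
-/

namespace Pool.Agent.Lib.MP_9c5086_lc

namespace Graph

/-- An involution exchanging classes of the same size. -/
theorem exists_involution {S L : Type} [Finite S] (lab : S → L) (inv : L → L)
    (hinv : Function.Involutive inv)
    (h : ∀ l, {s | lab s = l}.ncard = {s | lab s = inv l}.ncard) :
    ∃ ι : S → S, Function.Involutive ι ∧ ∀ s, lab (ι s) = inv (lab s) := by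
  classical
  have he : ∀ l, Nonempty ({s | lab s = l} ≃ Fin ({s | lab s = l}.ncard)) := by
    intro l
    have : Finite {s | lab s = l} := inferInstance
    rw [← Nat.card_coe_set_eq]
    exact ⟨Finite.equivFin _⟩
  let e := fun l => Classical.choice (he l)
  let rank : S → ℕ := fun s => (e (lab s) ⟨s, rfl⟩ : ℕ)
  have hrank : ∀ (l : L) (x : {s | lab s = l}), rank x.1 = (e l x : ℕ) := by
    rintro l ⟨s, hs⟩
    have hs' : lab s = l := hs
    subst hs'
    rfl
  have hinj : ∀ s s', lab s = lab s' → rank s = rank s' → s = s' := by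
    intro s s' h1 h2
    have h3 := hrank (lab s') ⟨s, h1⟩
    have h4 := hrank (lab s') ⟨s', rfl⟩
    have h5 : (e (lab s') ⟨s, h1⟩ : ℕ) = (e (lab s') ⟨s', rfl⟩ : ℕ) := by
      rw [← h3, ← h4]; exact h2
    have h6 := (e (lab s')).injective (Fin.ext h5)
    exact congrArg Subtype.val h6
  have hlt : ∀ s, rank s < {s' | lab s' = inv (lab s)}.ncard := by
    intro s
    rw [← h (lab s)]
    exact (e (lab s) ⟨s, rfl⟩).2
  let ι : S → S := fun s => ((e (inv (lab s))).symm ⟨rank s, hlt s⟩).1
  have h1 : ∀ s, lab (ι s) = inv (lab s) := fun s =>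
    ((e (inv (lab s))).symm ⟨rank s, hlt s⟩).2
  have h2 : ∀ s, rank (ι s) = rank s := by
    intro s
    have := hrank (inv (lab s)) ((e (inv (lab s))).symm ⟨rank s, hlt s⟩)
    rw [Equiv.apply_symm_apply] at this
    exact this
  refine ⟨ι, fun s => hinj _ _ ?_ ?_, h1⟩
  · rw [h1, h1, hinv]
  · rw [h2, h2]

end Graph

end Pool.Agent.Lib.MP_9c5086_lc
end

section

/-!
Counting modes.
-/

namespace Pool.Agent.Lib.MP_9c5086_lc

namespace Graph

variable {V E I : Type}

/-- Composition of modes. -/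
private def mcomp {H : Graph V E} {t : V → I} {m y z : V} (μ : Mode H t m y) (ρ : Mode H t y z) :
    Mode H t m z :=
  ⟨ρ.block.trans μ.block, μ.π.trans ρ.π, fun s => (ρ.typed _).trans (μ.typed s)⟩

private theorem mcomp_inj {H : Graph V E} {t : V → I} {m y z : V} (μ μ' : Mode H t m y)
    (ρ : Mode H t y z) (h : mcomp μ ρ = mcomp μ' ρ) : μ = μ' := by
  have h1 : μ.π = μ'.π := by
    ext1 s
    apply ρ.π.injective
    have h2 := congrArg (fun ν : Mode H t m z => ν.π s) h
    exact h2
  cases μ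
  cases μ'
  simp only at h1
  subst h1
  rfl

private theorem fibre_le [Finite V] [Finite E] (H : Graph V E) (t : V → I) (ht : H.Equitable t)
    (s : H.Dart) (d d' : H.Dart) (h1 : t d.src = t s.src) (h2 : t d.tgt = t s.tgt)
    (h1' : t d'.src = t s.src) (h2' : t d'.tgt = t s.tgt) :
    {q : Σ y, Mode H t s.src y | ((q.2.π ⟨s, rfl⟩).1 : H.Dart) = d}.ncard ≤
      {q : Σ y, Mode H t s.src y | ((q.2.π ⟨s, rfl⟩).1 : H.Dart) = d'}.ncard := by
  classical
  have hfin : ∀ y, Finite (Mode H t s.src y) := fun y => mode_finite H t s.src y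
  obtain ⟨ρ, hρ⟩ := exists_mode H t ht d d' (h1'.trans h1.symm) (h2'.trans h2.symm)
  refine Set.ncard_le_ncard_of_injOn
    (fun q : Σ y, Mode H t s.src y => if h : q.1 = d.src then
      (⟨d'.src, mcomp (h ▸ q.2 : Mode H t s.src d.src) ρ⟩ : Σ y, Mode H t s.src y) else q)
    ?_ ?_ (Set.toFinite _)
  · rintro ⟨y, μ⟩ hq
    have hq' : ((μ.π ⟨s, rfl⟩).1 : H.Dart) = d := hq
    have hy : y = d.src := by rw [← hq', (μ.π ⟨s, rfl⟩).2]
    subst hy
    rw [dif_pos rfl]
    show ((ρ.π (μ.π ⟨s, rfl⟩)).1 : H.Dart) = d'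
    have h3 : μ.π ⟨s, rfl⟩ = ⟨d, rfl⟩ := Subtype.ext hq'
    rw [h3, hρ]
  · rintro ⟨y, μ⟩ hq ⟨y', μ'⟩ hq' he
    have hq1 : ((μ.π ⟨s, rfl⟩).1 : H.Dart) = d := hq
    have hq2 : ((μ'.π ⟨s, rfl⟩).1 : H.Dart) = d := hq'
    have hy : y = d.src := by rw [← hq1, (μ.π ⟨s, rfl⟩).2]
    have hy' : y' = d.src := by rw [← hq2, (μ'.π ⟨s, rfl⟩).2]
    subst hy
    subst hy'
    simp only [dif_pos] at he
    have h3 := eq_of_heq (Sigma.mk.inj he).2
    rw [mcomp_inj _ _ _ h3]

/-- All fibres of the map sending a mode of `m` to the image of the dart `s` at `m` have the same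
size. -/
theorem mode_fibre [Finite V] [Finite E] (H : Graph V E) (t : V → I) (ht : H.Equitable t)
    (s : H.Dart) (d : H.Dart) (h1 : t d.src = t s.src) (h2 : t d.tgt = t s.tgt) :
    {q : Σ y, Mode H t s.src y | ((q.2.π ⟨s, rfl⟩).1 : H.Dart) = d}.ncard *
      H.blockDarts t (t s.src) (t s.tgt) = Nat.card (Σ y, Mode H t s.src y) := by
  classical
  have hfin : ∀ y, Finite (Mode H t s.src y) := fun y => mode_finite H t s.src y
  letI : Fintype (Σ y, Mode H t s.src y) := Fintype.ofFinite _
  letI : Fintype H.Dart := Fintype.ofFinite _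
  let F : (Σ y, Mode H t s.src y) → H.Dart := fun q => (q.2.π ⟨s, rfl⟩).1
  have hN : ∀ e : H.Dart, {q : Σ y, Mode H t s.src y | ((q.2.π ⟨s, rfl⟩).1 : H.Dart) = e}.ncard =
      (Finset.univ.filter fun q => F q = e).card := by
    intro e
    rw [← Set.ncard_coe_finset]
    congr 1
    ext q
    simp [F]
  have hD : H.blockDarts t (t s.src) (t s.tgt) =
      (Finset.univ.filter fun e : H.Dart => t e.src = t s.src ∧ t e.tgt = t s.tgt).card := by
    unfold blockDarts
    rw [← Set.ncard_coe_finset]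
    congr 1
    ext q
    simp
  have hF : ∀ q ∈ (Finset.univ : Finset (Σ y, Mode H t s.src y)),
      F q ∈ (Finset.univ.filter fun e : H.Dart => t e.src = t s.src ∧ t e.tgt = t s.tgt) := by
    rintro ⟨y, μ⟩ -
    rw [Finset.mem_filter]
    refine ⟨Finset.mem_univ _, ?_, ?_⟩
    · show t (μ.π ⟨s, rfl⟩).1.src = t s.src
      rw [(μ.π ⟨s, rfl⟩).2, μ.block]
    · exact μ.typed ⟨s, rfl⟩
  rw [Nat.card_eq_fintype_card, ← Finset.card_univ, Finset.card_eq_sum_card_fiberwise hF, hN, hD,
    mul_comm, ← smul_eq_mul, ← Finset.sum_const]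
  refine Finset.sum_congr rfl fun e he => ?_
  rw [Finset.mem_filter] at he
  rw [← hN, ← hN]
  exact le_antisymm (fibre_le H t ht s d e h1 h2 he.2.1 he.2.2)
    (fibre_le H t ht s e d he.2.1 he.2.2 h1 h2)

end Graph

end Pool.Agent.Lib.MP_9c5086_lc
end

section

/-!
A dart graph with covers realizing all modes.
-/

namespace Pool.Agent.Lib.MP_9c5086_lc

namespace Graph

variable {V E I : Type}

namespace UJointAux

/-- All modes of `m`. -/
abbrev MT (H : Graph V E) (t : V → I) (m : V) : Type := Σ y, Mode H t m y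

/-- All modes. -/
abbrev Q (H : Graph V E) (t : V → I) : Type := Σ m, MT H t m

/-- The second coordinate of the vertices and darts. -/
abbrev TT (H : Graph V E) (t : V → I) : Type := ∀ m, Q H t → MT H t m

/-- The value of a dart. -/
def val {H : Graph V E} {t : V → I} (T : TT H t) (q : Q H t) (s : H.Dart) : H.Dart :=
  ((T s.src q).2.π ⟨s, rfl⟩).1

theorem val_eq {H : Graph V E} {t : V → I} (T : TT H t) (q : Q H t) {m : V} (s : H.Dart)
    (h : s.src = m) : val T q s = ((T m q).2.π ⟨s, h⟩).1 := by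
  subst h
  rfl

/-- The label of a dart. -/
def lab {H : Graph V E} {t : V → I} (z : H.Dart × TT H t) : H.Dart × (Q H t → H.Dart) :=
  (z.1, fun q => val z.2 q z.1)

/-- The inverse label. -/
def linv {H : Graph V E} {t : V → I} (l : H.Dart × (Q H t → H.Dart)) :
    H.Dart × (Q H t → H.Dart) :=
  (l.1.inv, fun q => (l.2 q).inv)

theorem linv_invol {H : Graph V E} {t : V → I} : Function.Involutive (linv (H := H) (t := t)) := by
  intro l
  unfold linv
  simp

theorem finMT [Finite V] [Finite E] (H : Graph V E) (t : V → I) (m : V) : Finite (MT H t m) := by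
  have : ∀ y, Finite (Mode H t m y) := fun y => mode_finite H t m y
  infer_instance

theorem finQ [Finite V] [Finite E] (H : Graph V E) (t : V → I) : Finite (Q H t) := by
  have : ∀ y, Finite (MT H t y) := fun y => finMT H t y
  infer_instance

theorem finTT [Finite V] [Finite E] (H : Graph V E) (t : V → I) : Finite (TT H t) := by
  have h1 : ∀ y, Finite (MT H t y) := fun y => finMT H t y
  have h2 := finQ H t
  infer_instance

theorem card_class [Finite V] [Finite E] (H : Graph V E) (t : V → I) (ht : H.Equitable t)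
    (s : H.Dart) (δ : Q H t → H.Dart)
    (hδ : ∀ q, t (δ q).src = t s.src ∧ t (δ q).tgt = t s.tgt) :
    {z : H.Dart × TT H t | lab z = (s, δ)}.ncard *
      (H.blockDarts t (t s.src) (t s.tgt)) ^ (Nat.card (Q H t)) = Nat.card (TT H t) := by
  classical
  have h1 : ∀ y, Finite (MT H t y) := fun y => finMT H t y
  have h2 := finQ H t
  have h3 := finTT H t
  have := Fintype.ofFinite (Q H t)
  set F : Q H t → Set (MT H t s.src) := fun q => {μ | ((μ.2.π ⟨s, rfl⟩).1 : H.Dart) = δ q} with hF
  have hFc : ∀ q, (F q).ncard * H.blockDarts t (t s.src) (t s.tgt) = Nat.card (MT H t s.src) :=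
    fun q => mode_fibre H t ht s (δ q) (hδ q).1 (hδ q).2
  -- the class as a product
  let e1 : {z : H.Dart × TT H t | lab z = (s, δ)} ≃
      {T : TT H t // (T s.src) ∈ {g : Q H t → MT H t s.src | ∀ q, g q ∈ F q}} :=
    { toFun := fun z => ⟨z.1.2, by
        intro q
        have h := z.2
        have h4 : z.1.1 = s := congrArg Prod.fst h
        have h5 : val z.1.2 q z.1.1 = δ q := congrFun (congrArg Prod.snd h) q
        rw [h4] at h5
        exact h5⟩
      invFun := fun T => ⟨(s, T.1), by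
        refine Prod.ext rfl ?_
        funext q
        exact T.2 q⟩
      left_inv := by
        rintro ⟨⟨s', T⟩, hz⟩
        have h4 : s' = s := congrArg Prod.fst hz
        subst h4
        rfl
      right_inv := by
        rintro ⟨T, hT⟩
        rfl }
  let R := ∀ m : {m : V // m ≠ s.src}, Q H t → MT H t m.1
  let e2 : TT H t ≃ (Q H t → MT H t s.src) × R :=
    Equiv.piSplitAt s.src (fun m => Q H t → MT H t m)
  let e3 : {T : TT H t // (T s.src) ∈ {g : Q H t → MT H t s.src | ∀ q, g q ∈ F q}} ≃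
      {x : (Q H t → MT H t s.src) × R // x.1 ∈ {g : Q H t → MT H t s.src | ∀ q, g q ∈ F q}} :=
    e2.subtypeEquiv (fun T => Iff.rfl)
  let e4 : {x : (Q H t → MT H t s.src) × R // x.1 ∈ {g : Q H t → MT H t s.src | ∀ q, g q ∈ F q}} ≃
      {g : Q H t → MT H t s.src // g ∈ {g : Q H t → MT H t s.src | ∀ q, g q ∈ F q}} × R :=
    Equiv.prodSubtypeFstEquivSubtypeProd
  let e5 : {g : Q H t → MT H t s.src // g ∈ {g : Q H t → MT H t s.src | ∀ q, g q ∈ F q}} ≃
      (∀ q, F q) := Equiv.subtypePiEquivPi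
  have c1 : {z : H.Dart × TT H t | lab z = (s, δ)}.ncard = (∏ q, (F q).ncard) * Nat.card R := by
    rw [← Nat.card_coe_set_eq, Nat.card_congr e1, Nat.card_congr e3, Nat.card_congr e4,
      Nat.card_prod, Nat.card_congr e5, Nat.card_pi]
    simp only [Nat.card_coe_set_eq]
  have c2 : Nat.card (TT H t) = (Nat.card (MT H t s.src)) ^ (Nat.card (Q H t)) * Nat.card R := by
    rw [Nat.card_congr e2, Nat.card_prod, Nat.card_pi, Finset.prod_const, Finset.card_univ,
      Nat.card_eq_fintype_card (α := Q H t)]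
  have c3 : (∏ q, (F q).ncard) * (H.blockDarts t (t s.src) (t s.tgt)) ^ (Nat.card (Q H t)) =
      (Nat.card (MT H t s.src)) ^ (Nat.card (Q H t)) := by
    rw [Nat.card_eq_fintype_card (α := Q H t), ← Finset.card_univ, ← Finset.prod_const,
      ← Finset.prod_const, ← Finset.prod_mul_distrib]
    exact Finset.prod_congr rfl fun q _ => hFc q
  rw [c1, c2, ← c3]
  ring

theorem class_empty (H : Graph V E) (t : V → I) (s : H.Dart) (δ : Q H t → H.Dart)
    (hδ : ¬ ∀ q, t (δ q).src = t s.src ∧ t (δ q).tgt = t s.tgt) :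
    {z : H.Dart × TT H t | lab z = (s, δ)} = ∅ := by
  rw [Set.eq_empty_iff_forall_notMem]
  rintro ⟨s', T⟩ hz
  have h4 : s' = s := congrArg Prod.fst hz
  subst h4
  apply hδ
  intro q
  have h5 : val T q s' = δ q := congrFun (congrArg Prod.snd hz) q
  rw [← h5]
  refine ⟨?_, ?_⟩
  · have h6 : (val T q s').src = (T s'.src q).1 := ((T s'.src q).2.π ⟨s', rfl⟩).2
    rw [h6]
    exact (T s'.src q).2.block
  · exact (T s'.src q).2.typed ⟨s', rfl⟩

theorem card_lab [Finite V] [Finite E] (H : Graph V E) (t : V → I) (ht : H.Equitable t)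
    (l : H.Dart × (Q H t → H.Dart)) :
    {z : H.Dart × TT H t | lab z = l}.ncard = {z : H.Dart × TT H t | lab z = linv l}.ncard := by
  obtain ⟨s, δ⟩ := l
  have hiff : (∀ q, t (δ q).src = t s.src ∧ t (δ q).tgt = t s.tgt) ↔
      (∀ q, t (δ q).inv.src = t s.inv.src ∧ t (δ q).inv.tgt = t s.inv.tgt) := by
    simp only [Dart.src_inv, Dart.tgt_inv]
    exact forall_congr' fun q => and_comm
  by_cases hδ : ∀ q, t (δ q).src = t s.src ∧ t (δ q).tgt = t s.tgt
  · have c1 := card_class H t ht s δ hδ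
    have c2 := card_class H t ht s.inv (fun q => (δ q).inv) (hiff.1 hδ)
    rw [Dart.src_inv, Dart.tgt_inv, H.blockDarts_comm t (t s.tgt) (t s.src)] at c2
    have hpos : 0 < H.blockDarts t (t s.src) (t s.tgt) := by
      unfold blockDarts
      rw [Set.ncard_pos (Set.toFinite _)]
      exact ⟨s, rfl, rfl⟩
    exact Nat.eq_of_mul_eq_mul_right (pow_pos hpos _) (c1.trans c2.symm)
  · rw [class_empty H t s δ hδ]
    have h := class_empty H t s.inv (fun q => (δ q).inv) (fun h => hδ (hiff.2 h))
    unfold linv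
    rw [h]

open Classical in
/-- The root coordinate. -/
noncomputable def T0 (H : Graph V E) (t : V → I) : TT H t := fun m q =>
  if h : q.1 = m then h ▸ q.2 else ⟨m, Mode.refl H t m⟩

theorem T0_eq (H : Graph V E) (t : V → I) (m : V) (μ : MT H t m) : T0 H t m ⟨m, μ⟩ = μ := by
  unfold T0
  rw [dif_pos rfl]

end UJointAux

open UJointAux in
/-- A dart graph with covers of `H` realizing all modes. -/
theorem exists_joint [Finite V] [Finite E] (H : Graph V E) (t : V → I) (ht : H.Equitable t) :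
    ∃ (X S : Type) (_ : Finite X) (_ : Finite S) (W : DartGraph X S) (τ : X → I) (r : V → X)
      (sl : H.Dart → S), (∀ m, τ (r m) = t m) ∧ (∀ s, W.src (sl s) = r s.src) ∧
      (∀ s s' : H.Dart, s.src = s'.src → sl s = sl s' → s = s') ∧
      (∀ m z, W.src z = r m → ∃ s : H.Dart, s.src = m ∧ sl s = z) ∧
      ∀ (m y : V) (μ : Mode H t m y), ∃ f : W.Cov H, (∀ x, t (f.fv x) = τ x) ∧ f.fv (r m) = y ∧
        ∀ s : {s : H.Dart // s.src = m}, f.fd (sl s.1) = (μ.π s).1 := by
  have h3 := finTT H t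
  obtain ⟨ι, hι, hlab⟩ := exists_involution (lab (H := H) (t := t)) linv linv_invol
    (card_lab H t ht)
  refine ⟨V × TT H t, H.Dart × TT H t, inferInstance, inferInstance,
    ⟨fun z => (z.1.src, z.2), ι, hι⟩, fun x => t x.1, fun m => (m, T0 H t), fun s => (s, T0 H t),
    fun m => rfl, fun s => rfl, fun s s' _ h => congrArg Prod.fst h, ?_, ?_⟩
  · rintro m ⟨s, T⟩ h
    have h4 : s.src = m := congrArg Prod.fst h
    have h5 : T = T0 H t := congrArg Prod.snd h
    exact ⟨s, h4, by rw [h5]⟩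
  · intro m y μ
    let q : Q H t := ⟨m, ⟨y, μ⟩⟩
    have hT0 : T0 H t m q = ⟨y, μ⟩ := T0_eq H t m ⟨y, μ⟩
    refine ⟨⟨fun x => (x.2 x.1 q).1, fun z => val z.2 q z.1, ?_, ?_, ?_, ?_⟩, ?_, ?_, ?_⟩
    · intro z
      exact ((z.2 z.1.src q).2.π ⟨z.1, rfl⟩).2
    · intro z
      have h := hlab z
      exact congrFun (congrArg Prod.snd h) q
    · rintro ⟨s, T⟩ ⟨s', T'⟩ h h'
      have h4 : s.src = s'.src := congrArg Prod.fst h
      have h5 : T = T' := congrArg Prod.snd h
      subst h5
      have h6 : val T q s = val T q s' := h'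
      rw [val_eq T q s h4, val_eq T q s' rfl] at h6
      have h7 := (T s'.src q).2.π.injective (Subtype.ext h6)
      have h8 : s = s' := congrArg Subtype.val h7
      rw [h8]
    · rintro ⟨m', T⟩ d hd
      have hd' : d.src = (T m' q).1 := hd
      let s := (T m' q).2.π.symm ⟨d, hd'⟩
      refine ⟨(s.1, T), Prod.ext s.2 rfl, ?_⟩
      have h6 : val T q s.1 = d := by
        rw [val_eq T q s.1 s.2]
        have : (T m' q).2.π ⟨s.1, s.2⟩ = ⟨d, hd'⟩ := by
          change (T m' q).2.π s = _
          exact (T m' q).2.π.apply_symm_apply _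
        rw [this]
      exact h6
    · rintro ⟨m', T⟩
      exact (T m' q).2.block
    · change (T0 H t m q).1 = y
      rw [hT0]
    · intro s
      change val (T0 H t) q s.1 = _
      rw [val_eq (T0 H t) q s.1 s.2, hT0]

end Graph

end Pool.Agent.Lib.MP_9c5086_lc
end

section

/-!
Universal graphs exist.
-/

namespace Pool.Agent.Lib.MP_9c5086_lc

namespace Graph

variable {V E I : Type}

/-- Universal graphs exist. -/
theorem exists_univ [Finite V] [Finite E] [Nonempty E] (H : Graph V E) (t : V → I) (ht : H.Equitable t) :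
    Nonempty (Univ H t) := by
  obtain ⟨X, S, hX, hS, W, τ, r, sl, hτr, hsrc, hslinj, hslsurj, hmode⟩ := exists_joint H t ht
  obtain ⟨e0⟩ := (inferInstance : Nonempty E)
  haveI : Nonempty S := ⟨sl ⟨(e0, false), fun h => by simp at h⟩⟩
  obtain ⟨Y, hY, G, pv, pd, sec, hsec, hpd, hinj, hsurj⟩ := exists_lift W
  have hnb : ∀ s : H.Dart, ∃ n', G.Adj (sec (r s.src)) n' ∧ pd (sec (r s.src)) n' = sl s := by
    intro s
    exact hsurj _ _ (by rw [hsec, hsrc])
  choose nb hadj hpdnb using hnb
  refine ⟨{ X := Y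
            fin := hY
            G := G
            τ := fun n => τ (pv n)
            r := fun m => sec (r m)
            nb := nb
            τ_r := ?_
            adj_nb := hadj
            nb_inj := ?_
            nb_surj := ?_
            mode := ?_ }⟩
  · intro m
    rw [hsec, hτr]
  · intro s s' hss hn
    refine hslinj s s' hss ?_
    rw [← hpdnb s, ← hpdnb s', hn, hss]
  · intro m n hmn
    obtain ⟨h1, -⟩ := hpd _ _ hmn
    rw [hsec] at h1
    obtain ⟨s, hs1, hs2⟩ := hslsurj m _ h1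
    refine ⟨s, hs1, ?_⟩
    subst hs1
    exact hinj _ _ _ (hadj s) hmn (by rw [hpdnb, hs2])
  · intro m y μ
    obtain ⟨f, hf1, hf2, hf3⟩ := hmode m y μ
    refine ⟨{ fv := fun n => f.fv (pv n)
              fd := fun n n' => f.fd (pd n n')
              src_fd := ?_
              inv_fd := ?_
              inj_fd := ?_
              surj_fd := ?_ }, ?_, ?_, ?_⟩
    · intro n n' h
      rw [f.src_fd, (hpd n n' h).1]
    · intro n n' h
      rw [(hpd n n' h).2, f.inv_fd]
    · intro n n' n'' h h' he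
      refine hinj n n' n'' h h' (f.inj_fd _ _ ?_ he)
      rw [(hpd n n' h).1, (hpd n n'' h').1]
    · intro n d hd
      obtain ⟨s, hs1, hs2⟩ := f.surj_fd (pv n) d hd
      obtain ⟨n', hn1, hn2⟩ := hsurj n s hs1
      exact ⟨n', hn1, by rw [hn2, hs2]⟩
    · intro n
      exact hf1 _
    · show f.fv (pv (sec (r m))) = y
      rw [hsec, hf2]
    · rintro ⟨s, rfl⟩
      show f.fd (pd (sec (r s.src)) (nb s)) = _
      rw [hpdnb]
      exact hf3 ⟨s, rfl⟩

end Graph

end Pool.Agent.Lib.MP_9c5086_lc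
end
end

section

section

/-!
The antistar.
-/

namespace Pool.Agent.Lib.MP_9c5086_lc

namespace Graph

variable {V E I : Type} {H : Graph V E} {t : V → I}

/-- The universal graph without the edges from the root `x` to its neighbours belonging to the
three darts of the setup. -/
def antiGraph (S : Setup H t (Fin 3)) (Y : Univ H t) : SimpleGraph Y.X where
  Adj n n' := Y.G.Adj n n' ∧ ∀ a, ¬ (n = Y.r S.x ∧ n' = Y.nb (S.dc a)) ∧
    ¬ (n' = Y.r S.x ∧ n = Y.nb (S.dc a))
  symm := ⟨fun _ _ h => ⟨h.1.symm, fun a => ⟨(h.2 a).2, (h.2 a).1⟩⟩⟩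
  loopless := ⟨fun _ h => Y.G.irrefl h.1⟩

/-- The antistar: the universal graph with three negative ports at the neighbours of the root
`x`. -/
def antistar (S : Setup H t (Fin 3)) (Y : Univ H t) (f : DCover Y.G H)
    (hf : ∀ n, t (f.fv n) = Y.τ n) (hx : f.fv (Y.r S.x) = S.x)
    (hnb : ∀ s : H.Dart, s.src = S.x → f.fd (Y.r S.x) (Y.nb s) = s) :
    Proto S (Fin 3) (fun _ => false) where
  U := Y.X
  finU := Y.fin
  T := antiGraph S Y
  mv := f.fv
  slot := f.fd
  pu a := Y.nb (S.dc a)
  ps a := (S.dc a).inv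
  Lv n := {v | n = Y.r S.x → v = S.x}
  Le n n' := {e | ∀ s : H.Dart, s.src = S.x → (n = Y.r S.x ∧ n' = Y.nb s) ∨
    (n' = Y.r S.x ∧ n = Y.nb s) → e = s.edge}
  LP _ := Set.univ
  src_slot _ _ h := f.src_fd h.1
  src_ps p := by
    have h1 := Y.adj_nb (S.dc p)
    rw [S.src_dc] at h1
    have h2 := f.inv_fd h1
    rw [hnb _ (S.src_dc p)] at h2
    rw [← h2, f.src_fd h1.symm]
  inj_slot _ _ _ h h' := f.inj_fd h.1 h'.1
  inj_ps p p' _ h := by
    exact S.inj_dc p p' (congrArg Dart.edge (Dart.inv_injective h))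
  disj p u h1 h2 := by
    have h3 := Y.adj_nb (S.dc p)
    rw [S.src_dc] at h3
    have h4 := f.inv_fd h3
    rw [hnb _ (S.src_dc p), ← h2] at h4
    have h5 := f.inj_fd h3.symm h1.1 h4
    exact (h1.2 p).2 ⟨h5.symm, rfl⟩
  ty_slot u u' h := by rw [f.tgt_fd h.1]
  Le_comm u u' _ := by
    ext e
    exact forall_congr' fun s => forall_congr' fun _ => by rw [or_comm]
  ty_pos p h := by simp at h
  ty_neg p _ := by
    have h1 := Y.adj_nb (S.dc p)
    rw [S.src_dc] at h1
    refine ⟨?_, ?_⟩
    · rw [← f.tgt_fd h1, hnb _ (S.src_dc p), S.ty_dc]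
    · rw [Dart.tgt_inv, S.src_dc]
  neg_inj p p' _ _ h := S.inj_dc p p' (congrArg Dart.edge
    (Y.nb_inj _ _ ((S.src_dc p).trans (S.src_dc p').symm) h))
  neg_pos p p' _ h := by simp at h
  neg_adj p p' _ h := by simp at h

end Graph

end Pool.Agent.Lib.MP_9c5086_lc
end

section

/-!
Counting ends of edges in a solution of the antistar.
-/

namespace Pool.Agent.Lib.MP_9c5086_lc

namespace Graph

variable {V E I : Type} {H : Graph V E} {t : V → I}
  (S : Setup H t (Fin 3)) (Y : Univ H t) (f : DCover Y.G H)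
  (hf : ∀ n, t (f.fv n) = Y.τ n) (hx : f.fv (Y.r S.x) = S.x)
  (hnb : ∀ s : H.Dart, s.src = S.x → f.fd (Y.r S.x) (Y.nb s) = s)

open scoped Classical in
private theorem ac_ncard {α : Type} [Fintype α] (p : α → Prop) :
    {x | p x}.ncard = (Finset.univ.filter p).card := by
  rw [Set.ncard_eq_toFinset_card']
  congr 1
  ext x
  simp

open scoped Classical in
private theorem ac_sum_inc [Fintype E] [Fintype H.Dart] (v : V) :
    ∑ e, H.inc e v = (Finset.univ.filter fun d : H.Dart => d.src = v).card := by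
  rw [Finset.card_eq_sum_card_fiberwise (f := fun d : H.Dart => d.edge) (t := Finset.univ)
    (fun _ _ => Finset.mem_coe.2 (Finset.mem_univ _))]
  refine Finset.sum_congr rfl fun e _ => ?_
  unfold inc
  rw [ac_ncard]
  congr 1
  ext d
  simp [and_comm]

open scoped Classical in
private theorem ac_deg [Fintype H.Dart] (ht : H.Equitable t) (v w : V) (h : t v = t w) :
    (Finset.univ.filter fun d : H.Dart => d.src = v).card =
      (Finset.univ.filter fun d : H.Dart => d.src = w).card := by
  have key : ∀ v : V, (Finset.univ.filter fun d : H.Dart => d.src = v).card =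
      ∑ j ∈ Finset.univ.image (fun d : H.Dart => t d.tgt), H.classSize t v j := by
    intro v
    rw [Finset.card_eq_sum_card_fiberwise (f := fun d : H.Dart => t d.tgt)
      (t := Finset.univ.image (fun d : H.Dart => t d.tgt))
      (fun d _ => Finset.mem_coe.2 (Finset.mem_image_of_mem _ (Finset.mem_univ _)))]
    refine Finset.sum_congr rfl fun j _ => ?_
    unfold classSize
    rw [ac_ncard]
    congr 1
    ext d
    simp
  rw [key, key]
  exact Finset.sum_congr rfl fun j _ => ht v w h j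

open scoped Classical in
/-- Splitting the neighbours of a vertex different from the root. -/
private theorem ac_nbrs [Fintype Y.X] (u : Y.X) (hu : u ≠ Y.r S.x) :
    (Finset.univ.filter fun n => Y.G.Adj u n).card =
      (Finset.univ.filter fun n => (antiGraph S Y).Adj u n).card +
        (Finset.univ.filter fun p : Fin 3 => Y.nb (S.dc p) = u).card := by
  have hadj : ∀ p, Y.G.Adj (Y.r S.x) (Y.nb (S.dc p)) := by
    intro p
    have := Y.adj_nb (S.dc p)
    rwa [S.src_dc] at this
  have hinj : ∀ p p', Y.nb (S.dc p) = Y.nb (S.dc p') → p = p' := by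
    intro p p' h
    exact S.inj_dc p p' (congrArg Dart.edge
      (Y.nb_inj _ _ ((S.src_dc p).trans (S.src_dc p').symm) h))
  have h1 : (Finset.univ.filter fun n => Y.G.Adj u n) =
      (Finset.univ.filter fun n => (antiGraph S Y).Adj u n) ∪
        (Finset.univ.filter fun p : Fin 3 => Y.nb (S.dc p) = u).image (fun _ => Y.r S.x) := by
    ext n
    simp only [Finset.mem_filter, Finset.mem_univ, true_and, Finset.mem_union, Finset.mem_image]
    constructor
    · intro h
      by_cases h2 : ∃ a, n = Y.r S.x ∧ u = Y.nb (S.dc a)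
      · right
        obtain ⟨a, h3, h4⟩ := h2
        exact ⟨a, h4.symm, h3.symm⟩
      · left
        exact ⟨h, fun a => ⟨fun h5 => hu h5.1, fun h5 => h2 ⟨a, h5⟩⟩⟩
    · rintro (h | ⟨p, h2, h3⟩)
      · exact h.1
      · rw [← h3, ← h2]
        exact (hadj p).symm
  rw [h1, Finset.card_union_of_disjoint]
  · congr 1
    rw [Finset.card_image_of_injOn]
    intro p hp p' hp' _
    simp only [Finset.mem_coe, Finset.mem_filter, Finset.mem_univ, true_and] at hp hp'
    exact hinj p p' (hp.trans hp'.symm)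
  · rw [Finset.disjoint_left]
    intro n h2 h3
    simp only [Finset.mem_filter, Finset.mem_univ, true_and, Finset.mem_image] at h2 h3
    obtain ⟨p, h4, h5⟩ := h3
    exact (h2.2 p).2 ⟨h5.symm, h4.symm⟩

open scoped Classical in
/-- A cover is bijective on the neighbours of a vertex. -/
private theorem ac_cov [Fintype Y.X] [Fintype H.Dart] (u : Y.X) :
    (Finset.univ.filter fun n => Y.G.Adj u n).card =
      (Finset.univ.filter fun d : H.Dart => d.src = f.fv u).card := by
  refine Finset.card_bij (fun n _ => f.fd u n) ?_ ?_ ?_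
  · intro n hn
    simp only [Finset.mem_filter, Finset.mem_univ, true_and] at hn ⊢
    exact f.src_fd hn
  · intro n hn n' hn' h
    simp only [Finset.mem_filter, Finset.mem_univ, true_and] at hn hn'
    exact f.inj_fd hn hn' h
  · intro d hd
    simp only [Finset.mem_filter, Finset.mem_univ, true_and] at hd
    obtain ⟨n, h1, h2⟩ := f.surj_fd u d hd
    exact ⟨n, by simpa using h1, h2⟩

open scoped Classical in
private theorem ac_even {α : Type} (s : Finset α) (g : α → α) (h1 : ∀ x ∈ s, g x ∈ s)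
    (h2 : ∀ x ∈ s, g x ≠ x) (h3 : ∀ x ∈ s, g (g x) = x) : Even s.card := by
  have h : ∑ _x ∈ s, (1 : ZMod 2) = 0 := by
    refine Finset.sum_involution (fun x _ => g x) ?_ ?_ ?_ ?_
    · intro x _
      decide
    · intro x hx _
      exact h2 x hx
    · intro x hx
      exact h1 x hx
    · intro x hx
      exact h3 x hx
  rw [Finset.sum_const, nsmul_eq_mul, mul_one] at h
  exact (ZMod.natCast_eq_zero_iff_even).1 h

/-- Counting ends of edges in a solution of the antistar: `n v` is the number of vertices different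
from the root with image `v`, and `N v e` is the number of ends over `v` of the edges with image
`e` between such vertices. -/
theorem antistar_count [Fintype V] [Finite E] (ht : H.Equitable t) (c : Fin 3 → Fin 3)
    (h : (antistar S Y f hf hx hnb).gadget.Sat c) :
    ∃ (n : V → ℕ) (N : V → E → ℕ),
      (∀ i, open scoped Classical in ∑ v ∈ Finset.univ.filter (fun v => t v = i), n v =
        {u | u ≠ Y.r S.x ∧ Y.τ u = i}.ncard) ∧
      (∀ v v' e, H.Joins e v v' → N v e = N v' e) ∧ (∀ v e, H.Joins e v v → Even (N v e)) ∧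
      ∀ v e, n v * H.inc e v = N v e + {a | (S.dc (c a)).edge = e ∧ (S.dc (c a)).tgt = v}.ncard +
        {s : H.Dart | s.src = S.x ∧ (∀ a, s ≠ S.dc a) ∧ s.edge = e ∧ s.tgt = v}.ncard := by
  classical
  have : Nonempty E := ⟨(S.dc 0).edge⟩
  obtain ⟨fv, fe, hs⟩ := ((antistar S Y f hf hx hnb).sat_iff c).1 h
  change Y.X → V at fv
  change Y.X → Y.X → E at fe
  have := Y.fin
  have := Fintype.ofFinite Y.X
  have := Fintype.ofFinite E
  have := Fintype.ofFinite H.Dart
  have hcomm : ∀ u u', (antiGraph S Y).Adj u u' → fe u u' = fe u' u := hs.comm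
  have hty : ∀ u, t (fv u) = t (f.fv u) := hs.ty
  have hjoins : ∀ u u', (antiGraph S Y).Adj u u' → H.Joins (fe u u') (fv u) (fv u') := hs.joins
  have hneg : ∀ p : Fin 3, H.Joins (S.ec (c p)) (fv (Y.nb (S.dc p))) S.x := fun p => hs.neg p rfl
  have hlv : ∀ u, u = Y.r S.x → fv u = S.x := hs.lv
  have hle : ∀ u u', (antiGraph S Y).Adj u u' → ∀ s : H.Dart, s.src = S.x →
      (u = Y.r S.x ∧ u' = Y.nb s) ∨ (u' = Y.r S.x ∧ u = Y.nb s) → fe u u' = s.edge := hs.le
  have hcount : ∀ u e, (Finset.univ.filter fun u' => (antiGraph S Y).Adj u u' ∧ fe u u' = e).card +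
      (Finset.univ.filter fun p : Fin 3 => Y.nb (S.dc p) = u ∧ S.ec (c p) = e).card ≤
        H.inc e (fv u) := by
    intro u e
    have h1 : {u' | (antiGraph S Y).Adj u u' ∧ fe u u' = e}.ncard +
      {p : Fin 3 | Y.nb (S.dc p) = u ∧ S.ec (c p) = e}.ncard ≤ H.inc e (fv u) := hs.count u e
    rw [ac_ncard, ac_ncard] at h1
    convert h1
  have hadj : ∀ s : H.Dart, s.src = S.x → Y.G.Adj (Y.r S.x) (Y.nb s) := by
    intro s h1
    have := Y.adj_nb s
    rwa [h1] at this
  -- equality in the counting condition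
  have heq : ∀ u e, u ≠ Y.r S.x →
      (Finset.univ.filter fun u' => (antiGraph S Y).Adj u u' ∧ fe u u' = e).card +
      (Finset.univ.filter fun p : Fin 3 => Y.nb (S.dc p) = u ∧ S.ec (c p) = e).card =
        H.inc e (fv u) := by
    intro u e hu
    have h1 : ∑ e, ((Finset.univ.filter fun u' => (antiGraph S Y).Adj u u' ∧ fe u u' = e).card +
        (Finset.univ.filter fun p : Fin 3 => Y.nb (S.dc p) = u ∧ S.ec (c p) = e).card) =
        ∑ e, H.inc e (fv u) := by
      rw [ac_sum_inc, ac_deg ht (fv u) (f.fv u) (hty u), ← ac_cov Y f u, ac_nbrs S Y u hu,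
        Finset.sum_add_distrib]
      congr 1
      · rw [Finset.card_eq_sum_card_fiberwise (f := fun u' => fe u u') (t := Finset.univ)
          (fun _ _ => Finset.mem_coe.2 (Finset.mem_univ _))]
        refine Finset.sum_congr rfl fun e _ => ?_
        rw [Finset.filter_filter]
      · rw [Finset.card_eq_sum_card_fiberwise (f := fun p : Fin 3 => S.ec (c p))
          (t := Finset.univ) (fun _ _ => Finset.mem_coe.2 (Finset.mem_univ _))]
        refine Finset.sum_congr rfl fun e _ => ?_
        rw [Finset.filter_filter]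
    exact (Finset.sum_eq_sum_iff_of_le (fun e _ => hcount u e)).1 h1 e (Finset.mem_univ _)
  refine ⟨fun v => (Finset.univ.filter fun u => u ≠ Y.r S.x ∧ fv u = v).card,
    fun v e => (Finset.univ.filter fun p : Y.X × Y.X => p.1 ≠ Y.r S.x ∧ p.2 ≠ Y.r S.x ∧
      (antiGraph S Y).Adj p.1 p.2 ∧ fv p.1 = v ∧ fe p.1 p.2 = e).card, ?_, ?_, ?_, ?_⟩
  · intro i
    beta_reduce
    rw [ac_ncard, Finset.card_eq_sum_card_fiberwise (f := fun u => fv u)
      (t := Finset.univ.filter fun v => t v = i)]
    · refine Finset.sum_congr rfl fun v hv => ?_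
      simp only [Finset.mem_filter, Finset.mem_univ, true_and] at hv
      rw [Finset.filter_filter]
      congr 1
      ext u
      simp only [Finset.mem_filter, Finset.mem_univ, true_and]
      constructor
      · rintro ⟨h1, h2⟩
        exact ⟨⟨h1, by rw [← hf, ← hty, h2, hv]⟩, h2⟩
      · rintro ⟨⟨h1, _⟩, h2⟩
        exact ⟨h1, h2⟩
    · intro u hu
      simp only [Finset.mem_coe, Finset.mem_filter, Finset.mem_univ, true_and] at hu ⊢
      rw [hty, hf]
      exact hu.2
  · intro v v' e he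
    refine Finset.card_bij (fun p _ => (p.2, p.1)) ?_ ?_ ?_
    · rintro ⟨u, u'⟩ hp
      simp only [Finset.mem_filter, Finset.mem_univ, true_and] at hp ⊢
      obtain ⟨h1, h2, h3, h4, h5⟩ := hp
      refine ⟨h2, h1, h3.symm, ?_, by rw [← hcomm u u' h3]; exact h5⟩
      have h6 := hjoins u u' h3
      rw [h4, h5] at h6
      exact h6.unique he
    · rintro ⟨u, u'⟩ _ ⟨w, w'⟩ _ h1
      simp only [Prod.mk.injEq] at h1 ⊢
      exact ⟨h1.2, h1.1⟩
    · rintro ⟨u, u'⟩ hp
      simp only [Finset.mem_filter, Finset.mem_univ, true_and] at hp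
      obtain ⟨h1, h2, h3, h4, h5⟩ := hp
      refine ⟨(u', u), ?_, rfl⟩
      simp only [Finset.mem_filter, Finset.mem_univ, true_and]
      refine ⟨h2, h1, h3.symm, ?_, by rw [← hcomm u u' h3]; exact h5⟩
      have h6 := hjoins u u' h3
      rw [h4, h5] at h6
      exact h6.unique he.symm
  · intro v e he
    refine ac_even _ (fun p => (p.2, p.1)) ?_ ?_ ?_
    · rintro ⟨u, u'⟩ hp
      simp only [Finset.mem_filter, Finset.mem_univ, true_and] at hp ⊢
      obtain ⟨h1, h2, h3, h4, h5⟩ := hp
      refine ⟨h2, h1, h3.symm, ?_, by rw [← hcomm u u' h3]; exact h5⟩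
      have h6 := hjoins u u' h3
      rw [h4, h5] at h6
      exact h6.unique he
    · rintro ⟨u, u'⟩ hp h1
      simp only [Finset.mem_filter, Finset.mem_univ, true_and] at hp
      simp only [Prod.mk.injEq] at h1
      have h3 := hp.2.2.1
      rw [h1.2] at h3
      exact (antiGraph S Y).irrefl h3
    · rintro ⟨u, u'⟩ _
      rfl
  · intro v e
    rw [ac_ncard, ac_ncard]
    have h1 : (Finset.univ.filter fun u => u ≠ Y.r S.x ∧ fv u = v).card * H.inc e v =
        ∑ u ∈ Finset.univ.filter (fun u => u ≠ Y.r S.x ∧ fv u = v),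
          ((Finset.univ.filter fun u' => (antiGraph S Y).Adj u u' ∧ fe u u' = e).card +
          (Finset.univ.filter fun p : Fin 3 => Y.nb (S.dc p) = u ∧ S.ec (c p) = e).card) := by
      rw [← smul_eq_mul, ← Finset.sum_const]
      refine Finset.sum_congr rfl fun u hu => ?_
      simp only [Finset.mem_filter, Finset.mem_univ, true_and] at hu
      rw [heq u e hu.1, hu.2]
    beta_reduce
    rw [h1, Finset.sum_add_distrib, add_right_comm]
    congr 1
    · -- the pairs
      have e1 : ∀ u, (Finset.univ.filter fun u' => (antiGraph S Y).Adj u u' ∧ fe u u' = e).card =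
          (Finset.univ.filter fun u' => u' ≠ Y.r S.x ∧ (antiGraph S Y).Adj u u' ∧
            fe u u' = e).card + (if (antiGraph S Y).Adj u (Y.r S.x) ∧ fe u (Y.r S.x) = e
              then 1 else 0) := by
        intro u
        rw [← Finset.card_filter_add_card_filter_not (s := Finset.univ.filter fun u' =>
          (antiGraph S Y).Adj u u' ∧ fe u u' = e) (fun u' => u' ≠ Y.r S.x), Finset.filter_filter,
          Finset.filter_filter]
        congr 1
        · congr 1
          ext u'
          simp only [Finset.mem_filter, Finset.mem_univ, true_and]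
          exact and_comm
        · split_ifs with h2
          · rw [Finset.card_eq_one]
            refine ⟨Y.r S.x, ?_⟩
            ext u'
            simp only [Finset.mem_filter, Finset.mem_univ, true_and, not_not,
              Finset.mem_singleton]
            constructor
            · exact fun h3 => h3.2
            · rintro rfl
              exact ⟨h2, rfl⟩
          · rw [Finset.card_eq_zero, Finset.filter_eq_empty_iff]
            intro u' _ h3
            rw [not_not] at h3
            rw [h3.2] at h3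
            exact h2 h3.1
      rw [Finset.sum_congr rfl fun u _ => e1 u, Finset.sum_add_distrib]
      congr 1
      · -- pairs without the root
        rw [Finset.card_eq_sum_card_fiberwise (f := fun p : Y.X × Y.X => p.1)
          (t := Finset.univ.filter fun u => u ≠ Y.r S.x ∧ fv u = v)]
        · refine Finset.sum_congr rfl fun u hu => ?_
          simp only [Finset.mem_filter, Finset.mem_univ, true_and] at hu
          rw [Finset.filter_filter]
          refine Finset.card_bij (fun u' _ => (u, u')) ?_ ?_ ?_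
          · intro u' hu'
            simp only [Finset.mem_filter, Finset.mem_univ, true_and] at hu' ⊢
            exact ⟨⟨hu.1, hu'.1, hu'.2.1, hu.2, hu'.2.2⟩, trivial⟩
          · intro u' _ u'' _ h2
            exact congrArg Prod.snd h2
          · rintro ⟨u1, u'⟩ hp
            simp only [Finset.mem_filter, Finset.mem_univ, true_and] at hp
            obtain ⟨⟨h2, h3, h4, h5, h6⟩, h7⟩ := hp
            subst h7
            refine ⟨u', ?_, rfl⟩
            simp only [Finset.mem_filter, Finset.mem_univ, true_and]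
            exact ⟨h3, h4, h6⟩
        · intro p hp
          simp only [Finset.mem_coe, Finset.mem_filter, Finset.mem_univ, true_and] at hp ⊢
          exact ⟨hp.1, hp.2.2.2.1⟩
      · -- pairs with the root
        rw [← Finset.card_filter, Finset.filter_filter]
        symm
        refine Finset.card_bij (fun s _ => Y.nb s) ?_ ?_ ?_
        · intro s hs'
          simp only [Finset.mem_filter, Finset.mem_univ, true_and] at hs' ⊢
          obtain ⟨h2, h3, h4, h5⟩ := hs'
          have h6 : (antiGraph S Y).Adj (Y.nb s) (Y.r S.x) := by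
            refine ⟨(hadj s h2).symm, fun a => ⟨fun h7 => ?_, fun h7 => ?_⟩⟩
            · exact Y.G.irrefl (h7.1 ▸ hadj s h2)
            · exact h3 a (Y.nb_inj _ _ (h2.trans (S.src_dc a).symm) h7.2)
          have h7 : fe (Y.nb s) (Y.r S.x) = s.edge := hle _ _ h6 s h2 (Or.inr ⟨rfl, rfl⟩)
          have h8 := hjoins _ _ h6
          rw [h7, hlv _ rfl] at h8
          have h9 := s.joins
          rw [h2, h5] at h9
          refine ⟨⟨fun h10 => Y.G.irrefl (h10 ▸ hadj s h2), h8.symm.unique h9⟩, h6,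
            h7.trans h4⟩
        · intro s hs' s' hs'' h2
          simp only [Finset.mem_filter, Finset.mem_univ, true_and] at hs' hs''
          exact Y.nb_inj _ _ (hs'.1.trans hs''.1.symm) h2
        · intro u hu
          simp only [Finset.mem_filter, Finset.mem_univ, true_and] at hu
          obtain ⟨⟨h2, h3⟩, h4, h5⟩ := hu
          obtain ⟨s, h6, rfl⟩ := Y.nb_surj _ _ h4.1.symm
          refine ⟨s, ?_, rfl⟩
          simp only [Finset.mem_filter, Finset.mem_univ, true_and]
          have h7 : fe (Y.nb s) (Y.r S.x) = s.edge := hle _ _ h4 s h6 (Or.inr ⟨rfl, rfl⟩)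
          have h8 := hjoins _ _ h4
          rw [h7, hlv _ rfl] at h8
          have h9 := s.joins
          rw [h6] at h9
          refine ⟨h6, fun a h10 => (h4.2 a).2 ⟨rfl, by rw [h10]⟩, h7.symm.trans h5,
            (h9.unique h8.symm).trans h3⟩
    · -- the ports
      have e2 : ∀ a : Fin 3, fv (Y.nb (S.dc a)) = (S.dc (c a)).tgt := fun a => S.eq_tgt (hneg a)
      rw [Finset.card_eq_sum_card_fiberwise (f := fun a : Fin 3 => Y.nb (S.dc a))
        (t := Finset.univ.filter fun u => u ≠ Y.r S.x ∧ fv u = v)]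
      · refine Finset.sum_congr rfl fun u hu => ?_
        simp only [Finset.mem_filter, Finset.mem_univ, true_and] at hu
        rw [Finset.filter_filter]
        congr 1
        ext a
        simp only [Finset.mem_filter, Finset.mem_univ, true_and]
        constructor
        · rintro ⟨h2, h3⟩
          exact ⟨⟨h3, by rw [← e2, h2, hu.2]⟩, h2⟩
        · rintro ⟨⟨h2, _⟩, h3⟩
          exact ⟨h3, h2⟩
      · intro a ha
        simp only [Finset.mem_coe, Finset.mem_filter, Finset.mem_univ, true_and] at ha ⊢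
        refine ⟨fun h2 => ?_, (e2 a).trans ha.2⟩
        have h3 := hadj _ (S.src_dc a)
        rw [h2] at h3
        exact Y.G.irrefl h3

end Graph

end Pool.Agent.Lib.MP_9c5086_lc
end

section

/-!
The antistar realizes the injective assignments.
-/

namespace Pool.Agent.Lib.MP_9c5086_lc

namespace Graph

variable {V E I : Type} {H : Graph V E} {t : V → I}
  (S : Setup H t (Fin 3)) (Y : Univ H t) (f : DCover Y.G H)
  (hf : ∀ n, t (f.fv n) = Y.τ n) (hx : f.fv (Y.r S.x) = S.x)
  (hnb : ∀ s : H.Dart, s.src = S.x → f.fd (Y.r S.x) (Y.nb s) = s)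

omit hf hx hnb in
private theorem exists_phi (c : Fin 3 → Fin 3) : ∃ φ : H.Dart → H.Dart,
    (∀ a, φ (S.dc a) = S.dc (c a)) ∧ ∀ s, (∀ a, s ≠ S.dc a) → φ s = s := by
  classical
  refine ⟨fun s => if h : ∃ a, s = S.dc a then S.dc (c h.choose) else s, ?_, ?_⟩
  · intro a
    have h : ∃ b, S.dc a = S.dc b := ⟨a, rfl⟩
    have h1 : h.choose = a := (S.inj_dc _ _ (congrArg Dart.edge h.choose_spec)).symm
    beta_reduce
    rw [dif_pos h, h1]
  · intro s hs
    beta_reduce
    rw [dif_neg]
    rintro ⟨a, ha⟩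
    exact hs a ha

/-- The antistar realizes the injective assignments. -/
theorem antistar_sat_of_injective [Finite V] [Finite E] (ht : H.Equitable t) (c : Fin 3 → Fin 3)
    (hc : Function.Injective c) : (antistar S Y f hf hx hnb).gadget.Sat c := by
  classical
  have : Nonempty E := ⟨S.ec 0⟩
  obtain ⟨φ, hφ1, hφ2⟩ := exists_phi S c
  have hdc : ∀ a b, S.dc a = S.dc b → a = b := fun a b h => S.inj_dc _ _ (congrArg Dart.edge h)
  obtain ⟨μ, hμ⟩ := exists_mode_of_injOn H t ht S.x S.x rfl {s | s.src = S.x} (fun s hs => hs) φ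
    (by
      intro s hs
      by_cases h : ∃ a, s = S.dc a
      · obtain ⟨a, rfl⟩ := h
        rw [hφ1]
        exact ⟨S.src_dc _, by rw [S.ty_dc, S.ty_dc]⟩
      · rw [hφ2 s (fun a ha => h ⟨a, ha⟩)]
        exact ⟨hs, rfl⟩)
    (by
      intro s _ s' _ h
      by_cases h1 : ∃ a, s = S.dc a
      · obtain ⟨a, rfl⟩ := h1
        by_cases h2 : ∃ a, s' = S.dc a
        · obtain ⟨b, rfl⟩ := h2
          rw [hφ1, hφ1] at h
          rw [hc (hdc _ _ h)]
        · rw [hφ1, hφ2 s' (fun a ha => h2 ⟨a, ha⟩)] at h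
          exact absurd ⟨_, h.symm⟩ h2
      · by_cases h2 : ∃ a, s' = S.dc a
        · obtain ⟨b, rfl⟩ := h2
          rw [hφ1, hφ2 s (fun a ha => h1 ⟨a, ha⟩)] at h
          exact absurd ⟨_, h⟩ h1
        · rwa [hφ2 s (fun a ha => h1 ⟨a, ha⟩), hφ2 s' (fun a ha => h2 ⟨a, ha⟩)] at h)
  obtain ⟨f', hf', hx', hnb'⟩ := Y.mode S.x S.x μ
  have hnb'' : ∀ s : H.Dart, s.src = S.x → f'.fd (Y.r S.x) (Y.nb s) = φ s := by
    intro s hs
    rw [← hμ s hs]
    exact hnb' ⟨s, hs⟩
  have hadj : ∀ s : H.Dart, s.src = S.x → Y.G.Adj (Y.r S.x) (Y.nb s) := by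
    intro s hs
    have := Y.adj_nb s
    rwa [hs] at this
  rw [Proto.sat_iff]
  refine ⟨f'.fv, fun u u' => (f'.fd u u').edge,
    Proto.Sol.of_darts (A := antistar S Y f hf hx hnb) c f'.fv
    f'.fd (fun p => f'.fd (Y.nb (S.dc p)) (Y.r S.x)) (fun _ _ h => f'.src_fd h.1)
    (fun _ _ h => f'.inv_fd h.1) (fun _ _ _ h h' he => f'.inj_fd h.1 h'.1 he)
    (fun p => f'.src_fd (hadj _ (S.src_dc p)).symm) ?_ ?_ ?_ ?_ ?_ ?_ ?_
    (fun _ => Set.mem_univ _)⟩
  · intro p
    rw [f'.inv_fd (hadj _ (S.src_dc p)), Dart.edge_inv, hnb'' _ (S.src_dc p), hφ1]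
    rfl
  · intro p p' h _
    exact hdc _ _ (Y.nb_inj _ _ ((S.src_dc p).trans (S.src_dc p').symm) h)
  · intro p u h h1
    have h2 := f'.inj_fd h.1 (hadj _ (S.src_dc p)).symm h1
    exact (h.2 p).2 ⟨h2, rfl⟩
  · intro u
    exact (hf' u).trans (hf u).symm
  · intro p _
    rw [f'.tgt_fd (hadj _ (S.src_dc p)).symm, hx']
  · intro u h
    rw [h]
    exact hx'
  · intro u u' h s hs h1
    have hs' : ∀ a, s ≠ S.dc a := by
      rintro a rfl
      rcases h1 with h1 | h1
      · exact (h.2 a).1 h1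
      · exact (h.2 a).2 h1
    rcases h1 with ⟨rfl, rfl⟩ | ⟨rfl, rfl⟩
    · change (f'.fd (Y.r S.x) (Y.nb s)).edge = s.edge
      rw [hnb'' s hs, hφ2 s hs']
    · change (f'.fd (Y.nb s) (Y.r S.x)).edge = s.edge
      rw [f'.inv_fd (hadj s hs), Dart.edge_inv, hnb'' s hs, hφ2 s hs']

end Graph

end Pool.Agent.Lib.MP_9c5086_lc
end

section

/-!
The relation of the antistar.
-/

namespace Pool.Agent.Lib.MP_9c5086_lc

namespace Graph

section

variable {V E I : Type} {H : Graph V E} {t : V → I}
  (S : Setup H t (Fin 3)) (Y : Univ H t) (f : DCover Y.G H)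
  (hf : ∀ n, t (f.fv n) = Y.τ n) (hx : f.fv (Y.r S.x) = S.x)
  (hnb : ∀ s : H.Dart, s.src = S.x → f.fd (Y.r S.x) (Y.nb s) = s)

/-- Solutions of the antistar satisfy the laws. -/
theorem antistar_laws [Fintype V] [Finite E] (ht : H.Equitable t) (c : Fin 3 → Fin 3)
    (h : (antistar S Y f hf hx hnb).gadget.Sat c) :
    ∃ m, Laws S m (fun a => ((Finset.univ.filter fun p => c p = a).card : ℤ) - 1) := by
  obtain ⟨n, N, h1, h2, h3, h4⟩ := antistar_count S Y f hf hx hnb ht c h
  obtain ⟨n₀, N₀, h1', h2', h3', h4'⟩ := antistar_count S Y f hf hx hnb ht id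
    (antistar_sat_of_injective S Y f hf hx hnb ht id Function.injective_id)
  exact ⟨_, laws_of_count S c _ n n₀ N N₀ h1 h1' h2 h2' h3 h3' h4 h4'⟩

end

/-- The relation of the antistar. -/
theorem real_antistar {V E I : Type} {H : Graph V E} {t : V → I} [Finite V] [Finite E]
    (ht : H.Equitable t) (hH : H.Connected)
    (S : Setup H t (Fin 3)) (h0 : Good H t S.x (S.dc 0)) (h2 : Good H t S.x (S.dc 2)) :
    ∃ R, Real S (Fin 3) (fun _ => false) R ∧ (∀ c, Function.Injective c → R c) ∧
      ∃ a, ∀ c, R c → Function.Injective c ∨ ∀ p, c p = a := by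
  classical
  have := Fintype.ofFinite V
  have : Nonempty E := ⟨S.ec 0⟩
  obtain ⟨Y⟩ := exists_univ H t ht
  obtain ⟨f, hf, hx, hnb⟩ := Y.mode S.x S.x (Mode.refl H t S.x)
  have hnb' : ∀ s : H.Dart, s.src = S.x → f.fd (Y.r S.x) (Y.nb s) = s :=
    fun s hs => hnb ⟨s, hs⟩
  obtain ⟨a, ha⟩ := Laws.main S hH h0 h2
  refine ⟨_, ⟨inferInstance, (antistar S Y f hf hx hnb').gadget, fun c => Iff.rfl⟩,
    fun c hc => antistar_sat_of_injective S Y f hf hx hnb' ht c hc, a, fun c hc => ?_⟩
  obtain ⟨m, hm⟩ := antistar_laws S Y f hf hx hnb' ht c hc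
  rcases ha m _ hm with h | ⟨h, -⟩
  · left
    intro p p' hp
    have h1 := h (c p)
    have h3 : (Finset.univ.filter fun q => c q = c p).card = 1 := by
      have : ((Finset.univ.filter fun q => c q = c p).card : ℤ) = 1 := by linarith
      exact_mod_cast this
    obtain ⟨q, hq⟩ := Finset.card_eq_one.1 h3
    have h4 : p ∈ ({q} : Finset (Fin 3)) := hq ▸ by simp
    have h5 : p' ∈ ({q} : Finset (Fin 3)) := hq ▸ by simp [hp]
    rw [Finset.mem_singleton] at h4 h5
    rw [h4, h5]
  · right
    have h3 : (Finset.univ.filter fun q => c q = a).card = 3 := by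
      have : ((Finset.univ.filter fun q => c q = a).card : ℤ) = 3 := by linarith
      exact_mod_cast this
    have h4 : (Finset.univ.filter fun q => c q = a) = Finset.univ :=
      Finset.eq_univ_of_card _ (by rw [h3]; rfl)
    intro p
    have : p ∈ Finset.univ.filter fun q => c q = a := by
      rw [h4]
      exact Finset.mem_univ p
    simpa using this

end Graph

end Pool.Agent.Lib.MP_9c5086_lc
end

section

/-!
Two good darts yield the basic relations.
-/

namespace Pool.Agent.Lib.MP_9c5086_lc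

namespace Graph

variable {V E I : Type} {H : Graph V E} {t : V → I}

/-- Two good darts and a third one. -/
theorem outcome_of_good [Finite V] [Finite E] (ht : H.Equitable t) (hH : H.Connected)
    (x : V) (j : I) (d : Fin 3 → H.Dart) (hd : ∀ a, (d a).src = x ∧ t (d a).tgt = j)
    (hinj : ∀ a b, (d a).edge = (d b).edge → a = b) (h0 : Good H t x (d 0))
    (h2 : Good H t x (d 2)) : Outcome H t := by
  left
  refine ⟨⟨x, j, d, fun a => (hd a).1, fun a => (hd a).2, hinj⟩, ?_⟩
  exact real_antistar ht hH _ h0 h2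

end Graph

end Pool.Agent.Lib.MP_9c5086_lc
end
end
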