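import Pool.Agent.Lib.MP_9c5086_lc.Glue
import Pool.Agent.Lib.MP_9c5086_lc.LeafDefs
import Pool.Agent.Lib.MP_9c5086_lc.ClosedWalk
import Pool.Agent.Lib.MP_9c5086_lc.OutGood
import Pool.Agent.Lib.MP_9c5086_lc.FewBad

section

section

/-!
The possible classes with few edges.
-/

namespace Pool.Agent.Lib.MP_9c5086_lc

namespace Graph

variable {V E I : Type}

/-- A class with at least three darts leading to the own block has three edges, or consists of a
loop and an ordinary edge, or consists of loops and semi-edges. -/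
theorem class_cases [Finite E] (H : Graph V E) (t : V → I) (x : V)
    (h3 : 3 ≤ H.classSize t x (t x)) :
    (∃ d : Fin 3 → H.Dart, (∀ a, (d a).src = x ∧ t (d a).tgt = t x) ∧
      ∀ a b, (d a).edge = (d b).edge → a = b) ∨
    (∃ l o : H.Dart, l.src = x ∧ l.tgt = x ∧ H.b l.edge ≠ none ∧ o.src = x ∧ t o.tgt = t x ∧
      o.tgt ≠ x ∧ H.classSize t x (t x) = 3) ∨
    ((∀ d : H.Dart, d.src = x → t d.tgt = t x → d.tgt = x) ∧
      {e : E | ∃ d : H.Dart, d.edge = e ∧ d.src = x ∧ t d.tgt = t x}.ncard ≤ 2) := by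
  classical
  set EE : Set E := {e : E | ∃ d : H.Dart, d.edge = e ∧ d.src = x ∧ t d.tgt = t x} with hEE
  by_cases hE : 2 < EE.ncard
  · left
    rw [Set.two_lt_ncard_iff (Set.toFinite _)] at hE
    obtain ⟨e1, e2, e3, ⟨d1, h11, h12⟩, ⟨d2, h21, h22⟩, ⟨d3, h31, h32⟩, n12, n13, n23⟩ := hE
    subst h11 h21 h31
    refine ⟨![d1, d2, d3], ?_, ?_⟩
    · intro a
      fin_cases a
      · exact h12
      · exact h22
      · exact h32
    · intro a b hab
      fin_cases a <;> fin_cases b <;> simp at hab ⊢ <;>
        first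
        | exact n12 hab
        | exact n13 hab
        | exact n23 hab
        | exact n12 hab.symm
        | exact n13 hab.symm
        | exact n23 hab.symm
  · right
    have hE2 : EE.ncard ≤ 2 := not_lt.mp hE
    by_cases hall : ∀ d : H.Dart, d.src = x → t d.tgt = t x → d.tgt = x
    · exact Or.inr ⟨hall, hE2⟩
    · left
      push Not at hall
      obtain ⟨o, ho1, ho2, ho3⟩ := hall
      -- no three edges
      have h3e : ∀ d d' d'' : H.Dart, d.src = x → t d.tgt = t x → d'.src = x → t d'.tgt = t x →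
          d''.src = x → t d''.tgt = t x → d.edge ≠ d'.edge → d.edge ≠ d''.edge →
          d'.edge ≠ d''.edge → False := by
        intro d d' d'' a1 a2 b1 b2 c1 c2 n1 n2 n3
        apply hE
        rw [Set.two_lt_ncard_iff (Set.toFinite _)]
        exact ⟨_, _, _, ⟨d, rfl, a1, a2⟩, ⟨d', rfl, b1, b2⟩, ⟨d'', rfl, c1, c2⟩, n1, n2, n3⟩
      have ho : ∀ d : H.Dart, d.src = x → d.edge = o.edge → d = o := by
        intro d hd he
        rcases Dart.eq_or_inv he.symm with h | h
        · exact h
        · rw [h, Dart.src_inv] at hd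
          exact absurd hd ho3
      unfold classSize at h3
      have h2 : 2 < {d : H.Dart | d.src = x ∧ t d.tgt = t x}.ncard := h3
      rw [Set.two_lt_ncard_iff (Set.toFinite _)] at h2
      obtain ⟨a, b, c, ha, hb, hc, nab, nac, nbc⟩ := h2
      obtain ⟨l, l', hl, hl', hll, hlo, hlo'⟩ : ∃ l l' : H.Dart, (l.src = x ∧ t l.tgt = t x) ∧
          (l'.src = x ∧ t l'.tgt = t x) ∧ l ≠ l' ∧ l ≠ o ∧ l' ≠ o := by
        by_cases e1 : a = o
        · exact ⟨b, c, hb, hc, nbc, fun h => nab (e1.trans h.symm), fun h => nac (e1.trans h.symm)⟩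
        · by_cases e2 : b = o
          · exact ⟨a, c, ha, hc, nac, e1, fun h => nbc (e2.trans h.symm)⟩
          · exact ⟨a, b, ha, hb, nab, e1, e2⟩
      have m1 : l.edge ≠ o.edge := fun h => hlo (ho l hl.1 h)
      have m2 : l'.edge ≠ o.edge := fun h => hlo' (ho l' hl'.1 h)
      have m3 : l.edge = l'.edge := by
        by_contra hne
        exact h3e l l' o hl.1 hl.2 hl'.1 hl'.2 ho1 ho2 hne m1 m2
      have m4 : l' = l.inv := by
        rcases Dart.eq_or_inv m3 with h | h
        · exact absurd h.symm hll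
        · exact h
      have m5 : l.tgt = x := by
        rw [← Dart.src_inv, ← m4]
        exact hl'.1
      refine ⟨l, o, hl.1, m5, ?_, ho1, ho2, ho3, ?_⟩
      · intro h
        rw [← Dart.inv_eq_self_iff] at h
        exact hll (m4.trans h).symm
      · unfold classSize
        apply le_antisymm _ h3
        have hsub : {d : H.Dart | d.src = x ∧ t d.tgt = t x} ⊆ ({o, l, l.inv} : Finset H.Dart) := by
          rintro d ⟨hd1, hd2⟩
          simp only [Finset.coe_insert, Finset.coe_singleton, Set.mem_insert_iff,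
            Set.mem_singleton_iff]
          by_cases e1 : d.edge = o.edge
          · exact Or.inl (ho d hd1 e1)
          · by_cases e2 : l.edge = d.edge
            · exact Or.inr (Dart.eq_or_inv e2)
            · exact (h3e l d o hl.1 hl.2 hd1 hd2 ho1 ho2 e2 m1 e1).elim
        calc {d : H.Dart | d.src = x ∧ t d.tgt = t x}.ncard
            ≤ (({o, l, l.inv} : Finset H.Dart) : Set H.Dart).ncard :=
              Set.ncard_le_ncard hsub (Finset.finite_toSet _)
          _ = ({o, l, l.inv} : Finset H.Dart).card := Set.ncard_coe_finset _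
          _ ≤ 3 := Finset.card_le_three

end Graph

end Pool.Agent.Lib.MP_9c5086_lc
end

section

/-!
The two solutions of the leaf gadget.
-/

namespace Pool.Agent.Lib.MP_9c5086_lc

namespace Graph

variable {V E I : Type} {H : Graph V E} {t : V → I} {S : Setup H t Bool} {Y : Univ H t}
  {f : DCover Y.G H} (W : LeafWalks S Y f) (hL : IsLeaf S) (hf : ∀ n, t (f.fv n) = Y.τ n)
  (hx : f.fv (Y.r S.x) = S.x) (hnb : ∀ s : H.Dart, s.src = S.x → f.fd (Y.r S.x) (Y.nb s) = s)

/-- the branch `k` follows the closed walk -/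
private def lsF (b : Bool) (k : Fin 3) : Bool := ![b, b, !b] k

/-- the vertex follows its model vertex -/
private def lsG (b : Bool) : Option (Σ k : Fin 3, Fin (W.m k)) → Bool
  | none => b
  | some u => lsF b u.1

private def lsFv (b : Bool) : Option (Σ k : Fin 3, Fin (W.m k)) → V
  | none => if b then (S.dc true).tgt else S.x
  | some u => if lsF b u.1 then f.fv (W.g u.1 u.2.1) else S.x

/-- the forward dart in a branch which does not follow -/
private def lsD (S : Setup H t Bool) (k : Fin 3) : H.Dart :=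
  ![S.dc false, (S.dc false).inv, S.dc false] k

private def lsE : Option (Σ k : Fin 3, Fin (W.m k)) → Option (Σ k : Fin 3, Fin (W.m k)) → H.Dart
  | none, none => S.dc true
  | none, some u => ![S.dc false, (S.dc false).inv, S.dc true] u.1
  | some u, none => ![(S.dc false).inv, S.dc false, S.dc true] u.1
  | some u, some u' => if u'.2.1 = u.2.1 + 1 then lsD S u.1 else (lsD S u.1).inv

private def lsδ (b : Bool) (u u' : Option (Σ k : Fin 3, Fin (W.m k))) : H.Dart :=
  if lsG W b u then W.slot u u' else lsE W u u'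

private def lsε (S : Setup H t Bool) (b : Bool) (k : Fin 3) : H.Dart :=
  if lsF b k then (S.dc true).inv else lsD S k

private theorem ls_src_o : (S.dc true).src = S.x := S.src_dc true

private theorem ls_src_l : (S.dc false).src = S.x := S.src_dc false

include hnb in
private theorem ls_o : f.fd (Y.nb (S.dc true)) (Y.r S.x) = (S.dc true).inv := by
  have h1 := Y.adj_nb (S.dc true)
  rw [ls_src_o] at h1
  rw [f.inv_fd h1, hnb _ ls_src_o]

include hnb in
private theorem ls_fv_nb : f.fv (Y.nb (S.dc true)) = (S.dc true).tgt := by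
  have h1 := Y.adj_nb (S.dc true)
  rw [ls_src_o] at h1
  rw [← f.tgt_fd h1, hnb _ ls_src_o]

private theorem ls_adj_nxt (k : Fin 3) : Y.G.Adj (Y.nb (S.dc true)) (W.nxt k) := by
  fin_cases k
  · have := W.adj true 0 (by have := W.two_le true; omega)
    rw [W.zero] at this
    exact this
  · have := W.adj false 0 (by have := W.two_le false; omega)
    rw [W.zero] at this
    exact this
  · have h1 := Y.adj_nb (S.dc true)
    rw [ls_src_o] at h1
    exact h1.symm

private theorem ls_adj_g (k : Fin 3) (r : ℕ) (h : r + 1 < W.m k) :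
    Y.G.Adj (W.g k r) (W.g k (r + 1)) := by
  fin_cases k
  · exact W.adj true (r + 1) h
  · exact W.adj false (r + 1) h
  · exact W.adj true r (by
      have : r + 1 < W.L true + 1 := h
      omega)

/-- the slot of the dart from the first vertex of a branch to the centre -/
private theorem ls_slot_inv (k : Fin 3) :
    f.fd (W.g k 0) (W.prv k) = (f.fd (Y.nb (S.dc true)) (W.nxt k)).inv ∨ k = 2 := by
  fin_cases k
  · left; exact f.inv_fd (ls_adj_nxt W 0)
  · left; exact f.inv_fd (ls_adj_nxt W 1)
  · right; rfl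

private theorem ls_g_two : W.g 2 0 = Y.nb (S.dc true) := W.zero true

private theorem ls_g_last (k : Fin 3) : W.g k (W.m k - 1) = Y.nb (S.dc true) := by
  fin_cases k
  · have h := W.last true
    have h2 := W.two_le true
    show W.w true (W.L true - 1 + 1) = _
    rw [Nat.sub_add_cancel (by omega)]
    exact h
  · have h := W.last false
    have h2 := W.two_le false
    show W.w false (W.L false - 1 + 1) = _
    rw [Nat.sub_add_cancel (by omega)]
    exact h
  · have h := W.last true
    show W.w true (W.L true + 1 - 1) = _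
    rw [Nat.add_sub_cancel]
    exact h

private theorem ls_block (k : Fin 3) (r : ℕ) (h : r < W.m k) : Y.τ (W.g k r) = t S.x := by
  fin_cases k
  · exact W.block true (r + 1) h
  · exact W.block false (r + 1) h
  · exact W.block true r (by
      have : r < W.L true + 1 := h
      omega)

private theorem ls_slot (u u' : Option (Σ k : Fin 3, Fin (W.m k))) :
    (W.proto hL hf hx hnb).slot u u' = W.slot u u' := rfl

include hL in
private theorem ls_l_ne : (S.dc false).inv ≠ S.dc false := fun e =>
  hL.loop' ((Dart.inv_eq_self_iff _).1 e)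

private theorem ls_edge_ne : (S.dc true).edge ≠ (S.dc false).edge := fun e => by
  have := S.inj_dc _ _ e
  simp at this

private theorem ls_o_ne_l : S.dc true ≠ S.dc false := fun e => ls_edge_ne (S := S) (by rw [e])

private theorem ls_o_ne_l' : S.dc true ≠ (S.dc false).inv := fun e =>
  ls_edge_ne (S := S) (by rw [e, Dart.edge_inv])

include hL in
private theorem ls_D_ne (k : Fin 3) : (lsD S k).inv ≠ lsD S k := by
  have h := ls_l_ne hL
  fin_cases k
  · exact h
  · show (S.dc false).inv.inv ≠ (S.dc false).inv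
    rw [Dart.inv_inv]
    exact h.symm
  · exact h

include hL in
private theorem ls_D_ne' (k : Fin 3) :
    (![(S.dc false).inv, S.dc false, S.dc true] : Fin 3 → H.Dart) k ≠ lsD S k := by
  have h := ls_l_ne hL
  fin_cases k
  · exact h
  · exact h.symm
  · exact ls_o_ne_l

private theorem ls_D_edge (k : Fin 3) : (lsD S k).edge = S.ec false := by
  fin_cases k
  · rfl
  · exact Dart.edge_inv _
  · rfl

include hL in
private theorem ls_D_src (k : Fin 3) : (lsD S k).src = S.x := by
  fin_cases k
  · exact ls_src_l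
  · show (S.dc false).inv.src = S.x
    rw [Dart.src_inv, hL.loop]
  · exact ls_src_l

include hL in
private theorem ls_D_tgt (k : Fin 3) : (lsD S k).tgt = S.x := by
  fin_cases k
  · exact hL.loop
  · show (S.dc false).inv.tgt = S.x
    rw [Dart.tgt_inv, ls_src_l]
  · exact hL.loop

private theorem ls_adj_prv (k : Fin 3) : Y.G.Adj (W.g k 0) (W.prv k) := by
  fin_cases k
  · exact (ls_adj_nxt W 0).symm
  · exact (ls_adj_nxt W 1).symm
  · have h := ls_adj_nxt W 2
    show Y.G.Adj (W.w true 0) (Y.r S.x)
    rw [W.zero]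
    exact h

private theorem ls_adj_some {k : Fin 3} {r r' : Fin (W.m k)}
    (h : r.1 + 1 = r'.1 ∨ r'.1 + 1 = r.1) : Y.G.Adj (W.g k r.1) (W.g k r'.1) := by
  rcases h with h | h
  · rw [← h]
    exact ls_adj_g W k r.1 (by rw [h]; exact r'.2)
  · rw [← h]
    exact (ls_adj_g W k r'.1 (by rw [h]; exact r.2)).symm

/-- The two solutions of the leaf gadget. -/
theorem leaf_sol [Finite V] [Finite E] (b : Bool) :
    ∃ fv fe, (W.proto hL hf hx hnb).Sol (![b, b, !b]) fv fe := by
  have hinj := (W.proto hL hf hx hnb).inj_slot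
  have hdis := (W.proto hL hf hx hnb).disj
  refine ⟨lsFv W b, _, Proto.Sol.of_darts (W.proto hL hf hx hnb) _ (lsFv W b) (lsδ W b) (lsε S b)
    ?_ ?_ ?_ ?_ ?_ ?_ ?_ ?_ ?_ ?_ ?_ ?_⟩
  · -- sources
    rintro (_ | ⟨k, r⟩) (_ | ⟨k', r'⟩) h
    · exact h.elim
    · cases b
      · show ((![S.dc false, (S.dc false).inv, S.dc true] : Fin 3 → H.Dart) k').src = S.x
        fin_cases k'
        · exact ls_src_l
        · show (S.dc false).inv.src = S.x
          rw [Dart.src_inv, hL.loop]
        · exact ls_src_o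
      · show (f.fd (Y.nb (S.dc true)) (W.nxt k')).src = (S.dc true).tgt
        rw [f.src_fd (ls_adj_nxt W k'), ls_fv_nb hnb]
    · have h0 : r.1 = 0 := h
      show (if lsF b k then f.fd (W.g k 0) (W.prv k) else
        (![(S.dc false).inv, S.dc false, S.dc true] : Fin 3 → H.Dart) k).src =
        if lsF b k then f.fv (W.g k r.1) else S.x
      rw [h0]
      split_ifs with hk
      · exact f.src_fd (ls_adj_prv W k)
      · fin_cases k
        · show (S.dc false).inv.src = S.x
          rw [Dart.src_inv, hL.loop]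
        · exact ls_src_l
        · exact ls_src_o
    · obtain ⟨h1, h2⟩ := h
      obtain rfl : k = k' := h1
      show (if lsF b k then f.fd (W.g k r.1) (W.g k r'.1) else
        if r'.1 = r.1 + 1 then lsD S k else (lsD S k).inv).src =
        if lsF b k then f.fv (W.g k r.1) else S.x
      split_ifs with hk h3
      · exact f.src_fd (ls_adj_some W h2)
      · exact ls_D_src hL k
      · rw [Dart.src_inv]; exact ls_D_tgt hL k
  · -- inverse darts
    rintro (_ | ⟨k, r⟩) (_ | ⟨k', r'⟩) h
    · exact h.elim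
    · have e : ∀ (b : Bool) (k : Fin 3), (if lsF b k then f.fd (W.g k 0) (W.prv k) else
          (![(S.dc false).inv, S.dc false, S.dc true] : Fin 3 → H.Dart) k) =
          (if b then f.fd (Y.nb (S.dc true)) (W.nxt k) else
          (![S.dc false, (S.dc false).inv, S.dc true] : Fin 3 → H.Dart) k).inv := by
        intro b k
        cases b <;> fin_cases k
        · rfl
        · exact (Dart.inv_inv _).symm
        · show f.fd (W.w true 0) (Y.r S.x) = (S.dc true).inv
          rw [W.zero, ls_o hnb]
        · exact f.inv_fd (ls_adj_nxt W 0)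
        · exact f.inv_fd (ls_adj_nxt W 1)
        · show S.dc true = (f.fd (Y.nb (S.dc true)) (Y.r S.x)).inv
          rw [ls_o hnb, Dart.inv_inv]
      exact e b k'
    · have e : ∀ (b : Bool) (k : Fin 3), (if b then f.fd (Y.nb (S.dc true)) (W.nxt k) else
          (![S.dc false, (S.dc false).inv, S.dc true] : Fin 3 → H.Dart) k) =
          (if lsF b k then f.fd (W.g k 0) (W.prv k) else
          (![(S.dc false).inv, S.dc false, S.dc true] : Fin 3 → H.Dart) k).inv := by
        intro b k
        cases b <;> fin_cases k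
        · exact (Dart.inv_inv _).symm
        · rfl
        · show S.dc true = (f.fd (W.w true 0) (Y.r S.x)).inv
          rw [W.zero, ls_o hnb, Dart.inv_inv]
        · show f.fd (Y.nb (S.dc true)) (W.nxt 0) = (f.fd (W.nxt 0) (Y.nb (S.dc true))).inv
          rw [f.inv_fd (ls_adj_nxt W 0), Dart.inv_inv]
        · show f.fd (Y.nb (S.dc true)) (W.nxt 1) = (f.fd (W.nxt 1) (Y.nb (S.dc true))).inv
          rw [f.inv_fd (ls_adj_nxt W 1), Dart.inv_inv]
        · show f.fd (Y.nb (S.dc true)) (Y.r S.x) = (S.dc true).inv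
          rw [ls_o hnb]
      exact e b k
    · obtain ⟨h1, h2⟩ := h
      obtain rfl : k = k' := h1
      show (if lsF b k then f.fd (W.g k r'.1) (W.g k r.1) else
        if r.1 = r'.1 + 1 then lsD S k else (lsD S k).inv) =
        (if lsF b k then f.fd (W.g k r.1) (W.g k r'.1) else
        if r'.1 = r.1 + 1 then lsD S k else (lsD S k).inv).inv
      have h2' : r.1 + 1 = r'.1 ∨ r'.1 + 1 = r.1 := h2
      by_cases hk : lsF b k = true
      · rw [if_pos hk, if_pos hk]
        exact f.inv_fd (ls_adj_some W h2)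
      · rw [if_neg hk, if_neg hk]
        rcases h2' with h3 | h3
        · rw [if_neg (by omega), if_pos (by omega)]
        · rw [if_pos (by omega), if_neg (by omega), Dart.inv_inv]
  · -- injectivity
    intro u u' u'' h h' heq
    by_cases hu : lsG W b u = true
    · refine hinj u u' u'' h h' ?_
      have : (if lsG W b u then W.slot u u' else lsE W u u') =
        (if lsG W b u then W.slot u u'' else lsE W u u'') := heq
      rw [if_pos hu, if_pos hu] at this
      exact this
    · have heq' : lsE W u u' = lsE W u u'' := by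
        have : (if lsG W b u then W.slot u u' else lsE W u u') =
          (if lsG W b u then W.slot u u'' else lsE W u u'') := heq
        rwa [if_neg hu, if_neg hu] at this
      rcases u with _ | ⟨k, r⟩ <;> rcases u' with _ | ⟨k', r'⟩ <;> rcases u'' with _ | ⟨k'', r''⟩
      · exact h.elim
      · exact h.elim
      · exact h'.elim
      · have h0 : r'.1 = 0 := h
        have h0' : r''.1 = 0 := h'
        have e : (![S.dc false, (S.dc false).inv, S.dc true] : Fin 3 → H.Dart) k' =
          (![S.dc false, (S.dc false).inv, S.dc true] : Fin 3 → H.Dart) k'' := heq'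
        have hkk : k' = k'' := by
          have n1 := ls_l_ne hL
          have n2 := ls_o_ne_l (S := S)
          have n3 := ls_o_ne_l' (S := S)
          fin_cases k' <;> fin_cases k''
          · rfl
          · exact absurd e.symm n1
          · exact absurd e.symm n2
          · exact absurd e n1
          · rfl
          · exact absurd e.symm n3
          · exact absurd e n2
          · exact absurd e n3
          · rfl
        subst hkk
        have : r' = r'' := Fin.ext (h0.trans h0'.symm)
        rw [this]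
      · rfl
      · obtain ⟨h1, h2⟩ := h'
        obtain rfl : k = k'' := h1
        have h0 : r.1 = 0 := h
        exfalso
        have h2' : r.1 + 1 = r''.1 ∨ r''.1 + 1 = r.1 := h2
        have e : (![(S.dc false).inv, S.dc false, S.dc true] : Fin 3 → H.Dart) k =
          if r''.1 = r.1 + 1 then lsD S k else (lsD S k).inv := heq'
        rw [if_pos (by omega)] at e
        exact ls_D_ne' hL k e
      · obtain ⟨h1, h2⟩ := h
        obtain rfl : k = k' := h1
        have h0 : r.1 = 0 := h'
        exfalso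
        have h2' : r.1 + 1 = r'.1 ∨ r'.1 + 1 = r.1 := h2
        have e : (if r'.1 = r.1 + 1 then lsD S k else (lsD S k).inv) =
          (![(S.dc false).inv, S.dc false, S.dc true] : Fin 3 → H.Dart) k := heq'
        rw [if_pos (by omega)] at e
        exact ls_D_ne' hL k e.symm
      · obtain ⟨h1, h2⟩ := h
        obtain rfl : k = k' := h1
        obtain ⟨h3, h4⟩ := h'
        obtain rfl : k = k'' := h3
        have h2' : r.1 + 1 = r'.1 ∨ r'.1 + 1 = r.1 := h2
        have h4' : r.1 + 1 = r''.1 ∨ r''.1 + 1 = r.1 := h4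
        have e : (if r'.1 = r.1 + 1 then lsD S k else (lsD S k).inv) =
          (if r''.1 = r.1 + 1 then lsD S k else (lsD S k).inv) := heq'
        have hrr : r' = r'' := by
          rcases h2' with h5 | h5 <;> rcases h4' with h6 | h6
          · exact Fin.ext (by omega)
          · rw [if_pos (by omega), if_neg (by omega)] at e
            exact absurd e.symm (ls_D_ne hL k)
          · rw [if_neg (by omega), if_pos (by omega)] at e
            exact absurd e (ls_D_ne hL k)
          · exact Fin.ext (by omega)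
        rw [hrr]
  · -- sources of the ports
    intro k
    show (if lsF b k then (S.dc true).inv else lsD S k).src =
      if lsF b k then f.fv (W.g k (W.m k - 1)) else S.x
    split_ifs with hk
    · rw [Dart.src_inv, ls_g_last, ls_fv_nb hnb]
    · exact ls_D_src hL k
  · -- edges of the ports
    intro k
    show (if lsF b k then (S.dc true).inv else lsD S k).edge = S.ec (lsF b k)
    by_cases hk : lsF b k = true
    · rw [if_pos hk, hk, Dart.edge_inv]
      rfl
    · rw [if_neg hk]
      have hk' : lsF b k = false := by simpa using hk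
      rw [hk', ls_D_edge]
  · -- injectivity of the ports
    intro k k' h _
    have h1 : (some ⟨k, ⟨W.m k - 1, Nat.sub_lt (W.m_pos k) Nat.one_pos⟩⟩ :
        Option (Σ k : Fin 3, Fin (W.m k))) =
        some ⟨k', ⟨W.m k' - 1, Nat.sub_lt (W.m_pos k') Nat.one_pos⟩⟩ := h
    have h2 := Option.some.inj h1
    exact congrArg Sigma.fst h2
  · -- ports and darts
    intro k u h heq
    by_cases hk : lsF b k = true
    · refine hdis k u h ?_
      have e : (if lsF b k then W.slot ((W.proto hL hf hx hnb).pu k) u else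
        lsE W ((W.proto hL hf hx hnb).pu k) u) =
        (if lsF b k then (S.dc true).inv else lsD S k) := heq
      rw [if_pos hk, if_pos hk] at e
      exact e
    · have e : (if lsF b k then W.slot ((W.proto hL hf hx hnb).pu k) u else
        lsE W ((W.proto hL hf hx hnb).pu k) u) =
        (if lsF b k then (S.dc true).inv else lsD S k) := heq
      rw [if_neg hk, if_neg hk] at e
      rcases u with _ | ⟨k', r'⟩
      · exact ls_D_ne' hL k e
      · obtain ⟨h1, h2⟩ := h
        obtain rfl : k = k' := h1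
        have e' : (if r'.1 = W.m k - 1 + 1 then lsD S k else (lsD S k).inv) = lsD S k := e
        rw [if_neg (by have := r'.2; omega)] at e'
        exact ls_D_ne hL k e'
  · -- types
    rintro (_ | ⟨k, r⟩)
    · show t (if b then (S.dc true).tgt else S.x) = t (S.dc true).tgt
      split_ifs
      · rfl
      · rw [S.ty_dc, hL.j]
    · show t (if lsF b k then f.fv (W.g k r.1) else S.x) = t (f.fv (W.g k r.1))
      split_ifs
      · rfl
      · rw [hf, ls_block W k r.1 r.2]
  · -- negative ports
    intro k _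
    show (if lsF b k then (S.dc true).inv else lsD S k).tgt = S.x
    split_ifs
    · rw [Dart.tgt_inv, ls_src_o]
    · exact ls_D_tgt hL k
  · -- lists of the vertices
    rintro (_ | ⟨k, r⟩)
    · show (if b then (S.dc true).tgt else S.x) ∈ ({(S.dc true).tgt, S.x} : Set V)
      split_ifs <;> simp
    · show (if lsF b k then f.fv (W.g k r.1) else S.x) ∈ ({f.fv (W.g k r.1), S.x} : Set V)
      split_ifs <;> simp
  · -- lists of the edges
    rintro (_ | ⟨k, r⟩) (_ | ⟨k', r'⟩) h
    · exact h.elim
    · show (if b then f.fd (Y.nb (S.dc true)) (W.nxt k') else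
          (![S.dc false, (S.dc false).inv, S.dc true] : Fin 3 → H.Dart) k').edge ∈
          (if k' = 2 then {S.ec true} else
            {(f.fd (Y.nb (S.dc true)) (W.nxt k')).edge, S.ec false} : Set E)
      by_cases h2 : k' = 2
      · rw [if_pos h2]
        subst h2
        cases b
        · rfl
        · show (f.fd (Y.nb (S.dc true)) (Y.r S.x)).edge ∈ ({S.ec true} : Set E)
          rw [ls_o hnb, Dart.edge_inv]
          rfl
      · rw [if_neg h2]
        cases b
        · right
          fin_cases k'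
          · rfl
          · exact Dart.edge_inv _
          · exact absurd rfl h2
        · left; rfl
    · show (if lsF b k then f.fd (W.g k 0) (W.prv k) else
          (![(S.dc false).inv, S.dc false, S.dc true] : Fin 3 → H.Dart) k).edge ∈
          (if k = 2 then {S.ec true} else
            {(f.fd (Y.nb (S.dc true)) (W.nxt k)).edge, S.ec false} : Set E)
      by_cases h2 : k = 2
      · rw [if_pos h2]
        subst h2
        cases b
        · show (f.fd (W.w true 0) (Y.r S.x)).edge ∈ ({S.ec true} : Set E)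
          rw [W.zero, ls_o hnb, Dart.edge_inv]
          rfl
        · rfl
      · rw [if_neg h2]
        by_cases h1 : lsF b k = true
        · rw [if_pos h1]
          left
          rcases ls_slot_inv W k with h3 | h3
          · rw [h3, Dart.edge_inv]
          · exact absurd h3 h2
        · rw [if_neg h1]
          right
          fin_cases k
          · exact Dart.edge_inv _
          · rfl
          · exact absurd rfl h2
    · obtain ⟨h1, h2⟩ := h
      obtain rfl : k = k' := h1
      show (if lsF b k then f.fd (W.g k r.1) (W.g k r'.1) else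
        if r'.1 = r.1 + 1 then lsD S k else (lsD S k).inv).edge ∈
        ({(f.fd (W.g k r.1) (W.g k r'.1)).edge, S.ec false} : Set E)
      split_ifs
      · left; rfl
      · right; exact ls_D_edge k
      · right; rw [Dart.edge_inv]; exact ls_D_edge k
  · intro k
    trivial

end Graph

end Pool.Agent.Lib.MP_9c5086_lc
end
end

section

section

/-!
The positive relation at a leaf.
-/

namespace Pool.Agent.Lib.MP_9c5086_lc

namespace Graph

variable {V E I : Type} {H : Graph V E} {t : V → I} {S : Setup H t Bool}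

private def l3ps (S : Setup H t Bool) : Fin 3 → H.Dart :=
  ![S.dc true, S.dc false, (S.dc false).inv]

private theorem l3_ne1 (h : IsLeaf S) : (S.dc false).inv ≠ S.dc false := fun hh =>
  h.loop' ((Dart.inv_eq_self_iff _).1 hh)

private theorem l3_edge (S : Setup H t Bool) : (S.dc true).edge ≠ (S.dc false).edge := fun hh => by
  have := S.inj_dc _ _ hh
  simp at this

private theorem l3_ne2 (S : Setup H t Bool) : S.dc true ≠ S.dc false := fun hh =>
  l3_edge S (by rw [hh])

private theorem l3_ne3 (S : Setup H t Bool) : S.dc true ≠ (S.dc false).inv := fun hh =>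
  l3_edge S (by rw [hh, Dart.edge_inv])

private theorem l3_src (h : IsLeaf S) (p : Fin 3) : (l3ps S p).src = S.x := by
  fin_cases p
  · exact S.src_dc true
  · exact S.src_dc false
  · show (S.dc false).inv.src = S.x
    rw [Dart.src_inv, h.loop]

private theorem l3_ty (h : IsLeaf S) (p : Fin 3) : t (l3ps S p).tgt = S.j := by
  fin_cases p
  · exact S.ty_dc true
  · exact S.ty_dc false
  · show t (S.dc false).inv.tgt = S.j
    rw [Dart.tgt_inv, S.src_dc, h.j]

private theorem l3_inj3 {a b c : H.Dart} (h1 : a ≠ b) (h2 : a ≠ c) (h3 : b ≠ c) :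
    Function.Injective (![a, b, c] : Fin 3 → H.Dart) := by
  intro p q hpq
  fin_cases p <;> fin_cases q <;> simp at hpq <;> first | rfl | (exfalso; simp_all)

private theorem l3_mem (S : Setup H t Bool) {s : H.Dart}
    (hs : s ≠ S.dc false ∧ s ≠ (S.dc false).inv ∧ s ≠ S.dc true) (p : Fin 3) : s ≠ l3ps S p := by
  fin_cases p
  · exact hs.2.2
  · exact hs.1
  · exact hs.2.1

private abbrev L3U (S : Setup H t Bool) : Type :=
  Option {s : H.Dart // s.src = S.x ∧ s ≠ S.dc false ∧ s ≠ (S.dc false).inv ∧ s ≠ S.dc true}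

private def l3Adj (S : Setup H t Bool) : L3U S → L3U S → Prop
  | none, some _ => True
  | some _, none => True
  | _, _ => False

private def l3mv (S : Setup H t Bool) : L3U S → V
  | none => S.x
  | some s => s.1.tgt

private def l3slot (S : Setup H t Bool) : L3U S → L3U S → H.Dart
  | none, some s => s.1
  | some s, none => s.1.inv
  | _, _ => S.dc true

private def l3Lv (S : Setup H t Bool) : L3U S → Set V
  | none => {S.x}
  | some _ => Set.univ

private def l3Le (S : Setup H t Bool) : L3U S → L3U S → Set E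
  | none, some s => {s.1.edge}
  | some s, none => {s.1.edge}
  | _, _ => ∅

private def l3proto [Finite E] (h : IsLeaf S) : Proto S (Fin 3) (fun _ => true) where
  U := L3U S
  finU := inferInstance
  T := {
    Adj := l3Adj S
    symm := ⟨by
      rintro (_ | a) (_ | b) hab
      · exact hab
      · trivial
      · trivial
      · exact hab⟩
    loopless := ⟨by
      rintro (_ | a) ha
      · exact ha
      · exact ha⟩ }
  mv := l3mv S
  slot := l3slot S
  pu _ := none
  ps := l3ps S
  Lv := l3Lv S
  Le := l3Le S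
  LP _ := Set.univ
  src_slot := by
    rintro (_ | a) (_ | b) hab
    · exact hab.elim
    · exact b.2.1
    · exact Dart.src_inv _
    · exact hab.elim
  src_ps := l3_src h
  inj_slot := by
    rintro (_ | a) (_ | b) (_ | c) hab hac hh
    · rfl
    · exact hab.elim
    · exact hac.elim
    · have : b = c := Subtype.ext hh
      rw [this]
    · rfl
    · exact hac.elim
    · exact hab.elim
    · exact hab.elim
  inj_ps := by
    intro p p' _ hh
    exact l3_inj3 (l3_ne2 S) (l3_ne3 S) (l3_ne1 h).symm hh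
  disj := by
    rintro p (_ | a) hab
    · exact hab.elim
    · exact l3_mem S a.2.2 p
  ty_slot := by
    rintro (_ | a) (_ | b) hab
    · exact hab.elim
    · rfl
    · show t (a.1.inv).tgt = t S.x
      rw [Dart.tgt_inv, a.2.1]
    · exact hab.elim
  Le_comm := by
    rintro (_ | a) (_ | b) hab
    · exact hab.elim
    · rfl
    · rfl
    · exact hab.elim
  ty_pos p _ := ⟨rfl, l3_ty h p, le_refl _⟩
  ty_neg p hp := by simp at hp
  neg_inj p p' hp := by simp at hp
  neg_pos p p' hp := by simp at hp
  neg_adj p p' hp := by simp at hp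

theorem real_one3 [Finite V] [Finite E] (h : IsLeaf S) :
    Real S (Fin 3) (fun _ => true)
      (fun c => (Finset.univ.filter fun i => c i = true).card = 1) := by
  have : Nonempty E := ⟨(S.dc true).edge⟩
  refine ⟨inferInstance, (l3proto h).gadget, fun c => ?_⟩
  rw [Proto.sat_iff]
  constructor
  · intro hc
    obtain ⟨p0, hp0⟩ := Finset.card_eq_one.1 hc
    have hc0 : ∀ p, c p = true ↔ p = p0 := fun p => by
      have : p ∈ Finset.univ.filter (fun i => c i = true) ↔ p ∈ ({p0} : Finset (Fin 3)) := by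
        rw [hp0]
      simpa using this
    obtain ⟨ε, hε1, hε2, hε3, hε4⟩ : ∃ ε : Fin 3 → H.Dart, (∀ p, (ε p).src = S.x) ∧
        (∀ p, (ε p).edge = S.ec (c p)) ∧ Function.Injective ε ∧
        ∀ p, ∃ q, ε p = l3ps S q := by
      have e1 := l3_src h 0
      have e2 := l3_src h 1
      have e3 := l3_src h 2
      have cf : ∀ p, p ≠ p0 → c p = false := fun p hp => by
        by_contra hh
        exact hp ((hc0 p).1 (by simpa using hh))
      have ct : c p0 = true := (hc0 p0).2 rfl
      fin_cases p0
      · refine ⟨![S.dc true, S.dc false, (S.dc false).inv], l3_src h, ?_,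
          l3_inj3 (l3_ne2 S) (l3_ne3 S) (l3_ne1 h).symm, fun p => ⟨p, rfl⟩⟩
        intro p
        fin_cases p
        · exact congrArg (fun b => (S.dc b).edge) ct.symm
        · exact congrArg (fun b => (S.dc b).edge) (cf 1 (by decide)).symm
        · exact (Dart.edge_inv _).trans (congrArg (fun b => (S.dc b).edge) (cf 2 (by decide)).symm)
      · refine ⟨![S.dc false, S.dc true, (S.dc false).inv], ?_, ?_,
          l3_inj3 (l3_ne2 S).symm (l3_ne1 h).symm (l3_ne3 S), ?_⟩
        · intro p
          fin_cases p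
          · exact e2
          · exact e1
          · exact e3
        · intro p
          fin_cases p
          · exact congrArg (fun b => (S.dc b).edge) (cf 0 (by decide)).symm
          · exact congrArg (fun b => (S.dc b).edge) ct.symm
          · exact (Dart.edge_inv _).trans
              (congrArg (fun b => (S.dc b).edge) (cf 2 (by decide)).symm)
        · intro p
          fin_cases p
          · exact ⟨1, rfl⟩
          · exact ⟨0, rfl⟩
          · exact ⟨2, rfl⟩
      · refine ⟨![S.dc false, (S.dc false).inv, S.dc true], ?_, ?_,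
          l3_inj3 (l3_ne1 h).symm (l3_ne2 S).symm (l3_ne3 S).symm, ?_⟩
        · intro p
          fin_cases p
          · exact e2
          · exact e3
          · exact e1
        · intro p
          fin_cases p
          · exact congrArg (fun b => (S.dc b).edge) (cf 0 (by decide)).symm
          · exact (Dart.edge_inv _).trans
              (congrArg (fun b => (S.dc b).edge) (cf 1 (by decide)).symm)
          · exact congrArg (fun b => (S.dc b).edge) ct.symm
        · intro p
          fin_cases p
          · exact ⟨1, rfl⟩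
          · exact ⟨2, rfl⟩
          · exact ⟨0, rfl⟩
    refine ⟨l3mv S, fun u u' => (l3slot S u u').edge, ?_⟩
    refine Proto.Sol.of_darts (l3proto h) c (l3mv S) (l3slot S) ε (l3proto h).src_slot ?_
      (l3proto h).inj_slot hε1 hε2 (fun p p' _ hh => hε3 hh) ?_ (fun _ => rfl) ?_ ?_ ?_ ?_
    · rintro (_ | a) (_ | b) hab
      · exact hab.elim
      · rfl
      · exact (Dart.inv_inv _).symm
      · exact hab.elim
    · rintro p (_ | a) hab
      · exact hab.elim
      · obtain ⟨q, hq⟩ := hε4 p
        rw [hq]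
        exact l3_mem S a.2.2 q
    · intro p hp
      simp at hp
    · rintro (_ | a)
      · exact rfl
      · exact Set.mem_univ _
    · rintro (_ | a) (_ | b) hab
      · exact hab.elim
      · exact rfl
      · exact Dart.edge_inv _
      · exact hab.elim
    · intro p
      exact Set.mem_univ _
  · rintro ⟨fv, fe, hs⟩
    have hx : fv none = S.x := hs.lv none
    have i1 : H.inc (S.ec true) S.x ≤ 1 := by
      unfold inc
      have : {d : H.Dart | d.edge = S.ec true ∧ d.src = S.x} ⊆ {S.dc true} := by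
        rintro d ⟨h1, h2⟩
        rcases Dart.eq_or_inv (d := S.dc true) (d' := d) h1.symm with h3 | h3
        · exact h3
        · exfalso
          rw [h3, Dart.src_inv] at h2
          exact h.ord h2
      exact (Set.ncard_le_ncard this (Set.toFinite _)).trans (Set.ncard_singleton _).le
    have i2 : H.inc (S.ec false) S.x ≤ 2 := by
      unfold inc
      have : {d : H.Dart | d.edge = S.ec false ∧ d.src = S.x} ⊆
          {S.dc false, (S.dc false).inv} := by
        rintro d ⟨h1, h2⟩
        rcases Dart.eq_or_inv (d := S.dc false) (d' := d) h1.symm with h3 | h3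
        · exact Or.inl h3
        · exact Or.inr h3
      exact (Set.ncard_le_ncard this (Set.toFinite _)).trans (Set.ncard_insert_le _ _ |>.trans
        (by rw [Set.ncard_singleton]))
    have c1 := hs.count none (S.ec true)
    have c2 := hs.count none (S.ec false)
    have hec : ∀ b b', S.ec b = S.ec b' ↔ b = b' := fun b b' => ⟨S.inj_dc b b', fun hh => by rw [hh]⟩
    have e1 : {p | (l3proto h).pu p = none ∧ S.ec (c p) = S.ec true} =
        ((Finset.univ.filter fun i => c i = true : Finset (Fin 3)) : Set (Fin 3)) := by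
      ext p
      simp only [Set.mem_setOf_eq, Finset.coe_filter, Finset.mem_univ, true_and, hec]
      exact ⟨fun hh => hh.2, fun hh => ⟨rfl, hh⟩⟩
    have e2 : {p | (l3proto h).pu p = none ∧ S.ec (c p) = S.ec false} =
        ((Finset.univ.filter fun i => c i = false : Finset (Fin 3)) : Set (Fin 3)) := by
      ext p
      simp only [Set.mem_setOf_eq, Finset.coe_filter, Finset.mem_univ, true_and, hec]
      exact ⟨fun hh => hh.2, fun hh => ⟨rfl, hh⟩⟩
    rw [e1, Set.ncard_coe_finset, hx] at c1
    rw [e2, Set.ncard_coe_finset, hx] at c2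
    have e3 : (Finset.univ.filter fun i => c i = true : Finset (Fin 3)).card +
        (Finset.univ.filter fun i => c i = false : Finset (Fin 3)).card = 3 := by
      have := Finset.card_filter_add_card_filter_not (s := (Finset.univ : Finset (Fin 3)))
        (fun i => c i = true)
      simpa using this
    omega

end Graph

end Pool.Agent.Lib.MP_9c5086_lc
end

section

/-!
There are no other solutions of the leaf gadget.
-/

namespace Pool.Agent.Lib.MP_9c5086_lc

namespace Graph

variable {V E I : Type} {H : Graph V E} {t : V → I} {S : Setup H t Bool} {Y : Univ H t}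
  {f : DCover Y.G H} (W : LeafWalks S Y f) (hL : IsLeaf S) (hf : ∀ n, t (f.fv n) = Y.τ n)
  (hx : f.fv (Y.r S.x) = S.x) (hnb : ∀ s : H.Dart, s.src = S.x → f.fd (Y.r S.x) (Y.nb s) = s)

private theorem lo_joins {e : E} {p q v v' : V} (h : H.Joins e p q) (h' : H.Joins e v v') :
    (v = p ∧ v' = q) ∨ (v = q ∧ v' = p) := by
  rcases h with ⟨h1, h2⟩ | ⟨h1, h2⟩ <;> rcases h' with ⟨h3, h4⟩ | ⟨h3, h4⟩
  · left; exact ⟨h3.trans h1.symm, h4.trans h2.symm⟩
  · right; exact ⟨h4.trans h2.symm, h3.trans h1.symm⟩
  · right; exact ⟨h3.trans h1.symm, h4.trans h2.symm⟩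
  · left; exact ⟨h4.trans h2.symm, h3.trans h1.symm⟩

include hL in
private theorem lo_loop {v v' : V} (h : H.Joins (S.ec false) v v') : v = S.x ∧ v' = S.x := by
  have h1 := (S.dc false).joins
  rw [S.src_dc, hL.loop] at h1
  rcases lo_joins h1 h with h2 | h2 <;> exact h2

private theorem lo_ord {v v' : V} (h : H.Joins (S.ec true) v v') :
    (v = S.x ∧ v' = (S.dc true).tgt) ∨ (v = (S.dc true).tgt ∧ v' = S.x) := by
  have h1 := (S.dc true).joins
  rw [S.src_dc] at h1
  exact lo_joins h1 h

include hnb in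
private theorem lo_fv_nb : f.fv (Y.nb (S.dc true)) = (S.dc true).tgt := by
  have h1 := Y.adj_nb (S.dc true)
  have h2 : (S.dc true).src = S.x := S.src_dc true
  rw [h2] at h1
  rw [← f.tgt_fd h1, hnb _ h2]

private theorem lo_avoid (k : Fin 3) (r : ℕ) (h : r < W.m k) : f.fv (W.g k r) ≠ S.x := by
  fin_cases k
  · exact W.avoid true (r + 1) h
  · exact W.avoid false (r + 1) h
  · exact W.avoid true r (by
      have : r < W.L true + 1 := h
      omega)

private theorem lo_adj_g (k : Fin 3) (r : ℕ) (h : r + 1 < W.m k) :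
    Y.G.Adj (W.g k r) (W.g k (r + 1)) := by
  fin_cases k
  · exact W.adj true (r + 1) h
  · exact W.adj false (r + 1) h
  · exact W.adj true r (by
      have : r + 1 < W.L true + 1 := h
      omega)

private theorem lo_g_last (k : Fin 3) : W.g k (W.m k - 1) = Y.nb (S.dc true) := by
  fin_cases k
  · have h := W.last true
    have h2 := W.two_le true
    show W.w true (W.L true - 1 + 1) = _
    rw [Nat.sub_add_cancel (by omega)]
    exact h
  · have h := W.last false
    have h2 := W.two_le false
    show W.w false (W.L false - 1 + 1) = _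
    rw [Nat.sub_add_cancel (by omega)]
    exact h
  · have h := W.last true
    show W.w true (W.L true + 1 - 1) = _
    rw [Nat.add_sub_cancel]
    exact h

/-- one step along an edge of the graph `Y` avoiding the fibre of `x` -/
private theorem lo_step {n n' : Y.X} {e : E} {v v' : V} (hL : IsLeaf S) (hadj : Y.G.Adj n n')
    (hn : f.fv n ≠ S.x) (hn' : f.fv n' ≠ S.x)
    (he : e ∈ ({(f.fd n n').edge, S.ec false} : Set E)) (hj : H.Joins e v v') :
    (v = f.fv n → v' = f.fv n') ∧ (v = S.x → v' = S.x) := by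
  have h1 := (f.fd n n').joins
  rw [f.src_fd hadj, f.tgt_fd hadj] at h1
  rcases he with he | he
  · rw [he] at hj
    constructor
    · intro hv
      rw [hv] at hj
      exact hj.unique h1
    · intro hv
      exfalso
      rcases lo_joins h1 hj with h2 | h2
      · exact hn (h2.1.symm.trans hv)
      · exact hn' (h2.1.symm.trans hv)
  · have he' : e = S.ec false := he
    rw [he'] at hj
    have h2 := lo_loop hL hj
    constructor
    · intro hv
      exact absurd (hv.symm.trans h2.1) hn
    · intro _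
      exact h2.2

/-- There are no other solutions of the leaf gadget. -/
theorem leaf_only (c : Fin 3 → Bool) (fv : (W.proto hL hf hx hnb).U → V)
    (fe : (W.proto hL hf hx hnb).U → (W.proto hL hf hx hnb).U → E)
    (h : (W.proto hL hf hx hnb).Sol c fv fe) : c 0 = c 1 ∧ c 2 = !c 0 := by
  have hy : (S.dc true).tgt ≠ S.x := hL.ord
  have hcen : fv none = (S.dc true).tgt ∨ fv none = S.x := h.lv none
  -- steps inside a branch
  have hstep : ∀ (k : Fin 3) (r : ℕ) (hr : r + 1 < W.m k),
      (fv (some ⟨k, ⟨r, by omega⟩⟩) = f.fv (W.g k r) →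
        fv (some ⟨k, ⟨r + 1, hr⟩⟩) = f.fv (W.g k (r + 1))) ∧
      (fv (some ⟨k, ⟨r, by omega⟩⟩) = S.x → fv (some ⟨k, ⟨r + 1, hr⟩⟩) = S.x) := by
    intro k r hr
    have hadj : (W.proto hL hf hx hnb).T.Adj (some ⟨k, ⟨r, by omega⟩⟩) (some ⟨k, ⟨r + 1, hr⟩⟩) :=
      ⟨rfl, Or.inl rfl⟩
    have h1 := h.joins _ _ hadj
    have h2 := h.le _ _ hadj
    exact lo_step hL (lo_adj_g W k r hr) (lo_avoid W k r (by omega)) (lo_avoid W k (r + 1) hr) h2 h1
  have hall : ∀ (k : Fin 3) (r : ℕ) (hr : r < W.m k),
      (fv (some ⟨k, ⟨0, W.m_pos k⟩⟩) = f.fv (W.g k 0) →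
        fv (some ⟨k, ⟨r, hr⟩⟩) = f.fv (W.g k r)) ∧
      (fv (some ⟨k, ⟨0, W.m_pos k⟩⟩) = S.x → fv (some ⟨k, ⟨r, hr⟩⟩) = S.x) := by
    intro k r
    induction r with
    | zero => exact fun hr => ⟨fun h0 => h0, fun h0 => h0⟩
    | succ r ih =>
      intro hr
      have ih' := ih (by omega)
      have hs := hstep k r hr
      exact ⟨fun h0 => hs.1 (ih'.1 h0), fun h0 => hs.2 (ih'.2 h0)⟩
  -- the last vertices and the ports
  have hport : ∀ k : Fin 3,
      (fv (some ⟨k, ⟨0, W.m_pos k⟩⟩) = f.fv (W.g k 0) → c k = true) ∧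
      (fv (some ⟨k, ⟨0, W.m_pos k⟩⟩) = S.x → c k = false) := by
    intro k
    have h1 := hall k (W.m k - 1) (Nat.sub_lt (W.m_pos k) Nat.one_pos)
    have h2 : H.Joins (S.ec (c k)) (fv (some ⟨k, ⟨W.m k - 1, Nat.sub_lt (W.m_pos k) Nat.one_pos⟩⟩))
      S.x := h.neg k rfl
    rw [lo_g_last, lo_fv_nb hnb] at h1
    constructor
    · intro h0
      rw [h1.1 h0] at h2
      by_contra hc
      have hc' : c k = false := by simpa using hc
      rw [hc'] at h2
      exact hy (lo_loop hL h2).1
    · intro h0
      rw [h1.2 h0] at h2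
      by_contra hc
      have hc' : c k = true := by simpa using hc
      rw [hc'] at h2
      rcases lo_ord h2 with h3 | h3
      · exact hy h3.2.symm
      · exact hy h3.1.symm
  -- the centre
  have hadj0 : ∀ k : Fin 3, (W.proto hL hf hx hnb).T.Adj none (some ⟨k, ⟨0, W.m_pos k⟩⟩) :=
    fun k => rfl
  have hfirst : ∀ b : Bool, Y.G.Adj (Y.nb (S.dc true)) (W.w b 1) := by
    intro b
    have := W.adj b 0 (by have := W.two_le b; omega)
    rwa [W.zero] at this
  have hne : f.fv (Y.nb (S.dc true)) ≠ S.x := by rw [lo_fv_nb hnb]; exact hy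
  have hav : ∀ b : Bool, f.fv (W.w b 1) ≠ S.x := fun b => W.avoid b 1 (by
    have := W.two_le b; omega)
  have s0 := lo_step hL (hfirst true) hne (hav true) (h.le _ _ (hadj0 0)) (h.joins _ _ (hadj0 0))
  have s1 := lo_step hL (hfirst false) hne (hav false) (h.le _ _ (hadj0 1)) (h.joins _ _ (hadj0 1))
  have s2 : fe none (some ⟨2, ⟨0, W.m_pos 2⟩⟩) = S.ec true := h.le _ _ (hadj0 2)
  have j2 := h.joins _ _ (hadj0 2)
  rw [s2] at j2
  rw [lo_fv_nb hnb] at s0 s1
  rcases hcen with hc | hc
  · have c0 := (hport 0).1 (s0.1 hc)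
    have c1 := (hport 1).1 (s1.1 hc)
    have c2 : c 2 = false := by
      apply (hport 2).2
      rcases lo_ord j2 with h3 | h3
      · exact absurd (hc.symm.trans h3.1) hy
      · exact h3.2
    rw [c0, c1, c2]
    exact ⟨rfl, rfl⟩
  · have c0 := (hport 0).2 (s0.2 hc)
    have c1 := (hport 1).2 (s1.2 hc)
    have c2 : c 2 = true := by
      apply (hport 2).1
      rcases lo_ord j2 with h3 | h3
      · have e : W.g 2 0 = Y.nb (S.dc true) := W.zero true
        rw [e, lo_fv_nb hnb]
        exact h3.2
      · exact absurd (h3.1.symm.trans hc) hy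
    rw [c0, c1, c2]
    exact ⟨rfl, rfl⟩

end Graph

end Pool.Agent.Lib.MP_9c5086_lc
end

section

/-!
Closed walks for the leaf gadget.
-/

namespace Pool.Agent.Lib.MP_9c5086_lc

namespace Graph

variable {V E I : Type} {H : Graph V E} {t : V → I} {S : Setup H t Bool}

/-- The darts at `x` to the block of `x`. -/
private theorem leaf_darts [Finite E] (h : IsLeaf S) (d : H.Dart) (h1 : d.src = S.x)
    (h2 : t d.tgt = t S.x) : d = S.dc false ∨ d = (S.dc false).inv ∨ d = S.dc true := by
  classical
  have hc := h.card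
  rw [h.j] at hc
  have hl : (S.dc false).src = S.x := S.src_dc false
  have ho : (S.dc true).src = S.x := S.src_dc true
  have hne1 : (S.dc false).inv ≠ S.dc false := fun e => h.loop' ((Dart.inv_eq_self_iff _).1 e)
  have hed : (S.dc true).edge ≠ (S.dc false).edge := fun e => by
    have := S.inj_dc _ _ e
    simp at this
  have hne2 : S.dc true ≠ S.dc false := fun e => hed (by rw [e])
  have hne3 : S.dc true ≠ (S.dc false).inv := fun e => hed (by rw [e, Dart.edge_inv])
  have hsub : ({S.dc false, (S.dc false).inv, S.dc true} : Set H.Dart) ⊆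
      {d : H.Dart | d.src = S.x ∧ t d.tgt = t S.x} := by
    intro e he
    rcases he with rfl | rfl | rfl
    · exact ⟨hl, by rw [h.loop]⟩
    · exact ⟨by rw [Dart.src_inv, h.loop], by rw [Dart.tgt_inv, hl]⟩
    · exact ⟨ho, by rw [S.ty_dc, h.j]⟩
  have h3 : ({S.dc false, (S.dc false).inv, S.dc true} : Set H.Dart).ncard = 3 := by
    rw [Set.ncard_eq_three]
    exact ⟨_, _, _, hne1.symm, hne2.symm, hne3.symm, rfl⟩
  have heq := Set.eq_of_subset_of_ncard_le hsub (by
    rw [h3]
    exact hc.le) (Set.toFinite _)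
  have : d ∈ ({S.dc false, (S.dc false).inv, S.dc true} : Set H.Dart) := by
    rw [heq]; exact ⟨h1, h2⟩
  simpa using this

/-- A dart to `x` from another vertex of the block. -/
private theorem leaf_to [Finite E] (h : IsLeaf S) (s : H.Dart) (h1 : s.tgt = S.x)
    (h2 : s.src ≠ S.x) (h3 : t s.src = t S.x) : s = (S.dc true).inv := by
  have hl : (S.dc false).src = S.x := S.src_dc false
  rcases leaf_darts h s.inv (by rw [Dart.src_inv, h1]) (by rw [Dart.tgt_inv, h3]) with e | e | e
  · exfalso
    apply h2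
    rw [← Dart.tgt_inv, e, h.loop]
  · exfalso
    apply h2
    rw [← Dart.tgt_inv, e, Dart.tgt_inv, hl]
  · rw [← e, Dart.inv_inv]

private theorem leaf_nbrs [Finite E] (ht : H.Equitable t) (h : IsLeaf S) (Y : Univ H t)
    (f : DCover Y.G H) (hf : ∀ n, t (f.fv n) = Y.τ n) (n : Y.X) (hn : Y.τ n = t S.x) :
    {n' | Y.G.Adj n n' ∧ Y.τ n' = t S.x}.ncard = 3 := by
  have hc := h.card
  rw [h.j] at hc
  have h1 := ht S.x (f.fv n) (by rw [hf, hn]) (t S.x)
  rw [hc] at h1
  rw [h1]
  unfold classSize
  refine Set.ncard_congr (fun n' _ => f.fd n n') ?_ ?_ ?_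
  · rintro n' ⟨h2, h3⟩
    exact ⟨f.src_fd h2, by rw [f.tgt_fd h2, hf, h3]⟩
  · rintro n' n'' ⟨h2, -⟩ ⟨h3, -⟩ h4
    exact f.inj_fd h2 h3 h4
  · rintro d ⟨h2, h3⟩
    obtain ⟨n', h4, h5⟩ := f.surj_fd n d h2
    refine ⟨n', ⟨h4, ?_⟩, h5⟩
    rw [← hf, ← f.tgt_fd h4, h5, h3]

/-- At most one neighbour is mapped to `x`. -/
private theorem leaf_uniq [Finite E] (h : IsLeaf S) (Y : Univ H t)
    (f : DCover Y.G H) (hf : ∀ n, t (f.fv n) = Y.τ n) (n n' n'' : Y.X) (hn : Y.τ n = t S.x)
    (hx : f.fv n ≠ S.x) (h1 : Y.G.Adj n n') (h2 : Y.G.Adj n n'') (h3 : f.fv n' = S.x)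
    (h4 : f.fv n'' = S.x) : n' = n'' := by
  refine f.inj_fd h1 h2 ?_
  rw [leaf_to h (f.fd n n') (by rw [f.tgt_fd h1, h3]) (by rw [f.src_fd h1]; exact hx)
    (by rw [f.src_fd h1, hf, hn]),
    leaf_to h (f.fd n n'') (by rw [f.tgt_fd h2, h4]) (by rw [f.src_fd h2]; exact hx)
    (by rw [f.src_fd h2, hf, hn])]

private theorem leaf_next [Finite E] (ht : H.Equitable t) (h : IsLeaf S) (Y : Univ H t)
    (f : DCover Y.G H) (hf : ∀ n, t (f.fv n) = Y.τ n) (p n : Y.X) (hn : Y.τ n = t S.x)
    (hx : f.fv n ≠ S.x) : ∃ n', Y.G.Adj n n' ∧ Y.τ n' = t S.x ∧ f.fv n' ≠ S.x ∧ n' ≠ p := by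
  by_contra hcon
  push Not at hcon
  haveI := Y.fin
  have h3 := leaf_nbrs ht h Y f hf n hn
  obtain ⟨a, b, c, hab, hac, hbc, heq⟩ := Set.ncard_eq_three.1 h3
  have ha : a ∈ {n' | Y.G.Adj n n' ∧ Y.τ n' = t S.x} := by rw [heq]; simp
  have hb : b ∈ {n' | Y.G.Adj n n' ∧ Y.τ n' = t S.x} := by rw [heq]; simp
  have hc : c ∈ {n' | Y.G.Adj n n' ∧ Y.τ n' = t S.x} := by rw [heq]; simp
  have key : ∀ u ∈ {n' | Y.G.Adj n n' ∧ Y.τ n' = t S.x}, f.fv u = S.x ∨ u = p := by
    rintro u ⟨hu1, hu2⟩
    by_cases hu : f.fv u = S.x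
    · exact Or.inl hu
    · exact Or.inr (hcon u hu1 hu2 hu)
  have two : ∀ u ∈ {n' | Y.G.Adj n n' ∧ Y.τ n' = t S.x},
      ∀ v ∈ {n' | Y.G.Adj n n' ∧ Y.τ n' = t S.x}, u ≠ v → f.fv u = S.x → v = p := by
    intro u hu v hv huv hux
    rcases key v hv with hvx | hvp
    · exact absurd (leaf_uniq h Y f hf n u v hn hx hu.1 hv.1 hux hvx) huv
    · exact hvp
  rcases key a ha with h4 | h4
  · exact hbc ((two a ha b hb hab h4).trans (two a ha c hc hac h4).symm)
  · rcases key b hb with h5 | h5
    · exact hac (h4.trans (two b hb c hc hbc h5).symm)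
    · exact hab (h4.trans h5.symm)

private theorem leaf_closed [Finite E] (ht : H.Equitable t) (h : IsLeaf S) (Y : Univ H t)
    (f : DCover Y.G H) (hf : ∀ n, t (f.fv n) = Y.τ n) (n p : Y.X)
    (hn : Y.τ n = t S.x ∧ f.fv n ≠ S.x) (hp : Y.τ p = t S.x ∧ f.fv p ≠ S.x)
    (hnp : Y.G.Adj n p) :
    ∃ L, 2 ≤ L ∧ ∃ d : ℕ → Y.X, d 0 = n ∧ d 1 = p ∧ d L = n ∧
      (∀ r, r ≤ L → Y.τ (d r) = t S.x ∧ f.fv (d r) ≠ S.x) ∧
      (∀ r, r < L → Y.G.Adj (d r) (d (r + 1))) ∧ ∀ r, r + 2 ≤ L → d (r + 2) ≠ d r := by
  haveI := Y.fin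
  let A : Set Y.X := {m | Y.τ m = t S.x ∧ f.fv m ≠ S.x}
  have hnext : ∀ e : {e : Y.X × Y.X // e.1 ∈ A ∧ e.2 ∈ A ∧ Y.G.Adj e.1 e.2},
      ∃ e' : {e : Y.X × Y.X // e.1 ∈ A ∧ e.2 ∈ A ∧ Y.G.Adj e.1 e.2},
        e'.1.1 = e.1.2 ∧ e'.1.2 ≠ e.1.1 := by
    rintro ⟨⟨u, v⟩, hu, hv, huv⟩
    obtain ⟨w, h1, h2, h3, h4⟩ := leaf_next ht h Y f hf u v hv.1 hv.2
    exact ⟨⟨(v, w), hv, ⟨h2, h3⟩, h1⟩, rfl, h4⟩
  choose nx hnx1 hnx2 using hnext
  let e : ℕ → {e : Y.X × Y.X // e.1 ∈ A ∧ e.2 ∈ A ∧ Y.G.Adj e.1 e.2} := fun k =>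
    Nat.rec ⟨(n, p), hn, hp, hnp⟩ (fun _ x => nx x) k
  have e0 : e 0 = ⟨(n, p), hn, hp, hnp⟩ := rfl
  have es : ∀ k, e (k + 1) = nx (e k) := fun _ => rfl
  let c : ℕ → Y.X := fun k => (e k).1.1
  have hc1 : ∀ k, c (k + 1) = (e k).1.2 := fun k => by
    show (e (k + 1)).1.1 = _
    rw [es]; exact hnx1 _
  obtain ⟨L, hL, d, hd0, hd1, hdL, hdA, hdadj, hdnb⟩ := exists_closed_walk Y.G A c
    (fun r => (e r).2.1) (fun r => by rw [hc1]; exact (e r).2.2.2) (fun r => by
      have h1 : c (r + 2) = (e (r + 1)).1.2 := hc1 (r + 1)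
      rw [h1, es]
      exact hnx2 _)
  refine ⟨L, hL, d, ?_, ?_, ?_, hdA, hdadj, hdnb⟩
  · exact hd0
  · exact hd1.trans (hc1 0)
  · exact hdL

theorem leaf_walks [Finite V] [Finite E] (ht : H.Equitable t) (h : IsLeaf S) (Y : Univ H t)
    (f : DCover Y.G H) (hf : ∀ n, t (f.fv n) = Y.τ n) (hx : f.fv (Y.r S.x) = S.x)
    (hnb : ∀ s : H.Dart, s.src = S.x → f.fd (Y.r S.x) (Y.nb s) = s) :
    Nonempty (LeafWalks S Y f) := by
  haveI := Y.fin
  have ho : (S.dc true).src = S.x := S.src_dc true
  have hadj : Y.G.Adj (Y.r S.x) (Y.nb (S.dc true)) := by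
    have := Y.adj_nb (S.dc true)
    rwa [ho] at this
  have hfv : f.fv (Y.nb (S.dc true)) = (S.dc true).tgt := by
    rw [← f.tgt_fd hadj, hnb _ ho]
  have hn2 : f.fv (Y.nb (S.dc true)) ≠ S.x := by rw [hfv]; exact h.ord
  have hn1 : Y.τ (Y.nb (S.dc true)) = t S.x := by
    rw [← hf, hfv, S.ty_dc, h.j]
  have hr : Y.τ (Y.r S.x) = t S.x := Y.τ_r _
  obtain ⟨a, b, c, hab, hac, hbc, heq⟩ := Set.ncard_eq_three.1 (leaf_nbrs ht h Y f hf _ hn1)
  have key : ∃ p q, p ≠ q ∧ (Y.G.Adj (Y.nb (S.dc true)) p ∧ Y.τ p = t S.x ∧ f.fv p ≠ S.x) ∧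
      (Y.G.Adj (Y.nb (S.dc true)) q ∧ Y.τ q = t S.x ∧ f.fv q ≠ S.x) := by
    have hmem : ∀ u, u ≠ Y.r S.x → u ∈ {n' | Y.G.Adj (Y.nb (S.dc true)) n' ∧ Y.τ n' = t S.x} →
        (Y.G.Adj (Y.nb (S.dc true)) u ∧ Y.τ u = t S.x ∧ f.fv u ≠ S.x) := by
      rintro u hu ⟨h1, h2⟩
      exact ⟨h1, h2, fun h3 => hu (leaf_uniq h Y f hf _ u (Y.r S.x) hn1 hn2 h1 hadj.symm h3 hx)⟩
    have ha : a ∈ {n' | Y.G.Adj (Y.nb (S.dc true)) n' ∧ Y.τ n' = t S.x} := by rw [heq]; simp
    have hb : b ∈ {n' | Y.G.Adj (Y.nb (S.dc true)) n' ∧ Y.τ n' = t S.x} := by rw [heq]; simp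
    have hc : c ∈ {n' | Y.G.Adj (Y.nb (S.dc true)) n' ∧ Y.τ n' = t S.x} := by rw [heq]; simp
    by_cases h1 : a = Y.r S.x
    · exact ⟨b, c, hbc, hmem b (fun e => hab (h1.trans e.symm)) hb,
        hmem c (fun e => hac (h1.trans e.symm)) hc⟩
    · by_cases h2 : b = Y.r S.x
      · exact ⟨a, c, hac, hmem a h1 ha, hmem c (fun e => hbc (h2.trans e.symm)) hc⟩
      · exact ⟨a, b, hab, hmem a h1 ha, hmem b h2 hb⟩
  obtain ⟨p, q, hpq, ⟨hp1, hp2, hp3⟩, ⟨hq1, hq2, hq3⟩⟩ := key
  obtain ⟨L1, hL1, d1, h10, h11, h1L, h1A, h1a, h1n⟩ :=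
    leaf_closed ht h Y f hf _ p ⟨hn1, hn2⟩ ⟨hp2, hp3⟩ hp1
  obtain ⟨L2, hL2, d2, h20, h21, h2L, h2A, h2a, h2n⟩ :=
    leaf_closed ht h Y f hf _ q ⟨hn1, hn2⟩ ⟨hq2, hq3⟩ hq1
  refine ⟨{ L := fun b => if b then L1 else L2
            w := fun b => if b then d1 else d2
            two_le := ?_
            zero := ?_
            last := ?_
            block := ?_
            avoid := ?_
            adj := ?_
            nb := ?_
            ne := ?_ }⟩
  · intro b; cases b
    · exact hL2
    · exact hL1
  · intro b; cases b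
    · exact h20
    · exact h10
  · intro b; cases b
    · exact h2L
    · exact h1L
  · intro b; cases b
    · exact fun r hr => (h2A r hr).1
    · exact fun r hr => (h1A r hr).1
  · intro b; cases b
    · exact fun r hr => (h2A r hr).2
    · exact fun r hr => (h1A r hr).2
  · intro b; cases b
    · exact h2a
    · exact h1a
  · intro b; cases b
    · exact h2n
    · exact h1n
  · show d1 1 ≠ d2 1
    rw [h11, h21]
    exact hpq

end Graph

end Pool.Agent.Lib.MP_9c5086_lc
end

section

/-!
The leaf gadget.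
-/

namespace Pool.Agent.Lib.MP_9c5086_lc

namespace Graph

variable {V E I : Type} {H : Graph V E} {t : V → I} {S : Setup H t Bool}

theorem real_leaf_gadget [Finite V] [Finite E] (ht : H.Equitable t) (h : IsLeaf S) :
    Real S (Fin 3) (fun _ => false) (fun c => c 0 = c 1 ∧ c 2 = !c 0) := by
  have : Nonempty E := ⟨S.ec true⟩
  obtain ⟨Y⟩ := exists_univ H t ht
  obtain ⟨f, hf, hx, hnb⟩ := Y.mode S.x S.x (Mode.refl H t S.x)
  have hnb' : ∀ s : H.Dart, s.src = S.x → f.fd (Y.r S.x) (Y.nb s) = s :=
    fun s hs => hnb ⟨s, hs⟩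
  obtain ⟨W⟩ := leaf_walks ht h Y f hf hx hnb'
  refine ⟨inferInstance, (W.proto h hf hx hnb').gadget, fun c => ?_⟩
  rw [Proto.sat_iff]
  constructor
  · rintro ⟨h1, h2⟩
    have : c = ![c 0, c 0, !c 0] := by
      ext i
      fin_cases i
      · rfl
      · exact h1.symm
      · exact h2
    rw [this]
    exact leaf_sol W h hf hx hnb' (c 0)
  · rintro ⟨fv, fe, h1⟩
    exact leaf_only W h hf hx hnb' c fv fe h1

end Graph

end Pool.Agent.Lib.MP_9c5086_lc
end

section

/-!
The class leads into its own block.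
-/

namespace Pool.Agent.Lib.MP_9c5086_lc

namespace Graph

variable {V E I : Type} {H : Graph V E} {t : V → I}

private theorem oe_mem {A : Set V} {v w : V} (hv : v ∈ A) (h : H.RConn A v w) : w ∈ A := by
  unfold RConn at h
  induction h with
  | refl => exact hv
  | tail _ h2 _ => exact h2.2.1

private theorem oe_stay {y : V} {A : Set V}
    (hd : ∀ d : H.Dart, d.src = y → d.tgt ∈ A → d.tgt = y) {w : V} (h : H.RConn A y w) : w = y := by
  unfold RConn at h
  induction h with
  | refl => rfl
  | tail _ h2 ih =>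
    obtain ⟨-, h3, e, h4⟩ := h2
    rw [ih] at h4
    obtain ⟨d, -, h5, h6⟩ := h4.exists_dart
    rw [← h6] at h3 ⊢
    exact hd d h5 h3

private theorem oe_good {A : Set V} {y : V} {e : H.Dart} (hs : e.src = y)
    (hA : e.tgt ∈ A) (hb : ¬ Bad H A A y e) : Good H t y e := by
  by_cases h : e.tgt = y
  · exact Or.inl h
  right
  left
  by_contra hcon
  push Not at hcon
  refine hb ⟨hs, hA, h, fun d' h1 h2 h3 h4 => ?_, e.tgt, hA, Relation.ReflTransGen.refl⟩
  by_contra hne
  exact hcon d' h1 hne h3 (h4.mono fun u hu => hu.2)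

/-- The class leads into its own block. -/
theorem outcome_eq [Finite V] [Finite E] (ht : H.Equitable t) (hH : H.Connected)
    (x : V) (h3 : 3 ≤ H.classSize t x (t x)) (hr : H.RichClass t x (t x)) : Outcome H t := by
  set A : Set V := {v | H.RConn {v | t v = t x} x v} with hA
  have hxA : x ∈ A := Relation.ReflTransGen.refl
  have hAt : ∀ v ∈ A, t v = t x := fun v hv =>
    oe_mem (A := {v | t v = t x}) (show t x = t x from rfl) hv
  have hstep : ∀ v ∈ A, ∀ d : H.Dart, d.src = v → t d.tgt = t x → d.tgt ∈ A := by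
    intro v hv d hd h
    refine Relation.ReflTransGen.tail hv ⟨hAt v hv, h, d.edge, ?_⟩
    have := d.joins
    rwa [hd] at this
  have hsize : ∀ v ∈ A, 3 ≤ H.classSize t v (t v) := by
    intro v hv
    rw [ht v x (hAt v hv) (t v), hAt v hv]
    exact h3
  by_cases hleaf : ∃ v ∈ A, ∃ l o : H.Dart, l.src = v ∧ l.tgt = v ∧ H.b l.edge ≠ none ∧ o.src = v ∧
      t o.tgt = t v ∧ o.tgt ≠ v ∧ H.classSize t v (t v) = 3
  · obtain ⟨v, -, l, o, hl1, hl2, hl3, ho1, ho2, ho3, hc⟩ := hleaf
    have hne : o.edge ≠ l.edge := by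
      intro h
      rcases Dart.eq_or_inv h with h | h
      · rw [h] at hl2
        exact ho3 hl2
      · rw [h, Dart.src_inv] at hl1
        exact ho3 hl1
    right
    let S : Setup H t Bool :=
      { x := v
        j := t v
        dc := fun b => if b then o else l
        src_dc := by
          intro c
          cases c
          · exact hl1
          · exact ho1
        ty_dc := by
          intro c
          cases c
          · show t l.tgt = t v
            rw [hl2]
          · exact ho2
        inj_dc := by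
          intro c c' h
          cases c <;> cases c'
          · rfl
          · exact absurd h.symm hne
          · exact absurd h hne
          · rfl }
    have hS : IsLeaf S := ⟨rfl, hl2, hl3, ho3, hc⟩
    exact ⟨S, real_one3 hS, real_leaf_gadget ht hS⟩
  obtain ⟨y, hyA, hy⟩ := exists_few_bad H A A le_rfl ⟨x, hxA⟩
  rcases class_cases H t y (hsize y hyA) with ⟨d, hd, hinj⟩ | h | ⟨h1, h2⟩
  · have hdA : ∀ a, (d a).tgt ∈ A := fun a =>
      hstep y hyA (d a) (hd a).1 ((hd a).2.trans (hAt y hyA))
    have hgood : ∀ a, ¬ Bad H A A y (d a) → Good H t y (d a) := fun a =>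
      oe_good (hd a).1 (hdA a)
    have hone : ∀ a b, Bad H A A y (d a) → a ≠ b → ¬ Bad H A A y (d b) := by
      intro a b ha hab hb
      exact hab (hinj a b (congrArg Dart.edge (hy _ _ ha hb)))
    have hperm : ∀ σ : Equiv.Perm (Fin 3), ¬ Bad H A A y (d (σ 0)) → ¬ Bad H A A y (d (σ 2)) →
        Outcome H t := by
      intro σ h0 h2
      exact outcome_of_good ht hH y (t y) (fun a => d (σ a)) (fun a => hd (σ a))
        (fun a b h => σ.injective (hinj _ _ h)) (hgood _ h0) (hgood _ h2)
    by_cases b0 : Bad H A A y (d 0)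
    · refine hperm (Equiv.swap 0 1) ?_ ?_
      · rw [Equiv.swap_apply_left]
        exact hone 0 1 b0 (by decide)
      · rw [Equiv.swap_apply_of_ne_of_ne (by decide) (by decide)]
        exact hone 0 2 b0 (by decide)
    · by_cases b2 : Bad H A A y (d 2)
      · refine hperm (Equiv.swap 1 2) ?_ ?_
        · rw [Equiv.swap_apply_of_ne_of_ne (by decide) (by decide)]
          exact b0
        · rw [Equiv.swap_apply_right]
          exact hone 2 1 b2 (by decide)
      · exact hperm (Equiv.refl _) b0 b2
  · exact absurd ⟨y, hyA, h⟩ hleaf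
  · exfalso
    have hxy : x = y := by
      have h4 : H.RConn {v | t v = t x} y x := RConn.symm hyA
      refine oe_stay (fun d hd1 hd2 => h1 d hd1 ?_) h4
      rw [hAt y hyA]
      exact hd2
    subst hxy
    rcases hr with ⟨d, hd1, hd2, hd3⟩ | hr
    · exact hd3 (h1 d hd1 hd2)
    · omega

end Graph

end Pool.Agent.Lib.MP_9c5086_lc
end
end
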