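import Pool.Agent.Lib.MP_9c5086_lc.Gadget
import Pool.Agent.Lib.MP_9c5086_lc.Glue
import Pool.Agent.Lib.MP_9c5086_lc.FewBad
import Pool.Agent.Lib.MP_9c5086_lc.ClosedWalk
import Pool.Agent.Lib.MP_9c5086_lc.TorusGlue
import Pool.Agent.Lib.MP_9c5086_lc.CGadDefs
import Pool.Agent.Lib.MP_9c5086_lc.OutGood

section

/-!
Nonbacktracking walks of darts.
-/

namespace Pool.Agent.Lib.MP_9c5086_lc

namespace Graph

variable {V E I : Type} {H : Graph V E} {t : V → I}

/-- An infinite nonbacktracking walk of darts. -/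
def NBWalk (d : ℕ → H.Dart) : Prop :=
  ∀ r, (d (r + 1)).src = (d r).tgt ∧ d (r + 1) ≠ (d r).inv

/-- Some infinite nonbacktracking walk starts with a dart from `x` to the block `j` and never
visits the block of `x` again. -/
def InfAvoid (H : Graph V E) (t : V → I) (x : V) (j : I) : Prop :=
  ∃ d : ℕ → H.Dart, (d 0).src = x ∧ t (d 0).tgt = j ∧ NBWalk d ∧ ∀ r, t (d r).tgt ≠ t x

end Graph

end Pool.Agent.Lib.MP_9c5086_lc
end

section

/-!
Walks in covers.
-/

namespace Pool.Agent.Lib.MP_9c5086_lc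

namespace Graph

variable {V E I : Type} {H : Graph V E} {t : V → I}

/-- The next dart of a walk with the same types. -/
private theorem next_dart_cover [Finite E] (ht : H.Equitable t) (d0 d1 : H.Dart)
    (h01 : d1.src = d0.tgt) (hne : d1 ≠ d0.inv) (v : V) (hv : t v = t d0.tgt) (s0 : H.Dart)
    (hs0 : t s0.tgt = t d0.src) :
    ∃ s : H.Dart, s.src = v ∧ s ≠ s0 ∧ t s.tgt = t d1.tgt := by
  by_cases hj : t d1.tgt = t d0.src
  · have h2 : 1 < H.classSize t v (t d1.tgt) := by
      rw [ht v d0.tgt hv]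
      have hsub : ({d1, d0.inv} : Set H.Dart) ⊆
          {d : H.Dart | d.src = d0.tgt ∧ t d.tgt = t d1.tgt} := by
        rintro x (rfl | rfl)
        · exact ⟨h01, rfl⟩
        · exact ⟨by rw [Dart.src_inv], by rw [Dart.tgt_inv]; exact hj.symm⟩
      have h := Set.ncard_le_ncard hsub (Set.toFinite _)
      rw [Set.ncard_pair hne] at h
      exact h
    obtain ⟨s, hs, hn⟩ := Set.exists_ne_of_one_lt_ncard h2 s0
    exact ⟨s, hs.1, hn, hs.2⟩
  · have h1 : 0 < H.classSize t v (t d1.tgt) := by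
      rw [ht v d0.tgt hv]
      exact (Set.ncard_pos (Set.toFinite _)).2 ⟨d1, h01, rfl⟩
    obtain ⟨s, hs⟩ := (Set.ncard_pos (Set.toFinite _)).1 h1
    refine ⟨s, hs.1, ?_, hs.2⟩
    rintro rfl
    exact hj (hs.2 ▸ hs0)

/-- A walk with the same types in a cover. -/
theorem exists_walk_cover [Finite E] (ht : H.Equitable t) {X : Type} {G : SimpleGraph X}
    (f : DCover G H) (d : ℕ → H.Dart) (hd : NBWalk d) (w n : X) (hwn : G.Adj w n)
    (hw : t (f.fv w) = t (d 0).src) (hn : t (f.fv n) = t (d 0).tgt) :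
    ∃ c : ℕ → X, c 0 = w ∧ c 1 = n ∧ (∀ r, G.Adj (c r) (c (r + 1)) ∧ c (r + 2) ≠ c r) ∧
      ∀ r, t (f.fv (c (r + 1))) = t (d r).tgt := by
  have step : ∀ (r : ℕ) (p : {p : X × X // G.Adj p.1 p.2 ∧ t (f.fv p.1) = t (d r).src ∧
      t (f.fv p.2) = t (d r).tgt}),
      ∃ q : {p : X × X // G.Adj p.1 p.2 ∧ t (f.fv p.1) = t (d (r + 1)).src ∧
        t (f.fv p.2) = t (d (r + 1)).tgt}, q.1.1 = p.1.2 ∧ q.1.2 ≠ p.1.1 := by
    rintro r ⟨⟨a, b⟩, hab, ha, hb⟩
    obtain ⟨s, hs1, hs2, hs3⟩ := next_dart_cover ht (d r) (d (r + 1)) (hd r).1 (hd r).2 (f.fv b)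
      hb (f.fd b a) (by rw [f.tgt_fd hab.symm]; exact ha)
    obtain ⟨n', hn1, hn2⟩ := f.surj_fd b s hs1
    refine ⟨⟨(b, n'), hn1, ?_, ?_⟩, rfl, ?_⟩
    · change t (f.fv b) = _
      rw [(hd r).1]
      exact hb
    · change t (f.fv n') = _
      rw [← f.tgt_fd hn1, hn2]
      exact hs3
    · intro h
      change n' = a at h
      subst h
      exact hs2 hn2.symm
  choose nx hnx1 hnx2 using step
  let D : ∀ r, {p : X × X // G.Adj p.1 p.2 ∧ t (f.fv p.1) = t (d r).src ∧
      t (f.fv p.2) = t (d r).tgt} :=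
    fun r => Nat.rec ⟨(w, n), hwn, hw, hn⟩ (fun r x => nx r x) r
  have h1 : ∀ r, (D (r + 1)).1.1 = (D r).1.2 := fun r => hnx1 r (D r)
  have h2 : ∀ r, (D (r + 1)).1.2 ≠ (D r).1.1 := fun r => hnx2 r (D r)
  refine ⟨fun r => (D r).1.1, rfl, h1 0, fun r => ⟨?_, ?_⟩, fun r => ?_⟩
  · change G.Adj (D r).1.1 (D (r + 1)).1.1
    rw [h1]
    exact (D r).2.1
  · change (D (r + 2)).1.1 ≠ (D r).1.1
    rw [h1]
    exact h2 r
  · change t (f.fv (D (r + 1)).1.1) = _
    rw [h1]
    exact (D r).2.2.2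

end Graph

end Pool.Agent.Lib.MP_9c5086_lc
end

section

section

/-!
Realizable relations: renaming, restriction, the empty and the unary relation.
-/

namespace Pool.Agent.Lib.MP_9c5086_lc

namespace Graph

variable {V E I : Type} {H : Graph V E} {t : V → I} {Col : Type} {S : Setup H t Col}

theorem Real.congr {P : Type} {sg : P → Bool} {R R' : (P → Col) → Prop} (h : Real S P sg R)
    (hR : ∀ c, R c ↔ R' c) : Real S P sg R' := by
  have : R = R' := funext fun c => propext (hR c)
  exact this ▸ h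

private def reindexG {P Q : Type} {sg : P → Bool} (e : Q ≃ P) (g : Gadget S P sg) :
    Gadget S Q (sg ∘ e) where
  U := g.U
  D := g.D
  finU := g.finU
  finD := g.finD
  mv := g.mv
  rev := g.rev
  pos := g.pos
  slot := g.slot
  pu q := g.pu (e q)
  ps q := g.ps (e q)
  Lv := g.Lv
  Le := g.Le
  LP q := g.LP (e q)
  rev_rev := g.rev_rev
  src_slot := g.src_slot
  src_ps q := g.src_ps (e q)
  inj_slot := g.inj_slot
  inj_ps _ _ h1 h2 := e.injective (g.inj_ps _ _ h1 h2)
  disj d q := g.disj d (e q)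
  ty_slot := g.ty_slot
  ne_pos := g.ne_pos
  simple := g.simple
  Le_rev := g.Le_rev
  ty_pos q := g.ty_pos (e q)
  ty_neg q := g.ty_neg (e q)
  neg_inj _ _ h1 h2 h3 := e.injective (g.neg_inj _ _ h1 h2 h3)
  neg_pos q q' := g.neg_pos (e q) (e q')
  neg_adj d q q' := g.neg_adj d (e q) (e q')

private theorem reindexG_ncard {P Q : Type} {sg : P → Bool} (e : Q ≃ P) (g : Gadget S P sg)
    (c : Q → Col) (u : g.U) (x : E) :
    {q | g.pu (e q) = u ∧ S.ec (c q) = x}.ncard =
      {p | g.pu p = u ∧ S.ec ((c ∘ e.symm) p) = x}.ncard := by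
  rw [← Set.ncard_image_of_injective _ e.injective]
  congr 1
  ext p
  simp only [Set.mem_image, Set.mem_ofPred_eq, Function.comp_apply]
  constructor
  · rintro ⟨q, ⟨h1, h2⟩, rfl⟩
    exact ⟨h1, by rwa [e.symm_apply_apply]⟩
  · rintro ⟨h1, h2⟩
    exact ⟨e.symm p, ⟨by rwa [e.apply_symm_apply], h2⟩, e.apply_symm_apply p⟩

theorem Real.reindex {P Q : Type} {sg : P → Bool} {R : (P → Col) → Prop} (e : Q ≃ P)
    (h : Real S P sg R) : Real S Q (sg ∘ e) (fun c => R (c ∘ e.symm)) := by
  obtain ⟨hP, g, hg⟩ := h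
  refine ⟨Finite.of_equiv P e.symm, reindexG e g, fun c => ?_⟩
  change R (c ∘ e.symm) ↔ _
  rw [hg]
  constructor
  · rintro ⟨fv, fe, hs⟩
    refine ⟨fv, fe, hs.rev, hs.ty, hs.joins, ?_, hs.lv, hs.le, ?_, ?_⟩
    · intro q hq
      have := hs.neg (e q) hq
      rwa [Function.comp_apply, e.symm_apply_apply] at this
    · intro q
      have := hs.lp (e q)
      rwa [Function.comp_apply, e.symm_apply_apply] at this
    · intro u x
      have := hs.count u x
      rwa [← reindexG_ncard e g c u x] at this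
  · rintro ⟨fv, fe, hs⟩
    refine ⟨fv, fe, hs.rev, hs.ty, hs.joins, ?_, hs.lv, hs.le, ?_, ?_⟩
    · intro p hp
      have := hs.neg (e.symm p) (by rw [Function.comp_apply, e.apply_symm_apply]; exact hp)
      change H.Joins _ (fv (g.pu (e (e.symm p)))) _ at this
      rwa [e.apply_symm_apply] at this
    · intro p
      have := hs.lp (e.symm p)
      change _ ∈ g.LP (e (e.symm p)) at this
      rwa [e.apply_symm_apply] at this
    · intro u x
      have := hs.count u x
      rw [← reindexG_ncard e g c u x]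
      exact this

private def restrictG {P : Type} {sg : P → Bool} (L : P → Set Col) (g : Gadget S P sg) :
    Gadget S P sg where
  U := g.U
  D := g.D
  finU := g.finU
  finD := g.finD
  mv := g.mv
  rev := g.rev
  pos := g.pos
  slot := g.slot
  pu := g.pu
  ps := g.ps
  Lv := g.Lv
  Le := g.Le
  LP p := g.LP p ∩ L p
  rev_rev := g.rev_rev
  src_slot := g.src_slot
  src_ps := g.src_ps
  inj_slot := g.inj_slot
  inj_ps := g.inj_ps
  disj := g.disj
  ty_slot := g.ty_slot
  ne_pos := g.ne_pos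
  simple := g.simple
  Le_rev := g.Le_rev
  ty_pos := g.ty_pos
  ty_neg := g.ty_neg
  neg_inj := g.neg_inj
  neg_pos := g.neg_pos
  neg_adj := g.neg_adj

theorem Real.restrict {P : Type} {sg : P → Bool} {R : (P → Col) → Prop} (L : P → Set Col)
    (h : Real S P sg R) : Real S P sg (fun c => R c ∧ ∀ p, c p ∈ L p) := by
  obtain ⟨hP, g, hg⟩ := h
  refine ⟨hP, restrictG L g, fun c => ?_⟩
  change (R c ∧ ∀ p, c p ∈ L p) ↔ _
  rw [hg]
  constructor
  · rintro ⟨⟨fv, fe, hs⟩, hc⟩
    exact ⟨fv, fe, hs.rev, hs.ty, hs.joins, hs.neg, hs.lv, hs.le, fun p => ⟨hs.lp p, hc p⟩, hs.count⟩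
  · rintro ⟨fv, fe, hs⟩
    exact ⟨⟨fv, fe, hs.rev, hs.ty, hs.joins, hs.neg, hs.lv, hs.le, fun p => (hs.lp p).1, hs.count⟩,
      fun p => (hs.lp p).2⟩

private def unitPos (S : Setup H t Col) (c0 : Col) : Proto S Unit (fun _ => true) where
  U := Unit
  finU := inferInstance
  T := ⊥
  mv _ := S.x
  slot _ _ := S.dc c0
  pu _ := ()
  ps _ := S.dc c0
  Lv _ := {S.x}
  Le _ _ := Set.univ
  LP _ := Set.univ
  src_slot _ _ h := absurd h (by simp)
  src_ps _ := S.src_dc c0
  inj_slot _ _ _ h := absurd h (by simp)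
  inj_ps _ _ _ _ := rfl
  disj _ _ h := absurd h (by simp)
  ty_slot _ _ h := absurd h (by simp)
  Le_comm _ _ _ := rfl
  ty_pos _ _ := ⟨rfl, S.ty_dc c0, subset_rfl⟩
  ty_neg _ h := absurd h (by simp)
  neg_inj _ _ h := absurd h (by simp)
  neg_pos _ _ h := absurd h (by simp)
  neg_adj _ _ h := absurd h (by simp)

private def unitNeg (S : Setup H t Col) (c0 : Col) : Proto S Unit (fun _ => false) where
  U := Unit
  finU := inferInstance
  T := ⊥
  mv _ := (S.dc c0).tgt
  slot _ _ := S.dc c0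
  pu _ := ()
  ps _ := (S.dc c0).inv
  Lv _ := Set.univ
  Le _ _ := Set.univ
  LP _ := Set.univ
  src_slot _ _ h := absurd h (by simp)
  src_ps _ := Dart.src_inv _
  inj_slot _ _ _ h := absurd h (by simp)
  inj_ps _ _ _ _ := rfl
  disj _ _ h := absurd h (by simp)
  ty_slot _ _ h := absurd h (by simp)
  Le_comm _ _ _ := rfl
  ty_pos _ h := absurd h (by simp)
  ty_neg _ _ := ⟨S.ty_dc c0, by rw [Dart.tgt_inv, S.src_dc]⟩
  neg_inj _ _ _ _ _ := rfl
  neg_pos _ _ _ h := absurd h (by simp)
  neg_adj _ _ _ h := absurd h (by simp)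

theorem real_unit [Finite E] [Nonempty Col] (b : Bool) :
    Real S Unit (fun _ => b) (fun _ => True) := by
  obtain ⟨c0⟩ := ‹Nonempty Col›
  have hE : Nonempty E := ⟨S.ec c0⟩
  refine ⟨inferInstance, ?_⟩
  cases b
  · refine ⟨(unitNeg S c0).gadget, fun c => ?_⟩
    rw [Proto.sat_iff]
    refine ⟨fun _ => ⟨fun _ => (S.dc (c ())).tgt, _,
      Proto.Sol.of_darts (unitNeg S c0) c (fun _ => (S.dc (c ())).tgt) (fun _ _ => S.dc c0)
        (fun p => (S.dc (c p)).inv) ?_ ?_ ?_ ?_ ?_ ?_ ?_ ?_ ?_ ?_ ?_ ?_⟩, fun _ => trivial⟩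
    · intro u u' h; exact absurd h (by simp [unitNeg])
    · intro u u' h; exact absurd h (by simp [unitNeg])
    · intro u u' u'' h; exact absurd h (by simp [unitNeg])
    · intro p; exact Dart.src_inv _
    · intro p; exact Dart.edge_inv _
    · intro p p' _ _; rfl
    · intro p u h; exact absurd h (by simp [unitNeg])
    · intro u
      change t (S.dc (c ())).tgt = t (S.dc c0).tgt
      rw [S.ty_dc, S.ty_dc]
    · intro p _
      rw [Dart.tgt_inv, S.src_dc]
    · intro u; exact Set.mem_univ _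
    · intro u u' h; exact absurd h (by simp [unitNeg])
    · intro p; exact Set.mem_univ _
  · refine ⟨(unitPos S c0).gadget, fun c => ?_⟩
    rw [Proto.sat_iff]
    refine ⟨fun _ => ⟨fun _ => S.x, _,
      Proto.Sol.of_darts (unitPos S c0) c (fun _ => S.x) (fun _ _ => S.dc c0)
        (fun p => S.dc (c p)) ?_ ?_ ?_ ?_ ?_ ?_ ?_ ?_ ?_ ?_ ?_ ?_⟩, fun _ => trivial⟩
    · intro u u' h; exact absurd h (by simp [unitPos])
    · intro u u' h; exact absurd h (by simp [unitPos])
    · intro u u' u'' h; exact absurd h (by simp [unitPos])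
    · intro p; exact S.src_dc _
    · intro p; rfl
    · intro p p' _ _; rfl
    · intro p u h; exact absurd h (by simp [unitPos])
    · intro u; rfl
    · intro p h; exact absurd h (by simp)
    · intro u; exact Set.mem_singleton _
    · intro u u' h; exact absurd h (by simp [unitPos])
    · intro p; exact Set.mem_univ _

private def emptyG (S : Setup H t Col) (sg : Empty → Bool) : Gadget S Empty sg where
  U := Empty
  D := Empty
  finU := inferInstance
  finD := inferInstance
  mv := Empty.elim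
  rev := id
  pos := id
  slot := Empty.elim
  pu := Empty.elim
  ps := Empty.elim
  Lv := Empty.elim
  Le := Empty.elim
  LP := Empty.elim
  rev_rev d := d.elim
  src_slot d := d.elim
  src_ps p := p.elim
  inj_slot d := d.elim
  inj_ps p := p.elim
  disj d := d.elim
  ty_slot d := d.elim
  ne_pos d := d.elim
  simple d := d.elim
  Le_rev d := d.elim
  ty_pos p := p.elim
  ty_neg p := p.elim
  neg_inj p := p.elim
  neg_pos p := p.elim
  neg_adj d := d.elim

theorem real_empty [Finite E] (sg : Empty → Bool) : Real S Empty sg (fun _ => True) := by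
  refine ⟨inferInstance, emptyG S sg, fun c => ⟨fun _ => ?_, fun _ => trivial⟩⟩
  refine ⟨Empty.elim, Empty.elim, ?_, ?_, ?_, ?_, ?_, ?_, ?_, ?_⟩
  · intro d; exact Empty.elim d
  · intro d; exact Empty.elim d
  · intro d; exact Empty.elim d
  · intro d; exact Empty.elim d
  · intro d; exact Empty.elim d
  · intro d; exact Empty.elim d
  · intro d; exact Empty.elim d
  · intro d; exact Empty.elim d

end Graph

end Pool.Agent.Lib.MP_9c5086_lc
end

section

/-!
Realizable relations: products and joins.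
-/

namespace Pool.Agent.Lib.MP_9c5086_lc

namespace Graph

variable {V E I : Type} {H : Graph V E} {t : V → I} {Col : Type} {S : Setup H t Col}

private def rbQ (P Q : Type) (b : Bool) : Type := if b = true then P else Q

private def rbS {P Q : Type} (sg : P → Bool) (sg' : Q → Bool) : ∀ b, rbQ P Q b → Bool
  | true => sg
  | false => sg'

private def rbR {P Q : Type} (R : (P → Col) → Prop) (R' : (Q → Col) → Prop) :
    ∀ b, (rbQ P Q b → Col) → Prop
  | true => R
  | false => R'

private def rbC {P Q : Type} (c : P ⊕ Q → Col) : ∀ b, rbQ P Q b → Col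
  | true => fun p => c (Sum.inl p)
  | false => fun q => c (Sum.inr q)

private def rbE {P Q : Type} : P ⊕ Q → Σ b, rbQ P Q b
  | Sum.inl p => ⟨true, p⟩
  | Sum.inr q => ⟨false, q⟩

private theorem rbE_inj {P Q : Type} : Function.Injective (rbE : P ⊕ Q → Σ b, rbQ P Q b) := by
  rintro (p | q) (p' | q') h
  · have := (Sigma.mk.inj_iff.1 h).2
    exact congrArg _ (eq_of_heq this)
  · exact absurd (Sigma.mk.inj_iff.1 h).1 (by decide)
  · exact absurd (Sigma.mk.inj_iff.1 h).1 (by decide)
  · have := (Sigma.mk.inj_iff.1 h).2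
    exact congrArg _ (eq_of_heq this)

private theorem rbE_surj {P Q : Type} : Function.Surjective (rbE : P ⊕ Q → Σ b, rbQ P Q b) := by
  rintro ⟨b, p⟩
  cases b
  · exact ⟨Sum.inr p, rfl⟩
  · exact ⟨Sum.inl p, rfl⟩

private def rbG {P Q : Type} (sg : P → Bool) (sg' : Q → Bool) :
    GlueData (rbS sg sg') Empty (P ⊕ Q) (Sum.elim sg sg') where
  wp := Empty.elim
  wn := Empty.elim
  ext := rbE
  swp w := w.elim
  swn w := w.elim
  sext := by rintro (p | q) <;> rfl
  inj := by
    rintro (w | w | p) (w' | w' | p') h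
    · exact w.elim
    · exact w.elim
    · exact w.elim
    · exact w.elim
    · exact w.elim
    · exact w.elim
    · exact w'.elim
    · exact w'.elim
    · exact congrArg _ (congrArg _ (rbE_inj h))
  surj := by
    intro s
    obtain ⟨p, hp⟩ := rbE_surj s
    exact ⟨Sum.inr (Sum.inr p), hp⟩

theorem Real.prod {P Q : Type} {sg : P → Bool} {sg' : Q → Bool} {R : (P → Col) → Prop}
    {R' : (Q → Col) → Prop} (h : Real S P sg R) (h' : Real S Q sg' R') :
    Real S (P ⊕ Q) (Sum.elim sg sg') (fun c => R (c ∘ Sum.inl) ∧ R' (c ∘ Sum.inr)) := by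
  have := h.1
  have := h'.1
  have hh : ∀ b, Real S (rbQ P Q b) (rbS sg sg' b) (rbR R R' b) := by
    intro b
    cases b
    · exact h'
    · exact h
  refine (Real.glue hh (rbG sg sg')).congr fun c => ?_
  constructor
  · rintro ⟨cn, h1, -, h3⟩
    have e1 : cn true = c ∘ Sum.inl := funext fun p => h3 (Sum.inl p)
    have e2 : cn false = c ∘ Sum.inr := funext fun q => h3 (Sum.inr q)
    have g1 := h1 true
    have g2 := h1 false
    rw [e1] at g1
    rw [e2] at g2
    exact ⟨g1, g2⟩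
  · rintro ⟨h1, h2⟩
    refine ⟨rbC c, ?_, fun w => w.elim, ?_⟩
    · intro b
      cases b
      · exact h2
      · exact h1
    · rintro (p | q) <;> rfl

private def rbJ {P : Type} (sg : P → Bool) :
    GlueData (N := Unit) (Q := fun _ => P ⊕ Bool) (fun _ => Sum.elim sg id) Unit P sg where
  wp _ := ⟨(), Sum.inr true⟩
  wn _ := ⟨(), Sum.inr false⟩
  ext p := ⟨(), Sum.inl p⟩
  swp _ := rfl
  swn _ := rfl
  sext _ := rfl
  inj := by
    rintro (w | w | p) (w' | w' | p') h
    · rfl
    · exact absurd (eq_of_heq (Sigma.mk.inj_iff.1 h).2) (by simp)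
    · exact absurd (eq_of_heq (Sigma.mk.inj_iff.1 h).2) (by simp)
    · exact absurd (eq_of_heq (Sigma.mk.inj_iff.1 h).2) (by simp)
    · rfl
    · exact absurd (eq_of_heq (Sigma.mk.inj_iff.1 h).2) (by simp)
    · exact absurd (eq_of_heq (Sigma.mk.inj_iff.1 h).2) (by simp)
    · exact absurd (eq_of_heq (Sigma.mk.inj_iff.1 h).2) (by simp)
    · exact congrArg _ (congrArg _ (Sum.inl_injective (eq_of_heq (Sigma.mk.inj_iff.1 h).2)))
  surj := by
    rintro ⟨⟨⟩, (p | b)⟩
    · exact ⟨Sum.inr (Sum.inr p), rfl⟩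
    · cases b
      · exact ⟨Sum.inr (Sum.inl ()), rfl⟩
      · exact ⟨Sum.inl (), rfl⟩

theorem Real.join {P : Type} {sg : P → Bool} {R : (P ⊕ Bool → Col) → Prop}
    (h : Real S (P ⊕ Bool) (Sum.elim sg id) R) :
    Real S P sg (fun c => ∃ z, R (Sum.elim c (fun _ => z))) := by
  have hf := h.1
  have : Finite P := Finite.of_injective (Sum.inl : P → P ⊕ Bool) Sum.inl_injective
  refine (Real.glue (N := Unit) (Q := fun _ => P ⊕ Bool) (fun _ => h) (rbJ sg)).congr fun c => ?_
  constructor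
  · rintro ⟨cn, h1, h2, h3⟩
    refine ⟨cn () (Sum.inr true), ?_⟩
    have e1 : cn () = Sum.elim c (fun _ => cn () (Sum.inr true)) := by
      funext p
      rcases p with p | b
      · exact h3 p
      · cases b
        · exact (h2 ()).symm
        · rfl
    have g := h1 ()
    rw [e1] at g
    exact g
  · rintro ⟨z, hz⟩
    exact ⟨fun _ => Sum.elim c (fun _ => z), fun _ => hz, fun _ => rfl, fun _ => rfl⟩

end Graph

end Pool.Agent.Lib.MP_9c5086_lc
end

section

/-!
The clone of realizable relations.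
-/

namespace Pool.Agent.Lib.MP_9c5086_lc

namespace Graph

variable {V E I : Type} {H : Graph V E} {t : V → I} {Col : Type} {S : Setup H t Col}

/-- The clone of realizable relations. -/
def realClone [Finite E] [Nonempty Col] (S : Setup H t Col) : Clone Col where
  mem := Real S
  finite h := h.1
  congr h := h.congr
  reindex e h := h.reindex e
  prod h h' := h.prod h'
  join h := h.join
  restrict L h := h.restrict L
  unit b := real_unit b
  empty sg := real_empty sg

end Graph

end Pool.Agent.Lib.MP_9c5086_lc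
end
end

section

section

/-!
Well-formed data are the data of instances.
-/

namespace Pool.Agent.Lib.MP_9c5086_lc

private theorem bits_self {n : ℕ} (c : List Bool) (h : c.length = n) :
    c = bitsOf (Finset.univ.filter fun k : Fin n => c.getD k false = true) := by
  unfold bitsOf
  refine List.ext_getElem (by simp [h]) fun i h1 h2 => ?_
  rw [List.getElem_ofFn]
  simp only [Finset.mem_filter, Finset.mem_univ, true_and]
  rw [List.getD_eq_getElem _ _ h1]
  simp

private theorem count_bitsOf {n : ℕ} (S : Finset (Fin n)) : (bitsOf S).count true = S.card := by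
  unfold bitsOf
  rw [List.count_eq_countP, List.countP_eq_length_filter, List.ofFn_eq_map, List.filter_map,
    List.length_map]
  have h : S.card = ((List.finRange n).filter fun x => decide (x ∈ S)).length := by
    have h1 : S = ((List.finRange n).filter fun x => decide (x ∈ S)).toFinset := by
      ext x
      simp
    conv_lhs => rw [h1]
    rw [List.toFinset_card_of_nodup]
    exact (List.nodup_finRange n).filter _
  rw [h]
  congr 1
  apply List.filter_congr
  intro x _
  simp

private theorem length_bits {n : ℕ} (S : Finset (Fin n)) : (bitsOf S).length = n := by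
  unfold bitsOf
  rw [List.length_ofFn]

private theorem one_of_count {n : ℕ} {c : List Bool} (h : c.length = n) (hc : c.count true = 1) :
    ∃ i : Fin n, c = bitsOf {i} := by
  rw [bits_self c h, count_bitsOf, Finset.card_eq_one] at hc
  obtain ⟨i, hi⟩ := hc
  exact ⟨i, by rw [← hi]; exact bits_self c h⟩

private theorem opt_of_count {n : ℕ} {c : List Bool} (h : c.length = n) (hc : c.count true ≤ 1) :
    ∃ o : Option (Fin n), c = bitsOf o.toFinset := by
  rcases Nat.lt_or_ge (c.count true) 1 with h1 | h1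
  · refine ⟨none, ?_⟩
    have h2 : c.count true = 0 := by omega
    rw [bits_self c h, count_bitsOf, Finset.card_eq_zero] at h2
    have h3 := bits_self c h
    rw [h2] at h3
    rw [h3]
    rfl
  · obtain ⟨i, hi⟩ := one_of_count h (le_antisymm hc h1)
    refine ⟨some i, ?_⟩
    rw [hi]
    rfl

private theorem row_of {q n : ℕ} {r : List (List Bool)} (h3 : r.length = 3)
    (h0 : (r.getD 0 []).length = q) (h1 : (r.getD 1 []).length = n)
    (h2 : (r.getD 2 []).length = n) (c1 : (r.getD 1 []).count true = 1)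
    (c2 : (r.getD 2 []).count true ≤ 1) :
    ∃ (S : Finset (Fin q)) (i : Fin n) (o : Option (Fin n)),
      r = [bitsOf S, bitsOf {i}, bitsOf o.toFinset] := by
  match r, h3 with
  | [a, b, c], _ =>
    simp only [List.getD_cons_zero, List.getD_cons_succ] at h0 h1 h2 c1 c2
    obtain ⟨i, hi⟩ := one_of_count h1 c1
    obtain ⟨o, ho⟩ := opt_of_count h2 c2
    refine ⟨Finset.univ.filter fun k : Fin q => a.getD k false = true, i, o, ?_⟩
    rw [hi, ho]
    congr 1
    exact bits_self a h0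

theorem wfG_iff (p q : ℕ) (D : RData) : wfG p q D = true ↔ ∃ I : GInst p q, D = I.data := by
  unfold wfG
  simp only [Bool.and_eq_true, Bool.not_eq_true', decide_eq_false_iff_not, List.all_eq_true,
    decide_eq_true_eq]
  constructor
  · rintro ⟨⟨hD, hv⟩, he⟩
    match D, hD with
    | A :: B, _ =>
      simp only [List.headD_cons, List.tail_cons] at hv he
      have h1 : ∀ f : Fin B.length, ∃ (S : Finset (Fin q)) (i : Fin A.length)
          (o : Option (Fin A.length)), B.get f = [bitsOf S, bitsOf {i}, bitsOf o.toFinset] := by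
        intro f
        obtain ⟨⟨⟨⟨⟨a1, a2⟩, a3⟩, a4⟩, a5⟩, a6⟩ := he (B.get f) (List.get_mem _ _)
        exact row_of a1 a2 a3 a4 a5 a6
      choose S i o hB using h1
      refine ⟨⟨A.length, B.length, ⟨i, o⟩,
        fun u => Finset.univ.filter fun k => (A.get u).getD k false = true, S⟩, ?_⟩
      unfold GInst.data
      congr 1
      · refine List.ext_getElem (by simp) fun u h1 h2 => ?_
        rw [List.getElem_ofFn]
        exact bits_self _ (hv _ (List.getElem_mem _))
      · refine List.ext_getElem (by simp) fun f h1 h2 => ?_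
        rw [List.getElem_ofFn]
        exact hB ⟨f, h1⟩
  · rintro ⟨I, rfl⟩
    unfold GInst.data
    refine ⟨⟨List.cons_ne_nil _ _, ?_⟩, ?_⟩
    · intro r hr
      rw [List.headD_cons, List.mem_ofFn] at hr
      obtain ⟨u, rfl⟩ := hr
      exact length_bits _
    · intro r hr
      rw [List.tail_cons, List.mem_ofFn] at hr
      obtain ⟨f, rfl⟩ := hr
      simp only [List.headD_cons, List.length_ofFn, List.getD_cons_zero, List.getD_cons_succ,
        length_bits, count_bitsOf]
      refine ⟨⟨⟨⟨⟨rfl, trivial⟩, trivial⟩, trivial⟩, ?_⟩, ?_⟩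
      · simp
      · cases I.G.b f <;> simp

end Pool.Agent.Lib.MP_9c5086_lc
end

section

/-!
Solutions of gadgets glued along a torus.
-/

namespace Pool.Agent.Lib.MP_9c5086_lc

namespace Graph

variable {V E I : Type} {H : Graph V E} {t : V → I} {Col : Type} {S : Setup H t Col}

/-- The glued gadget has a solution iff there is a tiling. -/
theorem torusGadget_sat {K T Ch Cv : Type} [Finite Ch] [Finite Cv] (A : TileSystem K T Ch Cv)
    {n : ℕ} (κ : Fin n × Fin n → K) (Tc Fc : Col) (hTF : Tc ≠ Fc)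
    (g : K → Gadget S (TPort Ch Cv) tsg)
    (hg : ∀ k c, (∃ b, A.rel k b ∧ ∀ p, c p = if b p then Tc else Fc) ↔ (g k).Sat c)
    (c : Empty → Col) : (torusGadget κ g).Sat c ↔ ∃ τ, A.Tiles κ τ := by
  classical
  have hif : ∀ b b' : Bool, (if b then Tc else Fc) = (if b' then Tc else Fc) → b = b' := by
    intro b b' h
    cases b <;> cases b' <;> simp_all
  unfold torusGadget
  rw [Gadget.glue_sat]
  constructor
  · rintro ⟨cn, h1, h2, -⟩
    have h3 : ∀ a, ∃ b, A.rel (κ a) b ∧ ∀ p, cn a p = if b p then Tc else Fc := fun a =>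
      (hg (κ a) (cn a)).2 (h1 a)
    choose b hb hcn using h3
    choose τ hok hlf hrt hup hdn using hb
    refine ⟨τ, fun a => ⟨hok a, ?_, ?_⟩⟩
    · have h4 : cn a (Sum.inl (Sum.inr (A.rt (τ a)))) =
          cn (a.1, nx a.2) (Sum.inl (Sum.inl (A.rt (τ a)))) := h2 (a, Sum.inl (A.rt (τ a)))
      rw [hcn, hcn] at h4
      have h5 := hif _ _ h4
      rw [(hrt a (A.rt (τ a))).2 rfl] at h5
      exact (hlf (a.1, nx a.2) (A.rt (τ a))).1 h5.symm
    · have h4 : cn a (Sum.inr (Sum.inr (A.dn (τ a)))) =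
          cn (nx a.1, a.2) (Sum.inr (Sum.inl (A.dn (τ a)))) := h2 (a, Sum.inr (A.dn (τ a)))
      rw [hcn, hcn] at h4
      have h5 := hif _ _ h4
      rw [(hdn a (A.dn (τ a))).2 rfl] at h5
      exact (hup (nx a.1, a.2) (A.dn (τ a))).1 h5.symm
  · rintro ⟨τ, hτ⟩
    let b : ∀ a : Fin n × Fin n, TPort Ch Cv → Bool := fun a =>
      Sum.elim (Sum.elim (fun c => decide (c = A.lf (τ a))) (fun c => decide (c = A.rt (τ a))))
        (Sum.elim (fun c => decide (c = A.up (τ a))) (fun c => decide (c = A.dn (τ a))))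
    refine ⟨fun a p => if b a p then Tc else Fc, fun a => ?_, ?_, fun p => p.elim⟩
    · refine (hg (κ a) _).1 ⟨b a, ⟨τ a, (hτ a).1, ?_, ?_, ?_, ?_⟩, fun p => rfl⟩
      · intro c; simp [b]
      · intro c; simp [b]
      · intro c; simp [b]
      · intro c; simp [b]
    · rintro ⟨a, c | c⟩
      · have h1 := (hτ a).2.1
        change (if (decide (c = A.rt (τ a))) then Tc else Fc) =
          (if (decide (c = A.lf (τ (a.1, nx a.2)))) then Tc else Fc)
        rw [h1]
      · have h1 := (hτ a).2.2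
        change (if (decide (c = A.dn (τ a))) then Tc else Fc) =
          (if (decide (c = A.up (τ (nx a.1, a.2)))) then Tc else Fc)
        rw [h1]

end Graph

end Pool.Agent.Lib.MP_9c5086_lc
end

section

/-!
The case of three colours.
-/

namespace Pool.Agent.Lib.MP_9c5086_lc

namespace Clone

private def e3t : Bool ⊕ Unit ≃ Fin 3 where
  toFun := Sum.elim (fun b => if b then 0 else 1) (fun _ => 2)
  invFun := fun i => if i = 0 then Sum.inl true else if i = 1 then Sum.inl false else Sum.inr ()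
  left_inv := by
    rintro (b | u)
    · cases b <;> simp
    · simp
  right_inv := by
    intro i
    fin_cases i <;> simp

private theorem wires2 (C : Clone (Fin 3)) (τ : Equiv.Perm (Fin 3)) {b : Bool}
    {R K1 K2 : Fin 3 → Fin 3 → Prop}
    (h : C.mem Bool (fun _ => !b) (fun c => R (τ (c true)) (τ (c false))))
    (h1 : C.mem Bool (fun _ => b) (fun c => K1 (τ (c true)) (τ (c false))))
    (h2 : C.mem Bool (fun _ => b) (fun c => K2 (τ (c true)) (τ (c false)))) :
    C.mem Bool (fun _ => b) (fun c => ∃ z1 z2, R z1 z2 ∧ K1 (τ (c true)) z1 ∧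
      K2 (τ (c false)) z2) := by
  refine C.congr (C.wires (sg' := fun _ => b) (K := fun p x y => if p then K1 (τ x) (τ y)
    else K2 (τ x) (τ y)) h fun p => ?_) fun c => ?_
  · cases p
    · refine C.congr (R := fun c => K2 (τ (c true)) (τ (c false))) ?_ (fun c => by simp)
      convert h2 using 1
      funext i
      cases i <;> simp
    · refine C.congr (R := fun c => K1 (τ (c true)) (τ (c false))) ?_ (fun c => by simp)
      convert h1 using 1
      funext i
      cases i <;> simp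
  · constructor
    · rintro ⟨z, hz, hK⟩
      exact ⟨τ (z true), τ (z false), hz, by simpa using hK true, by simpa using hK false⟩
    · rintro ⟨z1, z2, hz, hK1, hK2⟩
      refine ⟨fun p => if p then τ.symm z1 else τ.symm z2, by simpa using hz, fun p => ?_⟩
      cases p
      · simpa using hK2
      · simpa using hK1

private theorem wires3 (C : Clone (Fin 3)) (τ : Equiv.Perm (Fin 3)) {b : Bool}
    {R : Fin 3 → Fin 3 → Fin 3 → Prop} {K0 K1 K2 : Fin 3 → Fin 3 → Prop}
    (h : C.mem (Fin 3) (fun _ => !b) (fun c => R (τ (c 0)) (τ (c 1)) (τ (c 2))))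
    (h0 : C.mem Bool (fun _ => b) (fun c => K0 (τ (c true)) (τ (c false))))
    (h1 : C.mem Bool (fun _ => b) (fun c => K1 (τ (c true)) (τ (c false))))
    (h2 : C.mem Bool (fun _ => b) (fun c => K2 (τ (c true)) (τ (c false)))) :
    C.mem (Fin 3) (fun _ => b) (fun c => ∃ z0 z1 z2, R z0 z1 z2 ∧ K0 (τ (c 0)) z0 ∧
      K1 (τ (c 1)) z1 ∧ K2 (τ (c 2)) z2) := by
  refine C.congr (C.wires (sg' := fun _ => b) (K := fun p x y => if p = 0 then K0 (τ x) (τ y)
    else if p = 1 then K1 (τ x) (τ y) else K2 (τ x) (τ y)) h fun p => ?_) fun c => ?_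
  · fin_cases p
    · refine C.congr (R := fun c => K0 (τ (c true)) (τ (c false))) ?_ (fun c => by simp)
      convert h0 using 1
      funext i
      cases i <;> simp
    · refine C.congr (R := fun c => K1 (τ (c true)) (τ (c false))) ?_ (fun c => by simp)
      convert h1 using 1
      funext i
      cases i <;> simp
    · refine C.congr (R := fun c => K2 (τ (c true)) (τ (c false))) ?_ (fun c => by simp)
      convert h2 using 1
      funext i
      cases i <;> simp
  · constructor
    · rintro ⟨z, hz, hK⟩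
      exact ⟨τ (z 0), τ (z 1), τ (z 2), hz, by simpa using hK 0, by simpa using hK 1,
        by simpa using hK 2⟩
    · rintro ⟨z0, z1, z2, hz, hK0, hK1, hK2⟩
      refine ⟨![τ.symm z0, τ.symm z1, τ.symm z2], by simpa using hz, fun p => ?_⟩
      fin_cases p
      · simpa using hK0
      · simpa using hK1
      · simpa using hK2

private theorem base3 (C : Clone (Fin 3)) (τ : Equiv.Perm (Fin 3))
    (h1 : C.mem (Fin 3) (fun _ => true) (fun c => Function.Injective c))
    {R0 : (Fin 3 → Fin 3) → Prop} (h2 : C.mem (Fin 3) (fun _ => false) R0)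
    (hR : ∀ c, Function.Injective c → R0 c)
    {a : Fin 3} (ha : ∀ c, R0 c → Function.Injective c ∨ ∀ p, c p = a)
    (b : Bool) (L0 L1 L2 : Finset (Fin 3))
    (hb : b = false → τ a ∉ L0 ∨ τ a ∉ L1 ∨ τ a ∉ L2) :
    C.mem (Fin 3) (fun _ => b) (fun c => (τ (c 0) ∈ L0 ∧ τ (c 1) ∈ L1 ∧ τ (c 2) ∈ L2) ∧
      τ (c 0) ≠ τ (c 1) ∧ τ (c 0) ≠ τ (c 2) ∧ τ (c 1) ≠ τ (c 2)) := by
  have hinj : ∀ c : Fin 3 → Fin 3, Function.Injective c ↔
      (τ (c 0) ≠ τ (c 1) ∧ τ (c 0) ≠ τ (c 2) ∧ τ (c 1) ≠ τ (c 2)) := by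
    intro c
    rw [τ.injective.ne_iff, τ.injective.ne_iff, τ.injective.ne_iff]
    constructor
    · intro h
      exact ⟨h.ne (by decide), h.ne (by decide), h.ne (by decide)⟩
    · rintro ⟨h01, h02, h12⟩ i j hij
      fin_cases i <;> fin_cases j <;> first | rfl | (exfalso; first
        | exact h01 hij | exact h02 hij | exact h12 hij | exact h01 hij.symm
        | exact h02 hij.symm | exact h12 hij.symm)
  have hL : ∀ c : Fin 3 → Fin 3, (∀ p, c p ∈ (fun p : Fin 3 => {x : Fin 3 | if p = 0 then τ x ∈ L0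
      else if p = 1 then τ x ∈ L1 else τ x ∈ L2}) p) ↔
      (τ (c 0) ∈ L0 ∧ τ (c 1) ∈ L1 ∧ τ (c 2) ∈ L2) := by
    intro c
    constructor
    · intro h
      exact ⟨by simpa using h 0, by simpa using h 1, by simpa using h 2⟩
    · rintro ⟨h0, h1, h2⟩ p
      fin_cases p
      · simpa using h0
      · simpa using h1
      · simpa using h2
  cases b
  · refine C.congr (C.restrict (fun p : Fin 3 => {x : Fin 3 | if p = 0 then τ x ∈ L0
      else if p = 1 then τ x ∈ L1 else τ x ∈ L2}) h2) fun c => ?_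
    rw [hL c, ← hinj c]
    constructor
    · rintro ⟨hc, hl⟩
      refine ⟨hl, ?_⟩
      rcases ha c hc with h | h
      · exact h
      · exfalso
        rw [h 0, h 1, h 2] at hl
        rcases hb rfl with h' | h' | h'
        · exact h' hl.1
        · exact h' hl.2.1
        · exact h' hl.2.2
    · rintro ⟨hl, hc⟩
      exact ⟨hR c hc, hl⟩
  · refine C.congr (C.restrict (fun p : Fin 3 => {x : Fin 3 | if p = 0 then τ x ∈ L0
      else if p = 1 then τ x ∈ L1 else τ x ∈ L2}) h1) fun c => ?_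
    rw [hL c, ← hinj c]
    exact and_comm

private theorem base2 (C : Clone (Fin 3)) (τ : Equiv.Perm (Fin 3)) {b : Bool}
    {Q : Fin 3 → Fin 3 → Fin 3 → Prop} {K : Fin 3 → Fin 3 → Prop}
    (h : C.mem (Fin 3) (fun _ => b) (fun c => Q (τ (c 0)) (τ (c 1)) (τ (c 2))))
    (hK : ∀ x y, (∃ z, Q x y z) ↔ K x y) :
    C.mem Bool (fun _ => b) (fun c => K (τ (c true)) (τ (c false))) := by
  have h' := C.reindex e3t h
  have h'' : C.mem (Bool ⊕ Unit) (Sum.elim (fun _ => b) (fun _ => b))
      (fun c => Q (τ ((c ∘ e3t.symm) 0)) (τ ((c ∘ e3t.symm) 1)) (τ ((c ∘ e3t.symm) 2))) := by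
    convert h' using 1
    funext x
    rcases x with x | u <;> rfl
  refine C.congr (C.proj h'') fun c => ?_
  rw [← hK]
  constructor
  · rintro ⟨z, hz⟩
    exact ⟨τ (z ()), by simpa [e3t] using hz⟩
  · rintro ⟨z, hz⟩
    exact ⟨fun _ => τ.symm z, by simpa [e3t] using hz⟩

private theorem bmem2 (C : Clone (Fin 3)) (τ : Equiv.Perm (Fin 3)) {sg : Bool → Bool}
    {K : Fin 3 → Fin 3 → Prop} (R : Bool → Bool → Prop)
    (h : C.mem Bool sg (fun c => K (τ (c true)) (τ (c false))))
    (hK : ∀ x y, K x y ↔ ∃ b1 b2 : Bool, R b1 b2 ∧ x = (if b1 then 0 else 1) ∧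
      y = (if b2 then 0 else 1)) :
    C.BMem (τ.symm 0) (τ.symm 1) Bool sg (fun b => R (b true) (b false)) := by
  refine C.congr h fun c => ?_
  rw [hK]
  have hcol : ∀ (x : Fin 3) (t : Bool), x = col (τ.symm 0) (τ.symm 1) t ↔
      τ x = (if t then 0 else 1) := by
    intro x t
    cases t <;> simp [col, Equiv.eq_symm_apply]
  constructor
  · rintro ⟨b1, b2, hr, hx, hy⟩
    refine ⟨fun i => if i then b1 else b2, by simpa using hr, fun p => ?_⟩
    rw [hcol]
    cases p
    · simpa using hy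
    · simpa using hx
  · rintro ⟨t, hr, ht⟩
    exact ⟨t true, t false, hr, (hcol _ _).1 (ht true), (hcol _ _).1 (ht false)⟩

private theorem bmem3 (C : Clone (Fin 3)) (τ : Equiv.Perm (Fin 3)) {sg : Fin 3 → Bool}
    {K : Fin 3 → Fin 3 → Fin 3 → Prop} (R : Bool → Bool → Bool → Prop)
    (h : C.mem (Fin 3) sg (fun c => K (τ (c 0)) (τ (c 1)) (τ (c 2))))
    (hK : ∀ x y z, K x y z ↔ ∃ b1 b2 b3 : Bool, R b1 b2 b3 ∧ x = (if b1 then 0 else 1) ∧
      y = (if b2 then 0 else 1) ∧ z = (if b3 then 0 else 1)) :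
    C.BMem (τ.symm 0) (τ.symm 1) (Fin 3) sg (fun b => R (b 0) (b 1) (b 2)) := by
  refine C.congr h fun c => ?_
  rw [hK]
  have hcol : ∀ (x : Fin 3) (t : Bool), x = col (τ.symm 0) (τ.symm 1) t ↔
      τ x = (if t then 0 else 1) := by
    intro x t
    cases t <;> simp [col, Equiv.eq_symm_apply]
  constructor
  · rintro ⟨b1, b2, b3, hr, hx, hy, hz⟩
    refine ⟨![b1, b2, b3], by simpa using hr, fun p => ?_⟩
    rw [hcol]
    fin_cases p
    · exact hx
    · exact hy
    · exact hz
  · rintro ⟨t, hr, ht⟩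
    exact ⟨t 0, t 1, t 2, hr, (hcol _ _).1 (ht 0), (hcol _ _).1 (ht 1), (hcol _ _).1 (ht 2)⟩

private abbrev A0102 (x y : Fin 3) : Prop := (x = 0 ∧ y = 2) ∨ (x = 1 ∧ y = 0)

private abbrev A0212 (x y : Fin 3) : Prop := (x = 2 ∧ y = 1) ∨ (x = 0 ∧ y = 2)

private abbrev A0112 (x y : Fin 3) : Prop := (x = 0 ∧ y = 1) ∨ (x = 1 ∧ y = 2)

private abbrev ANt (x y : Fin 3) : Prop := (x = 0 ∧ y = 1) ∨ (x = 1 ∧ y = 0)

private abbrev ASw (x y : Fin 3) : Prop := (x = 2 ∧ y = 0) ∨ (x = 2 ∧ y = 1) ∨ (x = 0 ∧ y = 2)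

private abbrev AEq (x y : Fin 3) : Prop := (x = 0 ∧ y = 0) ∨ (x = 1 ∧ y = 1)

private abbrev AQ3 (x y z : Fin 3) : Prop :=
  (x = 0 ∧ y = 0 ∧ z = 0) ∨ (x = 1 ∧ y = 1 ∧ z = 1)

private abbrev AO1 (x y z : Fin 3) : Prop :=
  (x = 2 ∧ y = 0 ∧ z = 0) ∨ (x = 2 ∧ y = 1 ∧ z = 1) ∨ (x = 0 ∧ y = 1 ∧ z = 0)

private abbrev AO2 (x y z : Fin 3) : Prop :=
  (x = 0 ∧ y = 0 ∧ z = 1) ∨ (x = 0 ∧ y = 1 ∧ z = 0) ∨ (x = 1 ∧ y = 1 ∧ z = 1)

private abbrev AO3 (x y z : Fin 3) : Prop :=
  (x = 1 ∧ y = 0 ∧ z = 1) ∨ (x = 1 ∧ y = 1 ∧ z = 0) ∨ (x = 0 ∧ y = 1 ∧ z = 1)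

set_option synthInstance.maxSize 4000 in
/-- The case of three colours. -/
theorem basic_of_three (C : Clone (Fin 3))
    (h1 : C.mem (Fin 3) (fun _ => true) (fun c => Function.Injective c))
    (h2 : ∃ R, C.mem (Fin 3) (fun _ => false) R ∧ (∀ c, Function.Injective c → R c) ∧
      ∃ a, ∀ c, R c → Function.Injective c ∨ ∀ p, c p = a) :
    ∃ T F, C.Basic T F := by
  obtain ⟨R0, h2, hR, a, ha⟩ := h2
  obtain ⟨τ, hτ⟩ : ∃ τ : Equiv.Perm (Fin 3), τ a ≠ 2 := by
    by_cases h : a = 2
    · exact ⟨Equiv.swap 0 2, by rw [h, Equiv.swap_apply_right]; decide⟩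
    · exact ⟨Equiv.refl _, h⟩
  have hτ' : τ a = 0 ∨ τ a = 1 := by
    generalize τ a = x at hτ
    revert x
    decide
  have base := base3 C τ h1 h2 hR ha
  -- the binary relations
  have j0102 : ∀ b, C.mem Bool (fun _ => b) (fun c => A0102 (τ (c true)) (τ (c false))) := by
    intro b
    refine base2 C τ (K := A0102) (Q := fun x y z => (x ∈ ({0, 1} : Finset (Fin 3)) ∧
      y ∈ ({0, 2} : Finset (Fin 3)) ∧ z ∈ ({1, 2} : Finset (Fin 3))) ∧ x ≠ y ∧ x ≠ z ∧ y ≠ z)
      (base b {0, 1} {0, 2} {1, 2} ?_) (by decide)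
    intro _
    rcases hτ' with h | h <;> rw [h] <;> decide
  have j0212 : ∀ b, C.mem Bool (fun _ => b) (fun c => A0212 (τ (c true)) (τ (c false))) := by
    intro b
    refine base2 C τ (K := A0212) (Q := fun x y z => (x ∈ ({0, 2} : Finset (Fin 3)) ∧
      y ∈ ({1, 2} : Finset (Fin 3)) ∧ z ∈ ({0, 1} : Finset (Fin 3))) ∧ x ≠ y ∧ x ≠ z ∧ y ≠ z)
      (base b {0, 2} {1, 2} {0, 1} ?_) (by decide)
    intro _
    rcases hτ' with h | h <;> rw [h] <;> decide
  have j0112 : ∀ b, C.mem Bool (fun _ => b) (fun c => A0112 (τ (c true)) (τ (c false))) := by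
    intro b
    refine base2 C τ (K := A0112) (Q := fun x y z => (x ∈ ({0, 1} : Finset (Fin 3)) ∧
      y ∈ ({1, 2} : Finset (Fin 3)) ∧ z ∈ ({0, 2} : Finset (Fin 3))) ∧ x ≠ y ∧ x ≠ z ∧ y ≠ z)
      (base b {0, 1} {1, 2} {0, 2} ?_) (by decide)
    intro _
    rcases hτ' with h | h <;> rw [h] <;> decide
  have nt : ∀ b, C.mem Bool (fun _ => b) (fun c => ANt (τ (c true)) (τ (c false))) := by
    intro b
    refine base2 C τ (K := ANt) (Q := fun x y z => (x ∈ ({0, 1} : Finset (Fin 3)) ∧
      y ∈ ({0, 1} : Finset (Fin 3)) ∧ z ∈ ({2} : Finset (Fin 3))) ∧ x ≠ y ∧ x ≠ z ∧ y ≠ z)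
      (base b {0, 1} {0, 1} {2} ?_) (by decide)
    intro _
    rcases hτ' with h | h <;> rw [h] <;> decide
  have sw : C.mem Bool (fun _ => true) (fun c => ASw (τ (c true)) (τ (c false))) := by
    refine base2 C τ (K := ASw) (Q := fun x y z => (x ∈ ({0, 2} : Finset (Fin 3)) ∧
      y ∈ (Finset.univ : Finset (Fin 3)) ∧ z ∈ ({0, 1} : Finset (Fin 3))) ∧ x ≠ y ∧ x ≠ z ∧ y ≠ z)
      (base true {0, 2} Finset.univ {0, 1} ?_) (by decide)
    intro h
    exact absurd h (by decide)
  have eq : ∀ b, C.mem Bool (fun _ => b) (fun c => AEq (τ (c true)) (τ (c false))) := by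
    intro b
    refine C.congr (wires2 C τ (R := A0212) (K1 := A0102) (K2 := A0112) (j0212 (!b)) (j0102 b) (j0112 b)) fun c => ?_
    generalize τ (c true) = x
    generalize τ (c false) = y
    revert x y
    decide
  -- the ternary relations
  have q3 : C.mem (Fin 3) (fun _ => false) (fun c => AQ3 (τ (c 0)) (τ (c 1)) (τ (c 2))) := by
    have hb := base true {0, 1} {0, 2} {1, 2} (fun h => absurd h (by decide))
    refine C.congr (wires3 C τ (b := false) (R := fun x y z => (x ∈ ({0, 1} : Finset (Fin 3)) ∧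
      y ∈ ({0, 2} : Finset (Fin 3)) ∧ z ∈ ({1, 2} : Finset (Fin 3))) ∧ x ≠ y ∧ x ≠ z ∧ y ≠ z)
      (K0 := AEq) (K1 := A0102) (K2 := A0112) hb (eq false) (j0102 false) (j0112 false)) fun c => ?_
    generalize τ (c 0) = x
    generalize τ (c 1) = y
    generalize τ (c 2) = z
    revert x y z
    decide
  have o1 : C.mem (Fin 3) (fun _ => true) (fun c => AO1 (τ (c 0)) (τ (c 1)) (τ (c 2))) := by
    have hb := base false Finset.univ {0, 2} {1, 2} (fun _ => by
      rcases hτ' with h | h <;> rw [h] <;> decide)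
    refine C.congr (wires3 C τ (b := true) (R := fun x y z => (x ∈ (Finset.univ : Finset (Fin 3)) ∧
      y ∈ ({0, 2} : Finset (Fin 3)) ∧ z ∈ ({1, 2} : Finset (Fin 3))) ∧ x ≠ y ∧ x ≠ z ∧ y ≠ z)
      (K0 := ASw) (K1 := A0102) (K2 := A0112) hb sw (j0102 true) (j0112 true)) fun c => ?_
    generalize τ (c 0) = x
    generalize τ (c 1) = y
    generalize τ (c 2) = z
    revert x y z
    decide
  have o2 : C.mem (Fin 3) (fun _ => false) (fun c => AO2 (τ (c 0)) (τ (c 1)) (τ (c 2))) := by
    refine C.congr (wires3 C τ (b := false) (R := AO1) (K0 := A0102) (K1 := AEq) (K2 := ANt) o1 (j0102 false)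
      (eq false) (nt false)) fun c => ?_
    generalize τ (c 0) = x
    generalize τ (c 1) = y
    generalize τ (c 2) = z
    revert x y z
    decide
  have o3 : C.mem (Fin 3) (fun _ => true) (fun c => AO3 (τ (c 0)) (τ (c 1)) (τ (c 2))) := by
    refine C.congr (wires3 C τ (b := true) (R := AO2) (K0 := ANt) (K1 := AEq) (K2 := AEq) o2 (nt true)
      (eq true) (eq true)) fun c => ?_
    generalize τ (c 0) = x
    generalize τ (c 1) = y
    generalize τ (c 2) = z
    revert x y z
    decide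
  refine ⟨τ.symm 0, τ.symm 1, by simp, ?_, ?_, ⟨fun _ => true, ?_⟩, ⟨fun _ => false, ?_⟩,
    ⟨fun _ => true, ?_⟩⟩
  · exact bmem2 C τ (K := AEq) (fun s t => s = t) (eq true) (by decide)
  · exact bmem2 C τ (K := AEq) (fun s t => s = t) (eq false) (by decide)
  · exact bmem2 C τ (K := ANt) (fun s t => s = !t) (nt true) (by decide)
  · exact bmem3 C τ (K := AQ3) (fun r s t => r = s ∧ s = t) q3 (by decide)
  · refine C.congr (bmem3 C τ (K := AO3) (fun r s t => (r = true ∧ s = false ∧ t = false) ∨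
      (r = false ∧ s = true ∧ t = false) ∨ (r = false ∧ s = false ∧ t = true)) o3 (by decide))
      fun c => ?_
    have hcard : ∀ t : Fin 3 → Bool, (Finset.univ.filter fun i => t i = true).card = 1 ↔
        ((t 0 = true ∧ t 1 = false ∧ t 2 = false) ∨
        (t 0 = false ∧ t 1 = true ∧ t 2 = false) ∨ (t 0 = false ∧ t 1 = false ∧ t 2 = true)) := by
      decide
    constructor
    · rintro ⟨t, ht, hc⟩
      exact ⟨t, (hcard t).2 ht, hc⟩
    · rintro ⟨t, ht, hc⟩
      exact ⟨t, (hcard t).1 ht, hc⟩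

end Clone

end Pool.Agent.Lib.MP_9c5086_lc
end
end

section

section

/-!
Walks with the same types.
-/

namespace Pool.Agent.Lib.MP_9c5086_lc

namespace Graph

variable {V E I : Type} {H : Graph V E} {t : V → I}

/-- The next dart of a walk with the same types. -/
private theorem next_dart_same [Finite E] (ht : H.Equitable t) (d0 d1 : H.Dart)
    (h01 : d1.src = d0.tgt) (hne : d1 ≠ d0.inv) (v : V) (hv : t v = t d0.tgt) (s0 : H.Dart)
    (hs0 : t s0.tgt = t d0.src) :
    ∃ s : H.Dart, s.src = v ∧ s ≠ s0 ∧ t s.tgt = t d1.tgt := by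
  by_cases hj : t d1.tgt = t d0.src
  · have h2 : 1 < H.classSize t v (t d1.tgt) := by
      rw [ht v d0.tgt hv]
      have hsub : ({d1, d0.inv} : Set H.Dart) ⊆
          {d : H.Dart | d.src = d0.tgt ∧ t d.tgt = t d1.tgt} := by
        rintro x (rfl | rfl)
        · exact ⟨h01, rfl⟩
        · exact ⟨by rw [Dart.src_inv], by rw [Dart.tgt_inv]; exact hj.symm⟩
      have h := Set.ncard_le_ncard hsub (Set.toFinite _)
      rw [Set.ncard_pair hne] at h
      exact h
    obtain ⟨s, hs, hn⟩ := Set.exists_ne_of_one_lt_ncard h2 s0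
    exact ⟨s, hs.1, hn, hs.2⟩
  · have h1 : 0 < H.classSize t v (t d1.tgt) := by
      rw [ht v d0.tgt hv]
      exact (Set.ncard_pos (Set.toFinite _)).2 ⟨d1, h01, rfl⟩
    obtain ⟨s, hs⟩ := (Set.ncard_pos (Set.toFinite _)).1 h1
    refine ⟨s, hs.1, ?_, hs.2⟩
    rintro rfl
    exact hj (hs.2 ▸ hs0)

/-- A walk with the same types in `H`. -/
theorem exists_walk_same [Finite E] (ht : H.Equitable t) (d : ℕ → H.Dart) (hd : NBWalk d)
    (e : H.Dart) (h1 : t e.src = t (d 0).src) (h2 : t e.tgt = t (d 0).tgt) :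
    ∃ d' : ℕ → H.Dart, d' 0 = e ∧ NBWalk d' ∧ ∀ r, t (d' r).tgt = t (d r).tgt := by
  have step : ∀ (r : ℕ) (e : {e : H.Dart // t e.src = t (d r).src ∧ t e.tgt = t (d r).tgt}),
      ∃ e' : {e : H.Dart // t e.src = t (d (r + 1)).src ∧ t e.tgt = t (d (r + 1)).tgt},
        e'.1.src = e.1.tgt ∧ e'.1 ≠ e.1.inv := by
    rintro r ⟨e, he1, he2⟩
    obtain ⟨s, hs1, hs2, hs3⟩ := next_dart_same ht (d r) (d (r + 1)) (hd r).1 (hd r).2 e.tgt he2
      e.inv (by rw [Dart.tgt_inv]; exact he1)
    exact ⟨⟨s, by rw [hs1, he2, (hd r).1], hs3⟩, hs1, hs2⟩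
  choose nx hnx1 hnx2 using step
  let D : ∀ r, {e : H.Dart // t e.src = t (d r).src ∧ t e.tgt = t (d r).tgt} :=
    fun r => Nat.rec ⟨e, h1, h2⟩ (fun r x => nx r x) r
  exact ⟨fun r => (D r).1, rfl, fun r => ⟨hnx1 r (D r), hnx2 r (D r)⟩, fun r => (D r).2.2⟩

end Graph

end Pool.Agent.Lib.MP_9c5086_lc
end

section

/-!
Ends without walks avoiding the block of `x`.
-/

namespace Pool.Agent.Lib.MP_9c5086_lc

namespace Graph

variable {V E I : Type} {H : Graph V E} {t : V → I}

/-- The indices of a walk which goes from `0` to `b` and then repeats the part from `a` to `b`. -/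
private def loopIdx (a b : ℕ) : ℕ → ℕ
  | 0 => 0
  | k + 1 => if loopIdx a b k = b then a else loopIdx a b k + 1

private theorem loopIdx_le {a b : ℕ} (h : a ≤ b) (k : ℕ) : loopIdx a b k ≤ b := by
  induction k with
  | zero => exact Nat.zero_le _
  | succ k ih =>
    simp only [loopIdx]
    split_ifs with h1
    · exact h
    · omega

/-- An end without walks avoiding the block of `x` contains a semi-edge. -/
theorem exists_semi_of_end (e : H.Dart)
    (hlone : ∀ d' : H.Dart, d'.src = e.src → d' ≠ e → d'.tgt ≠ e.src →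
      ¬ H.Off e.src e.tgt d'.tgt)
    (hC : ∀ v, H.Off e.src e.tgt v → t v ≠ t e.src)
    (hinf : ∃ d : ℕ → H.Dart, d 0 = e ∧ NBWalk d)
    (hno : ¬ InfAvoid H t e.src (t e.tgt)) :
    ∃ z e', H.Off e.src e.tgt z ∧ z ≠ e.src ∧ H.a e' = z ∧ H.b e' = none := by
  obtain ⟨d, h0, hw⟩ := hinf
  have hCx : ∀ v, H.Off e.src e.tgt v → v ≠ e.src := fun v h heq => hC v h (by rw [heq])
  have hkey : ∀ d' : H.Dart, H.Off e.src e.tgt d'.src → ¬ H.Off e.src e.tgt d'.tgt →
      d' = e.inv := by
    intro d' h1 h2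
    have h3 : d'.tgt = e.src := by
      by_contra h3
      exact h2 (Relation.ReflTransGen.tail h1 ⟨hCx _ h1, h3, d'.edge, d'.joins⟩)
    have h4 : d'.inv = e := by
      by_contra h4
      refine hlone d'.inv (by rw [Dart.src_inv, h3]) h4 ?_ ?_
      · rw [Dart.tgt_inv]
        exact hCx _ h1
      · rw [Dart.tgt_inv]
        exact h1
    rw [← h4, Dart.inv_inv]
  have hex : ∃ r, ¬ H.Off e.src e.tgt (d r).tgt := by
    by_contra hall
    push Not at hall
    exact hno ⟨d, by rw [h0], by rw [h0], hw, fun r => hC _ (hall r)⟩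
  obtain ⟨N, hN, hmin⟩ : ∃ N, ¬ H.Off e.src e.tgt (d N).tgt ∧
      ∀ r < N, H.Off e.src e.tgt (d r).tgt := by
    classical
    exact ⟨Nat.find hex, Nat.find_spec hex, fun r hr => not_not.mp (Nat.find_min hex hr)⟩
  have hN0 : N ≠ 0 := by
    rintro rfl
    apply hN
    rw [h0]
    exact Relation.ReflTransGen.refl
  obtain ⟨R, rfl⟩ := Nat.exists_eq_succ_of_ne_zero hN0
  rw [Nat.succ_eq_add_one] at hN hmin
  have hR1 : d (R + 1) = e.inv := by
    refine hkey _ ?_ hN
    rw [(hw R).1]
    exact hmin R (Nat.lt_succ_self R)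
  have hmain : ∀ m, 2 * m < R + 2 → d m = (d (R + 1 - m)).inv := by
    intro m
    induction m with
    | zero =>
      intro _
      rw [Nat.sub_zero, hR1, Dart.inv_inv, h0]
    | succ m ih =>
      intro hm
      have hm' := ih (by omega)
      have hidx : R + 1 - (m + 1) = R - m := by omega
      rw [hidx]
      by_contra hne
      have hsrc : (d (m + 1)).src = (d (R - m)).tgt := by
        rw [(hw m).1, hm', Dart.tgt_inv]
        have h5 : R + 1 - m = (R - m) + 1 := by omega
        rw [h5, (hw (R - m)).1]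
      have hle : m + 1 ≤ R - m := by omega
      refine hno ⟨fun k => d (loopIdx (m + 1) (R - m) k), ?_, ?_, ?_, ?_⟩
      · change (d 0).src = e.src
        rw [h0]
      · change t (d 0).tgt = t e.tgt
        rw [h0]
      · intro r
        change (d (loopIdx (m + 1) (R - m) (r + 1))).src = (d (loopIdx (m + 1) (R - m) r)).tgt ∧
          d (loopIdx (m + 1) (R - m) (r + 1)) ≠ (d (loopIdx (m + 1) (R - m) r)).inv
        have h6 : loopIdx (m + 1) (R - m) (r + 1) =
            if loopIdx (m + 1) (R - m) r = R - m then m + 1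
            else loopIdx (m + 1) (R - m) r + 1 := rfl
        by_cases h7 : loopIdx (m + 1) (R - m) r = R - m
        · rw [h6, if_pos h7, h7]
          exact ⟨hsrc, hne⟩
        · rw [h6, if_neg h7]
          exact hw _
      · intro r
        have h8 := loopIdx_le hle r
        exact hC _ (hmin _ (by omega))
  rcases Nat.even_or_odd' R with ⟨k, hk | hk⟩
  · exfalso
    have h9 := hmain k (by omega)
    have h10 : R + 1 - k = k + 1 := by omega
    rw [h10] at h9
    apply (hw k).2
    rw [h9, Dart.inv_inv]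
  · have h9 := hmain (k + 1) (by omega)
    have h10 : R + 1 - (k + 1) = k + 1 := by omega
    rw [h10] at h9
    have hb : H.b (d (k + 1)).edge = none := (Dart.inv_eq_self_iff _).mp h9.symm
    have hs : H.Off e.src e.tgt (d (k + 1)).src := by
      rw [(hw k).1]
      exact hmin k (by omega)
    refine ⟨(d (k + 1)).src, (d (k + 1)).edge, hs, hCx _ hs, ?_, hb⟩
    have hb' : H.b (d (k + 1)).1.1 = none := hb
    simp [Dart.src, Dart.edge, hb']

end Graph

end Pool.Agent.Lib.MP_9c5086_lc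
end

section

/-!
No walk avoids the block of `x`.
-/

namespace Pool.Agent.Lib.MP_9c5086_lc

namespace Graph

variable {V E I : Type} {H : Graph V E} {t : V → I}

private theorem exists_perm_three' : ∀ a b : Fin 3, a ≠ b →
    ∃ e : Equiv.Perm (Fin 3), e 0 = a ∧ e 2 = b := by
  decide

private theorem good_of_not_bad [Finite E] (ht : H.Equitable t)
    (x : V) (j : I) (hj : j ≠ t x) (hi : H.InfiniteClass t x j)
    (ha : ¬ InfAvoid H t x j) (y : V) (hy : t y = t x) (d : H.Dart) (hd : d.src = y)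
    (hdt : t d.tgt = j) (hbad : ¬ Bad H Set.univ {v | t v = t x} y d) : Good H t y d := by
  subst hd
  have htgt : d.tgt ≠ d.src := by
    intro h
    apply hj
    rw [← hdt, h, hy]
  by_cases hc : ∃ d' : H.Dart, d'.src = d.src ∧ d' ≠ d ∧ d'.tgt ≠ d.src ∧
      H.Off d.src d.tgt d'.tgt
  · exact Or.inr (Or.inl hc)
  · have hset : (Set.univ \ {d.src} : Set V) = {u | u ≠ d.src} := by
      ext u
      simp
    have huniq : ∀ d' : H.Dart, d'.src = d.src → d'.tgt ∈ (Set.univ : Set V) → d'.tgt ≠ d.src →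
        H.RConn (Set.univ \ {d.src}) d.tgt d'.tgt → d' = d := by
      intro d' h1 _ h2 h3
      by_contra hne
      rw [hset] at h3
      exact hc ⟨d', h1, hne, h2, h3⟩
    have hC : ∀ v, H.Off d.src d.tgt v → t v ≠ t d.src := by
      intro v hv hvt
      apply hbad
      refine ⟨rfl, trivial, htgt, huniq, v, ?_, ?_⟩
      · change t v = t x
        rw [hvt, hy]
      · rw [hset]
        exact hv
    obtain ⟨w, hw0, hw1, hw2⟩ := hi
    have hwalk : ∃ d' : ℕ → H.Dart, d' 0 = d ∧ NBWalk d' := by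
      obtain ⟨d', h1, h2, -⟩ := exists_walk_same ht w hw2 d (by rw [hw0, hy]) (by rw [hw1, hdt])
      exact ⟨d', h1, h2⟩
    have hno : ¬ InfAvoid H t d.src (t d.tgt) := by
      rintro ⟨w', hw0', hw1', hw2', hw3'⟩
      apply ha
      obtain ⟨w'', h1, h2, h3⟩ := exists_walk_same ht w' hw2' (w 0)
        (by rw [hw0, hw0', hy]) (by rw [hw1, hw1', hdt])
      refine ⟨w'', by rw [h1, hw0], by rw [h1, hw1], h2, fun r => ?_⟩
      rw [h3, ← hy]
      exact hw3' r
    have hsemi := exists_semi_of_end (t := t) d (fun d' h1 h2 h3 h4 => hc ⟨d', h1, h2, h3, h4⟩)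
      hC hwalk hno
    exact Or.inr (Or.inr ⟨hC, hsemi⟩)

/-- No walk avoids the block of `x`. -/
theorem outcome_finite [Finite V] [Finite E] (ht : H.Equitable t) (hH : H.Connected)
    (x : V) (j : I) (hj : j ≠ t x) (h3 : 3 ≤ H.classSize t x j) (hi : H.InfiniteClass t x j)
    (ha : ¬ InfAvoid H t x j) : Outcome H t := by
  classical
  obtain ⟨y, hy, hfew⟩ := exists_few_bad H Set.univ {v | t v = t x} (Set.subset_univ _)
    ⟨x, rfl⟩
  have hy' : t y = t x := hy
  have h3y : 2 < {d : H.Dart | d.src = y ∧ t d.tgt = j}.ncard := by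
    have h := ht y x hy' j
    unfold classSize at h h3
    omega
  have hfin : {d : H.Dart | d.src = y ∧ t d.tgt = j}.Finite := by
    by_contra hinf
    have h0 : {d : H.Dart | d.src = y ∧ t d.tgt = j}.ncard = 0 :=
      Set.Infinite.ncard hinf
    omega
  rw [Set.two_lt_ncard_iff hfin] at h3y
  obtain ⟨d0, d1, d2, h0, h1, h2, h01, h02, h12⟩ := h3y
  obtain ⟨d, hd, hdinj⟩ : ∃ d : Fin 3 → H.Dart, (∀ a, (d a).src = y ∧ t (d a).tgt = j) ∧
      Function.Injective d := by
    refine ⟨![d0, d1, d2], ?_, ?_⟩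
    · intro a
      fin_cases a
      · exact h0
      · exact h1
      · exact h2
    · intro a b hab
      fin_cases a <;> fin_cases b <;> simp_all
  have htgt : ∀ a, (d a).tgt ≠ y := by
    intro a hh
    apply hj
    rw [← (hd a).2, hh, hy']
  have hedge : ∀ a b, (d a).edge = (d b).edge → a = b := by
    intro a b hab
    rcases Dart.eq_or_inv hab with h | h
    · exact (hdinj h).symm
    · exfalso
      apply htgt a
      rw [← Dart.src_inv, ← h]
      exact (hd b).1
  have hgood : ∀ a, ¬ Bad H Set.univ {v | t v = t x} y (d a) → Good H t y (d a) := fun a hb =>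
    good_of_not_bad ht x j hj hi ha y hy' (d a) (hd a).1 (hd a).2 hb
  obtain ⟨a, b, hab, hna, hnb⟩ : ∃ a b : Fin 3, a ≠ b ∧
      ¬ Bad H Set.univ {v | t v = t x} y (d a) ∧ ¬ Bad H Set.univ {v | t v = t x} y (d b) := by
    by_cases hb0 : Bad H Set.univ {v | t v = t x} y (d 0)
    · refine ⟨1, 2, by decide, fun h => ?_, fun h => ?_⟩
      · exact absurd (hdinj (hfew _ _ hb0 h)) (by decide)
      · exact absurd (hdinj (hfew _ _ hb0 h)) (by decide)
    · by_cases hb1 : Bad H Set.univ {v | t v = t x} y (d 1)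
      · refine ⟨0, 2, by decide, hb0, fun h => ?_⟩
        exact absurd (hdinj (hfew _ _ hb1 h)) (by decide)
      · exact ⟨0, 1, by decide, hb0, hb1⟩
  obtain ⟨e, he0, he2⟩ := exists_perm_three' a b hab
  refine outcome_of_good ht hH y j (fun i => d (e i)) (fun i => hd (e i)) ?_ ?_ ?_
  · intro i i' h
    exact e.injective (hedge _ _ h)
  · rw [he0]
    exact hgood a hna
  · rw [he2]
    exact hgood b hnb

end Graph

end Pool.Agent.Lib.MP_9c5086_lc
end
end
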