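import Pool.Agent.Lib.MP_9c5086_lc.Glue
import Pool.Agent.Lib.MP_9c5086_lc.CGadDefs
import Pool.Agent.Lib.MP_9c5086_lc.EmbDefs
import Pool.Agent.Lib.MP_9c5086_lc.CloneAll
import Pool.Agent.Lib.MP_9c5086_lc.Basic
import Pool.Agent.Lib.MP_9c5086_lc.CoverIff
import Pool.Agent.Lib.MP_9c5086_lc.TorusGlue
import Pool.Agent.Lib.MP_9c5086_lc.CAlg
import Pool.Agent.Lib.MP_9c5086_lc.PMDisj
import Pool.Agent.Lib.MP_9c5086_lc.CRef
import Pool.Agent.Lib.MP_9c5086_lc.GConv

section

/-!
Looking up the components of an instance in its data.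
-/

namespace Pool.Agent.Lib.MP_9c5086_lc

private theorem gl_getD {α : Type} {n : ℕ} (g : Fin n → α) (i : Fin n) (d : α) :
    (List.ofFn g).getD (i : ℕ) d = g i := by
  rw [List.getD_eq_getElem _ _ (by rw [List.length_ofFn]; exact i.2), List.getElem_ofFn]

private theorem gl_bits {p : ℕ} (S : Finset (Fin p)) (x : Fin p) :
    (bitsOf S).getD (x : ℕ) false = true ↔ x ∈ S := by
  unfold bitsOf
  rw [gl_getD, decide_eq_true_iff]

private theorem gl_mem {p : ℕ} (S : Finset (Fin p)) : true ∈ bitsOf S ↔ ∃ x, x ∈ S := by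
  unfold bitsOf
  rw [List.mem_ofFn]
  simp

private theorem gl_idx {p : ℕ} (v : Fin p) : (bitsOf {v}).idxOf true = (v : ℕ) := by
  have h1 : true ∈ bitsOf ({v} : Finset (Fin p)) := (gl_mem _).2 ⟨v, by simp⟩
  have h2 := List.idxOf_lt_length_of_mem h1
  have h3 : (bitsOf ({v} : Finset (Fin p)))[(bitsOf ({v} : Finset (Fin p))).idxOf true] = true :=
    List.getElem_idxOf h2
  have h4 : (bitsOf ({v} : Finset (Fin p))).idxOf true < p := by
    have h5 : (bitsOf ({v} : Finset (Fin p))).length = p := by
      unfold bitsOf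
      exact List.length_ofFn
    rwa [h5] at h2
  have h5 := (gl_bits {v} ⟨_, h4⟩).1 (by
    rw [List.getD_eq_getElem _ _ h2]
    exact h3)
  rw [Finset.mem_singleton] at h5
  exact congrArg Fin.val h5

variable {p q : ℕ} (I : GInst p q)

private theorem gl_row (f : Fin I.m) :
    rowE I.data f = [bitsOf (I.Le f), bitsOf {I.G.a f}, bitsOf (I.G.b f).toFinset] := by
  unfold rowE GInst.data
  rw [List.tail_cons, gl_getD]

theorem aI_data (f : Fin I.m) : aI I.data f = (I.G.a f : ℕ) := by
  unfold aI
  rw [gl_row]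
  exact gl_idx _

theorem sI_data (f : Fin I.m) : sI I.data f = true ↔ I.G.b f = none := by
  unfold sI
  rw [gl_row, Bool.not_eq_true', decide_eq_false_iff_not]
  change ¬ true ∈ bitsOf (I.G.b f).toFinset ↔ _
  rw [gl_mem, not_exists]
  cases h : I.G.b f with
  | none => simp
  | some w => simp

theorem bI_data (f : Fin I.m) (w : Fin I.n) (h : I.G.b f = some w) : bI I.data f = (w : ℕ) := by
  unfold bI
  rw [gl_row, h, Option.toFinset_some]
  exact gl_idx _

theorem Vs_data : (rawLG p q I.data).Vs = List.range I.n := by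
  have h : (I.data.headD []).length = I.n := List.length_ofFn
  change List.range (I.data.headD []).length = _
  rw [h]

private theorem gl_tail : I.data.tail.length = I.m := List.length_ofFn

/-- The darts in the data. -/
theorem mem_Ds_data (d : ℕ × Bool) : d ∈ (rawLG p q I.data).Ds ↔
    ∃ d' : I.G.Dart, d = ((d'.edge : ℕ), d'.1.2) := by
  change d ∈ (List.range I.data.tail.length).flatMap (fun f =>
    if sI I.data f = true then [(f, false)] else [(f, false), (f, true)]) ↔ _
  rw [gl_tail, List.mem_flatMap]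
  constructor
  · rintro ⟨f, hf, hd⟩
    rw [List.mem_range] at hf
    by_cases hs : sI I.data f = true
    · rw [if_pos hs, List.mem_singleton] at hd
      exact ⟨⟨(⟨f, hf⟩, false), fun h => absurd h (by simp)⟩, hd⟩
    · rw [if_neg hs, List.mem_cons, List.mem_singleton] at hd
      rcases hd with hd | hd
      · exact ⟨⟨(⟨f, hf⟩, false), fun h => absurd h (by simp)⟩, hd⟩
      · refine ⟨⟨(⟨f, hf⟩, true), fun _ => ?_⟩, hd⟩
        have h1 := (sI_data I ⟨f, hf⟩).not.1 hs
        exact Option.isSome_iff_ne_none.2 h1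
  · rintro ⟨⟨⟨f, c⟩, hc⟩, rfl⟩
    refine ⟨(f : ℕ), List.mem_range.2 f.2, ?_⟩
    by_cases hs : sI I.data f = true
    · rw [if_pos hs, List.mem_singleton]
      have h1 := (sI_data I f).1 hs
      cases c with
      | false => rfl
      | true =>
        have h2 : (I.G.b f).isSome = true := hc rfl
        rw [h1] at h2
        exact absurd h2 (by simp)
    · rw [if_neg hs, List.mem_cons, List.mem_singleton]
      cases c with
      | false => exact Or.inl rfl
      | true => exact Or.inr rfl

theorem src_data (d : I.G.Dart) :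
    (rawLG p q I.data).src ((d.edge : ℕ), d.1.2) = (d.src : ℕ) := by
  obtain ⟨⟨f, c⟩, hc⟩ := d
  change (if c = true then bI I.data f else aI I.data f) =
    ((if c then (I.G.b f).getD (I.G.a f) else I.G.a f : Fin I.n) : ℕ)
  cases c with
  | false => exact aI_data I f
  | true =>
    have h2 : (I.G.b f).isSome = true := hc rfl
    obtain ⟨w, hw⟩ := Option.isSome_iff_exists.1 h2
    rw [if_pos rfl, if_pos rfl, hw, bI_data I f w hw]
    rfl

theorem inv_data (d : I.G.Dart) :
    (rawLG p q I.data).inv ((d.edge : ℕ), d.1.2) = ((d.inv.edge : ℕ), d.inv.1.2) := by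
  obtain ⟨⟨f, c⟩, hc⟩ := d
  change (if sI I.data f = true then ((f : ℕ), c) else ((f : ℕ), !c)) = _
  by_cases hs : sI I.data f = true
  · have h1 := (sI_data I f).1 hs
    have h2 : Graph.Dart.inv (⟨(f, c), hc⟩ : I.G.Dart) = ⟨(f, c), hc⟩ := by
      unfold Graph.Dart.inv
      rw [dif_neg]
      change ¬ (I.G.b f).isSome = true
      rw [h1]
      simp
    rw [if_pos hs, h2]
    rfl
  · have h1 := (sI_data I f).not.1 hs
    have h3 : (I.G.b f).isSome = true := Option.isSome_iff_ne_none.2 h1
    have h2 : Graph.Dart.inv (⟨(f, c), hc⟩ : I.G.Dart) = ⟨(f, !c), fun _ => h3⟩ := by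
      unfold Graph.Dart.inv
      rw [dif_pos h3]
    rw [if_neg hs, h2]
    rfl

theorem Lv_data (u : Fin I.n) (x : Fin p) : (rawLG p q I.data).Lv u x = true ↔ x ∈ I.Lv u := by
  change (((List.ofFn fun u => bitsOf (I.Lv u)).getD u []).getD x false = true) ↔ _
  rw [gl_getD, gl_bits]

theorem Le_data (f : Fin I.m) (c : Bool) (e : Fin q) :
    (rawLG p q I.data).Le ((f : ℕ), c) e = true ↔ e ∈ I.Le f := by
  change (((rowE I.data f).getD 0 []).getD e false = true) ↔ _
  rw [gl_row]
  exact gl_bits _ _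

theorem nodup_data : (rawLG p q I.data).Ds.Nodup ∧ (rawLG p q I.data).Vs.Nodup := by
  constructor
  · change ((List.range I.data.tail.length).flatMap (fun f =>
      if sI I.data f = true then [(f, false)] else [(f, false), (f, true)])).Nodup
    have hm : ∀ (f : ℕ) (d : ℕ × Bool), d ∈ (if sI I.data f = true then [(f, false)] else
        [(f, false), (f, true)]) → d.1 = f := by
      intro f d hd
      by_cases hs : sI I.data f = true
      · rw [if_pos hs, List.mem_singleton] at hd
        rw [hd]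
      · rw [if_neg hs, List.mem_cons, List.mem_singleton] at hd
        rcases hd with hd | hd <;> rw [hd]
    rw [List.nodup_flatMap]
    constructor
    · intro f _
      by_cases hs : sI I.data f = true
      · rw [if_pos hs]
        exact List.nodup_singleton _
      · rw [if_neg hs]
        simp
    · refine (List.nodup_range (n := I.data.tail.length)).imp ?_
      intro f f' hne d hd hd'
      exact hne ((hm f d hd).symm.trans (hm f' d hd'))
  · rw [Vs_data]
    exact List.nodup_range

theorem ok_data : (rawLG p q I.data).Ok := by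
  refine ⟨?_, ?_, ?_, ?_⟩
  · intro d hd
    obtain ⟨d', rfl⟩ := (mem_Ds_data I d).1 hd
    rw [src_data, Vs_data, List.mem_range]
    exact d'.src.2
  · intro d hd
    obtain ⟨d', rfl⟩ := (mem_Ds_data I d).1 hd
    rw [inv_data]
    exact (mem_Ds_data I _).2 ⟨d'.inv, rfl⟩
  · intro d hd
    obtain ⟨d', rfl⟩ := (mem_Ds_data I d).1 hd
    rw [inv_data, inv_data, Graph.Dart.inv_inv]
  · intro d hd
    obtain ⟨d', rfl⟩ := (mem_Ds_data I d).1 hd
    rw [inv_data]
    funext e
    have h1 := Le_data I d'.inv.edge d'.inv.1.2 e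
    have h2 := Le_data I d'.edge d'.1.2 e
    have h3 : d'.inv.edge = d'.edge := by
      unfold Graph.Dart.inv
      split
      · rfl
      · rfl
    rw [h3] at h1
    rw [h3]
    exact Bool.eq_iff_iff.2 (h1.trans h2.symm)

end Pool.Agent.Lib.MP_9c5086_lc
end

section

section

/-!
The case of two colours.
-/

namespace Pool.Agent.Lib.MP_9c5086_lc

namespace Clone

private def e3 : Bool ⊕ Unit ≃ Fin 3 where
  toFun := Sum.elim (fun b => if b then 0 else 1) (fun _ => 2)
  invFun := fun i => if i = 0 then Sum.inl true else if i = 1 then Sum.inl false else Sum.inr ()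
  left_inv := by
    rintro (b | u)
    · cases b <;> simp
    · simp
  right_inv := by
    intro i
    fin_cases i <;> simp

private def e3' : Bool ⊕ Unit ≃ Fin 3 where
  toFun := Sum.elim (fun b => if b then 0 else 2) (fun _ => 1)
  invFun := fun i => if i = 0 then Sum.inl true else if i = 2 then Sum.inl false else Sum.inr ()
  left_inv := by
    rintro (b | u)
    · cases b <;> simp
    · simp
  right_inv := by
    intro i
    fin_cases i <;> simp

private def e2 : Unit ⊕ Unit ≃ Bool where
  toFun := Sum.elim (fun _ => true) (fun _ => false)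
  invFun := fun i => if i then Sum.inl () else Sum.inr ()
  left_inv := by
    rintro (b | u) <;> simp
  right_inv := by
    intro i
    cases i <;> simp

private theorem two (C : Clone Bool) {sg : Fin 3 → Bool} {R : (Fin 3 → Bool) → Prop}
    (h : C.mem (Fin 3) sg R) :
    C.mem Bool (fun i => if i then sg 0 else sg 1) (fun c => ∃ z : Bool, R ![c true, c false, z]) := by
  have h' := C.reindex e3 h
  have h'' : C.mem (Bool ⊕ Unit) (Sum.elim (fun i => if i then sg 0 else sg 1) (fun _ => sg 2))
      (fun c => R (c ∘ e3.symm)) := by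
    convert h' using 1
    funext x
    rcases x with b | u
    · cases b <;> simp [e3]
    · simp [e3]
  refine C.congr (C.proj h'') fun c => ?_
  constructor
  · rintro ⟨z, hz⟩
    refine ⟨z (), ?_⟩
    convert hz using 1
    funext i
    fin_cases i <;> simp [e3]
  · rintro ⟨z, hz⟩
    refine ⟨fun _ => z, ?_⟩
    convert hz using 1
    funext i
    fin_cases i <;> simp [e3]

private theorem two' (C : Clone Bool) {sg : Fin 3 → Bool} {R : (Fin 3 → Bool) → Prop}
    (h : C.mem (Fin 3) sg R) :
    C.mem Bool (fun i => if i then sg 0 else sg 2) (fun c => ∃ z : Bool, R ![c true, z, c false]) := by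
  have h' := C.reindex e3' h
  have h'' : C.mem (Bool ⊕ Unit) (Sum.elim (fun i => if i then sg 0 else sg 2) (fun _ => sg 1))
      (fun c => R (c ∘ e3'.symm)) := by
    convert h' using 1
    funext x
    rcases x with b | u
    · cases b <;> simp [e3']
    · simp [e3']
  refine C.congr (C.proj h'') fun c => ?_
  constructor
  · rintro ⟨z, hz⟩
    refine ⟨z (), ?_⟩
    convert hz using 1
    funext i
    fin_cases i <;> simp [e3']
  · rintro ⟨z, hz⟩
    refine ⟨fun _ => z, ?_⟩
    convert hz using 1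
    funext i
    fin_cases i <;> simp [e3']

private theorem bmem (C : Clone Bool) {P : Type} {sg : P → Bool} {R : (P → Bool) → Prop}
    (h : C.mem P sg R) : C.BMem true false P sg R := by
  refine C.congr h fun c => ?_
  constructor
  · intro hc
    exact ⟨c, hc, fun p => by simp [col]⟩
  · rintro ⟨b, hb, hc⟩
    have : c = b := by
      funext p
      rw [hc p]
      simp [col]
    rwa [this]

private theorem card_aux (a b z : Bool) :
    (Finset.univ.filter fun i : Fin 3 => (![a, b, z] : Fin 3 → Bool) i = true).card = 1 ↔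
      ((a = true ∧ b = false ∧ z = false) ∨ (a = false ∧ b = true ∧ z = false) ∨
        (a = false ∧ b = false ∧ z = true)) := by
  cases a <;> cases b <;> cases z <;> decide

/-- The case of two colours. -/
theorem basic_of_two (C : Clone Bool)
    (h1 : C.mem (Fin 3) (fun _ => true) (fun c => (Finset.univ.filter fun i => c i = true).card = 1))
    (h2 : C.mem (Fin 3) (fun _ => false) (fun c => c 0 = c 1 ∧ c 2 = !c 0)) :
    C.Basic true false := by
  have notpp : C.mem Bool (fun _ => true) (fun c => c true = !c false) := by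
    have h := C.two (C.restrict (fun p : Fin 3 => {x : Bool | p = 2 → x = false}) h1)
    have h' : C.mem Bool (fun _ => true) (fun c => ∃ z : Bool,
        (Finset.univ.filter fun i => (![c true, c false, z] : Fin 3 → Bool) i = true).card = 1 ∧
        ∀ p, (![c true, c false, z] : Fin 3 → Bool) p ∈ {x : Bool | p = 2 → x = false}) := by
      convert h using 1
      funext i
      cases i <;> rfl
    refine C.congr h' fun c => ?_
    constructor
    · rintro ⟨z, hz, hr⟩
      have hz2 : z = false := by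
        have := hr 2
        simpa using this
      rw [card_aux] at hz
      subst hz2
      rcases hz with ⟨h1, h2, _⟩ | ⟨h1, h2, _⟩ | ⟨_, _, h3⟩
      · rw [h1, h2]; rfl
      · rw [h1, h2]; rfl
      · exact absurd h3 (by decide)
    · intro hc
      refine ⟨false, ?_, ?_⟩
      · rw [card_aux]
        cases hf : c false
        · left
          rw [hc, hf]
          decide
        · right; left
          rw [hc, hf]
          decide
      · intro p
        fin_cases p <;> simp
  have eqnn : C.mem Bool (fun _ => false) (fun c => c true = c false) := by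
    have h := C.two h2
    have h' : C.mem Bool (fun _ => false) (fun c => ∃ z : Bool,
        (![c true, c false, z] : Fin 3 → Bool) 0 = (![c true, c false, z] : Fin 3 → Bool) 1 ∧
        (![c true, c false, z] : Fin 3 → Bool) 2 = !(![c true, c false, z] : Fin 3 → Bool) 0) := by
      convert h using 1
      funext i
      cases i <;> rfl
    refine C.congr h' fun c => ?_
    constructor
    · rintro ⟨z, hz, _⟩
      simpa using hz
    · intro hc
      exact ⟨!c true, by simpa using hc, by simp⟩
  have eqpp : C.mem Bool (fun _ => true) (fun c => c true = c false) := by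
    refine C.congr (C.wires (sg' := fun _ => true) (K := fun _ a b => a = !b) eqnn fun _ => ?_)
      fun c => ?_
    · convert notpp using 2 with i
      cases i <;> rfl
    · constructor
      · rintro ⟨z, h1, h2⟩
        rw [h2, h2, h1]
      · intro h
        exact ⟨fun i => !c i, by simpa using h, fun p => by simp⟩
  have eq3 : C.mem (Fin 3) (Sum.elim (fun _ => false) (fun _ => true) ∘ e3.symm)
      (fun b => b 0 = b 1 ∧ b 1 = b 2) := by
    have ha : C.mem (Bool ⊕ Unit) (Sum.elim (fun _ => false) (fun _ => false))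
        (fun c => (c ∘ e3.symm) 0 = (c ∘ e3.symm) 1 ∧ (c ∘ e3.symm) 2 = !(c ∘ e3.symm) 0) := by
      convert C.reindex e3 h2 using 1
      funext x
      rcases x with b | u <;> rfl
    have hb : C.mem (Unit ⊕ Unit) (Sum.elim (fun _ => true) (fun _ => !false))
        (fun c => (c ∘ e2.symm) true = !(c ∘ e2.symm) false) := by
      convert C.reindex e2 notpp using 1
      funext x
      rcases x with b | u <;> rfl
    have hc := C.comp ha hb
    have hd := C.reindex e3.symm hc
    refine C.congr hd fun c => ?_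
    constructor
    · rintro ⟨z, ⟨h3, h4⟩, h5⟩
      simp [e3, e2] at h3 h4 h5
      refine ⟨h3, ?_⟩
      rw [← h3, h5, h4]
      simp
    · rintro ⟨h3, h4⟩
      refine ⟨!c 0, ⟨?_, ?_⟩, ?_⟩
      · simpa [e3] using h3
      · simp [e3]
      · simp [e3, e2]
        rw [h3, h4]
  exact ⟨by decide, bmem C eqpp, bmem C eqnn, ⟨_, bmem C notpp⟩, ⟨_, bmem C eq3⟩, ⟨_, bmem C h1⟩⟩

end Clone

end Pool.Agent.Lib.MP_9c5086_lc
end

section

/-!
The component of a vertex.
-/

namespace Pool.Agent.Lib.MP_9c5086_lc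

namespace Graph

variable {V E V₀ E₀ I : Type}

/-- Darts of a union of components. -/
private def cmpD {H₀ : Graph V₀ E₀} {H : Graph V E} (em : Emb H₀ H) (d : H₀.Dart) : H.Dart :=
  ⟨(em.je d.1.1, d.1.2), fun h => by
    have h1 := d.2 h
    rw [em.b_je, Option.isSome_map]
    exact h1⟩

private theorem cmpD_inj {H₀ : Graph V₀ E₀} {H : Graph V E} (em : Emb H₀ H) :
    Function.Injective (cmpD em) := by
  intro d d' h
  have h1 := congrArg Subtype.val h
  simp only [cmpD, Prod.mk.injEq] at h1
  apply Subtype.ext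
  exact Prod.ext (em.je_inj h1.1) h1.2

private theorem cmpD_edge {H₀ : Graph V₀ E₀} {H : Graph V E} (em : Emb H₀ H) (d : H₀.Dart) :
    (cmpD em d).edge = em.je d.edge := rfl

private theorem cmp_getD {H₀ : Graph V₀ E₀} {H : Graph V E} (em : Emb H₀ H) (e : E₀) :
    (H.b (em.je e)).getD (H.a (em.je e)) = em.jv ((H₀.b e).getD (H₀.a e)) := by
  rw [em.b_je, em.a_je]
  cases H₀.b e <;> rfl

private theorem cmpD_src {H₀ : Graph V₀ E₀} {H : Graph V E} (em : Emb H₀ H) (d : H₀.Dart) :
    (cmpD em d).src = em.jv d.src := by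
  obtain ⟨⟨e, k⟩, hd⟩ := d
  cases k
  · exact em.a_je e
  · exact cmp_getD em e

private theorem cmpD_tgt {H₀ : Graph V₀ E₀} {H : Graph V E} (em : Emb H₀ H) (d : H₀.Dart) :
    (cmpD em d).tgt = em.jv d.tgt := by
  obtain ⟨⟨e, k⟩, hd⟩ := d
  cases k
  · exact cmp_getD em e
  · exact em.a_je e

private theorem cmpD_inv {H₀ : Graph V₀ E₀} {H : Graph V E} (em : Emb H₀ H) (d : H₀.Dart) :
    cmpD em d.inv = (cmpD em d).inv := by
  obtain ⟨⟨e, k⟩, hd⟩ := d
  have h1 : (H.b (em.je e)).isSome = (H₀.b e).isSome := by rw [em.b_je, Option.isSome_map]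
  by_cases h : (H₀.b e).isSome = true
  · have e1 : (H.b (em.je e)).isSome = true := by rw [h1]; exact h
    have e2 : Dart.inv (⟨(e, k), hd⟩ : H₀.Dart) = ⟨(e, !k), fun _ => h⟩ := dif_pos h
    have e3 : Dart.inv (cmpD em (⟨(e, k), hd⟩ : H₀.Dart)) = ⟨(em.je e, !k), fun _ => e1⟩ := dif_pos e1
    rw [e2, e3]
    rfl
  · have e1 : ¬ (H.b (em.je e)).isSome = true := by rw [h1]; exact h
    have e2 : Dart.inv (⟨(e, k), hd⟩ : H₀.Dart) = ⟨(e, k), hd⟩ := dif_neg h
    have e3 : Dart.inv (cmpD em (⟨(e, k), hd⟩ : H₀.Dart)) = cmpD em ⟨(e, k), hd⟩ := dif_neg e1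
    rw [e2, e3]

private theorem cmpD_surj {H₀ : Graph V₀ E₀} {H : Graph V E} (em : Emb H₀ H) (v : V₀) (d : H.Dart)
    (hd : d.src = em.jv v) : ∃ d₀ : H₀.Dart, cmpD em d₀ = d ∧ d₀.src = v := by
  have h1 : H.Joins d.edge (em.jv v) d.tgt := hd ▸ d.joins
  obtain ⟨e₀, he₀⟩ := em.closed _ _ _ h1
  obtain ⟨⟨e, k⟩, hk⟩ := d
  change em.je e₀ = e at he₀
  subst he₀
  have h3 : k = true → (H₀.b e₀).isSome = true := fun h => by
    have h2 := hk h
    rw [em.b_je, Option.isSome_map] at h2
    exact h2
  refine ⟨(⟨(e₀, k), h3⟩ : H₀.Dart), rfl, ?_⟩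
  apply em.jv_inj
  exact (cmpD_src em (⟨(e₀, k), h3⟩ : H₀.Dart)).symm.trans hd

private theorem cmp_class {H₀ : Graph V₀ E₀} {H : Graph V E} (em : Emb H₀ H) (t : V → I) (v : V₀)
    (j : I) : H₀.classSize (t ∘ em.jv) v j = H.classSize t (em.jv v) j := by
  unfold classSize
  rw [← Set.ncard_image_of_injective _ (cmpD_inj em)]
  congr 1
  ext d
  simp only [Set.mem_image]
  constructor
  · rintro ⟨d₀, ⟨h1, h2⟩, rfl⟩
    refine ⟨?_, ?_⟩
    · rw [cmpD_src, h1]
    · rw [cmpD_tgt]; exact h2
  · rintro ⟨h1, h2⟩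
    obtain ⟨d₀, rfl, h3⟩ := cmpD_surj em v d h1
    refine ⟨d₀, ⟨h3, ?_⟩, rfl⟩
    rw [cmpD_tgt] at h2
    exact h2

private theorem joins_conn {H : Graph V E} {x : V} {e : E} {v w : V} (h : H.Joins e v w)
    (hv : H.RConn Set.univ x v) : H.RConn Set.univ x w :=
  Relation.ReflTransGen.tail hv ⟨trivial, trivial, e, h⟩

private theorem a_conn {H : Graph V E} {x : V} {e : E} {v w : V} (h : H.Joins e v w)
    (hv : H.RConn Set.univ x v) : H.RConn Set.univ x (H.a e) := by
  rcases h with ⟨h1, _⟩ | ⟨h1, h2⟩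
  · rwa [← h1]
  · rw [← h1]
    exact joins_conn (Or.inr ⟨h1, h2⟩) hv

/-- The component. -/
private def cmpG (H : Graph V E) (x : V) :
    Graph {v : V // H.RConn Set.univ x v} {e : E // H.RConn Set.univ x (H.a e)} where
  a e := ⟨H.a e.1, e.2⟩
  b e := Option.pmap (fun w hw => (⟨w, hw⟩ : {v : V // H.RConn Set.univ x v})) (H.b e.1)
    (fun w hw => joins_conn (e := e.1) (Or.inl ⟨rfl, by rw [hw]; rfl⟩) e.2)

private def cmpEm (H : Graph V E) (x : V) : Emb (cmpG H x) H where
  jv v := v.1
  je e := e.1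
  jv_inj := Subtype.val_injective
  je_inj := Subtype.val_injective
  a_je _ := rfl
  b_je e := by
    simp only [cmpG]
    rw [Option.map_pmap]
    simp
  closed e v w h := ⟨⟨e, a_conn h v.2⟩, rfl⟩

private theorem cmp_joins {H₀ : Graph V₀ E₀} {H : Graph V E} (em : Emb H₀ H) {e : E₀} {v w : V₀}
    (h : H.Joins (em.je e) (em.jv v) (em.jv w)) : H₀.Joins e v w := by
  unfold Joins at h
  rw [cmp_getD, em.a_je] at h
  rcases h with ⟨h1, h2⟩ | ⟨h1, h2⟩
  · exact Or.inl ⟨em.jv_inj h1, em.jv_inj h2⟩
  · exact Or.inr ⟨em.jv_inj h1, em.jv_inj h2⟩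

/-- The component of a vertex. -/
theorem exists_component [Finite V] [Finite E] (H : Graph V E) (t : V → I) (ht : H.Equitable t)
    (x : V) (j : I) (h3 : 3 ≤ H.classSize t x j) (hi : H.InfiniteClass t x j)
    (hr : H.RichClass t x j) :
    ∃ (V₀ E₀ : Type) (_ : Finite V₀) (_ : Finite E₀) (_ : Nonempty E₀) (H₀ : Graph V₀ E₀)
      (em : Emb H₀ H) (y : V₀), em.jv y = x ∧ H₀.Connected ∧ H₀.Equitable (t ∘ em.jv) ∧
      3 ≤ H₀.classSize (t ∘ em.jv) y j ∧ H₀.InfiniteClass (t ∘ em.jv) y j ∧
      H₀.RichClass (t ∘ em.jv) y j := by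
  have hx : H.RConn Set.univ x x := Relation.ReflTransGen.refl
  have hne : Nonempty {e : E // H.RConn Set.univ x (H.a e)} := by
    have h4 : 0 < {d : H.Dart | d.src = x ∧ t d.tgt = j}.ncard := by
      unfold classSize at h3
      omega
    obtain ⟨d, hd, -⟩ := (Set.ncard_pos (Set.toFinite _)).1 h4
    have h5 : H.Joins d.edge x d.tgt := hd ▸ d.joins
    exact ⟨⟨d.edge, a_conn h5 hx⟩⟩
  refine ⟨{v : V // H.RConn Set.univ x v}, {e : E // H.RConn Set.univ x (H.a e)}, inferInstance,
    inferInstance, hne, cmpG H x, cmpEm H x, ⟨x, hx⟩, rfl, ?_, ?_, ?_, ?_, ?_⟩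
  · -- connected
    have key : ∀ w (hw : H.RConn Set.univ x w), (cmpG H x).RConn Set.univ ⟨x, hx⟩ ⟨w, hw⟩ := by
      intro w hw
      have hw' := hw
      unfold RConn at hw
      induction hw with
      | refl => exact Relation.ReflTransGen.refl
      | @tail v w h1 h2 ih =>
        obtain ⟨_, _, e, he⟩ := h2
        have hv : H.RConn Set.univ x v := h1
        refine Relation.ReflTransGen.tail (ih hv) ⟨trivial, trivial, ⟨e, a_conn he hv⟩, ?_⟩
        exact cmp_joins (cmpEm H x) (e := ⟨e, a_conn he hv⟩) (v := ⟨v, hv⟩) (w := ⟨w, hw'⟩) he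
    intro v w
    exact (key v.1 v.2).symm.trans (key w.1 w.2)
  · intro v w hvw j'
    rw [cmp_class, cmp_class]
    exact ht _ _ hvw j'
  · rw [cmp_class]
    exact h3
  · obtain ⟨d, hd0, hdt, hd⟩ := hi
    have hs : ∀ r, H.RConn Set.univ x (d r).src := by
      intro r
      induction r with
      | zero => rw [hd0]; exact hx
      | succ r ih =>
        rw [(hd r).1]
        exact joins_conn (d r).joins ih
    have h4 : ∀ r, ∃ d₀ : (cmpG H x).Dart, cmpD (cmpEm H x) d₀ = d r ∧ d₀.src = ⟨(d r).src, hs r⟩ :=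
      fun r => cmpD_surj (cmpEm H x) ⟨(d r).src, hs r⟩ (d r) rfl
    choose d₀ h5 h6 using h4
    refine ⟨d₀, ?_, ?_, ?_⟩
    · rw [h6]
      exact Subtype.ext hd0
    · have h7 := cmpD_tgt (cmpEm H x) (d₀ 0)
      rw [h5] at h7
      change t ((cmpEm H x).jv (d₀ 0).tgt) = j
      rw [← h7]
      exact hdt
    · intro r
      refine ⟨?_, ?_⟩
      · apply (cmpEm H x).jv_inj
        rw [← cmpD_src, ← cmpD_tgt, h5, h5]
        exact (hd r).1
      · intro h8
        apply (hd r).2
        rw [← h5, ← h5, h8, cmpD_inv]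
  · rcases hr with ⟨d, h1, h2, h3⟩ | h4
    · left
      obtain ⟨d₀, h5, h6⟩ := cmpD_surj (cmpEm H x) ⟨x, hx⟩ d h1
      have h7 := cmpD_tgt (cmpEm H x) d₀
      rw [h5] at h7
      refine ⟨d₀, h6, ?_, ?_⟩
      · change t ((cmpEm H x).jv d₀.tgt) = j
        rw [← h7]
        exact h2
      · intro h8
        rw [h8] at h7
        exact h3 h7
    · right
      refine h4.trans (le_of_eq ?_)
      rw [← Set.ncard_image_of_injective _ (cmpEm H x).je_inj]
      congr 1
      ext e
      simp only [Set.mem_image]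
      constructor
      · rintro ⟨d, h5, h6, h7⟩
        obtain ⟨d₀, h8, h9⟩ := cmpD_surj (cmpEm H x) ⟨x, hx⟩ d h6
        have h10 := cmpD_tgt (cmpEm H x) d₀
        rw [h8] at h10
        refine ⟨d₀.edge, ⟨d₀, rfl, h9, ?_⟩, ?_⟩
        · change t ((cmpEm H x).jv d₀.tgt) = j
          rw [← h10]
          exact h7
        · rw [← cmpD_edge, h8]
          exact h5
      · rintro ⟨e₀, ⟨d₀, rfl, h5, h6⟩, rfl⟩
        refine ⟨cmpD (cmpEm H x) d₀, rfl, ?_, ?_⟩
        · rw [cmpD_src, h5]
          rfl
        · rw [cmpD_tgt]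
          exact h6

end Graph

end Pool.Agent.Lib.MP_9c5086_lc
end

section

/-!
The basic relations from equalities, negation and exactly-one.
-/

namespace Pool.Agent.Lib.MP_9c5086_lc

namespace Clone

private theorem bb_bmem (C : Clone Bool) {P : Type} {sg : P → Bool} {R : (P → Bool) → Prop}
    (h : C.mem P sg R) : C.BMem true false P sg R := by
  refine C.congr h fun c => ?_
  constructor
  · intro hc
    exact ⟨c, hc, fun p => by simp [col]⟩
  · rintro ⟨b, hb, hc⟩
    have : c = b := by
      funext p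
      rw [hc p]
      simp [col]
    rwa [this]

private theorem bb_one (c : Fin 3 → Bool) : (∃ k : Fin 3, ∀ q, c q = decide (q = k)) ↔
    (Finset.univ.filter fun i : Fin 3 => c i = true).card = 1 := by
  rw [Finset.card_eq_one]
  constructor
  · rintro ⟨k, hk⟩
    refine ⟨k, ?_⟩
    ext q
    simp [hk q]
  · rintro ⟨k, hk⟩
    refine ⟨k, fun q => ?_⟩
    have h : q ∈ Finset.univ.filter (fun i : Fin 3 => c i = true) ↔ q ∈ ({k} : Finset (Fin 3)) := by
      rw [hk]
    simp only [Finset.mem_filter, Finset.mem_univ, true_and, Finset.mem_singleton] at h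
    by_cases hq : q = k
    · rw [h.2 hq]
      simp [hq]
    · have h5 : c q = false := Bool.eq_false_iff.2 fun h' => hq (h.1 h')
      rw [h5]
      simp [hq]

/-- The basic relations. -/
theorem basic_of_bad (C : Clone Bool)
    (h1 : C.mem Bool (fun _ => false) (fun c => ∃ k : Bool, ∀ q, c q = k))
    (h2 : C.mem (Fin 3) (fun _ => false) (fun c => ∃ k : Bool, ∀ q, c q = k))
    (h3 : C.mem (Fin 3) (fun _ => false) (fun c => ∃ k : Fin 3, ∀ q, c q = decide (q = k)))
    (h4 : C.mem Bool (fun _ => true) (fun c => c true = !c false)) : C.Basic true false := by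
  have eqnn : C.mem Bool (fun _ => false) (fun c => c true = c false) := by
    refine C.congr h1 fun c => ?_
    constructor
    · rintro ⟨k, hk⟩
      rw [hk, hk]
    · intro h
      exact ⟨c false, fun q => by cases q <;> simp [h]⟩
  have eq3 : C.mem (Fin 3) (fun _ => false) (fun b => b 0 = b 1 ∧ b 1 = b 2) := by
    refine C.congr h2 fun c => ?_
    constructor
    · rintro ⟨k, hk⟩
      rw [hk, hk, hk]
      exact ⟨rfl, rfl⟩
    · rintro ⟨ha, hb⟩
      refine ⟨c 2, fun q => ?_⟩
      fin_cases q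
      · exact ha.trans hb
      · exact hb
      · rfl
  have one3 : C.mem (Fin 3) (fun _ => false)
      (fun b => (Finset.univ.filter fun i => b i = true).card = 1) :=
    C.congr h3 fun c => bb_one c
  have eqpp : C.mem Bool (fun _ => true) (fun c => c true = c false) := by
    refine C.congr (C.wires (sg' := fun _ => true) (K := fun _ a b => a = !b) eqnn fun _ => ?_)
      fun c => ?_
    · convert h4 using 2 with i
      cases i <;> rfl
    · constructor
      · rintro ⟨z, h1, h2⟩
        rw [h2, h2, h1]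
      · intro h
        exact ⟨fun i => !c i, by simpa using h, fun p => by simp⟩
  exact ⟨by decide, bb_bmem C eqpp, bb_bmem C eqnn, ⟨_, bb_bmem C h4⟩, ⟨_, bb_bmem C eq3⟩,
    ⟨_, bb_bmem C one3⟩⟩

end Clone

end Pool.Agent.Lib.MP_9c5086_lc
end

section

/-!
Covering projections of an instance and of its data.
-/

namespace Pool.Agent.Lib.MP_9c5086_lc

/-- The counting form of the definition of covering projections. -/
theorem Graph.isCoverG_iff {V E W F : Type} [Finite E] {H : Graph V E} {G : Graph W F}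
    {fv : W → V} {fe : F → E} : H.IsCoverG G fv fe ↔
      (∀ d : G.Dart, H.Joins (fe d.edge) (fv d.src) (fv d.tgt)) ∧
      (∀ d : G.Dart, d.inv = d → H.b (fe d.edge) = none) ∧
      ∀ u e, {d : G.Dart | d.src = u ∧ fe d.edge = e}.ncard = H.inc e (fv u) := by
  constructor
  · intro h
    have hjd : ∀ d : G.Dart, H.Joins (fe d.edge) (fv d.src) (fv d.tgt) := by
      rintro ⟨⟨f, k⟩, hd⟩
      cases k
      · exact h.joins f
      · exact (h.joins f).symm
    refine ⟨hjd, fun d hd => h.semiEdge d.edge ((Dart.inv_eq_self_iff d).1 hd), fun u e => ?_⟩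
    by_cases hj : ∃ w, H.Joins e (fv u) w
    · obtain ⟨w, hw⟩ := hj
      cases hb : H.b e with
      | none =>
        have hu : fv u = H.a e := by
          rcases hw with ⟨h1, -⟩ | ⟨-, h2⟩
          · exact h1
          · rw [h2, hb]; rfl
        rw [h.semi e (H.a e) rfl hb u hu, hu, inc_semi hb]
      | some y =>
        have hu : fv u = H.a e ∨ fv u = y := by
          rcases hw with ⟨h1, -⟩ | ⟨-, h2⟩
          · exact Or.inl h1
          · right; rw [h2, hb]; rfl
        by_cases hy : H.a e = y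
        · subst hy
          have hu' : fv u = H.a e := by
            rcases hu with h | h <;> exact h
          rw [h.loop e (H.a e) rfl hb u hu', hu', inc_loop hb]
        · rw [h.ordinary e (H.a e) y rfl hb hy u hu, inc_ordinary hb hy hu]
    · have h1 : H.inc e (fv u) = 0 := by
        by_contra h2
        exact hj (inc_pos_iff.1 (Nat.pos_of_ne_zero h2))
      have h2 : {d : G.Dart | d.src = u ∧ fe d.edge = e} = ∅ := by
        ext d
        simp only [Set.mem_ofPred_eq, Set.mem_empty_iff_false, iff_false]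
        rintro ⟨h3, rfl⟩
        refine hj ⟨fv d.tgt, ?_⟩
        rw [← h3]
        exact hjd d
      rw [h1, h2, Set.ncard_empty]
  · rintro ⟨h1, h2, h3⟩
    refine ⟨?_, ?_, ?_, ?_, ?_⟩
    · intro f
      exact h1 ⟨(f, false), fun h => by simp at h⟩
    · intro f hf
      exact h2 ⟨(f, false), fun h => by simp at h⟩ ((Dart.inv_eq_self_iff _).2 hf)
    · intro e x y ha hb hxy u hu
      subst ha
      rw [h3, inc_ordinary hb hxy hu]
    · intro e x ha hb u hu
      subst ha
      rw [h3, hu, inc_loop hb]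
    · intro e x ha hb u hu
      subst ha
      rw [h3, hu, inc_semi hb]

private theorem gcov_key {p q : ℕ} (I : GInst p q) {d d' : I.G.Dart}
    (h : (((d.edge : Fin I.m) : ℕ), d.1.2) = ((d'.edge : ℕ), d'.1.2)) : d = d' := by
  obtain ⟨h1, h2⟩ := Prod.ext_iff.1 h
  apply Subtype.ext
  exact Prod.ext (Fin.ext h1) h2

private theorem gcov_count {p q : ℕ} (I : GInst p q) {fe : Fin I.m → Fin q}
    {feD : ℕ × Bool → Fin q} (hfe : ∀ d : I.G.Dart, feD ((d.edge : ℕ), d.1.2) = fe d.edge)
    (u : Fin I.n) (e : Fin q) :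
    {d | d ∈ (rawLG p q I.data).star u ∧ feD d = e}.ncard =
      {d : I.G.Dart | d.src = u ∧ fe d.edge = e}.ncard := by
  have h : {d | d ∈ (rawLG p q I.data).star u ∧ feD d = e} =
      (fun d : I.G.Dart => (((d.edge : Fin I.m) : ℕ), d.1.2)) ''
        {d : I.G.Dart | d.src = u ∧ fe d.edge = e} := by
    ext d
    constructor
    · rintro ⟨⟨h1, h2⟩, h3⟩
      obtain ⟨d', rfl⟩ := (mem_Ds_data I d).1 h1
      rw [src_data] at h2
      rw [hfe] at h3
      exact ⟨d', ⟨Fin.ext h2, h3⟩, rfl⟩
    · rintro ⟨d', ⟨h1, h2⟩, rfl⟩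
      refine ⟨⟨(mem_Ds_data I _).2 ⟨d', rfl⟩, ?_⟩, ?_⟩
      · rw [src_data, h1]
      · rw [hfe, h2]
  rw [h]
  exact Set.ncard_image_of_injective _ fun d d' h => gcov_key I h

/-- Covering projections of an instance correspond to those of its data. -/
theorem cov_data {p q : ℕ} [NeZero p] [NeZero q] (H : Graph (Fin p) (Fin q)) (I : GInst p q) :
    H.HasListCoverG I ↔ ∃ fv fe, H.IsCov (rawLG p q I.data) fv fe := by
  constructor
  · rintro ⟨fv, fe, h, hv, he⟩
    obtain ⟨h1, h2, h3⟩ := Graph.isCoverG_iff.1 h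
    obtain ⟨fvD, hfv⟩ : ∃ fvD : ℕ → Fin p, ∀ u : Fin I.n, fvD u = fv u :=
      ⟨fun u => if h : u < I.n then fv ⟨u, h⟩ else 0, fun u => by simp⟩
    obtain ⟨feD, hfe⟩ : ∃ feD : ℕ × Bool → Fin q, ∀ (f : Fin I.m) (c : Bool),
        feD ((f : ℕ), c) = fe f :=
      ⟨fun d => if h : d.1 < I.m then fe ⟨d.1, h⟩ else 0, fun f c => by simp⟩
    refine ⟨fvD, feD, ?_, ?_, ?_, ?_, ?_, ?_⟩
    · intro u hu
      rw [Vs_data, List.mem_range] at hu
      have h4 := (Lv_data I ⟨u, hu⟩ (fvD u)).2 (by
        have := hfv ⟨u, hu⟩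
        simp only at this
        rw [this]
        exact hv _)
      exact h4
    · intro d hd
      obtain ⟨d', rfl⟩ := (mem_Ds_data I d).1 hd
      rw [Le_data, hfe]
      exact he _
    · intro d hd
      obtain ⟨d', rfl⟩ := (mem_Ds_data I d).1 hd
      rw [inv_data, hfe, hfe, Graph.Dart.edge_inv]
    · intro d hd
      obtain ⟨d', rfl⟩ := (mem_Ds_data I d).1 hd
      rw [inv_data, src_data, src_data, hfe, hfv, hfv, Graph.Dart.src_inv]
      exact h1 d'
    · intro d hd hinv
      obtain ⟨d', rfl⟩ := (mem_Ds_data I d).1 hd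
      rw [inv_data] at hinv
      rw [hfe]
      exact h2 d' (gcov_key I hinv)
    · intro u hu e
      rw [Vs_data, List.mem_range] at hu
      have h4 := gcov_count I (fe := fe) (feD := feD) (fun d => hfe _ _) ⟨u, hu⟩ e
      have h5 := hfv ⟨u, hu⟩
      simp only at h4 h5
      rw [h4, h3, h5]
  · rintro ⟨fvD, feD, h⟩
    have hfe : ∀ d : I.G.Dart, feD ((d.edge : ℕ), d.1.2) = feD ((d.edge : ℕ), false) := by
      rintro ⟨⟨f, k⟩, hd⟩
      cases k
      · rfl
      · have hs : (I.G.b f).isSome = true := hd rfl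
        have h1 := h.inv _ ((mem_Ds_data I _).2 ⟨⟨(f, true), hd⟩, rfl⟩)
        rw [inv_data] at h1
        have h2 : (Graph.Dart.inv (⟨(f, true), hd⟩ : I.G.Dart)) =
            ⟨(f, false), fun h => by simp at h⟩ := by
          unfold Graph.Dart.inv
          rw [dif_pos hs]
          rfl
        rw [h2] at h1
        exact h1.symm
    refine ⟨fun u => fvD u, fun f => feD ((f : ℕ), false), ?_, ?_, ?_⟩
    · refine Graph.isCoverG_iff.2 ⟨?_, ?_, ?_⟩
      · intro d
        have h1 := h.joins _ ((mem_Ds_data I _).2 ⟨d, rfl⟩)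
        rw [inv_data, src_data, src_data, Graph.Dart.src_inv, hfe] at h1
        exact h1
      · intro d hd
        have h1 := h.semi _ ((mem_Ds_data I _).2 ⟨d, rfl⟩) (by rw [inv_data, hd])
        rw [hfe] at h1
        exact h1
      · intro u e
        rw [← gcov_count I (fe := fun f => feD ((f : ℕ), false))
          (feD := feD) hfe u e]
        refine h.count u ?_ e
        rw [Vs_data, List.mem_range]
        exact u.2
    · intro u
      refine (Lv_data I u _).1 (h.lv u ?_)
      rw [Vs_data, List.mem_range]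
      exact u.2
    · intro f
      have hd : ((f : ℕ), false) ∈ (rawLG p q I.data).Ds :=
        (mem_Ds_data I _).2 ⟨⟨(f, false), fun h => by simp at h⟩, rfl⟩
      exact (Le_data I f false _).1 (h.le _ hd)

end Pool.Agent.Lib.MP_9c5086_lc
end

section

/-!
Negation on two positive ports.
-/

namespace Pool.Agent.Lib.MP_9c5086_lc

namespace Graph

variable {V E I : Type} {H : Graph V E} {t : V → I}

/-- The edges of a port are not loops. -/
theorem Thin.port_inc [Finite E] {Θ : Thin H t} (P : Port Θ) (c : Bool) :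
    H.inc (P.setup.ec c) P.setup.x ≤ 1 := by
  have hsub : {d : H.Dart | d.edge = P.setup.ec c ∧ d.src = P.setup.x} ⊆ {P.n.d c} := by
    rintro d ⟨h1, h2⟩
    rw [Set.mem_singleton_iff]
    have h0 : d = P.n.d c ∨ d = (P.n.d c).inv :=
      Dart.eq_or_inv (h1.symm : (P.n.d c).edge = d.edge)
    rcases h0 with h3 | h3
    · exact h3
    · have hsrc : ∀ k, (P.n.d k).src = P.setup.x := by
        intro k
        cases k
        · rfl
        · exact P.src_eq.symm
      have h4 : (P.n.d c).tgt = (P.n.d c).src := by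
        rw [hsrc c, ← h2, h3, Dart.src_inv]
      have hm := Θ.inv_mem _ (P.n.mem c)
      have h5 : P.n.d (!c) = P.n.d c ∨ P.n.d (!c) = Θ.tau (P.n.d c) :=
        Θ.only _ (P.n.mem c) _ (P.n.mem (!c)) (by rw [hsrc, hsrc]) (P.n.tgt_ty _ _)
      have h6 : (P.n.d c).inv = P.n.d c ∨ (P.n.d c).inv = Θ.tau (P.n.d c) :=
        Θ.only _ (P.n.mem c) _ hm (by rw [Dart.src_inv, h4]) (by rw [Dart.tgt_inv, h4])
      rcases h6 with h6 | h6
      · rw [h3, h6]
      · exfalso
        rcases h5 with h5 | h5
        · have h7 := P.n.inj h5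
          cases c <;> simp at h7
        · have h7 : (P.n.d (!c)).tgt = (P.n.d c).tgt := by
            rw [h5, ← h6, Dart.tgt_inv, h4]
          cases c
          · exact P.tgt_ne h7.symm
          · exact P.tgt_ne h7
  unfold inc
  refine (Set.ncard_le_ncard hsub (Set.finite_singleton _)).trans ?_
  rw [Set.ncard_singleton]

/-- One vertex with two positive ports. -/
private def notProto (S : Setup H t Bool) : Proto S Bool (fun _ => true) where
  U := Unit
  finU := inferInstance
  T := ⊥
  mv _ := S.x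
  slot _ _ := S.dc false
  pu _ := ()
  ps p := S.dc p
  Lv _ := {S.x}
  Le _ _ := Set.univ
  LP _ := Set.univ
  src_slot u u' h := absurd h (by simp)
  src_ps p := S.src_dc p
  inj_slot u u' u'' h := absurd h (by simp)
  inj_ps p p' _ h := S.inj_dc p p' (congrArg Dart.edge h)
  disj p u h := absurd h (by simp)
  ty_slot u u' h := absurd h (by simp)
  Le_comm u u' h := rfl
  ty_pos p _ := ⟨rfl, S.ty_dc p, subset_rfl⟩
  ty_neg p h := absurd h (by simp)
  neg_inj p p' h := absurd h (by simp)
  neg_pos p p' h := absurd h (by simp)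
  neg_adj p p' h := absurd h (by simp)

/-- A vertex with two positive ports. -/
theorem real_not [Finite E] [Nonempty E] (S : Setup H t Bool)
    (h : ∀ c, H.inc (S.ec c) S.x ≤ 1) :
    Real S Bool (fun _ => true) (fun c => c true = !c false) := by
  refine ⟨inferInstance, (notProto S).gadget, fun c => ?_⟩
  rw [(notProto S).sat_iff c]
  constructor
  · intro hc
    refine ⟨fun _ => S.x, _, Proto.Sol.of_darts (notProto S) c (fun _ => S.x)
      (fun _ _ => S.dc false) (fun p => S.dc (c p)) ?_ ?_ ?_ ?_ ?_ ?_ ?_ ?_ ?_ ?_ ?_ ?_⟩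
    · intro u u' hu
      exact absurd hu (by simp [notProto])
    · intro u u' hu
      exact absurd hu (by simp [notProto])
    · intro u u' u'' hu
      exact absurd hu (by simp [notProto])
    · intro p
      exact S.src_dc _
    · intro p
      rfl
    · intro p p' _ h1
      have h2 := S.inj_dc _ _ (congrArg Dart.edge h1)
      cases p <;> cases p' <;> first | rfl | (rw [hc] at h2; simp at h2)
    · intro p u hu
      exact absurd hu (by simp [notProto])
    · intro u
      rfl
    · intro p hp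
      exact absurd hp (by simp)
    · intro u
      exact rfl
    · intro u u' hu
      exact Set.mem_univ _
    · intro p
      exact Set.mem_univ _
  · rintro ⟨fv, fe, hs⟩
    by_contra hcon
    have h1 : c true = c false := by
      cases h2 : c true <;> cases h3 : c false <;> simp_all
    have h2 := hs.count () (S.ec (c false))
    have h3 : fv () = S.x := hs.lv ()
    have h4 : {p : Bool | (notProto S).pu p = () ∧ S.ec (c p) = S.ec (c false)} = Set.univ := by
      ext p
      cases p
      · exact ⟨fun _ => trivial, fun _ => ⟨rfl, rfl⟩⟩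
      · exact ⟨fun _ => trivial, fun _ => ⟨rfl, by rw [h1]⟩⟩
    rw [h4, Set.ncard_univ, h3] at h2
    have h5 := h (c false)
    simp at h2
    omega

end Graph

end Pool.Agent.Lib.MP_9c5086_lc
end

section

/-!
Tableaux as tilings of the torus.
-/

namespace Pool.Agent.Lib.MP_9c5086_lc

open Pool.Agent.Lib.PolyTime

variable (M : Flat) (kin : M.K) (q₀ : M.Q) (sy : Bool → M.A)
  (acc : M.Q → (M.K → Option M.A) → Prop)

private theorem good_congr {t0 tL p0 pL : Bool} {z : ZSym}
    {d0 d1 d2 d3 d4 d2' d3' d4' : M.Cell}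
    (h : Good M kin q₀ sy acc t0 tL p0 pL z d0 d1 d2 d3 d4)
    (h2 : pL = false → d2 = d2') (h3 : tL = false → d3 = d3')
    (h4 : tL = false → pL = false → d4 = d4') :
    Good M kin q₀ sy acc t0 tL p0 pL z d0 d1 d2' d3' d4' := by
  obtain ⟨g1, g2, g3, g4, g5⟩ := h
  refine ⟨g1, ?_, g3, g4, ?_⟩
  · intro ht hp
    rw [← h2 hp]
    exact g2 ht hp
  · intro ht
    obtain ⟨g6, g7⟩ := g5 ht
    refine ⟨?_, ?_⟩
    · rw [← h3 ht]
      exact g6
    · intro k
      obtain ⟨g8, g9, g10⟩ := g7 k
      refine ⟨?_, ?_, ?_⟩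
      · rw [← h3 ht]
        exact g8
      · intro hop hp
        rw [← h3 ht, ← h2 hp]
        exact g9 hop hp
      · intro a hop hp
        rw [← h4 ht hp]
        exact g10 a hop hp

private theorem nx_of_lt {n : ℕ} (i : Fin n) (h : i.1 + 1 < n) : nx i = ⟨i.1 + 1, h⟩ :=
  Fin.ext (Nat.mod_eq_of_lt h)

private theorem nx_of_eq {n : ℕ} (i : Fin n) (h : i.1 + 1 = n) : (nx i).1 = 0 := by
  show (i.1 + 1) % n = 0
  rw [h, Nat.mod_self]

/-- The tiling of a tableau. -/
private def tileOf (Z : List ZSym) (A : ℕ → ℕ → M.Cell) (a : Fin Z.length × Fin Z.length) :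
    Tile M :=
  (kindZ Z a, ![A a.1 0, A a.1 a.2, A a.1 (a.2 + 1), A (a.1 + 1) a.2, A (a.1 + 1) (a.2 + 1)])

/-- Tableaux are tilings of the torus. -/
theorem tab_iff_tiles (Z : List ZSym) :
    (∃ A, Tab M kin q₀ sy acc Z A) ↔
      ∃ τ, (tabSystem M kin q₀ sy acc).Tiles (kindZ Z) τ := by
  constructor
  · rintro ⟨A, hA⟩
    refine ⟨tileOf M Z A, ?_⟩
    rintro ⟨t, p⟩
    refine ⟨⟨rfl, ?_, hA t t.2 p p.2⟩, ?_, ?_⟩
    · intro h
      have h' : (p : ℕ) = 0 := by simpa [kindZ, kindN] using h
      show A t 0 = A t p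
      rw [h']
    · by_cases hp : (p : ℕ) + 1 = Z.length
      · have h0 := nx_of_eq p hp
        simp [tabSystem, tileOf, kindZ, kindN, hp, h0]
      · have hp' : (p : ℕ) + 1 < Z.length := by omega
        rw [nx_of_lt p hp']
        simp [tabSystem, tileOf, kindZ, kindN, hp]
    · by_cases ht : (t : ℕ) + 1 = Z.length
      · have h0 := nx_of_eq t ht
        simp [tabSystem, tileOf, kindZ, kindN, ht, h0]
      · have ht' : (t : ℕ) + 1 < Z.length := by omega
        rw [nx_of_lt t ht']
        simp [tabSystem, tileOf, kindZ, kindN, ht]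
  · rintro ⟨τ, hτ⟩
    let d₀ : M.Cell := (q₀, fun _ => none)
    let B : ℕ → ℕ → M.Cell := fun t p =>
      if h : t < Z.length ∧ p < Z.length then (τ (⟨t, h.1⟩, ⟨p, h.2⟩)).2 1 else d₀
    have hB : ∀ (t p : ℕ) (ht : t < Z.length) (hp : p < Z.length),
        B t p = (τ (⟨t, ht⟩, ⟨p, hp⟩)).2 1 := fun t p ht hp => dif_pos ⟨ht, hp⟩
    have hk : ∀ a, (τ a).1 = kindZ Z a := fun a => (hτ a).1.1
    have hright : ∀ (t p : ℕ) (ht : t < Z.length) (hp : p + 1 < Z.length),
        (τ (⟨t, ht⟩, ⟨p, by omega⟩)).2 0 = (τ (⟨t, ht⟩, ⟨p + 1, hp⟩)).2 0 ∧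
        (τ (⟨t, ht⟩, ⟨p, by omega⟩)).2 2 = (τ (⟨t, ht⟩, ⟨p + 1, hp⟩)).2 1 ∧
        (τ (⟨t, ht⟩, ⟨p, by omega⟩)).2 4 = (τ (⟨t, ht⟩, ⟨p + 1, hp⟩)).2 3 := by
      intro t p ht hp
      have h := (hτ (⟨t, ht⟩, ⟨p, by omega⟩)).2.1
      have e : nx (⟨p, by omega⟩ : Fin Z.length) = ⟨p + 1, hp⟩ := nx_of_lt _ hp
      rw [show ((⟨t, ht⟩, ⟨p, by omega⟩) : Fin Z.length × Fin Z.length).2 =
        (⟨p, by omega⟩ : Fin Z.length) from rfl, e] at h
      have hne : ¬ p + 1 = Z.length := by omega
      have hne' : ¬ p = Z.length - 1 := by omega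
      simp [tabSystem, hk, kindZ, kindN, hne] at h
      exact h
    have hdown : ∀ (t p : ℕ) (ht : t + 1 < Z.length) (hp : p < Z.length),
        (τ (⟨t, by omega⟩, ⟨p, hp⟩)).2 3 = (τ (⟨t + 1, ht⟩, ⟨p, hp⟩)).2 1 ∧
        (τ (⟨t, by omega⟩, ⟨p, hp⟩)).2 4 = (τ (⟨t + 1, ht⟩, ⟨p, hp⟩)).2 2 := by
      intro t p ht hp
      have h := (hτ (⟨t, by omega⟩, ⟨p, hp⟩)).2.2
      have e : nx (⟨t, by omega⟩ : Fin Z.length) = ⟨t + 1, ht⟩ := nx_of_lt _ ht
      rw [show ((⟨t, by omega⟩, ⟨p, hp⟩) : Fin Z.length × Fin Z.length).1 =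
        (⟨t, by omega⟩ : Fin Z.length) from rfl, e] at h
      have hne : ¬ t + 1 = Z.length := by omega
      simp [tabSystem, hk, kindZ, kindN, hne] at h
      exact h
    have hzero : ∀ (t p : ℕ) (ht : t < Z.length) (hp : p < Z.length),
        (τ (⟨t, ht⟩, ⟨p, hp⟩)).2 0 = B t 0 := by
      intro t p ht hp
      induction p with
      | zero =>
        rw [hB t 0 ht hp]
        exact (hτ (⟨t, ht⟩, ⟨0, hp⟩)).1.2.1 (by simp [kindZ, kindN])
      | succ p ih => rw [← (hright t p ht hp).1, ih (by omega)]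
    refine ⟨B, ?_⟩
    intro t ht p hp
    have h := (hτ (⟨t, ht⟩, ⟨p, hp⟩)).1.2.2
    rw [hzero t p ht hp, ← hB t p ht hp] at h
    refine good_congr M kin q₀ sy acc h ?_ ?_ ?_
    · intro hpL
      have hpL' : ¬ p + 1 = Z.length := by simpa using hpL
      have hp' : p + 1 < Z.length := by omega
      rw [hB t (p + 1) ht hp']
      exact (hright t p ht hp').2.1
    · intro htL
      have htL' : ¬ t + 1 = Z.length := by simpa using htL
      have ht' : t + 1 < Z.length := by omega
      rw [hB (t + 1) p ht' hp]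
      exact (hdown t p ht' hp).1
    · intro htL hpL
      have hpL' : ¬ p + 1 = Z.length := by simpa using hpL
      have hp' : p + 1 < Z.length := by omega
      have htL' : ¬ t + 1 = Z.length := by simpa using htL
      have ht' : t + 1 < Z.length := by omega
      rw [hB (t + 1) (p + 1) ht' hp', (hdown t p ht' hp).2]
      exact (hright (t + 1) p ht' hp').2.1

end Pool.Agent.Lib.MP_9c5086_lc
end

section

/-!
Existence of the tables.
-/

namespace Pool.Agent.Lib.MP_9c5086_lc

namespace Alg

variable {V E : Type} [DecidableEq V] [DecidableEq E] [Finite V] [Finite E]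

theorem exists_tab [Nonempty E] (H : Graph V E) (hT : H.Tame H.ty) (Θ : Graph.Thin H H.ty)
    (hΘ : Θ.Covers) : ∃ T : Tab V E, TabOk H Θ T ∧ H.GEdges T.ga T.gb := by
  classical
  have ht : H.Equitable H.ty := Graph.equitable_ty
  let _ : Fintype V := Fintype.ofFinite V
  let _ : Fintype H.Dart := Fintype.ofFinite H.Dart
  have hex : ∀ x, ∃ ab : E × E, H.Gam H.ty (H.ty x) → (ab.1 ≠ ab.2 ∧ H.a ab.1 = x ∧
      H.b ab.1 = some x ∧ H.a ab.2 = x ∧ (H.b ab.2 = none ∨ H.b ab.2 = some x) ∧
      ∀ d : H.Dart, d.src = x → H.ty d.tgt = H.ty x → d.edge = ab.1 ∨ d.edge = ab.2) := by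
    intro x
    by_cases h : H.Gam H.ty (H.ty x)
    · obtain ⟨a, b, h1⟩ := hT.gam_edges ht h
      exact ⟨(a, b), fun _ => h1⟩
    · exact ⟨(Classical.arbitrary E, Classical.arbitrary E), fun h' => absurd h' h⟩
  choose g hg using hex
  have hcount : ∀ (φ : E × V) (l : List (E × V)), List.count φ l =
      Multiset.count φ (l : Multiset (E × V)) := by
    intro φ l
    rw [Multiset.coe_count]
    congr 1
    exact lawful_beq_subsingleton _ _
  refine ⟨{ fl := (Finset.univ.image (Graph.Dart.fl : H.Dart → E × V)).toList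
            at' := fun x => ((Finset.univ.filter fun d : H.Dart => d.src = x).val.map
              (Graph.Dart.fl : H.Dart → E × V)).toList
            vs := Finset.univ.toList
            opp := H.opp
            isS := fun e => decide (H.b e = none)
            thin := fun φ => decide (∃ e : H.Dart, e.fl = φ ∧ e.ThinCore H.ty)
            cls := fun φ ψ => decide (∃ e f : H.Dart, e.fl = φ ∧ f.fl = ψ ∧
              H.ty e.src = H.ty f.src ∧ H.ty e.tgt = H.ty f.tgt)
            tau := fun φ => if h : ∃ e : H.Dart, e.fl = φ ∧ e.ThinCore H.ty then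
              (Θ.tau h.choose).fl else φ
            ni := fun x => decide (Θ.NI (H.ty x))
            gam := fun x => decide (H.Gam H.ty (H.ty x))
            tyv := fun x y => decide (H.ty x = H.ty y)
            ga := fun x => (g x).1
            gb := fun x => (g x).2 }, ?_, fun x hx => hg x hx⟩
  refine { fl := ?_, at' := ?_, vs := ?_, opp := rfl, isS := ?_, thin := ?_, cls := ?_,
           tau := ?_, ni := ?_, gam := ?_, tyv := ?_ }
  · intro φ
    simp
  · intro x φ
    change List.count φ ((Finset.univ.filter fun d : H.Dart => d.src = x).val.map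
      (Graph.Dart.fl : H.Dart → E × V)).toList = _
    rw [hcount, Multiset.coe_toList, Multiset.count_map]
    split_ifs with h
    · unfold Graph.mult
      rw [← Finset.filter_val, Finset.card_val, ← Set.ncard_coe_finset]
      congr 1
      ext d
      simp only [Finset.coe_filter, Finset.mem_filter, Finset.mem_univ, true_and,
        Set.mem_ofPred_eq]
      constructor
      · rintro ⟨_, h2⟩
        exact h2.symm
      · intro h2
        refine ⟨?_, h2.symm⟩
        rw [← h, ← h2]
        rfl
    · rw [← Finset.filter_val, Finset.card_val, Finset.card_eq_zero]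
      apply Finset.eq_empty_of_forall_notMem
      intro d hd
      simp only [Finset.mem_filter, Finset.mem_univ, true_and] at hd
      apply h
      rw [hd.2]
      exact hd.1
  · intro x
    simp
  · intro e
    simp
  · intro e
    simp only [decide_eq_true_eq]
    constructor
    · rintro ⟨e', he, h⟩
      exact (Graph.Thin.flag_facts hΘ ht h he).1
    · intro h
      exact ⟨e, rfl, h⟩
  · intro e f
    simp only [decide_eq_true_eq]
    constructor
    · rintro ⟨e', f', he, hf, h1, h2⟩
      have h3 := Graph.fl_facts he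
      have h4 := Graph.fl_facts hf
      rw [← h3.1, ← h3.2.1, ← h4.1, ← h4.2.1]
      exact ⟨h1, h2⟩
    · rintro ⟨h1, h2⟩
      exact ⟨e, f, rfl, rfl, h1, h2⟩
  · intro e h
    have hex : ∃ e' : H.Dart, e'.fl = e.fl ∧ e'.ThinCore H.ty := ⟨e, rfl, h⟩
    show (if h : ∃ e' : H.Dart, e'.fl = e.fl ∧ e'.ThinCore H.ty then
              (Θ.tau h.choose).fl else e.fl) = (Θ.tau e).fl
    rw [dif_pos hex]
    exact (Graph.Thin.flag_facts hΘ ht hex.choose_spec.2 hex.choose_spec.1).2
  · intro x
    simp
  · intro x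
    simp
  · intro x y
    simp

end Alg

end Pool.Agent.Lib.MP_9c5086_lc
end

section

/-!
The conversions on the data of instances.
-/

namespace Pool.Agent.Lib.MP_9c5086_lc

private theorem oh_eq (n : ℕ) (i : Fin n) : oh n i = bitsOf ({i} : Finset (Fin n)) := by
  unfold oh bitsOf
  refine List.ext_getElem (by simp) fun k h1 h2 => ?_
  simp only [List.getElem_map, List.getElem_range, List.getElem_ofFn, Finset.mem_singleton,
    Fin.ext_iff]

private theorem ofFn_get_map {α β : Type} (l : List α) (g : α → β) :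
    List.ofFn (fun f : Fin l.length => g (l.get f)) = l.map g := by
  refine List.ext_getElem (by simp) fun k h1 h2 => ?_
  simp

theorem M2E_dataOf {p q : ℕ} (I : Inst p q) : M2E (dataOf I) = I.toG.data := by
  classical
  have hr : List.range I.n = (List.finRange I.n).map (fun i : Fin I.n => (i : ℕ)) := by
    refine List.ext_getElem (by simp) fun k h1 h2 => ?_
    simp
  have hD : M2E (dataOf I) = ((dataOf I).map fun r => r.getD 0 []) ::
      (I.edges.map fun e => [bitsOf (I.Le s(e.1, e.2)), bitsOf {e.1}, bitsOf {e.2}]) := by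
    unfold M2E Inst.edges
    congr 1
    rw [length_dataOf, hr, List.flatMap_map, List.map_flatMap]
    congr 1
    funext i
    rw [List.map_map, List.filter_map, List.map_map]
    have hf : (List.finRange I.n).filter ((fun j : ℕ => decide ((i : ℕ) < j) && adjB (dataOf I) i j) ∘
        fun j : Fin I.n => (j : ℕ)) = (List.finRange I.n).filter fun j =>
        decide (i < j ∧ I.G.Adj i j) := by
      refine List.filter_congr fun j _ => ?_
      simp only [Function.comp, adjB]
      rw [ecell_dataOf I i j i.2 j.2]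
      by_cases h : I.G.Adj i j
      · simp [h]
      · simp [h]
    rw [hf]
    refine List.map_congr_left fun j hj => ?_
    rw [List.mem_filter, decide_eq_true_iff] at hj
    simp only [Function.comp]
    rw [ecell_dataOf I i j i.2 j.2]
    simp only [Fin.eta]
    rw [if_pos hj.2.2, oh_eq, oh_eq]
    rfl
  rw [hD]
  unfold GInst.data
  congr 1
  · unfold dataOf
    rw [List.map_ofFn]
    rfl
  · exact (ofFn_get_map I.edges fun e => [bitsOf (I.Le s(e.1, e.2)), bitsOf {e.1},
      bitsOf {e.2}]).symm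

private theorem simple_iff {V E : Type} (G : Graph V E) : G.Simple ↔
    (∀ f, ∃ w, G.b f = some w ∧ w ≠ G.a f) ∧
      ∀ f f' w w', G.b f = some w → G.b f' = some w' →
        ((G.a f = G.a f' ∧ w = w') ∨ (G.a f = w' ∧ w = G.a f')) → f = f' := by
  unfold Graph.Simple
  refine and_congr_right fun h1 => ⟨fun h f f' w w' hw hw' h3 => ?_, fun h f f' v w hv hv' => ?_⟩
  · refine h f f' (G.a f) w (Or.inl ⟨rfl, by rw [hw]; rfl⟩) ?_
    unfold Graph.Joins
    rw [hw', Option.getD_some]
    rcases h3 with ⟨h4, h5⟩ | ⟨h4, h5⟩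
    · exact Or.inl ⟨h4, h5⟩
    · exact Or.inr ⟨h5, h4⟩
  · obtain ⟨x, hx, -⟩ := h1 f
    obtain ⟨x', hx', -⟩ := h1 f'
    refine h f f' x x' hx hx' ?_
    unfold Graph.Joins at hv hv'
    rw [hx, Option.getD_some] at hv
    rw [hx', Option.getD_some] at hv'
    rcases hv with ⟨h4, h5⟩ | ⟨h4, h5⟩ <;> rcases hv' with ⟨h6, h7⟩ | ⟨h6, h7⟩
    · exact Or.inl ⟨h4.symm.trans h6, h5.symm.trans h7⟩
    · exact Or.inr ⟨h4.symm.trans h7, h5.symm.trans h6⟩
    · exact Or.inr ⟨h4.symm.trans h7, h5.symm.trans h6⟩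
    · exact Or.inl ⟨h4.symm.trans h6, h5.symm.trans h7⟩

theorem simB_data {p q : ℕ} (J : GInst p q) : simB J.data = true ↔ J.G.Simple := by
  classical
  have hl : J.data.tail.length = J.m := by
    unfold GInst.data
    simp
  have hs : ∀ f : Fin J.m, sI J.data f = false ↔ ∃ w, J.G.b f = some w := by
    intro f
    rw [← Bool.not_eq_true, sI_data, ← Option.isSome_iff_exists]
    cases J.G.b f <;> simp
  rw [simple_iff]
  unfold simB
  rw [hl]
  simp only [Bool.and_eq_true, List.all_eq_true, List.mem_range, Bool.or_eq_true,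
    Bool.not_eq_true', decide_eq_true_eq, decide_eq_false_iff_not, Bool.or_eq_false_iff,
    Bool.and_eq_false_iff]
  constructor
  · rintro ⟨h1, h2⟩
    have h3 : ∀ f, ∃ w, J.G.b f = some w ∧ w ≠ J.G.a f := by
      intro f
      obtain ⟨h4, h5⟩ := h1 f f.2
      obtain ⟨w, hw⟩ := (hs f).1 h4
      refine ⟨w, hw, fun h => h5 ?_⟩
      rw [aI_data, bI_data J f w hw, h]
    refine ⟨h3, fun f f' w w' hw hw' h => ?_⟩
    have h4 := h2 f f.2 f' f'.2
    rw [aI_data, aI_data, bI_data J f w hw, bI_data J f' w' hw'] at h4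
    rcases h4 with h4 | ⟨h4, h5⟩
    · exact Fin.ext h4
    · exfalso
      rcases h with ⟨h6, h7⟩ | ⟨h6, h7⟩
      · rw [h6, h7] at h4
        simp at h4
      · rw [h6, h7] at h5
        simp at h5
  · rintro ⟨h1, h2⟩
    refine ⟨fun f hf => ?_, fun f hf f' hf' => ?_⟩
    · obtain ⟨w, hw, hne⟩ := h1 ⟨f, hf⟩
      refine ⟨(hs ⟨f, hf⟩).2 ⟨w, hw⟩, ?_⟩
      have e1 := aI_data J ⟨f, hf⟩
      have e2 := bI_data J ⟨f, hf⟩ w hw
      simp only at e1 e2
      rw [e1, e2]
      exact fun h => hne (Fin.ext h.symm)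
    · obtain ⟨w, hw, hne⟩ := h1 ⟨f, hf⟩
      obtain ⟨w', hw', hne'⟩ := h1 ⟨f', hf'⟩
      have e1 := aI_data J ⟨f, hf⟩
      have e2 := bI_data J ⟨f, hf⟩ w hw
      have e3 := aI_data J ⟨f', hf'⟩
      have e4 := bI_data J ⟨f', hf'⟩ w' hw'
      simp only at e1 e2 e3 e4
      rw [e1, e2, e3, e4]
      by_cases h : f = f'
      · exact Or.inl h
      · right
        have h3 := h2 ⟨f, hf⟩ ⟨f', hf'⟩ w w' hw hw'
        have h4 : ¬ ((J.G.a ⟨f, hf⟩ = J.G.a ⟨f', hf'⟩ ∧ w = w') ∨
            (J.G.a ⟨f, hf⟩ = w' ∧ w = J.G.a ⟨f', hf'⟩)) := fun h5 => h (Fin.ext_iff.1 (h3 h5))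
        simp only [Fin.ext_iff] at h4
        tauto

private theorem getD_bitsOf {p : ℕ} (S : Finset (Fin p)) (i : ℕ) (hi : i < p) :
    (bitsOf S).getD i false = decide ((⟨i, hi⟩ : Fin p) ∈ S) := by
  unfold bitsOf
  rw [List.getD_eq_getElem _ _ (by rw [List.length_ofFn]; exact hi), List.getElem_ofFn]

theorem E2M_data {p q : ℕ} (J : GInst p q) (hJ : J.G.Simple) :
    E2M J.data = dataOf J.toS := by
  classical
  have hh : J.data.headD [] = List.ofFn fun u => bitsOf (J.Lv u) := rfl
  have hl : (J.data.headD []).length = J.n := by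
    rw [hh, List.length_ofFn]
  have ht : J.data.tail = List.ofFn fun f =>
    [bitsOf (J.Le f), bitsOf {J.G.a f}, bitsOf (J.G.b f).toFinset] := rfl
  have hj : ∀ (i j : Fin J.n) (f : Fin J.m), joinsB i j
      [bitsOf (J.Le f), bitsOf {J.G.a f}, bitsOf (J.G.b f).toFinset] = true ↔
      J.G.Joins f i j := by
    intro i j f
    obtain ⟨w, hw, -⟩ := hJ.1 f
    unfold joinsB Graph.Joins
    rw [hw]
    simp only [List.getD_cons_succ, List.getD_cons_zero, Option.toFinset_some, Option.getD_some]
    rw [getD_bitsOf _ _ i.2, getD_bitsOf _ _ j.2, getD_bitsOf _ _ i.2, getD_bitsOf _ _ j.2]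
    simp only [Bool.or_eq_true, Bool.and_eq_true, decide_eq_true_eq, Finset.mem_singleton,
      Fin.eta]
  unfold E2M
  rw [hl]
  refine List.ext_getElem (by rw [List.length_map, List.length_range, length_dataOf]; rfl)
    fun i hi hi' => ?_
  rw [List.length_map, List.length_range] at hi
  rw [List.getElem_map, List.getElem_range, ← List.getD_eq_getElem _ [] hi',
    dataOf_getD J.toS i hi]
  congr 1
  · rw [hh, List.getD_eq_getElem _ _ (by rw [List.length_ofFn]; exact hi), List.getElem_ofFn]
    rfl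
  · refine List.ext_getElem (by rw [List.length_map, List.length_range, List.length_ofFn]; rfl)
      fun j hj1 hj2 => ?_
    rw [List.length_map, List.length_range] at hj1
    rw [List.getElem_map, List.getElem_range, List.getElem_ofFn]
    have key : ∀ i j : Fin J.n, (J.data.tail.find? (joinsB i j)).elim [false]
        (fun r => true :: r.getD 0 []) =
        if J.toS.G.Adj i j then true :: bitsOf (J.toS.Le s(i, j)) else [false] := by
      intro i j
      by_cases hf : ∃ f, J.G.Joins f i j
      · obtain ⟨f, hf⟩ := hf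
        have hne : i ≠ j := by
          obtain ⟨w, hw, hne⟩ := hJ.1 f
          unfold Graph.Joins at hf
          rw [hw, Option.getD_some] at hf
          rintro rfl
          rcases hf with ⟨h1, h2⟩ | ⟨h1, h2⟩
          · exact hne (h2.symm.trans h1)
          · exact hne (h2.symm.trans h1)
        have hadj : J.toS.G.Adj i j := by
          unfold GInst.toS
          rw [SimpleGraph.fromRel_adj]
          exact ⟨hne, Or.inl ⟨f, hf⟩⟩
        rw [if_pos hadj]
        have hLe : J.toS.Le s(i, j) = J.Le f := by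
          unfold GInst.toS
          ext c
          simp only [Finset.mem_filter, Finset.mem_univ, true_and]
          constructor
          · rintro ⟨f', v, w, h1, h2, h3⟩
            have h4 : J.G.Joins f' i j := by
              rw [Sym2.eq_iff] at h2
              rcases h2 with ⟨rfl, rfl⟩ | ⟨rfl, rfl⟩
              · exact h1
              · exact h1.symm
            rw [hJ.2 f f' i j hf h4]
            exact h3
          · intro h
            exact ⟨f, i, j, hf, rfl, h⟩
        rw [hLe]
        have hfind : ∃ r, J.data.tail.find? (joinsB i j) = some r := by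
          rw [← Option.isSome_iff_exists, List.find?_isSome]
          refine ⟨[bitsOf (J.Le f), bitsOf {J.G.a f}, bitsOf (J.G.b f).toFinset], ?_,
            (hj i j f).2 hf⟩
          rw [ht, List.mem_ofFn]
          exact ⟨f, rfl⟩
        obtain ⟨r, hr⟩ := hfind
        rw [hr, Option.elim_some]
        have hr1 := List.find?_some hr
        have hr2 := List.mem_of_find?_eq_some hr
        rw [ht, List.mem_ofFn] at hr2
        obtain ⟨f', rfl⟩ := hr2
        rw [hJ.2 f f' i j hf ((hj i j f').1 hr1)]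
        rfl
      · rw [if_neg]
        · have hfind : J.data.tail.find? (joinsB i j) = none := by
            rw [List.find?_eq_none]
            intro r hr hb
            rw [ht, List.mem_ofFn] at hr
            obtain ⟨f, rfl⟩ := hr
            exact hf ⟨f, (hj i j f).1 hb⟩
          rw [hfind]
          rfl
        · intro hadj
          unfold GInst.toS at hadj
          rw [SimpleGraph.fromRel_adj] at hadj
          rcases hadj.2 with ⟨f, h⟩ | ⟨f, h⟩
          · exact hf ⟨f, h⟩
          · exact hf ⟨f, h.symm⟩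
    exact key ⟨i, hi⟩ ⟨j, hj1⟩

end Pool.Agent.Lib.MP_9c5086_lc
end

section

/-!
Classes of regular graphs are infinite.
-/

namespace Pool.Agent.Lib.MP_9c5086_lc

namespace Graph

/-- In a regular graph of degree at least three all classes are infinite. -/
theorem infinite_of_regular {p q : ℕ} (H : Graph (Fin p) (Fin q)) (k : ℕ) (hk : 3 ≤ k)
    (hreg : ∀ v, H.degree v = k) (x : Fin p) : H.InfiniteClass (fun _ => ()) x () := by
  have h1 : ∀ v, 1 < {d : H.Dart | d.src = v}.ncard := by
    intro v
    have := hreg v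
    unfold degree at this
    omega
  have h2 : ∀ d : H.Dart, ∃ d' : H.Dart, d'.src = d.tgt ∧ d' ≠ d.inv := by
    intro d
    obtain ⟨d', hd', hne⟩ := Set.exists_ne_of_one_lt_ncard (h1 d.tgt) d.inv
    exact ⟨d', hd', hne⟩
  choose nxt hn1 hn2 using h2
  obtain ⟨d0, hd0⟩ : ∃ d : H.Dart, d.src = x := by
    have h3 : 0 < {d : H.Dart | d.src = x}.ncard := by
      have := h1 x
      omega
    obtain ⟨d, hd⟩ := (Set.ncard_pos (Set.toFinite _)).1 h3
    exact ⟨d, hd⟩
  refine ⟨fun r => Nat.rec d0 (fun _ d => nxt d) r, hd0, rfl, ?_⟩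
  intro r
  exact ⟨hn1 _, hn2 _⟩

end Graph

end Pool.Agent.Lib.MP_9c5086_lc
end
end
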