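import Pool.Agent.Lib.MP_9c5086_lc.Glue
import Pool.Agent.Lib.MP_9c5086_lc.OutFinite
import Pool.Agent.Lib.MP_9c5086_lc.ClosedWalk
import Pool.Agent.Lib.MP_9c5086_lc.OutGood
import Pool.Agent.Lib.MP_9c5086_lc.PMSplit
import Pool.Agent.Lib.MP_9c5086_lc.CGadDefs
import Pool.Agent.Lib.MP_9c5086_lc.CPTMb
import Pool.Agent.Lib.MP_9c5086_lc.BStatic
import Pool.Agent.Lib.MP_9c5086_lc.Regular
import Pool.Agent.Lib.MP_9c5086_lc.GConv
import Pool.Agent.Lib.MP_9c5086_lc.OutEq
import Pool.Agent.Lib.MP_9c5086_lc.CloneAll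
import Pool.Agent.Lib.MP_9c5086_lc.CMain
import Pool.Agent.Lib.MP_9c5086_lc.CAlgP
import Pool.Agent.Lib.MP_9c5086_lc.CRef

section

section

/-!
The star.
-/

namespace Pool.Agent.Lib.MP_9c5086_lc

namespace Graph

variable {V E I : Type} {H : Graph V E} {t : V → I}

private abbrev StarQ (S : Setup H t (Fin 3)) : Type :=
  {s : H.Dart // s.src = S.x ∧ ∀ a, s ≠ S.dc a}

private def starSlot (S : Setup H t (Fin 3)) : Option (StarQ S) → Option (StarQ S) → H.Dart
  | none, some s => s.1
  | some s, none => s.1.inv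
  | _, _ => S.dc 0

private def starLe (S : Setup H t (Fin 3)) : Option (StarQ S) → Option (StarQ S) → Set E
  | none, some s => {s.1.edge}
  | some s, none => {s.1.edge}
  | _, _ => Set.univ

private def starMv (S : Setup H t (Fin 3)) : Option (StarQ S) → V
  | none => S.x
  | some s => s.1.tgt

private def starLv (S : Setup H t (Fin 3)) : Option (StarQ S) → Set V
  | none => {S.x}
  | some _ => Set.univ

private def starT (S : Setup H t (Fin 3)) : SimpleGraph (Option (StarQ S)) where
  Adj u u' := (u = none ∧ u' ≠ none) ∨ (u' = none ∧ u ≠ none)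
  symm := ⟨fun _ _ h => h.symm⟩
  loopless := ⟨fun _ h => by rcases h with h | h <;> exact h.2 h.1⟩

private theorem starT_cases {S : Setup H t (Fin 3)} {u u' : Option (StarQ S)}
    (h : (starT S).Adj u u') :
    (∃ s, u = none ∧ u' = some s) ∨ (∃ s, u = some s ∧ u' = none) := by
  rcases h with ⟨h1, h2⟩ | ⟨h1, h2⟩
  · obtain ⟨s, hs⟩ := Option.ne_none_iff_exists'.1 h2
    exact Or.inl ⟨s, h1, hs⟩
  · obtain ⟨s, hs⟩ := Option.ne_none_iff_exists'.1 h2
    exact Or.inr ⟨s, hs, h1⟩

private theorem star_inv {S : Setup H t (Fin 3)} {u u' : Option (StarQ S)}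
    (h : (starT S).Adj u u') : starSlot S u' u = (starSlot S u u').inv := by
  rcases starT_cases h with ⟨s, rfl, rfl⟩ | ⟨s, rfl, rfl⟩
  · rfl
  · exact (Dart.inv_inv s.1).symm

private theorem star_src {S : Setup H t (Fin 3)} {u u' : Option (StarQ S)}
    (h : (starT S).Adj u u') : (starSlot S u u').src = starMv S u := by
  rcases starT_cases h with ⟨s, rfl, rfl⟩ | ⟨s, rfl, rfl⟩
  · exact s.2.1
  · exact Dart.src_inv s.1

private theorem star_inj {S : Setup H t (Fin 3)} {u u' u'' : Option (StarQ S)}
    (h : (starT S).Adj u u') (h' : (starT S).Adj u u'')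
    (he : starSlot S u u' = starSlot S u u'') : u' = u'' := by
  rcases starT_cases h with ⟨s, rfl, rfl⟩ | ⟨s, rfl, rfl⟩
  · rcases starT_cases h' with ⟨s', _, rfl⟩ | ⟨s', h1, _⟩
    · exact congrArg some (Subtype.ext he)
    · cases h1
  · rcases starT_cases h' with ⟨s', h1, _⟩ | ⟨s', _, rfl⟩
    · cases h1
    · rfl

/-- The star. -/
private def star [Finite E] (S : Setup H t (Fin 3)) : Proto S (Fin 3) (fun _ => true) where
  U := Option (StarQ S)
  finU := inferInstance
  T := starT S
  mv := starMv S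
  slot := starSlot S
  pu _ := none
  ps a := S.dc a
  Lv := starLv S
  Le := starLe S
  LP _ := Set.univ
  src_slot _ _ h := star_src h
  src_ps p := S.src_dc p
  inj_slot _ _ _ h h' he := star_inj h h' he
  inj_ps p p' _ h := S.inj_dc p p' (congrArg Dart.edge h)
  disj p u h h1 := by
    rcases starT_cases h with ⟨s, _, rfl⟩ | ⟨s, h2, _⟩
    · exact s.2.2 p h1
    · cases h2
  ty_slot u u' h := by
    rcases starT_cases h with ⟨s, rfl, rfl⟩ | ⟨s, rfl, rfl⟩
    · rfl
    · change t s.1.inv.tgt = t S.x
      rw [Dart.tgt_inv, s.2.1]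
  Le_comm u u' h := by
    rcases starT_cases h with ⟨s, rfl, rfl⟩ | ⟨s, rfl, rfl⟩
    · rfl
    · rfl
  ty_pos p _ := ⟨rfl, S.ty_dc p, subset_rfl⟩
  ty_neg p h := by simp at h
  neg_inj p p' h := by simp at h
  neg_pos p p' h := by simp at h
  neg_adj p p' h := by simp at h

private theorem inc_star [Finite E] (S : Setup H t (Fin 3)) (a : Fin 3) :
    H.inc (S.ec a) S.x ≤ {s : StarQ S | s.1.edge = S.ec a}.ncard + 1 := by
  have h1 : {d : H.Dart | d.edge = S.ec a ∧ d.src = S.x} ⊆
      insert (S.dc a) ((fun s : StarQ S => s.1) '' {s : StarQ S | s.1.edge = S.ec a}) := by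
    rintro d ⟨h1, h2⟩
    by_cases h : d = S.dc a
    · exact Or.inl h
    · right
      refine ⟨⟨d, h2, ?_⟩, h1, rfl⟩
      intro b hb
      have h3 : a = b := S.inj_dc a b (by
        have h4 : d.edge = (S.dc a).edge := h1
        rw [← h4, hb])
      exact h (h3 ▸ hb)
  unfold inc
  refine (Set.ncard_le_ncard h1 (Set.toFinite _)).trans ?_
  refine (Set.ncard_insert_le _ _).trans ?_
  exact Nat.add_le_add_right (Set.ncard_image_le (Set.toFinite _)) 1

/-- The star with three positive ports realizes the injective assignments. -/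
theorem real_star [Finite V] [Finite E] (S : Setup H t (Fin 3)) :
    Real S (Fin 3) (fun _ => true) (fun c => Function.Injective c) := by
  classical
  have : Nonempty E := ⟨S.ec 0⟩
  refine ⟨inferInstance, (star S).gadget, fun c => ?_⟩
  rw [Proto.sat_iff]
  constructor
  · intro hc
    refine ⟨starMv S, fun u u' => (starSlot S u u').edge, Proto.Sol.of_darts (A := star S) c (starMv S)
      (starSlot S) (fun p => S.dc (c p)) (fun _ _ h => star_src h) (fun _ _ h => star_inv h)
      (fun _ _ _ h h' he => star_inj h h' he) (fun p => S.src_dc _) (fun _ => rfl)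
      (fun p p' _ h => hc (S.inj_dc _ _ (congrArg Dart.edge h))) ?_ (fun _ => rfl) ?_ ?_ ?_
      (fun _ => Set.mem_univ _)⟩
    · intro p u h h1
      rcases starT_cases h with ⟨s, _, rfl⟩ | ⟨s, h2, _⟩
      · exact s.2.2 (c p) h1
      · cases h2
    · intro p h
      simp at h
    · rintro (_ | s)
      · rfl
      · exact Set.mem_univ _
    · intro u u' h
      rcases starT_cases h with ⟨s, rfl, rfl⟩ | ⟨s, rfl, rfl⟩
      · rfl
      · exact Dart.edge_inv s.1
  · rintro ⟨fv, fe, h⟩ p p' hp
    by_contra hne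
    have hx : fv none = S.x := h.lv none
    have h1 := h.count none (S.ec (c p))
    rw [hx] at h1
    have h2 := inc_star S (c p)
    have h3 : {s : StarQ S | s.1.edge = S.ec (c p)}.ncard ≤
        {u' | (star S).T.Adj none u' ∧ fe none u' = S.ec (c p)}.ncard := by
      have : Finite (star S).U := (star S).finU
      refine Set.ncard_le_ncard_of_injOn (fun s => (some s : Option (StarQ S))) ?_ ?_
        (Set.toFinite _)
      · intro s hs
        have hadj : (star S).T.Adj none (some s) := Or.inl ⟨rfl, by simp⟩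
        refine ⟨hadj, ?_⟩
        have h4 : fe none (some s) = s.1.edge := h.le none (some s) hadj
        exact h4.trans hs
      · intro s _ s' _ hss
        exact Option.some_injective _ hss
    have h4 : 2 ≤ {q | (star S).pu q = none ∧ S.ec (c q) = S.ec (c p)}.ncard := by
      have h5 : ({p, p'} : Set (Fin 3)) ⊆
          {q | (star S).pu q = none ∧ S.ec (c q) = S.ec (c p)} := by
        rintro q (rfl | hq)
        · exact ⟨rfl, rfl⟩
        · obtain rfl : q = p' := hq
          exact ⟨rfl, by rw [← hp]⟩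
      have h6 := Set.ncard_le_ncard h5 (Set.toFinite _)
      rwa [Set.ncard_pair hne] at h6
    omega

end Graph

end Pool.Agent.Lib.MP_9c5086_lc
end

section

/-!
The equality wire.
-/

namespace Pool.Agent.Lib.MP_9c5086_lc

namespace Graph

variable {V E I : Type} {H : Graph V E} {t : V → I}

/-- The path on the numbers `0, ..., L`. -/
private def pathG (L : ℕ) : SimpleGraph (Fin (L + 1)) where
  Adj r r' := r.1 + 1 = r'.1 ∨ r'.1 + 1 = r.1
  symm := ⟨fun _ _ h => h.symm⟩
  loopless := ⟨fun r h => by omega⟩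

private theorem path_adj {X : Type} {G : SimpleGraph X} {L : ℕ} {e : ℕ → X}
    (headj : ∀ r, r < L → G.Adj (e r) (e (r + 1))) {r r' : Fin (L + 1)}
    (h : (pathG L).Adj r r') : G.Adj (e r.1) (e r'.1) := by
  rcases h with h | h
  · rw [← h]
    exact headj _ (by have := r'.2; omega)
  · rw [← h]
    exact (headj _ (by have := r.2; omega)).symm

private theorem path_inj {X : Type} {L : ℕ} {e : ℕ → X}
    (henb : ∀ r, r + 2 ≤ L → e (r + 2) ≠ e r) {u u' u'' : Fin (L + 1)}
    (h : (pathG L).Adj u u') (h' : (pathG L).Adj u u'') (he : e u'.1 = e u''.1) : u' = u'' := by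
  have h1 := u'.2
  have h2 := u''.2
  rcases h with h | h <;> rcases h' with h' | h'
  · exact Fin.ext (by omega)
  · exfalso
    refine henb u''.1 (by omega) ?_
    rw [← he]
    congr 1
    omega
  · exfalso
    refine henb u'.1 (by omega) ?_
    rw [he]
    congr 1
    omega
  · exact Fin.ext (by omega)

/-- The ends of the path. -/
private def pathEnd (L : ℕ) (b : Bool) : Fin (L + 1) := if b then Fin.last L else 0

private theorem pathEnd_inj {L : ℕ} (hL : 2 ≤ L) {b b' : Bool} (h : pathEnd L b = pathEnd L b') :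
    b = b' := by
  have h1 := congrArg Fin.val h
  cases b <;> cases b' <;> simp [pathEnd] at h1 <;> first | rfl | omega

/-- The equality wire. -/
theorem real_wire [Finite V] [Finite E] (ht : H.Equitable t) {Col : Type}
    [Nonempty Col] (S : Setup H t Col) (hj : S.j ≠ t S.x)
    (hsep : ∀ c c', H.RConn {v | t v ≠ t S.x} (S.dc c).tgt (S.dc c').tgt → c = c')
    (hinf : InfAvoid H t S.x S.j) :
    Real S Bool (fun _ => false) (fun c => c true = c false) := by
  classical
  obtain ⟨c0⟩ := (inferInstance : Nonempty Col)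
  have hE : Nonempty E := ⟨S.ec c0⟩
  obtain ⟨Y⟩ := exists_univ H t ht
  have hYfin := Y.fin
  obtain ⟨f, hf, hfr, hfnb⟩ := Y.mode S.x S.x (Mode.refl H t S.x)
  have hwn : Y.G.Adj (Y.r S.x) (Y.nb (S.dc c0)) := by
    have := Y.adj_nb (S.dc c0)
    rwa [S.src_dc] at this
  have hfd : f.fd (Y.r S.x) (Y.nb (S.dc c0)) = S.dc c0 := hfnb ⟨S.dc c0, S.src_dc c0⟩
  have hfn1 : f.fv (Y.nb (S.dc c0)) = (S.dc c0).tgt := by rw [← f.tgt_fd hwn, hfd]
  obtain ⟨d, hd0, hdj, hdW, hdav⟩ := hinf
  obtain ⟨c, hc0, hc1, hcadj, hcty⟩ := exists_walk_cover ht f d hdW (Y.r S.x) (Y.nb (S.dc c0)) hwn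
    (by rw [hfr, hd0]) (by rw [hfn1, S.ty_dc, hdj])
  obtain ⟨L, hL, e, he0, he1, heL, heA, headj, henb⟩ := exists_closed_walk Y.G
    {n | Y.τ n ≠ t S.x} (fun r => c (r + 1)) (fun r => by
      show Y.τ (c (r + 1)) ≠ t S.x
      rw [← hf, hcty]
      exact hdav r) (fun r => (hcadj (r + 1)).1) (fun r => (hcadj (r + 1)).2)
  have hinv0 : (S.dc c0).inv = f.fd (Y.nb (S.dc c0)) (Y.r S.x) := by rw [f.inv_fd hwn, hfd]
  have he0' : e 0 = Y.nb (S.dc c0) := he0.trans hc1
  have heL' : e L = Y.nb (S.dc c0) := heL.trans hc1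
  have hend : ∀ b, e (pathEnd L b).1 = Y.nb (S.dc c0) := by
    intro b
    cases b
    · exact he0'
    · exact heL'
  have hav : ∀ r : Fin (L + 1), e r.1 ≠ Y.r S.x := by
    intro r h
    have h1 : Y.τ (e r.1) ≠ t S.x := heA r.1 (by have := r.2; omega)
    rw [h, Y.τ_r] at h1
    exact h1 rfl
  let A : Proto S Bool (fun _ => false) :=
    { U := Fin (L + 1)
      finU := inferInstance
      T := pathG L
      mv := fun r => f.fv (e r.1)
      slot := fun r r' => f.fd (e r.1) (e r'.1)
      pu := pathEnd L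
      ps := fun _ => (S.dc c0).inv
      Lv := fun _ => Set.univ
      Le := fun _ _ => Set.univ
      LP := fun _ => Set.univ
      src_slot := fun u u' h => f.src_fd (path_adj headj h)
      src_ps := fun p => by rw [Dart.src_inv, hend, hfn1]
      inj_slot := fun u u' u'' h h' he =>
        path_inj henb h h' (f.inj_fd (path_adj headj h) (path_adj headj h') he)
      inj_ps := fun p p' h _ => pathEnd_inj hL h
      disj := fun p u h he => by
        have h1 := path_adj headj h
        rw [hend] at h1 he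
        rw [hinv0] at he
        exact hav u (f.inj_fd h1 hwn.symm he)
      ty_slot := fun u u' h => by rw [f.tgt_fd (path_adj headj h)]
      Le_comm := fun _ _ _ => rfl
      ty_pos := fun p h => by simp at h
      ty_neg := fun p _ => ⟨by rw [hend, hfn1, S.ty_dc], by rw [Dart.tgt_inv, S.src_dc]⟩
      neg_inj := fun p p' _ _ h => pathEnd_inj hL h
      neg_pos := fun p p' _ h => by simp at h
      neg_adj := fun p p' _ h => by simp at h }
  refine ⟨inferInstance, A.gadget, fun cc => ?_⟩
  rw [A.sat_iff]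
  constructor
  · intro hcc
    obtain ⟨μ, hμ⟩ := exists_mode H t ht (S.dc c0) (S.dc (cc true))
      (by rw [S.src_dc, S.src_dc]) (by rw [S.ty_dc, S.ty_dc])
    obtain ⟨fa, hfa, hfar, hfanb⟩ := Y.mode _ _ μ
    have hfad : fa.fd (Y.r (S.dc c0).src) (Y.nb (S.dc c0)) = S.dc (cc true) :=
      (hfanb ⟨S.dc c0, rfl⟩).trans hμ
    rw [S.src_dc] at hfad
    have hinv1 : (S.dc (cc true)).inv = fa.fd (Y.nb (S.dc c0)) (Y.r S.x) := by
      rw [fa.inv_fd hwn, hfad]
    have hfan : fa.fv (Y.nb (S.dc c0)) = (S.dc (cc true)).tgt := by rw [← fa.tgt_fd hwn, hfad]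
    refine ⟨fun u => fa.fv (e u.1), fun u u' => (fa.fd (e u.1) (e u'.1)).edge,
      Proto.Sol.of_darts A cc (fun u => fa.fv (e u.1)) (fun u u' => fa.fd (e u.1) (e u'.1))
        (fun _ => (S.dc (cc true)).inv) ?_ ?_ ?_ ?_ ?_ ?_ ?_ ?_ ?_ ?_ ?_ ?_⟩
    · intro u u' h
      exact fa.src_fd (path_adj headj h)
    · intro u u' h
      exact fa.inv_fd (path_adj headj h)
    · intro u u' u'' h h' he
      exact path_inj henb h h' (fa.inj_fd (path_adj headj h) (path_adj headj h') he)
    · intro p
      show ((S.dc (cc true)).inv).src = fa.fv (e (pathEnd L p).1)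
      rw [Dart.src_inv, hend, hfan]
    · intro p
      rw [Dart.edge_inv]
      cases p
      · rw [← hcc]; rfl
      · rfl
    · intro p p' h _
      exact pathEnd_inj hL h
    · intro p u h he
      have h1 := path_adj headj h
      have he' : fa.fd (e (pathEnd L p).1) (e u.1) = (S.dc (cc true)).inv := he
      have h1' : Y.G.Adj (e (pathEnd L p).1) (e u.1) := h1
      rw [hend] at h1' he'
      rw [hinv1] at he'
      exact hav u (fa.inj_fd h1' hwn.symm he')
    · intro u
      show t (fa.fv (e u.1)) = t (f.fv (e u.1))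
      rw [hfa, hf]
    · intro p _
      show ((S.dc (cc true)).inv).tgt = S.x
      rw [Dart.tgt_inv, S.src_dc]
    · intro u
      exact Set.mem_univ _
    · intro u u' _
      exact Set.mem_univ _
    · intro p
      exact Set.mem_univ _
  · rintro ⟨fv, fe, hs⟩
    have h0 : fv (pathEnd L false) = (S.dc (cc false)).tgt := S.eq_tgt (hs.neg false rfl)
    have h1 : fv (pathEnd L true) = (S.dc (cc true)).tgt := S.eq_tgt (hs.neg true rfl)
    have hty : ∀ u : Fin (L + 1), t (fv u) ≠ t S.x := by
      intro u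
      have h2 : t (fv u) = t (f.fv (e u.1)) := hs.ty u
      rw [h2, hf]
      exact heA u.1 (by have := u.2; omega)
    have hconn : ∀ k (hk : k < L + 1), H.RConn {v | t v ≠ t S.x} (fv (0 : Fin (L + 1)))
        (fv (⟨k, hk⟩ : Fin (L + 1))) := by
      intro k
      induction k with
      | zero => intro hk; exact Relation.ReflTransGen.refl
      | succ k ih =>
        intro hk
        have h2 := ih (by omega)
        have hadj : (pathG L).Adj (⟨k, by omega⟩ : Fin (L + 1)) ⟨k + 1, hk⟩ := Or.inl rfl
        exact Relation.ReflTransGen.tail h2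
          ⟨hty _, hty _, _, hs.joins (⟨k, by omega⟩ : Fin (L + 1)) ⟨k + 1, hk⟩ hadj⟩
    have h2 := hconn L (by omega)
    have h3 : fv (0 : Fin (L + 1)) = (S.dc (cc false)).tgt := h0
    have h4 : fv (⟨L, by omega⟩ : Fin (L + 1)) = (S.dc (cc true)).tgt := h1
    rw [h3, h4] at h2
    exact (hsep _ _ h2).symm

end Graph

end Pool.Agent.Lib.MP_9c5086_lc
end

section

/-!
Walks avoiding the block of `x` exist.
-/

namespace Pool.Agent.Lib.MP_9c5086_lc

namespace Graph

variable {V E I : Type} {H : Graph V E} {t : V → I}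

private theorem exists_perm_three : ∀ a b : Fin 3, a ≠ b →
    ∃ e : Equiv.Perm (Fin 3), e 0 = a ∧ e 2 = b := by
  decide

/-- Walks avoiding the block of `x` exist. -/
theorem outcome_avoid [Finite V] [Finite E] (ht : H.Equitable t) (hH : H.Connected)
    (x : V) (j : I) (hj : j ≠ t x) (h3 : 3 ≤ H.classSize t x j) (ha : InfAvoid H t x j) :
    Outcome H t := by
  classical
  have hfin : {d : H.Dart | d.src = x ∧ t d.tgt = j}.Finite := by
    by_contra hinf
    have h0 : {d : H.Dart | d.src = x ∧ t d.tgt = j}.ncard = 0 :=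
      Set.Infinite.ncard hinf
    unfold classSize at h3
    omega
  have h3' : 2 < {d : H.Dart | d.src = x ∧ t d.tgt = j}.ncard := h3
  rw [Set.two_lt_ncard_iff hfin] at h3'
  obtain ⟨d0, d1, d2, h0, h1, h2, h01, h02, h12⟩ := h3'
  obtain ⟨d, hd, hdinj⟩ : ∃ d : Fin 3 → H.Dart, (∀ a, (d a).src = x ∧ t (d a).tgt = j) ∧
      Function.Injective d := by
    refine ⟨![d0, d1, d2], ?_, ?_⟩
    · intro a
      fin_cases a
      · exact h0
      · exact h1
      · exact h2
    · intro a b hab
      fin_cases a <;> fin_cases b <;> simp_all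
  have htgt : ∀ a, (d a).tgt ≠ x := by
    intro a hh
    apply hj
    rw [← (hd a).2, hh]
  have hedge : ∀ a b, (d a).edge = (d b).edge → a = b := by
    intro a b hab
    rcases Dart.eq_or_inv hab with h | h
    · exact (hdinj h).symm
    · exfalso
      apply htgt a
      rw [← Dart.src_inv, ← h]
      exact (hd b).1
  by_cases hcase : ∃ a b, a ≠ b ∧ H.RConn {v | t v ≠ t x} (d a).tgt (d b).tgt
  · obtain ⟨a, b, hab, hR⟩ := hcase
    have hmono : {v | t v ≠ t x} ⊆ {v : V | v ≠ x} := by
      intro v hv hvx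
      apply hv
      rw [hvx]
    have hga : Good H t x (d a) := by
      right; left
      exact ⟨d b, (hd b).1, fun h => hab (hdinj h).symm, htgt b, hR.mono hmono⟩
    have hgb : Good H t x (d b) := by
      right; left
      exact ⟨d a, (hd a).1, fun h => hab (hdinj h), htgt a, hR.symm.mono hmono⟩
    obtain ⟨e, he0, he2⟩ := exists_perm_three a b hab
    refine outcome_of_good ht hH x j (fun i => d (e i)) (fun i => hd (e i)) ?_ ?_ ?_
    · intro i i' h
      exact e.injective (hedge _ _ h)
    · rw [he0]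
      exact hga
    · rw [he2]
      exact hgb
  · have hsep : ∀ c c', H.RConn {v | t v ≠ t x} (d c).tgt (d c').tgt → c = c' := by
      intro c c' h
      by_contra hne
      exact hcase ⟨c, c', hne, h⟩
    let S : Setup H t (Fin 3) := ⟨x, j, d, fun a => (hd a).1, fun a => (hd a).2, hedge⟩
    have hwire : Real S Bool (fun _ => false) (fun c => c true = c false) :=
      real_wire ht S hj hsep ha
    have hflip : Real S (Fin 3) (fun _ => false) (fun c => Function.Injective c) :=
      (realClone S).flip hwire (real_star S)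
    left
    exact ⟨S, _, hflip, fun c h => h, 0, fun c h => Or.inl h⟩

end Graph

end Pool.Agent.Lib.MP_9c5086_lc
end
end

section

section

/-!
NP-hardness from realizability.
-/

namespace Pool.Agent.Lib.MP_9c5086_lc

open Pool.Agent.Lib.PolyTime

namespace Graph

/-- NP-hardness from realizability. -/
theorem hard_of_real {V E I : Type} [Finite V] [Finite E] [Nonempty E] {H : Graph V E}
    {t : V → I} (ht : H.Equitable t) {p q : ℕ} (H' : Graph (Fin p) (Fin q)) (em : Emb H H')
    {Col : Type} (S : Setup H t Col) (Tc Fc : Col) (hTF : Tc ≠ Fc)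
    (hreal : ∀ (P : Type) [Finite P] (sg : P → Bool) (R : (P → Bool) → Prop),
      Real S P sg (fun c => ∃ b : P → Bool, R b ∧ ∀ p, c p = if b p then Tc else Fc)) :
    ∀ L ∈ N68a2faeb.NP, N793a5b8e.ManyOneReducible L (LISTCOVER H') := by
  intro L hL
  obtain ⟨pl, R, hR, hLR⟩ := hL
  obtain ⟨TC⟩ := hR
  obtain ⟨Y⟩ := exists_univ H t ht
  have h1 := fun k : Kind => (hreal _ tsg
    ((tabSystem (flat TC.tm) TC.tm.k₀ (vq₀ TC) (vsy TC) (vacc TC)).rel k)).2
  choose g hg using h1
  refine ⟨fun x => encodeInst (outInst Y g em.jv em.je (templateOf pl (vblank TC pl) x)), ?_, ?_⟩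
  · refine isPolyTime_of_isPoly ?_
    exact IsPoly.comp (isPoly_outInst Y g em.jv em.je) (isPoly_templateOf pl (vblank TC pl))
      (fun _ _ => trivial)
  · intro x
    have h2 : (L x = true) ↔ ∃ A, Tab (flat TC.tm) TC.tm.k₀ (vq₀ TC) (vsy TC) (vacc TC)
        (templateOf pl (vblank TC pl) x) A := (hLR x).trans (tab_iff TC pl x).symm
    have h3 : LISTCOVER H' (encodeInst (outInst Y g em.jv em.je
        (templateOf pl (vblank TC pl) x))) = true ↔ L x = true := by
      rw [listcover_encodeInst, outInst_cover Y g ht H' em _ (fun e => e.elim), h2,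
        tab_iff_tiles]
      exact torusGadget_sat _ (kindZ (templateOf pl (vblank TC pl) x)) Tc Fc hTF g hg _
    exact Bool.eq_iff_iff.2 h3.symm

end Graph

end Pool.Agent.Lib.MP_9c5086_lc
end

section

/-!
Polynomial time: the test for larger matchings.
-/

set_option linter.unusedSectionVars false

namespace Pool.Agent.Lib.MP_9c5086_lc

open Pool.Agent.Lib.MP_9c2350_lc (Enc)
open Pool.Agent.Lib.MP_20e1d9_lc Pool.Agent.Lib.PLib

namespace PM

/-- Invariants of the states of the search: all elements satisfy `Q`, and the lists are short. -/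
private structure AInv {γ : Type} [DecidableEq γ] (Q : γ → Prop) (a b c : ℕ) (s : State γ) :
    Prop where
  hV : ∀ u ∈ s.1, Q u
  hE : ∀ e ∈ s.2.1, Q e.1 ∧ Q e.2
  hM : ∀ e ∈ s.2.2.1, Q e.1 ∧ Q e.2
  lV : s.1.length ≤ a
  lE : s.2.1.length ≤ b
  lM : s.2.2.1.length ≤ c
  lr : s.2.2.2.length ≤ 1

private theorem mate_prop {γ : Type} [DecidableEq γ] {Q : γ → Prop} {M : List (γ × γ)}
    (hM : ∀ e ∈ M, Q e.1 ∧ Q e.2) (y : γ) : ∀ z ∈ mate M y, Q z := by
  intro z hz
  unfold mate at hz
  rw [List.mem_flatMap] at hz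
  obtain ⟨e, he, hz⟩ := hz
  split_ifs at hz with h1 h2
  · rw [List.mem_singleton] at hz
    rw [hz]
    exact (hM e he).2
  · rw [List.mem_singleton] at hz
    rw [hz]
    exact (hM e he).1
  · simp at hz

private theorem addStep_prop {γ : Type} [DecidableEq γ] {Q : γ → Prop} {V : List γ}
    {E M : List (γ × γ)} {F : List (List γ)} {m : ℕ} (hV : ∀ u ∈ V, Q u)
    (hM : ∀ e ∈ M, Q e.1 ∧ Q e.2) (hF : ∀ p ∈ F, (∀ u ∈ p, Q u) ∧ p.length ≤ m) :
    ∀ p ∈ addStep V E M F, (∀ u ∈ p, Q u) ∧ p.length ≤ m + 2 := by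
  intro p hp
  unfold addStep at hp
  have hext : ∀ p' ∈ F.flatMap (ext V E M F), (∀ u ∈ p', Q u) ∧ p'.length ≤ m + 2 := by
    intro p' hp'
    rw [List.mem_flatMap] at hp'
    obtain ⟨r, hr, hp'⟩ := hp'
    obtain ⟨h1, h2⟩ := hF r hr
    match r, hr, hp', h1, h2 with
    | [], _, hp', _, _ => simp [ext] at hp'
    | h :: t, _, hp', h1, h2 =>
      simp only [ext, List.mem_flatMap] at hp'
      obtain ⟨y, hy, hp'⟩ := hp'
      split_ifs at hp' with hc
      · rw [List.mem_map] at hp'
        obtain ⟨z, hz, rfl⟩ := hp'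
        refine ⟨?_, by simp only [List.length_cons] at h2 ⊢; omega⟩
        intro u hu
        simp only [List.mem_cons] at hu
        rcases hu with rfl | rfl | hu
        · exact mate_prop hM _ _ hz
        · exact hV _ hy
        · exact h1 u (by simpa using hu)
      · simp at hp'
  cases hc : F.flatMap (ext V E M F) with
  | nil =>
    rw [hc] at hp
    obtain ⟨h1, h2⟩ := hF p hp
    exact ⟨h1, by omega⟩
  | cons a l =>
    rw [hc] at hp
    simp only [List.mem_cons] at hp
    rcases hp with rfl | hp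
    · exact hext _ (by rw [hc]; simp)
    · obtain ⟨h1, h2⟩ := hF p hp
      exact ⟨h1, by omega⟩

private theorem forest_prop {γ : Type} [DecidableEq γ] {Q : γ → Prop} {V : List γ}
    {E M : List (γ × γ)} (hV : ∀ u ∈ V, Q u) (hM : ∀ e ∈ M, Q e.1 ∧ Q e.2) :
    ∀ p ∈ forest V E M, (∀ u ∈ p, Q u) ∧ p.length ≤ 2 * V.length + 1 := by
  have h : ∀ k, ∀ p ∈ (addStep V E M)^[k] (roots V M), (∀ u ∈ p, Q u) ∧ p.length ≤ 2 * k + 1 := by
    intro k
    induction k with
    | zero =>
      intro p hp
      simp only [Function.iterate_zero, id_eq, roots, List.mem_map, List.mem_filter] at hp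
      obtain ⟨v, ⟨hv, -⟩, rfl⟩ := hp
      refine ⟨?_, by simp⟩
      intro u hu
      rw [List.mem_singleton] at hu
      rw [hu]
      exact hV v hv
    | succ k ih =>
      intro p hp
      rw [Function.iterate_succ_apply'] at hp
      obtain ⟨h1, h2⟩ := addStep_prop hV hM ih p hp
      exact ⟨h1, by omega⟩
  exact h V.length

private theorem pairs_prop {γ : Type} {Q : γ → Prop} :
    ∀ l : List γ, (∀ u ∈ l, Q u) → (∀ e ∈ pairs l, Q e.1 ∧ Q e.2) ∧ (pairs l).length ≤ l.length
  | [], _ => by simp [pairs]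
  | [_], _ => by simp [pairs]
  | a :: b :: l, h => by
    obtain ⟨h1, h2⟩ := pairs_prop l (fun u hu => h u (by simp [hu]))
    refine ⟨?_, by simp only [pairs, List.length_cons]; omega⟩
    intro e he
    simp only [pairs, List.mem_cons] at he
    rcases he with rfl | he
    · exact ⟨h _ (by simp), h _ (by simp)⟩
    · exact h1 e he

private theorem augStep_inv {γ : Type} [DecidableEq γ] {Q : γ → Prop} {a b c : ℕ} {s : State γ}
    (h : AInv Q a b c s) : AInv Q a b (c + (2 * a + 1)) (augStep s) := by
  obtain ⟨V, E, M, r⟩ := s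
  obtain ⟨hV, hE, hM, lV, lE, lM, lr⟩ := h
  simp only at hV hE hM lV lE lM lr
  unfold augStep
  match r, lr with
  | x :: r', lr => exact ⟨hV, hE, hM, lV, lE, by simp only; omega, lr⟩
  | [], lr =>
    simp only
    cases hf : found E (forest V E M) with
    | nil => exact ⟨hV, hE, hM, lV, lE, by simp only; omega, by simp⟩
    | cons pq l =>
      obtain ⟨p, q⟩ := pq
      simp only
      have hpq : (p, q) ∈ found E (forest V E M) := by rw [hf]; simp
      have hpF : p ∈ forest V E M := by
        unfold found at hpq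
        simp only [List.mem_flatMap] at hpq
        obtain ⟨p', hp', q', hq', hh⟩ := hpq
        match p', q', hp', hh with
        | [], _, _, hh => simp at hh
        | _ :: _, [], _, hh => simp at hh
        | h :: _, g :: _, hp', hh =>
          simp only at hh
          split_ifs at hh
          · rw [List.mem_singleton, Prod.mk.injEq] at hh
            rw [hh.1]
            exact hp'
          · simp at hh
      obtain ⟨hpQ, hpl⟩ := forest_prop hV hM p hpF
      cases hs : p.filter fun x => decide (x ∈ q) with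
      | nil => exact ⟨hV, hE, hM, lV, lE, by simp only; omega, by simp⟩
      | cons b' t =>
        simp only
        have hsQ : ∀ u ∈ b' :: t, Q u := by
          intro u hu
          rw [← hs] at hu
          exact hpQ u (List.mem_of_mem_filter hu)
        have hsl : (b' :: t).length ≤ 2 * V.length + 1 := by
          rw [← hs]
          exact (List.length_filter_le _ _).trans hpl
        have hb' : Q b' := hsQ b' (by simp)
        obtain ⟨hp1, hp2⟩ := pairs_prop t (fun u hu => hsQ u (by simp [hu]))
        have hflip : ∀ e ∈ flip M (b' :: t), Q e.1 ∧ Q e.2 := by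
          intro e he
          unfold flip at he
          rw [List.mem_append] at he
          rcases he with he | he
          · exact hp1 e he
          · exact hM e (List.mem_of_mem_filter he)
        have hflipl : (flip M (b' :: t)).length ≤ c + (2 * a + 1) := by
          unfold flip
          rw [List.length_append]
          have h1 : (untouched M (b' :: t)).length ≤ M.length := List.length_filter_le _ _
          simp only [List.length_cons] at hsl
          simp only [List.tail_cons]
          omega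
        unfold contract
        refine ⟨?_, ?_, ?_, ?_, ?_, ?_, by simp⟩
        · intro u hu
          exact hV u (List.mem_of_mem_filter hu)
        · intro e he
          simp only [List.mem_map] at he
          obtain ⟨e', he', rfl⟩ := he
          unfold rn
          obtain ⟨h1, h2⟩ := hE e' he'
          refine ⟨?_, ?_⟩
          · simp only; split_ifs; exacts [hb', h1]
          · simp only; split_ifs; exacts [hb', h2]
        · intro e he
          exact hflip e (List.mem_of_mem_filter he)
        · exact (List.length_filter_le _ _).trans lV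
        · simp only [List.length_map]; exact lE
        · exact (List.length_filter_le _ _).trans hflipl

private theorem iter_inv {γ : Type} [DecidableEq γ] {Q : γ → Prop} {a b c : ℕ} {s : State γ}
    (h : AInv Q a b c s) (k : ℕ) : AInv Q a b (c + k * (2 * a + 1)) (augStep^[k] s) := by
  induction k with
  | zero => simpa using h
  | succ k ih =>
    rw [Function.iterate_succ_apply']
    have := augStep_inv ih
    rw [Nat.succ_mul, ← Nat.add_assoc]
    exact this

variable {α γ : Type} [Enc α] [Enc γ] [EncI γ] [DecidableEq γ]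

open Pool.Agent.Lib.MP_9c2350_lc in
private theorem sz_state_le {a b c m : ℕ} {s : State γ} (h : AInv (fun u => sz u ≤ m) a b c s) :
    sz s ≤ (a * (m + 1) + 1) + (b * (2 * m + 2) + 1) + (c * (2 * m + 2) + 1) + 8 := by
  obtain ⟨V, E, M, r⟩ := s
  obtain ⟨hV, hE, hM, lV, lE, lM, lr⟩ := h
  simp only at hV hE hM lV lE lM lr
  have h1 := sz_list_le V m hV
  have h2 := sz_list_le E (2 * m + 1) (by
    intro e he
    obtain ⟨x, y⟩ := e
    obtain ⟨h1, h2⟩ := hE _ he
    simp only at h1 h2
    rw [sz_pair]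
    omega)
  have h3 := sz_list_le M (2 * m + 1) (by
    intro e he
    obtain ⟨x, y⟩ := e
    obtain ⟨h1, h2⟩ := hM _ he
    simp only at h1 h2
    rw [sz_pair]
    omega)
  have h4 := sz_list_le r 3 (fun b _ => sz_bool b)
  have e1 : V.length * (m + 1) ≤ a * (m + 1) := Nat.mul_le_mul_right _ lV
  have e2 : E.length * (2 * m + 1 + 1) ≤ b * (2 * m + 2) := Nat.mul_le_mul_right _ lE
  have e3 : M.length * (2 * m + 1 + 1) ≤ c * (2 * m + 2) := Nat.mul_le_mul_right _ lM
  rw [sz_pair, sz_pair, sz_pair]
  omega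

open Pool.Agent.Lib.MP_9c2350_lc in
@[fun_prop]
theorem PT_aug {V : α → List γ} {E M : α → List (γ × γ)} (hV : PT V) (hE : PT E)
    (hM : PT M) : PT fun x => aug (V x) (E x) (M x) := by
  have h0 : PT fun x => ((V x, E x, M x, []) : State γ) := by fun_prop
  obtain ⟨qV, hqV, HqV⟩ := hV.size
  obtain ⟨qE, hqE, HqE⟩ := hE.size
  obtain ⟨qM, hqM, HqM⟩ := hM.size
  have hq : PB fun n => qV n + qE n + qM n := (hqV.add hqE).add hqM
  have hit : PT fun x => augStep^[(V x).length + 1] ((V x, E x, M x, []) : State γ) := by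
    refine iterateB (f := fun _ s => augStep s) (q := fun n =>
      ((qV n + qE n + qM n) * ((qV n + qE n + qM n) + 1) + 1) +
      ((qV n + qE n + qM n) * (2 * (qV n + qE n + qM n) + 2) + 1) +
      (((qV n + qE n + qM n) + ((qV n + qE n + qM n) + 1) * (2 * (qV n + qE n + qM n) + 1)) *
        (2 * (qV n + qE n + qM n) + 2) + 1) + 8) (by fun_prop) h0 (by fun_prop) ?_ ?_
    · have c1 : PB fun _ : ℕ => 1 := PB.const 1
      have c2 : PB fun _ : ℕ => 2 := PB.const 2
      have c8 : PB fun _ : ℕ => 8 := PB.const 8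
      have hq2 := c2.mul hq
      exact ((((hq.mul (hq.add c1)).add c1).add ((hq.mul (hq2.add c2)).add c1)).add
        (((hq.add ((hq.add c1).mul (hq2.add c1))).mul (hq2.add c2)).add c1)).add c8
    · intro x k hk
      have hm := HqV x
      have hm2 := HqE x
      have hm3 := HqM x
      set m := qV (sz x) + qE (sz x) + qM (sz x) with hmdef
      have hinv : AInv (fun u => sz u ≤ m) m m m ((V x, E x, M x, []) : State γ) := by
        refine ⟨?_, ?_, ?_, ?_, ?_, ?_, by simp⟩
        · intro u hu
          have := sz_le_of_mem (l := V x) hu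
          show sz u ≤ m
          omega
        · intro e he
          have h1 := sz_le_of_mem (l := E x) he
          obtain ⟨u, v⟩ := e
          rw [sz_pair] at h1
          show sz u ≤ m ∧ sz v ≤ m
          constructor <;> omega
        · intro e he
          have h1 := sz_le_of_mem (l := M x) he
          obtain ⟨u, v⟩ := e
          rw [sz_pair] at h1
          show sz u ≤ m ∧ sz v ≤ m
          constructor <;> omega
        · have := length_le_sz (V x)
          show (V x).length ≤ m
          omega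
        · have := length_le_sz (E x)
          show (E x).length ≤ m
          omega
        · have := length_le_sz (M x)
          show (M x).length ≤ m
          omega
      have h1 := sz_state_le (iter_inv hinv k)
      refine h1.trans ?_
      have h2 : k ≤ m + 1 := by
        have := length_le_sz (V x)
        omega
      have h3 : k * (2 * m + 1) ≤ (m + 1) * (2 * m + 1) := Nat.mul_le_mul_right _ h2
      have h4 : (m + k * (2 * m + 1)) * (2 * m + 2) ≤
          (m + (m + 1) * (2 * m + 1)) * (2 * m + 2) := Nat.mul_le_mul_right _ (by omega)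
      show _ ≤ (m * (m + 1) + 1) + (m * (2 * m + 2) + 1) +
        ((m + (m + 1) * (2 * m + 1)) * (2 * m + 2) + 1) + 8
      omega
  have hr : PT fun x => (augStep^[(V x).length + 1]
      ((V x, E x, M x, []) : State γ)).2.2.2 := by fun_prop
  have h : PT fun x => ((augStep^[(V x).length + 1]
      ((V x, E x, M x, []) : State γ)).2.2.2.head?).getD false :=
    getDO (head? hr) (PL.const false)
  refine h.of_eq fun x => ?_
  unfold aug
  cases (augStep^[(V x).length + 1] ((V x, E x, M x, []) : State γ)).2.2.2 <;> rfl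

end PM

end Pool.Agent.Lib.MP_9c5086_lc
end

section

/-!
Case distinction: every big infinite class yields all Boolean relations.
-/

namespace Pool.Agent.Lib.MP_9c5086_lc

namespace Graph

variable {V E I : Type} {H : Graph V E} {t : V → I}

/-- The case distinction. -/
theorem outcome [Finite V] [Finite E] (ht : H.Equitable t) (hH : H.Connected)
    (x : V) (j : I) (h3 : 3 ≤ H.classSize t x j) (hi : H.InfiniteClass t x j)
    (hr : H.RichClass t x j) : Outcome H t := by
  by_cases hj : j = t x
  · subst hj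
    exact outcome_eq ht hH x h3 hr
  · by_cases ha : InfAvoid H t x j
    · exact outcome_avoid ht hH x j hj h3 ha
    · exact outcome_finite ht hH x j hj h3 hi ha

/-- All Boolean relations are realizable. -/
theorem exists_setup [Finite V] [Finite E] (ht : H.Equitable t) (hH : H.Connected)
    (x : V) (j : I) (h3 : 3 ≤ H.classSize t x j) (hi : H.InfiniteClass t x j)
    (hr : H.RichClass t x j) : ∃ (Col : Type) (S : Setup H t Col) (T F : Col), T ≠ F ∧
      ∀ (P : Type) [Finite P] (sg : P → Bool) (R : (P → Bool) → Prop),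
        Real S P sg (fun c => ∃ b : P → Bool, R b ∧ ∀ p, c p = if b p then T else F) := by
  rcases outcome ht hH x j h3 hi hr with ⟨S, h⟩ | ⟨S, h1, h2⟩
  · obtain ⟨T, F, hb⟩ := Clone.basic_of_three (realClone S) (real_star S) h
    exact ⟨_, S, T, F, hb.ne, fun P _ sg R => hb.all P sg R⟩
  · have hb := Clone.basic_of_two (realClone S) h1 h2
    exact ⟨_, S, true, false, hb.ne, fun P _ sg R => hb.all P sg R⟩

end Graph

end Pool.Agent.Lib.MP_9c5086_lc
end

section

/-!
Polynomial time: perfect matchings.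
-/

set_option linter.unusedSectionVars false

namespace Pool.Agent.Lib.MP_9c5086_lc

open Pool.Agent.Lib.MP_9c2350_lc (Enc sz sz_pair sz_nil sz_cons sz_pos sz_append)
open Pool.Agent.Lib.MP_20e1d9_lc Pool.Agent.Lib.PLib

namespace PM

variable {α γ : Type} [Enc α] [Enc γ] [EncI γ] [DecidableEq γ]

/-- The size does not increase in one step of the search. -/
private theorem sz_pruneStep_le (V : List γ) (M : List (γ × γ))
    (s : List (γ × γ) × List (γ × γ)) : sz (pruneStep V M s) ≤ sz s := by
  obtain ⟨K, R⟩ := s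
  cases R with
  | nil => exact le_rfl
  | cons e R' =>
    simp only [pruneStep]
    split_ifs
    · rw [sz_pair, sz_pair, sz_cons]; omega
    · rw [sz_pair, sz_pair, sz_cons, sz_cons]; omega

private theorem sz_prune_iterate_le (V : List γ) (M : List (γ × γ)) (k : ℕ)
    (s : List (γ × γ) × List (γ × γ)) : sz ((pruneStep V M)^[k] s) ≤ sz s := by
  induction k with
  | zero => exact le_rfl
  | succ k ih =>
    rw [Function.iterate_succ_apply']
    exact (sz_pruneStep_le V M _).trans ih

private theorem sz_prune_le (V : List γ) (E M : List (γ × γ)) : sz (prune V E M) ≤ sz E + 1 := by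
  have h := sz_prune_iterate_le V M E.length ([], E)
  have h1 : sz ((pruneStep V M)^[E.length] ([], E)) =
      sz ((pruneStep V M)^[E.length] ([], E)).1 + sz ((pruneStep V M)^[E.length] ([], E)).2 + 1 :=
    sz_pair _ _
  have h0 : sz (([] : List (γ × γ)), E) = 1 + sz E + 1 := by rw [sz_pair, sz_nil]
  have h2 := sz_pos ((pruneStep V M)^[E.length] ([], E)).2
  unfold prune
  omega

private theorem sz_filter_le {β : Type} [Enc β] (p : β → Bool) (l : List β) :
    sz (l.filter p) ≤ sz l := by
  induction l with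
  | nil => exact le_rfl
  | cons b l ih =>
    rw [List.filter_cons]
    split_ifs
    · rw [sz_cons, sz_cons]; omega
    · rw [sz_cons]; omega

private theorem sz_improve_le (V : List γ) (E M : List (γ × γ)) :
    sz (improve V E M) ≤ sz M + (sz E + 1) := by
  unfold improve
  split_ifs
  · have h1 := sz_append (prune V E M) (untouched M (ends (prune V E M)))
    have h2 := sz_prune_le V E M
    have h3 : sz (untouched M (ends (prune V E M))) ≤ sz M := sz_filter_le _ _
    omega
  · omega

private theorem PT_pruneStep {V : α → List γ} {M : α → List (γ × γ)}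
    {s : α → List (γ × γ) × List (γ × γ)} (hV : PT V) (hM : PT M) (hs : PT s) :
    PT fun x => pruneStep (V x) (M x) (s x) := by
  have h := listCase (l := fun x => (s x).2) (f := fun x => ((s x).1, ([] : List (γ × γ))))
    (g := fun x e R' => if aug (V x) (M x ++ ((s x).1 ++ R')) (M x) = true then ((s x).1, R')
      else (e :: (s x).1, R')) (by fun_prop) (by fun_prop) (by
        have hV' : PT fun y : α × (γ × γ) × List (γ × γ) => V y.1 := hV.comp (by fun_prop)
        have hM' : PT fun y : α × (γ × γ) × List (γ × γ) => M y.1 := hM.comp (by fun_prop)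
        have hs' : PT fun y : α × (γ × γ) × List (γ × γ) => s y.1 := hs.comp (by fun_prop)
        fun_prop)
  refine h.of_eq fun x => ?_
  rcases s x with ⟨K, R⟩
  cases R with
  | nil => rfl
  | cons e R' => rfl

@[fun_prop]
theorem PT_prune {V : α → List γ} {E M : α → List (γ × γ)} (hV : PT V) (hE : PT E)
    (hM : PT M) : PT fun x => prune (V x) (E x) (M x) := by
  have h := iterateA (n := fun x => (E x).length) (s0 := fun x => (([] : List (γ × γ)), E x))
    (f := fun x s => pruneStep (V x) (M x) s) (by fun_prop) (by fun_prop)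
    (PT_pruneStep (V := fun y : α × List (γ × γ) × List (γ × γ) => V y.1)
      (M := fun y => M y.1) (s := fun y => y.2) (hV.comp (by fun_prop)) (hM.comp (by fun_prop))
      (by fun_prop))
    (q := fun _ => 0) (Pool.Agent.Lib.MP_9c2350_lc.PB.const 0)
    (fun x s => sz_pruneStep_le _ _ _)
  exact PT.of_eq (f := fun x => ((fun s => pruneStep (V x) (M x) s)^[(E x).length]
    (([] : List (γ × γ)), E x)).1) (by fun_prop) fun x => rfl

@[fun_prop]
theorem PT_improve {V : α → List γ} {E M : α → List (γ × γ)} (hV : PT V) (hE : PT E)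
    (hM : PT M) : PT fun x => improve (V x) (E x) (M x) := by
  have h : PT fun x => if aug (V x) (E x) (M x) = true then prune (V x) (E x) (M x) ++
      untouched (M x) (ends (prune (V x) (E x) (M x))) else M x := by fun_prop
  exact h.of_eq fun x => rfl

@[fun_prop]
theorem PT_maxMatching {V : α → List γ} {E : α → List (γ × γ)} (hV : PT V) (hE : PT E) :
    PT fun x => maxMatching (V x) (E x) := by
  obtain ⟨q, hq, Hq⟩ := hE.size
  exact iterateA (n := fun x => (V x).length) (s0 := fun _ => ([] : List (γ × γ)))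
    (f := fun x s => improve (V x) (E x) s) (by fun_prop) (by fun_prop)
    (PT_improve (V := fun y : α × List (γ × γ) => V y.1) (E := fun y => E y.1)
      (M := fun y => y.2) (hV.comp (by fun_prop)) (hE.comp (by fun_prop)) (by fun_prop))
    (q := fun n => q n + 1) (hq.add (Pool.Agent.Lib.MP_9c2350_lc.PB.const 1))
    (fun x s => (sz_improve_le _ _ _).trans (by have := Hq x; omega))

@[fun_prop]
theorem PT_pmDec {V : α → List γ} {E : α → List (γ × γ)} (hV : PT V) (hE : PT E) :
    PT fun x => pmDec (V x) (E x) := by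
  have h : PT fun x => (V x).all fun v => decide (v ∈ ends (maxMatching (V x) (E x))) := by
    fun_prop
  exact h.of_eq fun x => rfl

end PM

end Pool.Agent.Lib.MP_9c5086_lc
end

section

/-!
Polynomial time: the greatest consistent relation and the factors.
-/

set_option linter.unusedSectionVars false

namespace Pool.Agent.Lib.MP_9c5086_lc

open Pool.Agent.Lib.MP_9c2350_lc (Enc)
open Pool.Agent.Lib.MP_20e1d9_lc Pool.Agent.Lib.PLib

/-- The components of a family of instances are computable in polynomial time. -/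
structure PTLG {α W D V E : Type} [Enc α] [Enc W] [Enc D] [Enc V] [Enc E]
    (G : α → LG W D V E) : Prop where
  Vs : PT fun x => (G x).Vs
  Ds : PT fun x => (G x).Ds
  src : PT fun q : α × D => (G q.1).src q.2
  inv : PT fun q : α × D => (G q.1).inv q.2
  Lv : PT fun q : α × (W × V) => (G q.1).Lv q.2.1 q.2.2
  Le : PT fun q : α × (D × E) => (G q.1).Le q.2.1 q.2.2

namespace Alg

variable {α β W D V E : Type} [Enc α] [Enc β] [Enc W] [Enc D] [Enc V] [Enc E] [EncI W] [EncI D]
  [EncI V] [EncI E] [DecidableEq W] [DecidableEq D] [DecidableEq V] [DecidableEq E] [Finite V]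
  [Finite E]

/-- Families of instances can be composed with polynomial time functions. -/
theorem _root_.Pool.Agent.Lib.MP_9c5086_lc.PTLG.comp {G : α → LG W D V E} (hG : PTLG G)
    {f : β → α} (hf : PT f) : PTLG fun x => G (f x) where
  Vs := MP_20e1d9_lc.PL.comp (f := fun x => (G x).Vs) hG.Vs hf
  Ds := MP_20e1d9_lc.PL.comp (f := fun x => (G x).Ds) hG.Ds hf
  src := MP_20e1d9_lc.PL.comp (g := fun q : β × D => (f q.1, q.2)) hG.src
    (MP_20e1d9_lc.PL.pair (MP_20e1d9_lc.PL.comp hf (MP_20e1d9_lc.PL.fst MP_20e1d9_lc.PL.id)) (MP_20e1d9_lc.PL.snd MP_20e1d9_lc.PL.id))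
  inv := MP_20e1d9_lc.PL.comp (g := fun q : β × D => (f q.1, q.2)) hG.inv
    (MP_20e1d9_lc.PL.pair (MP_20e1d9_lc.PL.comp hf (MP_20e1d9_lc.PL.fst MP_20e1d9_lc.PL.id)) (MP_20e1d9_lc.PL.snd MP_20e1d9_lc.PL.id))
  Lv := MP_20e1d9_lc.PL.comp (g := fun q : β × (W × V) => (f q.1, q.2)) hG.Lv
    (MP_20e1d9_lc.PL.pair (MP_20e1d9_lc.PL.comp hf (MP_20e1d9_lc.PL.fst MP_20e1d9_lc.PL.id)) (MP_20e1d9_lc.PL.snd MP_20e1d9_lc.PL.id))
  Le := MP_20e1d9_lc.PL.comp (g := fun q : β × (D × E) => (f q.1, q.2)) hG.Le
    (MP_20e1d9_lc.PL.pair (MP_20e1d9_lc.PL.comp hf (MP_20e1d9_lc.PL.fst MP_20e1d9_lc.PL.id)) (MP_20e1d9_lc.PL.snd MP_20e1d9_lc.PL.id))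

private theorem ptSrc {G : α → LG W D V E} (hG : PTLG G) {g : α → D} (hg : PT g) :
    PT fun x => (G x).src (g x) :=
  MP_20e1d9_lc.PL.comp (g := fun x => (x, g x)) hG.src (MP_20e1d9_lc.PL.pair MP_20e1d9_lc.PL.id hg)

private theorem ptInv {G : α → LG W D V E} (hG : PTLG G) {g : α → D} (hg : PT g) :
    PT fun x => (G x).inv (g x) :=
  MP_20e1d9_lc.PL.comp (g := fun x => (x, g x)) hG.inv (MP_20e1d9_lc.PL.pair MP_20e1d9_lc.PL.id hg)

private theorem ptLv {G : α → LG W D V E} (hG : PTLG G) {g : α → W} {h : α → V} (hg : PT g)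
    (hh : PT h) : PT fun x => (G x).Lv (g x) (h x) :=
  MP_20e1d9_lc.PL.comp (g := fun x => (x, (g x, h x))) hG.Lv (MP_20e1d9_lc.PL.pair MP_20e1d9_lc.PL.id (MP_20e1d9_lc.PL.pair hg hh))

private theorem ptLe {G : α → LG W D V E} (hG : PTLG G) {g : α → D} {h : α → E} (hg : PT g)
    (hh : PT h) : PT fun x => (G x).Le (g x) (h x) :=
  MP_20e1d9_lc.PL.comp (g := fun x => (x, (g x, h x))) hG.Le (MP_20e1d9_lc.PL.pair MP_20e1d9_lc.PL.id (MP_20e1d9_lc.PL.pair hg hh))

variable (T : Tab V E) {G : α → LG W D V E} (hG : PTLG G)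

include hG

theorem PT_starL {u : α → W} (hu : PT u) : PT fun x => starL (G x) (u x) := by
  unfold starL
  refine PLib.filter hG.Ds ?_
  exact PLib.eq hG.src (MP_20e1d9_lc.PL.comp hu (MP_20e1d9_lc.PL.fst MP_20e1d9_lc.PL.id))

theorem PT_stepR {R : α → List (D × (E × V))} {z : α → D × (E × V)} (hR : PT R) (hz : PT z) :
    PT fun x => stepR T (G x) (R x) (z x) := by
  unfold stepR
  have z1 : PT fun x => (z x).1 := by fun_prop
  have z2 : PT fun x => (z x).2 := by fun_prop
  have z21 : PT fun x => (z x).2.1 := by fun_prop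
  have z22 : PT fun x => (z x).2.2 := by fun_prop
  refine MP_20e1d9_lc.PL.and (MP_20e1d9_lc.PL.and (MP_20e1d9_lc.PL.and (MP_20e1d9_lc.PL.and (ptLe hG z1 z21) (ptLv hG (ptSrc hG z1) z22))
    (MP_20e1d9_lc.PL.or (MP_20e1d9_lc.PL.not (PLib.eq (ptInv hG z1) z1)) (PLib.of_finite' T.isS z21))) ?_) ?_
  · exact PTX.memB (MP_20e1d9_lc.PL.pair (ptInv hG z1) (PLib.of_finite' T.opp z2)) hR
  · refine PTX.fin_cases (g := fun x => (z x).2.2) (F := fun k x =>
      sup (fun d φ => memB (d, φ) (R x) && (!decide (d = (z x).1) || decide (φ = (z x).2)))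
        (T.at' k) (starL (G x) ((G x).src (z x).1))) (fun k => ?_) z22
    refine PTX.sup (T.at' k) ?_ (PT_starL hG (ptSrc hG z1))
    fun_prop

theorem PT_RL : PT fun x => RL T (G x) := by
  unfold RL
  refine PTX.gfp ?_ ?_
  · exact PT_stepR T (hG.comp (f := fun q : α × (List (D × (E × V)) × (D × (E × V))) => q.1)
      (MP_20e1d9_lc.PL.fst MP_20e1d9_lc.PL.id)) (by fun_prop) (by fun_prop)
  · have := hG.Ds
    fun_prop

theorem PT_sB {u : α → W} {v : α → V} (hu : PT u) (hv : PT v) :
    PT fun x => sB T (G x) (u x) (v x) := by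
  unfold sB
  have hR := PT_RL T hG
  refine MP_20e1d9_lc.PL.and (ptLv hG hu hv) ?_
  refine PTX.fin_cases (g := v) (F := fun k x =>
    sup (fun d φ => memB (d, φ) (RL T (G x))) (T.at' k) (starL (G x) (u x))) (fun k => ?_) hv
  refine PTX.sup (T.at' k) ?_ (PT_starL hG hu)
  exact PTX.memB (by fun_prop) (MP_20e1d9_lc.PL.comp
    (f := fun x => RL T (G x)) hR (MP_20e1d9_lc.PL.fst
      MP_20e1d9_lc.PL.id))

end Alg

end Pool.Agent.Lib.MP_9c5086_lc
end

section

/-!
Polynomial time: the factors and the unary constraints.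
-/

set_option linter.unusedSectionVars false

namespace Pool.Agent.Lib.MP_9c5086_lc

open Pool.Agent.Lib.MP_9c2350_lc (Enc)
open Pool.Agent.Lib.MP_20e1d9_lc Pool.Agent.Lib.PLib
open Pool.Agent.Lib.MP_20e1d9_lc.PL (id const comp pair fst snd cons ite length append map
  flatMap all any not and or)

namespace Alg

variable {α W D V E : Type} [Enc α] [Enc W] [Enc D] [Enc V] [Enc E] [EncI W] [EncI D]
  [EncI V] [EncI E] [DecidableEq W] [DecidableEq D] [DecidableEq V] [DecidableEq E] [Finite V]
  [Finite E] (T : Tab V E) {G : α → LG W D V E} (hG : PTLG G)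

include hG

theorem PT_gdL {v : α → V} (hv : PT v) : PT fun x => gdL T (G x) (v x) := by
  have h1 : PT fun q : α × D => RL T (G q.1) := (PT_RL T hG).comp (fst id)
  have h0 : PT fun q : α × D => v q.1 := hv.comp (fst id)
  have h2 : PT fun q : α × D => T.ga (v q.1) := of_finite' T.ga h0
  have h3 : PT fun q : α × D => T.gb (v q.1) := of_finite' T.gb h0
  have h4 : PT fun q : α × D => memB (q.2, (T.ga (v q.1), v q.1)) (RL T (G q.1)) ||
      memB (q.2, (T.gb (v q.1), v q.1)) (RL T (G q.1)) :=
    or (PTX.memB (pair (snd id) (pair h2 h0)) h1) (PTX.memB (pair (snd id) (pair h3 h0)) h1)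
  exact filter (p := fun x d => memB (d, (T.ga (v x), v x)) (RL T (G x)) ||
    memB (d, (T.gb (v x), v x)) (RL T (G x))) hG.Ds h4

theorem PT_compL {u : α → W} {v : α → V} (hu : PT u) (hv : PT v) :
    PT fun x => compL T (G x) (u x) (v x) := by
  have hg : PT fun q : α × (List W × W) => gdL T (G q.1) (v q.1) :=
    (PT_gdL T hG hv).comp (fst id)
  have hs1 : PT fun p : (α × (List W × W)) × D => (G p.1.1).src p.2 :=
    hG.src.comp (pair (fst (fst id)) (snd id))
  have hi : PT fun p : (α × (List W × W)) × D => (G p.1.1).inv p.2 :=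
    hG.inv.comp (pair (fst (fst id)) (snd id))
  have hs2 : PT fun p : (α × (List W × W)) × D => (G p.1.1).src ((G p.1.1).inv p.2) :=
    hG.src.comp (pair (fst (fst id)) hi)
  have h1 : PT fun p : (α × (List W × W)) × D =>
      !decide ((G p.1.1).src p.2 = p.1.2.2) || memB ((G p.1.1).src ((G p.1.1).inv p.2)) p.1.2.1 :=
    or (not (eq hs1 (snd (snd (fst id))))) (PTX.memB hs2 (fst (snd (fst id))))
  have h2 : PT fun q : α × (List W × W) => (gdL T (G q.1) (v q.1)).all fun d =>
      !decide ((G q.1).src d = q.2.2) || memB ((G q.1).src ((G q.1).inv d)) q.2.1 :=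
    all (f := fun (q : α × (List W × W)) d =>
      !decide ((G q.1).src d = q.2.2) || memB ((G q.1).src ((G q.1).inv d)) q.2.1) hg h1
  have h3 : PT fun q : α × (List W × W) =>
      compStep T (G q.1) (u q.1) (v q.1) q.2.1 q.2.2 :=
    and (not (eq (snd (snd id)) (hu.comp (fst id)))) h2
  have h4 : PT fun x => gfp (compStep T (G x) (u x) (v x)) (G x).Vs :=
    PTX.gfp (p := fun x => compStep T (G x) (u x) (v x)) h3 hG.Vs
  exact filter (p := fun x w => !memB w (gfp (compStep T (G x) (u x) (v x)) (G x).Vs)) hG.Vs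
    (not (PTX.memB (snd id) (h4.comp (fst id))))

theorem PT_cdL {u : α → W} {v : α → V} (hu : PT u) (hv : PT v) :
    PT fun x => cdL T (G x) (u x) (v x) := by
  have h1 : PT fun q : α × D => compL T (G q.1) (u q.1) (v q.1) :=
    (PT_compL T hG hu hv).comp (fst id)
  exact filter (p := fun x d => memB ((G x).src d) (compL T (G x) (u x) (v x)))
    (PT_gdL T hG hv) (PTX.memB hG.src h1)

omit hG in
theorem PT_facV {C : α → List W} {L : α → List D} (hC : PT C) (hL : PT L) :
    PT fun x => facV (C x) (L x) := by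
  unfold facV
  fun_prop

theorem PT_feasB {u : α → W} {v : α → V} (hu : PT u) (hv : PT v) :
    PT fun x => feasB T (G x) (u x) (v x) := by
  have hC := PT_compL T hG hu hv
  have hL := PT_cdL T hG hu hv
  have h1 : PT fun q : α × D => RL T (G q.1) := (PT_RL T hG).comp (fst id)
  have h0 : PT fun q : α × D => v q.1 := hv.comp (fst id)
  have h2 : PT fun q : α × D => T.ga (v q.1) := of_finite' T.ga h0
  have h3 : PT fun q : α × D => T.gb (v q.1) := of_finite' T.gb h0
  have hra : PT fun q : α × D => memB (q.2, (T.ga (v q.1), v q.1)) (RL T (G q.1)) :=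
    PTX.memB (pair (snd id) (pair h2 h0)) h1
  have hrb : PT fun q : α × D => memB (q.2, (T.gb (v q.1), v q.1)) (RL T (G q.1)) :=
    PTX.memB (pair (snd id) (pair h3 h0)) h1
  have hs := hG.src
  have hi := hG.inv
  have k1 : PT fun q : α × D => if memB (q.2, (T.gb (v q.1), v q.1)) (RL T (G q.1)) = true then
      (if (G q.1).inv q.2 = q.2 then
        [(((.inl q.2, false) : (D ⊕ (W × Bool)) × Bool), ((.inl q.2, true) : (D ⊕ (W × Bool)) × Bool))]
      else [((.inl q.2, false), (.inl ((G q.1).inv q.2), false)),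
        ((.inl q.2, true), (.inl ((G q.1).inv q.2), true))])
      else [] := by
    refine ite (hrb.of_eq fun x => by simp) (ite (eq hi (snd id)) ?_ ?_) ?_
    · fun_prop
    · fun_prop
    · fun_prop
  have k2 : PT fun q : α × D => if memB (q.2, (T.ga (v q.1), v q.1)) (RL T (G q.1)) = true then
      [(((.inl q.2, false) : (D ⊕ (W × Bool)) × Bool),
        ((.inr ((G q.1).src q.2, false), false) : (D ⊕ (W × Bool)) × Bool)),
        ((.inl q.2, false), (.inr ((G q.1).src q.2, true), false)),
        ((.inl q.2, true), (.inr ((G q.1).src q.2, false), true)),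
        ((.inl q.2, true), (.inr ((G q.1).src q.2, true), true))]
      else [] := by
    refine ite (hra.of_eq fun x => by simp) ?_ ?_
    · fun_prop
    · fun_prop
  have hE : PT fun x => facE (G x).src (G x).inv
      (fun d => memB (d, (T.ga (v x), v x)) (RL T (G x)))
      (fun d => memB (d, (T.gb (v x), v x)) (RL T (G x))) (cdL T (G x) (u x) (v x)) := by
    unfold facE
    exact append (flatMap (f := fun x d => if memB (d, (T.gb (v x), v x)) (RL T (G x)) = true then
      (if (G x).inv d = d then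
        [(((.inl d, false) : (D ⊕ (W × Bool)) × Bool), ((.inl d, true) : (D ⊕ (W × Bool)) × Bool))]
      else [((.inl d, false), (.inl ((G x).inv d), false)),
        ((.inl d, true), (.inl ((G x).inv d), true))])
      else []) hL k1)
      (flatMap (f := fun x d => if memB (d, (T.ga (v x), v x)) (RL T (G x)) = true then
      [(((.inl d, false) : (D ⊕ (W × Bool)) × Bool),
        ((.inr ((G x).src d, false), false) : (D ⊕ (W × Bool)) × Bool)),
        ((.inl d, false), (.inr ((G x).src d, true), false)),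
        ((.inl d, true), (.inr ((G x).src d, false), true)),
        ((.inl d, true), (.inr ((G x).src d, true), true))]
      else []) hL k2)
  exact PM.PT_pmDec (PT_facV hC hL) hE

theorem PT_ucL : PT fun x => ucL T (G x) := by
  have hq : PTLG fun q : (α × W) × V => G q.1.1 := hG.comp (fst (fst id))
  have h1 : PT fun q : (α × W) × V => sB T (G q.1.1) q.1.2 q.2 :=
    PT_sB T hq (snd (fst id)) (snd id)
  have h2 : PT fun q : (α × W) × V => feasB T (G q.1.1) q.1.2 q.2 :=
    PT_feasB T hq (snd (fst id)) (snd id)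
  have h3 : PT fun q : (α × W) × V => T.gam q.2 := of_finite' T.gam (snd id)
  have h4 : PT fun q : α × W =>
      T.vs.filter fun x => sB T (G q.1) q.2 x && (!T.gam x || feasB T (G q.1) q.2 x) :=
    filter (p := fun (q : α × W) x => sB T (G q.1) q.2 x && (!T.gam x || feasB T (G q.1) q.2 x))
      (const T.vs) (and h1 (or (not h3) h2))
  have h5 : PT fun q : α × W =>
      (T.vs.filter fun x => sB T (G q.1) q.2 x && (!T.gam x || feasB T (G q.1) q.2 x)).map
        fun x => (((.inl q.2, .inl x) : Cell W D V E)) :=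
    map (f := fun (q : α × W) x => (((.inl q.2, .inl x) : Cell W D V E))) h4
      (pair (PTX.inl (snd (fst id))) (PTX.inl (snd id)))
  have h6 : PT fun x => (G x).Vs.flatMap fun u =>
      (T.vs.filter fun y => sB T (G x) u y && (!T.gam y || feasB T (G x) u y)).map
        fun y => (((.inl u, .inl y) : Cell W D V E)) :=
    flatMap (f := fun x u => (T.vs.filter fun y => sB T (G x) u y &&
      (!T.gam y || feasB T (G x) u y)).map fun y => (((.inl u, .inl y) : Cell W D V E))) hG.Vs h5
  have h7 : PT fun x => (RL T (G x)).map fun z => (((.inr z.1, .inr z.2) : Cell W D V E)) :=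
    map (f := fun x z => (((.inr z.1, .inr z.2) : Cell W D V E))) (PT_RL T hG)
      (pair (PTX.inr (fst (snd id))) (PTX.inr (snd (snd id))))
  exact append h6 h7

end Alg

end Pool.Agent.Lib.MP_9c5086_lc
end

section

/-!
Polynomial time: the binary constraints.
-/

set_option linter.unusedSectionVars false

namespace Pool.Agent.Lib.MP_9c5086_lc

open Pool.Agent.Lib.MP_9c2350_lc (Enc)
open Pool.Agent.Lib.MP_20e1d9_lc Pool.Agent.Lib.PLib

namespace Alg

variable {α W D V E : Type} [Enc α] [Enc W] [Enc D] [Enc V] [Enc E] [EncI W] [EncI D]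
  [EncI V] [EncI E] [DecidableEq W] [DecidableEq D] [DecidableEq V] [DecidableEq E] [Finite V]
  [Finite E] (T : Tab V E) {G : α → LG W D V E} (hG : PTLG G) {v w : α → W ⊕ D}
  {a b : α → V ⊕ (E × V)} (hv : PT v) (hw : PT w) (ha : PT a) (hb : PT b)

include hG hv hw ha hb

theorem PT_c1B : PT fun x => c1B T (G x) (v x) (w x) (a x) (b x) := by
  simp only [c1B]
  obtain ⟨fl, at', vs, opp, isS, thin, cls, tau, ni, gam, tyv, ga, gb⟩ := T
  have hthin : PT thin := of_finite _
  have hopp : PT opp := of_finite _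
  obtain ⟨Ds, hDs⟩ : ∃ f : α → List D, f = fun x => (G x).Ds := ⟨_, rfl⟩
  obtain ⟨inv, hinv⟩ : ∃ f : α × D → D, f = fun q => (G q.1).inv q.2 := ⟨_, rfl⟩
  have h1 : PT Ds := by rw [hDs]; exact hG.Ds
  have h2 : PT inv := by rw [hinv]; exact hG.inv
  have key : PT fun x => (Ds x).all fun d => fl.all fun φ =>
      !(decide (v x = .inr d) && decide (w x = .inr (inv (x, d))) && decide (a x = .inr φ) &&
        thin φ) || decide (b x = .inr (opp φ)) := by
    fun_prop
  rw [hDs, hinv] at key
  exact key

theorem PT_c2B : PT fun x => c2B T (G x) (v x) (w x) (a x) (b x) := by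
  simp only [c2B]
  obtain ⟨fl, at', vs, opp, isS, thin, cls, tau, ni, gam, tyv, ga, gb⟩ := T
  have hthin : PT thin := of_finite _
  have htau : PT tau := of_finite _
  obtain ⟨cls', hcls'⟩ : ∃ f : (E × V) × (E × V) → Bool, f = fun q => cls q.1 q.2 := ⟨_, rfl⟩
  have hcls : PT cls' := of_finite _
  obtain ⟨Ds, hDs⟩ : ∃ f : α → List D, f = fun x => (G x).Ds := ⟨_, rfl⟩
  obtain ⟨src, hsrc⟩ : ∃ f : α × D → W, f = fun q => (G q.1).src q.2 := ⟨_, rfl⟩
  have h1 : PT Ds := by rw [hDs]; exact hG.Ds
  have h3 : PT src := by rw [hsrc]; exact hG.src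
  have key : PT fun x => (Ds x).all fun d => (Ds x).all fun d' => fl.all fun φ => fl.all fun φ' =>
      !(decide (v x = .inr d) && decide (w x = .inr d') && !decide (d = d') &&
        decide (src (x, d) = src (x, d')) && decide (a x = .inr φ) && decide (b x = .inr φ') &&
        thin φ && cls' (φ, φ')) || decide (φ' = tau φ) := by
    fun_prop
  rw [hDs, hsrc, hcls'] at key
  exact key

theorem PT_c3B : PT fun x => c3B T (G x) (v x) (w x) (a x) (b x) := by
  simp only [c3B]
  obtain ⟨fl, at', vs, opp, isS, thin, cls, tau, ni, gam, tyv, ga, gb⟩ := T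
  have hthin : PT thin := of_finite _
  have hni : PT ni := of_finite _
  obtain ⟨Ds, hDs⟩ : ∃ f : α → List D, f = fun x => (G x).Ds := ⟨_, rfl⟩
  obtain ⟨src, hsrc⟩ : ∃ f : α × D → W, f = fun q => (G q.1).src q.2 := ⟨_, rfl⟩
  have h1 : PT Ds := by rw [hDs]; exact hG.Ds
  have h3 : PT src := by rw [hsrc]; exact hG.src
  have key : PT fun x => (Ds x).all fun d => vs.all fun y => fl.all fun φ =>
      !(decide (v x = .inl (src (x, d))) && decide (w x = .inr d) && decide (a x = .inl y) &&
        decide (b x = .inr φ) && thin φ && ni φ.2) || decide (y = φ.2) := by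
    fun_prop
  rw [hDs, hsrc] at key
  exact key

theorem PT_c4B : PT fun x => c4B T (G x) (v x) (w x) (a x) (b x) := by
  simp only [c4B]
  obtain ⟨fl, at', vs, opp, isS, thin, cls, tau, ni, gam, tyv, ga, gb⟩ := T
  have hgam : PT gam := of_finite _
  obtain ⟨tyv', htyv'⟩ : ∃ f : V × V → Bool, f = fun q => tyv q.1 q.2 := ⟨_, rfl⟩
  have htyv : PT tyv' := of_finite _
  obtain ⟨Ds, hDs⟩ : ∃ f : α → List D, f = fun x => (G x).Ds := ⟨_, rfl⟩
  obtain ⟨inv, hinv⟩ : ∃ f : α × D → D, f = fun q => (G q.1).inv q.2 := ⟨_, rfl⟩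
  obtain ⟨src, hsrc⟩ : ∃ f : α × D → W, f = fun q => (G q.1).src q.2 := ⟨_, rfl⟩
  have h1 : PT Ds := by rw [hDs]; exact hG.Ds
  have h2 : PT inv := by rw [hinv]; exact hG.inv
  have h3 : PT src := by rw [hsrc]; exact hG.src
  have key : PT fun x => (Ds x).all fun d => vs.all fun y => vs.all fun y' =>
      !(decide (v x = .inl (src (x, d))) && decide (w x = .inl (src (x, inv (x, d)))) &&
        decide (a x = .inl y) && decide (b x = .inl y') && gam y && tyv' (y', y)) ||
        decide (y = y') := by
    fun_prop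
  rw [hDs, hinv, hsrc, htyv'] at key
  exact key

end Alg

end Pool.Agent.Lib.MP_9c5086_lc
end

section

/-!
Polynomial time: the algorithm.
-/

set_option linter.unusedSectionVars false

namespace Pool.Agent.Lib.MP_9c5086_lc

open Pool.Agent.Lib.MP_9c2350_lc (Enc)
open Pool.Agent.Lib.MP_20e1d9_lc Pool.Agent.Lib.PLib

namespace Alg

variable {α W D V E : Type} [Enc α] [Enc W] [Enc D] [Enc V] [Enc E] [EncI W] [EncI D]
  [EncI V] [EncI E] [DecidableEq W] [DecidableEq D] [DecidableEq V] [DecidableEq E] [Finite V]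
  [Finite E] (T : Tab V E) {G : α → LG W D V E} (hG : PTLG G)

include hG

theorem PT_pairL : PT fun x => pairL T (G x) := by
  have hU := PT_ucL T hG
  have key : PT fun q : (α × Cell W D V E) × Cell W D V E =>
      c1B T (G q.1.1) q.1.2.1 q.2.1 q.1.2.2 q.2.2 && c2B T (G q.1.1) q.1.2.1 q.2.1 q.1.2.2 q.2.2 &&
        c3B T (G q.1.1) q.1.2.1 q.2.1 q.1.2.2 q.2.2 &&
          c4B T (G q.1.1) q.1.2.1 q.2.1 q.1.2.2 q.2.2 := by
    have hG' : PTLG fun q : (α × Cell W D V E) × Cell W D V E => G q.1.1 :=
      hG.comp (f := fun q : (α × Cell W D V E) × Cell W D V E => q.1.1) (by fun_prop)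
    have hv : PT fun q : (α × Cell W D V E) × Cell W D V E => q.1.2.1 := by fun_prop
    have hw : PT fun q : (α × Cell W D V E) × Cell W D V E => q.2.1 := by fun_prop
    have ha : PT fun q : (α × Cell W D V E) × Cell W D V E => q.1.2.2 := by fun_prop
    have hb : PT fun q : (α × Cell W D V E) × Cell W D V E => q.2.2 := by fun_prop
    have h1 := PT_c1B T hG' hv hw ha hb
    have h2 := PT_c2B T hG' hv hw ha hb
    have h3 := PT_c3B T hG' hv hw ha hb
    have h4 := PT_c4B T hG' hv hw ha hb
    fun_prop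
  have hU' : PT fun q : α × Cell W D V E => ucL T (G q.1) :=
    PT_ucL T (hG.comp (f := fun q : α × Cell W D V E => q.1) (by fun_prop))
  have hF : PT fun q : α × Cell W D V E => (ucL T (G q.1)).filter fun z =>
      c1B T (G q.1) q.2.1 z.1 q.2.2 z.2 && c2B T (G q.1) q.2.1 z.1 q.2.2 z.2 &&
        c3B T (G q.1) q.2.1 z.1 q.2.2 z.2 && c4B T (G q.1) q.2.1 z.1 q.2.2 z.2 :=
    Pool.Agent.Lib.PLib.filter (p := fun q z => c1B T (G q.1) q.2.1 z.1 q.2.2 z.2 &&
      c2B T (G q.1) q.2.1 z.1 q.2.2 z.2 && c3B T (G q.1) q.2.1 z.1 q.2.2 z.2 &&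
      c4B T (G q.1) q.2.1 z.1 q.2.2 z.2) hU' key
  unfold pairL
  fun_prop

theorem PT_varsL : PT fun x => varsL (G x) := by
  have h1 := hG.Vs
  have h2 := hG.Ds
  unfold varsL
  fun_prop

theorem PT_stepP : PT fun q : α × (List (Cell W D V E × Cell W D V E) ×
    (Cell W D V E × Cell W D V E)) => stepP T (G q.1) q.2.1 q.2.2 := by
  have hV : PT fun q : α × (List (Cell W D V E × Cell W D V E) ×
      (Cell W D V E × Cell W D V E)) => varsL (G q.1) :=
    PT_varsL (hG.comp (f := fun q : α × (List (Cell W D V E × Cell W D V E) ×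
      (Cell W D V E × Cell W D V E)) => q.1) (by fun_prop))
  unfold stepP
  fun_prop

theorem PT_PL : PT fun x => PL T (G x) := by
  unfold PL
  exact PTX.gfp (PT_stepP T hG) (PT_pairL T hG)

theorem PT_accept : PT fun x => accept T (G x) := by
  have h2 := PT_varsL hG
  have h3 : PT fun q : (α × (W ⊕ D)) => PL T (G q.1) :=
    PT_PL T (hG.comp (f := fun q : α × (W ⊕ D) => q.1) (by fun_prop))
  have h4 : PT fun q : ((α × (W ⊕ D)) × (V ⊕ (E × V))) => PL T (G q.1.1) :=
    PT_PL T (hG.comp (f := fun q : (α × (W ⊕ D)) × (V ⊕ (E × V)) => q.1.1) (by fun_prop))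
  have h5 : PT fun _ : (α × (W ⊕ D)) => valsL T := Pool.Agent.Lib.MP_20e1d9_lc.PL.const _
  unfold accept
  fun_prop

end Alg

end Pool.Agent.Lib.MP_9c5086_lc
end

section

/-!
Polynomial time: reading instances.
-/

namespace Pool.Agent.Lib.MP_9c5086_lc

open Pool.Agent.Lib.MP_9c2350_lc (Enc)
open Pool.Agent.Lib.MP_20e1d9_lc Pool.Agent.Lib.PLib

@[fun_prop]
private theorem rowE_PT {α : Type} [Enc α] {D : α → RData} {f : α → ℕ} (hD : PT D) (hf : PT f) :
    PT fun x => rowE (D x) (f x) := by
  unfold rowE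
  fun_prop

@[fun_prop]
private theorem aI_PT {α : Type} [Enc α] {D : α → RData} {f : α → ℕ} (hD : PT D) (hf : PT f) :
    PT fun x => aI (D x) (f x) := by
  unfold aI
  fun_prop

@[fun_prop]
private theorem bI_PT {α : Type} [Enc α] {D : α → RData} {f : α → ℕ} (hD : PT D) (hf : PT f) :
    PT fun x => bI (D x) (f x) := by
  unfold bI
  fun_prop

@[fun_prop]
private theorem sI_PT {α : Type} [Enc α] {D : α → RData} {f : α → ℕ} (hD : PT D) (hf : PT f) :
    PT fun x => sI (D x) (f x) := by
  unfold sI
  fun_prop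

theorem PT_wfG (p q : ℕ) : PT (wfG p q) := by
  unfold wfG
  fun_prop

theorem PTLG_rawLG (p q : ℕ) : PTLG (rawLG p q) where
  Vs := by
    show PT fun x : RData => List.range (x.headD []).length
    fun_prop
  Ds := by
    show PT fun x : RData => (List.range x.tail.length).flatMap fun f =>
      if sI x f = true then [(f, false)] else [(f, false), (f, true)]
    fun_prop
  src := by
    show PT fun z : RData × (ℕ × Bool) => if z.2.2 = true then bI z.1 z.2.1 else aI z.1 z.2.1
    fun_prop
  inv := by
    show PT fun z : RData × (ℕ × Bool) => if sI z.1 z.2.1 = true then z.2 else (z.2.1, !z.2.2)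
    fun_prop
  Lv := by
    show PT fun z : RData × (ℕ × Fin p) => ((z.1.headD []).getD z.2.1 []).getD z.2.2.val false
    fun_prop
  Le := by
    show PT fun z : RData × ((ℕ × Bool) × Fin q) =>
      ((rowE z.1 z.2.1.1).getD 0 []).getD z.2.2.val false
    fun_prop

end Pool.Agent.Lib.MP_9c5086_lc
end

section

/-!
NP-completeness does not depend on the encoding.
-/

namespace Pool.Agent.Lib.MP_9c5086_lc

open Pool.Agent.Lib.MP_9c2350_lc (Enc)
open Pool.Agent.Lib.MP_20e1d9_lc Pool.Agent.Lib.PLib
open Pool.Agent.Lib.MP_20e1d9_lc.PL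
open N487b59b3 (bitEncode)

section PT

@[fun_prop]
private theorem rowEPT {α : Type} [Enc α] {D : α → RData} {f : α → ℕ} (hD : PT D) (hf : PT f) :
    PT (fun x => rowE (D x) (f x)) := by
  unfold rowE
  fun_prop

@[fun_prop]
private theorem aIPT {α : Type} [Enc α] {D : α → RData} {f : α → ℕ} (hD : PT D) (hf : PT f) :
    PT (fun x => aI (D x) (f x)) := by
  unfold aI
  fun_prop

@[fun_prop]
private theorem bIPT {α : Type} [Enc α] {D : α → RData} {f : α → ℕ} (hD : PT D) (hf : PT f) :
    PT (fun x => bI (D x) (f x)) := by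
  unfold bI
  fun_prop

@[fun_prop]
private theorem sIPT {α : Type} [Enc α] {D : α → RData} {f : α → ℕ} (hD : PT D) (hf : PT f) :
    PT (fun x => sI (D x) (f x)) := by
  unfold sI
  fun_prop

@[fun_prop]
private theorem joinsBPT {α : Type} [Enc α] {i j : α → ℕ} {r : α → List (List Bool)}
    (hi : PT i) (hj : PT j) (hr : PT r) : PT (fun x => joinsB (i x) (j x) (r x)) := by
  unfold joinsB
  fun_prop

@[fun_prop]
private theorem ohPT {α : Type} [Enc α] {n i : α → ℕ} (hn : PT n) (hi : PT i) :
    PT (fun x => oh (n x) (i x)) := by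
  unfold oh
  fun_prop

@[fun_prop]
private theorem simBPT {α : Type} [Enc α] {D : α → RData} (hD : PT D) :
    PT (fun x => simB (D x)) := by
  unfold simB
  fun_prop

@[fun_prop]
private theorem M2EPT {α : Type} [Enc α] {D : α → Dt} (hD : PT D) : PT (fun x => M2E (D x)) := by
  unfold M2E
  fun_prop

@[fun_prop]
private theorem E2MPT {α : Type} [Enc α] {D : α → RData} (hD : PT D) :
    PT (fun x => E2M (D x)) := by
  unfold E2M
  fun_prop

@[fun_prop]
private theorem wfGPT {α : Type} [Enc α] (p q : ℕ) {D : α → RData} (hD : PT D) :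
    PT (fun x => wfG p q (D x)) := (PT_wfG p q).comp hD

end PT

private theorem bitEncode_inj {D D' : List (List (List Bool))} (h : bitEncode D = bitEncode D') :
    D = D' := by
  have h1 := congrArg (Cod.par (α := List (List (List Bool)))) h
  rwa [Cod.par_enc, Cod.par_enc] at h1

private theorem hasListCoverG_congr {p q : ℕ} [NeZero q] (H : Graph (Fin p) (Fin q))
    (J J' : GInst p q) (hJ : J.G.Simple) (hJ' : J'.G.Simple) (h : J.data = J'.data) :
    H.HasListCoverG J ↔ H.HasListCoverG J' := by
  rw [← GInst.hasListCover_toS H J hJ, ← GInst.hasListCover_toS H J' hJ']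
  refine hasListCover_congr H _ _ ?_
  rw [encodeInst_eq, encodeInst_eq, ← E2M_data J hJ, ← E2M_data J' hJ', h]

private theorem listcovers_encodeG {p q : ℕ} [NeZero q] (H : Graph (Fin p) (Fin q))
    (J : GInst p q) (hJ : J.G.Simple) : LISTCOVERS H (bitEncode J.data) = true ↔
      H.HasListCoverG J := by
  classical
  unfold LISTCOVERS
  rw [decide_eq_true_eq]
  constructor
  · rintro ⟨J', h, hs, hc⟩
    exact (hasListCoverG_congr H J J' hJ hs (bitEncode_inj h)).2 hc
  · intro h
    exact ⟨J, rfl, hJ, h⟩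

/-- The reduction from the simple instances in the encoding of general graphs. -/
private def redM (p q : ℕ) (s : List Bool) : List Bool :=
  if (decide (bitEncode (Cod.par s : RData) = s) && (wfG p q (Cod.par s) &&
    simB (Cod.par s))) = true then bitEncode (E2M (Cod.par s)) else bitEncode ([[]] : Dt)

/-- The reduction to the simple instances in the encoding of general graphs. -/
private def redH (p q : ℕ) (s : List Bool) : List Bool :=
  if (decide (bitEncode (Cod.par s : Dt) = s) && wf p q (Cod.par s)) = true then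
    bitEncode (M2E (Cod.par s)) else bitEncode ([] : RData)

private theorem redM_PT (p q : ℕ) : PT (redM p q) := by
  unfold redM
  fun_prop

private theorem redH_PT (p q : ℕ) : PT (redH p q) := by
  unfold redH
  fun_prop

private theorem redM_spec {p q : ℕ} [NeZero q] (H : Graph (Fin p) (Fin q)) (s : List Bool) :
    LISTCOVERS H s = LISTCOVER H (redM p q s) := by
  classical
  rw [Bool.eq_iff_iff]
  unfold redM
  by_cases hc : (decide (bitEncode (Cod.par s : RData) = s) && (wfG p q (Cod.par s) &&
    simB (Cod.par s))) = true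
  · rw [if_pos hc]
    simp only [Bool.and_eq_true, decide_eq_true_eq] at hc
    obtain ⟨h1, h2, h3⟩ := hc
    obtain ⟨J, hJ⟩ := (wfG_iff p q _).1 h2
    rw [hJ] at h1 h3 ⊢
    have hs := (simB_data J).1 h3
    rw [← h1, listcovers_encodeG H J hs, E2M_data J hs, ← encodeInst_eq, listcover_encodeInst,
      GInst.hasListCover_toS H J hs]
  · rw [if_neg hc]
    constructor
    · intro h
      exfalso
      apply hc
      unfold LISTCOVERS at h
      rw [decide_eq_true_eq] at h
      obtain ⟨J, rfl, hs, -⟩ := h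
      have e : (Cod.par (encodeG J) : RData) = J.data := Cod.par_enc _
      rw [e]
      simp only [Bool.and_eq_true, decide_eq_true_eq]
      exact ⟨rfl, (wfG_iff p q _).2 ⟨J, rfl⟩, (simB_data J).2 hs⟩
    · intro h
      exfalso
      unfold LISTCOVER at h
      rw [decide_eq_true_eq] at h
      obtain ⟨I, hI, -⟩ := h
      rw [encodeInst_eq] at hI
      have h1 := wf_dataOf I
      rw [← bitEncode_inj hI, wf_iff] at h1
      have h2 := h1.1 0 (by simp)
      simp at h2

private theorem redH_spec {p q : ℕ} [NeZero q] (H : Graph (Fin p) (Fin q)) (s : List Bool) :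
    LISTCOVER H s = LISTCOVERS H (redH p q s) := by
  classical
  rw [Bool.eq_iff_iff]
  unfold redH
  by_cases hc : (decide (bitEncode (Cod.par s : Dt) = s) && wf p q (Cod.par s)) = true
  · rw [if_pos hc]
    simp only [Bool.and_eq_true, decide_eq_true_eq] at hc
    obtain ⟨h1, h2⟩ := hc
    have e1 := encodeInst_instOf _ h2
    have e2 : dataOf (instOf p q (Cod.par s) h2) = Cod.par s := bitEncode_inj e1
    have e3 : M2E (Cod.par s) = (instOf p q (Cod.par s) h2).toG.data := by
      rw [← M2E_dataOf, e2]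
    rw [e3, listcovers_encodeG H _ (Inst.toG_simple _), Inst.hasListCover_toG,
      ← listcover_encodeInst, e1, h1]
  · rw [if_neg hc]
    constructor
    · intro h
      exfalso
      apply hc
      unfold LISTCOVER at h
      rw [decide_eq_true_eq] at h
      obtain ⟨I, rfl, -⟩ := h
      have e : (Cod.par (encodeInst I) : Dt) = dataOf I := by
        rw [encodeInst_eq]
        exact Cod.par_enc _
      rw [e]
      simp only [Bool.and_eq_true, decide_eq_true_eq]
      exact ⟨rfl, wf_dataOf I⟩
    · intro h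
      exfalso
      unfold LISTCOVERS at h
      rw [decide_eq_true_eq] at h
      obtain ⟨J, hJ, -⟩ := h
      have h1 : ([] : RData) = J.data := bitEncode_inj hJ
      unfold GInst.data at h1
      exact absurd h1 (by simp)

/-- NP-completeness of LIST-`H`-COVER for simple inputs in the encoding of general graphs. -/
theorem npComplete_LISTCOVERS {p q : ℕ} [NeZero q] (H : Graph (Fin p) (Fin q))
    (h : NPComplete (LISTCOVER H)) : NPComplete (LISTCOVERS H) := by
  obtain ⟨h1, h2⟩ := h
  refine ⟨PolyTime.mem_NP_of_reducible (reducible (redM_PT p q) (redM_spec H)) h1, ?_⟩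
  intro L' hL'
  exact PolyTime.ManyOneReducible.trans (h2 L' hL') (reducible (redH_PT p q) (redH_spec H))

end Pool.Agent.Lib.MP_9c5086_lc
end

section

/-!
LIST-`H`-COVER is in P in the absence of big rich infinite classes and bad components.
-/

namespace Pool.Agent.Lib.MP_9c5086_lc

open Pool.Agent.Lib.MP_9c2350_lc (Enc)
open Pool.Agent.Lib.MP_20e1d9_lc Pool.Agent.Lib.PLib

private theorem gmem_noEdge {p : ℕ} (H : Graph (Fin p) (Fin 0)) (I : GInst p 0) :
    H.HasListCoverG I ↔ I.data.tail = [] ∧ ∀ r ∈ I.data.headD [], true ∈ r := by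
  have h1 : I.data.tail = [] ↔ I.m = 0 := by
    show List.ofFn (fun f => [bitsOf (I.Le f), bitsOf {I.G.a f}, bitsOf (I.G.b f).toFinset]) = [] ↔ _
    exact List.ofFn_eq_nil_iff
  have h2 : (∀ r ∈ I.data.headD [], true ∈ r) ↔ ∀ u, (I.Lv u).Nonempty := by
    show (∀ r ∈ List.ofFn (fun u => bitsOf (I.Lv u)), true ∈ r) ↔ _
    constructor
    · intro h u
      have h3 := h _ (List.mem_ofFn.2 ⟨u, rfl⟩)
      unfold bitsOf at h3
      obtain ⟨x, hx⟩ := List.mem_ofFn.1 h3
      exact ⟨x, by simpa using hx⟩
    · intro h r hr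
      obtain ⟨u, rfl⟩ := List.mem_ofFn.1 hr
      obtain ⟨x, hx⟩ := h u
      unfold bitsOf
      exact List.mem_ofFn.2 ⟨x, by simpa using hx⟩
  rw [h1, h2]
  constructor
  · rintro ⟨fv, fe, -, hv, -⟩
    refine ⟨?_, fun u => ⟨fv u, hv u⟩⟩
    by_contra hm
    exact (fe ⟨0, Nat.pos_of_ne_zero hm⟩).elim0
  · rintro ⟨hm, hn⟩
    choose fv hv using hn
    have hF : IsEmpty (Fin I.m) := by
      rw [hm]
      exact Fin.isEmpty
    refine ⟨fv, fun f => hF.elim f, ⟨fun f => hF.elim f, fun f => hF.elim f, fun e => e.elim0,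
      fun e => e.elim0, fun e => e.elim0⟩, hv, fun f => hF.elim f⟩

/-- If `H` has no edges, then LIST-`H`-COVER is in P. -/
theorem mem_P_of_no_edges {p : ℕ} (H : Graph (Fin p) (Fin 0)) : LISTCOVERG H ∈ N68a2faeb.P := by
  refine PLib.mem_P (α := RData) (g := fun D => wfG p 0 D && decide (D.tail = []) &&
    (D.headD []).all fun r => decide (true ∈ r)) ?_ ?_
  · have h1 := PT_wfG p 0
    have h2 : PT fun D : RData => D.headD [] := by
      have h3 : PT fun D : RData => (D.head?).getD [] := by fun_prop
      exact h3.of_eq fun D => by cases D <;> rfl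
    have h4 : PT fun D : RData => decide (D.tail = []) := by fun_prop
    fun_prop
  · intro s
    unfold LISTCOVERG
    refine (@decide_eq_true_iff _ (Classical.propDecidable _)).trans ?_
    have hg : ∀ D : RData, (wfG p 0 D && decide (D.tail = []) &&
        (D.headD []).all fun r => decide (true ∈ r)) = true ↔
          wfG p 0 D = true ∧ D.tail = [] ∧ ∀ r ∈ D.headD [], true ∈ r := by
      intro D
      rw [Bool.and_eq_true, Bool.and_eq_true, decide_eq_true_iff, List.all_eq_true, and_assoc]
      simp only [decide_eq_true_iff]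
    constructor
    · rintro ⟨I, rfl, hI⟩
      exact ⟨I.data, rfl, (hg _).2 ⟨(wfG_iff p 0 _).2 ⟨I, rfl⟩, (gmem_noEdge H I).1 hI⟩⟩
    · rintro ⟨D, rfl, hD⟩
      obtain ⟨h1, h2⟩ := (hg _).1 hD
      obtain ⟨I, rfl⟩ := (wfG_iff p 0 D).1 h1
      exact ⟨I, rfl, (gmem_noEdge H I).2 h2⟩

/-- The polynomial case. -/
theorem mem_P_of_not_static {p q : ℕ} [NeZero p] [NeZero q] (H : Graph (Fin p) (Fin q))
    (hT : H.Tame H.ty) (Θ : Graph.Thin H H.ty) (hΘ : Θ.Covers) (hs : ¬ Θ.Static) :
    LISTCOVERG H ∈ N68a2faeb.P := by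
  obtain ⟨T, hT', hE⟩ := Alg.exists_tab H hT Θ hΘ
  have key : ∀ I : GInst p q, H.HasListCoverG I ↔ Alg.accept T (rawLG p q I.data) = true := by
    intro I
    rw [cov_data H I, Graph.cov_iff (ok_data I) hT hΘ hE hs,
      Alg.accept_iff (ok_data I) (nodup_data I).1 (nodup_data I).2 hT' hE]
  refine PLib.mem_P (α := RData) (g := fun D => wfG p q D && Alg.accept T (rawLG p q D)) ?_ ?_
  · have h1 := PT_wfG p q
    have h2 := Alg.PT_accept T (PTLG_rawLG p q)
    fun_prop
  · intro s
    unfold LISTCOVERG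
    refine (@decide_eq_true_iff _ (Classical.propDecidable _)).trans ?_
    constructor
    · rintro ⟨I, rfl, hI⟩
      refine ⟨I.data, rfl, ?_⟩
      rw [Bool.and_eq_true]
      exact ⟨(wfG_iff p q _).2 ⟨I, rfl⟩, (key I).1 hI⟩
    · rintro ⟨D, rfl, hD⟩
      rw [Bool.and_eq_true] at hD
      obtain ⟨I, rfl⟩ := (wfG_iff p q D).1 hD.1
      exact ⟨I, rfl, (key I).2 hD.2⟩

end Pool.Agent.Lib.MP_9c5086_lc
end

section

/-!
NP-completeness for bad thin systems.
-/

namespace Pool.Agent.Lib.MP_9c5086_lc

namespace Graph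

variable {V E I : Type} {H : Graph V E} {t : V → I}

/-- All Boolean relations are realizable in the presence of a bad component. -/
theorem Thin.exists_setup [Finite E] [Nonempty E] (Θ : Thin H t) (h : Θ.Static) :
    ∃ (S : Setup H t Bool), ∀ (P : Type) [Finite P] (sg : P → Bool) (R : (P → Bool) → Prop),
      Real S P sg (fun c => ∃ b : P → Bool, R b ∧ ∀ p, c p = if b p then true else false) := by
  obtain ⟨e₀, h₀⟩ := Θ.dyn_of_static h
  obtain ⟨e, P, he, -, hP⟩ := exists_port e₀ h₀
  refine ⟨P.setup, fun Q _ sg R => ?_⟩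
  have hb := Clone.basic_of_bad (realClone P.setup) (real_eq2 e₀ h₀ e he P hP)
    (real_eq3 e₀ h₀ e he P hP) (real_one3 e₀ h₀ e he P hP) (real_not P.setup (port_inc P))
  exact hb.all Q sg R

/-- The identity embedding. -/
def Emb.refl (H : Graph V E) : Emb H H where
  jv := id
  je := id
  jv_inj := Function.injective_id
  je_inj := Function.injective_id
  a_je _ := rfl
  b_je e := by simp
  closed e _ _ _ := ⟨e, rfl⟩

end Graph

/-- LIST-`H`-COVER is NP-complete for simple input graphs if some thin system is statically bad. -/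
theorem npComplete_of_static {p q : ℕ} (H : Graph (Fin p) (Fin q)) {I : Type} (t : Fin p → I)
    (ht : H.Equitable t) (Θ : Graph.Thin H t) (h : Θ.Static) : NPComplete (LISTCOVER H) := by
  refine ⟨listcover_mem_NP H, ?_⟩
  have hE : Nonempty (Fin q) := by
    obtain ⟨n₀, h0⟩ := h
    obtain ⟨d, -⟩ := h0 0 1 (by decide)
    exact ⟨(d 0).edge⟩
  obtain ⟨S, hS⟩ := Θ.exists_setup h
  exact Graph.hard_of_real ht H (Graph.Emb.refl H) S true false (by decide) hS

end Pool.Agent.Lib.MP_9c5086_lc
end

section

/-!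
The main theorem.
-/

namespace Pool.Agent.Lib.MP_9c5086_lc

/-- LIST-`H`-COVER is NP-complete for simple input graphs if some class of an equitable partition
is infinite, has at least three darts and contains an ordinary edge or at least three edges. -/
theorem npComplete {p q : ℕ} (H : Graph (Fin p) (Fin q)) {I : Type} (t : Fin p → I)
    (ht : H.Equitable t) (x : Fin p) (j : I) (h3 : 3 ≤ H.classSize t x j)
    (hi : H.InfiniteClass t x j) (hr : H.RichClass t x j) : NPComplete (LISTCOVER H) := by
  refine ⟨listcover_mem_NP H, ?_⟩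
  obtain ⟨V₀, E₀, _, _, _, H₀, em, y, -, hconn, hteq, h3', hi', hr'⟩ :=
    Graph.exists_component H t ht x j h3 hi hr
  obtain ⟨Col, S, T, F, hTF, hreal⟩ := Graph.exists_setup hteq hconn y j h3' hi' hr'
  exact Graph.hard_of_real hteq H em S T F hTF hreal

/-- LIST-`H`-COVER is NP-complete for simple input graphs if `H` is regular of degree at least
three and some vertex is incident with an ordinary edge or with at least three edges. -/
theorem npComplete_of_regular {p q : ℕ} (H : Graph (Fin p) (Fin q)) (k : ℕ) (hk : 3 ≤ k)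
    (hreg : ∀ v, H.degree v = k) (x : Fin p)
    (hx : (∃ d : H.Dart, d.src = x ∧ d.tgt ≠ x) ∨
      3 ≤ {e | ∃ d : H.Dart, d.edge = e ∧ d.src = x}.ncard) : NPComplete (LISTCOVER H) := by
  have hc : ∀ v, H.classSize (fun _ => ()) v () = k := fun v => by
    rw [← hreg v]
    simp [Graph.classSize, Graph.degree]
  refine npComplete H (fun _ => ()) (fun v w _ j => ?_) x () ((hc x).symm ▸ hk)
    (Graph.infinite_of_regular H k hk hreg x) ?_
  · obtain rfl : j = () := rfl
    rw [hc, hc]
  · rcases hx with ⟨d, h1, h2⟩ | hx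
    · exact Or.inl ⟨d, h1, rfl, h2⟩
    · exact Or.inr (by simpa using hx)

end Pool.Agent.Lib.MP_9c5086_lc
end

section

/-!
The dichotomy for LIST-`H`-COVER.
-/

namespace Pool.Agent.Lib.MP_9c5086_lc

/-- LIST-`H`-COVER is in P for all input graphs or NP-complete for simple input graphs. -/
theorem dichotomy {p q : ℕ} (H : Graph (Fin p) (Fin q)) :
    LISTCOVERG H ∈ N68a2faeb.P ∨ NPComplete (LISTCOVERS H) := by
  rcases Nat.eq_zero_or_pos q with hq | hq
  · subst hq
    exact Or.inl (mem_P_of_no_edges H)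
  have hq' : NeZero q := ⟨hq.ne'⟩
  have hp' : NeZero p := ⟨by
    rintro rfl
    exact (H.a ⟨0, hq⟩).elim0⟩
  have ht : H.Equitable H.ty := Graph.equitable_ty
  by_cases hT : H.Tame H.ty
  · obtain ⟨Θ, hΘ⟩ := hT.exists_thin ht
    by_cases hs : Θ.Static
    · exact Or.inr (npComplete_LISTCOVERS H (npComplete_of_static H H.ty ht Θ hs))
    · exact Or.inl (mem_P_of_not_static H hT Θ hΘ hs)
  · have : ∃ x j, H.InfiniteClass H.ty x j ∧ 3 ≤ H.classSize H.ty x j ∧ H.RichClass H.ty x j := by
      unfold Graph.Tame at hT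
      push_neg at hT
      exact hT
    obtain ⟨x, j, hi, h3, hr⟩ := this
    exact Or.inr (npComplete_LISTCOVERS H (npComplete H H.ty ht x j h3 hi hr))

end Pool.Agent.Lib.MP_9c5086_lc
end
end
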