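import Pool.Agent.Lib.MP_9c5086_lc.PMDec
import Pool.Agent.Lib.PLib.Lists

/-!
The algorithm for perfect matchings runs in polynomial time.
-/

set_option autoImplicit false
set_option linter.unusedSectionVars false

namespace Pool.Agent.Lib.MP_9c5086_lc.PM

open Pool.Agent.Lib.MP_20e1d9_lc (PT PT.of_eq PT.of_word PT.size PT.comp)
open Pool.Agent.Lib.MP_20e1d9_lc.PL
open Pool.Agent.Lib.PLib
open Pool.Agent.Lib.MP_9c2350_lc (Enc sz sz_pair sz_cons sz_nil sz_append length_le_sz
  sz_list_le sz_le_of_mem PB sz_pos)

variable {δ α : Type} [Enc δ] [Enc α] [EncI α] [DecidableEq α]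

@[fun_prop]
theorem adjPT {E : δ → List (α × α)} {a b : δ → α} (hE : PT E) (ha : PT a) (hb : PT b) :
    PT (fun x => decide (Adj (E x) (a x) (b x))) := by
  have h : PT fun x => decide (¬ a x = b x ∧ ((a x, b x) ∈ E x ∨ (b x, a x) ∈ E x)) := by
    fun_prop
  exact h.of_eq fun x => rfl

@[fun_prop]
theorem endsPT {M : δ → List (α × α)} (hM : PT M) : PT (fun x => ends (M x)) := by
  unfold ends
  fun_prop

@[fun_prop]
theorem untouchedPT {M : δ → List (α × α)} {c : δ → List α} (hM : PT M) (hc : PT c) :
    PT (fun x => untouched (M x) (c x)) := by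
  unfold untouched
  fun_prop

theorem pairs_eq (l : List α) : pairs l = (List.range l.length).filterMap fun i =>
    (l[2 * i]?).bind fun a => (l[2 * i + 1]?).map fun b => (a, b) := by
  induction l using pairs.induct with
  | case1 a b l ih =>
    rw [pairs, ih]
    have e : (a :: b :: l).length = l.length + 1 + 1 := rfl
    rw [e, List.range_succ_eq_map, List.filterMap_cons, List.filterMap_map]
    have e1 : ∀ i : ℕ, 2 * i.succ = 2 * i + 1 + 1 := fun i => by omega
    simp only [Function.comp_def, mul_zero, List.getElem?_cons_zero, Option.bind_some, zero_add,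
      List.getElem?_cons_succ, Option.map_some, e1]
    congr 1
    rw [List.range_succ, List.filterMap_append]
    have h1 : List.filterMap (fun i => (l[2 * i]?).bind fun a =>
        (l[2 * i + 1]?).map fun b => (a, b)) [l.length] = [] := by
      have : l[2 * l.length]? = none := by
        rw [List.getElem?_eq_none_iff]
        omega
      simp [this]
    rw [h1, List.append_nil]
  | case2 l h =>
    match l, h with
    | [], _ => rfl
    | [a], _ => rfl
    | a :: b :: l, h => exact (h a b l rfl).elim

@[fun_prop]
theorem pairsPT {l : δ → List α} (hl : PT l) : PT (fun x => pairs (l x)) := by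
  simp only [pairs_eq]
  fun_prop

@[fun_prop]
theorem matePT {M : δ → List (α × α)} {a : δ → α} (hM : PT M) (ha : PT a) :
    PT (fun x => mate (M x) (a x)) := by
  unfold mate
  fun_prop

@[fun_prop]
theorem rootsPT {V : δ → List α} {M : δ → List (α × α)} (hV : PT V) (hM : PT M) :
    PT (fun x => roots (V x) (M x)) := by
  unfold roots
  fun_prop

theorem ext_eq (V : List α) (E M : List (α × α)) (F : List (List α)) (p : List α) :
    ext V E M F p = (p.head?).elim [] fun h => V.flatMap fun y =>
      if Adj E h y ∧ y ∉ F.flatten then (mate M y).map fun z => z :: y :: p else [] := by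
  cases p <;> rfl

@[fun_prop]
theorem extPT {V : δ → List α} {E M : δ → List (α × α)} {F : δ → List (List α)}
    {p : δ → List α} (hV : PT V) (hE : PT E) (hM : PT M) (hF : PT F) (hp : PT p) :
    PT (fun x => ext (V x) (E x) (M x) (F x) (p x)) := by
  simp only [ext_eq]
  fun_prop

theorem addStep_eq (V : List α) (E M : List (α × α)) (F : List (List α)) :
    addStep V E M F = ((F.flatMap (ext V E M F)).head?).toList ++ F := by
  unfold addStep
  cases F.flatMap (ext V E M F) <;> rfl

@[fun_prop]
theorem addStepPT {V : δ → List α} {E M : δ → List (α × α)} {F : δ → List (List α)}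
    (hV : PT V) (hE : PT E) (hM : PT M) (hF : PT F) :
    PT (fun x => addStep (V x) (E x) (M x) (F x)) := by
  simp only [addStep_eq]
  fun_prop

theorem found_eq (E : List (α × α)) (F : List (List α)) : found E F =
    F.flatMap fun p => F.flatMap fun q => (p.head?).elim [] fun h => (q.head?).elim [] fun g =>
      if Adj E h g then [(p, q)] else [] := by
  unfold found
  congr 1
  funext p
  congr 1
  funext q
  cases p <;> cases q <;> rfl

@[fun_prop]
theorem foundPT {E : δ → List (α × α)} {F : δ → List (List α)} (hE : PT E) (hF : PT F) :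
    PT (fun x => found (E x) (F x)) := by
  simp only [found_eq]
  fun_prop

@[fun_prop]
theorem flipPT {M : δ → List (α × α)} {s : δ → List α} (hM : PT M) (hs : PT s) :
    PT (fun x => flip (M x) (s x)) := by
  unfold flip
  fun_prop

@[fun_prop]
theorem rnPT {b : δ → α} {c : δ → List α} {a : δ → α} (hb : PT b) (hc : PT c) (ha : PT a) :
    PT (fun x => rn (b x) (c x) (a x)) := by
  unfold rn
  fun_prop

@[fun_prop]
theorem contractPT {V : δ → List α} {E M : δ → List (α × α)} {b : δ → α} {c : δ → List α}
    (hV : PT V) (hE : PT E) (hM : PT M) (hb : PT b) (hc : PT c) :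
    PT (fun x => contract (V x) (E x) (M x) (b x) (c x)) := by
  unfold contract
  fun_prop

/-! ### Sizes of the forests -/

theorem mem_mate_ends {M : List (α × α)} {y z : α} (h : z ∈ mate M y) : z ∈ ends M := by
  unfold mate at h
  unfold ends
  rw [List.mem_flatMap] at h ⊢
  obtain ⟨e, he, h⟩ := h
  refine ⟨e, he, ?_⟩
  split_ifs at h <;> simp_all

theorem mem_addStep {V : List α} {E M : List (α × α)} {F : List (List α)} {p : List α}
    (h : p ∈ addStep V E M F) : p ∈ F ∨ ∃ q ∈ F, ∃ y ∈ V, ∃ z ∈ ends M, p = z :: y :: q := by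
  rw [addStep_eq, List.mem_append] at h
  rcases h with h | h
  · right
    have h1 : p ∈ F.flatMap (ext V E M F) := by
      rw [Option.mem_toList] at h
      exact List.mem_of_mem_head? h
    obtain ⟨q, hq, h2⟩ := List.mem_flatMap.1 h1
    rw [ext_eq] at h2
    cases hh : q.head? with
    | none => rw [hh] at h2; simp at h2
    | some g =>
      rw [hh] at h2
      simp only [Option.elim_some] at h2
      obtain ⟨y, hy, h3⟩ := List.mem_flatMap.1 h2
      split_ifs at h3 with h4
      · obtain ⟨z, hz, rfl⟩ := List.mem_map.1 h3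
        exact ⟨q, hq, y, hy, z, mem_mate_ends hz, rfl⟩
      · simp at h3
  · exact Or.inl h

theorem length_addStep (V : List α) (E M : List (α × α)) (F : List (List α)) :
    (addStep V E M F).length ≤ F.length + 1 := by
  rw [addStep_eq, List.length_append]
  cases (F.flatMap (ext V E M F)).head? <;> simp; omega

theorem forest_bound (V : List α) (E M : List (α × α)) (k : ℕ) :
    ((addStep V E M)^[k] (roots V M)).length ≤ V.length + k ∧
    ∀ p ∈ (addStep V E M)^[k] (roots V M), p.length ≤ 2 * k + 1 ∧
      ∀ x ∈ p, x ∈ V ∨ x ∈ ends M := by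
  induction k with
  | zero =>
    refine ⟨?_, ?_⟩
    · simp only [Function.iterate_zero, id_eq, roots, List.length_map, add_zero]
      exact List.length_filter_le _ _
    · intro p hp
      simp only [Function.iterate_zero, id_eq, roots, List.mem_map] at hp
      obtain ⟨v, hv, rfl⟩ := hp
      refine ⟨by simp, fun x hx => Or.inl ?_⟩
      rw [List.mem_singleton] at hx
      subst hx
      exact (List.mem_filter.1 hv).1
  | succ k ih =>
    rw [Function.iterate_succ_apply']
    refine ⟨(length_addStep V E M _).trans (by omega), ?_⟩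
    intro p hp
    rcases mem_addStep hp with h | ⟨q, hq, y, hy, z, hz, rfl⟩
    · obtain ⟨h1, h2⟩ := ih.2 p h
      exact ⟨by omega, h2⟩
    · obtain ⟨h1, h2⟩ := ih.2 q hq
      refine ⟨by simp only [List.length_cons]; omega, ?_⟩
      intro x hx
      rcases List.mem_cons.1 hx with rfl | hx
      · exact Or.inr hz
      · rcases List.mem_cons.1 hx with rfl | hx
        · exact Or.inl hy
        · exact h2 x hx

theorem sz_ends_le (M : List (α × α)) : ∀ x ∈ ends M, sz x ≤ sz M := by
  intro x hx
  unfold ends at hx
  obtain ⟨e, he, hx⟩ := List.mem_flatMap.1 hx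
  have h1 := sz_le_of_mem he
  have h2 : sz e = sz e.1 + sz e.2 + 1 := sz_pair e.1 e.2
  rcases List.mem_cons.1 hx with rfl | hx
  · omega
  · rw [List.mem_singleton] at hx
    subst hx
    omega

@[fun_prop]
theorem forestPT {V : δ → List α} {E M : δ → List (α × α)} (hV : PT V) (hE : PT E) (hM : PT M) :
    PT (fun x => forest (V x) (E x) (M x)) := by
  obtain ⟨qV, hqV, HqV⟩ := hV.size
  obtain ⟨qM, hqM, HqM⟩ := hM.size
  unfold forest
  refine iterateB (n := fun x => (V x).length) (s0 := fun x => roots (V x) (M x))
    (f := fun x F => addStep (V x) (E x) (M x) F) (by fun_prop) (by fun_prop) (by fun_prop)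
    (q := fun n => (qV n + qV n) * (((2 * qV n + 1) * (qV n + qM n + 1) + 1) + 1) + 1) ?_ ?_
  · exact ((((hqV.add hqV).mul ((((((PB.const 2).mul hqV).add (PB.const 1)).mul
      ((hqV.add hqM).add (PB.const 1))).add (PB.const 1)).add (PB.const 1)))).add (PB.const 1))
  · intro x k hk
    show sz ((addStep (V x) (E x) (M x))^[k] (roots (V x) (M x))) ≤ _
    have h0 : (V x).length ≤ qV (sz x) := (length_le_sz _).le.trans (HqV x)
    obtain ⟨h1, h2⟩ := forest_bound (V x) (E x) (M x) k
    refine (sz_list_le _ ((2 * qV (sz x) + 1) * (qV (sz x) + qM (sz x) + 1) + 1) ?_).trans ?_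
    · intro p hp
      obtain ⟨h3, h4⟩ := h2 p hp
      refine (sz_list_le _ (qV (sz x) + qM (sz x)) ?_).trans ?_
      · intro a ha
        rcases h4 a ha with h | h
        · have := (sz_le_of_mem h).le.trans (HqV x)
          omega
        · have := (sz_ends_le (M x) a h).trans (HqM x)
          omega
      · have h5 : p.length ≤ 2 * qV (sz x) + 1 := by omega
        have := Nat.mul_le_mul_right (qV (sz x) + qM (sz x) + 1) h5
        omega
    · have h5 : ((addStep (V x) (E x) (M x))^[k] (roots (V x) (M x))).length ≤
        qV (sz x) + qV (sz x) := by omega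
      have := Nat.mul_le_mul_right ((2 * qV (sz x) + 1) * (qV (sz x) + qM (sz x) + 1) + 1 + 1) h5
      show _ ≤ (qV (sz x) + qV (sz x)) *
        (((2 * qV (sz x) + 1) * (qV (sz x) + qM (sz x) + 1) + 1) + 1) + 1
      omega

/-! ### Steps of the algorithm -/

theorem augStep_eq (s : State α) : augStep s = if s.2.2.2 = [] then
    ((found s.2.1 (forest s.1 s.2.1 s.2.2.1)).head?).elim (s.1, s.2.1, s.2.2.1, [false])
      fun pq => ((pq.1.filter fun x => decide (x ∈ pq.2)).head?).elim
        (s.1, s.2.1, s.2.2.1, [true]) fun b =>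
          contract s.1 s.2.1 (flip s.2.2.1 (pq.1.filter fun x => decide (x ∈ pq.2))) b
            ((pq.1.filter fun x => decide (x ∉ pq.2)).reverse ++
              pq.2.filter fun x => decide (x ∉ pq.1))
    else s := by
  obtain ⟨V, E, M, r⟩ := s
  cases r with
  | cons _ _ => rfl
  | nil =>
    rw [if_pos rfl]
    unfold augStep
    dsimp only
    cases h : found E (forest V E M) with
    | nil => rfl
    | cons pq l =>
      obtain ⟨p, q⟩ := pq
      simp only [List.head?_cons, Option.elim_some]
      cases h : p.filter fun x => decide (x ∈ q) with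
      | nil => rfl
      | cons b t => rfl

theorem augStepPT : PT (augStep : State α → State α) := by
  have h : PT fun s : State α => if s.2.2.2 = [] then
    ((found s.2.1 (forest s.1 s.2.1 s.2.2.1)).head?).elim (s.1, s.2.1, s.2.2.1, [false])
      fun pq => ((pq.1.filter fun x => decide (x ∈ pq.2)).head?).elim
        (s.1, s.2.1, s.2.2.1, [true]) fun b =>
          contract s.1 s.2.1 (flip s.2.2.1 (pq.1.filter fun x => decide (x ∈ pq.2))) b
            ((pq.1.filter fun x => decide (x ∉ pq.2)).reverse ++
              pq.2.filter fun x => decide (x ∉ pq.1))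
    else s := by
    fun_prop
  exact h.of_eq fun s => (augStep_eq s).symm

/-- Bounds for the states of the algorithm. -/
def AB (S : α → Prop) (a b c : ℕ) (s : State α) : Prop :=
  (s.1.length ≤ a ∧ ∀ v ∈ s.1, S v) ∧ (s.2.1.length ≤ b ∧ ∀ e ∈ s.2.1, S e.1 ∧ S e.2) ∧
    (s.2.2.1.length ≤ c ∧ ∀ e ∈ s.2.2.1, S e.1 ∧ S e.2) ∧ s.2.2.2.length ≤ 1

omit [Enc α] [EncI α] [DecidableEq α] in
theorem length_pairs_le (l : List α) : (pairs l).length ≤ l.length := by
  induction l using pairs.induct with
  | case1 a b l ih => simp only [pairs, List.length_cons]; omega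
  | case2 l h =>
    match l, h with
    | [], _ => exact le_refl _
    | [a], _ => simp [pairs]
    | a :: b :: l, h => exact (h a b l rfl).elim

omit [Enc α] [EncI α] [DecidableEq α] in
theorem mem_of_mem_pairs (l : List α) : ∀ e ∈ pairs l, e.1 ∈ l ∧ e.2 ∈ l := by
  induction l using pairs.induct with
  | case1 a b l ih =>
    intro e he
    rw [pairs, List.mem_cons] at he
    rcases he with rfl | he
    · simp
    · obtain ⟨h1, h2⟩ := ih e he
      exact ⟨by simp [h1], by simp [h2]⟩
  | case2 l h =>
    match l, h with
    | [], _ => intro e he; simp [pairs] at he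
    | [a], _ => intro e he; simp [pairs] at he
    | a :: b :: l, h => exact (h a b l rfl).elim

theorem mem_found {E : List (α × α)} {F : List (List α)} {p q : List α}
    (h : (p, q) ∈ found E F) : p ∈ F ∧ q ∈ F := by
  rw [found_eq] at h
  obtain ⟨p', hp', h⟩ := List.mem_flatMap.1 h
  obtain ⟨q', hq', h⟩ := List.mem_flatMap.1 h
  cases hp : p'.head? with
  | none => rw [hp] at h; simp at h
  | some g =>
    cases hq : q'.head? with
    | none => rw [hp, hq] at h; simp at h
    | some g' =>
      rw [hp, hq] at h
      simp only [Option.elim_some] at h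
      split_ifs at h
      · simp only [List.mem_singleton, Prod.mk.injEq] at h
        rw [h.1, h.2]
        exact ⟨hp', hq'⟩
      · simp at h

theorem augStep_AB {S : α → Prop} {a b c : ℕ} {s : State α} (h : AB S a b c s) :
    AB S a b (c + (2 * a + 1)) (augStep s) := by
  obtain ⟨V, E, M, r⟩ := s
  obtain ⟨⟨h1, h2⟩, ⟨h3, h4⟩, ⟨h5, h6⟩, h7⟩ := h
  dsimp only at h1 h2 h3 h4 h5 h6 h7
  rw [augStep_eq]
  split_ifs with hr
  swap
  · exact ⟨⟨h1, h2⟩, ⟨h3, h4⟩, ⟨by dsimp only; omega, h6⟩, h7⟩
  dsimp only
  have hfb := forest_bound V E M V.length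
  have hS : ∀ p ∈ forest V E M, ∀ x ∈ p, S x := by
    intro p hp x hx
    rcases (hfb.2 p hp).2 x hx with h | h
    · exact h2 x h
    · unfold ends at h
      obtain ⟨e, he, hx⟩ := List.mem_flatMap.1 h
      rcases List.mem_cons.1 hx with rfl | hx
      · exact (h6 e he).1
      · rw [List.mem_singleton] at hx
        rw [hx]
        exact (h6 e he).2
  cases hf : (found E (forest V E M)).head? with
  | none => exact ⟨⟨h1, h2⟩, ⟨h3, h4⟩, ⟨h5.trans (Nat.le_add_right _ _), h6⟩, le_refl _⟩
  | some pq =>
    obtain ⟨p, q⟩ := pq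
    have hpq : (p, q) ∈ found E (forest V E M) := List.mem_of_mem_head? hf
    obtain ⟨hp, hq⟩ := mem_found hpq
    simp only [Option.elim_some]
    cases hb : (p.filter fun x => decide (x ∈ q)).head? with
    | none => exact ⟨⟨h1, h2⟩, ⟨h3, h4⟩, ⟨h5.trans (Nat.le_add_right _ _), h6⟩, le_refl _⟩
    | some g =>
      simp only [Option.elim_some]
      have hg : g ∈ p.filter fun x => decide (x ∈ q) := List.mem_of_mem_head? hb
      have hSg : S g := hS p hp g (List.mem_filter.1 hg).1
      have hpl : p.length ≤ 2 * a + 1 := by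
        have := (hfb.2 p hp).1
        omega
      refine ⟨⟨?_, ?_⟩, ⟨?_, ?_⟩, ⟨?_, ?_⟩, Nat.zero_le _⟩
      · exact (List.length_filter_le _ _).trans h1
      · intro v hv
        exact h2 v (List.mem_filter.1 hv).1
      · show (E.map _).length ≤ b
        rw [List.length_map]
        exact h3
      · intro e he
        obtain ⟨e', he', rfl⟩ := List.mem_map.1 he
        have hrn : ∀ cc x, S x → S (rn g cc x) := by
          intro cc x hx
          unfold rn
          split_ifs
          · exact hSg
          · exact hx
        exact ⟨hrn _ _ (h4 e' he').1, hrn _ _ (h4 e' he').2⟩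
      · refine (List.length_filter_le _ _).trans ?_
        unfold flip
        rw [List.length_append]
        have e1 := length_pairs_le (p.filter fun x => decide (x ∈ q)).tail
        have e2 : (p.filter fun x => decide (x ∈ q)).tail.length ≤ p.length := by
          rw [List.length_tail]
          have := List.length_filter_le (fun x => decide (x ∈ q)) p
          omega
        have e3 : (untouched M (p.filter fun x => decide (x ∈ q))).length ≤ M.length :=
          List.length_filter_le _ _
        omega
      · intro e he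
        have he' := (List.mem_filter.1 he).1
        unfold flip at he'
        rcases List.mem_append.1 he' with he' | he'
        · obtain ⟨h8, h9⟩ := mem_of_mem_pairs _ e he'
          exact ⟨hS p hp _ (List.mem_filter.1 (List.mem_of_mem_tail h8)).1,
            hS p hp _ (List.mem_filter.1 (List.mem_of_mem_tail h9)).1⟩
        · exact h6 e (List.mem_filter.1 he').1

theorem augStep_iter_AB {S : α → Prop} {a b c : ℕ} {s : State α} (h : AB S a b c s) (k : ℕ) :
    AB S a b (c + k * (2 * a + 1)) (augStep^[k] s) := by
  induction k with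
  | zero => simpa using h
  | succ k ih =>
    rw [Function.iterate_succ_apply']
    have := augStep_AB ih
    have e : c + (k + 1) * (2 * a + 1) = c + k * (2 * a + 1) + (2 * a + 1) := by ring
    rw [e]
    exact this

theorem sz_AB {B a b c : ℕ} {s : State α} (h : AB (fun x => sz x ≤ B) a b c s) :
    sz s ≤ (a * (B + 1) + 1) + (b * (B + B + 2) + 1) + (c * (B + B + 2) + 1) + 8 := by
  obtain ⟨V, E, M, r⟩ := s
  obtain ⟨⟨h1, h2⟩, ⟨h3, h4⟩, ⟨h5, h6⟩, h7⟩ := h
  dsimp only at h1 h2 h3 h4 h5 h6 h7
  rw [sz_pair, sz_pair, sz_pair]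
  have e1 := sz_list_le V B h2
  have e2 : sz E ≤ E.length * (B + B + 2) + 1 := sz_list_le E (B + B + 1) (fun e he => by
    have := h4 e he
    have : sz e = sz e.1 + sz e.2 + 1 := sz_pair e.1 e.2
    omega)
  have e3 : sz M ≤ M.length * (B + B + 2) + 1 := sz_list_le M (B + B + 1) (fun e he => by
    have := h6 e he
    have : sz e = sz e.1 + sz e.2 + 1 := sz_pair e.1 e.2
    omega)
  have e4 := sz_list_le r 3 (fun x _ => MP_9c2350_lc.sz_bool x)
  have f1 := Nat.mul_le_mul_right (B + 1) h1
  have f2 := Nat.mul_le_mul_right (B + B + 2) h3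
  have f3 := Nat.mul_le_mul_right (B + B + 2) h5
  omega

@[fun_prop]
theorem augPT {V : δ → List α} {E M : δ → List (α × α)} (hV : PT V) (hE : PT E) (hM : PT M) :
    PT (fun x => aug (V x) (E x) (M x)) := by
  obtain ⟨qV, hqV, HqV⟩ := hV.size
  obtain ⟨qE, hqE, HqE⟩ := hE.size
  obtain ⟨qM, hqM, HqM⟩ := hM.size
  have h : PT fun x => augStep^[(V x).length + 1] (V x, E x, M x, ([] : List Bool)) := by
    refine iterateB (n := fun x => (V x).length + 1)
      (s0 := fun x => (V x, E x, M x, ([] : List Bool)))
      (f := fun _ s => augStep s) (by fun_prop) (by fun_prop) ?_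
      (q := fun n => (qV n * ((qV n + qE n + qM n) + 1) + 1) +
        (qE n * ((qV n + qE n + qM n) + (qV n + qE n + qM n) + 2) + 1) +
        ((qM n + (qV n + 1) * (2 * qV n + 1)) *
          ((qV n + qE n + qM n) + (qV n + qE n + qM n) + 2) + 1) + 8) ?_ ?_
    · exact augStepPT.comp (snd id)
    · have hB := (hqV.add hqE).add hqM
      have hB2 := (hB.add hB).add (PB.const 2)
      exact ((((hqV.mul (hB.add (PB.const 1))).add (PB.const 1)).add
        ((hqE.mul hB2).add (PB.const 1))).add (((hqM.add ((hqV.add (PB.const 1)).mul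
          (((PB.const 2).mul hqV).add (PB.const 1)))).mul hB2).add (PB.const 1))).add (PB.const 8)
    · intro x k hk
      show sz (augStep^[k] (V x, E x, M x, ([] : List Bool))) ≤ _
      set B := qV (sz x) + qE (sz x) + qM (sz x) with hB
      have h0 : AB (fun y => sz y ≤ B) (qV (sz x)) (qE (sz x)) (qM (sz x))
          (V x, E x, M x, ([] : List Bool)) := by
        refine ⟨⟨(length_le_sz _).le.trans (HqV x), ?_⟩, ⟨(length_le_sz _).le.trans (HqE x), ?_⟩,
          ⟨(length_le_sz _).le.trans (HqM x), ?_⟩, Nat.zero_le _⟩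
        · intro v hv
          have := (sz_le_of_mem hv).le.trans (HqV x)
          show sz v ≤ B
          omega
        · intro e he
          have h1 := (sz_le_of_mem he).le.trans (HqE x)
          have h2 : sz e = sz e.1 + sz e.2 + 1 := sz_pair e.1 e.2
          show sz e.1 ≤ B ∧ sz e.2 ≤ B
          omega
        · intro e he
          have h1 := (sz_le_of_mem he).le.trans (HqM x)
          have h2 : sz e = sz e.1 + sz e.2 + 1 := sz_pair e.1 e.2
          show sz e.1 ≤ B ∧ sz e.2 ≤ B
          omega
      refine (sz_AB (augStep_iter_AB h0 k)).trans ?_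
      have hk' : k ≤ qV (sz x) + 1 := by
        have := (length_le_sz (V x)).le.trans (HqV x)
        omega
      have e1 := Nat.mul_le_mul_right (2 * qV (sz x) + 1) hk'
      have e2 : qM (sz x) + k * (2 * qV (sz x) + 1) ≤
          qM (sz x) + (qV (sz x) + 1) * (2 * qV (sz x) + 1) := by omega
      have e3 := Nat.mul_le_mul_right (B + B + 2) e2
      show _ ≤ (qV (sz x) * (B + 1) + 1) + (qE (sz x) * (B + B + 2) + 1) +
        ((qM (sz x) + (qV (sz x) + 1) * (2 * qV (sz x) + 1)) * (B + B + 2) + 1) + 8
      omega
  have h2 : PT fun x => (augStep^[(V x).length + 1] (V x, E x, M x, ([] : List Bool))).2.2.2.headD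
      false := by fun_prop
  exact h2

/-! ### The search for a larger matching -/

theorem pruneStep_eq (V : List α) (M : List (α × α)) (s : List (α × α) × List (α × α)) :
    pruneStep V M s = (s.2.head?).elim (s.1, []) fun e =>
      if aug V (M ++ (s.1 ++ s.2.tail)) M = true then (s.1, s.2.tail) else (e :: s.1, s.2.tail) := by
  obtain ⟨K, R⟩ := s
  cases R <;> rfl

@[fun_prop]
theorem pruneStepPT {V : δ → List α} {M : δ → List (α × α)}
    {s : δ → List (α × α) × List (α × α)} (hV : PT V) (hM : PT M) (hs : PT s) :
    PT (fun x => pruneStep (V x) (M x) (s x)) := by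
  simp only [pruneStep_eq]
  fun_prop

theorem sz_pruneStep (V : List α) (M : List (α × α)) (s : List (α × α) × List (α × α)) :
    sz (pruneStep V M s) ≤ sz s := by
  obtain ⟨K, R⟩ := s
  cases R with
  | nil => exact le_refl _
  | cons e R =>
    have h : pruneStep V M (K, e :: R) =
      if aug V (M ++ (K ++ R)) M = true then (K, R) else (e :: K, R) := rfl
    rw [h]
    split_ifs
    · rw [sz_pair, sz_pair, sz_cons]; omega
    · rw [sz_pair, sz_pair, sz_cons, sz_cons]; omega

@[fun_prop]
theorem prunePT {V : δ → List α} {E M : δ → List (α × α)} (hV : PT V) (hE : PT E) (hM : PT M) :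
    PT (fun x => prune (V x) (E x) (M x)) := by
  have h : PT fun x => (pruneStep (V x) (M x))^[(E x).length] (([] : List (α × α)), E x) := by
    refine iterateA (n := fun x => (E x).length) (s0 := fun x => (([] : List (α × α)), E x))
      (f := fun x s => pruneStep (V x) (M x) s) (by fun_prop) (by fun_prop) (by fun_prop)
      (PB.const 0) ?_
    intro x s
    exact sz_pruneStep _ _ _
  have h2 : PT fun x => ((pruneStep (V x) (M x))^[(E x).length] (([] : List (α × α)), E x)).1 := by
    fun_prop
  exact h2

theorem sz_prune (V : List α) (E M : List (α × α)) : sz (prune V E M) ≤ sz E := by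
  have h : ∀ k, sz ((pruneStep V M)^[k] (([] : List (α × α)), E)) ≤
      sz (([] : List (α × α)), E) := by
    intro k
    induction k with
    | zero => exact le_refl _
    | succ k ih =>
      rw [Function.iterate_succ_apply']
      exact (sz_pruneStep _ _ _).trans ih
  have h1 := h E.length
  have h4 : sz (([] : List (α × α)), E) = 1 + sz E + 1 := by rw [sz_pair, sz_nil]
  unfold prune
  have h2 : sz ((pruneStep V M)^[E.length] (([] : List (α × α)), E)) =
    sz ((pruneStep V M)^[E.length] (([] : List (α × α)), E)).1 +
      sz ((pruneStep V M)^[E.length] (([] : List (α × α)), E)).2 + 1 := sz_pair _ _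
  have h3 := sz_pos ((pruneStep V M)^[E.length] (([] : List (α × α)), E)).2
  omega

theorem sz_filter_le {γ : Type} [Enc γ] (l : List γ) (f : γ → Bool) : sz (l.filter f) ≤ sz l := by
  induction l with
  | nil => exact le_refl _
  | cons a l ih =>
    rw [List.filter_cons]
    split_ifs
    · rw [sz_cons, sz_cons]; omega
    · rw [sz_cons]; omega

@[fun_prop]
theorem improvePT {V : δ → List α} {E M : δ → List (α × α)} (hV : PT V) (hE : PT E) (hM : PT M) :
    PT (fun x => improve (V x) (E x) (M x)) := by
  unfold improve
  fun_prop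

@[fun_prop]
theorem maxMatchingPT {V : δ → List α} {E : δ → List (α × α)} (hV : PT V) (hE : PT E) :
    PT (fun x => maxMatching (V x) (E x)) := by
  obtain ⟨qE, hqE, HqE⟩ := hE.size
  refine iterateA (n := fun x => (V x).length) (s0 := fun x => ([] : List (α × α)))
    (f := fun x s => improve (V x) (E x) s) (by fun_prop) (by fun_prop) (by fun_prop) hqE ?_
  intro x s
  show sz (improve (V x) (E x) s) ≤ _
  unfold improve
  split_ifs
  · have h1 := sz_append (prune (V x) (E x) s) (untouched s (ends (prune (V x) (E x) s)))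
    have h2 := sz_prune (V x) (E x) s
    have h3 : sz (untouched s (ends (prune (V x) (E x) s))) ≤ sz s := sz_filter_le _ _
    have h4 := HqE x
    omega
  · omega

/-- The algorithm for perfect matchings runs in polynomial time. -/
@[fun_prop]
theorem pmDecPT {V : δ → List α} {E : δ → List (α × α)} (hV : PT V) (hE : PT E) :
    PT (fun x => pmDec (V x) (E x)) := by
  unfold pmDec
  fun_prop

end Pool.Agent.Lib.MP_9c5086_lc.PM
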